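import Pool.Agent.GW.LeafBase

/-!
# MP_27938c_co: ports that are not legal (L3)
-/

namespace GW

variable {S T I : Type}

/-- an item that is changed by a flip at a port of an S-state, other than the port, is `-` -/
theorem changed_cases {g : ST S T I} {c : I → Bool} {k i : I} (h : g.flipc k c i ≠ c i) :
    i = k ∨ (g.hd i = g.hd k ∧ ∃ z, g.tl i = Sum.inl z) ∨
      (g.tl i = g.tl k ∧ ∃ w, g.hd i = Sum.inr w) := by
  by_contra hcon
  apply h
  unfold ST.flipc
  rw [if_neg hcon]

theorem Bad_proof : Stmt_Bad := by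
  intro S T I g hg hS _ c N k hst hF hk hleg
  obtain ⟨u, w, hkw, hku, hus, hwt, hFu, -⟩ := hF
  have huN : u ∈ N := by rw [hku] at hk; simpa using hk
  have hck : c k = true := hst.K_true hk hkw
  -- colours of the changed items
  have hx : ∀ i, g.hd i = g.hd k → (∃ z, g.tl i = Sum.inl z) → c i = false := by
    rintro i hi ⟨z, hz⟩
    by_contra hcon
    have hci : c i = true := by simpa using hcon
    have hik : i ≠ k := by
      rintro rfl
      rw [hkw] at hz
      cases hz
    have hE : ∀ j, g.hd j = Sum.inl u → j = i ∨ j = k := by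
      intro j hj
      have h1 : ({i, k} : Set I) ⊆ g.inE u := by
        rintro l (rfl | rfl)
        · show g.hd l = _
          rw [hi, hku]
        · exact hku
      have hfin := hg.finI
      have h2 := Set.eq_of_subset_of_ncard_le h1 (by
        rw [hg.inE_card u, Set.ncard_pair hik]) (Set.toFinite _)
      have h3 : j ∈ g.inE u := hj
      rw [← h2] at h3
      exact h3
    have hnh : ¬ g.Hit c false (SetS T {u}) := by
      rintro ⟨j, hj, hj1, hj2⟩
      obtain ⟨v, hv, hv'⟩ := mem_SetS_iff.1 hj1
      rw [Set.mem_singleton_iff] at hv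
      subst hv
      rcases hE j hv' with rfl | rfl
      · rw [hci] at hj; cases hj
      · rw [hck] at hj; cases hj
    have hNu : N = {u} := Set.Subset.antisymm
      (hst.min {u} (by simpa using hus.symm) ⟨u, rfl⟩ hnh) (by simpa using huN)
    obtain ⟨-, k1, k2, -, hE2, ⟨a1, b1, h1, -⟩, ⟨a2, b2, h2, -⟩⟩ := hst.star u hNu
    have h3 : i ∈ g.inE u := by show g.hd i = _; rw [hi, hku]
    rw [hE2] at h3
    rcases h3 with h3 | h3
    · rw [h3, h1] at hz; cases hz
    · rw [Set.mem_singleton_iff.1 h3, h2] at hz; cases hz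
  have hy : ∀ i, g.tl i = g.tl k → (∃ x, g.hd i = Sum.inr x) → c i = false := by
    rintro i hi ⟨x, hx'⟩
    by_contra hcon
    have hci : c i = true := by simpa using hcon
    have : i = k := hst.out_unique hg hwt (by rw [hi, hkw]) hkw (by rw [hci, hck])
    rw [this, hku] at hx'
    cases hx'
  unfold ST.LegC at hleg
  push Not at hleg
  obtain ⟨W, hW, b, hb⟩ := hleg
  -- an item entering `W` of colour `b` is changed
  have hch : ∀ i, c i = b → g.hd i ∈ W → g.tl i ∉ W → i = k ∨
      (g.hd i = g.hd k ∧ ∃ z, g.tl i = Sum.inl z) ∨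
      (g.tl i = g.tl k ∧ ∃ w, g.hd i = Sum.inr w) := by
    intro i hi h1 h2
    apply changed_cases (c := c)
    intro h
    exact hb ⟨i, by rw [h, hi], h1, h2⟩
  cases b with
  | false =>
    left
    have hkW : ¬ (Sum.inl u ∈ W ∧ Sum.inr w ∉ W) := by
      rintro ⟨h1, h2⟩
      exact hb ⟨k, by rw [flipc_self, hck]; rfl, by rw [hku]; exact h1, by rw [hkw]; exact h2⟩
    have hWN : ∀ v ∈ N, Sum.inl v ∉ W := by
      by_cases huW : Sum.inl u ∈ W
      · exfalso
        have hwW : Sum.inr w ∈ W := by
          by_contra h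
          exact hkW ⟨huW, h⟩
        have hTI : g.TI (W ∪ SetS T N) := by
          refine ⟨closed_union hW.1 (closed_SetS g N), Or.inl hW.2.1, ?_⟩
          rintro (h | h)
          · exact hW.2.2 h
          · exact inr_mem_SetS N _ h
        obtain ⟨j, hj, hj1, hj2⟩ := hst.tI _ hTI false
        have hj3 : g.hd j ∉ SetS T N := by
          intro h
          rw [hst.true_of_tl h (fun h' => hj2 (Or.inr h'))] at hj
          cases hj
        have hj4 : g.hd j ∈ W := hj1.resolve_right hj3
        rcases hch j hj hj4 (fun h => hj2 (Or.inl h)) with h | ⟨h, -⟩ | ⟨h, -⟩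
        · rw [h, hck] at hj; cases hj
        · exact hj3 (by rw [h]; exact hk)
        · exact hj2 (Or.inl (by rw [h, hkw]; exact hwW))
      · intro v hv hvW
        have hA : g.Hit c false (SetS T {v | v ∈ N ∧ Sum.inl v ∈ W}) := by
          by_contra hcon
          have := hst.min {v | v ∈ N ∧ Sum.inl v ∈ W} (fun h => hst.hs h.1) ⟨v, hv, hvW⟩ hcon
          exact huW (this huN).2
        obtain ⟨j, hj, hj1, hj2⟩ := hA
        obtain ⟨v', ⟨hv1, hv2⟩, hv3⟩ := mem_SetS_iff.1 hj1
        have hj3 : g.tl j ∈ SetS T N := by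
          by_contra h
          rw [hst.true_of_tl (by rw [hv3]; simpa using hv1) h] at hj
          cases hj
        obtain ⟨z, hz1, hz2⟩ := mem_SetS_iff.1 hj3
        have hj4 : g.tl j ∉ W := by
          intro h
          apply hj2
          rw [hz2] at h ⊢
          rw [inl_mem_SetS]
          exact ⟨hz1, h⟩
        rcases hch j hj (by rw [hv3]; exact hv2) hj4 with h | ⟨h, -⟩ | ⟨-, x, h⟩
        · rw [h, hck] at hj; cases hj
        · rw [hku, hv3] at h
          cases h
          exact huW hv2
        · rw [hv3] at h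
          cases h
    refine ⟨W, hW, hWN, fun i hi h1 h2 => ?_⟩
    rcases hch i hi h1 h2 with h | ⟨h, -⟩ | h
    · rw [h, hck] at hi; cases hi
    · exact absurd (by rw [← hku, ← h]; exact h1) (hWN u huN)
    · exact h
  | true =>
    right
    have hF1 : ∀ i, c i = true → g.hd i ∈ W → g.tl i ∉ W → i = k := by
      intro i hi h1 h2
      rcases hch i hi h1 h2 with h | ⟨h, h'⟩ | ⟨h, h'⟩
      · exact h
      · rw [hx i h h'] at hi; cases hi
      · rw [hy i h h'] at hi; cases hi
    have hkW : g.hd k ∈ W ∧ g.tl k ∉ W := by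
      obtain ⟨i, hi, h1, h2⟩ := hst.tI W hW true
      have := hF1 i hi h1 h2
      subst this
      exact ⟨h1, h2⟩
    have huW : Sum.inl u ∈ W := by rw [← hku]; exact hkW.1
    have hwW : Sum.inr w ∉ W := by rw [← hkw]; exact hkW.2
    have hoth : ∀ i, g.hd i = g.hd k → i ≠ k → g.tl i ∈ W := by
      intro i hi hik
      by_contra hcon
      rcases ht : g.tl i with z | w'
      · refine hb ⟨i, ?_, by rw [hi]; exact hkW.1, hcon⟩
        rw [flipc_X' g c ht hi, hx i hi ⟨z, ht⟩]
        rfl
      · exact hik (hF1 i (hst.K_true (by rw [hi]; exact hk) ht) (by rw [hi]; exact hkW.1) hcon)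
    refine ⟨⟨W, hW, hF1, hkW.1, hkW.2, hoth⟩, u, hku, ?_⟩
    have hWc := (closed_iff g W).1 hW.1
    rcases hFu with hP | ⟨hD, -⟩
    · -- a pair
      have hnotD : N ≠ {u} := by
        intro hN
        obtain ⟨-, k1, k2, -, hE2, ⟨a1, b1, h1, -⟩, ⟨a2, b2, h2, -⟩⟩ := hst.star u hN
        obtain ⟨-, k3, x3, -, hE3, -, ⟨a3, b3, h3, -⟩⟩ := hP
        have h4 : x3 ∈ g.inE u := by rw [hE3]; simp
        rw [hE2] at h4
        rcases h4 with h4 | h4
        · rw [h4, h1] at h3; cases h3
        · rw [Set.mem_singleton_iff.1 h4, h2] at h3; cases h3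
      -- the inner out-item is `-`
      have hinn : ∀ i ∈ g.inner u, c i = false := by
        obtain ⟨i0, hi0⟩ := hS.pair u hP
        have hA : g.Hit c false (SetS T (N \ {u})) := by
          by_contra hcon
          by_cases hne : (N \ {u}).Nonempty
          · have := hst.min (N \ {u}) (fun h => hst.hs h.1) hne hcon
            exact (this huN).2 rfl
          · apply hnotD
            refine Set.Subset.antisymm ?_ (by simpa using huN)
            intro x hx'
            by_contra h
            exact hne ⟨x, hx', h⟩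
        obtain ⟨j, hj, hj1, hj2⟩ := hA
        obtain ⟨v, ⟨hv1, hv2⟩, hv3⟩ := mem_SetS_iff.1 hj1
        have hj3 : g.tl j ∈ SetS T N := by
          by_contra h
          rw [hst.true_of_tl (by rw [hv3]; simpa using hv1) h] at hj
          cases hj
        obtain ⟨z, hz1, hz2⟩ := mem_SetS_iff.1 hj3
        have hzu : z = u := by
          by_contra h
          apply hj2
          rw [hz2, inl_mem_SetS]
          exact ⟨hz1, h⟩
        subst hzu
        have hj4 : j ∈ g.inner z := by
          refine ⟨hz2, ?_⟩
          rw [hv3]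
          exact fun h => hst.ne_s hv1 (Sum.inl.inj h)
        intro i hi
        rw [hi0] at hi hj4
        rw [Set.mem_singleton_iff.1 hi, ← Set.mem_singleton_iff.1 hj4]
        exact hj
      have hTI : g.TI (W \ {Sum.inl u}) := by
        refine ⟨?_, ⟨hW.2.1, fun h => hus (Sum.inl.inj h).symm⟩, fun h => hW.2.2 h.1⟩
        rw [closed_iff]
        rintro v w' hB ⟨h1, -⟩
        refine ⟨hWc v w' hB h1, ?_⟩
        intro hv
        have hv' : v = u := Sum.inl.inj hv
        subst hv'
        have hw't : w' ≠ g.t := by rintro rfl; exact hW.2.2 h1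
        obtain ⟨k4, hk4, hk4'⟩ := hg.hop hB hus hw't
        have hk4k : k4 = k := by
          by_contra hne
          obtain ⟨-, k3, x3, -, hE3, -, ⟨a3, b3, h3, -⟩⟩ := hP
          have h5 : k4 ∈ g.inE v := hk4'
          have h6 : k ∈ g.inE v := hku
          rw [hE3] at h5 h6
          rcases h5 with h5 | h5
          · rcases h6 with h6 | h6
            · exact hne (h5.trans h6.symm)
            · rw [← Set.mem_singleton_iff.1 h6, hkw] at h3; cases h3
          · rw [← Set.mem_singleton_iff.1 h5, hk4] at h3; cases h3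
        subst hk4k
        rw [hkw] at hk4
        rw [← Sum.inr.inj hk4] at h1
        exact hwW h1
      obtain ⟨j, hj, ⟨hj1, hj1'⟩, hj2⟩ := hst.tI _ hTI true
      have hj3 : g.tl j = Sum.inl u := by
        by_contra h
        have hj4 : g.tl j ∉ W := fun h' => hj2 ⟨h', h⟩
        have := hF1 j hj hj1 hj4
        rw [this] at hj1'
        exact hj1' hku
      refine ⟨j, ⟨hj3, ?_⟩, hj⟩
      by_contra h
      rw [hinn j ⟨hj3, h⟩] at hj
      cases hj
    · -- a double
      obtain ⟨-, k1, k2, h12, hE2, hK1, hK2⟩ := id hD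
      -- the other K item `k'`
      obtain ⟨k', hkk', hku', w2, hw2, hw2t, hE⟩ : ∃ k', k' ≠ k ∧ g.hd k' = Sum.inl u ∧ ∃ w2,
          g.tl k' = Sum.inr w2 ∧ w2 ≠ g.t ∧ ∀ i, g.hd i = Sum.inl u → i = k ∨ i = k' := by
        have h6 : k ∈ g.inE u := hku
        rw [hE2] at h6
        obtain ⟨a1, b1, h1, h1', -, h1t⟩ := hK1
        obtain ⟨a2, b2, h2, h2', -, h2t⟩ := hK2
        have m1 : k1 ∈ g.inE u := by rw [hE2]; simp
        have m2 : k2 ∈ g.inE u := by rw [hE2]; simp
        rcases h6 with h6 | h6
        · subst h6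
          refine ⟨k2, h12.symm, m2, b2, h2, h2t, fun i hi => ?_⟩
          have : i ∈ g.inE u := hi
          rw [hE2] at this
          exact this
        · have h6' : k = k2 := h6
          subst h6'
          refine ⟨k1, h12, m1, b1, h1, h1t, fun i hi => ?_⟩
          have : i ∈ g.inE u := hi
          rw [hE2] at this
          exact this.symm
      have hk'N : g.hd k' ∈ SetS T N := by rw [hku']; simpa using huN
      have hck' : c k' = true := hst.K_true hk'N hw2
      have hTI : g.TI (W \ {Sum.inl u, Sum.inr w2}) := by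
        refine ⟨?_, ⟨hW.2.1, ?_⟩, fun h => hW.2.2 h.1⟩
        · rw [closed_iff]
          rintro v w' hB ⟨h1, h1'⟩
          refine ⟨hWc v w' hB h1, ?_⟩
          rintro (hv | hv)
          · have hv' : v = u := Sum.inl.inj hv
            subst hv'
            have hw't : w' ≠ g.t := by rintro rfl; exact hW.2.2 h1
            obtain ⟨k4, hk4, hk4'⟩ := hg.hop hB hus hw't
            rcases hE k4 hk4' with rfl | rfl
            · rw [hkw] at hk4
              rw [← Sum.inr.inj hk4] at h1
              exact hwW h1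
            · rw [hw2] at hk4
              exact h1' (Or.inr hk4.symm)
          · cases hv
        · rintro (h | h)
          · exact hus (Sum.inl.inj h).symm
          · cases h
      obtain ⟨j, hj, ⟨hj1, hj1'⟩, hj2⟩ := hst.tI _ hTI true
      have hj3 : g.tl j = Sum.inl u ∨ g.tl j = Sum.inr w2 := by
        by_contra h
        have hj4 : g.tl j ∉ W := fun h' => hj2 ⟨h', h⟩
        have := hF1 j hj hj1 hj4
        rw [this] at hj1'
        exact hj1' (Or.inl hku)
      rcases hj3 with hj3 | hj3
      · refine ⟨j, ⟨hj3, ?_⟩, hj⟩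
        by_contra h
        have h5 : j ∈ g.inner u := ⟨hj3, h⟩
        rw [hS.dbl u (Or.inl hD)] at h5
        exact h5
      · exfalso
        have := hst.out_unique hg hw2t hj3 hw2 (by rw [hj, hck'])
        rw [this] at hj1'
        exact hj1' (Or.inl hku')

end GW
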