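import Pool.Agent.GW.Dual

/-!
# MP_27938c_co: module CT (contraction of a sink with two interior K out-items)
-/

namespace GW

variable {S T I : Type}

namespace CT

open Classical in
/-- the contraction map -/
noncomputable def phi (u u' : S) (x : S ⊕ T) : S ⊕ T :=
  if x = Sum.inl u' then Sum.inl u else x

theorem phi_self (u u' : S) : phi u u' (Sum.inl u' : S ⊕ T) = Sum.inl u := by
  simp [phi]

theorem phi_of_ne {u u' : S} {x : S ⊕ T} (h : x ≠ Sum.inl u') : phi u u' x = x := by
  simp [phi, h]

open Classical in
/-- the contracted instance -/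
noncomputable def inst (g : ST S T I) (w : T) (u u' : S) (k k' : I) (hw : w ≠ g.t)
    (hu' : u' ≠ g.s) (huu : u ≠ u') (hout : ∀ i, g.tl i = Sum.inr w → i = k ∨ i = k')
    (hin : ∀ i, g.hd i ≠ Sum.inr w) : RInst S T I where
  kS := {u'}ᶜ
  kT := {w}ᶜ
  s := g.s
  t := g.t
  hs := fun h => hu' (Set.mem_singleton_iff.1 h).symm
  ht := fun h => hw (Set.mem_singleton_iff.1 h).symm
  B := fun x y => g.B x y ∨ (x = u ∧ g.B u' y)
  Bs := fun y _ => Or.inl (g.Bs y)
  Bt := fun x _ => Or.inl (g.Bt x)
  tl := fun i => if i = k ∨ i = k' then Sum.inl g.s else phi u u' (g.tl i)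
  hd := fun i => if i = k ∨ i = k' then Sum.inl g.s else phi u u' (g.hd i)
  kind := fun i => by
    by_cases h : i = k ∨ i = k'
    · simp only [if_pos h]
      refine Or.inr (Or.inl ⟨g.s, g.s, ?_, ?_, rfl, rfl⟩) <;>
      exact fun h => hu' (Set.mem_singleton_iff.1 h).symm
    · simp only [if_neg h]
      rcases g.kind i with ⟨x, y, hB, h1, h2⟩ | ⟨x, y, h1, h2⟩ | ⟨x, y, h1, h2⟩
      · left
        have hy : y ≠ w := by
          rintro rfl
          exact h (hout i h1)
        by_cases hx : x = u'
        · subst hx
          refine ⟨u, y, huu, hy, Or.inr ⟨rfl, hB⟩, ?_, ?_⟩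
          · rw [h1, phi_of_ne (by simp)]
          · rw [h2, phi_self]
        · refine ⟨x, y, hx, hy, Or.inl hB, ?_, ?_⟩
          · rw [h1, phi_of_ne (by simp)]
          · rw [h2, phi_of_ne (by simpa using hx)]
      · right; left
        by_cases hx : x = u'
        · by_cases hy : y = u'
          · refine ⟨u, u, huu, huu, ?_, ?_⟩
            · rw [h1, hy, phi_self]
            · rw [h2, hx, phi_self]
          · refine ⟨u, y, huu, hy, ?_, ?_⟩
            · rw [h1, phi_of_ne (by simpa using hy)]
            · rw [h2, hx, phi_self]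
        · by_cases hy : y = u'
          · refine ⟨x, u, hx, huu, ?_, ?_⟩
            · rw [h1, hy, phi_self]
            · rw [h2, phi_of_ne (by simpa using hx)]
          · refine ⟨x, y, hx, hy, ?_, ?_⟩
            · rw [h1, phi_of_ne (by simpa using hy)]
            · rw [h2, phi_of_ne (by simpa using hx)]
      · right; right
        refine ⟨x, y, ?_, ?_, ?_, ?_⟩
        · rintro (rfl : x = w)
          exact h (hout i h1)
        · rintro (rfl : y = w)
          exact hin i h2
        · rw [h1, phi_of_ne (by simp)]
        · rw [h2, phi_of_ne (by simp)]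

end CT

open CT in
theorem CT_proof : Stmt_CT := by
  classical
  intro S T I g hg w u u' k k' hw hu hu' huu hkk hout hhk hhk' hin
  have := hg.finS
  have := hg.finT
  have := hg.finI
  have hout' : ∀ i, g.tl i = Sum.inr w → i = k ∨ i = k' := by
    intro i hi
    have : i ∈ {i | g.tl i = Sum.inr w} := hi
    rw [hout] at this
    simpa using this
  have htk : g.tl k = Sum.inr w := by
    have : k ∈ {i | g.tl i = Sum.inr w} := by rw [hout]; simp
    exact this
  have htk' : g.tl k' = Sum.inr w := by
    have : k' ∈ {i | g.tl i = Sum.inr w} := by rw [hout]; simp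
    exact this
  have hBu : g.B u w := hop_of_K g htk hhk
  have hBu' : g.B u' w := hop_of_K g htk' hhk'
  by_contra hcon
  push Not at hcon
  set r := CT.inst g w u u' k k' hw hu' huu hout' hin with hr
  -- basic facts
  have hkept : ∀ x, x ∈ r.kept ↔ x ≠ Sum.inl u' ∧ x ≠ Sum.inr w := by
    rintro (x | x)
    · simp [RInst.kept, hr, CT.inst]
    · simp [RInst.kept, hr, CT.inst]
  have htlk : ∀ i, i = k ∨ i = k' → r.tl i = r.hd i := by
    intro i hi
    simp only [hr, CT.inst, if_pos hi]
  have htlr : ∀ i, ¬ (i = k ∨ i = k') → r.tl i = phi u u' (g.tl i) := by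
    intro i hi
    simp only [hr, CT.inst, if_neg hi]
  have hhdr : ∀ i, ¬ (i = k ∨ i = k') → r.hd i = phi u u' (g.hd i) := by
    intro i hi
    simp only [hr, CT.inst, if_neg hi]
  have hent : ∀ (U : Set (S ⊕ T)) i, r.hd i ∈ U → r.tl i ∉ U →
      ¬ (i = k ∨ i = k') ∧ phi u u' (g.hd i) ∈ U ∧ phi u u' (g.tl i) ∉ U := by
    intro U i h1 h2
    have hi : ¬ (i = k ∨ i = k') := by
      intro hi
      rw [htlk i hi] at h2
      exact h2 h1
    rw [hhdr i hi] at h1
    rw [htlr i hi] at h2
    exact ⟨hi, h1, h2⟩
  have hKC : ∀ U : Set (S ⊕ T), r.KC U → Closed g.r {x | phi u u' x ∈ U} := by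
    intro U hU
    rw [closed_iff]
    intro x y hB hy
    have hy' : (Sum.inr y : S ⊕ T) ∈ U := by
      have : phi u u' (Sum.inr y : S ⊕ T) ∈ U := hy
      rwa [phi_of_ne (by simp)] at this
    show phi u u' (Sum.inl x : S ⊕ T) ∈ U
    by_cases hx : x = u'
    · subst hx
      rw [phi_self]
      exact hU.2 u y huu (Or.inr ⟨rfl, hB⟩) hy'
    · rw [phi_of_ne (by simpa using hx)]
      exact hU.2 x y hx (Or.inl hB) hy'
  -- validity
  have hvalid : r.Valid 2 := by
    intro U hU hUn hUk
    have hsub : Ent g.tl g.hd {x | phi u u' x ∈ U} \ {k, k'} ⊆ Ent r.tl r.hd U := by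
      rintro i ⟨⟨h1, h2⟩, h3⟩
      have h3' : ¬ (i = k ∨ i = k') := by simpa using h3
      refine ⟨?_, ?_⟩
      · rw [hhdr i h3']; exact h1
      · rw [htlr i h3']; exact h2
    by_cases huU : Sum.inl u ∈ U
    · by_cases hsU : Sum.inl g.s ∈ U
      · -- type I containing u
        let W : Set (S ⊕ T) := {x | phi u u' x ∈ U} ∪ {Sum.inr w}
        have hWc : Closed g.r W := by
          rw [closed_iff]
          intro x y hB hy
          rcases hy with hy | hy
          · exact Or.inl ((closed_iff g _).1 (hKC U hU) x y hB hy)
          · left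
            have hyw : y = w := by simpa using hy
            subst hyw
            show phi u u' (Sum.inl x : S ⊕ T) ∈ U
            by_cases hxs : x = g.s
            · subst hxs
              rwa [phi_of_ne (by simpa using hu'.symm)]
            · obtain ⟨j, hj1, hj2⟩ := hg.hop hB hxs hw
              rcases hout' j hj1 with rfl | rfl
              · rw [hhk, Sum.inl.injEq] at hj2
                subst hj2
                rwa [phi_of_ne (by simpa using huu)]
              · rw [hhk', Sum.inl.injEq] at hj2
                subst hj2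
                rwa [phi_self]
        have hWn : W ≠ Set.univ := by
          intro hW
          apply hUk
          apply Set.Subset.antisymm hU.1
          intro x hx
          have hx' := (hkept x).1 hx
          have : x ∈ W := by rw [hW]; trivial
          rcases this with h | h
          · have h' : phi u u' x ∈ U := h
            rwa [phi_of_ne hx'.1] at h'
          · exact absurd (by simpa using h) hx'.2
        refine (hg.valid W hWc ⟨_, Or.inr rfl⟩ hWn).trans (Set.ncard_le_ncard ?_ (Set.toFinite _))
        refine Set.Subset.trans ?_ hsub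
        rintro i ⟨h1, h2⟩
        refine ⟨⟨?_, fun h => h2 (Or.inl h)⟩, ?_⟩
        · rcases h1 with h | h
          · exact h
          · exact absurd (by simpa using h) (hin i)
        · intro h
          apply h2
          right
          rcases h with rfl | h
          · exact htk
          · rw [Set.mem_singleton_iff] at h
            rw [h]
            exact htk'
      · -- type II containing u
        have hset : {x | phi u u' x ∈ U} = SetS T {x | phi u u' (Sum.inl x) ∈ U} := by
          ext x
          rcases x with x | y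
          · simp
          · have : (Sum.inr y : S ⊕ T) ∉ U := by
              intro hy
              exact hsU (hU.2 g.s y (fun h => hu' (Set.mem_singleton_iff.1 h).symm)
                (Or.inl (g.Bs y)) hy)
            simp [phi_of_ne, this]
        have h4 : 4 ≤ (Ent g.tl g.hd {x | phi u u' x ∈ U}).ncard := by
          rw [hset]
          apply hcon
          · show ¬ phi u u' (Sum.inl g.s) ∈ U
            rwa [phi_of_ne (by simpa using hu'.symm)]
          · show phi u u' (Sum.inl u) ∈ U
            rwa [phi_of_ne (by simpa using huu)]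
          · show phi u u' (Sum.inl u') ∈ U
            rwa [phi_self]
        have h5 := Set.ncard_le_ncard hsub (Set.toFinite _)
        have h6 := Set.le_ncard_sdiff ({k, k'} : Set I) (Ent g.tl g.hd {x | phi u u' x ∈ U})
          (Set.toFinite _)
        have h7 : ({k, k'} : Set I).ncard = 2 := Set.ncard_pair hkk
        omega
    · -- u not in U
      have hnu : ∀ x, x = Sum.inl u ∨ x = Sum.inl u' → phi u u' x ∉ U := by
        rintro x (rfl | rfl)
        · rwa [phi_of_ne (by simpa using huu)]
        · rwa [phi_self]
      refine (hg.valid {x | phi u u' x ∈ U} (hKC U hU) ?_ ?_).trans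
        (Set.ncard_le_ncard (Set.Subset.trans ?_ hsub) (Set.toFinite _))
      · obtain ⟨x, hx⟩ := hUn
        refine ⟨x, ?_⟩
        show phi u u' x ∈ U
        rwa [phi_of_ne ((hkept x).1 (hU.1 hx)).1]
      · intro hh
        have : (Sum.inl u : S ⊕ T) ∈ {x | phi u u' x ∈ U} := by rw [hh]; trivial
        exact hnu _ (Or.inl rfl) this
      · rintro i ⟨h1, h2⟩
        refine ⟨⟨h1, h2⟩, ?_⟩
        rintro (rfl | h)
        · exact hnu _ (Or.inl hhk) h1
        · rw [Set.mem_singleton_iff] at h
          rw [h] at h1
          exact hnu _ (Or.inr hhk') h1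
  -- fewer vertices
  have hcard : Nat.card ↥r.kS + Nat.card ↥r.kT < Nat.card S + Nat.card T := by
    have h1 : Nat.card ↥r.kS < Nat.card S := by
      have : (({u'} : Set S)ᶜ).ncard < (Set.univ : Set S).ncard := by
        apply Set.ncard_lt_ncard _ (Set.toFinite _)
        rw [Set.ssubset_univ_iff]
        intro hh
        have : u' ∈ ({u'} : Set S)ᶜ := by rw [hh]; trivial
        simp at this
      rw [Set.ncard_univ] at this
      exact this
    have h2 : Nat.card ↥r.kT < Nat.card T := by
      have : (({w} : Set T)ᶜ).ncard < (Set.univ : Set T).ncard := by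
        apply Set.ncard_lt_ncard _ (Set.toFinite _)
        rw [Set.ssubset_univ_iff]
        intro hh
        have : w ∈ ({w} : Set T)ᶜ := by rw [hh]; trivial
        simp at this
      rw [Set.ncard_univ] at this
      exact this
    omega
  obtain ⟨c, hc⟩ := hg.colourR r hcard hvalid
  -- the other in-items
  have hother : ∀ (v : S) (j : I), g.hd j = Sum.inl v → ∃ x, x ≠ j ∧ g.hd x = Sum.inl v ∧
      ∀ i, g.hd i = Sum.inl v → i = j ∨ i = x := by
    intro v j hj
    have h2 := hg.inE_card v
    rw [Set.ncard_eq_two] at h2
    obtain ⟨a, b, hab, he⟩ := h2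
    have hja : j ∈ g.inE v := hj
    rw [he] at hja
    have hall : ∀ i, g.hd i = Sum.inl v → i = a ∨ i = b := by
      intro i hi
      have : i ∈ g.inE v := hi
      rw [he] at this
      simpa using this
    have ha : g.hd a = Sum.inl v := by
      have : a ∈ g.inE v := by rw [he]; simp
      exact this
    have hb : g.hd b = Sum.inl v := by
      have : b ∈ g.inE v := by rw [he]; simp
      exact this
    rcases hja with rfl | hjb
    · exact ⟨b, hab.symm, hb, hall⟩
    · rw [Set.mem_singleton_iff] at hjb
      subst hjb
      exact ⟨a, hab, ha, fun i hi => (hall i hi).symm⟩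
  obtain ⟨x, hxk, hhx, hxall⟩ := hother u k hhk
  obtain ⟨x', hxk', hhx', hxall'⟩ := hother u' k' hhk'
  -- colours of x and x' differ
  have hstar : ∀ b, c x = b ∨ c x' = b := by
    intro b
    obtain ⟨i, hi, h1, h2⟩ := hc {Sum.inl u} ⟨by
        rintro y rfl
        rw [hkept]
        exact ⟨by simpa using huu, by simp⟩, by
        intro y z _ _ hz
        exact absurd hz (by simp)⟩ ⟨_, rfl⟩ (by
        intro hh
        have : (Sum.inl g.s : S ⊕ T) ∈ r.kept := by
          rw [hkept]
          exact ⟨by simpa using hu'.symm, by simp⟩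
        rw [← hh] at this
        simp only [Set.mem_singleton_iff, Sum.inl.injEq] at this
        exact hu this.symm) b
    obtain ⟨h3, h4, _⟩ := hent _ i h1 h2
    rw [not_or] at h3
    rw [Set.mem_singleton_iff] at h4
    by_cases hiu : g.hd i = Sum.inl u'
    · rcases hxall' i hiu with h | h
      · exact absurd h h3.2
      · right; rw [← h]; exact hi
    · rw [phi_of_ne hiu] at h4
      rcases hxall i h4 with h | h
      · exact absurd h h3.1
      · left; rw [← h]; exact hi
  have hcx : c x' = !c x := by
    rcases hstar (!c x) with h | h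
    · cases h' : c x <;> simp [h'] at h
    · exact h
  -- the lifted colouring
  let c' : I → Bool := fun i => if i = k then !c x else if i = k' then c x else c i
  have hc'k : c' k = !c x := by simp [c']
  have hc'k' : c' k' = c x := by simp [c', hkk.symm]
  have hc'i : ∀ i, ¬ (i = k ∨ i = k') → c' i = c i := by
    intro i hi
    rw [not_or] at hi
    simp [c', hi.1, hi.2]
  apply hg.bad c'
  intro Z hZ hZn hZu b
  have hZ' := (closed_iff g Z).1 hZ
  by_cases h1 : Sum.inl u ∈ Z <;> by_cases h2 : Sum.inl u' ∈ Z
  · -- both in Z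
    by_cases hwZ : Sum.inr w ∈ Z
    · -- contract
      have hU : r.KC (Z \ {Sum.inl u', Sum.inr w}) := by
        refine ⟨?_, ?_⟩
        · rintro y ⟨_, hy⟩
          rw [hkept]
          simpa using hy
        · intro y z hy hB hz
          refine ⟨?_, ?_⟩
          · rcases hB with hB | ⟨rfl, hB⟩
            · exact hZ' y z hB hz.1
            · exact h1
          · have : y ≠ u' := hy
            simpa using this
      obtain ⟨i, hi, h3, h4⟩ := hc _ hU ⟨Sum.inl u, h1, by simpa using huu⟩ (by
        intro hh
        apply hZu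
        rw [Set.eq_univ_iff_forall]
        intro y
        by_cases hy : y = Sum.inl u' ∨ y = Sum.inr w
        · rcases hy with rfl | rfl
          · exact h2
          · exact hwZ
        · rw [not_or] at hy
          have := (hkept y).2 hy
          rw [← hh] at this
          exact this.1) b
      obtain ⟨h5, h6, h7⟩ := hent _ i h3 h4
      refine ⟨i, by rw [hc'i i h5]; exact hi, ?_, ?_⟩
      · by_cases hiu : g.hd i = Sum.inl u'
        · rw [hiu]; exact h2
        · rw [phi_of_ne hiu] at h6
          exact h6.1
      · intro h8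
        apply h7
        by_cases hiu : g.tl i = Sum.inl u'
        · rw [hiu, phi_self]
          exact ⟨h1, by simpa using huu⟩
        · rw [phi_of_ne hiu]
          refine ⟨h8, ?_⟩
          rintro (h | h)
          · exact hiu h
          · exact h5 (hout' i h)
    · have hk : g.Hit c' (!c x) Z := ⟨k, hc'k, by rw [hhk]; exact h1, by rw [htk]; exact hwZ⟩
      have hk' : g.Hit c' (c x) Z := ⟨k', hc'k', by rw [hhk']; exact h2, by rw [htk']; exact hwZ⟩
      by_cases hb : b = c x
      · rw [hb]; exact hk'
      · have : b = !c x := by cases b <;> cases h : c x <;> simp_all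
        rw [this]; exact hk
  · -- u in, u' out
    have hwZ : Sum.inr w ∉ Z := fun h => h2 (hZ' _ _ hBu' h)
    have htZ : Sum.inr g.t ∉ Z := fun h => h2 (hZ' _ _ (g.Bt u') h)
    have hU : r.KC Z := by
      refine ⟨?_, ?_⟩
      · intro y hy
        rw [hkept]
        exact ⟨fun h => h2 (h ▸ hy), fun h => hwZ (h ▸ hy)⟩
      · intro y z hy hB hz
        rcases hB with hB | ⟨rfl, hB⟩
        · exact hZ' y z hB hz
        · exact h1
    obtain ⟨i, hi, h3, h4⟩ := hc _ hU hZn (by
      intro hh
      have : (Sum.inr g.t : S ⊕ T) ∈ r.kept := by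
        rw [hkept]
        exact ⟨by simp, by simpa using hw.symm⟩
      rw [← hh] at this
      exact htZ this) b
    obtain ⟨h5, h6, h7⟩ := hent _ i h3 h4
    have h8 : g.tl i ∉ Z := by
      intro h8
      apply h7
      rwa [phi_of_ne (fun h => h2 (h ▸ h8))]
    by_cases hiu : g.hd i = Sum.inl u'
    · -- i = x'
      have : i = x' := by
        rcases hxall' i hiu with h | h
        · exact absurd (Or.inr h) h5
        · exact h
      refine ⟨k, ?_, by rw [hhk]; exact h1, by rw [htk]; exact hwZ⟩
      rw [hc'k, ← hcx, ← this]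
      exact hi
    · rw [phi_of_ne hiu] at h6
      exact ⟨i, by rw [hc'i i h5]; exact hi, h6, h8⟩
  · -- u out, u' in
    have hwZ : Sum.inr w ∉ Z := fun h => h1 (hZ' _ _ hBu h)
    have htZ : Sum.inr g.t ∉ Z := fun h => h1 (hZ' _ _ (g.Bt u) h)
    have hU : r.KC ((Z \ {Sum.inl u'}) ∪ {Sum.inl u}) := by
      refine ⟨?_, ?_⟩
      · rintro y (hy | hy)
        · rw [hkept]
          refine ⟨by simpa using hy.2, fun h => hwZ (h ▸ hy.1)⟩
        · rw [hkept]
          rw [Set.mem_singleton_iff] at hy
          subst hy
          exact ⟨by simpa using huu, by simp⟩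
      · intro y z hy hB hz
        rcases hz with hz | hz
        · rcases hB with hB | ⟨rfl, hB⟩
          · left
            refine ⟨hZ' y z hB hz.1, ?_⟩
            have : y ≠ u' := hy
            simpa using this
          · right; rfl
        · exact absurd hz (by simp)
    obtain ⟨i, hi, h3, h4⟩ := hc _ hU ⟨_, Or.inr rfl⟩ (by
      intro hh
      have : (Sum.inr g.t : S ⊕ T) ∈ r.kept := by
        rw [hkept]
        exact ⟨by simp, by simpa using hw.symm⟩
      rw [← hh] at this
      rcases this with h | h
      · exact htZ h.1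
      · exact absurd h (by simp)) b
    obtain ⟨h5, h6, h7⟩ := hent _ i h3 h4
    have h8 : g.tl i ∉ Z := by
      intro h8
      apply h7
      by_cases hiu : g.tl i = Sum.inl u'
      · rw [hiu, phi_self]
        exact Or.inr rfl
      · rw [phi_of_ne hiu]
        exact Or.inl ⟨h8, hiu⟩
    by_cases hiu : g.hd i = Sum.inl u'
    · exact ⟨i, by rw [hc'i i h5]; exact hi, by rw [hiu]; exact h2, h8⟩
    · rw [phi_of_ne hiu] at h6
      rcases h6 with h6 | h6
      · exact ⟨i, by rw [hc'i i h5]; exact hi, h6.1, h8⟩
      · -- i = x
        have : i = x := by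
          rcases hxall i h6 with h | h
          · exact absurd (Or.inl h) h5
          · exact h
        refine ⟨k', ?_, by rw [hhk']; exact h2, by rw [htk']; exact hwZ⟩
        rw [hc'k', ← this]
        exact hi
  · -- both out
    have hwZ : Sum.inr w ∉ Z := fun h => h1 (hZ' _ _ hBu h)
    have hU : r.KC Z := by
      refine ⟨?_, ?_⟩
      · intro y hy
        rw [hkept]
        exact ⟨fun h => h2 (h ▸ hy), fun h => hwZ (h ▸ hy)⟩
      · intro y z hy hB hz
        rcases hB with hB | ⟨rfl, hB⟩
        · exact hZ' y z hB hz
        · exact absurd (hZ' u' z hB hz) h2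
    obtain ⟨i, hi, h3, h4⟩ := hc _ hU hZn (by
      intro hh
      have : (Sum.inl u : S ⊕ T) ∈ r.kept := by
        rw [hkept]
        exact ⟨by simpa using huu, by simp⟩
      rw [← hh] at this
      exact h1 this) b
    obtain ⟨h5, h6, h7⟩ := hent _ i h3 h4
    refine ⟨i, by rw [hc'i i h5]; exact hi, ?_, ?_⟩
    · by_cases hiu : g.hd i = Sum.inl u'
      · rw [hiu, phi_self] at h6
        exact absurd h6 h1
      · rwa [phi_of_ne hiu] at h6
    · intro h8
      apply h7
      rwa [phi_of_ne (fun h => h2 (h ▸ h8))]

end GW
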