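import Pool.Agent.GW.Red

/-!
# MP_27938c_co: the deletion (D)

`v → ua → ub → v` is a cycle of X items through an exit vertex `v`; `ua`, `ub` are pairs with
K items `kA : wa → ua`, `kB : wb → ub`; `wa`, `wb` have exactly one in-item each, and it does
not come from `t`.  Then the instance is colourable, given the condition `tv` on type III sets.
-/

namespace GW

open Set

variable {S T I : Type}

/-- number of items leaving `C ⊆ T` -/
noncomputable def ST.dout (g : ST S T I) (C : Set T) : ℕ :=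
  (Ent g.tl g.hd (Sum.inr '' C)ᶜ).ncard

/-- the local data for the deletion (D) -/
structure DelData (g : ST S T I) where
  v : S
  ua : S
  ub : S
  wa : T
  wb : T
  pA : T
  qA : T
  pB : T
  qB : T
  eX : I
  xA : I
  xB : I
  xV : I
  kA : I
  kB : I
  yA : I
  yB : I
  iA : I
  iB : I
  rV : I
  gS : I
  v_ne_s : v ≠ g.s
  ua_ne_s : ua ≠ g.s
  ub_ne_s : ub ≠ g.s
  v_ne_ua : v ≠ ua
  v_ne_ub : v ≠ ub
  ua_ne_ub : ua ≠ ub
  wa_ne_t : wa ≠ g.t
  wb_ne_t : wb ≠ g.t
  wa_ne_wb : wa ≠ wb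
  eX_tl : g.tl eX = Sum.inl v
  eX_hd : g.hd eX = Sum.inl g.s
  xA_tl : g.tl xA = Sum.inl v
  xA_hd : g.hd xA = Sum.inl ua
  xB_tl : g.tl xB = Sum.inl ua
  xB_hd : g.hd xB = Sum.inl ub
  xV_tl : g.tl xV = Sum.inl ub
  xV_hd : g.hd xV = Sum.inl v
  kA_tl : g.tl kA = Sum.inr wa
  kA_hd : g.hd kA = Sum.inl ua
  kB_tl : g.tl kB = Sum.inr wb
  kB_hd : g.hd kB = Sum.inl ub
  yA_tl : g.tl yA = Sum.inr wa
  yA_hd : g.hd yA = Sum.inr qA
  yB_tl : g.tl yB = Sum.inr wb
  yB_hd : g.hd yB = Sum.inr qB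
  iA_tl : g.tl iA = Sum.inr pA
  iA_hd : g.hd iA = Sum.inr wa
  iB_tl : g.tl iB = Sum.inr pB
  iB_hd : g.hd iB = Sum.inr wb
  rV_hd : g.hd rV = Sum.inl v
  rV_ne : rV ≠ xV
  gS_hd : g.hd gS = Sum.inl g.s
  gS_ne : gS ≠ eX
  gS_tl : g.tl gS ≠ Sum.inl v
  in_s : ∀ i, g.hd i = Sum.inl g.s → i = eX ∨ i = gS
  in_v : ∀ i, g.hd i = Sum.inl v → i = xV ∨ i = rV
  in_ua : ∀ i, g.hd i = Sum.inl ua → i = xA ∨ i = kA
  in_ub : ∀ i, g.hd i = Sum.inl ub → i = xB ∨ i = kB
  in_wa : ∀ i, g.hd i = Sum.inr wa → i = iA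
  in_wb : ∀ i, g.hd i = Sum.inr wb → i = iB
  out_ua : ∀ i, g.tl i = Sum.inl ua → i = xB
  out_ub : ∀ i, g.tl i = Sum.inl ub → i = xV
  out_wa : ∀ i, g.tl i = Sum.inr wa → i = kA ∨ i = yA
  out_wb : ∀ i, g.tl i = Sum.inr wb → i = kB ∨ i = yB
  pA_ne_t : pA ≠ g.t
  pB_ne_t : pB ≠ g.t
  qA_ne : qA ≠ wb
  qB_ne : qB ≠ wa
  tvA : ∀ C : Set T, g.t ∉ C → wa ∉ C → wb ∉ C → pA ∈ C → qA ∈ C → 3 ≤ g.dout C
  tvB : ∀ C : Set T, g.t ∉ C → wa ∉ C → wb ∉ C → pB ∈ C → qB ∈ C → 3 ≤ g.dout C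
  tvAB : ∀ C : Set T, g.t ∉ C → wa ∉ C → wb ∉ C → pA ∈ C → qA ∈ C → pB ∈ C → qB ∈ C →
    4 ≤ g.dout C

/-- the other colour -/
def ng (j : Fin 2) : Fin 2 := 1 - j

theorem ng_ng (j : Fin 2) : ng (ng j) = j := by revert j; decide

theorem ng_ne (j : Fin 2) : ng j ≠ j := by revert j; decide

theorem eq_ng_of_ne {i j : Fin 2} (h : i ≠ j) : i = ng j := by revert i j; decide

theorem ng_inj {i j : Fin 2} (h : ng i = ng j) : i = j := by revert i j; decide

namespace DelData

variable {g : ST S T I} (D : DelData g)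

/-- the deleted items -/
def del (i : I) : Prop :=
  i = D.eX ∨ i = D.xA ∨ i = D.xB ∨ i = D.xV ∨ i = D.kA ∨ i = D.kB ∨ i = D.yA ∨ i = D.yB

/-- not a deleted vertex -/
def nR (x : S ⊕ T) : Prop :=
  x ≠ Sum.inl D.v ∧ x ≠ Sum.inl D.ua ∧ x ≠ Sum.inl D.ub ∧ x ≠ Sum.inr D.wa ∧ x ≠ Sum.inr D.wb

/-- classification of the items -/
theorem cls (i : I) :
    D.del i ∨ i = D.rV ∨ i = D.iA ∨ i = D.iB ∨
      (g.tl i = Sum.inl D.v ∧ D.nR (g.hd i) ∧ g.hd i ≠ Sum.inl g.s) ∨
      (D.nR (g.tl i) ∧ D.nR (g.hd i)) := by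
  by_cases hd : D.del i
  · exact Or.inl hd
  by_cases h1 : i = D.rV
  · exact Or.inr (Or.inl h1)
  by_cases h2 : i = D.iA
  · exact Or.inr (Or.inr (Or.inl h2))
  by_cases h3 : i = D.iB
  · exact Or.inr (Or.inr (Or.inr (Or.inl h3)))
  right; right; right; right
  simp only [del, not_or] at hd
  obtain ⟨d1, d2, d3, d4, d5, d6, d7, d8⟩ := hd
  have hH : D.nR (g.hd i) := by
    refine ⟨?_, ?_, ?_, ?_, ?_⟩
    · intro h
      rcases D.in_v i h with h | h <;> contradiction
    · intro h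
      rcases D.in_ua i h with h | h <;> contradiction
    · intro h
      rcases D.in_ub i h with h | h <;> contradiction
    · intro h
      exact h2 (D.in_wa i h)
    · intro h
      exact h3 (D.in_wb i h)
  by_cases hv : g.tl i = Sum.inl D.v
  · left
    refine ⟨hv, hH, ?_⟩
    intro h
    rcases D.in_s i h with h | h
    · contradiction
    · subst h
      exact D.gS_tl hv
  · right
    refine ⟨⟨hv, ?_, ?_, ?_, ?_⟩, hH⟩
    · intro h
      exact d3 (D.out_ua i h)
    · intro h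
      exact d4 (D.out_ub i h)
    · intro h
      rcases D.out_wa i h with h | h <;> contradiction
    · intro h
      rcases D.out_wb i h with h | h <;> contradiction

theorem rV_nR (hloop : ∀ i, g.tl i ≠ g.hd i) : D.nR (g.tl D.rV) := by
  refine ⟨?_, ?_, ?_, ?_, ?_⟩
  · rw [← D.rV_hd]
    exact hloop _
  · intro h
    have h1 := D.out_ua _ h
    have h2 := D.rV_hd
    rw [h1, D.xB_hd] at h2
    exact D.v_ne_ub (Sum.inl_injective h2).symm
  · intro h
    exact D.rV_ne (D.out_ub _ h)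
  · intro h
    have h2 := D.rV_hd
    rcases D.out_wa _ h with h1 | h1
    · rw [h1, D.kA_hd] at h2
      exact D.v_ne_ua (Sum.inl_injective h2).symm
    · rw [h1, D.yA_hd] at h2
      cases h2
  · intro h
    have h2 := D.rV_hd
    rcases D.out_wb _ h with h1 | h1
    · rw [h1, D.kB_hd] at h2
      exact D.v_ne_ub (Sum.inl_injective h2).symm
    · rw [h1, D.yB_hd] at h2
      cases h2

theorem pA_nR (hloop : ∀ i, g.tl i ≠ g.hd i) : D.pA ≠ D.wa ∧ D.pA ≠ D.wb := by
  constructor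
  · intro h
    apply hloop D.iA
    rw [D.iA_tl, D.iA_hd, h]
  · intro h
    have h1 : g.tl D.iA = Sum.inr D.wb := by rw [D.iA_tl, h]
    have h2 := D.iA_hd
    rcases D.out_wb _ h1 with h3 | h3
    · rw [h3, D.kB_hd] at h2
      cases h2
    · rw [h3, D.yB_hd] at h2
      exact D.qB_ne (Sum.inr_injective h2)

theorem pB_nR (hloop : ∀ i, g.tl i ≠ g.hd i) : D.pB ≠ D.wa ∧ D.pB ≠ D.wb := by
  constructor
  · intro h
    have h1 : g.tl D.iB = Sum.inr D.wa := by rw [D.iB_tl, h]
    have h2 := D.iB_hd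
    rcases D.out_wa _ h1 with h3 | h3
    · rw [h3, D.kA_hd] at h2
      cases h2
    · rw [h3, D.yA_hd] at h2
      exact D.qA_ne (Sum.inr_injective h2)
  · intro h
    apply hloop D.iB
    rw [D.iB_tl, D.iB_hd, h]

theorem qA_nR (hloop : ∀ i, g.tl i ≠ g.hd i) : D.qA ≠ D.wa ∧ D.qA ≠ D.wb := by
  refine ⟨?_, D.qA_ne⟩
  intro h
  apply hloop D.yA
  rw [D.yA_tl, D.yA_hd, h]

theorem qB_nR (hloop : ∀ i, g.tl i ≠ g.hd i) : D.qB ≠ D.wa ∧ D.qB ≠ D.wb := by
  refine ⟨D.qB_ne, ?_⟩
  intro h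
  apply hloop D.yB
  rw [D.yB_tl, D.yB_hd, h]

open Classical in
/-- new tails -/
noncomputable def tl2 (i : I) : S ⊕ T :=
  if D.del i then Sum.inl g.s else if g.tl i = Sum.inl D.v then Sum.inl g.s else g.tl i

open Classical in
/-- new heads -/
noncomputable def hd2 (i : I) : S ⊕ T :=
  if D.del i then Sum.inl g.s else if i = D.rV then Sum.inl g.s
  else if i = D.iA then Sum.inr D.qA else if i = D.iB then Sum.inr D.qB else g.hd i

theorem not_del_of_hd_v {i : I} (h : g.hd i = Sum.inl D.v) (hi : i ≠ D.xV) : ¬ D.del i := by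
  rintro (rfl | rfl | rfl | rfl | rfl | rfl | rfl | rfl)
  · rw [D.eX_hd] at h; exact D.v_ne_s (Sum.inl_injective h).symm
  · rw [D.xA_hd] at h; exact D.v_ne_ua (Sum.inl_injective h).symm
  · rw [D.xB_hd] at h; exact D.v_ne_ub (Sum.inl_injective h).symm
  · exact hi rfl
  · rw [D.kA_hd] at h; exact D.v_ne_ua (Sum.inl_injective h).symm
  · rw [D.kB_hd] at h; exact D.v_ne_ub (Sum.inl_injective h).symm
  · rw [D.yA_hd] at h; cases h
  · rw [D.yB_hd] at h; cases h

theorem not_del_of_hd_w {i : I} {w : T} (h : g.hd i = Sum.inr w) (h1 : w ≠ D.qA)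
    (h2 : w ≠ D.qB) : ¬ D.del i := by
  rintro (rfl | rfl | rfl | rfl | rfl | rfl | rfl | rfl)
  · rw [D.eX_hd] at h; cases h
  · rw [D.xA_hd] at h; cases h
  · rw [D.xB_hd] at h; cases h
  · rw [D.xV_hd] at h; cases h
  · rw [D.kA_hd] at h; cases h
  · rw [D.kB_hd] at h; cases h
  · rw [D.yA_hd] at h; exact h1 (Sum.inr_injective h).symm
  · rw [D.yB_hd] at h; exact h2 (Sum.inr_injective h).symm

theorem iA_ne_iB : D.iA ≠ D.iB := by
  intro h
  have h1 := D.iA_hd
  rw [h, D.iB_hd] at h1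
  exact D.wa_ne_wb (Sum.inr_injective h1).symm

/-- classification of the items with their new ends -/
theorem cls2 (hloop : ∀ i, g.tl i ≠ g.hd i) (i : I) :
    (D.del i ∧ D.tl2 i = Sum.inl g.s ∧ D.hd2 i = Sum.inl g.s) ∨
    (i = D.rV ∧ D.tl2 i = g.tl i ∧ D.hd2 i = Sum.inl g.s) ∨
    (i = D.iA ∧ D.tl2 i = Sum.inr D.pA ∧ D.hd2 i = Sum.inr D.qA) ∨
    (i = D.iB ∧ D.tl2 i = Sum.inr D.pB ∧ D.hd2 i = Sum.inr D.qB) ∨
    (g.tl i = Sum.inl D.v ∧ D.nR (g.hd i) ∧ g.hd i ≠ Sum.inl g.s ∧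
      D.tl2 i = Sum.inl g.s ∧ D.hd2 i = g.hd i) ∨
    (D.nR (g.tl i) ∧ D.nR (g.hd i) ∧ D.tl2 i = g.tl i ∧ D.hd2 i = g.hd i) := by
  by_cases hd : D.del i
  · left
    exact ⟨hd, by simp [tl2, hd], by simp [hd2, hd]⟩
  by_cases h1 : i = D.rV
  · right; left
    refine ⟨h1, ?_, ?_⟩
    · have : g.tl i ≠ Sum.inl D.v := by rw [h1]; exact (D.rV_nR hloop).1
      simp [tl2, hd, this]
    · rw [hd2, if_neg hd, if_pos h1]
  by_cases h2 : i = D.iA
  · right; right; left
    refine ⟨h2, ?_, ?_⟩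
    · have : g.tl i ≠ Sum.inl D.v := by rw [h2, D.iA_tl]; simp
      rw [tl2, if_neg hd, if_neg this, h2, D.iA_tl]
    · rw [hd2, if_neg hd, if_neg h1, if_pos h2]
  by_cases h3 : i = D.iB
  · right; right; right; left
    refine ⟨h3, ?_, ?_⟩
    · have : g.tl i ≠ Sum.inl D.v := by rw [h3, D.iB_tl]; simp
      rw [tl2, if_neg hd, if_neg this, h3, D.iB_tl]
    · rw [hd2, if_neg hd, if_neg h1, if_neg h2, if_pos h3]
  have hH : D.hd2 i = g.hd i := by
    rw [hd2, if_neg hd, if_neg h1, if_neg h2, if_neg h3]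
  rcases D.cls i with h | h | h | h | ⟨h, h', h''⟩ | ⟨h, h'⟩
  · exact absurd h hd
  · exact absurd h h1
  · exact absurd h h2
  · exact absurd h h3
  · right; right; right; right; left
    refine ⟨h, h', h'', ?_, hH⟩
    rw [tl2, if_neg hd, if_pos h]
  · right; right; right; right; right
    refine ⟨h, h', ?_, hH⟩
    rw [tl2, if_neg hd, if_neg h.1]

/-- the new instance -/
noncomputable def inst (hloop : ∀ i, g.tl i ≠ g.hd i) : RInst S T I where
  kS := {u | u ≠ D.v ∧ u ≠ D.ua ∧ u ≠ D.ub}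
  kT := {w | w ≠ D.wa ∧ w ≠ D.wb}
  s := g.s
  t := g.t
  hs := ⟨D.v_ne_s.symm, D.ua_ne_s.symm, D.ub_ne_s.symm⟩
  ht := ⟨D.wa_ne_t.symm, D.wb_ne_t.symm⟩
  B := g.B
  Bs := fun w _ => g.Bs w
  Bt := fun u _ => g.Bt u
  tl := D.tl2
  hd := D.hd2
  kind := by
    intro i
    have hs : g.s ≠ D.v ∧ g.s ≠ D.ua ∧ g.s ≠ D.ub :=
      ⟨D.v_ne_s.symm, D.ua_ne_s.symm, D.ub_ne_s.symm⟩
    have key : ∀ u, D.nR (Sum.inl u) → u ≠ D.v ∧ u ≠ D.ua ∧ u ≠ D.ub := by
      intro u hu
      refine ⟨?_, ?_, ?_⟩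
      · rintro rfl; exact hu.1 rfl
      · rintro rfl; exact hu.2.1 rfl
      · rintro rfl; exact hu.2.2.1 rfl
    have key' : ∀ w, D.nR (Sum.inr w) → w ≠ D.wa ∧ w ≠ D.wb := by
      intro u hu
      refine ⟨?_, ?_⟩
      · rintro rfl; exact hu.2.2.2.1 rfl
      · rintro rfl; exact hu.2.2.2.2 rfl
    rcases D.cls2 hloop i with ⟨_, h1, h2⟩ | ⟨hi, h1, h2⟩ | ⟨_, h1, h2⟩ | ⟨_, h1, h2⟩ |
      ⟨hv, hh, _, h1, h2⟩ | ⟨ht, hh, h1, h2⟩
    · right; left
      exact ⟨g.s, g.s, hs, hs, h1, h2⟩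
    · have hr := D.rV_nR hloop
      rw [← hi] at hr
      cases ht : g.tl i with
      | inl z =>
        rw [ht] at hr
        right; left
        exact ⟨g.s, z, hs, key z hr, by rw [h1, ht], h2⟩
      | inr z =>
        rw [ht] at hr
        left
        exact ⟨g.s, z, hs, key' z hr, g.Bs z, by rw [h1, ht], h2⟩
    · right; right
      exact ⟨D.pA, D.qA, D.pA_nR hloop, D.qA_nR hloop, h1, h2⟩
    · right; right
      exact ⟨D.pB, D.qB, D.pB_nR hloop, D.qB_nR hloop, h1, h2⟩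
    · right; left
      rcases g.kind i with ⟨u, w, _, h3, h4⟩ | ⟨u, v, h3, h4⟩ | ⟨w, w', h3, h4⟩
      · rw [hv] at h3; cases h3
      · rw [h4] at hh
        exact ⟨u, g.s, key u hh, hs, h1, by rw [h2, h4]⟩
      · rw [hv] at h3; cases h3
    · rcases g.kind i with ⟨u, w, hB, h3, h4⟩ | ⟨u, v, h3, h4⟩ | ⟨w, w', h3, h4⟩
      · left
        rw [h3] at ht; rw [h4] at hh
        exact ⟨u, w, key u hh, key' w ht, hB, by rw [h1, h3], by rw [h2, h4]⟩
      · right; left
        rw [h3] at ht; rw [h4] at hh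
        exact ⟨u, v, key u hh, key v ht, by rw [h1, h3], by rw [h2, h4]⟩
      · right; right
        rw [h3] at ht; rw [h4] at hh
        exact ⟨w, w', key' w ht, key' w' hh, by rw [h1, h3], by rw [h2, h4]⟩

theorem del_tl {i : I} (h : D.del i) : g.tl i = Sum.inl D.v ∨ g.tl i = Sum.inl D.ua ∨
    g.tl i = Sum.inl D.ub ∨ g.tl i = Sum.inr D.wa ∨ g.tl i = Sum.inr D.wb := by
  rcases h with rfl | rfl | rfl | rfl | rfl | rfl | rfl | rfl
  · exact Or.inl D.eX_tl
  · exact Or.inl D.xA_tl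
  · exact Or.inr (Or.inl D.xB_tl)
  · exact Or.inr (Or.inr (Or.inl D.xV_tl))
  · exact Or.inr (Or.inr (Or.inr (Or.inl D.kA_tl)))
  · exact Or.inr (Or.inr (Or.inr (Or.inr D.kB_tl)))
  · exact Or.inr (Or.inr (Or.inr (Or.inl D.yA_tl)))
  · exact Or.inr (Or.inr (Or.inr (Or.inr D.yB_tl)))

/-- the removed vertices -/
def R : Set (S ⊕ T) :=
  {Sum.inl D.v, Sum.inl D.ua, Sum.inl D.ub, Sum.inr D.wa, Sum.inr D.wb}

theorem nR_iff (x : S ⊕ T) : D.nR x ↔ x ∉ D.R := by
  simp [nR, R, not_or]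

theorem kept_iff (hloop : ∀ i, g.tl i ≠ g.hd i) (x : S ⊕ T) :
    x ∈ (D.inst hloop).kept ↔ x ∉ D.R := by
  rcases x with u | w
  · rw [RInst.inl_mem_kept]
    simp [inst, R, not_or]
  · rw [RInst.inr_mem_kept]
    simp [inst, R, not_or]

theorem three_of {A B : Set I} [Finite I] {x : I} (h : A ⊆ insert x B) (h3 : 3 ≤ A.ncard) :
    2 ≤ B.ncard := by
  have h1 := Set.ncard_le_ncard h (Set.toFinite _)
  have h2 := Set.ncard_insert_le x B
  omega

theorem four_of {A B : Set I} [Finite I] {x y : I} (h : A ⊆ insert x (insert y B))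
    (h3 : 4 ≤ A.ncard) : 2 ≤ B.ncard := by
  have h1 := Set.ncard_le_ncard h (Set.toFinite _)
  have h2 := Set.ncard_insert_le x (insert y B)
  have h4 := Set.ncard_insert_le y B
  omega

theorem inst_valid [Finite I] (hloop : ∀ i, g.tl i ≠ g.hd i) (hV : GW.Valid g.r g.tl g.hd 2)
    (hP1 : g.P1 2) (hAnti : g.Anti) : (D.inst hloop).Valid 2 := by
  intro U hU hne hk
  have hUR : ∀ x ∈ U, x ∉ D.R := fun x hx => (D.kept_iff hloop x).mp (hU.1 hx)
  have hUc : ∀ u w, u ≠ D.v → u ≠ D.ua → u ≠ D.ub → g.B u w → Sum.inr w ∈ U →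
      Sum.inl u ∈ U := fun u w h1 h2 h3 hB hw => hU.2 u w ⟨h1, h2, h3⟩ hB hw
  have hvR : Sum.inl D.v ∉ U := fun h => hUR _ h (by simp [R])
  have huaR : Sum.inl D.ua ∉ U := fun h => hUR _ h (by simp [R])
  have hubR : Sum.inl D.ub ∉ U := fun h => hUR _ h (by simp [R])
  have hwaR : Sum.inr D.wa ∉ U := fun h => hUR _ h (by simp [R])
  have hwbR : Sum.inr D.wb ∉ U := fun h => hUR _ h (by simp [R])
  have hsU : ∀ w, Sum.inr w ∈ U → Sum.inl g.s ∈ U := fun w hw =>
    hUc g.s w D.v_ne_s.symm D.ua_ne_s.symm D.ub_ne_s.symm (g.Bs w) hw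
  change 2 ≤ (Ent D.tl2 D.hd2 U).ncard
  by_cases hs : Sum.inl g.s ∈ U
  swap
  · -- type II
    have hnoT : ∀ w, Sum.inr w ∉ U := fun w hw => hs (hsU w hw)
    have hcl : Closed g.r U := by
      rintro x y ⟨u, w, rfl, rfl, _⟩ hy
      exact absurd hy (hnoT w)
    have h2 := hV U hcl hne (fun h => hs (h ▸ Set.mem_univ _))
    refine le_trans h2 (Set.ncard_le_ncard ?_ (Set.toFinite _))
    rintro i ⟨hh, ht⟩
    rcases D.cls2 hloop i with ⟨hd, _, _⟩ | ⟨hi, _, _⟩ | ⟨hi, _, _⟩ | ⟨hi, _, _⟩ |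
      ⟨hv, _, _, h1, h2⟩ | ⟨_, _, h1, h2⟩
    · exfalso
      rcases hd with rfl | rfl | rfl | rfl | rfl | rfl | rfl | rfl
      · rw [D.eX_hd] at hh; exact hs hh
      · rw [D.xA_hd] at hh; exact huaR hh
      · rw [D.xB_hd] at hh; exact hubR hh
      · rw [D.xV_hd] at hh; exact hvR hh
      · rw [D.kA_hd] at hh; exact huaR hh
      · rw [D.kB_hd] at hh; exact hubR hh
      · rw [D.yA_hd] at hh; exact hnoT _ hh
      · rw [D.yB_hd] at hh; exact hnoT _ hh
    · exfalso; rw [hi, D.rV_hd] at hh; exact hvR hh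
    · exfalso; rw [hi, D.iA_hd] at hh; exact hwaR hh
    · exfalso; rw [hi, D.iB_hd] at hh; exact hwbR hh
    · exact ⟨by rw [h2]; exact hh, by rw [h1]; exact hs⟩
    · exact ⟨by rw [h2]; exact hh, by rw [h1]; exact ht⟩
  -- types I and III
  have hWcl : Closed g.r (U ∪ D.R) := by
    rintro x y ⟨u, w, rfl, rfl, hB⟩ hy
    by_cases hu : (Sum.inl u : S ⊕ T) ∈ D.R
    · exact Or.inr hu
    left
    have hu' : u ≠ D.v ∧ u ≠ D.ua ∧ u ≠ D.ub := by
      refine ⟨?_, ?_, ?_⟩ <;> rintro rfl <;> exact hu (by simp [R])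
    rcases hy with hy | hy
    · exact hUc u w hu'.1 hu'.2.1 hu'.2.2 hB hy
    · have hw : w = D.wa ∨ w = D.wb := by simpa [R] using hy
      rcases hAnti u w hB with h | h | ⟨i, h1, h2⟩
      · rw [h]; exact hs
      · rcases hw with rfl | rfl
        · exact absurd h D.wa_ne_t
        · exact absurd h D.wb_ne_t
      · rcases hw with rfl | rfl
        · rcases D.out_wa i h1 with rfl | rfl
          · rw [D.kA_hd] at h2; exact absurd (Sum.inl_injective h2).symm hu'.2.1
          · rw [D.yA_hd] at h2; cases h2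
        · rcases D.out_wb i h1 with rfl | rfl
          · rw [D.kB_hd] at h2; exact absurd (Sum.inl_injective h2).symm hu'.2.2
          · rw [D.yB_hd] at h2; cases h2
  have hWne : (U ∪ D.R).Nonempty := hne.mono Set.subset_union_left
  have hWu : U ∪ D.R ≠ Set.univ := by
    intro h
    apply hk
    apply Set.Subset.antisymm hU.1
    intro x hx
    rw [D.kept_iff] at hx
    have : x ∈ U ∪ D.R := by rw [h]; exact Set.mem_univ _
    exact this.resolve_right hx
  have hW2 := hV _ hWcl hWne hWu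
  -- the items entering `U ∪ R`
  have hent : ∀ i ∈ Ent g.tl g.hd (U ∪ D.R), i ∈ Ent D.tl2 D.hd2 U ∨
      (i = D.iA ∧ Sum.inr D.pA ∉ U ∧ Sum.inr D.qA ∉ U) ∨
      (i = D.iB ∧ Sum.inr D.pB ∉ U ∧ Sum.inr D.qB ∉ U) := by
    rintro i ⟨hh, ht⟩
    rw [Set.mem_union, not_or] at ht
    rcases D.cls2 hloop i with ⟨hd, _, _⟩ | ⟨hi, h1, h2⟩ | ⟨hi, h1, h2⟩ | ⟨hi, h1, h2⟩ |
      ⟨hv, _, _, h1, h2⟩ | ⟨_, hh', h1, h2⟩
    · exfalso
      apply ht.2
      rcases D.del_tl hd with h | h | h | h | h <;> rw [h] <;> simp [R]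
    · left
      exact ⟨by rw [h2]; exact hs, by rw [h1]; exact ht.1⟩
    · have hp : Sum.inr D.pA ∉ U := by rw [← D.iA_tl, ← hi]; exact ht.1
      by_cases hq : Sum.inr D.qA ∈ U
      · left
        exact ⟨by rw [h2]; exact hq, by rw [h1]; exact hp⟩
      · right; left
        exact ⟨hi, hp, hq⟩
    · have hp : Sum.inr D.pB ∉ U := by rw [← D.iB_tl, ← hi]; exact ht.1
      by_cases hq : Sum.inr D.qB ∈ U
      · left
        exact ⟨by rw [h2]; exact hq, by rw [h1]; exact hp⟩
      · right; right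
        exact ⟨hi, hp, hq⟩
    · exfalso
      apply ht.2
      rw [hv]; simp [R]
    · left
      rw [D.nR_iff] at hh'
      exact ⟨by rw [h2]; exact hh.resolve_right hh', by rw [h1]; exact ht.1⟩
  have hpA := D.pA_nR hloop
  have hpB := D.pB_nR hloop
  by_cases ht : Sum.inr g.t ∈ U
  · -- type III
    let C : Set T := {w | Sum.inr w ∉ U ∧ w ≠ D.wa ∧ w ≠ D.wb}
    have hallS : ∀ u, u ≠ D.v → u ≠ D.ua → u ≠ D.ub → Sum.inl u ∈ U :=
      fun u h1 h2 h3 => hUc u g.t h1 h2 h3 (g.Bt u) ht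
    have hCW : (Sum.inr '' C : Set (S ⊕ T))ᶜ = U ∪ D.R := by
      ext x
      rcases x with u | w
      · constructor
        · intro _
          by_cases hu : (Sum.inl u : S ⊕ T) ∈ D.R
          · exact Or.inr hu
          · left
            apply hallS <;> rintro rfl <;> exact hu (by simp [R])
        · rintro _ ⟨w, _, h⟩
          cases h
      · have h1 : (Sum.inr w : S ⊕ T) ∈ (Sum.inr '' C : Set (S ⊕ T))ᶜ ↔ w ∉ C := by
          simp
        rw [h1]
        simp only [C, Set.mem_ofPred_eq, R, Set.mem_union, Set.mem_insert_iff,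
          Set.mem_singleton_iff, reduceCtorEq, false_or, Sum.inr.injEq]
        tauto
    have htC : g.t ∉ C := fun h => h.1 ht
    have haC : D.wa ∉ C := fun h => h.2.1 rfl
    have hbC : D.wb ∉ C := fun h => h.2.2 rfl
    have hqA := D.qA_nR hloop
    have hqB := D.qB_nR hloop
    by_cases hA : Sum.inr D.pA ∉ U ∧ Sum.inr D.qA ∉ U
    · have hpC : D.pA ∈ C := ⟨hA.1, hpA⟩
      have hqC : D.qA ∈ C := ⟨hA.2, hqA⟩
      by_cases hB : Sum.inr D.pB ∉ U ∧ Sum.inr D.qB ∉ U
      · have hpC' : D.pB ∈ C := ⟨hB.1, hpB⟩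
        have hqC' : D.qB ∈ C := ⟨hB.2, hqB⟩
        have h4 := D.tvAB C htC haC hbC hpC hqC hpC' hqC'
        rw [ST.dout, hCW] at h4
        refine four_of (x := D.iA) (y := D.iB) ?_ h4
        intro i hi
        rcases hent i hi with h | h | h
        · exact Or.inr (Or.inr h)
        · exact Or.inl h.1
        · exact Or.inr (Or.inl h.1)
      · have h3 := D.tvA C htC haC hbC hpC hqC
        rw [ST.dout, hCW] at h3
        refine three_of (x := D.iA) ?_ h3
        intro i hi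
        rcases hent i hi with h | h | h
        · exact Or.inr h
        · exact Or.inl h.1
        · exact absurd h.2 hB
    · by_cases hB : Sum.inr D.pB ∉ U ∧ Sum.inr D.qB ∉ U
      · have hpC' : D.pB ∈ C := ⟨hB.1, hpB⟩
        have hqC' : D.qB ∈ C := ⟨hB.2, hqB⟩
        have h3 := D.tvB C htC haC hbC hpC' hqC'
        rw [ST.dout, hCW] at h3
        refine three_of (x := D.iB) ?_ h3
        intro i hi
        rcases hent i hi with h | h | h
        · exact Or.inr h
        · exact absurd h.2 hA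
        · exact Or.inl h.1
      · refine le_trans hW2 (Set.ncard_le_ncard ?_ (Set.toFinite _))
        intro i hi
        rcases hent i hi with h | h | h
        · exact h
        · exact absurd h.2 hA
        · exact absurd h.2 hB
  · -- type I
    have htW : Sum.inr g.t ∉ U ∪ D.R := by
      rintro (h | h)
      · exact ht h
      · have h' : g.t = D.wa ∨ g.t = D.wb := by simpa [R] using h
        rcases h' with h' | h'
        · exact D.wa_ne_t h'.symm
        · exact D.wb_ne_t h'.symm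
    have hW3 : ∀ p : T, p ≠ g.t → Sum.inr p ∉ U → p ≠ D.wa ∧ p ≠ D.wb →
        3 ≤ (Ent g.tl g.hd (U ∪ D.R)).ncard := by
      intro p hpt hpU hpR
      by_contra hcon
      have h2 : (Ent g.tl g.hd (U ∪ D.R)).ncard = 2 := by omega
      rcases hP1 _ hWcl hWne hWu h2 with ⟨u, hu⟩ | ⟨w, hw⟩
      · have h3 : Sum.inl g.s ∈ ({Sum.inl u} : Set (S ⊕ T)) := by rw [← hu]; exact Or.inl hs
        have h4 : Sum.inl D.v ∈ ({Sum.inl u} : Set (S ⊕ T)) := by
          rw [← hu]; right; simp [R]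
        have h3' : g.s = u := by simpa using h3
        have h4' : D.v = u := by simpa using h4
        exact D.v_ne_s (h4'.trans h3'.symm)
      · rw [hw] at htW
        have h3 : g.t = w := by simpa using htW
        have h4 : Sum.inr p ∉ U ∪ D.R := by
          rintro (h | h)
          · exact hpU h
          · have h' : p = D.wa ∨ p = D.wb := by simpa [R] using h
            rcases h' with h' | h'
            · exact hpR.1 h'
            · exact hpR.2 h'
        rw [hw] at h4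
        have h5 : p = w := by simpa using h4
        exact hpt (h5.trans h3.symm)
    by_cases hA : Sum.inr D.pA ∉ U ∧ Sum.inr D.qA ∉ U
    · by_cases hB : Sum.inr D.pB ∉ U ∧ Sum.inr D.qB ∉ U
      · -- both strands outside: use `U ∪ {v}`
        have hcl : Closed g.r (insert (Sum.inl D.v) U) := by
          rintro x y ⟨u, w, rfl, rfl, hBw⟩ hy
          have hyU : Sum.inr w ∈ U := by
            rcases hy with hy | hy
            · cases hy
            · exact hy
          by_cases h1 : u = D.v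
          · left; rw [h1]
          by_cases h2 : u = D.ua
          · exfalso
            rw [h2] at hBw
            rcases hAnti _ _ hBw with h | h | ⟨i, hi1, hi2⟩
            · exact D.ua_ne_s h
            · rw [h] at hyU; exact ht hyU
            · rcases D.in_ua i hi2 with rfl | rfl
              · rw [D.xA_tl] at hi1; cases hi1
              · rw [D.kA_tl] at hi1
                rw [← Sum.inr_injective hi1] at hyU
                exact hwaR hyU
          by_cases h3 : u = D.ub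
          · exfalso
            rw [h3] at hBw
            rcases hAnti _ _ hBw with h | h | ⟨i, hi1, hi2⟩
            · exact D.ub_ne_s h
            · rw [h] at hyU; exact ht hyU
            · rcases D.in_ub i hi2 with rfl | rfl
              · rw [D.xB_tl] at hi1; cases hi1
              · rw [D.kB_tl] at hi1
                rw [← Sum.inr_injective hi1] at hyU
                exact hwbR hyU
          exact Or.inr (hUc u w h1 h2 h3 hBw hyU)
        have hne' : (insert (Sum.inl D.v) U).Nonempty := Set.insert_nonempty _ _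
        have htv : Sum.inr g.t ∉ insert (Sum.inl D.v) U := by
          rintro (h | h)
          · cases h
          · exact ht h
        have hu' : insert (Sum.inl D.v) U ≠ Set.univ := by
          intro h
          apply htv
          rw [h]
          exact Set.mem_univ _
        have h2 := hV _ hcl hne' hu'
        have h3 : 3 ≤ (Ent g.tl g.hd (insert (Sum.inl D.v) U)).ncard := by
          by_contra hcon
          have h2' : (Ent g.tl g.hd (insert (Sum.inl D.v) U)).ncard = 2 := by omega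
          rcases hP1 _ hcl hne' hu' h2' with ⟨u, hu⟩ | ⟨w, hw⟩
          · have h3 : Sum.inl g.s ∈ ({Sum.inl u} : Set (S ⊕ T)) := by
              rw [← hu]; exact Or.inr hs
            have h4 : Sum.inl D.v ∈ ({Sum.inl u} : Set (S ⊕ T)) := by
              rw [← hu]; left; rfl
            have h3' : g.s = u := by simpa using h3
            have h4' : D.v = u := by simpa using h4
            exact D.v_ne_s (h4'.trans h3'.symm)
          · have h3 : Sum.inr D.wa ∉ insert (Sum.inl D.v) U := by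
              rintro (h | h)
              · cases h
              · exact hwaR h
            have h4 : Sum.inr D.wb ∉ insert (Sum.inl D.v) U := by
              rintro (h | h)
              · cases h
              · exact hwbR h
            rw [hw] at h3 h4
            have h3' : D.wa = w := by simpa using h3
            have h4' : D.wb = w := by simpa using h4
            exact D.wa_ne_wb (h3'.trans h4'.symm)
        refine three_of (x := D.xV) ?_ h3
        rintro i ⟨hh, htl⟩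
        have htU : g.tl i ∉ U := fun h => htl (Or.inr h)
        have htv' : g.tl i ≠ Sum.inl D.v := fun h => htl (by rw [h]; left; rfl)
        rcases D.cls2 hloop i with ⟨hd, _, _⟩ | ⟨hi, h1, h2⟩ | ⟨hi, h1, h2⟩ | ⟨hi, h1, h2⟩ |
          ⟨hv, _, _, h1, h2⟩ | ⟨_, hh', h1, h2⟩
        · rcases hd with rfl | rfl | rfl | rfl | rfl | rfl | rfl | rfl
          · exact absurd D.eX_tl htv'
          · exact absurd D.xA_tl htv'
          · exfalso
            rw [D.xB_hd] at hh
            rcases hh with hh | hh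
            · exact D.v_ne_ub (Sum.inl_injective hh).symm
            · exact hubR hh
          · left; rfl
          · exfalso
            rw [D.kA_hd] at hh
            rcases hh with hh | hh
            · exact D.v_ne_ua (Sum.inl_injective hh).symm
            · exact huaR hh
          · exfalso
            rw [D.kB_hd] at hh
            rcases hh with hh | hh
            · exact D.v_ne_ub (Sum.inl_injective hh).symm
            · exact hubR hh
          · exfalso
            rw [D.yA_hd] at hh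
            rcases hh with hh | hh
            · cases hh
            · exact hA.2 hh
          · exfalso
            rw [D.yB_hd] at hh
            rcases hh with hh | hh
            · cases hh
            · exact hB.2 hh
        · right
          exact ⟨by rw [h2]; exact hs, by rw [h1]; exact htU⟩
        · exfalso
          rw [hi, D.iA_hd] at hh
          rcases hh with hh | hh
          · cases hh
          · exact hwaR hh
        · exfalso
          rw [hi, D.iB_hd] at hh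
          rcases hh with hh | hh
          · cases hh
          · exact hwbR hh
        · exact absurd hv htv'
        · right
          refine ⟨?_, by rw [h1]; exact htU⟩
          rw [h2]
          rcases hh with hh | hh
          · exact absurd hh hh'.1
          · exact hh
      · refine three_of (x := D.iA) ?_ (hW3 D.pA D.pA_ne_t hA.1 hpA)
        intro i hi
        rcases hent i hi with h | h | h
        · exact Or.inr h
        · exact Or.inl h.1
        · exact absurd h.2 hB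
    · by_cases hB : Sum.inr D.pB ∉ U ∧ Sum.inr D.qB ∉ U
      · refine three_of (x := D.iB) ?_ (hW3 D.pB D.pB_ne_t hB.1 hpB)
        intro i hi
        rcases hent i hi with h | h | h
        · exact Or.inr h
        · exact absurd h.2 hA
        · exact Or.inl h.1
      · refine le_trans hW2 (Set.ncard_le_ncard ?_ (Set.toFinite _))
        intro i hi
        rcases hent i hi with h | h | h
        · exact h
        · exact absurd h.2 hA
        · exact absurd h.2 hB

theorem xV_ne_eX : D.xV ≠ D.eX := by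
  intro h
  have h1 := D.xV_tl
  rw [h, D.eX_tl] at h1
  exact D.v_ne_ub (Sum.inl_injective h1)

theorem kA_ne_eX : D.kA ≠ D.eX := by
  intro h
  have h1 := D.kA_tl
  rw [h, D.eX_tl] at h1
  cases h1

theorem kA_ne_xV : D.kA ≠ D.xV := by
  intro h
  have h1 := D.kA_tl
  rw [h, D.xV_tl] at h1
  cases h1

theorem xA_ne_eX : D.xA ≠ D.eX := by
  intro h
  have h1 := D.xA_hd
  rw [h, D.eX_hd] at h1
  exact D.ua_ne_s (Sum.inl_injective h1).symm

theorem xA_ne_xV : D.xA ≠ D.xV := by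
  intro h
  have h1 := D.xA_tl
  rw [h, D.xV_tl] at h1
  exact D.v_ne_ub (Sum.inl_injective h1).symm

theorem xA_ne_kA : D.xA ≠ D.kA := by
  intro h
  have h1 := D.xA_tl
  rw [h, D.kA_tl] at h1
  cases h1

theorem yA_ne_eX : D.yA ≠ D.eX := by
  intro h
  have h1 := D.yA_tl
  rw [h, D.eX_tl] at h1
  cases h1

theorem yA_ne_xV : D.yA ≠ D.xV := by
  intro h
  have h1 := D.yA_tl
  rw [h, D.xV_tl] at h1
  cases h1

theorem yA_ne_kA : D.yA ≠ D.kA := by
  intro h
  have h1 := D.yA_hd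
  rw [h, D.kA_hd] at h1
  cases h1

theorem yA_ne_xA : D.yA ≠ D.xA := by
  intro h
  have h1 := D.yA_tl
  rw [h, D.xA_tl] at h1
  cases h1

theorem kB_ne_eX : D.kB ≠ D.eX := by
  intro h
  have h1 := D.kB_tl
  rw [h, D.eX_tl] at h1
  cases h1

theorem kB_ne_xV : D.kB ≠ D.xV := by
  intro h
  have h1 := D.kB_tl
  rw [h, D.xV_tl] at h1
  cases h1

theorem kB_ne_kA : D.kB ≠ D.kA := by
  intro h
  have h1 := D.kB_tl
  rw [h, D.kA_tl] at h1
  exact D.wa_ne_wb (Sum.inr_injective h1)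

theorem kB_ne_xA : D.kB ≠ D.xA := by
  intro h
  have h1 := D.kB_tl
  rw [h, D.xA_tl] at h1
  cases h1

theorem kB_ne_yA : D.kB ≠ D.yA := by
  intro h
  have h1 := D.kB_tl
  rw [h, D.yA_tl] at h1
  exact D.wa_ne_wb (Sum.inr_injective h1)

theorem xB_ne_eX : D.xB ≠ D.eX := by
  intro h
  have h1 := D.xB_tl
  rw [h, D.eX_tl] at h1
  exact D.v_ne_ua (Sum.inl_injective h1)

theorem xB_ne_xV : D.xB ≠ D.xV := by
  intro h
  have h1 := D.xB_tl
  rw [h, D.xV_tl] at h1
  exact D.ua_ne_ub (Sum.inl_injective h1).symm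

theorem xB_ne_kA : D.xB ≠ D.kA := by
  intro h
  have h1 := D.xB_tl
  rw [h, D.kA_tl] at h1
  cases h1

theorem xB_ne_xA : D.xB ≠ D.xA := by
  intro h
  have h1 := D.xB_tl
  rw [h, D.xA_tl] at h1
  exact D.v_ne_ua (Sum.inl_injective h1)

theorem xB_ne_yA : D.xB ≠ D.yA := by
  intro h
  have h1 := D.xB_tl
  rw [h, D.yA_tl] at h1
  cases h1

theorem xB_ne_kB : D.xB ≠ D.kB := by
  intro h
  have h1 := D.xB_tl
  rw [h, D.kB_tl] at h1
  cases h1

theorem yB_ne_eX : D.yB ≠ D.eX := by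
  intro h
  have h1 := D.yB_tl
  rw [h, D.eX_tl] at h1
  cases h1

theorem yB_ne_xV : D.yB ≠ D.xV := by
  intro h
  have h1 := D.yB_tl
  rw [h, D.xV_tl] at h1
  cases h1

theorem yB_ne_kA : D.yB ≠ D.kA := by
  intro h
  have h1 := D.yB_tl
  rw [h, D.kA_tl] at h1
  exact D.wa_ne_wb (Sum.inr_injective h1)

theorem yB_ne_xA : D.yB ≠ D.xA := by
  intro h
  have h1 := D.yB_tl
  rw [h, D.xA_tl] at h1
  cases h1

theorem yB_ne_yA : D.yB ≠ D.yA := by
  intro h
  have h1 := D.yB_tl
  rw [h, D.yA_tl] at h1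
  exact D.wa_ne_wb (Sum.inr_injective h1)

theorem yB_ne_kB : D.yB ≠ D.kB := by
  intro h
  have h1 := D.yB_hd
  rw [h, D.kB_hd] at h1
  cases h1

theorem yB_ne_xB : D.yB ≠ D.xB := by
  intro h
  have h1 := D.yB_tl
  rw [h, D.xB_tl] at h1
  cases h1

open Classical in
/-- the lifted colouring -/
noncomputable def col (c : I → Fin 2) (e a b : Fin 2) (i : I) : Fin 2 :=
  if i = D.eX then e
  else if i = D.xV then ng e
  else if i = D.kA then a
  else if i = D.xA then ng a
  else if i = D.yA then ng a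
  else if i = D.kB then b
  else if i = D.xB then ng b
  else if i = D.yB then ng b
  else c i

theorem col_eX (c : I → Fin 2) (e a b : Fin 2) : D.col c e a b D.eX = e := by
  rw [col, if_pos rfl]

theorem col_xV (c : I → Fin 2) (e a b : Fin 2) : D.col c e a b D.xV = ng e := by
  rw [col, if_neg D.xV_ne_eX, if_pos rfl]

theorem col_kA (c : I → Fin 2) (e a b : Fin 2) : D.col c e a b D.kA = a := by
  rw [col, if_neg D.kA_ne_eX, if_neg D.kA_ne_xV, if_pos rfl]

theorem col_xA (c : I → Fin 2) (e a b : Fin 2) : D.col c e a b D.xA = ng a := by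
  rw [col, if_neg D.xA_ne_eX, if_neg D.xA_ne_xV, if_neg D.xA_ne_kA, if_pos rfl]

theorem col_yA (c : I → Fin 2) (e a b : Fin 2) : D.col c e a b D.yA = ng a := by
  rw [col, if_neg D.yA_ne_eX, if_neg D.yA_ne_xV, if_neg D.yA_ne_kA, if_neg D.yA_ne_xA, if_pos rfl]

theorem col_kB (c : I → Fin 2) (e a b : Fin 2) : D.col c e a b D.kB = b := by
  rw [col, if_neg D.kB_ne_eX, if_neg D.kB_ne_xV, if_neg D.kB_ne_kA, if_neg D.kB_ne_xA, if_neg D.kB_ne_yA, if_pos rfl]

theorem col_xB (c : I → Fin 2) (e a b : Fin 2) : D.col c e a b D.xB = ng b := by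
  rw [col, if_neg D.xB_ne_eX, if_neg D.xB_ne_xV, if_neg D.xB_ne_kA, if_neg D.xB_ne_xA, if_neg D.xB_ne_yA, if_neg D.xB_ne_kB, if_pos rfl]

theorem col_yB (c : I → Fin 2) (e a b : Fin 2) : D.col c e a b D.yB = ng b := by
  rw [col, if_neg D.yB_ne_eX, if_neg D.yB_ne_xV, if_neg D.yB_ne_kA, if_neg D.yB_ne_xA, if_neg D.yB_ne_yA, if_neg D.yB_ne_kB, if_neg D.yB_ne_xB, if_pos rfl]

theorem col_of_not_del (c : I → Fin 2) (e a b : Fin 2) {i : I} (h : ¬ D.del i) :
    D.col c e a b i = c i := by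
  simp only [del, not_or] at h
  obtain ⟨d1, d2, d3, d4, d5, d6, d7, d8⟩ := h
  rw [col, if_neg d1, if_neg d4, if_neg d5, if_neg d2, if_neg d7, if_neg d6, if_neg d3, if_neg d8]

theorem rV_not_del : ¬ D.del D.rV := D.not_del_of_hd_v D.rV_hd D.rV_ne

theorem iA_not_del (hloop : ∀ i, g.tl i ≠ g.hd i) : ¬ D.del D.iA :=
  D.not_del_of_hd_w D.iA_hd (D.qA_nR hloop).1.symm (D.qB_nR hloop).1.symm

theorem iB_not_del (hloop : ∀ i, g.tl i ≠ g.hd i) : ¬ D.del D.iB :=
  D.not_del_of_hd_w D.iB_hd (D.qA_nR hloop).2.symm (D.qB_nR hloop).2.symm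

theorem not_del_of_nR {i : I} (h : D.nR (g.tl i)) : ¬ D.del i := by
  intro hd
  rcases D.del_tl hd with h1 | h1 | h1 | h1 | h1
  · exact h.1 h1
  · exact h.2.1 h1
  · exact h.2.2.1 h1
  · exact h.2.2.2.1 h1
  · exact h.2.2.2.2 h1

theorem key (hloop : ∀ i, g.tl i ≠ g.hd i) {c : I → Fin 2} (hc : (D.inst hloop).Good c)
    {a b : Fin 2} (hab : ¬ (a = c D.rV ∧ b = c D.rV)) {W : Set (S ⊕ T)} {j : Fin 2}
    (hW : Closed g.r W) (hne : W.Nonempty) (hu : W ≠ Set.univ)
    (hno : ∀ i, D.col c (c D.rV) a b i = j → g.hd i ∈ W → g.tl i ∈ W) :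
    (D.inst hloop).KC (W \ D.R) ∧ (W \ D.R).Nonempty ∧ W \ D.R ≠ (D.inst hloop).kept ∧
    ∀ i, c i = j → D.hd2 i ∈ W \ D.R → D.tl2 i ∉ W \ D.R →
      (i = D.iA ∧ a = j) ∨ (i = D.iB ∧ b = j) := by
  set e := c D.rV with he
  have hKC : (D.inst hloop).KC (W \ D.R) := by
    refine ⟨?_, ?_⟩
    · intro x hx
      rw [D.kept_iff]
      exact hx.2
    · intro u w hu' hB hw
      refine ⟨hW _ _ ⟨u, w, rfl, rfl, hB⟩ hw.1, ?_⟩
      obtain ⟨h1, h2, h3⟩ := hu'
      simp [R, h1, h2, h3]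
  have hsR : (Sum.inl g.s : S ⊕ T) ∉ D.R := by
    simp [R, D.v_ne_s.symm, D.ua_ne_s.symm, D.ub_ne_s.symm]
  have htR : (Sum.inr g.t : S ⊕ T) ∉ D.R := by
    simp [R, D.wa_ne_t.symm, D.wb_ne_t.symm]
  have hcs : ∀ w, Sum.inr w ∈ W → Sum.inl g.s ∈ W :=
    fun w hw => hW _ _ ⟨g.s, w, rfl, rfl, g.Bs w⟩ hw
  have hrV := D.rV_nR hloop
  have hpA := D.pA_nR hloop
  have hpB := D.pB_nR hloop
  have hqA := D.qA_nR hloop
  have hqB := D.qB_nR hloop
  -- chain facts
  have cv1 : Sum.inl D.v ∈ W → j = e → g.tl D.rV ∈ W := by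
    intro h hj
    apply hno D.rV _ (by rw [D.rV_hd]; exact h)
    rw [D.col_of_not_del _ _ _ _ D.rV_not_del, hj]
  have cv2 : Sum.inl D.v ∈ W → j = ng e → Sum.inl D.ub ∈ W := by
    intro h hj
    rw [← D.xV_tl]
    apply hno D.xV _ (by rw [D.xV_hd]; exact h)
    rw [D.col_xV, hj]
  have cb1 : Sum.inl D.ub ∈ W → j = b → Sum.inr D.wb ∈ W := by
    intro h hj
    rw [← D.kB_tl]
    apply hno D.kB _ (by rw [D.kB_hd]; exact h)
    rw [D.col_kB, hj]
  have cb2 : Sum.inl D.ub ∈ W → j = ng b → Sum.inl D.ua ∈ W := by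
    intro h hj
    rw [← D.xB_tl]
    apply hno D.xB _ (by rw [D.xB_hd]; exact h)
    rw [D.col_xB, hj]
  have ca1 : Sum.inl D.ua ∈ W → j = a → Sum.inr D.wa ∈ W := by
    intro h hj
    rw [← D.kA_tl]
    apply hno D.kA _ (by rw [D.kA_hd]; exact h)
    rw [D.col_kA, hj]
  have ca2 : Sum.inl D.ua ∈ W → j = ng a → Sum.inl D.v ∈ W := by
    intro h hj
    rw [← D.xA_tl]
    apply hno D.xA _ (by rw [D.xA_hd]; exact h)
    rw [D.col_xA, hj]
  have hs_bb : Sum.inl g.s ∉ W → Sum.inl D.ub ∈ W → j = ng b ∧ Sum.inl D.ua ∈ W := by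
    intro h h1
    have hj : j ≠ b := fun hj => h (hcs _ (cb1 h1 hj))
    have hj' := eq_ng_of_ne hj
    exact ⟨hj', cb2 h1 hj'⟩
  have hs_aa : Sum.inl g.s ∉ W → Sum.inl D.ua ∈ W → j = ng a ∧ Sum.inl D.v ∈ W := by
    intro h h1
    have hj : j ≠ a := fun hj => h (hcs _ (ca1 h1 hj))
    have hj' := eq_ng_of_ne hj
    exact ⟨hj', ca2 h1 hj'⟩
  have T2 : Sum.inl g.s ∉ W → Sum.inl D.v ∈ W → j = ng e → False := by
    intro h h1 hj
    obtain ⟨h2, h3⟩ := hs_bb h (cv2 h1 hj)
    obtain ⟨h4, _⟩ := hs_aa h h3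
    exact hab ⟨ng_inj (h4.symm.trans hj), ng_inj (h2.symm.trans hj)⟩
  refine ⟨hKC, ?_, ?_, ?_⟩
  · -- nonempty
    by_contra hcon
    rw [Set.not_nonempty_iff_eq_empty] at hcon
    have hWR : ∀ x ∈ W, x ∈ D.R := by
      intro x hx
      by_contra h
      have : x ∈ W \ D.R := ⟨hx, h⟩
      rw [hcon] at this
      exact this
    have hs : Sum.inl g.s ∉ W := fun h => hsR (hWR _ h)
    have hv : Sum.inl D.v ∈ W := by
      obtain ⟨x, hx⟩ := hne
      have hx' := hWR x hx
      simp only [R, Set.mem_insert_iff, Set.mem_singleton_iff] at hx'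
      rcases hx' with rfl | rfl | rfl | rfl | rfl
      · exact hx
      · exact (hs_aa hs hx).2
      · exact (hs_aa hs (hs_bb hs hx).2).2
      · exact absurd (hcs _ hx) hs
      · exact absurd (hcs _ hx) hs
    by_cases hj : j = e
    · have := hWR _ (cv1 hv hj)
      rw [D.nR_iff] at hrV
      exact hrV this
    · exact T2 hs hv (eq_ng_of_ne hj)
  · -- not everything
    intro hcon
    have hkW : ∀ x, x ∉ D.R → x ∈ W := by
      intro x hx
      rw [← D.kept_iff hloop, ← hcon] at hx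
      exact hx.1
    have htW := hkW _ htR
    have hallS : ∀ u, Sum.inl u ∈ W := fun u => hW _ _ ⟨u, g.t, rfl, rfl, g.Bt u⟩ htW
    have hwa : Sum.inr D.wa ∈ W := by
      by_cases hj : j = a
      · exact ca1 (hallS _) hj
      · rw [← D.yA_tl]
        apply hno D.yA
        · rw [D.col_yA, eq_ng_of_ne hj]
        · rw [D.yA_hd]
          apply hkW
          simp [R, hqA.1, hqA.2]
    have hwb : Sum.inr D.wb ∈ W := by
      by_cases hj : j = b
      · exact cb1 (hallS _) hj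
      · rw [← D.yB_tl]
        apply hno D.yB
        · rw [D.col_yB, eq_ng_of_ne hj]
        · rw [D.yB_hd]
          apply hkW
          simp [R, hqB.1, hqB.2]
    apply hu
    ext x
    simp only [Set.mem_univ, iff_true]
    by_cases hx : x ∈ D.R
    · simp only [R, Set.mem_insert_iff, Set.mem_singleton_iff] at hx
      rcases hx with rfl | rfl | rfl | rfl | rfl
      · exact hallS _
      · exact hallS _
      · exact hallS _
      · exact hwa
      · exact hwb
    · exact hkW x hx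
  · intro i hi hh ht
    rcases D.cls2 hloop i with ⟨_, h1, h2⟩ | ⟨hi', h1, h2⟩ | ⟨hi', h1, h2⟩ | ⟨hi', h1, h2⟩ |
      ⟨hv, hnh, hns, h1, h2⟩ | ⟨hnt, _, h1, h2⟩
    · rw [h2] at hh
      rw [h1] at ht
      exact absurd hh ht
    · exfalso
      rw [h2] at hh
      rw [h1, hi'] at ht
      have hj : j = e := by rw [he, ← hi', hi]
      have hv : Sum.inl D.v ∈ W := by
        rw [← D.eX_tl]
        apply hno D.eX
        · rw [D.col_eX, hj]
        · rw [D.eX_hd]; exact hh.1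
      rw [D.nR_iff] at hrV
      exact ht ⟨cv1 hv hj, hrV⟩
    · left
      refine ⟨hi', ?_⟩
      by_contra hcon
      rw [h2] at hh
      rw [h1] at ht
      have hj := eq_ng_of_ne (Ne.symm hcon)
      have hwa : Sum.inr D.wa ∈ W := by
        rw [← D.yA_tl]
        apply hno D.yA
        · rw [D.col_yA, hj]
        · rw [D.yA_hd]; exact hh.1
      have hp : Sum.inr D.pA ∈ W := by
        rw [← D.iA_tl]
        apply hno D.iA
        · rw [D.col_of_not_del _ _ _ _ (D.iA_not_del hloop), ← hi', hi]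
        · rw [D.iA_hd]; exact hwa
      exact ht ⟨hp, by simp [R, hpA.1, hpA.2]⟩
    · right
      refine ⟨hi', ?_⟩
      by_contra hcon
      rw [h2] at hh
      rw [h1] at ht
      have hj := eq_ng_of_ne (Ne.symm hcon)
      have hwb : Sum.inr D.wb ∈ W := by
        rw [← D.yB_tl]
        apply hno D.yB
        · rw [D.col_yB, hj]
        · rw [D.yB_hd]; exact hh.1
      have hp : Sum.inr D.pB ∈ W := by
        rw [← D.iB_tl]
        apply hno D.iB
        · rw [D.col_of_not_del _ _ _ _ (D.iB_not_del hloop), ← hi', hi]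
        · rw [D.iB_hd]; exact hwb
      exact ht ⟨hp, by simp [R, hpB.1, hpB.2]⟩
    · -- an out-item of `v`
      exfalso
      rw [h2] at hh
      rw [h1] at ht
      have hsW : Sum.inl g.s ∉ W := fun h => ht ⟨h, hsR⟩
      have hnd : ¬ D.del i := by
        rintro (rfl | rfl | rfl | rfl | rfl | rfl | rfl | rfl)
        · exact hns D.eX_hd
        · exact hnh.2.1 D.xA_hd
        · exact hnh.2.2.1 D.xB_hd
        · exact hnh.1 D.xV_hd
        · exact hnh.2.1 D.kA_hd
        · exact hnh.2.2.1 D.kB_hd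
        · rw [D.yA_tl] at hv; cases hv
        · rw [D.yB_tl] at hv; cases hv
      have hvW : Sum.inl D.v ∈ W := by
        rw [← hv]
        apply hno i _ hh.1
        rw [D.col_of_not_del _ _ _ _ hnd, hi]
      by_cases hj : j = e
      swap
      · exact T2 hsW hvW (eq_ng_of_ne hj)
      have hrW := cv1 hvW hj
      have hnoT : ∀ w, Sum.inr w ∉ W := fun w hw => hsW (hcs w hw)
      -- the colour of `gS`
      have hgS : c D.gS = ng e := by
        obtain ⟨i', hi1, hi2, hi3⟩ := hc {Sum.inl g.s} (by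
          refine ⟨?_, ?_⟩
          · rintro x rfl
            rw [D.kept_iff]
            exact hsR
          · intro u w _ _ h
            cases h) (Set.singleton_nonempty _) (by
          intro h
          have : Sum.inr g.t ∈ ({Sum.inl g.s} : Set (S ⊕ T)) := by
            rw [h, D.kept_iff]
            exact htR
          cases this) (ng e)
        have hi2' : D.hd2 i' = Sum.inl g.s := hi2
        have hi3' : D.tl2 i' ≠ Sum.inl g.s := hi3
        rcases D.cls2 hloop i' with ⟨_, g1, g2⟩ | ⟨g0, g1, g2⟩ | ⟨g0, g1, g2⟩ | ⟨g0, g1, g2⟩ |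
          ⟨gv, gnh, gns, g1, g2⟩ | ⟨gnt, _, g1, g2⟩
        · exact absurd g1 hi3'
        · rw [g0, ← he] at hi1
          exact absurd hi1.symm (ng_ne e)
        · rw [g2] at hi2'; cases hi2'
        · rw [g2] at hi2'; cases hi2'
        · exact absurd g1 hi3'
        · rw [g2] at hi2'
          rcases D.in_s i' hi2' with rfl | rfl
          · exact absurd D.eX_tl gnt.1
          · exact hi1
      obtain ⟨i', hi1, hi2, hi3⟩ := hc (insert (Sum.inl g.s) (W \ D.R)) (by
          refine ⟨?_, ?_⟩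
          · rintro x (rfl | hx)
            · rw [D.kept_iff]; exact hsR
            · exact hKC.1 hx
          · intro u w _ _ h
            rcases h with h | h
            · cases h
            · exact absurd h.1 (hnoT w)) (Set.insert_nonempty _ _) (by
          intro h
          have : Sum.inr g.t ∈ insert (Sum.inl g.s) (W \ D.R) := by
            rw [h, D.kept_iff]
            exact htR
          rcases this with h' | h'
          · cases h'
          · exact hnoT _ h'.1) e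
      have hi2' : D.hd2 i' = Sum.inl g.s ∨ D.hd2 i' ∈ W \ D.R := hi2
      have hi3' : D.tl2 i' ≠ Sum.inl g.s := fun h => hi3 (Or.inl h)
      have hi3'' : D.tl2 i' ∉ W \ D.R := fun h => hi3 (Or.inr h)
      rcases D.cls2 hloop i' with ⟨_, g1, g2⟩ | ⟨g0, g1, g2⟩ | ⟨g0, g1, g2⟩ | ⟨g0, g1, g2⟩ |
          ⟨gv, gnh, gns, g1, g2⟩ | ⟨gnt, _, g1, g2⟩
      · exact absurd g1 hi3'
      · rw [g1, g0] at hi3''
        rw [D.nR_iff] at hrV
        exact hi3'' ⟨hrW, hrV⟩
      · rw [g2] at hi2'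
        rcases hi2' with h | h
        · cases h
        · exact hnoT _ h.1
      · rw [g2] at hi2'
        rcases hi2' with h | h
        · cases h
        · exact hnoT _ h.1
      · exact absurd g1 hi3'
      · rw [g2] at hi2'
        rw [g1] at hi3' hi3''
        rcases hi2' with h | h
        · rcases D.in_s i' h with rfl | rfl
          · exact absurd D.eX_tl gnt.1
          · rw [hgS] at hi1
            exact absurd hi1 (ng_ne e)
        · apply hi3''
          refine ⟨?_, (D.nR_iff _).mp gnt⟩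
          apply hno i' _ h.1
          rw [D.col_of_not_del _ _ _ _ (D.not_del_of_nR gnt), hi1, hj]
    · -- ordinary items
      exfalso
      rw [h2] at hh
      rw [h1] at ht
      apply ht
      refine ⟨?_, (D.nR_iff _).mp hnt⟩
      apply hno i _ hh.1
      rw [D.col_of_not_del _ _ _ _ (D.not_del_of_nR hnt), hi]

/-- **Deletion (D)**: an instance with this configuration is colourable. -/
theorem colour [Finite S] [Finite T] [Finite I] (D : DelData g)
    (hloop : ∀ i, g.tl i ≠ g.hd i) (hV : GW.Valid g.r g.tl g.hd 2) (hP1 : g.P1 2) (hAnti : g.Anti)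
    (hcol : Col 2 (Nat.card S + Nat.card T)) :
    ∃ c : I → Fin 2, GW.Good g.r g.tl g.hd c := by
  have hcard : Nat.card ↥(D.inst hloop).kS + Nat.card ↥(D.inst hloop).kT <
      Nat.card S + Nat.card T := by
    have h1 : (D.inst hloop).kS.ncard < Nat.card S := by
      apply Set.ncard_lt_card
      intro h
      have : D.v ∈ (D.inst hloop).kS := by rw [h]; exact Set.mem_univ _
      exact this.1 rfl
    have h2 : (D.inst hloop).kT.ncard ≤ Nat.card T := Set.ncard_le_card _
    rw [Nat.card_coe_set_eq, Nat.card_coe_set_eq]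
    omega
  obtain ⟨c, hc⟩ := (D.inst hloop).colour hcol hcard (D.inst_valid hloop hV hP1 hAnti)
  set e := c D.rV with he
  by_cases hx : c D.iA = ng e ∧ c D.iB = ng e
  · -- both strands have the other colour
    by_contra hcon
    push Not at hcon
    have h1 := hcon (D.col c e (ng e) e)
    have h2 := hcon (D.col c e e (ng e))
    simp only [GW.Good, not_forall] at h1 h2
    obtain ⟨W1, hW1, hn1, hu1, j1, hj1⟩ := h1
    obtain ⟨W2, hW2, hn2, hu2, j2, hj2⟩ := h2
    have hno1 : ∀ i, D.col c e (ng e) e i = j1 → g.hd i ∈ W1 → g.tl i ∈ W1 := by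
      intro i hi hh
      by_contra ht
      exact hj1 ⟨i, hi, hh, ht⟩
    have hno2 : ∀ i, D.col c e e (ng e) i = j2 → g.hd i ∈ W2 → g.tl i ∈ W2 := by
      intro i hi hh
      by_contra ht
      exact hj2 ⟨i, hi, hh, ht⟩
    obtain ⟨k1, k2, k3, k4⟩ := D.key hloop hc (a := ng e) (b := e)
      (by rintro ⟨h, _⟩; exact ng_ne e h) hW1 hn1 hu1 hno1
    obtain ⟨l1, l2, l3, l4⟩ := D.key hloop hc (a := e) (b := ng e)
      (by rintro ⟨_, h⟩; exact ng_ne e h) hW2 hn2 hu2 hno2
    -- first set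
    obtain ⟨i1, a1, a2, a3⟩ := hc _ k1 k2 k3 j1
    change D.hd2 i1 ∈ _ at a2
    change D.tl2 i1 ∉ _ at a3
    have hjj1 : j1 = ng e ∧ i1 = D.iA := by
      rcases k4 i1 a1 a2 a3 with ⟨h, h'⟩ | ⟨h, h'⟩
      · exact ⟨h'.symm, h⟩
      · exfalso
        rw [h, hx.2] at a1
        exact ng_ne e (a1.trans h'.symm)
    obtain ⟨i2, b1, b2, b3⟩ := hc _ l1 l2 l3 j2
    change D.hd2 i2 ∈ _ at b2
    change D.tl2 i2 ∉ _ at b3
    have hjj2 : j2 = ng e ∧ i2 = D.iB := by
      rcases l4 i2 b1 b2 b3 with ⟨h, h'⟩ | ⟨h, h'⟩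
      · exfalso
        rw [h, hx.1] at b1
        exact ng_ne e (b1.trans h'.symm)
      · exact ⟨h'.symm, h⟩
    have hA2 : D.hd2 D.iA = Sum.inr D.qA := by
      rcases D.cls2 hloop D.iA with ⟨h, _, _⟩ | ⟨h, _, _⟩ | ⟨_, _, h⟩ | ⟨h, _, _⟩ |
        ⟨h, _, _⟩ | ⟨_, h, _⟩
      · exact absurd h (D.iA_not_del hloop)
      · exfalso
        have h1 := D.iA_hd
        rw [h, D.rV_hd] at h1
        cases h1
      · exact h
      · exact absurd h D.iA_ne_iB
      · rw [D.iA_tl] at h; cases h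
      · exact absurd D.iA_hd h.2.2.2.1
    have hB2 : D.hd2 D.iB = Sum.inr D.qB := by
      rcases D.cls2 hloop D.iB with ⟨h, _, _⟩ | ⟨h, _, _⟩ | ⟨h, _, _⟩ | ⟨_, _, h⟩ |
        ⟨h, _, _⟩ | ⟨_, h, _⟩
      · exact absurd h (D.iB_not_del hloop)
      · exfalso
        have h1 := D.iB_hd
        rw [h, D.rV_hd] at h1
        cases h1
      · exact absurd h.symm D.iA_ne_iB
      · exact h
      · rw [D.iB_tl] at h; cases h
      · exact absurd D.iB_hd h.2.2.2.2
    rw [hjj1.2, hA2] at a2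
    rw [hjj2.2, hB2] at b2
    have hA1 : D.tl2 D.iA = Sum.inr D.pA := by
      have h0 := D.cls2 hloop D.iA
      rcases h0 with ⟨h, _, _⟩ | ⟨h, _, _⟩ | ⟨_, h, _⟩ | ⟨h, _, _⟩ | ⟨h, _, _⟩ | ⟨_, h, _⟩
      · exact absurd h (D.iA_not_del hloop)
      · exfalso
        have h1 := D.iA_hd
        rw [h, D.rV_hd] at h1
        cases h1
      · exact h
      · exact absurd h D.iA_ne_iB
      · rw [D.iA_tl] at h; cases h
      · exact absurd D.iA_hd h.2.2.2.1
    have hB1 : D.tl2 D.iB = Sum.inr D.pB := by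
      have h0 := D.cls2 hloop D.iB
      rcases h0 with ⟨h, _, _⟩ | ⟨h, _, _⟩ | ⟨h, _, _⟩ | ⟨_, h, _⟩ | ⟨h, _, _⟩ | ⟨_, h, _⟩
      · exact absurd h (D.iB_not_del hloop)
      · exfalso
        have h1 := D.iB_hd
        rw [h, D.rV_hd] at h1
        cases h1
      · exact absurd h.symm D.iA_ne_iB
      · exact h
      · rw [D.iB_tl] at h; cases h
      · exact absurd D.iB_hd h.2.2.2.2
    rw [hjj1.2, hA1] at a3
    rw [hjj2.2, hB1] at b3
    have hBa : g.B D.ua D.wa := by
      rcases g.kind D.kA with ⟨u, w, hB, h1, h2⟩ | ⟨u, v, h1, h2⟩ | ⟨w, w', h1, h2⟩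
      · rw [D.kA_tl] at h1; rw [D.kA_hd] at h2
        rw [Sum.inr_injective h1, Sum.inl_injective h2]; exact hB
      · rw [D.kA_tl] at h1; cases h1
      · rw [D.kA_hd] at h2; cases h2
    have hBb : g.B D.ub D.wb := by
      rcases g.kind D.kB with ⟨u, w, hB, h1, h2⟩ | ⟨u, v, h1, h2⟩ | ⟨w, w', h1, h2⟩
      · rw [D.kB_tl] at h1; rw [D.kB_hd] at h2
        rw [Sum.inr_injective h1, Sum.inl_injective h2]; exact hB
      · rw [D.kB_tl] at h1; cases h1
      · rw [D.kB_hd] at h2; cases h2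
    have hpA := D.pA_nR hloop
    have hpB := D.pB_nR hloop
    have hqA2 : Sum.inr D.qA ∉ W2 := by
      intro h
      have h1 : Sum.inr D.wa ∈ W2 := by
        rw [← D.yA_tl]
        exact hno2 D.yA (by rw [D.col_yA, hjj2.1]) (by rw [D.yA_hd]; exact h)
      have h2 : Sum.inl D.ua ∈ W2 := hW2 _ _ ⟨_, _, rfl, rfl, hBa⟩ h1
      have h3 : Sum.inl D.v ∈ W2 := by
        rw [← D.xA_tl]
        exact hno2 D.xA (by rw [D.col_xA, hjj2.1]) (by rw [D.xA_hd]; exact h2)
      have h4 : Sum.inl D.ub ∈ W2 := by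
        rw [← D.xV_tl]
        exact hno2 D.xV (by rw [D.col_xV, hjj2.1]) (by rw [D.xV_hd]; exact h3)
      have h5 : Sum.inr D.wb ∈ W2 := by
        rw [← D.kB_tl]
        exact hno2 D.kB (by rw [D.col_kB, hjj2.1]) (by rw [D.kB_hd]; exact h4)
      have h6 : Sum.inr D.pB ∈ W2 := by
        rw [← D.iB_tl]
        apply hno2 D.iB _ (by rw [D.iB_hd]; exact h5)
        rw [D.col_of_not_del _ _ _ _ (D.iB_not_del hloop), hx.2, hjj2.1]
      exact b3 ⟨h6, by simp [R, hpB.1, hpB.2]⟩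
    have hqB1 : Sum.inr D.qB ∉ W1 := by
      intro h
      have h1 : Sum.inr D.wb ∈ W1 := by
        rw [← D.yB_tl]
        exact hno1 D.yB (by rw [D.col_yB, hjj1.1]) (by rw [D.yB_hd]; exact h)
      have h2 : Sum.inl D.ub ∈ W1 := hW1 _ _ ⟨_, _, rfl, rfl, hBb⟩ h1
      have h3 : Sum.inl D.ua ∈ W1 := by
        rw [← D.xB_tl]
        exact hno1 D.xB (by rw [D.col_xB, hjj1.1]) (by rw [D.xB_hd]; exact h2)
      have h5 : Sum.inr D.wa ∈ W1 := by
        rw [← D.kA_tl]
        exact hno1 D.kA (by rw [D.col_kA, hjj1.1]) (by rw [D.kA_hd]; exact h3)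
      have h6 : Sum.inr D.pA ∈ W1 := by
        rw [← D.iA_tl]
        apply hno1 D.iA _ (by rw [D.iA_hd]; exact h5)
        rw [D.col_of_not_del _ _ _ _ (D.iA_not_del hloop), hx.1, hjj1.1]
      exact a3 ⟨h6, by simp [R, hpA.1, hpA.2]⟩
    have hs1 : Sum.inl g.s ∈ W1 := hW1 _ _ ⟨_, _, rfl, rfl, g.Bs D.qA⟩ a2.1
    have hs2 : Sum.inl g.s ∈ W2 := hW2 _ _ ⟨_, _, rfl, rfl, g.Bs D.qB⟩ b2.1
    have hsR : (Sum.inl g.s : S ⊕ T) ∉ D.R := by
      simp [R, D.v_ne_s.symm, D.ua_ne_s.symm, D.ub_ne_s.symm]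
    have hKI : (D.inst hloop).KC ((W1 \ D.R) ∩ (W2 \ D.R)) := by
      refine ⟨fun x hx => k1.1 hx.1, ?_⟩
      intro u w hu hB hw
      exact ⟨k1.2 u w hu hB hw.1, l1.2 u w hu hB hw.2⟩
    obtain ⟨i, m1, m2, m3⟩ := hc _ hKI ⟨_, ⟨hs1, hsR⟩, ⟨hs2, hsR⟩⟩ (by
      intro h
      apply k3
      apply Set.Subset.antisymm k1.1
      rw [← h]
      exact Set.inter_subset_left) (ng e)
    have m2' : D.hd2 i ∈ (W1 \ D.R) ∩ (W2 \ D.R) := m2
    have m3' : D.tl2 i ∉ (W1 \ D.R) ∩ (W2 \ D.R) := m3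
    by_cases h1 : D.tl2 i ∈ W1 \ D.R
    · have h2 : D.tl2 i ∉ W2 \ D.R := fun h => m3' ⟨h1, h⟩
      rcases l4 i (by rw [m1, hjj2.1]) m2'.2 h2 with ⟨h, h'⟩ | ⟨h, h'⟩
      · rw [hjj2.1] at h'
        exact ng_ne e h'.symm
      · rw [h, hB2] at m2'
        exact hqB1 m2'.1.1
    · rcases k4 i (by rw [m1, hjj1.1]) m2'.1 h1 with ⟨h, h'⟩ | ⟨h, h'⟩
      · rw [h, hA2] at m2'
        exact hqA2 m2'.2.1
      · rw [hjj1.1] at h'
        exact ng_ne e h'.symm
  · -- the easy case
    refine ⟨D.col c e (ng (c D.iA)) (ng (c D.iB)), ?_⟩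
    intro W hW hn hu j
    by_contra hcon
    have hno : ∀ i, D.col c e (ng (c D.iA)) (ng (c D.iB)) i = j → g.hd i ∈ W → g.tl i ∈ W := by
      intro i hi hh
      by_contra ht
      exact hcon ⟨i, hi, hh, ht⟩
    obtain ⟨k1, k2, k3, k4⟩ := D.key hloop hc (a := ng (c D.iA)) (b := ng (c D.iB))
      (by
        rintro ⟨h, h'⟩
        apply hx
        rw [← he] at h h'
        exact ⟨by rw [← h, ng_ng], by rw [← h', ng_ng]⟩) hW hn hu hno
    obtain ⟨i1, a1, a2, a3⟩ := hc _ k1 k2 k3 j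
    rcases k4 i1 a1 a2 a3 with ⟨h, h'⟩ | ⟨h, h'⟩
    · rw [h] at a1
      rw [← a1] at h'
      exact ng_ne _ h'
    · rw [h] at a1
      rw [← a1] at h'
      exact ng_ne _ h'

end DelData

end GW
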