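import Pool.Agent.GW.InnerStmts
import Pool.Agent.GW.DRed

/-!
# MP_27938c_co: `Stmt_DRed` from `DRed.lean`
-/

namespace GW

open Set

theorem DRed_proof : Stmt_DRed := by
  classical
  intro S T I g hg v ua ub wa wb pa qa pb qb x1 x2 x3 ex r ka kb ya yb ina inb D hA hB hAB
  have := hg.finS
  have := hg.finT
  have := hg.finI
  -- the other in-item of `s`
  have hs2 : (Ent g.tl g.hd {Sum.inl g.s}).ncard = 2 := hg.exact.1 g.s
  have hexE : ex ∈ Ent g.tl g.hd {Sum.inl g.s} := by
    refine ⟨D.hex.2, ?_⟩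
    rw [D.hex.1]
    intro h
    exact D.hv (Sum.inl_injective h)
  obtain ⟨a, b, hab, hE⟩ := Set.ncard_eq_two.mp hs2
  obtain ⟨gS, hgS, hgne, hin⟩ : ∃ gS, g.hd gS = Sum.inl g.s ∧ gS ≠ ex ∧
      ∀ i, g.hd i = Sum.inl g.s → i = ex ∨ i = gS := by
    have hmem : ∀ i, g.hd i = Sum.inl g.s → i = a ∨ i = b := by
      intro i hi
      have : i ∈ Ent g.tl g.hd {Sum.inl g.s} := by
        refine ⟨hi, ?_⟩
        intro h
        exact hg.noloop i (by rw [hi]; exact h)
      rw [hE] at this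
      simpa using this
    have ha : g.hd a = Sum.inl g.s := by
      have : a ∈ Ent g.tl g.hd {Sum.inl g.s} := by rw [hE]; simp
      exact this.1
    have hb : g.hd b = Sum.inl g.s := by
      have : b ∈ Ent g.tl g.hd {Sum.inl g.s} := by rw [hE]; simp
      exact this.1
    rcases hmem ex D.hex.2 with h | h
    · subst h
      exact ⟨b, hb, hab.symm, hmem⟩
    · subst h
      exact ⟨a, ha, hab, fun i hi => (hmem i hi).symm⟩
  have hgStl : g.tl gS ≠ Sum.inl v := by
    intro h
    have h1 : gS ∈ g.outE v := h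
    rcases D.vcase with ⟨_, h2⟩ | ⟨_, y, x, hy, h2, h3, h4, _⟩
    · rw [h2] at h1
      rcases h1 with h1 | h1
      · rw [h1, D.hx1.2] at hgS
        exact D.hua (Sum.inl_injective hgS)
      · exact hgne h1
    · rw [h2] at h1
      rcases h1 with h1 | h1 | h1
      · rw [h1, D.hx1.2] at hgS
        exact D.hua (Sum.inl_injective hgS)
      · exact hgne h1
      · rw [h1, h3] at hgS
        exact h4 (Sum.inl_injective hgS)
  have hin2 : ∀ (P : Set I) (x y : I), P = {x, y} → ∀ i ∈ P, i = x ∨ i = y := by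
    intro P x y h i hi
    rw [h] at hi
    simpa using hi
  have hrE : r ∈ g.inE v := by rw [D.inEv]; simp
  let E : DelData g :=
    { v := v, ua := ua, ub := ub, wa := wa, wb := wb, pA := pa, qA := qa, pB := pb, qB := qb
      eX := ex, xA := x1, xB := x2, xV := x3, kA := ka, kB := kb, yA := ya, yB := yb
      iA := ina, iB := inb, rV := r, gS := gS
      v_ne_s := D.hv, ua_ne_s := D.hua, ub_ne_s := D.hub, v_ne_ua := D.hvua
      v_ne_ub := D.hvub, ua_ne_ub := D.huab, wa_ne_t := D.hwa, wb_ne_t := D.hwb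
      wa_ne_wb := D.hwab
      eX_tl := D.hex.1, eX_hd := D.hex.2, xA_tl := D.hx1.1, xA_hd := D.hx1.2
      xB_tl := D.hx2.1, xB_hd := D.hx2.2, xV_tl := D.hx3.1, xV_hd := D.hx3.2
      kA_tl := D.hka.1, kA_hd := D.hka.2, kB_tl := D.hkb.1, kB_hd := D.hkb.2
      yA_tl := D.hya.1, yA_hd := D.hya.2, yB_tl := D.hyb.1, yB_hd := D.hyb.2
      iA_tl := D.hina.1, iA_hd := D.hina.2, iB_tl := D.hinb.1, iB_hd := D.hinb.2
      rV_hd := hrE, rV_ne := D.hrx3
      gS_hd := hgS, gS_ne := hgne, gS_tl := hgStl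
      in_s := hin
      in_v := fun i hi => hin2 _ _ _ D.inEv i hi
      in_ua := fun i hi => hin2 _ _ _ D.inEua i hi
      in_ub := fun i hi => hin2 _ _ _ D.inEub i hi
      in_wa := fun i hi => by
        have : i ∈ {i | g.hd i = Sum.inr wa} := hi
        rw [D.inwa] at this
        exact this
      in_wb := fun i hi => by
        have : i ∈ {i | g.hd i = Sum.inr wb} := hi
        rw [D.inwb] at this
        exact this
      out_ua := fun i hi => by
        have : i ∈ g.outE ua := hi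
        rw [D.outEua] at this
        exact this
      out_ub := fun i hi => by
        have : i ∈ g.outE ub := hi
        rw [D.outEub] at this
        exact this
      out_wa := fun i hi => hin2 _ _ _ D.outwa i hi
      out_wb := fun i hi => hin2 _ _ _ D.outwb i hi
      pA_ne_t := D.hpat, pB_ne_t := D.hpbt, qA_ne := D.hqab, qB_ne := D.hqba
      tvA := fun C h1 h2 h3 h4 h5 => hA C h1 h2 h3 h4 h5
      tvB := fun C h1 h2 h3 h4 h5 => hB C h1 h2 h3 h4 h5
      tvAB := fun C h1 h2 h3 h4 h5 h6 h7 => hAB C h1 h2 h3 h4 h5 h6 h7 }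
  obtain ⟨c, hc⟩ := E.colour hg.noloop hg.valid hg.p1 hg.anti hg.col
  refine hg.bad (fun i => decide (c i = 1)) ?_
  intro Z h1 h2 h3 b
  cases b with
  | true =>
    obtain ⟨i, hi, h⟩ := hc Z h1 h2 h3 1
    exact ⟨i, by simp [hi], h⟩
  | false =>
    obtain ⟨i, hi, h⟩ := hc Z h1 h2 h3 0
    exact ⟨i, by simp [hi], h⟩

end GW
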