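import Pool.Agent.GW.InnerStmts

/-!
# MP_27938c_co: reductions (DEL-Ks), (DEL-Kt)
-/

namespace GW

variable {S T I : Type}

/-- fewer vertices after the deletion of one source -/
theorem card_del_lt (S T : Type) [Finite S] [Finite T] (u : S) :
    Nat.card ↥({u}ᶜ : Set S) + Nat.card ↥(Set.univ : Set T) < Nat.card S + Nat.card T := by
  have h1 : Nat.card ↥({u}ᶜ : Set S) < Nat.card S := by
    rw [Nat.card_coe_set_eq, ← Set.ncard_univ]
    apply Set.ncard_lt_ncard _ (Set.toFinite _)
    refine ⟨Set.subset_univ _, fun h => ?_⟩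
    exact (h (Set.mem_univ u)) rfl
  have h2 : Nat.card ↥(Set.univ : Set T) = Nat.card T := by
    rw [Nat.card_coe_set_eq, Set.ncard_univ]
  omega

/-- monotonicity of the number of entering items -/
theorem two_le_of_subset [Finite I] {A B : Set I} (h : A ⊆ B) (h2 : 2 ≤ A.ncard) :
    2 ≤ B.ncard :=
  h2.trans (Set.ncard_le_ncard h (Set.toFinite _))

/-- common part of (DEL-Ks) and (DEL-Kt): the instance with `u` deleted -/
theorem MinInst.noB {g : ST S T I} (hg : MinInst g) {u : S} {w : T} {k a : I} (hu : u ≠ g.s)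
    (hin : g.inE u = {k, a}) (hk : g.tl k = Sum.inr w)
    (ha : g.tl a = Sum.inl g.s ∨ g.tl a = Sum.inr g.t) {y : T} (hB : g.B u y) :
    y = g.t ∨ y = w := by
  rcases hg.anti u y hB with h | h | ⟨i, h1, h2⟩
  · exact absurd h hu
  · exact Or.inl h
  · have hi : i ∈ g.inE u := h2
    rw [hin] at hi
    rcases hi with rfl | hi
    · rw [hk] at h1
      exact Or.inr (Sum.inr.inj h1).symm
    · rw [Set.mem_singleton_iff] at hi
      subst hi
      rcases ha with ha | ha
      · rw [ha] at h1; cases h1
      · rw [ha] at h1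
        exact Or.inl (Sum.inr.inj h1).symm

open Classical in
/-- the reduced instance: `u` is deleted, `k` becomes `w → t`, `a` becomes `p → q` -/
noncomputable def delInst (g : ST S T I) (u : S) (w : T) (k a : I) (hu : u ≠ g.s)
    (hin : g.inE u = {k, a}) (hout : g.outE u = ∅) (p : S ⊕ T)
    (hp : p = Sum.inl g.s ∨ p = Sum.inr g.t) : RInst S T I where
  kS := {u}ᶜ
  kT := Set.univ
  s := g.s
  t := g.t
  hs := fun h => hu (by simpa using h.symm)
  ht := Set.mem_univ _
  B := g.B
  Bs := fun w _ => g.Bs w
  Bt := fun u _ => g.Bt u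
  tl := fun i => if i = k then Sum.inr w else if i = a then p else g.tl i
  hd := fun i => if i = k then Sum.inr g.t else if i = a then
    (if p = Sum.inl g.s then Sum.inl g.s else Sum.inr w) else g.hd i
  kind := by
    intro i
    by_cases hik : i = k
    · simp only [hik, if_true]
      exact Or.inr (Or.inr ⟨w, g.t, Set.mem_univ _, Set.mem_univ _, rfl, rfl⟩)
    by_cases hia : i = a
    · simp only [hia, if_true]
      have hak : a ≠ k := fun h => hik (hia.trans h)
      simp only [if_neg hak]
      rcases hp with rfl | rfl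
      · simp only [if_true]
        exact Or.inr (Or.inl ⟨g.s, g.s, fun h => hu (by simpa using h.symm),
          fun h => hu (by simpa using h.symm), rfl, rfl⟩)
      · rw [if_neg (by simp)]
        exact Or.inr (Or.inr ⟨g.t, w, Set.mem_univ _, Set.mem_univ _, rfl, rfl⟩)
    simp only [if_neg hik, if_neg hia]
    have h1 : g.hd i ≠ Sum.inl u := by
      intro h
      have : i ∈ g.inE u := h
      rw [hin] at this
      rcases this with h | h
      · exact hik h
      · exact hia h
    have h2 : g.tl i ≠ Sum.inl u := by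
      intro h
      have : i ∈ g.outE u := h
      rw [hout] at this
      exact this
    rcases g.kind i with ⟨x, y, hB, ht, hh⟩ | ⟨x, y, ht, hh⟩ | ⟨x, y, ht, hh⟩
    · refine Or.inl ⟨x, y, ?_, Set.mem_univ _, hB, ht, hh⟩
      rintro rfl
      exact h1 hh
    · refine Or.inr (Or.inl ⟨x, y, ?_, ?_, ht, hh⟩)
      · rintro rfl
        exact h1 hh
      · rintro rfl
        exact h2 ht
    · exact Or.inr (Or.inr ⟨x, y, Set.mem_univ _, Set.mem_univ _, ht, hh⟩)


section

variable {g : ST S T I} {u : S} {w : T} {k a : I} {hu : u ≠ g.s}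
    {hin : g.inE u = {k, a}} {hout : g.outE u = ∅} {p : S ⊕ T}
    {hp : p = Sum.inl g.s ∨ p = Sum.inr g.t}

lemma delInst_tl_k : (delInst g u w k a hu hin hout p hp).tl k = Sum.inr w := by
  simp [delInst]

lemma delInst_hd_k : (delInst g u w k a hu hin hout p hp).hd k = Sum.inr g.t := by
  simp [delInst]

lemma delInst_tl_a (hka : k ≠ a) : (delInst g u w k a hu hin hout p hp).tl a = p := by
  simp [delInst, hka.symm]

lemma delInst_hd_as (hka : k ≠ a) (h : p = Sum.inl g.s) :
    (delInst g u w k a hu hin hout p hp).hd a = Sum.inl g.s := by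
  simp [delInst, hka.symm, h]

lemma delInst_hd_at (hka : k ≠ a) (h : p = Sum.inr g.t) :
    (delInst g u w k a hu hin hout p hp).hd a = Sum.inr w := by
  subst h
  simp [delInst, hka.symm]

lemma delInst_tl {i : I} (h1 : i ≠ k) (h2 : i ≠ a) :
    (delInst g u w k a hu hin hout p hp).tl i = g.tl i := by
  simp [delInst, h1, h2]

lemma delInst_hd {i : I} (h1 : i ≠ k) (h2 : i ≠ a) :
    (delInst g u w k a hu hin hout p hp).hd i = g.hd i := by
  simp [delInst, h1, h2]

lemma mem_delInst_kept {x : S ⊕ T} :
    x ∈ (delInst g u w k a hu hin hout p hp).kept ↔ x ≠ Sum.inl u := by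
  rcases x with x | x <;> simp [delInst, RInst.kept]

end

/-- in the reduced instance with `U` given, the corresponding closed set of `g` -/
theorem del_valid {g : ST S T I} (hg : MinInst g) {u : S} {w : T} {k a : I} (hu : u ≠ g.s)
    (hka : k ≠ a) (hin : g.inE u = {k, a}) (hk : g.tl k = Sum.inr w)
    (ha : g.tl a = Sum.inl g.s ∨ g.tl a = Sum.inr g.t) (hout : g.outE u = ∅) :
    (delInst g u w k a hu hin hout (g.tl a) ha).Valid 2 := by
  classical
  have := hg.finI
  set r := delInst g u w k a hu hin hout (g.tl a) ha with hr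
  intro U hU hUn hUk
  have huU : (Sum.inl u : S ⊕ T) ∉ U := fun h => (mem_delInst_kept.mp (hU.1 h)) rfl
  have hcl : ∀ x y, x ≠ u → g.B x y → Sum.inr y ∈ U → Sum.inl x ∈ U :=
    fun x y hx hB hy => hU.2 x y (by simpa [hr, delInst] using hx) hB hy
  have hne : ∀ i, g.hd i = Sum.inl u → i = k ∨ i = a := by
    intro i hi
    have : i ∈ g.inE u := hi
    rw [hin] at this
    simpa using this
  have hko : g.hd k = Sum.inl u := by
    have : k ∈ g.inE u := by rw [hin]; simp
    exact this
  have hao : g.hd a = Sum.inl u := by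
    have : a ∈ g.inE u := by rw [hin]; simp
    exact this
  by_cases hc : Sum.inr w ∈ U ∨ Sum.inr g.t ∈ U
  · -- add `u`
    have hZc : Closed g.r (U ∪ {Sum.inl u}) := by
      rintro _ _ ⟨x, y, rfl, rfl, hB⟩ hy
      have hy' : Sum.inr y ∈ U := by
        rcases hy with hy | hy
        · exact hy
        · simp at hy
      by_cases hx : x = u
      · right; simp [hx]
      · left; exact hcl x y hx hB hy'
    have hZn : (U ∪ {Sum.inl u}).Nonempty := ⟨_, Or.inr rfl⟩
    have hZu : U ∪ {Sum.inl u} ≠ Set.univ := by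
      intro h
      apply hUk
      ext x
      rw [mem_delInst_kept]
      constructor
      · rintro hx rfl
        exact huU hx
      · intro hx
        have : x ∈ U ∪ {Sum.inl u} := by rw [h]; trivial
        rcases this with h | h
        · exact h
        · exact absurd h hx
    have h2 := hg.valid _ hZc hZn hZu
    refine two_le_of_subset ?_ h2
    rintro i ⟨h1, h3⟩
    have hsU : (Sum.inl g.s : S ⊕ T) ∈ U := by
      rcases hc with hc | hc
      · exact hcl _ _ hu.symm (g.Bs _) hc
      · exact hcl _ _ hu.symm (g.Bs _) hc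
    have htlU : g.tl i ∉ U := fun h => h3 (Or.inl h)
    by_cases hik : i = k
    · subst hik
      rw [hk] at htlU
      have : Sum.inr g.t ∈ U := by
        rcases hc with hc | hc
        · exact absurd hc htlU
        · exact hc
      exact ⟨by rw [delInst_hd_k]; exact this, by rw [delInst_tl_k]; exact htlU⟩
    by_cases hia : i = a
    · subst hia
      rcases ha with ha' | ha'
      · rw [ha'] at htlU
        exact absurd hsU htlU
      · have htU : Sum.inr g.t ∉ U := by rwa [ha'] at htlU
        have hwU : Sum.inr w ∈ U := by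
          rcases hc with hc | hc
          · exact hc
          · exact absurd hc htU
        refine ⟨?_, ?_⟩
        · rw [delInst_hd_at hka ha']
          exact hwU
        · rw [delInst_tl_a hka]
          exact htlU
    refine ⟨?_, ?_⟩
    · rw [delInst_hd hik hia]
      rcases h1 with h1 | h1
      · exact h1
      · rcases hne i h1 with h | h
        · exact absurd h hik
        · exact absurd h hia
    · rw [delInst_tl hik hia]
      exact htlU
  · -- `U` itself
    have hwU : Sum.inr w ∉ U := fun h => hc (Or.inl h)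
    have htU : Sum.inr g.t ∉ U := fun h => hc (Or.inr h)
    have hZc : Closed g.r U := by
      rintro _ _ ⟨x, y, rfl, rfl, hB⟩ hy
      by_cases hx : x = u
      · subst hx
        rcases hg.noB hu hin hk ha hB with h | h
        · subst h; exact absurd hy htU
        · subst h; exact absurd hy hwU
      · exact hcl x y hx hB hy
    have hZu : U ≠ Set.univ := by
      intro h
      exact huU (by rw [h]; trivial)
    have h2 := hg.valid _ hZc hUn hZu
    refine two_le_of_subset ?_ h2
    rintro i ⟨h1, h3⟩
    have hik : i ≠ k := by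
      rintro rfl
      rw [hko] at h1
      exact huU h1
    have hia : i ≠ a := by
      rintro rfl
      rw [hao] at h1
      exact huU h1
    exact ⟨by rw [delInst_hd hik hia]; exact h1, by rw [delInst_tl hik hia]; exact h3⟩

/-- lift: if the colour of `k` and the new colour of `a` are different we get a good colouring -/
theorem del_lift {g : ST S T I} (hg : MinInst g) {u : S} {w : T} {k a : I} (hu : u ≠ g.s)
    (hka : k ≠ a) (hin : g.inE u = {k, a}) (hk : g.tl k = Sum.inr w)
    (ha : g.tl a = Sum.inl g.s ∨ g.tl a = Sum.inr g.t) (hout : g.outE u = ∅) (hkB : g.B u w)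
    (c : I → Bool) (hc : (delInst g u w k a hu hin hout (g.tl a) ha).GoodB c)
    (c' : I → Bool) (h1 : ∀ i, i ≠ a → c' i = c i)
    (h2 : g.tl a = Sum.inr g.t → c' a = c a) (h3 : c' a ≠ c' k) : False := by
  classical
  set r := delInst g u w k a hu hin hout (g.tl a) ha with hr
  apply hg.bad c'
  intro Z hZ hZn hZu b
  have hko : g.hd k = Sum.inl u := by
    have : k ∈ g.inE u := by rw [hin]; simp
    exact this
  have hao : g.hd a = Sum.inl u := by
    have : a ∈ g.inE u := by rw [hin]; simp
    exact this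
  have hBcl : ∀ x y, g.B x y → Sum.inr y ∈ Z → Sum.inl x ∈ Z :=
    fun x y hB hy => hZ _ _ ⟨x, y, rfl, rfl, hB⟩ hy
  have hKC : r.KC (Z \ {Sum.inl u}) := by
    refine ⟨?_, ?_⟩
    · rintro x ⟨_, hx⟩
      exact mem_delInst_kept.mpr hx
    · intro x y hx hB hy
      refine ⟨hBcl x y hB hy.1, ?_⟩
      have : x ≠ u := by simpa [hr, delInst] using hx
      simpa using this
  by_cases hemp : (Z \ {Sum.inl u}).Nonempty
  · by_cases hkept : Z \ {Sum.inl u} = r.kept
    · exfalso
      have ht : (Sum.inr g.t : S ⊕ T) ∈ Z \ {Sum.inl u} := by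
        rw [hkept, hr, mem_delInst_kept]; simp
      have huZ : Sum.inl u ∈ Z := hBcl _ _ (g.Bt u) ht.1
      apply hZu
      ext x
      simp only [Set.mem_univ, iff_true]
      by_cases hx : x = Sum.inl u
      · rw [hx]; exact huZ
      · have : x ∈ r.kept := mem_delInst_kept.mpr hx
        rw [← hkept] at this
        exact this.1
    · obtain ⟨i, hi, hh, ht⟩ := hc _ hKC hemp hkept b
      by_cases hik : i = k
      · subst hik
        rw [hr, delInst_hd_k] at hh
        rw [hr, delInst_tl_k] at ht
        refine ⟨i, by rw [h1 i hka]; exact hi, ?_, ?_⟩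
        · rw [hko]; exact hBcl _ _ (g.Bt u) hh.1
        · rw [hk]
          intro h
          exact ht ⟨h, by simp⟩
      by_cases hia : i = a
      · subst hia
        rw [hr, delInst_tl_a hka] at ht
        rcases ha with ha' | ha'
        · rw [hr, delInst_hd_as hka ha'] at hh
          rw [ha'] at ht
          exact absurd hh ht
        · rw [hr, delInst_hd_at hka ha'] at hh
          refine ⟨i, by rw [h2 ha']; exact hi, ?_, ?_⟩
          · rw [hao]; exact hBcl _ _ hkB hh.1
          · rw [ha'] at ht ⊢
            intro h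
            exact ht ⟨h, by simp⟩
      rw [hr, delInst_hd hik hia] at hh
      rw [hr, delInst_tl hik hia] at ht
      refine ⟨i, by rw [h1 i hia]; exact hi, hh.1, fun h => ht ⟨h, ?_⟩⟩
      intro h'
      have : i ∈ g.outE u := h'
      rw [hout] at this
      exact this
  · -- `Z = {u}`
    rw [Set.not_nonempty_iff_eq_empty] at hemp
    have hZ1 : Z ⊆ {Sum.inl u} := Set.sdiff_eq_empty.mp hemp
    have hZe : Z = {Sum.inl u} := by
      apply Set.Subset.antisymm hZ1
      obtain ⟨x, hx⟩ := hZn
      have := hZ1 hx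
      rw [Set.mem_singleton_iff] at this
      rintro y hy
      rw [Set.mem_singleton_iff] at hy
      rw [hy, ← this]
      exact hx
    have hk2 : g.tl k ∉ Z := by rw [hk, hZe]; simp
    have ha2 : g.tl a ∉ Z := by
      rw [hZe]
      rcases ha with ha' | ha'
      · rw [ha']; simpa using hu.symm
      · rw [ha']; simp
    by_cases hb : c' k = b
    · exact ⟨k, hb, by rw [hko, hZe]; simp, hk2⟩
    · refine ⟨a, ?_, by rw [hao, hZe]; simp, ha2⟩
      revert hb h3
      cases c' k <;> cases c' a <;> cases b <;> simp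

/-- (DEL-Ks) -/
theorem DelKs_proof : Stmt_DelKs := by
  intro S T I g hg u w k a hu hw hka hin hk ha hout
  classical
  have := hg.finS
  have := hg.finT
  have hkB : g.B u w := by
    have hko : g.hd k = Sum.inl u := by
      have : k ∈ g.inE u := by rw [hin]; simp
      exact this
    rcases g.kind k with ⟨x, y, hB, h1, h2⟩ | ⟨x, y, h1, h2⟩ | ⟨x, y, h1, h2⟩
    · rw [hko] at h2; rw [hk] at h1
      cases h2; cases h1; exact hB
    · rw [hk] at h1; cases h1
    · rw [hko] at h2; cases h2
  obtain ⟨c, hc⟩ := hg.colourR (delInst g u w k a hu hin hout (g.tl a) (Or.inl ha))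
    (card_del_lt S T u) (del_valid hg hu hka hin hk (Or.inl ha) hout)
  refine del_lift hg hu hka hin hk (Or.inl ha) hout hkB c hc
    (fun i => if i = a then !c k else c i) ?_ ?_ ?_
  · intro i hi
    simp [hi]
  · intro h
    rw [ha] at h; cases h
  · simp [hka]

/-- (DEL-Kt) -/
theorem DelKt_proof : Stmt_DelKt := by
  intro S T I g hg u w k a hu hw hka hin hk ha hout
  classical
  have := hg.finS
  have := hg.finT
  have := hg.finI
  have hko : g.hd k = Sum.inl u := by
    have : k ∈ g.inE u := by rw [hin]; simp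
    exact this
  have hao : g.hd a = Sum.inl u := by
    have : a ∈ g.inE u := by rw [hin]; simp
    exact this
  have hkB : g.B u w := by
    rcases g.kind k with ⟨x, y, hB, h1, h2⟩ | ⟨x, y, h1, h2⟩ | ⟨x, y, h1, h2⟩
    · rw [hko] at h2; rw [hk] at h1
      cases h2; cases h1; exact hB
    · rw [hk] at h1; cases h1
    · rw [hko] at h2; cases h2
  obtain ⟨c, hc⟩ := hg.colourR (delInst g u w k a hu hin hout (g.tl a) (Or.inr ha))
    (card_del_lt S T u) (del_valid hg hu hka hin hk (Or.inr ha) hout)
  refine del_lift hg hu hka hin hk (Or.inr ha) hout hkB c hc c (fun _ _ => rfl)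
    (fun _ => rfl) ?_
  intro hcol
  set r := delInst g u w k a hu hin hout (g.tl a) (Or.inr ha) with hr
  -- the two items leaving `t`, the two items leaving `w`
  have hst : ∀ x : T, ∀ j : I, g.tl j = Sum.inr x → g.hd j ≠ Sum.inr x →
      ∃ j', ∀ i, g.tl i = Sum.inr x → i = j ∨ i = j' := by
    intro x j hj1 hj2
    obtain ⟨i1, i2, h12, h⟩ := Set.ncard_eq_two.mp (hg.exact.2 x)
    have hj : j ∈ Ent g.tl g.hd {Sum.inr x}ᶜ := ⟨hj2, by simp [hj1]⟩
    have hall : ∀ i, g.tl i = Sum.inr x → i = i1 ∨ i = i2 := by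
      intro i hi
      have : i ∈ Ent g.tl g.hd {Sum.inr x}ᶜ := ⟨by
        have := hg.noloop i
        rw [hi] at this
        simpa using this.symm, by simp [hi]⟩
      rw [h] at this
      simpa using this
    rw [h] at hj
    rcases hj with rfl | hj
    · exact ⟨i2, hall⟩
    · rw [Set.mem_singleton_iff] at hj
      subst hj
      exact ⟨i1, fun i hi => (hall i hi).symm⟩
  obtain ⟨a2, ha2⟩ := hst g.t a ha (by rw [hao]; simp)
  obtain ⟨k2, hk2⟩ := hst w k hk (by rw [hko]; simp)
  have hws : (Sum.inr w : S ⊕ T) ≠ Sum.inr g.t := by simpa using hw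
  -- closed sets of the reduced instance: complement of `{t}`, `{w}`, `{t, w}`
  have hKC : ∀ P : Set (S ⊕ T), (∀ x ∈ P, x = Sum.inr w ∨ x = Sum.inr g.t) →
      r.KC (r.kept \ P) ∧ (r.kept \ P).Nonempty := by
    intro P hP
    refine ⟨⟨Set.sdiff_subset, ?_⟩, ⟨Sum.inl g.s, ?_, ?_⟩⟩
    · intro x y hx hB hy
      refine ⟨?_, fun h => ?_⟩
      · exact (RInst.inl_mem_kept _ _).mpr hx
      · rcases hP _ h with h | h <;> cases h
    · exact (RInst.inl_mem_kept _ _).mpr r.hs
    · intro h
      rcases hP _ h with h | h <;> cases h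
  have hkept : ∀ x : S ⊕ T, x ∈ r.kept ↔ x ≠ Sum.inl u := fun x => mem_delInst_kept
  -- tails are kept
  have htlk : ∀ i, r.tl i ∈ r.kept := by
    intro i
    rcases r.kind i with ⟨x, y, hx, hy, _, h1, h2⟩ | ⟨x, y, hx, hy, h1, h2⟩ |
      ⟨x, y, hx, hy, h1, h2⟩
    · rw [h1]; exact (RInst.inr_mem_kept _ _).mpr hy
    · rw [h1]; exact (RInst.inl_mem_kept _ _).mpr hy
    · rw [h1]; exact (RInst.inr_mem_kept _ _).mpr hx
  have hra : r.tl a = Sum.inr g.t := by rw [hr, delInst_tl_a hka]; exact ha
  have hrha : r.hd a = Sum.inr w := by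
    rw [hr, delInst_hd_at hka ha]
  have hrk : r.tl k = Sum.inr w := by rw [hr, delInst_tl_k]
  have hrhk : r.hd k = Sum.inr g.t := by rw [hr, delInst_hd_k]
  have hro : ∀ i, i ≠ k → i ≠ a → r.tl i = g.tl i := fun i h1 h2 => by
    rw [hr, delInst_tl h1 h2]
  have hproper : ∀ P : Set (S ⊕ T), ∀ x ∈ P, x ∈ r.kept → r.kept \ P ≠ r.kept := by
    intro P x hx hxk h
    rw [← h] at hxk
    exact hxk.2 hx
  -- star of `t`
  have hsa : c a2 = !c a ∧ a2 ≠ a := by
    obtain ⟨i, hi, h1, h2⟩ := hc _ (hKC {Sum.inr g.t} (by simp)).1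
      (hKC {Sum.inr g.t} (by simp)).2
      (hproper _ (Sum.inr g.t) rfl ((hkept _).mpr (by simp))) (!c a)
    have hti : r.tl i = Sum.inr g.t := by
      by_contra hcon
      exact h2 ⟨htlk i, hcon⟩
    have hik : i ≠ k := by
      rintro rfl
      rw [hrk] at hti
      exact hws hti
    have hia : i ≠ a := by
      rintro rfl
      simp at hi
    rw [hro i hik hia] at hti
    rcases ha2 i hti with h | h
    · exact absurd h hia
    · subst h; exact ⟨hi, hia⟩
  -- star of `w`
  have hsk : c k2 = !c k ∧ k2 ≠ k := by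
    obtain ⟨i, hi, h1, h2⟩ := hc _ (hKC {Sum.inr w} (by simp)).1
      (hKC {Sum.inr w} (by simp)).2
      (hproper _ (Sum.inr w) rfl ((hkept _).mpr (by simp))) (!c k)
    have hti : r.tl i = Sum.inr w := by
      by_contra hcon
      exact h2 ⟨htlk i, hcon⟩
    have hik : i ≠ k := by
      rintro rfl
      simp at hi
    have hia : i ≠ a := by
      rintro rfl
      rw [hra] at hti
      exact hws hti.symm
    rw [hro i hik hia] at hti
    rcases hk2 i hti with h | h
    · exact absurd h hik
    · subst h; exact ⟨hi, hik⟩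
  -- now both
  obtain ⟨i, hi, h1, h2⟩ := hc _ (hKC {Sum.inr w, Sum.inr g.t} (by simp)).1
    (hKC {Sum.inr w, Sum.inr g.t} (by simp)).2
    (hproper _ (Sum.inr w) (Or.inl rfl) ((hkept _).mpr (by simp))) (c a)
  have hti : r.tl i = Sum.inr w ∨ r.tl i = Sum.inr g.t := by
    by_contra hcon
    exact h2 ⟨htlk i, fun h => hcon (by simpa using h)⟩
  have hik : i ≠ k := by
    rintro rfl
    rw [hrhk] at h1
    exact h1.2 (Or.inr rfl)
  have hia : i ≠ a := by
    rintro rfl
    rw [hrha] at h1
    exact h1.2 (Or.inl rfl)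
  rw [hro i hik hia] at hti
  rcases hti with hti | hti
  · rcases hk2 i hti with h | h
    · exact hik h
    · subst h
      rw [hsk.1, ← hcol] at hi
      simp at hi
  · rcases ha2 i hti with h | h
    · exact hia h
    · subst h
      rw [hsa.1] at hi
      simp at hi

end GW
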