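import Pool.Agent.GW.LeafC

/-!
# MP_27938c_co: (E1) the S-leaf is not a real double
-/

namespace GW

variable {S T I : Type}

theorem E1_proof (hNode : Stmt_Node) (hStatic : Stmt_Static) (hN4 : Stmt_N4) (hBad : Stmt_Bad) :
    Stmt_E1 := by
  intro S T I g hg hS hT c A e c' B f hL hND
  obtain ⟨h1, h2⟩ := hL
  have hSd : g.dual.dual.StrS := by rw [dual_dual]; exact hS
  obtain ⟨u, hA, hu, hall⟩ := id hND
  subst hA
  -- the exit
  obtain ⟨v, hv, ex, ⟨hex1, hex2⟩, hexc⟩ := h1.spec
  rw [Set.mem_singleton_iff] at hv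
  subst hv
  have hus : v ≠ g.s := hu.1
  -- the two in-items
  have hpe := (h1.port e).2 rfl
  have hFe := hpe.1
  have heu : g.hd e = Sum.inl v := by
    obtain ⟨x, hx, hx'⟩ := mem_SetS_iff.1 hpe.2.1
    rw [Set.mem_singleton_iff] at hx
    rw [hx', hx]
  obtain ⟨e', hee, he'u, he'K, hin⟩ : ∃ e', e' ≠ e ∧ g.hd e' = Sum.inl v ∧ g.IsK e' ∧
      ∀ i, g.hd i = Sum.inl v → i = e ∨ i = e' := by
    obtain ⟨_, k, k', hkk, hE, hk, hk'⟩ := hu
    have h3 : e ∈ g.inE v := heu
    have hk1 : k ∈ g.inE v := by rw [hE]; simp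
    have hk2 : k' ∈ g.inE v := by rw [hE]; simp
    rw [hE] at h3
    rcases h3 with rfl | rfl
    · refine ⟨k', hkk.symm, hk2, hk', fun i hi => ?_⟩
      have : i ∈ g.inE v := hi
      rw [hE] at this
      exact this
    · refine ⟨k, hkk, hk1, hk, fun i hi => ?_⟩
      have : i ∈ g.inE v := hi
      rw [hE] at this
      exact this.symm
  obtain ⟨_, w', he'w, _, _, hw't⟩ := he'K
  have he'K : g.IsK e' := ⟨v, w', he'w, he'u, hus, hw't⟩
  obtain ⟨N1, hN1, ⟨we, hwe, hewe⟩, hnext⟩ := h1.next
  have heK := Flp_isK hFe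
  have hwet : we ≠ g.t := by
    obtain ⟨_, w0, h3, _, _, h4⟩ := heK
    rw [hewe, Sum.inr.injEq] at h3
    rw [h3]; exact h4
  set c1 := g.flipc e c with hc1
  have hN1' : g.dual.SState (fun i => !c1 i) N1 := hN1
  have hleg : g.LegC c := h1.st.tI
  have hleg1 : g.LegC c1 := hpe.2.2
  have hexc1 : c1 ex = true := by rw [hc1, flipc_in_s g c heK hex2]; exact hexc
  have hce' : c e' = true := hall e' he'u
  have hce : c e = true := hall e heu
  have hc1e' : c1 e' = true := by rw [hc1, flipc_K g c hee he'w he'u]; exact hce'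
  have hc1e : c1 e = false := by rw [hc1, flipc_self, hce]; rfl
  -- no frozen ports at N1
  have hfr : ∀ (cc : I → Bool) (NN : Set T), g.dual.SState (fun i => !cc i) NN → cc ex = true →
      ∀ k w, g.dual.hd k ∈ SetS S NN → g.dual.tl k = Sum.inr w → ¬ g.dual.dual.DblKt w := by
    intro cc NN hst hcc k w hk hkw
    refine no_frozen hN4 hg.dual hT hSd hst (a := ex) (x := v) (by simpa using hex2)
      (by simpa using hex1) (by simp [hcc]) ?_ hk hkw
    rw [dual_dual]
    exact not_DblKt_of_DblKK hu
  -- the `+ bad` port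
  obtain ⟨b, hbe, hbK, hbN, hbM⟩ : ∃ b, b ≠ e ∧ g.dual.IsK b ∧ g.dual.hd b ∈ SetS S N1 ∧
      g.dual.MBad (fun i => !c1 i) N1 b := by
    have heN1 : g.dual.hd e ∈ SetS S N1 := by
      rw [mem_SetS_iff]
      exact ⟨we, hwe, by simpa using hewe⟩
    rcases hnext with ⟨hNB, hcc, hfe⟩ | ⟨hsp, hnd, e2, he2, hp⟩
    · refine exists_MBad hNode hStatic hBad hg.dual hT hSd hN1' ?_ (hfr c1 N1 hN1' hexc1)
        ((isK_dual g e).2 heK) heN1 (Or.inl ?_)
      · intro hnd
        apply h1.nodd
        refine ⟨hfe, hcc, hND, ?_⟩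
        rw [← hcc, ← hNB]
        exact hnd
      · intro k
        have := h2.port k
        rw [← hNB, hfe] at this
        rw [← this]
        rw [← hcc]
    · exact exists_MBad hNode hStatic hBad hg.dual hT hSd hN1' hnd (hfr c1 N1 hN1' hexc1)
        ((isK_dual g e).2 heK) heN1 (Or.inr ⟨hsp, e2, hp⟩)
  obtain ⟨W, hW, hWN, hWi⟩ := hbM
  obtain ⟨Z, rfl⟩ := exists_dZ W
  rw [TI_dual] at hW
  have hZN : ∀ x ∈ N1, Sum.inr x ∈ Z := by
    intro x hx
    have := hWN x hx
    simpa using this
  have hZi : ∀ i, c1 i = true → g.hd i ∈ Z → g.tl i ∉ Z →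
      g.hd i = g.hd b ∧ ∃ z, g.tl i = Sum.inl z := by
    intro i hi h3 h4
    obtain ⟨h5, z, h6⟩ := hWi i (by simp [hi]) ((dual_hd_mem_dZ g i Z).2 h4)
      (by rw [dual_tl_mem_dZ]; simpa using h3)
    rw [dual_tl_eq] at h5
    exact ⟨h5, z, by simpa using h6⟩
  have hcl := (closed_iff g Z).1 hW.1
  have huZ : Sum.inl v ∈ Z := hcl v we (hop_of_K g hewe heu) (hZN we hwe)
  have hw'Z : Sum.inr w' ∈ Z := by
    by_contra hcon
    obtain ⟨_, z, hz⟩ := hZi e' hc1e' (by rw [he'u]; exact huZ) (by rw [he'w]; exact hcon)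
    rw [he'w] at hz
    simp at hz
  -- the `-` entrance is in B
  obtain ⟨x, hxB, a', ⟨ha1, ha2⟩, ha3⟩ := h2.spec
  have ha1' : g.hd a' = Sum.inr x := by simpa using ha1
  have ha2' : g.tl a' = Sum.inr g.t := by simpa using ha2
  have ha3' : c a' = false := by
    rw [h1.agt a' ha2']
    simpa using ha3
  have hBst : g.dual.SState (fun i => !c' i) B := h2.st
  have hxk : ¬ g.dual.DblKt x := hBst.not_DblKt hxB
  -- no entrance at w'
  have hnoent : ∀ i, g.hd i = Sum.inr w' → g.tl i ≠ Sum.inr g.t := by
    intro i hi ht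
    cases hci : c i with
    | true =>
      have hc1i : c1 i = true := by rw [hc1, flipc_out_t g c heK ht]; exact hci
      obtain ⟨_, z, hz⟩ := hZi i hc1i (by rw [hi]; exact hw'Z) (by rw [ht]; exact hW.2.2)
      rw [ht] at hz
      simp at hz
    | false =>
      have hia : i = a' := out_t_unique hg hleg ht ha2' (by rw [hci, ha3'])
      rw [hia, ha1', Sum.inr.injEq] at hi
      subst hi
      have hfw : g.dual.FlpS x := by
        rcases hStatic S T I g hg hS hT c {v} h1.st e' x (by rw [he'u]; simp) he'w hw't with h | h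
        · exact h
        · exact absurd h hxk
      have hF' : g.Flp e' :=
        ⟨v, x, he'w, he'u, hus, hw't, Or.inr ⟨hu, ex, hex1, hex2⟩, hfw⟩
      exact hee (h1.common e' hF' (by rw [he'u]; simp) ⟨x, hxB, he'w⟩).1
  -- w' is a pair
  have hfw' : g.dual.FlpS w' := by
    rcases hStatic S T I g hg hS hT c {v} h1.st e' w' (by rw [he'u]; simp) he'w hw't with h | h
    · exact h
    · exfalso
      obtain ⟨i, hi1, hi2⟩ := hT.exitKt w' h
      exact hnoent i (by simpa using hi1) (by simpa using hi2)
  have hpw' : g.dual.Pair w' := by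
    rcases hfw' with h | ⟨_, i, hi1, hi2⟩
    · exact h
    · exact absurd (by simpa using hi2) (hnoent i (by simpa using hi1))
  have hF' : g.Flp e' := ⟨v, w', he'w, he'u, hus, hw't, Or.inr ⟨hu, ex, hex1, hex2⟩, hfw'⟩
  -- the only in-item of w'
  obtain ⟨g0, hg0⟩ := hT.pair w' hpw'
  have hg0' : ∀ i, g.hd i = Sum.inr w' → i = g0 := by
    intro i hi
    have : i ∈ g.dual.inner w' := by
      refine ⟨by simpa using hi, ?_⟩
      have := hnoent i hi
      simpa using this
    rw [hg0] at this
    exact this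
  have hg0hd : g.hd g0 = Sum.inr w' := by
    have : g0 ∈ g.dual.inner w' := by rw [hg0]; rfl
    simpa using this.1
  -- g0 does not come from we
  have hw'N1 : w' ∉ N1 := by
    intro hmem
    apply hN1'.bad
    refine ⟨e', by simp [hc1e'], ?_, ?_⟩
    · rw [mem_SetS_iff]
      exact ⟨w', hmem, by simpa using he'w⟩
    · intro hh
      obtain ⟨y, _, hy⟩ := mem_SetS_iff.1 hh
      rw [dual_tl_inl, he'u] at hy
      simp at hy
  have hg0e : g.tl g0 ≠ g.tl e := by
    intro hh
    rw [hewe] at hh
    -- colour of g0 in c is false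
    have h3 : c g0 = false := by
      by_contra hcon
      have h4 : c g0 = true := by simpa using hcon
      have h5 : g0 = e := h1.st.out_unique hg hwet hh hewe (by rw [h4, hce])
      rw [h5, heu] at hg0hd
      simp at hg0hd
    have h4 : c1 g0 = true := by
      rw [hc1, flipc_Y' g c hg0hd (by rw [hh, hewe]), h3]
      rfl
    apply hN1'.bad
    refine ⟨g0, by simp [h4], ?_, ?_⟩
    · rw [mem_SetS_iff]
      exact ⟨we, hwe, by simpa using hh⟩
    · intro hmm
      obtain ⟨y, hy1, hy⟩ := mem_SetS_iff.1 hmm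
      rw [dual_tl_inl, hg0hd, Sum.inr.injEq] at hy
      exact hw'N1 (hy ▸ hy1)
  have hc1g0 : c1 g0 = c g0 := by
    rw [hc1]
    exact flipc_Y g c ⟨v, heu⟩ hg0hd hg0e
  -- hops into w'
  have hopw' : ∀ y, g.B y w' → y = g.s ∨ y = v := by
    intro y hy
    by_cases hys : y = g.s
    · exact Or.inl hys
    right
    obtain ⟨k, hk1, hk2⟩ := hg.hop hy hys hw't
    -- k and e' are both K out-items of the pair w'
    obtain ⟨_, k1, x1, hkx, hE, hk1K, hx1⟩ := hpw'
    have hx1' : ∀ i, i = x1 → ∃ z, g.hd i = Sum.inr z := by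
      rintro i rfl
      obtain ⟨p, q, h3, h4, _⟩ := hx1
      exact ⟨q, by simpa using h3⟩
    have h3 : k ∈ g.dual.inE w' := by
      show g.dual.hd k = Sum.inl w'
      simpa using hk1
    have h4 : e' ∈ g.dual.inE w' := by
      show g.dual.hd e' = Sum.inl w'
      simpa using he'w
    rw [hE] at h3 h4
    rcases h3 with rfl | h3
    · rcases h4 with h4 | h4
      · rw [← h4, he'u, Sum.inl.injEq] at hk2
        exact hk2.symm
      · obtain ⟨z, hz⟩ := hx1' e' h4
        rw [he'u] at hz
        simp at hz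
    · obtain ⟨z, hz⟩ := hx1' k h3
      rw [hk2] at hz
      simp at hz
  cases hg0c : c g0 with
  | false =>
    -- {s, v, w'} is not entered by `+` in c1
    have hTI : g.TI {Sum.inl g.s, Sum.inl v, Sum.inr w'} := by
      refine ⟨?_, by simp, ?_⟩
      · rw [closed_iff]
        intro y w hB hw
        have hww : w = w' := by simpa using hw
        subst hww
        rcases hopw' y hB with rfl | rfl <;> simp
      · simpa using hw't.symm
    obtain ⟨i, hi, hi1, hi2⟩ := hleg1 _ hTI true
    rcases hi1 with h3 | h3 | h3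
    · have : i = ex := in_s_unique hg hleg1 h3 hex2 (by rw [hi, hexc1])
      rw [this, hex1] at hi2
      simp at hi2
    · rcases hin i h3 with rfl | rfl
      · rw [hc1e] at hi
        simp at hi
      · rw [he'w] at hi2
        simp at hi2
    · have : i = g0 := hg0' i h3
      rw [this, hc1g0, hg0c] at hi
      simp at hi
  | true =>
    have hnl : ¬ g.LegC (g.flipc e' c) := by
      intro hh
      exact hee ((h1.port e').1 ⟨hF', by rw [he'u]; simp, hh⟩)
    rcases hBad S T I g hg hS hT c {v} e' h1.st hF' (by rw [he'u]; simp) hnl with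
      ⟨W, hW', hWv, hWi'⟩ | ⟨⟨W, hW', hWi', hWh, hWt, hWo⟩, _⟩
    · -- `- bad`
      have hvW : Sum.inl v ∉ W := hWv v rfl
      have hTI : g.TI (W ∪ {Sum.inl v, Sum.inr w'}) := by
        refine ⟨?_, Or.inl hW'.2.1, ?_⟩
        · rw [closed_iff]
          intro y w hB hw
          rcases hw with hw | hw
          · exact Or.inl ((closed_iff g W).1 hW'.1 y w hB hw)
          · have hww : w = w' := by simpa using hw
            subst hww
            rcases hopw' y hB with rfl | rfl
            · exact Or.inl hW'.2.1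
            · exact Or.inr (by simp)
        · rintro (h3 | h3)
          · exact hW'.2.2 h3
          · have h4 : g.t = w' := by simpa using h3
            exact hw't h4.symm
      obtain ⟨i, hi, hi1, hi2⟩ := hleg _ hTI false
      have hiW : g.tl i ∉ W := fun h3 => hi2 (Or.inl h3)
      rcases hi1 with h3 | h3 | h3
      · obtain ⟨h4, _⟩ := hWi' i hi h3 hiW
        rw [he'w] at h4
        exact hi2 (Or.inr (by rw [h4]; simp))
      · rw [hall i h3] at hi
        simp at hi
      · have : i = g0 := hg0' i h3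
        rw [this, hg0c] at hi
        simp at hi
    · -- `+ bad`
      have hweW : Sum.inr we ∈ W := by
        have := hWo e (by rw [heu, he'u]) (fun hh => hee hh.symm)
        rwa [hewe] at this
      -- N1 ⊆ W
      have hN1W : ∀ y ∈ N1, Sum.inr y ∈ W := by
        by_contra hcon
        push Not at hcon
        obtain ⟨y, hy, hyW⟩ := hcon
        have hsub := hN1'.min {z | z ∈ N1 ∧ Sum.inr z ∉ W} (fun hh => hN1'.hs hh.1)
          ⟨y, hy, hyW⟩ (by
            rintro ⟨i, hi, hi1, hi2⟩
            obtain ⟨z, ⟨hz1, hz2⟩, hz⟩ := mem_SetS_iff.1 hi1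
            have hiz : g.tl i = Sum.inr z := by simpa using hz
            have hci1 : c1 i = true := by simpa using hi
            -- i does not leave N1
            have h3 : g.dual.tl i ∈ SetS S N1 := by
              by_contra h4
              exact hN1'.bad ⟨i, hi, by rw [mem_SetS_iff]; exact ⟨z, hz1, hz⟩, h4⟩
            obtain ⟨q, hq1, hq⟩ := mem_SetS_iff.1 h3
            have hiq : g.hd i = Sum.inr q := by simpa using hq
            have hqW : Sum.inr q ∈ W := by
              by_contra h4
              exact hi2 (by rw [mem_SetS_iff]; exact ⟨q, ⟨hq1, h4⟩, hq⟩)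
            have hze : g.tl i ≠ g.tl e := by
              rw [hiz, hewe]
              intro h4
              rw [Sum.inr.injEq] at h4
              exact hz2 (h4 ▸ hweW)
            have hci : c i = true := by
              rw [← flipc_Y g c ⟨v, heu⟩ hiq hze]
              exact hci1
            have := hWi' i hci (by rw [hiq]; exact hqW) (by rw [hiz]; exact hz2)
            rw [this, he'u] at hiq
            simp at hiq)
        exact (hsub hwe).2 hweW
      -- the head of b is in W
      have hbW : g.hd b ∈ W := by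
        obtain ⟨y, hy1, hy⟩ := mem_SetS_iff.1 hbN
        have hby : g.tl b = Sum.inr y := by simpa using hy
        obtain ⟨ub, wb, h3, h4, _⟩ := (isK_dual g b).1 hbK
        rw [h4]
        exact (closed_iff g W).1 hW'.1 ub y (hop_of_K g hby h4) (hN1W y hy1)
      have hTI : g.TI (W ∪ Z) :=
        ⟨closed_union hW'.1 hW.1, Or.inl hW'.2.1, fun h3 => h3.elim hW'.2.2 hW.2.2⟩
      obtain ⟨i, hi, hi1, hi2⟩ := hleg _ hTI true
      have hi3 : g.tl i ∉ W := fun h3 => hi2 (Or.inl h3)
      have hi4 : g.tl i ∉ Z := fun h3 => hi2 (Or.inr h3)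
      have hi5 : g.hd i ∉ W := by
        intro h3
        have := hWi' i hi h3 hi3
        rw [this, he'w] at hi4
        exact hi4 hw'Z
      have hi6 : g.hd i ∈ Z := hi1.resolve_left hi5
      have hie : i ≠ e := by
        rintro rfl
        rw [hewe] at hi3
        exact hi3 hweW
      have hiv : g.hd i ≠ g.hd e := by
        intro h3
        rw [heu, ← he'u] at h3
        rw [h3] at hi5
        exact hi5 hWh
      have hit : g.tl i ≠ g.tl e := by
        intro h3
        rw [h3, hewe] at hi3
        exact hi3 hweW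
      have hc1i : c1 i = true := by
        rw [hc1, flipc_of g c hie (fun h3 => absurd h3 hiv) (fun h3 => absurd h3 hit)]
        exact hi
      obtain ⟨h3, _⟩ := hZi i hc1i hi6 hi4
      rw [h3] at hi5
      exact hi5 hbW

end GW
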