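import Pool.Agent.GW.DelK

/-!
# MP_27938c_co: the reduction (ELIM)
-/

namespace GW

variable {S T I : Type}

/-- a vertex end which is `t` or a source -/
def GoodEnd (g : ST S T I) (y : S) (p : S ⊕ T) : Prop :=
  (∃ z, z ≠ y ∧ p = Sum.inl z) ∨ p = Sum.inr g.t

open Classical in
/-- the reduced instance: `y` is deleted, the out-items of `y` in `P` start at `p`, the others
at `q`; `a` and `b` become loops -/
noncomputable def elimInst (g : ST S T I) (y : S) (a b : I) (hy : y ≠ g.s)
    (hin : g.inE y = {a, b}) (P : Set I) (p q : S ⊕ T)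
    (hp : GoodEnd g y p) (hq : GoodEnd g y q) : RInst S T I where
  kS := {y}ᶜ
  kT := Set.univ
  s := g.s
  t := g.t
  hs := fun h => hy (by simpa using h.symm)
  ht := Set.mem_univ _
  B := g.B
  Bs := fun w _ => g.Bs w
  Bt := fun u _ => g.Bt u
  tl := fun i => if i = a ∨ i = b then Sum.inl g.s else
    if g.tl i = Sum.inl y then (if i ∈ P then p else q) else g.tl i
  hd := fun i => if i = a ∨ i = b then Sum.inl g.s else g.hd i
  kind := by
    intro i
    by_cases hi : i = a ∨ i = b
    · simp only [hi, if_true]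
      exact Or.inr (Or.inl ⟨g.s, g.s, fun h => hy (by simpa using h.symm),
          fun h => hy (by simpa using h.symm), rfl, rfl⟩)
    have h1 : g.hd i ≠ Sum.inl y := by
      intro h
      have : i ∈ g.inE y := h
      rw [hin] at this
      exact hi this
    simp only [if_neg hi]
    by_cases ht : g.tl i = Sum.inl y
    · simp only [ht, if_true]
      -- the head is a source
      obtain ⟨x, hx, hxy⟩ : ∃ x, g.hd i = Sum.inl x ∧ x ≠ y := by
        rcases g.kind i with ⟨x, w, hB, h2, h3⟩ | ⟨x, w, h2, h3⟩ | ⟨x, w, h2, h3⟩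
        · rw [ht] at h2; cases h2
        · exact ⟨x, h3, fun h => h1 (by rw [h3, h])⟩
        · rw [ht] at h2; cases h2
      have key : ∀ z, GoodEnd g y z →
          (∃ u w, u ∈ ({y}ᶜ : Set S) ∧ w ∈ (Set.univ : Set T) ∧ g.B u w ∧ z = Sum.inr w ∧
            g.hd i = Sum.inl u) ∨
          (∃ u v, u ∈ ({y}ᶜ : Set S) ∧ v ∈ ({y}ᶜ : Set S) ∧ z = Sum.inl v ∧ g.hd i = Sum.inl u) ∨
          (∃ w w', w ∈ (Set.univ : Set T) ∧ w' ∈ (Set.univ : Set T) ∧ z = Sum.inr w ∧
            g.hd i = Sum.inr w') := by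
        rintro z (⟨v, hv, rfl⟩ | rfl)
        · exact Or.inr (Or.inl ⟨x, v, hxy, hv, rfl, hx⟩)
        · exact Or.inl ⟨x, g.t, hxy, Set.mem_univ _, g.Bt x, rfl, hx⟩
      by_cases hP : i ∈ P
      · simp only [hP, if_true]
        exact key p hp
      · simp only [hP, if_false]
        exact key q hq
    · simp only [if_neg ht]
      rcases g.kind i with ⟨x, w, hB, h2, h3⟩ | ⟨x, w, h2, h3⟩ | ⟨x, w, h2, h3⟩
      · refine Or.inl ⟨x, w, ?_, Set.mem_univ _, hB, h2, h3⟩
        rintro rfl
        exact h1 h3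
      · refine Or.inr (Or.inl ⟨x, w, ?_, ?_, h2, h3⟩)
        · rintro rfl
          exact h1 h3
        · rintro rfl
          exact ht h2
      · exact Or.inr (Or.inr ⟨x, w, Set.mem_univ _, Set.mem_univ _, h2, h3⟩)

section

variable {g : ST S T I} {y : S} {a b : I} {hy : y ≠ g.s} {hin : g.inE y = {a, b}}
    {P : Set I} {p q : S ⊕ T}
    {hp : GoodEnd g y p} {hq : GoodEnd g y q}

lemma elimInst_dead {i : I} (h : i = a ∨ i = b) :
    (elimInst g y a b hy hin P p q hp hq).tl i = Sum.inl g.s ∧
    (elimInst g y a b hy hin P p q hp hq).hd i = Sum.inl g.s := by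
  simp [elimInst, h]

lemma elimInst_hd {i : I} (h : ¬ (i = a ∨ i = b)) :
    (elimInst g y a b hy hin P p q hp hq).hd i = g.hd i := by
  simp [elimInst, h]

lemma elimInst_tl {i : I} (h : ¬ (i = a ∨ i = b)) (h' : g.tl i ≠ Sum.inl y) :
    (elimInst g y a b hy hin P p q hp hq).tl i = g.tl i := by
  simp [elimInst, h, h']

lemma elimInst_tlP {i : I} (h : ¬ (i = a ∨ i = b)) (h' : g.tl i = Sum.inl y) (hP : i ∈ P) :
    (elimInst g y a b hy hin P p q hp hq).tl i = p := by
  simp [elimInst, h, h', hP]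

lemma elimInst_tlQ {i : I} (h : ¬ (i = a ∨ i = b)) (h' : g.tl i = Sum.inl y) (hP : i ∉ P) :
    (elimInst g y a b hy hin P p q hp hq).tl i = q := by
  simp [elimInst, h, h', hP]

lemma mem_elimInst_kept {x : S ⊕ T} :
    x ∈ (elimInst g y a b hy hin P p q hp hq).kept ↔ x ≠ Sum.inl y := by
  rcases x with x | x <;> simp [elimInst, RInst.kept]

end

/-- hypotheses of the elimination -/
structure ElimData (g : ST S T I) (y : S) (a b : I) (P : Set I) : Prop where
  hy : y ≠ g.s
  hab : a ≠ b
  hin : g.inE y = {a, b}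
  ga : GoodEnd g y (g.tl a)
  gb : GoodEnd g y (g.tl b)
  hA : g.tl a = Sum.inr g.t → ∃ i, g.tl i = Sum.inl y ∧ i ∈ P
  hB : g.tl b = Sum.inr g.t → ∃ i, g.tl i = Sum.inl y ∧ i ∉ P
  h1 : g.tl a = Sum.inr g.t ∨ ∀ i j, g.tl i = Sum.inl y → g.tl j = Sum.inl y → i ∉ P → j ∉ P → i = j
  h2 : g.tl b = Sum.inr g.t ∨ ∀ i j, g.tl i = Sum.inl y → g.tl j = Sum.inl y → i ∈ P → j ∈ P → i = j

theorem ElimData.out_ne {g : ST S T I} {y : S} {a b : I} {P : Set I} (h : ElimData g y a b P)
    {i : I} (hi : g.tl i = Sum.inl y) : ¬ (i = a ∨ i = b) := by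
  rintro (rfl | rfl)
  · rcases h.ga with ⟨z, hz, hz'⟩ | hz
    · rw [hi] at hz'; exact hz (Sum.inl.inj hz').symm
    · rw [hi] at hz; cases hz
  · rcases h.gb with ⟨z, hz, hz'⟩ | hz
    · rw [hi] at hz'; exact hz (Sum.inl.inj hz').symm
    · rw [hi] at hz; cases hz

/-- `B y w` only for `w = t` -/
theorem ElimData.noB {g : ST S T I} (hg : MinInst g) {y : S} {a b : I} {P : Set I}
    (h : ElimData g y a b P) {w : T} (hB : g.B y w) : w = g.t := by
  rcases hg.anti y w hB with h' | h' | ⟨i, h1, h2⟩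
  · exact absurd h' h.hy
  · exact h'
  · have hi : i ∈ g.inE y := h2
    rw [h.hin] at hi
    rcases hi with rfl | hi
    · rcases h.ga with ⟨z, hz, hz'⟩ | hz
      · rw [h1] at hz'; cases hz'
      · rw [h1] at hz; exact Sum.inr.inj hz
    · rw [Set.mem_singleton_iff] at hi
      subst hi
      rcases h.gb with ⟨z, hz, hz'⟩ | hz
      · rw [h1] at hz'; cases hz'
      · rw [h1] at hz; exact Sum.inr.inj hz

theorem ElimData.hd_a {g : ST S T I} {y : S} {a b : I} {P : Set I}
    (h : ElimData g y a b P) : g.hd a = Sum.inl y := by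
  have : a ∈ g.inE y := by rw [h.hin]; simp
  exact this

theorem ElimData.hd_b {g : ST S T I} {y : S} {a b : I} {P : Set I}
    (h : ElimData g y a b P) : g.hd b = Sum.inl y := by
  have : b ∈ g.inE y := by rw [h.hin]; simp
  exact this

theorem ElimData.hd_eq {g : ST S T I} {y : S} {a b : I} {P : Set I}
    (h : ElimData g y a b P) {i : I} (hi : g.hd i = Sum.inl y) : i = a ∨ i = b := by
  have : i ∈ g.inE y := hi
  rw [h.hin] at this
  exact this

/-- (P1) in a convenient form: if `Z` contains two sources, and is not the complement of `t`,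
then it is entered by at least three items -/
theorem three_le {g : ST S T I} (hg : MinInst g) {Z : Set (S ⊕ T)} (hZ : Closed g.r Z)
    {x y : S} (hxy : x ≠ y) (hx : Sum.inl x ∈ Z) (hy : Sum.inl y ∈ Z) (ht : Sum.inr g.t ∉ Z)
    (hne : Z ≠ {Sum.inr g.t}ᶜ) : 3 ≤ (Ent g.tl g.hd Z).ncard := by
  have hn : Z.Nonempty := ⟨_, hx⟩
  have hu : Z ≠ Set.univ := fun h => ht (by rw [h]; trivial)
  have h2 := hg.valid Z hZ hn hu
  rcases Nat.lt_or_ge (Ent g.tl g.hd Z).ncard 3 with h | h
  · exfalso
    rcases hg.p1 Z hZ hn hu (by omega) with ⟨u, h'⟩ | ⟨w, h'⟩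
    · rw [h'] at hx hy
      rw [Set.mem_singleton_iff] at hx hy
      exact hxy (Sum.inl.inj (hx.trans hy.symm))
    · by_cases hw : w = g.t
      · subst hw; exact hne h'
      · apply ht
        rw [h']
        simpa using fun h => hw h.symm
  · exact h

/-- validity of the reduced instance -/
theorem elim_valid {g : ST S T I} (hg : MinInst g) {y : S} {a b : I} {P : Set I}
    (h : ElimData g y a b P) :
    (elimInst g y a b h.hy h.hin P (g.tl a) (g.tl b) h.ga h.gb).Valid 2 := by
  classical
  have := hg.finI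
  set r := elimInst g y a b h.hy h.hin P (g.tl a) (g.tl b) h.ga h.gb with hr
  intro U hU hUn hUk
  have hyU : (Sum.inl y : S ⊕ T) ∉ U := fun h' => (mem_elimInst_kept.mp (hU.1 h')) rfl
  have hcl : ∀ x w, x ≠ y → g.B x w → Sum.inr w ∈ U → Sum.inl x ∈ U :=
    fun x w hx hB hw => hU.2 x w (by simpa [hr, elimInst] using hx) hB hw
  -- `U + y` is closed
  have hZc : Closed g.r (U ∪ {Sum.inl y}) := by
    rintro _ _ ⟨x, w, rfl, rfl, hB⟩ hw
    have hw' : Sum.inr w ∈ U := by
      rcases hw with hw | hw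
      · exact hw
      · simp at hw
    by_cases hx : x = y
    · right; simp [hx]
    · left; exact hcl x w hx hB hw'
  have hZn : (U ∪ {Sum.inl y}).Nonempty := ⟨_, Or.inr rfl⟩
  have hZu : U ∪ {Sum.inl y} ≠ Set.univ := by
    intro h'
    apply hUk
    ext x
    rw [mem_elimInst_kept]
    constructor
    · rintro hx rfl
      exact hyU hx
    · intro hx
      have : x ∈ U ∪ {Sum.inl y} := by rw [h']; trivial
      rcases this with h' | h'
      · exact h'
      · exact absurd h' hx
  -- an item entering `U + y`, different from `a, b`, enters `U` in the new instance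
  have hbase : ∀ i, i ∈ Ent g.tl g.hd (U ∪ {Sum.inl y}) → ¬ (i = a ∨ i = b) →
      i ∈ Ent r.tl r.hd U := by
    rintro i ⟨h1, h2⟩ hi
    have hti : g.tl i ≠ Sum.inl y := fun h' => h2 (Or.inr h')
    refine ⟨?_, ?_⟩
    · rw [hr, elimInst_hd hi]
      rcases h1 with h1 | h1
      · exact h1
      · exact absurd (h.hd_eq h1) hi
    · rw [hr, elimInst_tl hi hti]
      exact fun h' => h2 (Or.inl h')
  -- closed and entered sets without `t`
  by_cases htU : Sum.inr g.t ∈ U
  · -- everything in `S` is in `U + y`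
    have h2 := hg.valid _ hZc hZn hZu
    refine two_le_of_subset (fun i hi => hbase i hi ?_) h2
    have hall : ∀ z, GoodEnd g y z → z ∈ U := by
      rintro z (⟨v, hv, rfl⟩ | rfl)
      · exact hcl v g.t hv (g.Bt v) htU
      · exact htU
    rintro (rfl | rfl)
    · exact hi.2 (Or.inl (hall _ h.ga))
    · exact hi.2 (Or.inl (hall _ h.gb))
  have hUc : Closed g.r U := by
    rintro _ _ ⟨x, w, rfl, rfl, hB⟩ hw
    by_cases hx : x = y
    · subst hx
      have := h.noB hg hB
      subst this
      exact absurd hw htU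
    · exact hcl x w hx hB hw
  have hUu : U ≠ Set.univ := fun h' => hyU (by rw [h']; trivial)
  by_cases haU : g.tl a ∈ U
  · by_cases hbU : g.tl b ∈ U
    · have h2 := hg.valid _ hZc hZn hZu
      refine two_le_of_subset (fun i hi => hbase i hi ?_) h2
      rintro (rfl | rfl)
      · exact hi.2 (Or.inl haU)
      · exact hi.2 (Or.inl hbU)
    · -- exactly `a` inside
      obtain ⟨za, hza, hza'⟩ : ∃ z, z ≠ y ∧ g.tl a = Sum.inl z := by
        rcases h.ga with h' | h'
        · exact h'
        · rw [h'] at haU; exact absurd haU htU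
      have hd : Ent g.tl g.hd (U ∪ {Sum.inl y}) \ {b} ⊆ Ent r.tl r.hd U := by
        rintro i ⟨hi, hib⟩
        refine hbase i hi ?_
        rintro (rfl | rfl)
        · exact hi.2 (Or.inl haU)
        · exact hib rfl
      by_cases hcomp : U ∪ {Sum.inl y} = {Sum.inr g.t}ᶜ
      · -- then the tail of `b` is `t`
        have hbt : g.tl b = Sum.inr g.t := by
          by_contra hcon
          apply hbU
          have : g.tl b ∈ U ∪ {Sum.inl y} := by rw [hcomp]; exact hcon
          rcases this with h' | h'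
          · exact h'
          · rcases h.gb with ⟨z, hz, hz'⟩ | hz
            · rw [Set.mem_singleton_iff, hz'] at h'
              exact absurd (Sum.inl.inj h') hz
            · exact absurd hz hcon
        obtain ⟨o, ho, hoP⟩ := h.hB hbt
        have hob := h.out_ne ho
        have h2 := hg.valid _ hZc hZn hZu
        have hoE : o ∈ Ent r.tl r.hd U := by
          refine ⟨?_, ?_⟩
          · rw [hr, elimInst_hd hob]
            have h1 : g.hd o ∈ U ∪ {Sum.inl y} := by
              rw [hcomp]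
              rcases g.kind o with ⟨x, w, hB, h2, h3⟩ | ⟨x, w, h2, h3⟩ | ⟨x, w, h2, h3⟩
              · rw [ho] at h2; cases h2
              · rw [h3]; simp
              · rw [ho] at h2; cases h2
            rcases h1 with h1 | h1
            · exact h1
            · exact absurd (h.hd_eq h1) hob
          · rw [hr, elimInst_tlQ hob ho hoP, hbt]
            exact htU
        have hoN : o ∉ Ent g.tl g.hd (U ∪ {Sum.inl y}) \ {b} := by
          rintro ⟨h', _⟩
          apply h'.2
          rw [ho]; right; rfl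
        have h3 : 1 ≤ (Ent g.tl g.hd (U ∪ {Sum.inl y}) \ {b}).ncard := by
          have := Set.le_ncard_sdiff {b} (Ent g.tl g.hd (U ∪ {Sum.inl y}))
          simp only [Set.ncard_singleton] at this
          omega
        have h4 := Set.ncard_insert_of_notMem hoN (Set.toFinite _)
        have h5 : insert o (Ent g.tl g.hd (U ∪ {Sum.inl y}) \ {b}) ⊆ Ent r.tl r.hd U :=
          Set.insert_subset hoE hd
        have h6 := Set.ncard_le_ncard h5 (Set.toFinite _)
        omega
      · have h3 := three_le hg hZc hza (x := za) (y := y)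
          (Or.inl (by rw [← hza']; exact haU)) (Or.inr rfl) (by
            rintro (h' | h')
            · exact htU h'
            · simp at h') hcomp
        have h4 := Set.le_ncard_sdiff {b} (Ent g.tl g.hd (U ∪ {Sum.inl y}))
        simp only [Set.ncard_singleton] at h4
        have h6 := Set.ncard_le_ncard hd (Set.toFinite _)
        omega
  · by_cases hbU : g.tl b ∈ U
    · obtain ⟨zb, hzb, hzb'⟩ : ∃ z, z ≠ y ∧ g.tl b = Sum.inl z := by
        rcases h.gb with h' | h'
        · exact h'
        · rw [h'] at hbU; exact absurd hbU htU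
      have hd : Ent g.tl g.hd (U ∪ {Sum.inl y}) \ {a} ⊆ Ent r.tl r.hd U := by
        rintro i ⟨hi, hib⟩
        refine hbase i hi ?_
        rintro (rfl | rfl)
        · exact hib rfl
        · exact hi.2 (Or.inl hbU)
      by_cases hcomp : U ∪ {Sum.inl y} = {Sum.inr g.t}ᶜ
      · have hat : g.tl a = Sum.inr g.t := by
          by_contra hcon
          apply haU
          have : g.tl a ∈ U ∪ {Sum.inl y} := by rw [hcomp]; exact hcon
          rcases this with h' | h'
          · exact h'
          · rcases h.ga with ⟨z, hz, hz'⟩ | hz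
            · rw [Set.mem_singleton_iff, hz'] at h'
              exact absurd (Sum.inl.inj h') hz
            · exact absurd hz hcon
        obtain ⟨o, ho, hoP⟩ := h.hA hat
        have hob := h.out_ne ho
        have h2 := hg.valid _ hZc hZn hZu
        have hoE : o ∈ Ent r.tl r.hd U := by
          refine ⟨?_, ?_⟩
          · rw [hr, elimInst_hd hob]
            have h1 : g.hd o ∈ U ∪ {Sum.inl y} := by
              rw [hcomp]
              rcases g.kind o with ⟨x, w, hB, h2, h3⟩ | ⟨x, w, h2, h3⟩ | ⟨x, w, h2, h3⟩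
              · rw [ho] at h2; cases h2
              · rw [h3]; simp
              · rw [ho] at h2; cases h2
            rcases h1 with h1 | h1
            · exact h1
            · exact absurd (h.hd_eq h1) hob
          · rw [hr, elimInst_tlP hob ho hoP, hat]
            exact htU
        have hoN : o ∉ Ent g.tl g.hd (U ∪ {Sum.inl y}) \ {a} := by
          rintro ⟨h', _⟩
          apply h'.2
          rw [ho]; right; rfl
        have h3 : 1 ≤ (Ent g.tl g.hd (U ∪ {Sum.inl y}) \ {a}).ncard := by
          have := Set.le_ncard_sdiff {a} (Ent g.tl g.hd (U ∪ {Sum.inl y}))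
          simp only [Set.ncard_singleton] at this
          omega
        have h4 := Set.ncard_insert_of_notMem hoN (Set.toFinite _)
        have h5 : insert o (Ent g.tl g.hd (U ∪ {Sum.inl y}) \ {a}) ⊆ Ent r.tl r.hd U :=
          Set.insert_subset hoE hd
        have h6 := Set.ncard_le_ncard h5 (Set.toFinite _)
        omega
      · have h3 := three_le hg hZc hzb (x := zb) (y := y)
          (Or.inl (by rw [← hzb']; exact hbU)) (Or.inr rfl) (by
            rintro (h' | h')
            · exact htU h'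
            · simp at h') hcomp
        have h4 := Set.le_ncard_sdiff {a} (Ent g.tl g.hd (U ∪ {Sum.inl y}))
        simp only [Set.ncard_singleton] at h4
        have h6 := Set.ncard_le_ncard hd (Set.toFinite _)
        omega
    · -- both outside
      have h2 := hg.valid _ hUc hUn hUu
      refine two_le_of_subset ?_ h2
      rintro i ⟨h1, h3⟩
      have hi : ¬ (i = a ∨ i = b) := by
        rintro (rfl | rfl)
        · rw [h.hd_a] at h1; exact hyU h1
        · rw [h.hd_b] at h1; exact hyU h1
      refine ⟨by rw [hr, elimInst_hd hi]; exact h1, ?_⟩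
      by_cases ht : g.tl i = Sum.inl y
      · by_cases hP : i ∈ P
        · rw [hr, elimInst_tlP hi ht hP]; exact haU
        · rw [hr, elimInst_tlQ hi ht hP]; exact hbU
      · rw [hr, elimInst_tl hi ht]; exact h3

/-- `x = a` (`κ = true`) or `x = b`: giving the colour `d0` to `x` fails for the class `d0` -/
def FailA {g : ST S T I} {y : S} {a b : I} {P : Set I} (h : ElimData g y a b P)
    (c : I → Bool) (d0 : Bool) : Prop :=
  ∃ U, (elimInst g y a b h.hy h.hin P (g.tl a) (g.tl b) h.ga h.gb).KC U ∧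
    U.Nonempty ∧ Sum.inr g.t ∉ U ∧ g.tl a ∈ U ∧ g.tl b ∉ U ∧
    ∀ i, c i = d0 → (elimInst g y a b h.hy h.hin P (g.tl a) (g.tl b) h.ga h.gb).hd i ∈ U →
      (elimInst g y a b h.hy h.hin P (g.tl a) (g.tl b) h.ga h.gb).tl i ∉ U →
      g.tl i = Sum.inl y ∧ i ∉ P

def FailB {g : ST S T I} {y : S} {a b : I} {P : Set I} (h : ElimData g y a b P)
    (c : I → Bool) (d0 : Bool) : Prop :=
  ∃ U, (elimInst g y a b h.hy h.hin P (g.tl a) (g.tl b) h.ga h.gb).KC U ∧
    U.Nonempty ∧ Sum.inr g.t ∉ U ∧ g.tl a ∉ U ∧ g.tl b ∈ U ∧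
    ∀ i, c i = d0 → (elimInst g y a b h.hy h.hin P (g.tl a) (g.tl b) h.ga h.gb).hd i ∈ U →
      (elimInst g y a b h.hy h.hin P (g.tl a) (g.tl b) h.ga h.gb).tl i ∉ U →
      g.tl i = Sum.inl y ∧ i ∈ P

/-- both cannot fail -/
theorem not_failAB {g : ST S T I} {y : S} {a b : I} {P : Set I}
    (h : ElimData g y a b P) (c : I → Bool)
    (hc : (elimInst g y a b h.hy h.hin P (g.tl a) (g.tl b) h.ga h.gb).GoodB c) (d0 : Bool)
    (h1 : FailA h c d0) (h2 : FailB h c d0) : False := by
  classical
  set r := elimInst g y a b h.hy h.hin P (g.tl a) (g.tl b) h.ga h.gb with hr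
  obtain ⟨U1, hK1, hn1, ht1, ha1, hb1, hh1⟩ := h1
  obtain ⟨U2, hK2, hn2, ht2, ha2, hb2, hh2⟩ := h2
  rw [← hr] at hK1 hh1 hK2 hh2
  have hKC : r.KC (U1 ∪ U2) := by
    refine ⟨Set.union_subset hK1.1 hK2.1, ?_⟩
    rintro x w hx hB (hw | hw)
    · exact Or.inl (hK1.2 x w hx hB hw)
    · exact Or.inr (hK2.2 x w hx hB hw)
  have hne : U1 ∪ U2 ≠ r.kept := by
    intro h'
    have : (Sum.inr g.t : S ⊕ T) ∈ U1 ∪ U2 := by
      rw [h']; exact mem_elimInst_kept.mpr (by simp)
    rcases this with h' | h'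
    · exact ht1 h'
    · exact ht2 h'
  obtain ⟨i, hi, hh, ht⟩ := hc _ hKC (hn1.mono Set.subset_union_left) hne d0
  have ht1' : r.tl i ∉ U1 := fun h' => ht (Or.inl h')
  have ht2' : r.tl i ∉ U2 := fun h' => ht (Or.inr h')
  rcases hh with hh | hh
  · obtain ⟨h3, h4⟩ := hh1 i hi hh ht1'
    rw [hr, elimInst_tlQ (h.out_ne h3) h3 h4] at ht2'
    exact ht2' hb2
  · obtain ⟨h3, h4⟩ := hh2 i hi hh ht2'
    rw [hr, elimInst_tlP (h.out_ne h3) h3 h4] at ht1'
    exact ht1' ha1

/-- a failing side contains both colours on the other side -/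
theorem failA_item {g : ST S T I} {y : S} {a b : I} {P : Set I}
    (h : ElimData g y a b P) (c : I → Bool)
    (hc : (elimInst g y a b h.hy h.hin P (g.tl a) (g.tl b) h.ga h.gb).GoodB c) (d0 : Bool)
    (h1 : FailA h c d0) : g.tl a ≠ Sum.inr g.t ∧ ∃ i, c i = d0 ∧ g.tl i = Sum.inl y ∧ i ∉ P := by
  classical
  obtain ⟨U1, hK1, hn1, ht1, ha1, hb1, hh1⟩ := h1
  refine ⟨fun h' => ht1 (by rw [← h']; exact ha1), ?_⟩
  have hne : U1 ≠ (elimInst g y a b h.hy h.hin P (g.tl a) (g.tl b) h.ga h.gb).kept := by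
    intro h'
    apply ht1
    rw [h']; exact mem_elimInst_kept.mpr (by simp)
  obtain ⟨i, hi, hh, ht⟩ := hc _ hK1 hn1 hne d0
  exact ⟨i, hi, hh1 i hi hh ht⟩

theorem failB_item {g : ST S T I} {y : S} {a b : I} {P : Set I}
    (h : ElimData g y a b P) (c : I → Bool)
    (hc : (elimInst g y a b h.hy h.hin P (g.tl a) (g.tl b) h.ga h.gb).GoodB c) (d0 : Bool)
    (h1 : FailB h c d0) : g.tl b ≠ Sum.inr g.t ∧ ∃ i, c i = d0 ∧ g.tl i = Sum.inl y ∧ i ∈ P := by
  classical
  obtain ⟨U1, hK1, hn1, ht1, ha1, hb1, hh1⟩ := h1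
  refine ⟨fun h' => ht1 (by rw [← h']; exact hb1), ?_⟩
  have hne : U1 ≠ (elimInst g y a b h.hy h.hin P (g.tl a) (g.tl b) h.ga h.gb).kept := by
    intro h'
    apply ht1
    rw [h']; exact mem_elimInst_kept.mpr (by simp)
  obtain ⟨i, hi, hh, ht⟩ := hc _ hK1 hn1 hne d0
  exact ⟨i, hi, hh1 i hi hh ht⟩

/-- the lift with colours `κ` for `a` and `!κ` for `b` -/
theorem elim_lift {g : ST S T I} (hg : MinInst g) {y : S} {a b : I} {P : Set I}
    (h : ElimData g y a b P) (c : I → Bool)
    (hc : (elimInst g y a b h.hy h.hin P (g.tl a) (g.tl b) h.ga h.gb).GoodB c) (κ : Bool) :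
    FailA h c κ ∨ FailB h c (!κ) := by
  classical
  set r := elimInst g y a b h.hy h.hin P (g.tl a) (g.tl b) h.ga h.gb with hr
  let c' : I → Bool := fun i => if i = a then κ else if i = b then !κ else c i
  have hca : c' a = κ := by simp [c']
  have hcb : c' b = !κ := by simp [c', h.hab.symm]
  have hco : ∀ i, ¬ (i = a ∨ i = b) → c' i = c i := by
    intro i hi
    rw [not_or] at hi
    simp [c', hi.1, hi.2]
  have hbad := hg.bad c'
  unfold ST.GoodB at hbad
  push Not at hbad
  obtain ⟨Z, hZ, hZn, hZu, d0, hno⟩ := hbad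
  have hBcl : ∀ x w, g.B x w → Sum.inr w ∈ Z → Sum.inl x ∈ Z :=
    fun x w hB hw => hZ _ _ ⟨x, w, rfl, rfl, hB⟩ hw
  have hyZ : Sum.inl y ∈ Z := by
    by_contra hyZ
    have htZ : Sum.inr g.t ∉ Z := fun h' => hyZ (hBcl _ _ (g.Bt y) h')
    have hKC : r.KC Z := by
      refine ⟨?_, fun x w _ hB hw => hBcl x w hB hw⟩
      intro x hx
      rw [hr, mem_elimInst_kept]
      rintro rfl
      exact hyZ hx
    obtain ⟨i, hi, hh, ht⟩ := hc Z hKC hZn (fun h' => htZ (by
      rw [h', hr]; exact mem_elimInst_kept.mpr (by simp))) d0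
    have hi' : ¬ (i = a ∨ i = b) := by
      intro h'
      obtain ⟨h1, h2⟩ := elimInst_dead (hy := h.hy) (hin := h.hin) (P := P)
        (hp := h.ga) (hq := h.gb) h'
      rw [hr, h2] at hh
      rw [hr, h1] at ht
      exact ht hh
    apply hno
    refine ⟨i, by rw [hco i hi']; exact hi, by rw [hr, elimInst_hd hi'] at hh; exact hh, ?_⟩
    by_cases ht' : g.tl i = Sum.inl y
    · rw [ht']; exact hyZ
    · rw [hr, elimInst_tl hi' ht'] at ht; exact ht
  -- the set without `y`
  set U := Z \ {Sum.inl y} with hU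
  have hKC : r.KC U := by
    refine ⟨?_, ?_⟩
    · rintro x ⟨_, hx⟩
      exact mem_elimInst_kept.mpr hx
    · intro x w hx hB hw
      refine ⟨hBcl x w hB hw.1, ?_⟩
      have : x ≠ y := by simpa [hr, elimInst] using hx
      simpa using this
  have hal : g.tl a ≠ Sum.inl y := by
    intro h'; rw [← h.hd_a] at h'; exact hg.noloop a h'
  have hbl : g.tl b ≠ Sum.inl y := by
    intro h'; rw [← h.hd_b] at h'; exact hg.noloop b h'
  have hUn : U.Nonempty := by
    rw [Set.nonempty_iff_ne_empty]
    intro hemp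
    have hZ1 : Z ⊆ {Sum.inl y} := Set.sdiff_eq_empty.mp hemp
    apply hno
    by_cases hd : d0 = κ
    · exact ⟨a, by rw [hca, hd], by rw [h.hd_a]; exact hyZ, fun h' => hal (hZ1 h')⟩
    · refine ⟨b, ?_, by rw [h.hd_b]; exact hyZ, fun h' => hbl (hZ1 h')⟩
      rw [hcb]
      revert hd
      cases d0 <;> cases κ <;> simp
  have hUk : U ≠ r.kept := by
    intro hk
    apply hZu
    ext x
    simp only [Set.mem_univ, iff_true]
    by_cases hx : x = Sum.inl y
    · rw [hx]; exact hyZ
    · have : x ∈ r.kept := mem_elimInst_kept.mpr hx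
      rw [← hk] at this
      exact this.1
  -- hits of the new instance are out-items of `y`
  have hhit : ∀ i, c i = d0 → r.hd i ∈ U → r.tl i ∉ U → g.tl i = Sum.inl y := by
    intro i hi hh ht
    have hi' : ¬ (i = a ∨ i = b) := by
      intro h'
      obtain ⟨h1, h2⟩ := elimInst_dead (hy := h.hy) (hin := h.hin) (P := P)
        (hp := h.ga) (hq := h.gb) h'
      rw [hr, h2] at hh
      rw [hr, h1] at ht
      exact ht hh
    by_contra ht'
    apply hno
    refine ⟨i, by rw [hco i hi']; exact hi, ?_, ?_⟩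
    · rw [hr, elimInst_hd hi'] at hh; exact hh.1
    · rw [hr, elimInst_tl hi' ht'] at ht
      exact fun h' => ht ⟨h', ht'⟩
  have hallt : Sum.inr g.t ∈ Z → ∀ z, GoodEnd g y z → z ∈ Z := by
    rintro htZ z (⟨v, hv, rfl⟩ | rfl)
    · exact hBcl _ _ (g.Bt v) htZ
    · exact htZ
  by_cases hd : d0 = κ
  · left
    subst hd
    have haZ : g.tl a ∈ Z := by
      by_contra hcon
      exact hno ⟨a, hca, by rw [h.hd_a]; exact hyZ, hcon⟩
    have haU : g.tl a ∈ U := ⟨haZ, hal⟩
    obtain ⟨i, hi, hh, ht⟩ := hc U hKC hUn hUk d0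
    have hti := hhit i hi hh ht
    have hine := h.out_ne hti
    have hbU : g.tl b ∉ U := by
      intro hbU
      by_cases hP : i ∈ P
      · rw [hr, elimInst_tlP hine hti hP] at ht; exact ht haU
      · rw [hr, elimInst_tlQ hine hti hP] at ht; exact ht hbU
    have htU : Sum.inr g.t ∉ U := by
      intro htU
      exact hbU ⟨hallt htU.1 _ h.gb, hbl⟩
    refine ⟨U, hKC, hUn, htU, haU, hbU, ?_⟩
    intro j hj hjh hjt
    have htj := hhit j hj hjh hjt
    refine ⟨htj, fun hP => ?_⟩
    rw [elimInst_tlP (h.out_ne htj) htj hP] at hjt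
    exact hjt haU
  · right
    have hd' : d0 = !κ := by
      revert hd
      cases d0 <;> cases κ <;> simp
    have hbZ : g.tl b ∈ Z := by
      by_contra hcon
      exact hno ⟨b, by rw [hcb, hd'], by rw [h.hd_b]; exact hyZ, hcon⟩
    have hbU : g.tl b ∈ U := ⟨hbZ, hbl⟩
    obtain ⟨i, hi, hh, ht⟩ := hc U hKC hUn hUk d0
    have hti := hhit i hi hh ht
    have hine := h.out_ne hti
    have haU : g.tl a ∉ U := by
      intro haU
      by_cases hP : i ∈ P
      · rw [hr, elimInst_tlP hine hti hP] at ht; exact ht haU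
      · rw [hr, elimInst_tlQ hine hti hP] at ht; exact ht hbU
    have htU : Sum.inr g.t ∉ U := by
      intro htU
      exact haU ⟨hallt htU.1 _ h.ga, hal⟩
    refine ⟨U, hKC, hUn, htU, haU, hbU, ?_⟩
    intro j hj hjh hjt
    rw [← hd'] at hj
    have htj := hhit j hj hjh hjt
    refine ⟨htj, ?_⟩
    by_contra hP
    rw [elimInst_tlQ (h.out_ne htj) htj hP] at hjt
    exact hjt hbU

/-- the elimination -/
theorem elim_core {g : ST S T I} (hg : MinInst g) {y : S} {a b : I} {P : Set I}
    (h : ElimData g y a b P) : False := by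
  have := hg.finS
  have := hg.finT
  obtain ⟨c, hc⟩ := hg.colourR (elimInst g y a b h.hy h.hin P (g.tl a) (g.tl b) h.ga h.gb)
    (card_del_lt S T y) (elim_valid hg h)
  have ht := elim_lift hg h c hc true
  have hf := elim_lift hg h c hc false
  simp only [Bool.not_true, Bool.not_false] at ht hf
  have hA : FailA h c true → FailA h c false → False := by
    intro h1 h2
    obtain ⟨hne, i, hi, hi1, hi2⟩ := failA_item h c hc _ h1
    obtain ⟨_, j, hj, hj1, hj2⟩ := failA_item h c hc _ h2
    rcases h.h1 with h' | h'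
    · exact hne h'
    · have := h' i j hi1 hj1 hi2 hj2
      subst this
      rw [hi] at hj
      cases hj
  have hB : FailB h c true → FailB h c false → False := by
    intro h1 h2
    obtain ⟨hne, i, hi, hi1, hi2⟩ := failB_item h c hc _ h1
    obtain ⟨_, j, hj, hj1, hj2⟩ := failB_item h c hc _ h2
    rcases h.h2 with h' | h'
    · exact hne h'
    · have := h' i j hi1 hj1 hi2 hj2
      subst this
      rw [hi] at hj
      cases hj
  rcases ht with ht | ht <;> rcases hf with hf | hf
  · exact hA ht hf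
  · exact not_failAB h c hc true ht hf
  · exact not_failAB h c hc false hf ht
  · exact hB hf ht

/-- (ELIM) -/
theorem Elim_proof : Stmt_Elim := by
  intro S T I g hg y a b hy hab hin hcase
  classical
  have := hg.finI
  have hda : g.hd a = Sum.inl y := by
    have : a ∈ g.inE y := by rw [hin]; simp
    exact this
  have hdb : g.hd b = Sum.inl y := by
    have : b ∈ g.inE y := by rw [hin]; simp
    exact this
  have hgood : ∀ i, g.hd i = Sum.inl y → ((∃ z, g.tl i = Sum.inl z) ∨ g.tl i = Sum.inr g.t) →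
      GoodEnd g y (g.tl i) := by
    rintro i hi (⟨z, hz⟩ | hz)
    · refine Or.inl ⟨z, ?_, hz⟩
      rintro rfl
      exact hg.noloop i (by rw [hz, hi])
    · exact Or.inr hz
  rcases hcase with ⟨ha, hb, hO⟩ | ⟨ha, hb, hO⟩ | ⟨ha, hb, hO⟩
  · -- two X in-items, at most two out-items
    have hanet : g.tl a ≠ Sum.inr g.t := by
      obtain ⟨z, hz⟩ := ha
      rw [hz]; simp
    have hbnet : g.tl b ≠ Sum.inr g.t := by
      obtain ⟨z, hz⟩ := hb
      rw [hz]; simp
    rcases (g.outE y).eq_empty_or_nonempty with hE | ⟨o, ho⟩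
    · refine elim_core hg (P := ∅) ⟨hy, hab, hin, hgood a hda (Or.inl ha),
        hgood b hdb (Or.inl hb), fun h => absurd h hanet, fun h => absurd h hbnet,
        Or.inr ?_, Or.inr ?_⟩
      · intro i j hi
        have : i ∈ g.outE y := hi
        rw [hE] at this
        exact absurd this (Set.notMem_empty _)
      · intro i j hi
        have : i ∈ g.outE y := hi
        rw [hE] at this
        exact absurd this (Set.notMem_empty _)
    · refine elim_core hg (P := {o}) ⟨hy, hab, hin, hgood a hda (Or.inl ha),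
        hgood b hdb (Or.inl hb), fun h => absurd h hanet, fun h => absurd h hbnet,
        Or.inr ?_, Or.inr ?_⟩
      · intro i j hi hj hi1 hj1
        by_contra hij
        have hsub : ({o, i, j} : Set I) ⊆ g.outE y := by
          rintro x (rfl | rfl | rfl)
          · exact ho
          · exact hi
          · exact hj
        have h3 : ({o, i, j} : Set I).ncard = 3 := by
          rw [Set.ncard_eq_three]
          exact ⟨o, i, j, fun h => hi1 h.symm, fun h => hj1 h.symm, hij, rfl⟩
        have := Set.ncard_le_ncard hsub (Set.toFinite _)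
        omega
      · intro i j _ _ hi1 hj1
        rw [Set.mem_singleton_iff] at hi1 hj1
        rw [hi1, hj1]
  · -- one t-item
    obtain ⟨o, ho⟩ := hO
    have hbnet : g.tl b ≠ Sum.inr g.t := by
      obtain ⟨z, hz⟩ := hb
      rw [hz]; simp
    refine elim_core hg (P := {o}) ⟨hy, hab, hin, hgood a hda (Or.inr ha),
        hgood b hdb (Or.inl hb), fun _ => ⟨o, ho, rfl⟩, fun h => absurd h hbnet,
        Or.inl ha, Or.inr ?_⟩
    intro i j _ _ hi1 hj1
    rw [Set.mem_singleton_iff] at hi1 hj1
    rw [hi1, hj1]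
  · -- two t-items
    obtain ⟨o, o', hoo, hE⟩ := Set.ncard_eq_two.mp hO
    have ho : g.tl o = Sum.inl y := by
      have : o ∈ g.outE y := by rw [hE]; simp
      exact this
    have ho' : g.tl o' = Sum.inl y := by
      have : o' ∈ g.outE y := by rw [hE]; simp
      exact this
    exact elim_core hg (P := {o}) ⟨hy, hab, hin, hgood a hda (Or.inr ha),
        hgood b hdb (Or.inr hb), fun _ => ⟨o, ho, rfl⟩, fun _ => ⟨o', ho', by
          simpa using hoo.symm⟩, Or.inl ha, Or.inl hb⟩

end GW
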