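import Pool.Agent.GW.InnerStmts

/-!
# MP_27938c_co: duality for the inner part
-/

namespace GW

variable {S T I : Type}

/-- the dual of a vertex set: complement, with the two sides exchanged -/
def dZ (Z : Set (S ⊕ T)) : Set (T ⊕ S) := {x | x.swap ∉ Z}

@[simp] theorem inl_mem_dZ (Z : Set (S ⊕ T)) (w : T) :
    (Sum.inl w : T ⊕ S) ∈ dZ Z ↔ (Sum.inr w : S ⊕ T) ∉ Z := Iff.rfl

@[simp] theorem inr_mem_dZ (Z : Set (S ⊕ T)) (u : S) :
    (Sum.inr u : T ⊕ S) ∈ dZ Z ↔ (Sum.inl u : S ⊕ T) ∉ Z := Iff.rfl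

@[simp] theorem dZ_dZ (Z : Set (S ⊕ T)) : dZ (dZ Z) = Z := by
  ext x
  rcases x with u | w <;> simp

theorem dZ_nonempty {Z : Set (S ⊕ T)} : (dZ Z).Nonempty ↔ Z ≠ Set.univ := by
  constructor
  · rintro ⟨x, hx⟩ rfl
    exact hx (Set.mem_univ _)
  · intro h
    obtain ⟨x, hx⟩ := (Set.ne_univ_iff_exists_notMem Z).1 h
    exact ⟨x.swap, by simpa [dZ] using hx⟩

theorem dZ_ne_univ {Z : Set (S ⊕ T)} : dZ Z ≠ Set.univ ↔ Z.Nonempty := by
  rw [← dZ_nonempty, dZ_dZ]

theorem dZ_subset {Z W : Set (S ⊕ T)} : dZ Z ⊆ dZ W ↔ W ⊆ Z := by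
  constructor
  · intro h x hx
    by_contra hcon
    have : x.swap ∈ dZ Z := by simpa [dZ] using hcon
    have := h this
    simp [dZ, hx] at this
  · intro h x hx hx'
    exact hx (h hx')

@[simp] theorem dZ_SetT (C : Set T) : dZ (SetT S C) = SetS S C := by
  ext x
  rcases x with w | u <;> simp [dZ, SetT, SetS]

@[simp] theorem dZ_SetS (A : Set S) : dZ (SetS T A) = SetT T A := by
  ext x
  rcases x with w | u
  · simp [dZ, SetT, SetS]
  · simp only [dZ, SetT, SetS, Set.mem_ofPred_eq, Set.mem_compl_iff, Sum.swap_inr, Set.mem_image,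
      Sum.inl.injEq, Sum.inr.injEq, exists_eq_right]

@[simp] theorem inl_mem_SetS (A : Set S) (u : S) : (Sum.inl u : S ⊕ T) ∈ SetS T A ↔ u ∈ A := by
  simp [SetS]

@[simp] theorem inr_mem_SetS (A : Set S) (w : T) : (Sum.inr w : S ⊕ T) ∉ SetS T A := by
  simp [SetS]

@[simp] theorem inl_mem_SetT (C : Set T) (u : S) : (Sum.inl u : S ⊕ T) ∈ SetT S C := by
  simp [SetT]

@[simp] theorem inr_mem_SetT (C : Set T) (w : T) : (Sum.inr w : S ⊕ T) ∈ SetT S C ↔ w ∉ C := by
  simp [SetT]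

/-! ## Closed sets -/

theorem closed_iff (g : ST S T I) (Z : Set (S ⊕ T)) :
    Closed g.r Z ↔ ∀ u w, g.B u w → Sum.inr w ∈ Z → Sum.inl u ∈ Z := by
  constructor
  · intro h u w hB hw
    exact h _ _ ⟨u, w, rfl, rfl, hB⟩ hw
  · rintro h x y ⟨u, w, rfl, rfl, hB⟩ hy
    exact h u w hB hy

theorem closed_SetS (g : ST S T I) (A : Set S) : Closed g.r (SetS T A) := by
  rw [closed_iff]
  intro u w _ hw
  exact absurd hw (inr_mem_SetS A w)

theorem closed_SetT (g : ST S T I) (C : Set T) : Closed g.r (SetT S C) := by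
  rw [closed_iff]
  intro u w _ _
  exact inl_mem_SetT C u

theorem closed_inter {g : ST S T I} {Z W : Set (S ⊕ T)} (h1 : Closed g.r Z)
    (h2 : Closed g.r W) : Closed g.r (Z ∩ W) :=
  fun x y hr hy => ⟨h1 x y hr hy.1, h2 x y hr hy.2⟩

theorem closed_union {g : ST S T I} {Z W : Set (S ⊕ T)} (h1 : Closed g.r Z)
    (h2 : Closed g.r W) : Closed g.r (Z ∪ W) :=
  fun x y hr hy => hy.imp (h1 x y hr) (h2 x y hr)

/-- a closed nonempty proper set is of type I, II or III -/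
theorem closed_cases {g : ST S T I} {Z : Set (S ⊕ T)} (h : Closed g.r Z) (hn : Z.Nonempty)
    (hu : Z ≠ Set.univ) :
    g.TI Z ∨ (∃ A : Set S, g.s ∉ A ∧ A.Nonempty ∧ Z = SetS T A) ∨
      (∃ C : Set T, g.t ∉ C ∧ C.Nonempty ∧ Z = SetT S C) := by
  have hc := (closed_iff g Z).1 h
  by_cases hs : Sum.inl g.s ∈ Z
  · by_cases ht : Sum.inr g.t ∈ Z
    · right; right
      refine ⟨{w | Sum.inr w ∉ Z}, by simpa using ht, ?_, ?_⟩
      · obtain ⟨x, hx⟩ := (Set.ne_univ_iff_exists_notMem Z).1 hu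
        rcases x with u | w
        · exact absurd (hc u g.t (g.Bt u) ht) hx
        · exact ⟨w, hx⟩
      · ext x
        rcases x with u | w
        · simp [hc u g.t (g.Bt u) ht]
        · simp
    · exact Or.inl ⟨h, hs, ht⟩
  · right; left
    have hw : ∀ w, Sum.inr w ∉ Z := fun w hw => hs (hc g.s w (g.Bs w) hw)
    refine ⟨{u | Sum.inl u ∈ Z}, by simpa using hs, ?_, ?_⟩
    · obtain ⟨x, hx⟩ := hn
      rcases x with u | w
      · exact ⟨u, hx⟩
      · exact absurd hx (hw w)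
    · ext x
      rcases x with u | w
      · simp
      · simp [hw w]

theorem goodB_iff (g : ST S T I) (c : I → Bool) :
    g.GoodB c ↔ (∀ Z, g.TI Z → ∀ b, g.Hit c b Z) ∧
      (∀ A : Set S, g.s ∉ A → A.Nonempty → ∀ b, g.Hit c b (SetS T A)) ∧
      (∀ C : Set T, g.t ∉ C → C.Nonempty → ∀ b, g.Hit c b (SetT S C)) := by
  constructor
  · intro h
    refine ⟨fun Z hZ b => ?_, fun A hA hn b => ?_, fun C hC hn b => ?_⟩
    · exact h Z hZ.1 ⟨_, hZ.2.1⟩ (fun hu => hZ.2.2 (hu ▸ Set.mem_univ _)) b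
    · obtain ⟨u, hu⟩ := hn
      refine h _ (closed_SetS g A) ⟨Sum.inl u, by simpa using hu⟩ (fun hu => ?_) b
      have : (Sum.inl g.s : S ⊕ T) ∈ SetS T A := hu ▸ Set.mem_univ _
      exact hA (by simpa using this)
    · obtain ⟨w, hw⟩ := hn
      refine h _ (closed_SetT g C) ⟨Sum.inl g.s, by simp⟩ (fun hu => ?_) b
      have : (Sum.inr w : S ⊕ T) ∈ SetT S C := hu ▸ Set.mem_univ _
      exact (by simpa using this : w ∉ C) hw
  · rintro ⟨h1, h2, h3⟩ Z hZ hn hu b
    rcases closed_cases hZ hn hu with h | ⟨A, hA, hAn, rfl⟩ | ⟨C, hC, hCn, rfl⟩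
    · exact h1 Z h b
    · exact h2 A hA hAn b
    · exact h3 C hC hCn b

/-! ## Duality -/

theorem dual_dual (g : ST S T I) : g.dual.dual = g := by
  cases g
  simp [ST.dual]

@[simp] theorem dual_s (g : ST S T I) : g.dual.s = g.t := rfl
@[simp] theorem dual_t (g : ST S T I) : g.dual.t = g.s := rfl
@[simp] theorem dual_B (g : ST S T I) (w : T) (u : S) : g.dual.B w u = g.B u w := rfl
theorem dual_tl (g : ST S T I) (i : I) : g.dual.tl i = (g.hd i).swap := rfl
theorem dual_hd (g : ST S T I) (i : I) : g.dual.hd i = (g.tl i).swap := rfl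

@[simp] theorem dual_tl_inl (g : ST S T I) (i : I) (w : T) :
    g.dual.tl i = Sum.inl w ↔ g.hd i = Sum.inr w := by
  rw [dual_tl]; rcases g.hd i with u | w' <;> simp

@[simp] theorem dual_tl_inr (g : ST S T I) (i : I) (u : S) :
    g.dual.tl i = Sum.inr u ↔ g.hd i = Sum.inl u := by
  rw [dual_tl]; rcases g.hd i with u' | w' <;> simp

@[simp] theorem dual_hd_inl (g : ST S T I) (i : I) (w : T) :
    g.dual.hd i = Sum.inl w ↔ g.tl i = Sum.inr w := by
  rw [dual_hd]; rcases g.tl i with u | w' <;> simp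

@[simp] theorem dual_hd_inr (g : ST S T I) (i : I) (u : S) :
    g.dual.hd i = Sum.inr u ↔ g.tl i = Sum.inl u := by
  rw [dual_hd]; rcases g.tl i with u' | w' <;> simp

theorem dual_hd_mem_dZ (g : ST S T I) (i : I) (Z : Set (S ⊕ T)) :
    g.dual.hd i ∈ dZ Z ↔ g.tl i ∉ Z := by
  rw [dual_hd]; simp [dZ]

theorem dual_tl_mem_dZ (g : ST S T I) (i : I) (Z : Set (S ⊕ T)) :
    g.dual.tl i ∈ dZ Z ↔ g.hd i ∉ Z := by
  rw [dual_tl]; simp [dZ]

theorem dual_hd_eq (g : ST S T I) (i j : I) : g.dual.hd i = g.dual.hd j ↔ g.tl i = g.tl j := by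
  rw [dual_hd, dual_hd]
  exact Sum.swap_leftInverse.injective.eq_iff

theorem dual_tl_eq (g : ST S T I) (i j : I) : g.dual.tl i = g.dual.tl j ↔ g.hd i = g.hd j := by
  rw [dual_tl, dual_tl]
  exact Sum.swap_leftInverse.injective.eq_iff

theorem closed_dual (g : ST S T I) (Z : Set (S ⊕ T)) :
    Closed g.dual.r (dZ Z) ↔ Closed g.r Z := by
  rw [closed_iff, closed_iff]
  constructor
  · intro h u w hB hw
    by_contra hu
    exact h w u hB (by simpa using hu) hw
  · intro h w u hB hu hw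
    exact hu (h u w hB hw)

theorem ent_dual (g : ST S T I) (Z : Set (S ⊕ T)) :
    Ent g.dual.tl g.dual.hd (dZ Z) = Ent g.tl g.hd Z := by
  ext i
  simp only [Ent, Set.mem_ofPred_eq, dual_hd_mem_dZ, dual_tl_mem_dZ, not_not]
  exact and_comm

theorem d_dual (g : ST S T I) (Z : Set (S ⊕ T)) : g.dual.d (dZ Z) = g.d Z := by
  unfold ST.d
  rw [ent_dual]

theorem hit_dual (g : ST S T I) (c : I → Bool) (b : Bool) (Z : Set (S ⊕ T)) :
    g.dual.Hit c b (dZ Z) ↔ g.Hit c b Z := by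
  unfold ST.Hit
  simp only [dual_hd_mem_dZ, dual_tl_mem_dZ, not_not]
  exact ⟨fun ⟨i, h1, h2, h3⟩ => ⟨i, h1, h3, h2⟩, fun ⟨i, h1, h2, h3⟩ => ⟨i, h1, h3, h2⟩⟩

theorem hit_neg (g : ST S T I) (c : I → Bool) (b : Bool) (Z : Set (S ⊕ T)) :
    g.Hit (fun i => !c i) b Z ↔ g.Hit c (!b) Z := by
  unfold ST.Hit
  constructor <;>
  · rintro ⟨i, h1, h2⟩
    refine ⟨i, ?_, h2⟩
    cases hb : b <;> cases hc : c i <;> simp_all

theorem hit_dual_neg (g : ST S T I) (c : I → Bool) (b : Bool) (Z : Set (S ⊕ T)) :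
    g.dual.Hit (fun i => !c i) b (dZ Z) ↔ g.Hit c (!b) Z := by
  rw [hit_neg, hit_dual]

theorem TI_dual (g : ST S T I) (Z : Set (S ⊕ T)) : g.dual.TI (dZ Z) ↔ g.TI Z := by
  unfold ST.TI
  rw [closed_dual]
  simp only [dual_s, dual_t, inl_mem_dZ, inr_mem_dZ, not_not]
  tauto

/-- every set of the dual is a `dZ` -/
theorem exists_dZ (W : Set (T ⊕ S)) : ∃ Z : Set (S ⊕ T), W = dZ Z := ⟨dZ W, (dZ_dZ W).symm⟩

theorem goodB_dual (g : ST S T I) (c : I → Bool) : g.dual.GoodB c ↔ g.GoodB c := by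
  constructor
  · intro h Z hZ hn hu b
    have := h (dZ Z) ((closed_dual g Z).2 hZ) (dZ_nonempty.2 hu) (dZ_ne_univ.2 hn) b
    rwa [hit_dual] at this
  · intro h W hW hn hu b
    obtain ⟨Z, rfl⟩ := exists_dZ W
    rw [hit_dual]
    exact h Z ((closed_dual g Z).1 hW) (dZ_ne_univ.1 hu) (dZ_nonempty.1 hn) b

theorem goodB_neg (g : ST S T I) (c : I → Bool) : g.GoodB (fun i => !c i) ↔ g.GoodB c := by
  constructor
  · intro h Z hZ hn hu b
    have := h Z hZ hn hu (!b)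
    rw [hit_neg] at this
    simpa using this
  · intro h Z hZ hn hu b
    rw [hit_neg]
    exact h Z hZ hn hu _

theorem legC_dual (g : ST S T I) (c : I → Bool) : g.dual.LegC c ↔ g.LegC c := by
  constructor
  · intro h Z hZ b
    have := h (dZ Z) ((TI_dual g Z).2 hZ) b
    rwa [hit_dual] at this
  · intro h W hW b
    obtain ⟨Z, rfl⟩ := exists_dZ W
    rw [hit_dual]
    exact h Z ((TI_dual g Z).1 hW) b

theorem legC_neg (g : ST S T I) (c : I → Bool) : g.LegC (fun i => !c i) ↔ g.LegC c := by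
  constructor
  · intro h Z hZ b
    have := h Z hZ (!b)
    rw [hit_neg] at this
    simpa using this
  · intro h Z hZ b
    rw [hit_neg]
    exact h Z hZ _

theorem flipc_dual (g : ST S T I) (k : I) (c : I → Bool) : g.dual.flipc k c = g.flipc k c := by
  funext l
  unfold ST.flipc
  have : (l = k ∨ (g.dual.hd l = g.dual.hd k ∧ ∃ z, g.dual.tl l = Sum.inl z) ∨
      (g.dual.tl l = g.dual.tl k ∧ ∃ w, g.dual.hd l = Sum.inr w)) ↔
      (l = k ∨ (g.hd l = g.hd k ∧ ∃ z, g.tl l = Sum.inl z) ∨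
      (g.tl l = g.tl k ∧ ∃ w, g.hd l = Sum.inr w)) := by
    simp only [dual_hd_eq, dual_tl_eq, dual_tl_inl, dual_hd_inr]
    tauto
  by_cases h : (l = k ∨ (g.hd l = g.hd k ∧ ∃ z, g.tl l = Sum.inl z) ∨
      (g.tl l = g.tl k ∧ ∃ w, g.hd l = Sum.inr w))
  · rw [if_pos h, if_pos (this.2 h)]
  · rw [if_neg h, if_neg (fun hh => h (this.1 hh))]

theorem flipc_neg (g : ST S T I) (k : I) (c : I → Bool) :
    g.flipc k (fun i => !c i) = fun i => !(g.flipc k c i) := by
  funext l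
  unfold ST.flipc
  split_ifs <;> rfl

theorem flipc_flipc (g : ST S T I) (k : I) (c : I → Bool) : g.flipc k (g.flipc k c) = c := by
  funext l
  unfold ST.flipc
  split_ifs <;> simp

@[simp] theorem isK_dual (g : ST S T I) (i : I) : g.dual.IsK i ↔ g.IsK i := by
  unfold ST.IsK
  simp only [dual_tl_inr, dual_hd_inl, dual_s, dual_t]
  constructor
  · rintro ⟨w, u, h1, h2, h3, h4⟩
    exact ⟨u, w, h2, h1, h4, h3⟩
  · rintro ⟨u, w, h1, h2, h3, h4⟩
    exact ⟨w, u, h2, h1, h4, h3⟩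

theorem flp_dual (g : ST S T I) (k : I) : g.dual.Flp k ↔ g.Flp k := by
  unfold ST.Flp
  simp only [dual_tl_inr, dual_hd_inl, dual_s, dual_t, dual_dual]
  constructor
  · rintro ⟨w, u, h1, h2, h3, h4, h5, h6⟩
    exact ⟨u, w, h2, h1, h4, h3, h6, h5⟩
  · rintro ⟨u, w, h1, h2, h3, h4, h5, h6⟩
    exact ⟨w, u, h2, h1, h4, h3, h6, h5⟩

theorem tstate_dual (g : ST S T I) (c : I → Bool) (N : Set S) :
    g.dual.TState (fun i => !c i) N ↔ g.SState c N := by
  unfold ST.TState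
  rw [dual_dual]
  simp

theorem kint_dual (g : ST S T I) : g.dual.Kint = g.Kint := by
  ext i
  exact isK_dual g i

theorem inner_dual (g : ST S T I) : g.dual.Inner = g.Inner := by
  ext i
  unfold ST.Inner
  simp only [Set.mem_ofPred_eq, dual_tl_inl, dual_hd_inl, dual_tl_inr, dual_hd_inr, dual_s, dual_t]
  constructor
  · rintro (⟨u, v, h1, h2, h3⟩ | ⟨u, v, h1, h2, h3⟩)
    · exact Or.inr ⟨u, v, h2, h1, h3⟩
    · exact Or.inl ⟨u, v, h2, h1, h3⟩
  · rintro (⟨u, v, h1, h2, h3⟩ | ⟨u, v, h1, h2, h3⟩)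
    · exact Or.inr ⟨u, v, h2, h1, h3⟩
    · exact Or.inl ⟨u, v, h2, h1, h3⟩

theorem valid_dual (g : ST S T I) (k : ℕ) :
    Valid g.dual.r g.dual.tl g.dual.hd k ↔ Valid g.r g.tl g.hd k := by
  constructor
  · intro h Z hZ hn hu
    have := h (dZ Z) ((closed_dual g Z).2 hZ) (dZ_nonempty.2 hu) (dZ_ne_univ.2 hn)
    rwa [ent_dual] at this
  · intro h W hW hn hu
    obtain ⟨Z, rfl⟩ := exists_dZ W
    rw [ent_dual]
    exact h Z ((closed_dual g Z).1 hW) (dZ_ne_univ.1 hu) (dZ_nonempty.1 hn)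

theorem dZ_singleton_inl (u : S) : dZ ({Sum.inl u} : Set (S ⊕ T)) = {Sum.inr u}ᶜ := by
  ext x
  rcases x with w | v <;> simp [dZ]

theorem dZ_compl_singleton_inr (w : T) : dZ ({Sum.inr w}ᶜ : Set (S ⊕ T)) = {Sum.inl w} := by
  ext x
  rcases x with w' | v <;> simp [dZ]

theorem exact_dual (g : ST S T I) (k : ℕ) (h : g.Exact k) : g.dual.Exact k := by
  refine ⟨fun w => ?_, fun u => ?_⟩
  · rw [← dZ_compl_singleton_inr (S := S) w, ent_dual]
    exact h.2 w
  · rw [← dZ_singleton_inl (T := T) u, ent_dual]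
    exact h.1 u

theorem p1_dual (g : ST S T I) (k : ℕ) (h : g.P1 k) : g.dual.P1 k := by
  intro W hW hn hu he
  obtain ⟨Z, rfl⟩ := exists_dZ W
  rw [ent_dual] at he
  rcases h Z ((closed_dual g Z).1 hW) (dZ_ne_univ.1 hu) (dZ_nonempty.1 hn) he with
    ⟨u, rfl⟩ | ⟨w, rfl⟩
  · exact Or.inr ⟨u, dZ_singleton_inl u⟩
  · exact Or.inl ⟨w, dZ_compl_singleton_inr w⟩

theorem anti_dual (g : ST S T I) (h : g.Anti) : g.dual.Anti := by
  intro w u hB
  rcases h u w hB with h1 | h1 | ⟨i, h1, h2⟩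
  · exact Or.inr (Or.inl h1)
  · exact Or.inl h1
  · exact Or.inr (Or.inr ⟨i, by simpa using h2, by simpa using h1⟩)

theorem MinInst.dual {g : ST S T I} (h : MinInst g) : MinInst g.dual where
  finS := h.finT
  finT := h.finS
  finI := h.finI
  valid := (valid_dual g 2).2 h.valid
  exact := exact_dual g 2 h.exact
  p1 := p1_dual g 2 h.p1
  anti := anti_dual g h.anti
  noloop := fun i hi => by
    rw [dual_tl, dual_hd] at hi
    exact h.noloop i (Sum.swap_leftInverse.injective hi).symm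
  col := by
    have := h.col
    rwa [add_comm] at this
  colI := by
    intro I' _ g' hs ht hB hv hK hI
    obtain ⟨c, hc⟩ := h.colI I' g'.dual (by rw [dual_s, ht]; rfl) (by rw [dual_t, hs]; rfl)
      (by
        funext u w
        show g'.B w u = g.B u w
        rw [hB]
        rfl)
      ((valid_dual g' 2).2 hv) (by rwa [kint_dual, ← kint_dual g])
      (by rwa [inner_dual, ← inner_dual g])
    exact ⟨c, (goodB_dual g' c).1 hc⟩
  bad := fun c hc => h.bad c ((goodB_dual g c).1 hc)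

theorem Dual_proof : Stmt_Dual := fun _ _ _ _ h => h.dual

/-! ## Basic API for minimal instances -/

/-- the in-items of a vertex `u` are exactly two -/
theorem MinInst.inE_card {g : ST S T I} (h : MinInst g) (u : S) : (g.inE u).ncard = 2 := by
  rw [← h.exact.1 u]
  congr 1
  ext i
  simp only [ST.inE, Ent, Set.mem_ofPred_eq, Set.mem_singleton_iff]
  constructor
  · intro hi
    exact ⟨hi, fun ht => h.noloop i (ht.trans hi.symm)⟩
  · exact fun hi => hi.1

/-- (P1) as a lower bound -/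
theorem MinInst.three_le {g : ST S T I} (h : MinInst g) {Z : Set (S ⊕ T)} (hZ : Closed g.r Z)
    (hn : Z.Nonempty) (hu : Z ≠ Set.univ) (h1 : ∀ u, Z ≠ {Sum.inl u})
    (h2 : ∀ w, Z ≠ {Sum.inr w}ᶜ) : 3 ≤ g.d Z := by
  have h3 := h.valid Z hZ hn hu
  by_contra hcon
  have h4 : (Ent g.tl g.hd Z).ncard = 2 := by
    unfold ST.d at hcon
    omega
  rcases h.p1 Z hZ hn hu h4 with ⟨u, hu'⟩ | ⟨w, hw'⟩
  · exact h1 u hu'
  · exact h2 w hw'

/-- type II sets with at least two elements have `d ≥ 3` -/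
theorem MinInst.three_le_SetS {g : ST S T I} (h : MinInst g) {A : Set S} (hs : g.s ∉ A)
    {u v : S} (hu : u ∈ A) (hv : v ∈ A) (huv : u ≠ v) : 3 ≤ g.d (SetS T A) := by
  apply h.three_le (closed_SetS g A) ⟨Sum.inl u, by simpa using hu⟩
  · intro he
    have : (Sum.inl g.s : S ⊕ T) ∈ SetS T A := he ▸ Set.mem_univ _
    exact hs (by simpa using this)
  · intro x hx
    have h1 : (Sum.inl u : S ⊕ T) ∈ SetS T A := by simpa using hu
    have h2 : (Sum.inl v : S ⊕ T) ∈ SetS T A := by simpa using hv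
    rw [hx] at h1 h2
    simp only [Set.mem_singleton_iff, Sum.inl.injEq] at h1 h2
    exact huv (h1.trans h2.symm)
  · intro w hw
    have : (Sum.inl g.s : S ⊕ T) ∈ SetS T A := by rw [hw]; simp
    exact hs (by simpa using this)

theorem MinInst.two_le_SetS {g : ST S T I} (h : MinInst g) {A : Set S} (hs : g.s ∉ A)
    (hn : A.Nonempty) : 2 ≤ g.d (SetS T A) := by
  obtain ⟨u, hu⟩ := hn
  apply h.valid _ (closed_SetS g A) ⟨Sum.inl u, by simpa using hu⟩
  intro he
  have : (Sum.inl g.s : S ⊕ T) ∈ SetS T A := he ▸ Set.mem_univ _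
  exact hs (by simpa using this)

/-- type I sets have `d ≥ 3`, unless trivial -/
theorem MinInst.three_le_TI {g : ST S T I} (h : MinInst g) {Z : Set (S ⊕ T)} (hZ : g.TI Z)
    (h1 : Z ≠ {Sum.inl g.s}) (h2 : Z ≠ {Sum.inr g.t}ᶜ) : 3 ≤ g.d Z := by
  apply h.three_le hZ.1 ⟨_, hZ.2.1⟩
  · intro he
    exact hZ.2.2 (he ▸ Set.mem_univ _)
  · intro u hu
    have := hZ.2.1
    rw [hu] at this
    simp only [Set.mem_singleton_iff, Sum.inl.injEq] at this
    exact h1 (by rw [hu, this])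
  · intro w hw
    have := hZ.2.2
    rw [hw] at this
    simp only [Set.mem_compl_iff, Set.mem_singleton_iff, Sum.inr.injEq, not_not] at this
    exact h2 (by rw [hw, this])

/-- hops between `S - s` and `T - t` are antiparallel to interior K items -/
theorem MinInst.hop {g : ST S T I} (h : MinInst g) {u : S} {w : T} (hB : g.B u w)
    (hu : u ≠ g.s) (hw : w ≠ g.t) : ∃ k, g.tl k = Sum.inr w ∧ g.hd k = Sum.inl u := by
  rcases h.anti u w hB with h1 | h1 | h1
  · exact absurd h1 hu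
  · exact absurd h1 hw
  · exact h1

/-- K items are antiparallel to hops -/
theorem hop_of_K (g : ST S T I) {i : I} {u : S} {w : T} (h1 : g.tl i = Sum.inr w)
    (h2 : g.hd i = Sum.inl u) : g.B u w := by
  rcases g.kind i with ⟨u', w', h, h3, h4⟩ | ⟨u', v', h3, h4⟩ | ⟨w', w'', h3, h4⟩
  · rw [h1, Sum.inr.injEq] at h3
    rw [h2, Sum.inl.injEq] at h4
    rw [h3, h4]
    exact h
  · rw [h1] at h3
    exact absurd h3 (by simp)
  · rw [h2] at h4
    exact absurd h4 (by simp)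

/-- no item goes from `S` to `T` -/
theorem no_ST (g : ST S T I) {i : I} {u : S} {w : T} (h1 : g.tl i = Sum.inl u)
    (h2 : g.hd i = Sum.inr w) : False := by
  rcases g.kind i with ⟨u', w', h, h3, h4⟩ | ⟨u', v', h3, h4⟩ | ⟨w', w'', h3, h4⟩
  · rw [h1] at h3
    exact absurd h3 (by simp)
  · rw [h2] at h4
    exact absurd h4 (by simp)
  · rw [h1] at h3
    exact absurd h3 (by simp)

end GW
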