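import Pool.Agent.GW.InnerStmts
import Pool.Agent.GW.Dual

/-!
# MP_27938c_co: assembly of the inner part

`inner_main`: the modules of `InnerStmts.lean` imply `Stmt_Step2`.
-/

namespace GW

open Relation

variable {S T I : Type}

/-- a pair of leaves is a pair of leaves of the dual instance -/
theorem Leaves.dual {g : ST S T I} {c : I → Bool} {A : Set S} {e : I} {c' : I → Bool}
    {B : Set T} {f : I} (h : Leaves g c A e c' B f) :
    Leaves g.dual (fun i => !c' i) B f (fun i => !c i) A e := by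
  refine ⟨h.2, ?_⟩
  have h1 := h.1
  have e1 : (fun i => !(!c i)) = c := by
    funext i
    simp
  have e2 : (fun i => !(!c' i)) = c' := by
    funext i
    simp
  simp only [dual_dual]
  rw [e1, e2]
  exact h1

/-- an instance with an inner X item is impossible -/
theorem no_innerX (hStr : Stmt_Str) (hRoot : Stmt_Root) (hWalk : Stmt_Walk) (hE1 : Stmt_E1)
    (hE2 : Stmt_E2) {g : ST S T I} (hg : MinInst g) (i : I) (hi : g.IsIn i) : False := by
  have hS : g.StrS := hStr _ _ _ g hg
  have hT : g.dual.StrS := hStr _ _ _ g.dual hg.dual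
  have hSd : g.dual.dual.StrS := by
    rw [dual_dual]
    exact hS
  obtain ⟨c, N, hN, hnd⟩ := hRoot _ _ _ g hg hS hT i hi
  obtain ⟨c1, A, e, c2, B, f, hL⟩ := hWalk _ _ _ g hg hS hT c N hN hnd
  have hA : ¬ g.NDbl c1 A := hE1 _ _ _ g hg hS hT c1 A e c2 B f hL
  have hB : ¬ g.dual.NDbl (fun i => !c2 i) B :=
    hE1 _ _ _ g.dual hg.dual hT hSd _ B f _ A e hL.dual
  exact hE2 _ _ _ g hg hS hT c1 A e c2 B f hL hA hB

/-- there is no minimal instance -/
theorem no_min (hStr : Stmt_Str) (hRoot : Stmt_Root) (hWalk : Stmt_Walk) (hE1 : Stmt_E1)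
    (hE2 : Stmt_E2) (hTiny : Stmt_Tiny) {g : ST S T I} (hg : MinInst g) : False := by
  have hS : g.StrS := hStr _ _ _ g hg
  have hT : g.dual.StrS := hStr _ _ _ g.dual hg.dual
  by_cases h1 : ∃ i, g.IsIn i
  · obtain ⟨i, hi⟩ := h1
    exact no_innerX hStr hRoot hWalk hE1 hE2 hg i hi
  · by_cases h2 : ∃ i, g.dual.IsIn i
    · obtain ⟨i, hi⟩ := h2
      exact no_innerX hStr hRoot hWalk hE1 hE2 hg.dual i hi
    · push Not at h1 h2
      exact hTiny _ _ _ g hg hS hT h1 h2

/-- good `Fin 2` colouring from a good `Bool` colouring -/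
theorem good_of_goodB {g : ST S T I} {c : I → Bool} (h : g.GoodB c) :
    Good g.r g.tl g.hd (fun i => if c i then (1 : Fin 2) else 0) := by
  intro Z h1 h2 h3 j
  fin_cases j
  · obtain ⟨i, hi, h4, h5⟩ := h Z h1 h2 h3 false
    exact ⟨i, by simp [hi], h4, h5⟩
  · obtain ⟨i, hi, h4, h5⟩ := h Z h1 h2 h3 true
    exact ⟨i, by simp [hi], h4, h5⟩

/-- good `Bool` colouring from a good `Fin 2` colouring -/
theorem goodB_of_good {g : ST S T I} {c : I → Fin 2} (h : Good g.r g.tl g.hd c) :
    g.GoodB (fun i => decide (c i = 1)) := by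
  intro Z h1 h2 h3 b
  cases b with
  | true =>
    obtain ⟨i, hi, h4, h5⟩ := h Z h1 h2 h3 1
    exact ⟨i, by simp [hi], h4, h5⟩
  | false =>
    obtain ⟨i, hi, h4, h5⟩ := h Z h1 h2 h3 0
    exact ⟨i, by simp [hi], h4, h5⟩

/-- THE INNER PART from its modules -/
theorem inner_main (hStr : Stmt_Str) (hRoot : Stmt_Root) (hWalk : Stmt_Walk) (hE1 : Stmt_E1)
    (hE2 : Stmt_E2) (hTiny : Stmt_Tiny) : Stmt_Step2 := by
  intro S T I _ _ _ g hV hE hL hP hA hC hCI
  by_contra hno
  refine no_min hStr hRoot hWalk hE1 hE2 hTiny (g := g) ?_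
  exact
    { finS := inferInstance
      finT := inferInstance
      finI := inferInstance
      valid := hV
      exact := hE
      p1 := hP
      anti := hA
      noloop := hL
      col := hC
      colI := fun I' _ g' h1 h2 h3 h4 h5 h6 => by
        obtain ⟨c, hc⟩ := hCI I' g' h1 h2 h3 h4 h5 h6
        exact ⟨_, goodB_of_good hc⟩
      bad := fun c hc => hno ⟨_, good_of_goodB hc⟩ }

end GW
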