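import Pool.Agent.GW.LeafBase

/-!
# MP_27938c_co: module MUniq ((L4) of the text), helper5
-/

set_option autoImplicit false

namespace GW

theorem MUniq_proof : Stmt_MUniq := by
  intro S T I g hg _ _ c N k k' hst hF hF' hN hN' hM hM'
  obtain ⟨u, w, htk, hhk, hus, hwt, -, -⟩ := hF
  obtain ⟨u', w', htk', hhk', hus', hwt', -, -⟩ := hF'
  obtain ⟨W, hW, hWN, hWb⟩ := hM
  obtain ⟨W', hW', hWN', hWb'⟩ := hM'
  have huN : u ∈ N := by
    rw [hhk] at hN
    simpa using hN
  have huN' : u' ∈ N := by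
    rw [hhk'] at hN'
    simpa using hN'
  have hB := hop_of_K g htk hhk
  have hB' := hop_of_K g htk' hhk'
  have hwW' : Sum.inr w ∉ W' := fun h => hWN' u huN ((closed_iff g W').1 hW'.1 u w hB h)
  have hw'W : Sum.inr w' ∉ W := fun h => hWN u' huN' ((closed_iff g W).1 hW.1 u' w' hB' h)
  have hTI : g.TI (W ∩ W') :=
    ⟨closed_inter hW.1 hW'.1, ⟨hW.2.1, hW'.2.1⟩, fun h => hW.2.2 h.1⟩
  obtain ⟨j, hj, hj1, hj2⟩ := hst.tI _ hTI false
  have hww : w = w' := by
    by_cases h : g.tl j ∈ W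
    · have h' : g.tl j ∉ W' := fun h' => hj2 ⟨h, h'⟩
      have e1 := (hWb' j hj hj1.2 h').1
      rw [htk'] at e1
      have h2 : g.tl j ∉ W := by
        rw [e1]
        exact hw'W
      exact absurd h h2
    · have e1 := (hWb j hj hj1.1 h).1
      rw [htk] at e1
      have h2 : g.tl j ∉ W' := by
        rw [e1]
        exact hwW'
      have e2 := (hWb' j hj hj1.2 h2).1
      rw [htk', e1] at e2
      exact Sum.inr.inj e2
  have h1 : c k = true := hst.K_true hN htk
  have h2 : c k' = true := hst.K_true hN' htk'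
  rw [← hww] at htk'
  exact hst.out_unique hg hwt htk htk' (h1.trans h2.symm)

end GW
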