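import Pool.Agent.GW.LeafC

/-!
# MP_27938c_co: frozen ports (N4), number of legal ports (L5)
-/

namespace GW

variable {S T I : Type}

theorem N4_proof : Stmt_N4 := by
  intro S T I g hg hS hT c N h k w hk hkw hw
  obtain ⟨hwt, k1, b, hkb, hE, hk1, hb⟩ := id hw
  have hb' : g.hd b = Sum.inl g.s := by simpa using hb
  have hks : g.hd k ≠ Sum.inl g.s := by
    intro hh
    rw [hh] at hk
    exact h.hs (by simpa using hk)
  have hout : ∀ i, g.tl i = Sum.inr w → i = k1 ∨ i = b := by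
    intro i hi
    have : i ∈ g.dual.inE w := by
      show g.dual.hd i = Sum.inl w
      simpa using hi
    rw [hE] at this
    exact this
  have hbw : g.tl b = Sum.inr w := by
    have : b ∈ g.dual.inE w := by rw [hE]; simp
    have h2 : g.dual.hd b = Sum.inl w := this
    simpa using h2
  have hkk : k = k1 := by
    rcases hout k hkw with h1 | h1
    · exact h1
    · rw [h1] at hks
      exact absurd hb' hks
  subst hkk
  have hck : c k = true := h.K_true hk hkw
  have hcb : c b = false := by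
    by_contra hcon
    have h1 : c b = true := by simpa using hcon
    have : k = b := h.out_unique hg hwt hkw hbw (by rw [hck, h1])
    exact hkb this
  obtain ⟨a, ha1, ha2⟩ := hT.exitKt w hw
  have ha1' : g.hd a = Sum.inr w := by simpa using ha1
  have ha2' : g.tl a = Sum.inr g.t := by simpa using ha2
  have hleg : g.LegC c := h.tI
  have hinw : ∀ i, g.hd i = Sum.inr w → i = a := by
    intro i hi
    have h1 : g.dual.inner w = ∅ := hT.dbl w (Or.inr hw)
    have h2 : g.tl i = Sum.inr g.t := by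
      by_contra hcon
      have : i ∈ g.dual.inner w := ⟨by simpa using hi, by simpa using hcon⟩
      rw [h1] at this
      exact this
    exact hT.exitUniq w i a ⟨by simpa using hi, by simpa using h2⟩ ⟨ha1, ha2⟩
  have hca : c a = false := by
    by_contra hcon
    have h1 : c a = true := by simpa using hcon
    have hTI : g.TI ({Sum.inl g.s, Sum.inr w} ∪ SetS T N) := by
      refine ⟨?_, Or.inl (by simp), ?_⟩
      · rw [closed_iff]
        intro y x hB hx
        have hxw : x = w := by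
          rcases hx with hx | hx
          · simpa using hx
          · exact absurd hx (inr_mem_SetS N x)
        subst hxw
        by_cases hys : y = g.s
        · subst hys
          exact Or.inl (by simp)
        · obtain ⟨i, hi1, hi2⟩ := hg.hop hB hys hwt
          rcases hout i hi1 with h2 | h2
          · rw [h2] at hi2
            rw [hi2] at hk
            exact Or.inr hk
          · rw [h2, hb', Sum.inl.injEq] at hi2
            exact absurd hi2.symm hys
      · rintro (h2 | h2)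
        · have : g.t = w := by simpa using h2
          exact hwt this.symm
        · exact inr_mem_SetS N g.t h2
    obtain ⟨i, hi, hi1, hi2⟩ := hleg _ hTI false
    rcases hi1 with (h2 | h2) | h2
    · have : i = b := in_s_unique hg hleg h2 hb' (by rw [hi, hcb])
      rw [this, hbw] at hi2
      exact hi2 (Or.inl (by simp))
    · have : i = a := hinw i h2
      rw [this, h1] at hi
      simp at hi
    · exact h.bad ⟨i, hi, h2, fun h3 => hi2 (Or.inr h3)⟩
  refine ⟨⟨a, ha2', ha1', hca⟩, ⟨b, hbw, hb', hcb⟩, ?_⟩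
  rintro k' ⟨u', w', hk1', hk2', _, hw't⟩ ⟨W, hW, _, hWi⟩
  by_cases hwW : Sum.inr w ∈ W
  · obtain ⟨h1, _⟩ := hWi a hca (by rw [ha1']; exact hwW) (by rw [ha2']; exact hW.2.2)
    rw [ha2', hk1', Sum.inr.injEq] at h1
    exact hw't h1.symm
  · obtain ⟨_, x, hx⟩ := hWi b hcb (by rw [hb']; exact hW.2.1) (by rw [hbw]; exact hwW)
    rw [hb'] at hx
    simp at hx

/-- of two ports that are not at the `+` exit, one is legal -/
theorem port_or_port (hStatic : Stmt_Static) (hN4 : Stmt_N4) (hBad : Stmt_Bad)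
    (hMU : Stmt_MUniq) {g : ST S T I} (hg : MinInst g) (hS : g.StrS) (hT : g.dual.StrS)
    {c : I → Bool} {N : Set S} (h : g.SState c N) {k k' : I} {u u' : S} {w w' : T}
    (hkk : k ≠ k') (hu : u ∈ N) (hu' : u' ∈ N)
    (hku : g.hd k = Sum.inl u) (hkw : g.tl k = Sum.inr w) (hwt : w ≠ g.t) (hfu : g.FlpS u)
    (hpu : ¬ g.PExit c u)
    (hku' : g.hd k' = Sum.inl u') (hkw' : g.tl k' = Sum.inr w') (hwt' : w' ≠ g.t)
    (hfu' : g.FlpS u') (hpu' : ¬ g.PExit c u') :
    g.PortS c N k ∨ g.PortS c N k' := by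
  have hkN : g.hd k ∈ SetS T N := by rw [hku]; simpa using hu
  have hkN' : g.hd k' ∈ SetS T N := by rw [hku']; simpa using hu'
  have hK : g.IsK k := ⟨u, w, hkw, hku, h.ne_s hu, hwt⟩
  have hK' : g.IsK k' := ⟨u', w', hkw', hku', h.ne_s hu', hwt'⟩
  by_contra hcon
  push Not at hcon
  obtain ⟨h1, h2⟩ := hcon
  by_cases hz : g.dual.DblKt w
  · obtain ⟨_, ⟨b, hb1, hb2, hb3⟩, hM⟩ := hN4 S T I g hg hS hT c N h k w hkN hkw hz
    by_cases hz' : g.dual.DblKt w'
    · obtain ⟨_, ⟨b', hb1', hb2', hb3'⟩, _⟩ := hN4 S T I g hg hS hT c N h k' w' hkN' hkw' hz'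
      have hbb : b = b' := in_s_unique hg h.tI hb2 hb2' (by rw [hb3, hb3'])
      subst hbb
      rw [hb1, Sum.inr.injEq] at hb1'
      subst hb1'
      apply hkk
      exact h.out_unique hg hwt hkw hkw' (by rw [h.K_true hkN hkw, h.K_true hkN' hkw'])
    · rcases bad_cases hStatic hBad hg hS hT h hu' hku' hkw' hwt' hfu' hz' h2 with h3 | h3
      · exact hM k' hK' h3
      · exact hpu' h3
  · rcases bad_cases hStatic hBad hg hS hT h hu hku hkw hwt hfu hz h1 with h3 | h3
    · by_cases hz' : g.dual.DblKt w'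
      · obtain ⟨_, _, hM⟩ := hN4 S T I g hg hS hT c N h k' w' hkN' hkw' hz'
        exact hM k hK h3
      · rcases bad_cases hStatic hBad hg hS hT h hu' hku' hkw' hwt' hfu' hz' h2 with h4 | h4
        · have hfw : g.dual.FlpS w := (hStatic S T I g hg hS hT c N h k w hkN hkw hwt).resolve_right hz
          have hfw' : g.dual.FlpS w' :=
            (hStatic S T I g hg hS hT c N h k' w' hkN' hkw' hwt').resolve_right hz'
          exact hkk (hMU S T I g hg hS hT c N k k' h
            ⟨u, w, hkw, hku, h.ne_s hu, hwt, hfu, hfw⟩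
            ⟨u', w', hkw', hku', h.ne_s hu', hwt', hfu', hfw'⟩ hkN hkN' h3 h4)
        · exact hpu' h4
    · exact hpu h3

/-- pairs in a node: of two different ones without `+` exit, one gives a legal port -/
theorem pair_or_pair (hStatic : Stmt_Static) (hN4 : Stmt_N4) (hBad : Stmt_Bad)
    (hMU : Stmt_MUniq) {g : ST S T I} (hg : MinInst g) (hS : g.StrS) (hT : g.dual.StrS)
    {c : I → Bool} {N : Set S} (h : g.SState c N) {u u' : S} (huu : u ≠ u') (hu : u ∈ N)
    (hu' : u' ∈ N) (hp : g.Pair u) (hp' : g.Pair u') (he : ¬ g.PExit c u)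
    (he' : ¬ g.PExit c u') :
    (∃ k, g.hd k = Sum.inl u ∧ g.PortS c N k) ∨ (∃ k, g.hd k = Sum.inl u' ∧ g.PortS c N k) := by
  obtain ⟨k, w, hk, hw, hwt⟩ := pair_K hp
  obtain ⟨k', w', hk', hw', hwt'⟩ := pair_K hp'
  have hkk : k ≠ k' := by
    rintro rfl
    rw [hk, Sum.inl.injEq] at hk'
    exact huu hk'
  rcases port_or_port hStatic hN4 hBad hMU hg hS hT h hkk hu hu' hk hw hwt (Or.inl hp) he hk' hw'
    hwt' (Or.inl hp') he' with h1 | h1
  · exact Or.inl ⟨k, hk, h1⟩
  · exact Or.inr ⟨k', hk', h1⟩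

theorem Two2_proof (hNode : Stmt_Node) (hStatic : Stmt_Static) (hN4 : Stmt_N4)
    (hBad : Stmt_Bad) (hMU : Stmt_MUniq) : Stmt_Two2 := by
  intro S T I g hg hS hT c N h hsp hnd
  rcases hNode S T I g hg hS c N h with h1 | h1 | ⟨y, h1⟩
  · exact absurd h1 hnd
  · obtain ⟨hc, hpair, _⟩ := h1
    obtain ⟨x0, hx0⟩ := h.ne
    obtain ⟨x1, hx1, h10, _⟩ := exists_third hc x0 x0
    obtain ⟨x2, hx2, h20, h21⟩ := exists_third hc x0 x1
    have key : ∀ x x', x ∈ N → x' ∈ N → x ≠ x' →
        (∃ k, g.hd k = Sum.inl x ∧ g.PortS c N k) ∨ (∃ k, g.hd k = Sum.inl x' ∧ g.PortS c N k) :=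
      fun x x' hx hx' hxx => pair_or_pair hStatic hN4 hBad hMU hg hS hT h hxx hx hx'
        (hpair x hx) (hpair x' hx') (hsp x hx) (hsp x' hx')
    have fin : ∀ x x', x ≠ x' → (∃ k, g.hd k = Sum.inl x ∧ g.PortS c N k) →
        (∃ k, g.hd k = Sum.inl x' ∧ g.PortS c N k) →
        ∃ k k', k ≠ k' ∧ g.PortS c N k ∧ g.PortS c N k' := by
      rintro x x' hxx ⟨k, hk, hk1⟩ ⟨k', hk', hk1'⟩
      refine ⟨k, k', ?_, hk1, hk1'⟩
      rintro rfl
      rw [hk, Sum.inl.injEq] at hk'
      exact hxx hk'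
    rcases key x0 x1 hx0 hx1 h10.symm with ha | ha
    · rcases key x1 x2 hx1 hx2 h21.symm with hb | hb
      · exact fin x0 x1 h10.symm ha hb
      · exact fin x0 x2 h20.symm ha hb
    · rcases key x0 x2 hx0 hx2 h20.symm with hb | hb
      · exact fin x0 x1 h10.symm hb ha
      · exact fin x1 x2 h21.symm ha hb
  · exact absurd h1.2.2.2.1 (hsp y h1.2.1)

theorem One1_proof (hNode : Stmt_Node) (hStatic : Stmt_Static) (hN4 : Stmt_N4)
    (hBad : Stmt_Bad) (hMU : Stmt_MUniq) : Stmt_One1 := by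
  intro S T I g hg hS hT c N h hnd
  have uniq : ∀ x x', g.PExit c x → g.PExit c x' → x = x' := by
    rintro x x' ⟨a, ⟨ha1, ha2⟩, ha3⟩ ⟨a', ⟨ha1', ha2'⟩, ha3'⟩
    have := in_s_unique hg h.tI ha2 ha2' (by rw [ha3, ha3'])
    subst this
    rw [ha1, Sum.inl.injEq] at ha1'
    exact ha1'
  rcases hNode S T I g hg hS c N h with h1 | h1 | ⟨y, h1⟩
  · exact absurd h1 hnd
  · obtain ⟨hc, hpair, _⟩ := h1
    obtain ⟨x0, hx0⟩ := h.ne
    obtain ⟨x1, hx1, h10, _⟩ := exists_third hc x0 x0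
    obtain ⟨x2, hx2, h20, h21⟩ := exists_third hc x0 x1
    have key : ∀ x x', x ∈ N → x' ∈ N → x ≠ x' → ¬ g.PExit c x → ¬ g.PExit c x' →
        ∃ k, g.PortS c N k := by
      intro x x' hx hx' hxx h2 h3
      rcases pair_or_pair hStatic hN4 hBad hMU hg hS hT h hxx hx hx'
        (hpair x hx) (hpair x' hx') h2 h3 with ⟨k, _, hk⟩ | ⟨k, _, hk⟩
      · exact ⟨k, hk⟩
      · exact ⟨k, hk⟩
    by_cases e0 : g.PExit c x0
    · exact key x1 x2 hx1 hx2 h21.symm (fun e1 => h10 (uniq _ _ e1 e0))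
        (fun e2 => h20 (uniq _ _ e2 e0))
    · by_cases e1 : g.PExit c x1
      · exact key x0 x2 hx0 hx2 h20.symm e0 (fun e2 => h21 (uniq _ _ e2 e1))
      · exact key x0 x1 hx0 hx1 h10.symm e0 e1
  · obtain ⟨hc, hyN, hy, hye, hpr, _⟩ := h1
    obtain ⟨x, hx, hxy, _⟩ := exists_third hc y y
    obtain ⟨x', hx', hxy', hxx'⟩ := exists_third hc y x
    obtain ⟨hp, hne⟩ := hpr x hx hxy
    obtain ⟨hp', hne'⟩ := hpr x' hx' hxy'
    rcases pair_or_pair hStatic hN4 hBad hMU hg hS hT h hxx'.symm hx hx' hp hp'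
      (fun ⟨a, ha, _⟩ => hne ⟨a, ha⟩) (fun ⟨a, ha, _⟩ => hne' ⟨a, ha⟩) with ⟨k, _, hk⟩ | ⟨k, _, hk⟩
    · exact ⟨k, hk⟩
    · exact ⟨k, hk⟩

end GW
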