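import Pool.Agent.GW.Dual

/-!
# MP_27938c_co: inner part, (N1)-(N3): the shape of the node of an S-state
-/

namespace GW

variable {S T I : Type}

namespace Node

/-- minus items entering a vertex of `N` start in `N` -/
theorem tl_mem {g : ST S T I} {c : I → Bool} {N : Set S} (h : g.SState c N) {i : I}
    (hi : c i = false) (hh : g.hd i ∈ SetS T N) : g.tl i ∈ SetS T N := by
  by_contra hcon
  exact h.bad ⟨i, hi, hh, hcon⟩

theorem exists_inl {N : Set S} {x : S ⊕ T} (hx : x ∈ SetS T N) : ∃ v ∈ N, x = Sum.inl v := by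
  obtain ⟨v, hv, rfl⟩ := hx
  exact ⟨v, hv, rfl⟩

/-- local description of a vertex of a node with at least two vertices -/
theorem loc {g : ST S T I} (hS : g.StrS) {c : I → Bool} {N : Set S}
    (h : g.SState c N) (hN : ∀ u, N ≠ {u}) {v : S} (hv : v ∈ N) :
    ∃ p m v', p ≠ m ∧ g.inE v = {p, m} ∧ c p = true ∧ c m = false ∧ g.tl m = Sum.inl v' ∧
      v' ∈ N ∧ ((g.Pair v ∧ g.IsK p ∧ g.IsIn m) ∨ (g.Single v ∧ g.IsIn p ∧ g.IsIn m)) := by
  have hvs : v ≠ g.s := fun he => h.hs (he ▸ hv)
  have hm : g.Hit c false (SetS T {v}) := by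
    by_contra hcon
    have := h.min {v} (by simpa using fun he : g.s = v => hvs he.symm) ⟨v, rfl⟩ hcon
    apply hN v
    apply Set.Subset.antisymm this
    simpa using hv
  obtain ⟨m, hcm, hhm, -⟩ := hm
  obtain ⟨p, hcp, hhp, -⟩ := h.tII {v} (by simpa using fun he : g.s = v => hvs he.symm) ⟨v, rfl⟩
  have hhm' : g.hd m = Sum.inl v := by
    obtain ⟨u, hu, he⟩ := exists_inl hhm
    rw [he, Set.mem_singleton_iff.1 hu]
  have hhp' : g.hd p = Sum.inl v := by
    obtain ⟨u, hu, he⟩ := exists_inl hhp
    rw [he, Set.mem_singleton_iff.1 hu]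
  have hpm : p ≠ m := by
    rintro rfl
    rw [hcp] at hcm
    exact Bool.noConfusion hcm
  obtain ⟨v', hv', htm⟩ := exists_inl (tl_mem h hcm (by rw [hhm']; simpa using hv))
  have hmi : m ∈ g.inE v := hhm'
  have hpi : p ∈ g.inE v := hhp'
  have hnotK : ¬ g.IsK m := by
    rintro ⟨u, w, h1, -⟩
    rw [htm] at h1
    exact absurd h1 (by simp)
  rcases hS.cases v hvs with hp | hp | hp | hp
  · obtain ⟨h0, k, x, hkx, hin, hK, hX⟩ := hp
    have hmx : m = x := by
      rw [hin] at hmi
      rcases hmi with rfl | hmi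
      · exact absurd hK hnotK
      · exact hmi
    subst hmx
    have hpk : p = k := by
      rw [hin] at hpi
      rcases hpi with hpi | hpi
      · exact hpi
      · exact absurd hpi hpm
    subst hpk
    exact ⟨p, m, v', hpm, hin, hcp, hcm, htm, hv', Or.inl ⟨⟨h0, p, m, hkx, hin, hK, hX⟩, hK, hX⟩⟩
  · have hp' := hp
    obtain ⟨h0, x, x', hxx, hin, hX, hX'⟩ := hp
    rw [hin] at hmi hpi
    rcases hmi with rfl | hmi
    · have hpx : p = x' := by
        rcases hpi with hpi | hpi
        · exact absurd hpi hpm
        · exact hpi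
      subst hpx
      exact ⟨p, m, v', hpm, by rw [hin, Set.pair_comm], hcp, hcm, htm, hv',
        Or.inr ⟨hp', hX', hX⟩⟩
    · have hmi : m = x' := hmi
      subst hmi
      have hpx : p = x := by
        rcases hpi with hpi | hpi
        · exact hpi
        · exact absurd hpi hpm
      subst hpx
      exact ⟨p, m, v', hpm, hin, hcp, hcm, htm, hv', Or.inr ⟨hp', hX, hX'⟩⟩
  · obtain ⟨-, k, k', -, hin, hK, hK'⟩ := hp
    rw [hin] at hmi
    rcases hmi with rfl | hmi
    · exact absurd hK hnotK
    · have hmi : m = k' := hmi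
      subst hmi
      exact absurd hK' hnotK
  · obtain ⟨-, k, a, -, hin, hK, ha⟩ := hp
    rw [hin] at hmi
    rcases hmi with rfl | hmi
    · exact absurd hK hnotK
    · have hmi : m = a := hmi
      subst hmi
      rw [htm] at ha
      exact absurd ha (by simp)

/-- every vertex of `N` is the tail of a minus in-item of a vertex of `N` -/
theorem surj {g : ST S T I} (hS : g.StrS) {c : I → Bool} {N : Set S}
    (h : g.SState c N) (hN : ∀ u, N ≠ {u}) {v : S} (hv : v ∈ N) :
    ∃ i, c i = false ∧ g.tl i = Sum.inl v ∧ g.hd i ∈ SetS T N := by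
  have key : N ⊆ {v | ∃ i, c i = false ∧ g.tl i = Sum.inl v ∧ g.hd i ∈ SetS T N} := by
    apply h.min
    · rintro ⟨i, -, h1, -⟩
      exact hS.noS i h1
    · obtain ⟨u, hu⟩ := h.ne
      obtain ⟨p, m, v', hpm, hin, hcp, hcm, htm, hv', -⟩ := loc hS h hN hu
      refine ⟨v', m, hcm, htm, ?_⟩
      have : m ∈ g.inE u := by rw [hin]; simp
      rw [show g.hd m = Sum.inl u from this]
      simpa using hu
    · rintro ⟨i, hci, hhi, hti⟩
      obtain ⟨u, ⟨j, hcj, htj, hhj⟩, he⟩ := exists_inl hhi
      have hu : u ∈ N := by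
        have := tl_mem h hcj hhj
        rw [htj] at this
        simpa using this
      have h1 := tl_mem h hci (by rw [he]; simpa using hu)
      obtain ⟨v', hv', he'⟩ := exists_inl h1
      apply hti
      rw [he']
      simp only [inl_mem_SetS]
      exact ⟨i, hci, he', by rw [he]; simpa using hu⟩
  exact key hv

/-- exits of vertices of `N` are plus, and there is only one -/
theorem exits {g : ST S T I} (hg : MinInst g) {c : I → Bool} {N : Set S}
    (h : g.SState c N) : ∃ i1, c i1 = true ∧ ∀ v ∈ N, ∀ e, g.Exit v e → e = i1 := by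
  have := hg.finI
  have hN0 : g.TI ({Sum.inl g.s} ∪ SetS T N) := by
    refine ⟨?_, Or.inl rfl, ?_⟩
    · rw [closed_iff]
      rintro u w - (hw | hw)
      · exact absurd (Set.mem_singleton_iff.1 hw) (by simp)
      · exact absurd hw (inr_mem_SetS N w)
    · rintro (hw | hw)
      · exact absurd (Set.mem_singleton_iff.1 hw) (by simp)
      · exact absurd hw (inr_mem_SetS N g.t)
  have hs0 : g.TI {Sum.inl g.s} := by
    refine ⟨?_, rfl, ?_⟩
    · rw [closed_iff]
      intro u w _ hw
      exact absurd (Set.mem_singleton_iff.1 hw) (by simp)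
    · intro hw
      exact absurd (Set.mem_singleton_iff.1 hw) (by simp)
  obtain ⟨i0, hc0, hh0, ht0⟩ := h.tI _ hN0 false
  obtain ⟨i1, hc1, hh1, ht1⟩ := h.tI _ hs0 true
  have hh0' : g.hd i0 = Sum.inl g.s := by
    rcases hh0 with hh0 | hh0
    · exact hh0
    · exact absurd (Or.inr (tl_mem h hc0 hh0)) ht0
  have h01 : i0 ≠ i1 := by
    rintro rfl
    rw [hc0] at hc1
    exact Bool.noConfusion hc1
  have hin : g.inE g.s = {i0, i1} := by
    symm
    apply Set.eq_of_subset_of_ncard_le
    · rintro i (rfl | hi)
      · exact hh0'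
      · rw [Set.mem_singleton_iff.1 hi]
        exact hh1
    · rw [hg.inE_card, Set.ncard_pair h01]
    · exact Set.toFinite _
  refine ⟨i1, hc1, fun v hv e he => ?_⟩
  have hei : e ∈ g.inE g.s := he.2
  rw [hin] at hei
  rcases hei with rfl | hei
  · exfalso
    apply ht0
    right
    rw [he.1]
    simpa using hv
  · exact hei

theorem Node_aux {g : ST S T I} (hg : MinInst g) (hS : g.StrS) {c : I → Bool} {N : Set S}
    (h : g.SState c N) : g.NDbl c N ∨ g.NPlain c N ∨ ∃ y, g.NLoop c N y := by
  have := hg.finI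
  have := hg.finS
  by_cases hN1 : ∃ u, N = {u}
  · left
    obtain ⟨u, hu⟩ := hN1
    refine ⟨u, hu, h.star u hu, fun i hi => ?_⟩
    by_contra hc
    have hc' : c i = false := by simpa using hc
    have := tl_mem h hc' (by rw [hi, hu]; simp)
    obtain ⟨v, hv, he⟩ := exists_inl this
    rw [hu, Set.mem_singleton_iff] at hv
    subst hv
    exact hg.noloop i (he.trans hi.symm)
  right
  have hN : ∀ u, N ≠ {u} := fun u hu => hN1 ⟨u, hu⟩
  obtain ⟨i1, hc1, hex⟩ := exits hg h
  -- the uniqueness statements
  have upos : ∀ v ∈ N, ∀ i j, g.hd i = Sum.inl v → g.hd j = Sum.inl v → c i = true →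
      c j = true → i = j := by
    intro v hv i j hi hj hci hcj
    obtain ⟨p, m, v', hpm, hin, hcp, hcm, htm, hv', -⟩ := loc hS h hN hv
    have hi' : i ∈ g.inE v := hi
    have hj' : j ∈ g.inE v := hj
    rw [hin] at hi' hj'
    rcases hi' with rfl | hi'
    · rcases hj' with rfl | hj'
      · rfl
      · have hj' : j = m := hj'
        subst hj'
        rw [hcm] at hcj
        exact Bool.noConfusion hcj
    · have hi' : i = m := hi'
      subst hi'
      rw [hcm] at hci
      exact Bool.noConfusion hci
  have uneg : ∀ v ∈ N, ∀ i j, g.hd i = Sum.inl v → g.hd j = Sum.inl v → c i = false →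
      c j = false → i = j := by
    intro v hv i j hi hj hci hcj
    obtain ⟨p, m, v', hpm, hin, hcp, hcm, htm, hv', -⟩ := loc hS h hN hv
    have hi' : i ∈ g.inE v := hi
    have hj' : j ∈ g.inE v := hj
    rw [hin] at hi' hj'
    rcases hi' with rfl | hi'
    · rw [hcp] at hci
      exact Bool.noConfusion hci
    · have hi' : i = m := hi'
      subst hi'
      rcases hj' with rfl | hj'
      · rw [hcp] at hcj
        exact Bool.noConfusion hcj
      · exact Eq.symm hj'
  -- number of elements
  have hcard : 3 ≤ N.ncard := by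
    obtain ⟨u, hu⟩ := h.ne
    have : ∃ v ∈ N, v ≠ u := by
      by_contra hcon
      push Not at hcon
      apply hN u
      ext x
      exact ⟨fun hx => hcon x hx, fun hx => by rw [Set.mem_singleton_iff.1 hx]; exact hu⟩
    obtain ⟨v, hv, hvu⟩ := this
    have h3 := hg.three_le_SetS h.hs hu hv hvu.symm
    have hle : (Ent g.tl g.hd (SetS T N)).ncard ≤ (SetS T N).ncard := by
      refine Set.ncard_le_ncard_of_injOn g.hd ?_ ?_ ((Set.toFinite N).image _)
      · intro i hi
        exact hi.1
      · intro i hi j hj hij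
        obtain ⟨v, hv, he⟩ := exists_inl hi.1
        have hpi : c i = true := by
          by_contra hcon
          exact hi.2 (tl_mem h (by simpa using hcon) hi.1)
        have hpj : c j = true := by
          by_contra hcon
          exact hj.2 (tl_mem h (by simpa using hcon) hj.1)
        exact upos v hv i j he (by rw [← hij, he]) hpi hpj
    have h4 : (SetS T N).ncard = N.ncard := Set.ncard_image_of_injective _ Sum.inl_injective
    unfold ST.d at h3
    omega
  -- items leaving a pair of `N`
  have houtP : ∀ v ∈ N, g.Pair v → ∀ i, g.tl i = Sum.inl v → g.hd i ≠ Sum.inl g.s →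
      c i = false ∧ g.hd i ∈ SetS T N := by
    intro v hv hp i hi hi'
    obtain ⟨j, hcj, htj, hhj⟩ := surj hS h hN hv
    obtain ⟨l, hl⟩ := hS.pair v hp
    have h1 : i ∈ g.inner v := ⟨hi, hi'⟩
    have h2 : j ∈ g.inner v := by
      refine ⟨htj, fun he => ?_⟩
      rw [he] at hhj
      exact h.hs (by simpa using hhj)
    rw [hl, Set.mem_singleton_iff] at h1 h2
    rw [h1, ← h2]
    exact ⟨hcj, hhj⟩
  -- items entering a pair of `N`
  have hinP : ∀ v ∈ N, g.Pair v → ∀ i, g.hd i = Sum.inl v →
      (c i = true ∧ g.IsK i) ∨ (c i = false ∧ g.IsIn i ∧ g.tl i ∈ SetS T N ∧ ¬ g.IsK i) := by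
    intro v hv hp i hi
    obtain ⟨p, m, v', hpm, hin, hcp, hcm, htm, hv', hcase⟩ := loc hS h hN hv
    have hi' : i ∈ g.inE v := hi
    have hcase' : g.IsK p ∧ g.IsIn m := by
      rcases hcase with ⟨-, h1, h2⟩ | ⟨-, h1, h2⟩
      · exact ⟨h1, h2⟩
      · exfalso
        obtain ⟨-, k, x, -, hin', hK, -⟩ := hp
        have : k ∈ g.inE v := by rw [hin']; simp
        rw [hin] at this
        obtain ⟨u, w, h3, -⟩ := hK
        rcases this with rfl | this
        · obtain ⟨a, b, h4, -⟩ := h1
          rw [h3] at h4
          exact absurd h4 (by simp)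
        · have this : k = m := this
          subst this
          rw [h3] at htm
          exact absurd htm (by simp)
    rw [hin] at hi'
    rcases hi' with rfl | hi'
    · exact Or.inl ⟨hcp, hcase'.1⟩
    · have hi' : i = m := hi'
      subst hi'
      refine Or.inr ⟨hcm, hcase'.2, by rw [htm]; simpa using hv', ?_⟩
      rintro ⟨u, w, h3, -⟩
      rw [h3] at htm
      exact absurd htm (by simp)
  have hPS : ∀ v ∈ N, g.Pair v ∨ g.Single v := by
    intro v hv
    obtain ⟨p, m, v', hpm, hin, hcp, hcm, htm, hv', hcase⟩ := loc hS h hN hv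
    rcases hcase with ⟨h1, -⟩ | ⟨h1, -⟩
    · exact Or.inl h1
    · exact Or.inr h1
  by_cases hy : ∃ y ∈ N, g.Single y
  · right
    obtain ⟨y, hyN, hy⟩ := hy
    obtain ⟨e, he⟩ := hS.exitSingle y hy
    have hei : e = i1 := hex y hyN e he
    -- the other vertices are pairs
    have hoth : ∀ v ∈ N, v ≠ y → g.Pair v ∧ ¬ ∃ e, g.Exit v e := by
      intro v hv hvy
      have hnex : ¬ ∃ e, g.Exit v e := by
        rintro ⟨e', he'⟩
        have h1 := hex v hv e' he'
        have h2 := he'.1
        rw [h1, ← hei, he.1, Sum.inl.injEq] at h2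
        exact hvy h2.symm
      refine ⟨?_, hnex⟩
      rcases hPS v hv with h1 | h1
      · exact h1
      · exact absurd (hS.exitSingle v h1) hnex
    refine ⟨y, hcard, hyN, hy, ⟨e, he, by rw [hei]; exact hc1⟩, hoth, ?_, ?_, ?_, ?_, ?_⟩
    · intro i hi ht hty
      obtain ⟨v, hv, hev⟩ := exists_inl ht
      have hvy : v ≠ y := fun hh => hty (by rw [hev, hh])
      obtain ⟨a, b, h1, h2, h3, h4⟩ := hi
      exact (houtP v hv (hoth v hv hvy).1 i hev (by
        rw [h2]
        intro hh
        exact h3 (Sum.inl_injective hh))).2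
    · intro i hi hh hhy
      obtain ⟨v, hv, hev⟩ := exists_inl hh
      have hvy : v ≠ y := fun hh => hhy (by rw [hev, hh])
      rcases hinP v hv (hoth v hv hvy).1 i hev with h1 | h1
      · obtain ⟨u, w, h2, -⟩ := h1.2
        obtain ⟨a, b, h3, -⟩ := hi
        rw [h2] at h3
        exact absurd h3 (by simp)
      · exact h1.2.2.1
    · intro i hh hhy
      obtain ⟨v, hv, hev⟩ := exists_inl hh
      have hvy : v ≠ y := fun hh => hhy (by rw [hev, hh])
      rcases hinP v hv (hoth v hv hvy).1 i hev with h1 | h1
      · exact ⟨fun _ => h1.2, fun _ => h1.1⟩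
      · refine ⟨fun hh' => ?_, fun hh' => absurd hh' h1.2.2.2⟩
        rw [h1.1] at hh'
        exact Bool.noConfusion hh'
    · intro i hi
      refine ⟨fun hci => tl_mem h hci (by rw [hi]; simpa using hyN), fun ht => ?_⟩
      obtain ⟨v, hv, hev⟩ := exists_inl ht
      have hvy : v ≠ y := by
        rintro rfl
        exact hg.noloop i (hev.trans hi.symm)
      refine (houtP v hv (hoth v hv hvy).1 i hev ?_).1
      rw [hi]
      intro hh
      exact hy.1 (Sum.inl_injective hh)
    · obtain ⟨i, j, hij, hin⟩ := hS.single y hy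
      obtain ⟨l, hcl, htl, hhl⟩ := surj hS h hN hyN
      have hl : l ∈ g.inner y := by
        refine ⟨htl, fun hh => ?_⟩
        rw [hh] at hhl
        exact h.hs (by simpa using hhl)
      -- the other inner out-item leaves `N`
      have hother : ∀ j ∈ g.inner y, g.hd j ∈ SetS T N → j = l := by
        intro j hj hhj
        obtain ⟨v, hv, hev⟩ := exists_inl hhj
        obtain ⟨w, hw, hew⟩ := exists_inl hhl
        have hcj : c j = false := by
          have hvy : v ≠ y := by
            rintro rfl
            exact hg.noloop j (hj.1.trans hev.symm)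
          rcases hinP v hv (hoth v hv hvy).1 j hev with h1 | h1
          · obtain ⟨u, w, h2, -⟩ := h1.2
            rw [hj.1] at h2
            exact absurd h2 (by simp)
          · exact h1.1
        -- count: the minus items with tail and head in `N`
        by_contra hjl
        -- the map `v ↦ tail of the minus in-item` is a bijection of `N`
        have hf : ∀ v : N, ∃ w : N, ∃ i, c i = false ∧ g.tl i = Sum.inl (v : S) ∧
            g.hd i = Sum.inl (w : S) := by
          intro v
          obtain ⟨i, h1, h2, h3⟩ := surj hS h hN v.2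
          obtain ⟨w, hw, he⟩ := exists_inl h3
          exact ⟨⟨w, hw⟩, i, h1, h2, he⟩
        choose F G hG1 hG2 hG3 using hf
        have hFinj : Function.Injective F := by
          intro a b hab
          have h1 : G a = G b := by
            apply uneg (F a) (F a).2 _ _ (hG3 a) _ (hG1 a) (hG1 b)
            rw [hG3 b, hab]
          have h2 := hG2 a
          rw [h1, hG2 b, Sum.inl.injEq] at h2
          exact Subtype.ext h2.symm
        have hFsurj : Function.Surjective F := Finite.surjective_of_injective hFinj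
        -- both `j` and `l` are equal to `G y`
        have hboth : ∀ i ∈ g.inner y, g.hd i ∈ SetS T N → c i = false →
            i = G ⟨y, hyN⟩ := by
          intro i hi hhi hci
          obtain ⟨x, hx, hex⟩ := exists_inl hhi
          obtain ⟨a, ha⟩ := hFsurj ⟨x, hx⟩
          have h1 : i = G a := by
            apply uneg x hx _ _ hex _ hci (hG1 a)
            rw [hG3 a, ha]
          have h2 := hG2 a
          rw [← h1, hi.1, Sum.inl.injEq] at h2
          have h3 : a = ⟨y, hyN⟩ := Subtype.ext h2.symm
          rw [h1, h3]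
        exact hjl ((hboth j hj hhj hcj).trans (hboth l hl hhl hcl).symm)
      have hl' := hl
      rw [hin] at hl'
      rcases hl' with rfl | hl'
      · refine ⟨l, j, hij, hin, hhl, fun hhj => hij ?_⟩
        exact (hother j (by rw [hin]; simp) hhj).symm
      · have hl' : l = j := hl'
        subst hl'
        refine ⟨l, i, hij.symm, by rw [hin, Set.pair_comm], hhl, fun hhi => hij ?_⟩
        exact hother i (by rw [hin]; simp) hhi
  · left
    have hP : ∀ v ∈ N, g.Pair v := by
      intro v hv
      rcases hPS v hv with h1 | h1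
      · exact h1
      · exact absurd ⟨v, hv, h1⟩ hy
    refine ⟨hcard, hP, ?_, ?_, ?_⟩
    · intro i hi
      constructor
      · intro ht
        obtain ⟨v, hv, hev⟩ := exists_inl ht
        obtain ⟨a, b, h1, h2, h3, h4⟩ := hi
        exact (houtP v hv (hP v hv) i hev (by
          rw [h2]
          intro hh
          exact h3 (Sum.inl_injective hh))).2
      · intro hh
        obtain ⟨v, hv, hev⟩ := exists_inl hh
        rcases hinP v hv (hP v hv) i hev with h1 | h1
        · obtain ⟨u, w, h2, -⟩ := h1.2
          obtain ⟨a, b, h3, -⟩ := hi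
          rw [h2] at h3
          exact absurd h3 (by simp)
        · exact h1.2.2.1
    · intro i hh
      obtain ⟨v, hv, hev⟩ := exists_inl hh
      rcases hinP v hv (hP v hv) i hev with h1 | h1
      · exact ⟨fun _ => h1.2, fun _ => h1.1⟩
      · refine ⟨fun hh' => ?_, fun hh' => absurd hh' h1.2.2.2⟩
        rw [h1.1] at hh'
        exact Bool.noConfusion hh'
    · intro v hv e he
      rw [hex v hv e he]
      exact hc1

end Node

theorem Node_proof : Stmt_Node := fun _ _ _ _ hg hS _ _ h => Node.Node_aux hg hS h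

end GW
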