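import Pool.Agent.GW.Near

/-!
# MP_27938c_co: module ROOT (an inner X item gives an S-state that is not a double)
-/

namespace GW

variable {S T I : Type}

/-- the root state, for an inner X item whose colour is minus after retargeting -/
theorem root_aux (g : ST S T I) (hg : MinInst g) (e : I) (z v : S) (htl : g.tl e = Sum.inl z)
    (hhd : g.hd e = Sum.inl v) (c : I → Bool) (hce : c e = false)
    (h1 : ∀ Z, g.TI Z → ∀ b, g.Hit c b Z)
    (h3 : ∀ C : Set T, g.t ∉ C → C.Nonempty → ∀ b, g.Hit c b (SetT S C))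
    (h2 : ∀ A : Set S, g.s ∉ A → A.Nonempty → ∀ b, ¬ g.Hit c b (SetS T A) →
        b = c e ∧ v ∈ A ∧ z ∈ A) :
    ∃ (c : I → Bool) (N : Set S), g.SState c N ∧ ¬ g.NDbl c N := by
  have hvz : v ≠ z := by
    rintro rfl
    exact hg.noloop e (by rw [htl, hhd])
  -- the bad sets
  let N : Set S := {u | ∀ A : Set S, g.s ∉ A → A.Nonempty → ¬ g.Hit c false (SetS T A) → u ∈ A}
  have hvN : v ∈ N := fun A hA hAn hb => (h2 A hA hAn false hb).2.1
  have hzN : z ∈ N := fun A hA hAn hb => (h2 A hA hAn false hb).2.2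
  have hone : ∀ u, N ≠ {u} := by
    intro u hu
    rw [hu] at hvN hzN
    rw [Set.mem_singleton_iff] at hvN hzN
    exact hvz (hvN.trans hzN.symm)
  have hII : ∀ A : Set S, g.s ∉ A → A.Nonempty → g.Hit c true (SetS T A) := by
    intro A hA hAn
    by_contra hb
    have := (h2 A hA hAn true hb).1
    rw [hce] at this
    exact absurd this (by simp)
  obtain ⟨A0, hA0, hA0n, hA0b⟩ : ∃ A : Set S, g.s ∉ A ∧ A.Nonempty ∧
      ¬ g.Hit c false (SetS T A) := by
    by_contra hcon
    push Not at hcon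
    apply hg.bad c
    rw [goodB_iff]
    refine ⟨h1, ?_, h3⟩
    intro A hA hAn b
    cases b with
    | true => exact hII A hA hAn
    | false => exact hcon A hA hAn
  refine ⟨c, N, ⟨?_, ⟨v, hvN⟩, h1, hII, h3, ?_, ?_, ?_⟩, ?_⟩
  · exact fun hs => hA0 (hs A0 hA0 hA0n hA0b)
  · rintro ⟨i, hi, hh, ht⟩
    obtain ⟨x, hx, hxi⟩ := hh
    rcases hti : g.tl i with y | w
    · have hy : y ∉ N := by
        intro hy
        exact ht (by rw [hti]; simpa using hy)
      apply hy
      intro A hA hAn hb
      by_contra hyA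
      apply hb
      refine ⟨i, hi, ?_, ?_⟩
      · rw [← hxi]
        simpa using hx A hA hAn hb
      · rw [hti]
        simpa using hyA
    · apply hA0b
      refine ⟨i, hi, ?_, ?_⟩
      · rw [← hxi]
        simpa using hx A0 hA0 hA0n hA0b
      · rw [hti]
        exact inr_mem_SetS A0 w
  · intro A hA hAn hb u hu
    exact hu A hA hAn hb
  · intro u hu
    exact absurd hu (hone u)
  · rintro ⟨u, hu, _⟩
    exact hone u hu

theorem Root_proof : Stmt_Root := by
  intro S T I g hg _ _ e ⟨v, z, htl, hhd, hv, hz⟩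
  obtain ⟨c, h1, h3, h2⟩ := Near_proof S T I g hg e z v htl hhd hz hv
  cases hce : c e with
  | false => exact root_aux g hg e z v htl hhd c hce h1 h3 h2
  | true =>
    refine root_aux g hg e z v htl hhd (fun i => !c i) (by simp [hce]) ?_ ?_ ?_
    · intro Z hZ b
      rw [hit_neg]
      exact h1 Z hZ _
    · intro C hC hCn b
      rw [hit_neg]
      exact h3 C hC hCn _
    · intro A hA hAn b hb
      rw [hit_neg] at hb
      obtain ⟨h4, h5, h6⟩ := h2 A hA hAn _ hb
      refine ⟨?_, h5, h6⟩
      show b = !c e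
      rw [← h4, Bool.not_not]

end GW
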