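import Pool.Agent.GW.Tiny

/-!
# MP_27938c_co: (L6), plain T-doubles are static
-/

namespace GW

variable {S T I : Type}

theorem mem_SetS_iff' {x : S ⊕ T} {N : Set S} : x ∈ SetS T N ↔ ∃ u, u ∈ N ∧ x = Sum.inl u := by
  constructor
  · rintro ⟨u, hu, rfl⟩
    exact ⟨u, hu, rfl⟩
  · rintro ⟨u, hu, rfl⟩
    exact ⟨u, hu, rfl⟩

/-- number of items from `X` to `Y` -/
noncomputable def eXY (g : ST S T I) (X Y : Set S) : ℕ :=
  {i | g.tl i ∈ SetS T X ∧ g.hd i ∈ SetS T Y}.ncard

theorem d_split {g : ST S T I} (hg : MinInst g) {A1 A2 : Set S} (hdis : Disjoint A1 A2) :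
    g.d (SetS T A1) + g.d (SetS T A2) ≤
      g.d (SetS T (A1 ∪ A2)) + eXY g A2 A1 + eXY g A1 A2 := by
  have hfI := hg.finI
  have hu : SetS T (A1 ∪ A2) = SetS T A1 ∪ SetS T A2 := Set.image_union _ _ _
  have hd : Disjoint (SetS T A1) (SetS T A2) := by
    rw [Set.disjoint_left]
    rintro x ⟨u, hu, rfl⟩ h2
    exact Set.disjoint_left.1 hdis hu (by simpa using h2)
  let P1 : Set I := {i | g.hd i ∈ SetS T A1 ∧ g.tl i ∉ SetS T (A1 ∪ A2)}
  let P2 : Set I := {i | g.hd i ∈ SetS T A2 ∧ g.tl i ∉ SetS T (A1 ∪ A2)}
  have h1 : g.d (SetS T A1) ≤ P1.ncard + eXY g A2 A1 := by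
    refine le_trans (Set.ncard_le_ncard (t := P1 ∪ {i | g.tl i ∈ SetS T A2 ∧ g.hd i ∈ SetS T A1})
      ?_) (Set.ncard_union_le _ _)
    rintro i ⟨hi1, hi2⟩
    by_cases h : g.tl i ∈ SetS T A2
    · exact Or.inr ⟨h, hi1⟩
    · left
      refine ⟨hi1, ?_⟩
      rw [hu]
      rintro (h' | h')
      · exact hi2 h'
      · exact h h'
  have h2 : g.d (SetS T A2) ≤ P2.ncard + eXY g A1 A2 := by
    refine le_trans (Set.ncard_le_ncard (t := P2 ∪ {i | g.tl i ∈ SetS T A1 ∧ g.hd i ∈ SetS T A2})
      ?_) (Set.ncard_union_le _ _)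
    rintro i ⟨hi1, hi2⟩
    by_cases h : g.tl i ∈ SetS T A1
    · exact Or.inr ⟨h, hi1⟩
    · left
      refine ⟨hi1, ?_⟩
      rw [hu]
      rintro (h' | h')
      · exact h h'
      · exact hi2 h'
  have h3 : P1.ncard + P2.ncard = g.d (SetS T (A1 ∪ A2)) := by
    have hP : Disjoint P1 P2 := by
      rw [Set.disjoint_left]
      rintro i ⟨hi, -⟩ ⟨hi', -⟩
      exact Set.disjoint_left.1 hd hi hi'
    rw [← Set.ncard_union_eq hP]
    unfold ST.d
    congr 1
    ext i
    simp only [P1, P2, Ent, hu, Set.mem_union, Set.mem_ofPred_eq]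
    tauto
  omega

theorem eXY_zero {g : ST S T I} {X Y : Set S}
    (h : ∀ i, g.tl i ∈ SetS T X → g.hd i ∈ SetS T Y → False) : eXY g X Y = 0 := by
  unfold eXY
  have : {i | g.tl i ∈ SetS T X ∧ g.hd i ∈ SetS T Y} = ∅ := by
    ext i
    simp only [Set.mem_ofPred_eq, Set.mem_empty_iff_false, iff_false]
    exact fun hi => h i hi.1 hi.2
  rw [this, Set.ncard_empty]

theorem eXY_le_one {g : ST S T I} {X Y : Set S} {a : I}
    (h : ∀ i, g.tl i ∈ SetS T X → g.hd i ∈ SetS T Y → i = a) : eXY g X Y ≤ 1 := by
  unfold eXY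
  have : {i | g.tl i ∈ SetS T X ∧ g.hd i ∈ SetS T Y} ⊆ {a} := fun i hi => h i hi.1 hi.2
  calc _ ≤ ({a} : Set I).ncard := Set.ncard_le_ncard this
    _ = 1 := Set.ncard_singleton _

/-- a sink with two parallel K out-items and no in-item does not exist -/
theorem no_parallel {g : ST S T I} (hg : MinInst g) (hS : g.StrS) (hT : g.dual.StrS) {w : T}
    {u : S} {k k' : I} (hwt : w ≠ g.t) (hus : u ≠ g.s) (hkk : k ≠ k')
    (hout : {i | g.tl i = Sum.inr w} = {k, k'}) (hk : g.hd k = Sum.inl u)
    (hk' : g.hd k' = Sum.inl u) (hin : ∀ i, g.hd i ≠ Sum.inr w) : False := by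
  have hfI := hg.finI
  have hm : ∀ i, g.tl i = Sum.inr w ↔ i = k ∨ i = k' := by
    intro i
    have : i ∈ {i | g.tl i = Sum.inr w} ↔ i ∈ ({k, k'} : Set I) := by rw [hout]
    simpa using this
  have hinu : ∀ i, g.hd i = Sum.inl u → i = k ∨ i = k' := by
    intro i hi
    have h1 : ({k, k'} : Set I) ⊆ g.inE u := by
      rintro j (rfl | rfl)
      · exact hk
      · exact hk'
    have h2 : ({k, k'} : Set I) = g.inE u := by
      apply Set.eq_of_subset_of_ncard_le h1
      rw [hg.inE_card, Set.ncard_pair hkk]
    have h3 : i ∈ ({k, k'} : Set I) := by rw [h2]; exact hi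
    simpa using h3
  let Z : Set (S ⊕ T) := {Sum.inl g.s, Sum.inl u, Sum.inr w}
  have hZ : g.TI Z := by
    refine ⟨(closed_iff g Z).2 ?_, ?_, ?_⟩
    · intro u'' w'' hB hw''
      have hw2 : w'' = w := by simpa [Z] using hw''
      subst hw2
      by_cases hus' : u'' = g.s
      · simp [Z, hus']
      · obtain ⟨l, hl1, hl2⟩ := hg.hop hB hus' hwt
        rcases (hm l).1 hl1 with rfl | rfl
        · rw [hk] at hl2
          simp [Z, Sum.inl.inj hl2]
        · rw [hk'] at hl2
          simp [Z, Sum.inl.inj hl2]
    · simp [Z]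
    · simp [Z, hwt.symm]
  have hd : g.d Z ≤ 2 := by
    rw [← hg.inE_card g.s]
    refine Set.ncard_le_ncard ?_ (Set.toFinite _)
    rintro i ⟨h1, h2⟩
    simp only [Z, Set.mem_insert_iff, Set.mem_singleton_iff] at h1
    rcases h1 with h1 | h1 | h1
    · exact h1
    · exfalso
      apply h2
      rcases hinu i h1 with rfl | rfl
      · rw [(hm i).2 (Or.inl rfl)]; simp [Z]
      · rw [(hm i).2 (Or.inr rfl)]; simp [Z]
    · exact absurd h1 (hin i)
  by_cases hZt : Z = {Sum.inr g.t}ᶜ
  · have hSu : ∀ v, v ≠ g.s → v = u := by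
      intro v hv
      have : (Sum.inl v : S ⊕ T) ∈ Z := by rw [hZt]; simp
      simpa [Z, hv] using this
    have hTw : ∀ v, v ≠ g.t → v = w := by
      intro v hv
      have : (Sum.inr v : S ⊕ T) ∈ Z := by rw [hZt]; simpa using hv
      simpa [Z] using this
    refine Tiny_proof S T I g hg hS hT ?_ ?_
    · rintro i ⟨a, b, h1, h2, ha, hb⟩
      apply hg.noloop i
      rw [h1, h2, hSu a ha, hSu b hb]
    · rintro i ⟨a, b, h1, h2, ha, hb⟩
      apply hg.noloop i
      rw [(dual_tl_inl g i b).1 h1, (dual_hd_inl g i a).1 h2, hTw a ha, hTw b hb]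
  · have := hg.three_le_TI hZ (by
      intro h
      have : (Sum.inl u : S ⊕ T) ∈ Z := by simp [Z]
      rw [h] at this
      exact hus (by simpa using this)) hZt
    omega

theorem Static_proof (hCT : Stmt_CT) (hNode : Stmt_Node) : Stmt_Static := by
  intro S T I g hg hS hT c N hst k w hkN hkw hwt
  have hfI := hg.finI
  have hfS := hg.finS
  rcases hT.cases w hwt with h | h | h | h
  · exact Or.inl (Or.inl h)
  · -- single: no K out-item
    exfalso
    obtain ⟨-, x, x', -, hE, hx, hx'⟩ := h
    have hk : k ∈ g.dual.inE w := (dual_hd_inl g k w).2 hkw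
    have hin : g.dual.IsIn k := by
      rw [hE] at hk
      rcases hk with rfl | rfl
      · exact hx
      · exact hx'
    obtain ⟨a, b, h1, h2, -, -⟩ := hin
    have h3 := (dual_tl_inl g k b).1 h1
    rw [h3] at hkN
    exact inr_mem_SetS N b hkN
  · by_cases hex : ∃ e, g.dual.Exit w e
    · exact Or.inl (Or.inr ⟨h, hex⟩)
    exfalso
    have hin0 : ∀ i, g.hd i ≠ Sum.inr w := by
      intro i hi
      have h1 := hT.dbl w (Or.inl h)
      by_cases h2 : g.tl i = Sum.inr g.t
      · exact hex ⟨i, (dual_tl_inl g i w).2 hi, (dual_hd_inl g i g.t).2 h2⟩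
      · have : i ∈ g.dual.inner w :=
          ⟨(dual_tl_inl g i w).2 hi, fun h3 => h2 ((dual_hd_inl g i g.t).1 h3)⟩
        rw [h1] at this
        exact this
    obtain ⟨-, k1, k2, hk12, hE, hk1, hk2⟩ := h
    have hout : {i | g.tl i = Sum.inr w} = {k1, k2} := by
      rw [← hE]
      ext i
      exact (dual_hd_inl g i w).symm
    rw [isK_dual] at hk1 hk2
    -- the other out-item
    obtain ⟨k', hkk, hout', hk'K, hkK⟩ : ∃ k', k ≠ k' ∧ {i | g.tl i = Sum.inr w} = {k, k'} ∧
        g.IsK k' ∧ g.IsK k := by
      have hk : k ∈ ({k1, k2} : Set I) := by rw [← hout]; exact hkw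
      rcases hk with rfl | rfl
      · exact ⟨k2, hk12, hout, hk2, hk1⟩
      · exact ⟨k1, hk12.symm, by rw [hout, Set.pair_comm], hk1, hk2⟩
    obtain ⟨u, hu, hku⟩ := mem_SetS_iff'.1 hkN
    have hus : u ≠ g.s := fun h => hst.hs (h ▸ hu)
    have hm : ∀ i, g.tl i = Sum.inr w ↔ i = k ∨ i = k' := by
      intro i
      have : i ∈ {i | g.tl i = Sum.inr w} ↔ i ∈ ({k, k'} : Set I) := by rw [hout']
      simpa using this
    have hk'w : g.tl k' = Sum.inr w := (hm k').2 (Or.inr rfl)
    obtain ⟨u', w', hk'w', hk'u, hu's, -⟩ := hk'K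
    -- K items into `N` are plus
    have htrue : ∀ i, g.hd i ∈ SetS T N → g.tl i ∉ SetS T N → c i = true := by
      intro i h1 h2
      by_contra h3
      exact hst.bad ⟨i, by simpa using h3, h1, h2⟩
    have hu'N : u' ∉ N := by
      intro hu'
      obtain ⟨i, hi1, hi2, hi3⟩ := hst.tIII {w} (by simpa using hwt.symm) ⟨w, rfl⟩ false
      have hi4 : g.tl i = Sum.inr w := by
        rcases h5 : g.tl i with v | v
        · rw [h5] at hi3; exact absurd (inl_mem_SetT _ v) hi3
        · rw [h5] at hi3
          simpa using hi3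
      rcases (hm i).1 hi4 with rfl | rfl
      · have := htrue i hkN (by rw [hi4]; exact inr_mem_SetS N w)
        rw [this] at hi1
        exact absurd hi1 (by simp)
      · have := htrue i (by rw [hk'u]; simpa using hu') (by rw [hi4]; exact inr_mem_SetS N w)
        rw [this] at hi1
        exact absurd hi1 (by simp)
    have huu : u ≠ u' := fun h => hu'N (h ▸ hu)
    obtain ⟨A, hsA, huA, hu'A, hdA⟩ := hCT S T I g hg w u u' k k' hwt hus hu's huu hkk hout' hku
      hk'u hin0
    -- items between subsets of `S - s` are inner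
    have hinner : ∀ (X Y : Set S), X ⊆ A → Y ⊆ A → ∀ i, g.tl i ∈ SetS T X → g.hd i ∈ SetS T Y →
        g.IsIn i := by
      intro X Y hX hY i h1 h2
      obtain ⟨a, ha, h3⟩ := mem_SetS_iff'.1 h1
      obtain ⟨b, hb, h4⟩ := mem_SetS_iff'.1 h2
      exact ⟨b, a, h3, h4, fun h => hsA (h ▸ hY hb), fun h => hsA (h ▸ hX ha)⟩
    -- the basic estimate
    have hmain : ∀ (A1 A2 : Set S), A1 ∪ A2 = A → Disjoint A1 A2 →
        g.d (SetS T A1) + g.d (SetS T A2) ≤ 3 + eXY g A2 A1 + eXY g A1 A2 := by
      intro A1 A2 h1 h2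
      have := d_split hg h2
      rw [h1] at this
      omega
    rcases hNode S T I g hg hS c N hst with h | h | ⟨y, h⟩
    · -- double
      obtain ⟨u0, hN, hdbl, -⟩ := h
      have hu0 : u = u0 := by rw [hN] at hu; simpa using hu
      subst hu0
      have h1 := hmain {u} (A \ {u}) (by simpa using huA) (by simp)
      have h2 : eXY g {u} (A \ {u}) = 0 := by
        apply eXY_zero
        intro i hi1 hi2
        have h3 := hS.dbl u (Or.inl hdbl)
        obtain ⟨a, ha, h4⟩ := mem_SetS_iff'.1 hi1
        obtain ⟨b, hb, h5⟩ := mem_SetS_iff'.1 hi2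
        have ha' : a = u := by simpa using ha
        have h6 : i ∈ g.inner u := ⟨by rw [h4, ha'], by
          rw [h5]
          intro h7
          exact hsA ((Sum.inl.inj h7) ▸ hb.1)⟩
        rw [h3] at h6
        exact h6
      have h2' : eXY g (A \ {u}) {u} = 0 := by
        apply eXY_zero
        intro i hi1 hi2
        obtain ⟨-, k3, k4, -, hE', hk3, hk4⟩ := hdbl
        obtain ⟨a, ha, h4⟩ := mem_SetS_iff'.1 hi1
        have h5 : i ∈ g.inE u := by
          obtain ⟨b, hb, h5⟩ := mem_SetS_iff'.1 hi2
          have hb' : b = u := by simpa using hb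
          rw [hb'] at h5
          exact h5
        have h6 : g.IsK i := by
          rw [hE'] at h5
          rcases h5 with rfl | rfl
          · exact hk3
          · exact hk4
        obtain ⟨_, w1, h7, -⟩ := h6
        rw [h4] at h7
        exact absurd h7 (by simp)
      have h3 := hg.two_le_SetS (A := {u}) (by simpa using hus.symm) ⟨u, rfl⟩
      have h4 := hg.two_le_SetS (A := A \ {u}) (fun h => hsA h.1) ⟨u', hu'A, by
        simpa using huu.symm⟩
      omega
    · -- plain
      obtain ⟨-, -, hcl, -, -⟩ := h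
      have h1 := hmain (A ∩ N) (A \ N) (Set.inter_union_sdiff A N)
        (Set.disjoint_left.2 fun x hx hx' => hx'.2 hx.2)
      have h2 : eXY g (A ∩ N) (A \ N) = 0 := by
        apply eXY_zero
        intro i hi1 hi2
        have h3 := hinner _ _ Set.inter_subset_left Set.sdiff_subset i hi1 hi2
        obtain ⟨a, ha, h4⟩ := mem_SetS_iff'.1 hi1
        obtain ⟨b, hb, h5⟩ := mem_SetS_iff'.1 hi2
        have h6 := (hcl i h3).1 (by rw [h4]; simpa using ha.2)
        rw [h5] at h6
        exact hb.2 (by simpa using h6)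
      have h2' : eXY g (A \ N) (A ∩ N) = 0 := by
        apply eXY_zero
        intro i hi1 hi2
        have h3 := hinner _ _ Set.sdiff_subset Set.inter_subset_left i hi1 hi2
        obtain ⟨a, ha, h4⟩ := mem_SetS_iff'.1 hi1
        obtain ⟨b, hb, h5⟩ := mem_SetS_iff'.1 hi2
        have h6 := (hcl i h3).2 (by rw [h5]; simpa using hb.2)
        rw [h4] at h6
        exact ha.2 (by simpa using h6)
      have h3 := hg.two_le_SetS (A := A ∩ N) (fun h => hsA h.1) ⟨u, huA, hu⟩
      have h4 := hg.two_le_SetS (A := A \ N) (fun h => hsA h.1) ⟨u', hu'A, hu'N⟩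
      omega
    · -- loop
      obtain ⟨hN3, hyN, hys, -, hpairs, hclo, hcli, -, hyc, a, b, hab, hya, haN, hbN⟩ := h
      have huy : u ≠ y := by
        rintro rfl
        obtain ⟨-, x, x', -, hE', hx, hx'⟩ := hys
        have h5 : k ∈ g.inE u := hku
        have h6 : g.IsIn k := by
          rw [hE'] at h5
          rcases h5 with rfl | rfl
          · exact hx
          · exact hx'
        obtain ⟨_, v, h7, -⟩ := h6
        rw [hkw] at h7
        exact absurd h7 (by simp)
      have hu'y : u' ≠ y := fun h => hu'N (h ▸ hyN)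
      -- `A1 = A ∩ (N - y)`
      have h1 := hmain (A ∩ (N \ {y})) (A \ (N \ {y})) (Set.inter_union_sdiff A _)
        (Set.disjoint_left.2 fun x hx hx' => hx'.2 hx.2)
      have h3 := hg.two_le_SetS (A := A ∩ (N \ {y})) (fun h => hsA h.1) ⟨u, huA, hu, huy⟩
      have h4 := hg.two_le_SetS (A := A \ (N \ {y})) (fun h => hsA h.1)
        ⟨u', hu'A, fun h => hu'N h.1⟩
      -- items out of `A1` go to `y`, items into `A1` come from `y`
      have hto : ∀ i, g.tl i ∈ SetS T (A ∩ (N \ {y})) → g.hd i ∈ SetS T (A \ (N \ {y})) →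
          g.hd i = Sum.inl y ∧ y ∈ A ∧ g.IsIn i := by
        intro i hi1 hi2
        have h5 := hinner _ _ Set.inter_subset_left Set.sdiff_subset i hi1 hi2
        obtain ⟨p, hp, h6⟩ := mem_SetS_iff'.1 hi1
        obtain ⟨q, hq, h7⟩ := mem_SetS_iff'.1 hi2
        have h8 := hclo i h5 (by rw [h6]; simpa using hp.2.1) (by
          rw [h6]; intro h; exact hp.2.2 (Sum.inl.inj h))
        rw [h7] at h8
        have hqN : q ∈ N := by simpa using h8
        have hqy : q = y := by
          by_contra hne
          exact hq.2 ⟨hqN, hne⟩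
        exact ⟨by rw [h7, hqy], hqy ▸ hq.1, h5⟩
      have hfrom : ∀ i, g.tl i ∈ SetS T (A \ (N \ {y})) → g.hd i ∈ SetS T (A ∩ (N \ {y})) →
          g.tl i = Sum.inl y ∧ y ∈ A ∧ g.IsIn i := by
        intro i hi1 hi2
        have h5 := hinner _ _ Set.sdiff_subset Set.inter_subset_left i hi1 hi2
        obtain ⟨p, hp, h6⟩ := mem_SetS_iff'.1 hi1
        obtain ⟨q, hq, h7⟩ := mem_SetS_iff'.1 hi2
        have h8 := hcli i h5 (by rw [h7]; simpa using hq.2.1) (by
          rw [h7]; intro h; exact hq.2.2 (Sum.inl.inj h))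
        rw [h6] at h8
        have hpN : p ∈ N := by simpa using h8
        have hpy : p = y := by
          by_contra hne
          exact hp.2 ⟨hpN, hne⟩
        exact ⟨by rw [h6, hpy], hpy ▸ hp.1, h5⟩
      by_cases hyA : y ∈ A
      · have hA2 : 3 ≤ g.d (SetS T (A \ (N \ {y}))) :=
          hg.three_le_SetS (fun h => hsA h.1) (u := y) (v := u') ⟨hyA, fun h => h.2 rfl⟩
            ⟨hu'A, fun h => hu'N h.1⟩ hu'y.symm
        -- at most one item each
        have hback : eXY g (A \ (N \ {y})) (A ∩ (N \ {y})) ≤ 1 := by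
          apply eXY_le_one (a := a)
          intro i hi1 hi2
          obtain ⟨h5, -, hin⟩ := hfrom i hi1 hi2
          have h6 : i ∈ g.inner y := ⟨h5, by
            obtain ⟨p, q, -, h7, hp, -⟩ := hin
            rw [h7]
            intro h8
            exact hp (Sum.inl.inj h8)⟩
          rw [hya] at h6
          rcases h6 with h6 | h6
          · exact h6
          · exfalso
            have h6' : i = b := h6
            obtain ⟨q, hq, h7⟩ := mem_SetS_iff'.1 hi2
            apply hbN
            rw [← h6', h7]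
            simpa using hq.2.1
        -- the in-item of `y` from `N`
        have huniq : ∀ i j, g.hd i = Sum.inl y → g.hd j = Sum.inl y → g.tl i ∈ SetS T N →
            g.tl j ∈ SetS T N → i = j := by
          intro i j hi hj hi' hj'
          obtain ⟨-, x, x', hxx, hE', -, -⟩ := hys
          have hci := (hyc i hi).2 hi'
          have hcj := (hyc j hj).2 hj'
          -- `{y}` is entered by plus
          obtain ⟨l, hl1, hl2, hl3⟩ := hst.tII {y} (by
            simpa using (fun h : g.s = y => hst.hs (h ▸ hyN))) ⟨y, rfl⟩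
          have hly : g.hd l = Sum.inl y := by
            obtain ⟨q, hq, h7⟩ := mem_SetS_iff'.1 hl2
            rw [h7]
            exact congrArg Sum.inl (by simpa using hq)
          by_contra hne
          have hli : l ≠ i := by rintro rfl; rw [hl1] at hci; exact absurd hci (by simp)
          have hlj : l ≠ j := by rintro rfl; rw [hl1] at hcj; exact absurd hcj (by simp)
          have hsub : ({l, i, j} : Set I) ⊆ g.inE y := by
            rintro m (rfl | rfl | rfl)
            · exact hly
            · exact hi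
            · exact hj
          have h8 := Set.ncard_le_ncard hsub
          rw [hg.inE_card, Set.ncard_eq_three.2 ⟨l, i, j, hli, hlj, hne, rfl⟩] at h8
          omega
        by_cases hex1 : ∃ i0, g.tl i0 ∈ SetS T (A ∩ (N \ {y})) ∧ g.hd i0 ∈ SetS T (A \ (N \ {y}))
        · obtain ⟨i0, hi01, hi02⟩ := hex1
          have hi0N : g.tl i0 ∈ SetS T N := by
            obtain ⟨p, hp, h6⟩ := mem_SetS_iff'.1 hi01
            rw [h6]; simpa using hp.2.1
          have hforth : eXY g (A ∩ (N \ {y})) (A \ (N \ {y})) ≤ 1 := by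
            apply eXY_le_one (a := i0)
            intro i hi1 hi2
            apply huniq i i0 (hto i hi1 hi2).1 (hto i0 hi01 hi02).1 _ hi0N
            obtain ⟨p, hp, h6⟩ := mem_SetS_iff'.1 hi1
            rw [h6]; simpa using hp.2.1
          by_cases hex2 : ∃ j0, g.tl j0 ∈ SetS T (A \ (N \ {y})) ∧
              g.hd j0 ∈ SetS T (A ∩ (N \ {y}))
          · obtain ⟨j0, hj01, hj02⟩ := hex2
            -- then `A1` has at least two elements
            by_cases hA1 : ∃ v ∈ A ∩ (N \ {y}), v ≠ u
            · obtain ⟨v, hv, hvu⟩ := hA1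
              have h5 : 3 ≤ g.d (SetS T (A ∩ (N \ {y}))) :=
                hg.three_le_SetS (fun h => hsA h.1) hv ⟨huA, hu, huy⟩ hvu
              omega
            · exfalso
              push Not at hA1
              -- `{u, y}` is not entered by minus
              have hbad : ¬ g.Hit c false (SetS T {u, y}) := by
                rintro ⟨l, hl1, hl2, hl3⟩
                obtain ⟨q, hq, h7⟩ := mem_SetS_iff'.1 hl2
                rcases hq with hq | hq
                · -- head `u`
                  have hlN : g.hd l ∈ SetS T N := by rw [h7, hq]; simpa using hu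
                  by_cases hlt : g.tl l ∈ SetS T N
                  · obtain ⟨p, hp, h8⟩ := mem_SetS_iff'.1 hlt
                    have hpair := (hpairs u hu huy).1
                    obtain ⟨-, k3, x3, hkx, hE3, hk3, hx3⟩ := hpair
                    have hlx : l = x3 := by
                      have h9 : l ∈ g.inE u := by rw [← show q = u from hq]; exact h7
                      rw [hE3] at h9
                      rcases h9 with h9 | h9
                      · obtain ⟨_, w1, h10, -⟩ := hk3
                        rw [← show l = k3 from h9, h8] at h10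
                        exact absurd h10 (by simp)
                      · exact h9
                    have hjx : j0 = x3 := by
                      obtain ⟨r, hr, h11⟩ := mem_SetS_iff'.1 hj02
                      have hru : r = u := hA1 r hr
                      have h9 : j0 ∈ g.inE u := by rw [← hru]; exact h11
                      rw [hE3] at h9
                      rcases h9 with h9 | h9
                      · obtain ⟨_, w1, h10, -⟩ := hk3
                        rw [← show j0 = k3 from h9, (hfrom j0 hj01 hj02).1] at h10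
                        exact absurd h10 (by simp)
                      · exact h9
                    apply hl3
                    rw [hlx, ← hjx, (hfrom j0 hj01 hj02).1]
                    simp
                  · have := htrue l hlN hlt
                    rw [hl1] at this
                    exact absurd this (by simp)
                · -- head `y`
                  have hly : g.hd l = Sum.inl y := by rw [h7]; exact congrArg Sum.inl hq
                  have h8 := (hyc l hly).1 hl1
                  have h9 := huniq l i0 hly (hto i0 hi01 hi02).1 h8 hi0N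
                  obtain ⟨p, hp, h6⟩ := mem_SetS_iff'.1 hi01
                  apply hl3
                  rw [h9, h6, hA1 p hp]
                  simp
              have hsub := hst.min {u, y} (by
                rintro (h | h)
                · exact hus h.symm
                · exact hst.hs (by rw [show g.s = y from h]; exact hyN)) ⟨u, Or.inl rfl⟩ hbad
              have h5 := Set.ncard_le_ncard hsub
              rw [Set.ncard_pair huy] at h5
              omega
          · have h5 : eXY g (A \ (N \ {y})) (A ∩ (N \ {y})) = 0 :=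
              eXY_zero fun i hi1 hi2 => hex2 ⟨i, hi1, hi2⟩
            omega
        · have h5 : eXY g (A ∩ (N \ {y})) (A \ (N \ {y})) = 0 :=
            eXY_zero fun i hi1 hi2 => hex1 ⟨i, hi1, hi2⟩
          omega
      · have h2 : eXY g (A ∩ (N \ {y})) (A \ (N \ {y})) = 0 :=
          eXY_zero fun i hi1 hi2 => hyA (hto i hi1 hi2).2.1
        have h2' : eXY g (A \ (N \ {y})) (A ∩ (N \ {y})) = 0 :=
          eXY_zero fun i hi1 hi2 => hyA (hfrom i hi1 hi2).2.1
        omega
  · exact Or.inr h

end GW
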