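import Pool.Agent.GW.LeafBase

/-!
# MP_27938c_co: module Step ((L1), (L2) of the text), helper5
-/

set_option autoImplicit false

namespace GW

theorem Step_proof : Stmt_Step := by
  intro S T I g hg hS hT c N k hst hport
  obtain ⟨hF, hN, hL⟩ := hport
  obtain ⟨u, w, htk, hhk, hus, hwt, hfu, hfw⟩ := hF
  have huN : u ∈ N := by
    rw [hhk] at hN
    simpa using hN
  have hKk : g.IsK k := ⟨u, w, htk, hhk, hus, hwt⟩
  have hck : c k = true := hst.K_true hN htk
  obtain ⟨c', hc'⟩ : ∃ c', c' = g.flipc k c := ⟨_, rfl⟩
  rw [← hc'] at hL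
  have hc'k : c' k = false := by rw [hc', flipc_self, hck]; rfl
  -- X items into `u` are minus
  have hX : ∀ i z, g.hd i = Sum.inl u → g.tl i = Sum.inl z → c i = false := by
    intro i z hi hz
    by_contra hci
    have hci' : c i = true := by simpa using hci
    have hstar : ∀ b, g.Hit c b {Sum.inl u} := by
      have he : SetS T {u} = ({Sum.inl u} : Set (S ⊕ T)) := by simp [SetS]
      intro b
      rw [← he]
      cases b with
      | true => exact hst.tII {u} (by simpa using hus.symm) ⟨u, rfl⟩
      | false =>
        by_contra hno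
        have h1 : N ⊆ {u} := hst.min {u} (by simpa using hus.symm) ⟨u, rfl⟩ hno
        have h2 : N = {u} := Set.Subset.antisymm h1 (by simpa using huN)
        obtain ⟨_, k1, k2, h12, hE, hk1, hk2⟩ := hst.star u h2
        have h3 : i ∈ g.inE u := hi
        rw [hE] at h3
        rcases h3 with rfl | rfl
        · obtain ⟨_, w', e1, _⟩ := hk1
          rw [hz] at e1
          simp at e1
        · obtain ⟨_, w', e1, _⟩ := hk2
          rw [hz] at e1
          simp at e1
    have hik : i = k := in_unique hg hstar hi hhk (hci'.trans hck.symm)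
    rw [hik, htk] at hz
    simp at hz
  -- Y items out of `w` are minus
  have hY : ∀ i y, g.tl i = Sum.inr w → g.hd i = Sum.inr y → c i = false := by
    intro i y hi hy
    by_contra hci
    have hci' : c i = true := by simpa using hci
    have hik : i = k := hst.out_unique hg hwt hi htk (hci'.trans hck.symm)
    rw [hik, hhk] at hy
    simp at hy
  have hP : ∀ i, c i = true → i ≠ k → c' i = true := by
    intro i hi hik
    rw [hc', flipc_of g c hik, hi]
    · intro h z hz
      rw [hhk] at h
      rw [hX i z h hz] at hi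
      simp at hi
    · intro h y hy
      rw [htk] at h
      rw [hY i y h hy] at hi
      simp at hi
  have hM : ∀ i, c i = false → (g.hd i = Sum.inl u → ∀ z, g.tl i ≠ Sum.inl z) →
      (g.tl i = Sum.inr w → ∀ y, g.hd i ≠ Sum.inr y) → c' i = false := by
    intro i hi h1 h2
    have hik : i ≠ k := by
      rintro rfl
      rw [hck] at hi
      simp at hi
    rw [hc', flipc_of g c hik, hi]
    · intro h
      rw [hhk] at h
      exact h1 h
    · intro h
      rw [htk] at h
      exact h2 h
  -- type II, minus
  have hIIm : ∀ A : Set S, g.s ∉ A → A.Nonempty → g.Hit c' false (SetS T A) := by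
    intro A hA hAn
    by_cases huA : u ∈ A
    · exact ⟨k, hc'k, by rw [hhk]; simpa using huA, by rw [htk]; exact inr_mem_SetS A w⟩
    · have h1 : g.Hit c false (SetS T A) := by
        by_contra hno
        exact huA (hst.min A hA hAn hno huN)
      obtain ⟨i, hi, hi1, hi2⟩ := h1
      refine ⟨i, hM i hi (fun h => ?_) (fun _ y hy => ?_), hi1, hi2⟩
      · rw [h] at hi1
        exact absurd (by simpa using hi1) huA
      · rw [hy] at hi1
        exact absurd hi1 (inr_mem_SetS A y)
  -- type II, plus
  have hIIp : ∀ A : Set S, g.s ∉ A → A.Nonempty → g.Hit c' true (SetS T A) := by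
    intro A hA hAn
    by_contra hno
    have hno' : ∀ i, c i = true → g.hd i ∈ SetS T A → g.tl i ∉ SetS T A → i = k := by
      intro i hi hi1 hi2
      by_contra hik
      exact hno ⟨i, hP i hi hik, hi1, hi2⟩
    obtain ⟨i, hi, hi1, hi2⟩ := hst.tII A hA hAn
    have hik := hno' i hi hi1 hi2
    subst hik
    have huA : u ∈ A := by
      rw [hhk] at hi1
      simpa using hi1
    -- all K items into elements of `A ∩ N` are `i`
    have hKA : ∀ j x y, g.tl j = Sum.inr y → g.hd j = Sum.inl x → x ∈ A → x ∈ N → j = i := by
      intro j x y h1 h2 h3 h4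
      refine hno' j (hst.K_true (by rw [h2]; simpa using h4) h1) (by rw [h2]; simpa using h3) ?_
      rw [h1]
      exact inr_mem_SetS A y
    have hpair : g.Pair u := by
      rcases hfu with h | ⟨⟨_, k1, k2, h12, hE, hk1, hk2⟩, _⟩
      · exact h
      · exfalso
        have m1 : k1 ∈ g.inE u := by rw [hE]; simp
        have m2 : k2 ∈ g.inE u := by rw [hE]; simp
        obtain ⟨_, w1, e1, _⟩ := hk1
        obtain ⟨_, w2, e2, _⟩ := hk2
        exact h12 ((hKA k1 u w1 e1 m1 huA huN).trans (hKA k2 u w2 e2 m2 huA huN).symm)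
    obtain ⟨_, k1, x, hk1x, hE, hk1, hx⟩ := hpair
    have mx : g.hd x = Sum.inl u := by
      have : x ∈ g.inE u := by rw [hE]; simp
      exact this
    obtain ⟨u', v, hxv, hxu, hus', hvs⟩ := hx
    have hcx : c x = false := hX x v mx hxv
    have hc'x : c' x = true := by
      rw [hc', flipc_X' g c hxv (by rw [mx, hhk]), hcx]
      rfl
    have hvA : v ∈ A := by
      by_contra hvA
      refine hno ⟨x, hc'x, by rw [mx]; simpa using huA, ?_⟩
      rw [hxv]
      simpa using hvA
    have hvN : v ∈ N := by
      by_contra hvN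
      have := hst.true_of_tl (i := x) (by rw [mx]; simpa using huN)
        (by rw [hxv]; simpa using hvN)
      rw [hcx] at this
      simp at this
    have hvu : v ≠ u := by
      rintro rfl
      exact hg.noloop x (hxv.trans mx.symm)
    have hxinner : x ∈ g.inner v := by
      refine ⟨hxv, ?_⟩
      rw [mx]
      intro h
      exact hus (Sum.inl.inj h)
    rcases hS.cases v hvs with hv | hv | hv | hv
    · obtain ⟨_, k2, x2, _, hE2, hk2, _⟩ := hv
      have m2 : g.hd k2 = Sum.inl v := by
        have : k2 ∈ g.inE v := by rw [hE2]; simp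
        exact this
      obtain ⟨_, w2, e2, _⟩ := hk2
      have := hKA k2 v w2 e2 m2 hvA hvN
      rw [this, hhk] at m2
      exact hvu (Sum.inl.inj m2).symm
    · obtain ⟨e, he1, he2⟩ := hS.exitSingle v hv
      -- the exit of `v` is plus
      have hce : c e = true := by
        by_contra hce
        have hce' : c e = false := by simpa using hce
        have hTI : g.TI ({Sum.inl g.s} ∪ SetS T N) := by
          refine ⟨closed_union (TI_s g).1 (closed_SetS g N), Or.inl rfl, ?_⟩
          simp
        obtain ⟨j, hj, hj1, hj2⟩ := hst.tI _ hTI false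
        rcases hj1 with hj1 | hj1
        · have hje := in_s_unique hg hst.tI hj1 he2 (hj.trans hce'.symm)
          apply hj2
          rw [hje, he1]
          exact Or.inr (by simpa using hvN)
        · have := hst.true_of_tl hj1 (fun h => hj2 (Or.inr h))
          rw [this] at hj
          simp at hj
      have hc'e : c' e = true := by
        rw [hc', flipc_in_s g c hKk he2, hce]
      have hTI : g.TI ({Sum.inl g.s} ∪ SetS T A) := by
        refine ⟨closed_union (TI_s g).1 (closed_SetS g A), Or.inl rfl, ?_⟩
        simp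
      obtain ⟨j, hj, hj1, hj2⟩ := hL _ hTI true
      rcases hj1 with hj1 | hj1
      · have hje := in_s_unique hg hL hj1 he2 (hj.trans hc'e.symm)
        apply hj2
        rw [hje, he1]
        exact Or.inr (by simpa using hvA)
      · exact hno ⟨j, hj, hj1, fun h => hj2 (Or.inr h)⟩
    · rw [hS.dbl v (Or.inl hv)] at hxinner
      exact hxinner
    · rw [hS.dbl v (Or.inr hv)] at hxinner
      exact hxinner
  -- type III, minus
  have hIIIm : ∀ C : Set T, g.t ∉ C → C.Nonempty → g.Hit c' false (SetT S C) := by
    intro C hC hCn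
    by_cases hwC : w ∈ C
    · exact ⟨k, hc'k, by rw [hhk]; exact inl_mem_SetT C u, by rw [htk]; simpa using hwC⟩
    · obtain ⟨i, hi, hi1, hi2⟩ := hst.tIII C hC hCn false
      refine ⟨i, hM i hi (fun _ z hz => ?_) (fun h => ?_), hi1, hi2⟩
      · rw [hz] at hi2
        exact hi2 (inl_mem_SetT C z)
      · rw [h] at hi2
        exact absurd (by simpa using hi2) hwC
  -- T-bad sets contain `w`
  have hwC : ∀ C : Set T, g.t ∉ C → C.Nonempty → ¬ g.Hit c' true (SetT S C) → w ∈ C := by
    intro C hC hCn hno
    obtain ⟨i, hi, hi1, hi2⟩ := hst.tIII C hC hCn true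
    by_cases hik : i = k
    · rw [hik, htk] at hi2
      simpa using hi2
    · exact absurd ⟨i, hP i hi hik, hi1, hi2⟩ hno
  obtain ⟨C0, hC0, hC0n, hC0b⟩ : ∃ C : Set T, g.t ∉ C ∧ C.Nonempty ∧
      ¬ g.Hit c' true (SetT S C) := by
    by_contra hcon
    push Not at hcon
    refine hg.bad c' ((goodB_iff g c').2 ⟨hL, fun A hA hAn b => ?_, fun C hC hCn b => ?_⟩)
    · cases b with
      | true => exact hIIp A hA hAn
      | false => exact hIIm A hA hAn
    · cases b with
      | true => exact hcon C hC hCn
      | false => exact hIIIm C hC hCn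
  obtain ⟨N', hN'⟩ : ∃ N' : Set T, N' = {x | ∀ C : Set T, g.t ∉ C → C.Nonempty →
      ¬ g.Hit c' true (SetT S C) → x ∈ C} := ⟨_, rfl⟩
  have hwN' : w ∈ N' := by
    rw [hN']
    exact hwC
  have hbad : ¬ g.Hit c' true (SetT S N') := by
    rintro ⟨i, hi, hi1, hi2⟩
    rcases hti : g.tl i with z | x
    · rw [hti] at hi2
      exact hi2 (inl_mem_SetT N' z)
    · rw [hti] at hi2
      have hxN' : x ∈ N' := by simpa using hi2
      rw [hN'] at hxN'
      -- the head of `i` lies in all bad sets
      have hall : ∀ C : Set T, g.t ∉ C → C.Nonempty → ¬ g.Hit c' true (SetT S C) →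
          g.hd i ∉ SetT S C := by
        intro C h1 h2 h3 h4
        refine h3 ⟨i, hi, h4, ?_⟩
        rw [hti]
        simpa using hxN' C h1 h2 h3
      rcases hhi : g.hd i with z | y
      · have := hall C0 hC0 hC0n hC0b
        rw [hhi] at this
        exact this (inl_mem_SetT C0 z)
      · rw [hhi] at hi1
        have hyN' : y ∉ N' := by simpa using hi1
        apply hyN'
        rw [hN']
        intro C h1 h2 h3
        have := hall C h1 h2 h3
        rw [hhi] at this
        simpa using this
  refine ⟨w, N', htk, hwN', ?_⟩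
  rw [← hc']
  refine ⟨?_, ⟨w, hwN'⟩, ?_, ?_, ?_, ?_, ?_, ?_⟩
  · intro h
    rw [hN'] at h
    exact hC0 (h C0 hC0 hC0n hC0b)
  · intro Z hZ b
    obtain ⟨W, rfl⟩ := exists_dZ Z
    rw [hit_dual_neg]
    exact hL W ((TI_dual g W).1 hZ) _
  · intro A hA hAn
    rw [← dZ_SetT, hit_dual_neg]
    exact hIIIm A hA hAn
  · intro C hC hCn b
    rw [← dZ_SetS, hit_dual_neg]
    cases b with
    | true => exact hIIm C hC hCn
    | false => exact hIIp C hC hCn
  · rw [← dZ_SetT, hit_dual_neg]
    exact hbad
  · intro A hA hAn hno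
    rw [← dZ_SetT, hit_dual_neg] at hno
    intro x hx
    rw [hN'] at hx
    exact hx A hA hAn hno
  · intro x hx
    have hwx : w = x := by
      rw [hx] at hwN'
      simpa using hwN'
    subst hwx
    rcases hfw with h | ⟨h, _⟩
    · exfalso
      obtain ⟨_, k1, y, hk1y, hE, hk1, hy⟩ := h
      have my : g.tl y = Sum.inr w := by
        have : y ∈ g.dual.inE w := by rw [hE]; simp
        have h2 : g.dual.hd y = Sum.inl w := this
        simpa using h2
      obtain ⟨w', v, hyv, hyw, hw't, hvt⟩ := hy
      have hyv' : g.hd y = Sum.inr v := by simpa using hyv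
      have hcy : c y = false := hY y v my hyv'
      have hc'y : c' y = true := by
        rw [hc', flipc_Y' g c hyv' (by rw [my, htk]), hcy]
        rfl
      have hvw : v ≠ w := by
        rintro rfl
        exact hg.noloop y (my.trans hyv'.symm)
      apply hbad
      refine ⟨y, hc'y, ?_, ?_⟩
      · rw [hyv', hx]
        simpa using hvw
      · rw [my, hx]
        simp
    · exact h

end GW
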