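import Pool.Agent.GW.Dual

/-!
# MP_27938c_co: inner part, structure of a minimal instance (section 3)
-/

namespace GW

variable {S T I : Type}

/-- a minimal instance has an interior K item (otherwise the base case applies) -/
theorem MinInst.exists_K {g : ST S T I} (h : MinInst g) (hB : Stmt_Base) : ∃ k, g.IsK k := by
  by_contra hcon
  have := h.finS
  have := h.finT
  have := h.finI
  obtain ⟨c, hc⟩ := hB 2 S T I g (by norm_num) h.valid h.exact
    (by
      ext i
      simp only [Set.mem_empty_iff_false, iff_false]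
      intro hi
      exact hcon ⟨i, hi⟩)
    (by
      intro u w huw
      rcases h.anti u w huw with h1 | h1 | ⟨i, h1, h2⟩
      · exact Or.inl h1
      · exact Or.inr h1
      · by_contra hne
        push Not at hne
        exact hcon ⟨i, u, w, h1, h2, hne.1, hne.2⟩)
  refine h.bad (fun i => decide (c i = 1)) (fun Z h1 h2 h3 b => ?_)
  cases b with
  | true =>
    obtain ⟨i, hi, h⟩ := hc Z h1 h2 h3 1
    exact ⟨i, by simp [hi], h⟩
  | false =>
    obtain ⟨i, hi, h⟩ := hc Z h1 h2 h3 0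
    exact ⟨i, by simp [hi], h⟩

/-- (F1) two items with both ends in `{s, v}` are equal -/
theorem MinInst.two_sv {g : ST S T I} (h : MinInst g) {w0 : T} (hw0 : w0 ≠ g.t) {v : S}
    (hv : v ≠ g.s) {e e' : I}
    (h1 : g.hd e = Sum.inl g.s ∨ g.hd e = Sum.inl v) (h2 : g.tl e = Sum.inl g.s ∨ g.tl e = Sum.inl v)
    (h1' : g.hd e' = Sum.inl g.s ∨ g.hd e' = Sum.inl v)
    (h2' : g.tl e' = Sum.inl g.s ∨ g.tl e' = Sum.inl v) : e = e' := by
  by_contra hne
  have := h.finI
  let Z : Set (S ⊕ T) := {Sum.inl g.s, Sum.inl v}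
  have hmem : ∀ x, x ∈ Z ↔ x = Sum.inl g.s ∨ x = Sum.inl v := fun x => by simp [Z]
  have h3 : 3 ≤ g.d Z := by
    apply h.three_le_TI
    · refine ⟨?_, by simp [Z], by simp [Z]⟩
      rintro x y ⟨u, w, rfl, rfl, -⟩ hy
      simp [Z] at hy
    · intro he
      have : (Sum.inl v : S ⊕ T) ∈ Z := by simp [Z]
      rw [he] at this
      simp at this
      exact hv this
    · intro he
      have : (Sum.inr w0 : S ⊕ T) ∈ ({Sum.inr g.t}ᶜ : Set (S ⊕ T)) := by simpa using hw0
      rw [← he] at this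
      simp [Z] at this
  have hsub : Ent g.tl g.hd Z ⊆ (g.inE g.s ∪ g.inE v) \ {e, e'} := by
    rintro i ⟨hi1, hi2⟩
    refine ⟨?_, ?_⟩
    · rcases (hmem _).1 hi1 with h | h
      · exact Or.inl h
      · exact Or.inr h
    · rintro (rfl | rfl)
      · exact hi2 ((hmem _).2 h2)
      · exact hi2 ((hmem _).2 h2')
  have hc1 : (Ent g.tl g.hd Z).ncard ≤ ((g.inE g.s ∪ g.inE v) \ {e, e'}).ncard :=
    Set.ncard_le_ncard hsub (Set.toFinite _)
  have hsub2 : ({e, e'} : Set I) ⊆ g.inE g.s ∪ g.inE v := by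
    rintro i (rfl | rfl)
    · exact h1
    · exact h1'
  have hc2 := Set.ncard_sdiff hsub2 (Set.toFinite _)
  have hc3 := Set.ncard_union_le (g.inE g.s) (g.inE v)
  rw [h.inE_card, h.inE_card] at hc3
  rw [Set.ncard_pair hne] at hc2
  unfold ST.d at h3
  omega

/-- (F2) a vertex without interior K in-item -/
theorem MinInst.out_ge {g : ST S T I} (h : MinInst g) {w0 : T} (hw0 : w0 ≠ g.t) {v : S}
    (hv : v ≠ g.s) (hK : ∀ i, g.hd i = Sum.inl v → ¬ g.IsK i) :
    3 ≤ {i | g.tl i = Sum.inr g.t ∧ g.hd i ≠ Sum.inl v}.ncard + (g.outE v).ncard := by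
  have := h.finI
  let Z : Set (S ⊕ T) := {Sum.inr g.t, Sum.inl v}ᶜ
  have hmem : ∀ x, x ∈ Z ↔ x ≠ Sum.inr g.t ∧ x ≠ Sum.inl v := fun x => by
    simp [Z]
  have h3 : 3 ≤ g.d Z := by
    apply h.three_le_TI
    · refine ⟨?_, ?_, ?_⟩
      · rintro x y ⟨u, w, rfl, rfl, huw⟩ hy
        rw [hmem] at hy ⊢
        refine ⟨by simp, ?_⟩
        intro he
        rw [Sum.inl.injEq] at he
        subst he
        have hwt : w ≠ g.t := fun hh => hy.1 (by rw [hh])
        obtain ⟨k, hk1, hk2⟩ := h.hop huw hv hwt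
        exact hK k hk2 ⟨u, w, hk1, hk2, hv, hwt⟩
      · rw [hmem]
        exact ⟨by simp, by simpa using hv.symm⟩
      · rw [hmem]
        simp
    · intro he
      have : (Sum.inr w0 : S ⊕ T) ∈ Z := by
        rw [hmem]
        exact ⟨by simpa using hw0, by simp⟩
      rw [he] at this
      simp at this
    · intro he
      have : (Sum.inl v : S ⊕ T) ∈ ({Sum.inr g.t}ᶜ : Set (S ⊕ T)) := by simp
      rw [← he, hmem] at this
      exact this.2 rfl
  have hsub : Ent g.tl g.hd Z ⊆ {i | g.tl i = Sum.inr g.t ∧ g.hd i ≠ Sum.inl v} ∪ g.outE v := by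
    rintro i ⟨hi1, hi2⟩
    rw [hmem] at hi1 hi2
    by_cases hh : g.tl i = Sum.inr g.t
    · exact Or.inl ⟨hh, hi1.2⟩
    · right
      by_contra hcon
      exact hi2 ⟨hh, hcon⟩
  have hc1 := Set.ncard_le_ncard hsub (Set.toFinite _)
  have hc2 := Set.ncard_union_le {i | g.tl i = Sum.inr g.t ∧ g.hd i ≠ Sum.inl v} (g.outE v)
  unfold ST.d at h3
  omega

/-- (P4) -/
theorem MinInst.p4 {g : ST S T I} (h : MinInst g) (hN : Stmt_Near) {e : I} {z v : S}
    (h1 : g.tl e = Sum.inl z) (h2 : g.hd e = Sum.inl v) (hz : z ≠ g.s) (hv : v ≠ g.s) :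
    (∃ i, g.IsIn i ∧ g.hd i = Sum.inl z) ∧ (∃ i, g.IsIn i ∧ g.tl i = Sum.inl v) := by
  have hzv : z ≠ v := by
    rintro rfl
    exact h.noloop e (h1.trans h2.symm)
  obtain ⟨c, hc1, hc2, hc3⟩ := hN S T I g h e z v h1 h2 hz hv
  have hbad := h.bad c
  rw [goodB_iff] at hbad
  have hex : ∃ A : Set S, g.s ∉ A ∧ A.Nonempty ∧ ∃ b, ¬ g.Hit c b (SetS T A) := by
    by_contra hcon
    push Not at hcon
    exact hbad ⟨hc1, hcon, hc2⟩
  obtain ⟨A, hsA, hA, b, hb⟩ := hex
  obtain ⟨hb1, hvA, hzA⟩ := hc3 A hsA hA b hb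
  constructor
  · have hh : g.Hit c b (SetS T {z}) := by
      by_contra hcon
      have := (hc3 {z} (by simpa using hz.symm) ⟨z, rfl⟩ b hcon).2.1
      exact hzv (by simpa using this.symm)
    obtain ⟨i, hi1, hi2, hi3⟩ := hh
    have hhd : g.hd i = Sum.inl z := by
      obtain ⟨x, hx, hx'⟩ := hi2
      rw [← hx', Set.mem_singleton_iff.1 hx]
    have htl : g.tl i ∈ SetS T A := by
      by_contra hcon
      exact hb ⟨i, hi1, by rw [hhd]; simpa using hzA, hcon⟩
    obtain ⟨x, hx, hx'⟩ := htl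
    exact ⟨i, ⟨z, x, hx'.symm, hhd, hz, fun hh => hsA (hh ▸ hx)⟩, hhd⟩
  · have hh : g.Hit c b (SetS T (A \ {v})) := by
      by_contra hcon
      have := (hc3 (A \ {v}) (fun hh => hsA hh.1) ⟨z, hzA, hzv⟩ b hcon).2.1
      exact this.2 rfl
    obtain ⟨i, hi1, hi2, hi3⟩ := hh
    obtain ⟨x, hx, hx'⟩ := hi2
    have htl : g.tl i ∈ SetS T A := by
      by_contra hcon
      exact hb ⟨i, hi1, by rw [← hx']; simpa using hx.1, hcon⟩
    obtain ⟨y, hy, hy'⟩ := htl
    have hyv : y = v := by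
      by_contra hcon
      exact hi3 (by rw [← hy']; simpa using ⟨hy, hcon⟩)
    subst hyv
    exact ⟨i, ⟨x, y, hy'.symm, hx'.symm, fun hh => hsA (hh ▸ hx.1), hv⟩, hy'.symm⟩

/-- the type of an in-item of a source -/
theorem in_type (g : ST S T I) {i : I} {v : S} (hv : v ≠ g.s) (hi : g.hd i = Sum.inl v) :
    g.IsK i ∨ g.tl i = Sum.inr g.t ∨ g.tl i = Sum.inl g.s ∨ g.IsIn i := by
  rcases hx : g.tl i with z | w
  · by_cases hz : z = g.s
    · exact Or.inr (Or.inr (Or.inl (by rw [hz])))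
    · exact Or.inr (Or.inr (Or.inr ⟨v, z, hx, hi, hv, hz⟩))
  · by_cases hw : w = g.t
    · exact Or.inr (Or.inl (by rw [hw]))
    · exact Or.inl ⟨v, w, hx, hi, hv, hw⟩

/-- an out-item of a source is an X item -/
theorem out_type (g : ST S T I) {i : I} {v : S} (hi : g.tl i = Sum.inl v) :
    ∃ u, g.hd i = Sum.inl u := by
  rcases hx : g.hd i with u | w
  · exact ⟨u, rfl⟩
  · exact (no_ST g hi hx).elim

/-- in-items from `s` and one inner X item (excluded in the end) -/
def ST.SX (g : ST S T I) (u : S) : Prop :=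
  u ≠ g.s ∧ ∃ a x, a ≠ x ∧ g.inE u = {a, x} ∧ g.tl a = Sum.inl g.s ∧ g.IsIn x

section Main

variable {g : ST S T I} (h : MinInst g) (hE : Stmt_Elim) (hN : Stmt_Near) (hKs : Stmt_DelKs)
  {w0 : T} (hw0 : w0 ≠ g.t)

include h hN in
/-- no inner in-item: no inner out-item -/
theorem no_inner_out {v : S} (hv : v ≠ g.s) (hi : ∀ i, g.hd i = Sum.inl v → ¬ g.IsIn i) :
    ∀ i, g.tl i = Sum.inl v → g.hd i = Sum.inl g.s := by
  intro i h1
  obtain ⟨u, hu⟩ := out_type g h1
  by_contra hcon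
  have hus : u ≠ g.s := fun hh => hcon (by rw [hu, hh])
  obtain ⟨j, hj1, hj2⟩ := (h.p4 hN h1 hu hv hus).1
  exact hi j hj2 hj1

theorem IsIn.not_s {i : I} (hi : g.IsIn i) : g.tl i ≠ Sum.inl g.s := by
  obtain ⟨u, v, h1, h2, h3, h4⟩ := hi
  rw [h1]
  simpa using h4

theorem IsIn.not_inr {i : I} (hi : g.IsIn i) (w : T) : g.tl i ≠ Sum.inr w := by
  obtain ⟨u, v, h1, h2, h3, h4⟩ := hi
  rw [h1]
  simp

theorem IsK.not_s {i : I} (hi : g.IsK i) (v : S) : g.tl i ≠ Sum.inl v := by
  obtain ⟨u, w, h1, h2, h3, h4⟩ := hi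
  rw [h1]
  simp

theorem IsK.not_t {i : I} (hi : g.IsK i) : g.tl i ≠ Sum.inr g.t := by
  obtain ⟨u, w, h1, h2, h3, h4⟩ := hi
  rw [h1]
  simpa using h4

theorem IsK.not_in {i : I} (hi : g.IsK i) : ¬ g.IsIn i := by
  rintro ⟨u, v, h1, -⟩
  exact IsK.not_s hi v h1

include h hE hN hKs hw0 in
theorem cases5 (v : S) (hv : v ≠ g.s) :
    g.Pair v ∨ g.Single v ∨ g.DblKK v ∨ g.DblKt v ∨ g.SX v := by
  have := h.finI
  obtain ⟨a, b, hab, hE2⟩ := Set.ncard_eq_two.1 (h.inE_card v)
  have hin : ∀ i, g.hd i = Sum.inl v ↔ i = a ∨ i = b := fun i => by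
    have : i ∈ g.inE v ↔ i ∈ ({a, b} : Set I) := by rw [hE2]
    simpa [ST.inE] using this
  have ha : g.hd a = Sum.inl v := (hin a).2 (Or.inl rfl)
  have hb : g.hd b = Sum.inl v := (hin b).2 (Or.inr rfl)
  -- the cases up to symmetry
  have key : ∀ a b : I, a ≠ b → g.inE v = {a, b} → g.hd a = Sum.inl v → g.hd b = Sum.inl v →
      ((g.IsK a ∧ g.tl b = Sum.inl g.s) ∨ (g.tl a = Sum.inr g.t ∧ g.tl b = Sum.inr g.t) ∨
        (g.tl a = Sum.inr g.t ∧ g.tl b = Sum.inl g.s) ∨ (g.tl a = Sum.inr g.t ∧ g.IsIn b) ∨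
        (g.tl a = Sum.inl g.s ∧ g.tl b = Sum.inl g.s)) → False := by
    intro a b hab hE2 ha hb hc
    have hin : ∀ i, g.hd i = Sum.inl v ↔ i = a ∨ i = b := fun i => by
      have : i ∈ g.inE v ↔ i ∈ ({a, b} : Set I) := by rw [hE2]
      simpa [ST.inE] using this
    have htt : {i | g.tl i = Sum.inr g.t}.ncard = 2 := by
      have := h.dual.inE_card g.t
      rw [← this]
      congr 1
      ext i
      simp [ST.inE]
    rcases hc with ⟨h1, h2⟩ | ⟨h1, h2⟩ | ⟨h1, h2⟩ | ⟨h1, h2⟩ | ⟨h1, h2⟩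
    · -- (K, s)
      have h3 : ∀ i, g.tl i = Sum.inl v → g.hd i = Sum.inl g.s := by
        apply no_inner_out h hN hv
        intro i hi hi'
        rcases (hin i).1 hi with rfl | rfl
        · exact IsK.not_in h1 hi'
        · exact IsIn.not_s hi' h2
      have h4 : g.outE v = ∅ := by
        ext i
        simp only [ST.outE, Set.mem_ofPred_eq, Set.mem_empty_iff_false, iff_false]
        intro hi
        have := h.two_sv hw0 hv (e := i) (e' := b) (Or.inl (h3 i hi)) (Or.inr hi) (Or.inr hb)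
          (Or.inl h2)
        subst this
        rw [h2, Sum.inl.injEq] at hi
        exact hv hi.symm
      obtain ⟨u, w, k1, k2, k3, k4⟩ := h1
      exact hKs S T I g h v w a b hv k4 hab hE2 k1 h2 h4
    · -- (t, t)
      have h3 : ∀ i, g.tl i = Sum.inl v → g.hd i = Sum.inl g.s := by
        apply no_inner_out h hN hv
        intro i hi hi'
        rcases (hin i).1 hi with rfl | rfl
        · exact IsIn.not_inr hi' _ h1
        · exact IsIn.not_inr hi' _ h2
      have h4 := h.out_ge hw0 hv (fun i hi hi' => by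
        rcases (hin i).1 hi with rfl | rfl
        · exact IsK.not_t hi' h1
        · exact IsK.not_t hi' h2)
      have h5 : (g.outE v).ncard ≤ 1 := by
        rw [Set.ncard_le_one]
        intro i hi j hj
        exact h.two_sv hw0 hv (Or.inl (h3 i hi)) (Or.inr hi) (Or.inl (h3 j hj)) (Or.inr hj)
      have h6 : {i | g.tl i = Sum.inr g.t ∧ g.hd i ≠ Sum.inl v}.ncard ≤ 0 := by
        have hsub : {i | g.tl i = Sum.inr g.t ∧ g.hd i ≠ Sum.inl v} ⊆
            {i | g.tl i = Sum.inr g.t} \ {a, b} := by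
          rintro i ⟨hi1, hi2⟩
          refine ⟨hi1, ?_⟩
          rintro (rfl | rfl)
          · exact hi2 ha
          · exact hi2 hb
        have hsub2 : ({a, b} : Set I) ⊆ {i | g.tl i = Sum.inr g.t} := by
          rintro i (rfl | rfl)
          · exact h1
          · exact h2
        have hc1 := Set.ncard_le_ncard hsub (Set.toFinite _)
        have hc2 := Set.ncard_sdiff hsub2 (Set.toFinite _)
        rw [Set.ncard_pair hab, htt] at hc2
        omega
      omega
    · -- (t, s)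
      have h3 : ∀ i, g.tl i = Sum.inl v → g.hd i = Sum.inl g.s := by
        apply no_inner_out h hN hv
        intro i hi hi'
        rcases (hin i).1 hi with rfl | rfl
        · exact IsIn.not_inr hi' _ h1
        · exact IsIn.not_s hi' h2
      have h4 := h.out_ge hw0 hv (fun i hi hi' => by
        rcases (hin i).1 hi with rfl | rfl
        · exact IsK.not_t hi' h1
        · exact IsK.not_s hi' _ h2)
      have h5 : (g.outE v).ncard ≤ 0 := by
        rw [Nat.le_zero, Set.ncard_eq_zero]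
        ext i
        simp only [ST.outE, Set.mem_ofPred_eq, Set.mem_empty_iff_false, iff_false]
        intro hi
        have := h.two_sv hw0 hv (e := i) (e' := b) (Or.inl (h3 i hi)) (Or.inr hi) (Or.inr hb)
          (Or.inl h2)
        subst this
        rw [h2, Sum.inl.injEq] at hi
        exact hv hi.symm
      have h6 : {i | g.tl i = Sum.inr g.t ∧ g.hd i ≠ Sum.inl v}.ncard ≤ 2 := by
        rw [← htt]
        exact Set.ncard_le_ncard (fun i hi => hi.1) (Set.toFinite _)
      omega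
    · -- (t, X)
      have h4 := h.out_ge hw0 hv (fun i hi hi' => by
        rcases (hin i).1 hi with rfl | rfl
        · exact IsK.not_t hi' h1
        · exact IsK.not_in hi' h2)
      have h6 : {i | g.tl i = Sum.inr g.t ∧ g.hd i ≠ Sum.inl v}.ncard ≤ 2 := by
        rw [← htt]
        exact Set.ncard_le_ncard (fun i hi => hi.1) (Set.toFinite _)
      have h7 : (g.outE v).Nonempty := by
        apply Set.nonempty_of_ncard_ne_zero
        omega
      obtain ⟨u, z, k1, k2, k3, k4⟩ := h2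
      exact hE S T I g h v a b hv hab hE2 (Or.inr (Or.inl ⟨h1, ⟨z, k1⟩, h7⟩))
    · -- (s, s)
      exact hab (h.two_sv hw0 hv (Or.inr ha) (Or.inl h1) (Or.inr hb) (Or.inl h2))
  have key1 := key a b hab hE2 ha hb
  have key2 := key b a hab.symm (by rw [hE2, Set.pair_comm]) hb ha
  rcases in_type g hv ha with ta | ta | ta | ta <;> rcases in_type g hv hb with tb | tb | tb | tb
  · exact Or.inr (Or.inr (Or.inl ⟨hv, a, b, hab, hE2, ta, tb⟩))
  · exact Or.inr (Or.inr (Or.inr (Or.inl ⟨hv, a, b, hab, hE2, ta, tb⟩)))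
  · exact (key1 (Or.inl ⟨ta, tb⟩)).elim
  · exact Or.inl ⟨hv, a, b, hab, hE2, ta, tb⟩
  · exact Or.inr (Or.inr (Or.inr (Or.inl ⟨hv, b, a, hab.symm, by rw [hE2, Set.pair_comm], tb, ta⟩)))
  · exact (key1 (Or.inr (Or.inl ⟨ta, tb⟩))).elim
  · exact (key1 (Or.inr (Or.inr (Or.inl ⟨ta, tb⟩)))).elim
  · exact (key1 (Or.inr (Or.inr (Or.inr (Or.inl ⟨ta, tb⟩))))).elim
  · exact (key2 (Or.inl ⟨tb, ta⟩)).elim
  · exact (key2 (Or.inr (Or.inr (Or.inl ⟨tb, ta⟩)))).elim
  · exact (key1 (Or.inr (Or.inr (Or.inr (Or.inr ⟨ta, tb⟩))))).elim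
  · exact Or.inr (Or.inr (Or.inr (Or.inr ⟨hv, a, b, hab, hE2, ta, tb⟩)))
  · exact Or.inl ⟨hv, b, a, hab.symm, by rw [hE2, Set.pair_comm], tb, ta⟩
  · exact (key2 (Or.inr (Or.inr (Or.inr (Or.inl ⟨tb, ta⟩))))).elim
  · exact Or.inr (Or.inr (Or.inr (Or.inr ⟨hv, b, a, hab.symm, by rw [hE2, Set.pair_comm], tb, ta⟩)))
  · exact Or.inr (Or.inl ⟨hv, a, b, hab, hE2, ta, tb⟩)

/-- inner in-items -/
def innIn (g : ST S T I) (u : S) : Set I := {i | g.IsIn i ∧ g.hd i = Sum.inl u}

/-- inner out-items -/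
def innOut (g : ST S T I) (u : S) : Set I := {i | g.IsIn i ∧ g.tl i = Sum.inl u}

theorem sum_innIn (g : ST S T I) [Finite I] [Fintype S] :
    ∑ u : S, (innIn g u).ncard = ∑ u : S, (innOut g u).ncard := by
  classical
  have : Fintype I := Fintype.ofFinite I
  let E : Finset I := Finset.univ.filter (fun i => g.IsIn i)
  let f : I → S := fun i => Sum.elim id (fun _ => g.s) (g.hd i)
  let f' : I → S := fun i => Sum.elim id (fun _ => g.s) (g.tl i)
  have h1 : E.card = ∑ u : S, (innIn g u).ncard := by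
    rw [Finset.card_eq_sum_card_fiberwise (f := f) (t := Finset.univ) (fun i _ => Finset.mem_univ _)]
    refine Finset.sum_congr rfl (fun u _ => ?_)
    rw [← Set.ncard_coe_finset]
    congr 1
    ext i
    simp only [E, f, Finset.coe_filter, Finset.mem_filter, Finset.mem_univ, true_and,
      Set.mem_ofPred_eq, innIn]
    refine and_congr_right (fun hi => ?_)
    obtain ⟨a, b, h1, h2, h3, h4⟩ := hi
    rw [h2]
    simp
  have h2 : E.card = ∑ u : S, (innOut g u).ncard := by
    rw [Finset.card_eq_sum_card_fiberwise (f := f') (t := Finset.univ) (fun i _ => Finset.mem_univ _)]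
    refine Finset.sum_congr rfl (fun u _ => ?_)
    rw [← Set.ncard_coe_finset]
    congr 1
    ext i
    simp only [E, f', Finset.coe_filter, Finset.mem_filter, Finset.mem_univ, true_and,
      Set.mem_ofPred_eq, innOut]
    refine and_congr_right (fun hi => ?_)
    obtain ⟨a, b, h1, h2, h3, h4⟩ := hi
    rw [h1]
    simp
  rw [← h1, h2]

theorem inner_eq_innOut {v : S} (hv : v ≠ g.s) : g.inner v = innOut g v := by
  ext i
  simp only [ST.inner, innOut, Set.mem_ofPred_eq]
  constructor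
  · rintro ⟨h1, h2⟩
    obtain ⟨u, hu⟩ := out_type g h1
    exact ⟨⟨u, v, h1, hu, fun hh => h2 (by rw [hu, hh]), hv⟩, h1⟩
  · rintro ⟨⟨u, z, h1, h2, h3, h4⟩, h5⟩
    refine ⟨h5, ?_⟩
    rw [h2]
    simpa using h3

theorem inE_pair {v : S} {a b : I} (hE2 : g.inE v = {a, b}) (i : I) :
    g.hd i = Sum.inl v ↔ i = a ∨ i = b := by
  have : i ∈ g.inE v ↔ i ∈ ({a, b} : Set I) := by rw [hE2]
  simpa [ST.inE] using this

include h hw0 in
theorem outE_le {v : S} (hv : v ≠ g.s) : (g.outE v).ncard ≤ (innOut g v).ncard + 1 := by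
  have := h.finI
  have hsub : g.outE v ⊆ innOut g v ∪ {i | g.Exit v i} := by
    intro i hi
    by_cases hh : g.hd i = Sum.inl g.s
    · exact Or.inr ⟨hi, hh⟩
    · left
      rw [← inner_eq_innOut hv]
      exact ⟨hi, hh⟩
  have h1 := Set.ncard_le_ncard hsub (Set.toFinite _)
  have h2 := Set.ncard_union_le (innOut g v) {i | g.Exit v i}
  have h3 : {i | g.Exit v i}.ncard ≤ 1 := by
    rw [Set.ncard_le_one]
    intro i hi j hj
    exact h.two_sv hw0 hv (Or.inl hi.2) (Or.inr hi.1) (Or.inl hj.2) (Or.inr hj.1)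
  omega

include h hE hN hKs hw0 in
theorem innIn_le (v : S) (hv : v ≠ g.s) : (innIn g v).ncard ≤ (innOut g v).ncard := by
  have := h.finI
  rcases cases5 h hE hN hKs hw0 v hv with hc | hc | hc | hc | hc
  · obtain ⟨-, k, x, hkx, hE2, hk, hx⟩ := hc
    have h1 : innIn g v = {x} := by
      ext i
      simp only [innIn, Set.mem_ofPred_eq, Set.mem_singleton_iff, inE_pair hE2]
      constructor
      · rintro ⟨hi, rfl | rfl⟩
        · exact (IsK.not_in hk hi).elim
        · rfl
      · rintro rfl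
        exact ⟨hx, Or.inr rfl⟩
    rw [h1, Set.ncard_singleton]
    have hx2 : g.hd x = Sum.inl v := (inE_pair hE2 x).2 (Or.inr rfl)
    obtain ⟨u, z, k1, k2, k3, k4⟩ := hx
    obtain ⟨i, hi1, hi2⟩ := (h.p4 hN k1 hx2 k4 hv).2
    have : (innOut g v).Nonempty := ⟨i, hi1, hi2⟩
    have := this.ncard_pos
    omega
  · obtain ⟨-, x, x', hxx, hE2, hx, hx'⟩ := hc
    have h1 : (innIn g v).ncard ≤ 2 := by
      rw [← Set.ncard_pair hxx, ← hE2]
      exact Set.ncard_le_ncard (fun i hi => hi.2) (Set.toFinite _)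
    have h2 : 3 ≤ (g.outE v).ncard := by
      by_contra hcon
      obtain ⟨u, z, k1, k2, k3, k4⟩ := hx
      obtain ⟨u', z', k1', k2', k3', k4'⟩ := hx'
      exact hE S T I g h v x x' hv hxx hE2 (Or.inl ⟨⟨z, k1⟩, ⟨z', k1'⟩, by omega⟩)
    have h3 := outE_le h hw0 hv
    omega
  · obtain ⟨-, k, k', hkk, hE2, hk, hk'⟩ := hc
    have h1 : innIn g v = ∅ := by
      ext i
      simp only [innIn, Set.mem_ofPred_eq, Set.mem_empty_iff_false, iff_false, inE_pair hE2]
      rintro ⟨hi, rfl | rfl⟩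
      · exact IsK.not_in hk hi
      · exact IsK.not_in hk' hi
    rw [h1]
    simp
  · obtain ⟨-, k, a, hka, hE2, hk, ha⟩ := hc
    have h1 : innIn g v = ∅ := by
      ext i
      simp only [innIn, Set.mem_ofPred_eq, Set.mem_empty_iff_false, iff_false, inE_pair hE2]
      rintro ⟨hi, rfl | rfl⟩
      · exact IsK.not_in hk hi
      · exact IsIn.not_inr hi _ ha
    rw [h1]
    simp
  · obtain ⟨-, a, x, hax, hE2, ha, hx⟩ := hc
    have h1 : (innIn g v).ncard ≤ 2 := by
      rw [← Set.ncard_pair hax, ← hE2]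
      exact Set.ncard_le_ncard (fun i hi => hi.2) (Set.toFinite _)
    have h2 : 3 ≤ (g.outE v).ncard := by
      by_contra hcon
      obtain ⟨u', z', k1', k2', k3', k4'⟩ := hx
      exact hE S T I g h v a x hv hax hE2 (Or.inl ⟨⟨g.s, ha⟩, ⟨z', k1'⟩, by omega⟩)
    have h3 := outE_le h hw0 hv
    omega

include h hE hN hKs hw0 in
/-- inner in-degree = inner out-degree -/
theorem inn_eq (v : S) : (innIn g v).ncard = (innOut g v).ncard := by
  classical
  have := h.finI
  have := h.finS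
  have : Fintype S := Fintype.ofFinite S
  have hle : ∀ u ∈ (Finset.univ : Finset S), (innIn g u).ncard ≤ (innOut g u).ncard := by
    intro u _
    by_cases hu : u = g.s
    · subst hu
      have : innIn g g.s = ∅ := by
        ext i
        simp only [innIn, Set.mem_ofPred_eq, Set.mem_empty_iff_false, iff_false]
        rintro ⟨⟨a, b, h1, h2, h3, h4⟩, h5⟩
        rw [h2, Sum.inl.injEq] at h5
        exact h3 h5
      rw [this]
      simp
    · exact innIn_le h hE hN hKs hw0 u hu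
  exact (Finset.sum_eq_sum_iff_of_le hle).1 (sum_innIn g) v (Finset.mem_univ v)

end Main

/-- module Str -/
theorem Str_proof (hB : Stmt_Base) (hE : Stmt_Elim) (hN : Stmt_Near) (hKs : Stmt_DelKs)
    (hKt : Stmt_DelKt) : Stmt_Str := by
  intro S T I g h
  have := h.finI
  obtain ⟨k0, -, w0, -, -, -, hw0⟩ := h.exists_K hB
  have heq := inn_eq h hE hN hKs hw0
  have huniq : ∀ u e e', g.Exit u e → g.Exit u e' → e = e' := by
    intro u e e' he he'
    have hu : u ≠ g.s := by
      rintro rfl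
      exact h.noloop e (he.1.trans he.2.symm)
    exact h.two_sv hw0 hu (Or.inl he.2) (Or.inr he.1) (Or.inl he'.2) (Or.inr he'.1)
  -- no SX
  have hnoSX : ∀ v, ¬ g.SX v := by
    rintro v ⟨hv, a, x, hax, hE2, ha, hx⟩
    have h1 : innIn g v = {x} := by
      ext i
      simp only [innIn, Set.mem_ofPred_eq, Set.mem_singleton_iff, inE_pair hE2]
      constructor
      · rintro ⟨hi, rfl | rfl⟩
        · exact (IsIn.not_s hi ha).elim
        · rfl
      · rintro rfl
        exact ⟨hx, Or.inr rfl⟩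
    have h2 : 3 ≤ (g.outE v).ncard := by
      by_contra hcon
      obtain ⟨u', z', k1', k2', k3', k4'⟩ := hx
      exact hE S T I g h v a x hv hax hE2 (Or.inl ⟨⟨g.s, ha⟩, ⟨z', k1'⟩, by omega⟩)
    have h3 := outE_le h hw0 hv
    have h4 := heq v
    rw [h1, Set.ncard_singleton] at h4
    omega
  have hcases : ∀ u, u ≠ g.s → g.Pair u ∨ g.Single u ∨ g.DblKK u ∨ g.DblKt u := by
    intro u hu
    rcases cases5 h hE hN hKs hw0 u hu with hc | hc | hc | hc | hc
    · exact Or.inl hc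
    · exact Or.inr (Or.inl hc)
    · exact Or.inr (Or.inr (Or.inl hc))
    · exact Or.inr (Or.inr (Or.inr hc))
    · exact (hnoSX u hc).elim
  have hdbl : ∀ u, g.DblKK u ∨ g.DblKt u → g.inner u = ∅ := by
    intro u hu
    have hus : u ≠ g.s := by
      rcases hu with h | h <;> exact h.1
    have h1 : innIn g u = ∅ := by
      rcases hu with ⟨-, k, k', hkk, hE2, hk, hk'⟩ | ⟨-, k, a, hka, hE2, hk, ha⟩
      · ext i
        simp only [innIn, Set.mem_ofPred_eq, Set.mem_empty_iff_false, iff_false, inE_pair hE2]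
        rintro ⟨hi, rfl | rfl⟩
        · exact IsK.not_in hk hi
        · exact IsK.not_in hk' hi
      · ext i
        simp only [innIn, Set.mem_ofPred_eq, Set.mem_empty_iff_false, iff_false, inE_pair hE2]
        rintro ⟨hi, rfl | rfl⟩
        · exact IsK.not_in hk hi
        · exact IsIn.not_inr hi _ ha
    rw [inner_eq_innOut hus]
    have h2 := heq u
    rw [h1, Set.ncard_empty] at h2
    exact (Set.ncard_eq_zero (Set.toFinite _)).1 h2.symm
  refine ⟨hcases, ?_, ?_, ?_, hdbl, ?_, ?_, huniq⟩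
  · -- noS
    intro i hi
    obtain ⟨u, hu⟩ := out_type g hi
    have hus : u ≠ g.s := by
      rintro rfl
      exact h.noloop i (hi.trans hu.symm)
    rcases hcases u hus with ⟨-, k, x, hkx, hE2, hk, hx⟩ | ⟨-, x, x', hxx, hE2, hx, hx'⟩ |
      ⟨-, k, k', hkk, hE2, hk, hk'⟩ | ⟨-, k, a, hka, hE2, hk, ha⟩
    · rcases (inE_pair hE2 i).1 hu with rfl | rfl
      · exact IsK.not_s hk _ hi
      · exact IsIn.not_s hx hi
    · rcases (inE_pair hE2 i).1 hu with rfl | rfl
      · exact IsIn.not_s hx hi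
      · exact IsIn.not_s hx' hi
    · rcases (inE_pair hE2 i).1 hu with rfl | rfl
      · exact IsK.not_s hk _ hi
      · exact IsK.not_s hk' _ hi
    · rcases (inE_pair hE2 i).1 hu with rfl | rfl
      · exact IsK.not_s hk _ hi
      · rw [hi] at ha
        simp at ha
  · -- pair
    rintro v ⟨hv, k, x, hkx, hE2, hk, hx⟩
    have h1 : innIn g v = {x} := by
      ext i
      simp only [innIn, Set.mem_ofPred_eq, Set.mem_singleton_iff, inE_pair hE2]
      constructor
      · rintro ⟨hi, rfl | rfl⟩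
        · exact (IsK.not_in hk hi).elim
        · rfl
      · rintro rfl
        exact ⟨hx, Or.inr rfl⟩
    have h2 := heq v
    rw [h1, Set.ncard_singleton] at h2
    rw [inner_eq_innOut hv]
    exact Set.ncard_eq_one.1 h2.symm
  · -- single
    rintro v ⟨hv, x, x', hxx, hE2, hx, hx'⟩
    have h1 : innIn g v = {x, x'} := by
      ext i
      simp only [innIn, Set.mem_ofPred_eq, Set.mem_insert_iff, Set.mem_singleton_iff,
        inE_pair hE2]
      constructor
      · rintro ⟨hi, h⟩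
        exact h
      · rintro (rfl | rfl)
        · exact ⟨hx, Or.inl rfl⟩
        · exact ⟨hx', Or.inr rfl⟩
    have h2 := heq v
    rw [h1, Set.ncard_pair hxx] at h2
    rw [inner_eq_innOut hv]
    exact Set.ncard_eq_two.1 h2.symm
  · -- exitSingle
    rintro v ⟨hv, x, x', hxx, hE2, hx, hx'⟩
    by_contra hcon
    have h1 : (innIn g v).ncard ≤ 2 := by
      rw [← Set.ncard_pair hxx, ← hE2]
      exact Set.ncard_le_ncard (fun i hi => hi.2) (Set.toFinite _)
    have h2 : 3 ≤ (g.outE v).ncard := by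
      by_contra hcon
      obtain ⟨u, z, k1, k2, k3, k4⟩ := hx
      obtain ⟨u', z', k1', k2', k3', k4'⟩ := hx'
      exact hE S T I g h v x x' hv hxx hE2 (Or.inl ⟨⟨z, k1⟩, ⟨z', k1'⟩, by omega⟩)
    have h3 : g.outE v ⊆ innOut g v := by
      intro i hi
      rw [← inner_eq_innOut hv]
      exact ⟨hi, fun hh => hcon ⟨i, hi, hh⟩⟩
    have h4 := Set.ncard_le_ncard h3 (Set.toFinite _)
    have h5 := heq v
    omega
  · -- exitKt
    rintro v ⟨hv, k, a, hka, hE2, hk, ha⟩
    by_contra hcon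
    have h4 : g.outE v = ∅ := by
      ext i
      simp only [ST.outE, Set.mem_ofPred_eq, Set.mem_empty_iff_false, iff_false]
      intro hi
      have h5 : i ∈ g.inner v := ⟨hi, fun hh => hcon ⟨i, hi, hh⟩⟩
      rw [hdbl v (Or.inr ⟨hv, k, a, hka, hE2, hk, ha⟩)] at h5
      exact h5
    obtain ⟨u, w, k1, k2, k3, k4⟩ := hk
    exact hKt S T I g h v w k a hv k4 hka hE2 k1 ha h4

end GW
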