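import Pool.Agent.GW.Dual

/-!
# MP_27938c_co: star-correct colourings, tiny cases (no inner items)
-/

namespace GW

variable {S T I : Type}

/-! ## Two fixed-point-free involutions -/

/-- two fixed-point-free involutions have a common proper 2-colouring -/
theorem invol_col {J : Type} (a b : Equiv.Perm J) (ha : ∀ x, a (a x) = x) (hb : ∀ x, b (b x) = x)
    (ha' : ∀ x, a x ≠ x) (hb' : ∀ x, b x ≠ x) :
    ∃ c : J → Bool, ∀ x, c (a x) = !c x ∧ c (b x) = !c x := by
  classical
  set ρ : Equiv.Perm J := a * b with hρ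
  have haa : a * a = 1 := Equiv.ext ha
  have hbb : b * b = 1 := Equiv.ext hb
  have hainv : a⁻¹ = a := inv_eq_of_mul_eq_one_left haa
  have hbinv : b⁻¹ = b := inv_eq_of_mul_eq_one_left hbb
  have hconj : a * ρ * a⁻¹ = ρ⁻¹ := by
    rw [hρ, mul_inv_rev, hainv, hbinv, ← mul_assoc, haa, one_mul]
  have hconjz : ∀ m : ℤ, a * ρ ^ m * a⁻¹ = ρ ^ (-m) := by
    intro m
    have h1 := map_zpow (MulAut.conj a) ρ m
    rw [MulAut.conj_apply, MulAut.conj_apply, hconj] at h1
    rw [h1, inv_zpow, zpow_neg]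
  have hmove : ∀ (m : ℤ) x, a ((ρ ^ m) x) = (ρ ^ (-m)) (a x) := by
    intro m x
    rw [← hconjz m]
    simp
  let o : J → Quotient (Equiv.Perm.SameCycle.setoid ρ) := fun x => Quotient.mk _ x
  have ho : ∀ x y, o x = o y ↔ ρ.SameCycle x y := fun x y => Quotient.eq
  have hne : ∀ x, o (a x) ≠ o x := by
    intro x h
    obtain ⟨n, hn⟩ := (ho x (a x)).1 h.symm
    rcases Int.even_or_odd' n with ⟨m, hm | hm⟩
    · have h1 : (ρ ^ m) ((ρ ^ m) x) = a x := by
        rw [← hn, hm, two_mul, zpow_add, Equiv.Perm.mul_apply]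
      have h2 : (ρ ^ m) x = (ρ ^ (-m)) (a x) := by
        rw [← h1, ← Equiv.Perm.mul_apply, ← zpow_add]
        simp
      exact ha' ((ρ ^ m) x) (by rw [hmove, ← h2])
    · have h1 : (ρ ^ m) (ρ ((ρ ^ m) x)) = a x := by
        rw [← hn, hm]
        have : (2 * m + 1 : ℤ) = m + (1 + m) := by ring
        rw [this, zpow_add, zpow_add, zpow_one]
        rfl
      have h2 : ρ ((ρ ^ m) x) = (ρ ^ (-m)) (a x) := by
        rw [← h1, zpow_neg]
        simp
      rw [← hmove] at h2
      exact hb' ((ρ ^ m) x) (a.injective h2)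
  have hρo : ∀ x, o (ρ x) = o x := by
    intro x
    exact ((ho x (ρ x)).2 ⟨1, by simp⟩).symm
  have haρ : ∀ x, o (a (ρ x)) = o (a x) := by
    intro x
    refine ((ho (a x) (a (ρ x))).2 ⟨-1, ?_⟩).symm
    have := hmove 1 x
    rw [zpow_one] at this
    exact this.symm
  let c : J → Bool := fun x => decide (WellOrderingRel (o x) (o (a x)))
  have hca : ∀ x, c (a x) = !c x := by
    intro x
    simp only [c, ha]
    rcases trichotomous_of WellOrderingRel (o x) (o (a x)) with h | h | h
    · have h' : ¬ WellOrderingRel (o (a x)) (o x) := asymm_of WellOrderingRel h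
      simp [h, h']
    · exact absurd h.symm (hne x)
    · have h' : ¬ WellOrderingRel (o x) (o (a x)) := asymm_of WellOrderingRel h
      simp [h, h']
  have hcρ : ∀ x, c (ρ x) = c x := by
    intro x
    simp only [c, hρo, haρ]
  refine ⟨c, fun x => ⟨hca x, ?_⟩⟩
  have h1 : b x = a (ρ x) := by
    rw [hρ, Equiv.Perm.mul_apply, ha]
  rw [h1, hca, hcρ]

/-! ## Star-correct colourings -/

theorem MinInst.outT_card {g : ST S T I} (hg : MinInst g) (w : T) :
    {i | g.tl i = Sum.inr w}.ncard = 2 := by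
  rw [← hg.exact.2 w]
  congr 1
  ext i
  simp only [Ent, Set.mem_ofPred_eq, Set.mem_compl_iff, Set.mem_singleton_iff, not_not]
  constructor
  · intro h
    exact ⟨fun h' => hg.noloop i (h.trans h'.symm), h⟩
  · exact fun h => h.2

/-- `c` is star-correct: at every source both colours enter, at every sink both colours leave -/
structure StarC (g : ST S T I) (c : I → Bool) : Prop where
  inS : ∀ (u : S) (b : Bool), ∃! i, g.hd i = Sum.inl u ∧ c i = b
  outT : ∀ (w : T) (b : Bool), ∃! i, g.tl i = Sum.inr w ∧ c i = b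

open Classical in
theorem exists_starC {g : ST S T I} (hg : MinInst g) : ∃ c : I → Bool, StarC g c := by
  have hfin := hg.finI
  -- the other in-item / out-item
  have h1 : ∀ u, ∃ i j, i ≠ j ∧ g.inE u = {i, j} := fun u => Set.ncard_eq_two.1 (hg.inE_card u)
  have h2 : ∀ w, ∃ i j, i ≠ j ∧ {i | g.tl i = Sum.inr w} = {i, j} := fun w =>
    Set.ncard_eq_two.1 (hg.outT_card w)
  have ex1 : ∀ i, (∃ u, g.hd i = Sum.inl u) → ∃ j, j ≠ i ∧ g.hd j = g.hd i ∧
      ∀ l, g.hd l = g.hd i → l = i ∨ l = j := by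
    rintro i ⟨u, hu⟩
    obtain ⟨x, y, hxy, hE⟩ := h1 u
    have hm : ∀ l, g.hd l = Sum.inl u ↔ l = x ∨ l = y := by
      intro l
      have : l ∈ g.inE u ↔ l ∈ ({x, y} : Set I) := by rw [hE]
      simpa [ST.inE] using this
    rcases (hm i).1 hu with rfl | rfl
    · exact ⟨y, hxy.symm, by rw [hu]; exact (hm y).2 (Or.inr rfl), fun l hl => (hm l).1 (hl.trans hu)⟩
    · exact ⟨x, hxy, by rw [hu]; exact (hm x).2 (Or.inl rfl),
        fun l hl => ((hm l).1 (hl.trans hu)).symm⟩
  have ex2 : ∀ i, (∃ w, g.tl i = Sum.inr w) → ∃ j, j ≠ i ∧ g.tl j = g.tl i ∧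
      ∀ l, g.tl l = g.tl i → l = i ∨ l = j := by
    rintro i ⟨u, hu⟩
    obtain ⟨x, y, hxy, hE⟩ := h2 u
    have hm : ∀ l, g.tl l = Sum.inr u ↔ l = x ∨ l = y := by
      intro l
      have : l ∈ {i | g.tl i = Sum.inr u} ↔ l ∈ ({x, y} : Set I) := by rw [hE]
      simpa using this
    rcases (hm i).1 hu with rfl | rfl
    · exact ⟨y, hxy.symm, by rw [hu]; exact (hm y).2 (Or.inr rfl), fun l hl => (hm l).1 (hl.trans hu)⟩
    · exact ⟨x, hxy, by rw [hu]; exact (hm x).2 (Or.inl rfl),
        fun l hl => ((hm l).1 (hl.trans hu)).symm⟩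
  choose! oa oa1 oa2 oa3 using ex1
  choose! ob ob1 ob2 ob3 using ex2
  -- `oa` is an involution on its domain
  have oaoa : ∀ i, (∃ u, g.hd i = Sum.inl u) → oa (oa i) = i := by
    intro i hi
    have hi' : ∃ u, g.hd (oa i) = Sum.inl u := by rw [oa2 i hi]; exact hi
    rcases oa3 i hi (oa (oa i)) ((oa2 _ hi').trans (oa2 i hi)) with h | h
    · exact h
    · exact absurd h (oa1 _ hi')
  have obob : ∀ i, (∃ w, g.tl i = Sum.inr w) → ob (ob i) = i := by
    intro i hi
    have hi' : ∃ u, g.tl (ob i) = Sum.inr u := by rw [ob2 i hi]; exact hi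
    rcases ob3 i hi (ob (ob i)) ((ob2 _ hi').trans (ob2 i hi)) with h | h
    · exact h
    · exact absurd h (ob1 _ hi')
  let A : I × Bool → I × Bool := fun x =>
    if ∃ u, g.hd x.1 = Sum.inl u then (oa x.1, x.2) else (x.1, !x.2)
  let B : I × Bool → I × Bool := fun x =>
    if ∃ w, g.tl x.1 = Sum.inr w then (ob x.1, x.2) else (x.1, !x.2)
  have hA : ∀ x, A (A x) = x := by
    rintro ⟨i, b⟩
    by_cases h : ∃ u, g.hd i = Sum.inl u
    · have h' : ∃ u, g.hd (oa i) = Sum.inl u := by rw [oa2 i h]; exact h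
      simp only [A, if_pos h, if_pos h', oaoa i h]
    · simp only [A, if_neg h, Bool.not_not]
  have hB : ∀ x, B (B x) = x := by
    rintro ⟨i, b⟩
    by_cases h : ∃ u, g.tl i = Sum.inr u
    · have h' : ∃ u, g.tl (ob i) = Sum.inr u := by rw [ob2 i h]; exact h
      simp only [B, if_pos h, if_pos h', obob i h]
    · simp only [B, if_neg h, Bool.not_not]
  have hA' : ∀ x, A x ≠ x := by
    rintro ⟨i, b⟩ h'
    by_cases h : ∃ u, g.hd i = Sum.inl u
    · simp only [A, if_pos h, Prod.mk.injEq] at h'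
      exact oa1 i h h'.1
    · simp only [A, if_neg h, Prod.mk.injEq] at h'
      simp at h'
  have hB' : ∀ x, B x ≠ x := by
    rintro ⟨i, b⟩ h'
    by_cases h : ∃ u, g.tl i = Sum.inr u
    · simp only [B, if_pos h, Prod.mk.injEq] at h'
      exact ob1 i h h'.1
    · simp only [B, if_neg h, Prod.mk.injEq] at h'
      simp at h'
  obtain ⟨c, hc⟩ := invol_col (Function.Involutive.toPerm A hA) (Function.Involutive.toPerm B hB)
    hA hB hA' hB'
  refine ⟨fun i => c (i, false), ?_, ?_⟩
  · intro u b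
    obtain ⟨x, y, hxy, hE⟩ := h1 u
    have hm : ∀ l, g.hd l = Sum.inl u ↔ l = x ∨ l = y := by
      intro l
      have : l ∈ g.inE u ↔ l ∈ ({x, y} : Set I) := by rw [hE]
      simpa [ST.inE] using this
    have hx : g.hd x = Sum.inl u := (hm x).2 (Or.inl rfl)
    have hy : g.hd y = Sum.inl u := (hm y).2 (Or.inr rfl)
    have hoa : oa x = y := by
      rcases oa3 x ⟨u, hx⟩ y (hy.trans hx.symm) with h | h
      · exact absurd h.symm hxy
      · exact h.symm
    have h3 := (hc (x, false)).1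
    have h4 : (Function.Involutive.toPerm A hA) (x, false) = (y, false) := by
      change A (x, false) = _
      simp only [A, if_pos (show ∃ u, g.hd x = Sum.inl u from ⟨u, hx⟩), hoa]
    rw [h4] at h3
    by_cases hb : c (x, false) = b
    · refine ⟨x, ⟨hx, hb⟩, ?_⟩
      rintro l ⟨hl, hl'⟩
      rcases (hm l).1 hl with rfl | rfl
      · rfl
      · rw [h3, hb] at hl'
        simp at hl'
    · refine ⟨y, ⟨hy, ?_⟩, ?_⟩
      · rw [h3]
        cases hb2 : b <;> cases hc2 : c (x, false) <;> simp_all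
      · rintro l ⟨hl, hl'⟩
        rcases (hm l).1 hl with rfl | rfl
        · exact absurd hl' hb
        · rfl
  · intro u b
    obtain ⟨x, y, hxy, hE⟩ := h2 u
    have hm : ∀ l, g.tl l = Sum.inr u ↔ l = x ∨ l = y := by
      intro l
      have : l ∈ {i | g.tl i = Sum.inr u} ↔ l ∈ ({x, y} : Set I) := by rw [hE]
      simpa using this
    have hx : g.tl x = Sum.inr u := (hm x).2 (Or.inl rfl)
    have hy : g.tl y = Sum.inr u := (hm y).2 (Or.inr rfl)
    have hob : ob x = y := by
      rcases ob3 x ⟨u, hx⟩ y (hy.trans hx.symm) with h | h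
      · exact absurd h.symm hxy
      · exact h.symm
    have h3 := (hc (x, false)).2
    have h4 : (Function.Involutive.toPerm B hB) (x, false) = (y, false) := by
      change B (x, false) = _
      simp only [B, if_pos (show ∃ u, g.tl x = Sum.inr u from ⟨u, hx⟩), hob]
    rw [h4] at h3
    by_cases hb : c (x, false) = b
    · refine ⟨x, ⟨hx, hb⟩, ?_⟩
      rintro l ⟨hl, hl'⟩
      rcases (hm l).1 hl with rfl | rfl
      · rfl
      · rw [h3, hb] at hl'
        simp at hl'
    · refine ⟨y, ⟨hy, ?_⟩, ?_⟩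
      · rw [h3]
        cases hb2 : b <;> cases hc2 : c (x, false) <;> simp_all
      · rintro l ⟨hl, hl'⟩
        rcases (hm l).1 hl with rfl | rfl
        · exact absurd hl' hb
        · rfl

theorem Tiny_proof : Stmt_Tiny := by
  intro S T I g hg hS hT hin hin'
  have hfI := hg.finI
  have hfS := hg.finS
  have hfT := hg.finT
  obtain ⟨c, hc⟩ := exists_starC hg
  choose inb hinb1 hinb2 using hc.inS
  choose outb houtb1 houtb2 using hc.outT
  -- X items go to `s`
  have hX : ∀ i u v, g.tl i = Sum.inl v → g.hd i = Sum.inl u → u = g.s := by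
    intro i u v h1 h2
    by_contra hu
    exact hin i ⟨u, v, h1, h2, hu, fun hv => hS.noS i (by rw [h1, hv])⟩
  -- Y items come from `t`
  have hY : ∀ i w w', g.tl i = Sum.inr w → g.hd i = Sum.inr w' → w = g.t := by
    intro i w w' h1 h2
    by_contra hw
    refine hin' i ⟨w, w', ?_, ?_, hw, fun hw' => hT.noS i ?_⟩
    · exact (dual_tl_inl g i w').2 h2
    · exact (dual_hd_inl g i w).2 h1
    · exact (dual_tl_inl g i g.t).2 (h2.trans (congrArg Sum.inr hw'))
  refine hg.bad c ((goodB_iff g c).2 ⟨?_, ?_, ?_⟩)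
  · -- type I
    intro Z hZ b
    by_contra hnot
    have hcl := (closed_iff g Z).1 hZ.1
    have hstay : ∀ i, c i = b → g.hd i ∈ Z → g.tl i ∈ Z := by
      intro i h1 h2
      by_contra h3
      exact hnot ⟨i, h1, h2, h3⟩
    -- items into `Z ∩ S` and out of `Z ∩ T`
    let SZ : Set S := {u | Sum.inl u ∈ Z}
    let TZ : Set T := {w | Sum.inr w ∈ Z}
    have htZ : g.t ∉ TZ := hZ.2.2
    let E : Bool → Set I := fun x => (fun u => inb u x) '' SZ
    let F : Bool → Set I := fun x => (fun w => outb w x) '' TZ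
    have hEc : ∀ x, (E x).ncard = SZ.ncard := by
      intro x
      apply Set.ncard_image_of_injective
      intro u v huv
      have h1 := (hinb1 u x).1
      have h2 := (hinb1 v x).1
      rw [show inb u x = inb v x from huv, h2] at h1
      exact (Sum.inl.inj h1).symm
    have hFc : ∀ x, (F x).ncard = TZ.ncard := by
      intro x
      apply Set.ncard_image_of_injective
      intro u v huv
      have h1 := (houtb1 u x).1
      have h2 := (houtb1 v x).1
      rw [show outb u x = outb v x from huv, h2] at h1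
      exact (Sum.inr.inj h1).symm
    have hEm : ∀ x i, i ∈ E x ↔ c i = x ∧ ∃ u, Sum.inl u ∈ Z ∧ g.hd i = Sum.inl u := by
      intro x i
      constructor
      · rintro ⟨u, hu, rfl⟩
        exact ⟨(hinb1 u x).2, u, hu, (hinb1 u x).1⟩
      · rintro ⟨h1, u, hu, h2⟩
        exact ⟨u, hu, (hinb2 u x i ⟨h2, h1⟩).symm⟩
    have hFm : ∀ x i, i ∈ F x ↔ c i = x ∧ ∃ w, Sum.inr w ∈ Z ∧ g.tl i = Sum.inr w := by
      intro x i
      constructor
      · rintro ⟨u, hu, rfl⟩
        exact ⟨(houtb1 u x).2, u, hu, (houtb1 u x).1⟩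
      · rintro ⟨h1, u, hu, h2⟩
        exact ⟨u, hu, (houtb2 u x i ⟨h2, h1⟩).symm⟩
    have hFE : ∀ x, F x ⊆ E x := by
      intro x i hi
      obtain ⟨h1, w, hw, h2⟩ := (hFm x i).1 hi
      have hwt : w ≠ g.t := fun h => hZ.2.2 (h ▸ hw)
      rcases h3 : g.hd i with u | w'
      · exact (hEm x i).2 ⟨h1, u, hcl u w (hop_of_K g h2 h3) hw, h3⟩
      · exact absurd (hY i w w' h2 h3) hwt
    have hdiff : ∀ x, (E x \ F x).ncard = SZ.ncard - TZ.ncard := by
      intro x
      rw [Set.ncard_sdiff (hFE x), hEc, hFc]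
    have hle : (E b \ F b).ncard ≤ 1 := by
      have hsub : E b \ F b ⊆ {inb g.s b} := by
        rintro i ⟨hi, hi'⟩
        obtain ⟨h1, u, hu, h2⟩ := (hEm b i).1 hi
        have h3 : g.tl i ∈ Z := hstay i h1 (by rw [h2]; exact hu)
        rcases h4 : g.tl i with v | w
        · have h5 := hX i u v h4 h2
          rw [h5] at h2
          exact hinb2 g.s b i ⟨h2, h1⟩
        · exact absurd ((hFm b i).2 ⟨h1, w, by rw [← h4]; exact h3, h4⟩) hi'
      calc (E b \ F b).ncard ≤ ({inb g.s b} : Set I).ncard := Set.ncard_le_ncard hsub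
        _ = 1 := Set.ncard_singleton _
    have hent : Ent g.tl g.hd Z ⊆ (E (!b) \ F (!b)) ∪ {outb g.t (!b)} := by
      rintro i ⟨h1, h2⟩
      have hci : c i = !b := by
        cases hb : b <;> cases hc' : c i
        · exact absurd (hstay i (hc'.trans hb.symm) h1) h2
        · rfl
        · rfl
        · exact absurd (hstay i (hc'.trans hb.symm) h1) h2
      rcases h3 : g.hd i with u | w
      · left
        refine ⟨(hEm _ i).2 ⟨hci, u, by rw [← h3]; exact h1, h3⟩, ?_⟩
        intro hF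
        obtain ⟨-, w, hw, h4⟩ := (hFm _ i).1 hF
        exact h2 (by rw [h4]; exact hw)
      · right
        rcases h4 : g.tl i with v | w'
        · exact (no_ST g h4 h3).elim
        · have h5 := hY i w' w h4 h3
          rw [h5] at h4
          exact houtb2 g.t (!b) i ⟨h4, hci⟩
    have hd : g.d Z ≤ 2 := by
      calc g.d Z ≤ ((E (!b) \ F (!b)) ∪ {outb g.t (!b)}).ncard := Set.ncard_le_ncard hent
        _ ≤ (E (!b) \ F (!b)).ncard + ({outb g.t (!b)} : Set I).ncard := Set.ncard_union_le _ _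
        _ ≤ 1 + 1 := by
          rw [hdiff, ← hdiff b, Set.ncard_singleton]
          omega
        _ = 2 := rfl
    by_cases hZs : Z = {Sum.inl g.s}
    · have h1 := hinb1 g.s b
      have h2 := hstay (inb g.s b) h1.2 (by rw [h1.1, hZs]; rfl)
      rw [hZs, Set.mem_singleton_iff] at h2
      exact hg.noloop _ (h2.trans h1.1.symm)
    by_cases hZt : Z = {Sum.inr g.t}ᶜ
    · have h1 := houtb1 g.t b
      have h2 : g.tl (outb g.t b) ∈ Z := by
        apply hstay _ h1.2
        rw [hZt]
        intro h3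
        exact hg.noloop _ (h1.1.trans h3.symm)
      rw [h1.1] at h2
      exact hZ.2.2 h2
    have := hg.three_le_TI hZ hZs hZt
    omega
  · -- type II
    intro A hA hn b
    obtain ⟨u, hu⟩ := hn
    have h1 := hinb1 u b
    refine ⟨inb u b, h1.2, by rw [h1.1]; simpa using hu, ?_⟩
    intro h2
    rcases h3 : g.tl (inb u b) with v | w
    · have h4 := hX _ u v h3 h1.1
      exact hA (h4 ▸ hu)
    · rw [h3] at h2
      exact inr_mem_SetS A w h2
  · -- type III
    intro C hC hn b
    obtain ⟨w, hw⟩ := hn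
    have h1 := houtb1 w b
    refine ⟨outb w b, h1.2, ?_, by rw [h1.1]; simpa using hw⟩
    rcases h3 : g.hd (outb w b) with u | w'
    · exact inl_mem_SetT C u
    · have h4 := hY _ w w' h1.1 h3
      exact absurd (h4 ▸ hw) hC

end GW
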