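import Pool.Agent.GW.Dual

/-!
# MP_27938c_co: the walk of the inner part (Stmt_Walk)

From a root state the walk lemma of `Walk.lean` gives the two leaves.
States of the walk system are functions `st : I → Bool`; only the values at flippable items
matter, `col g c0 st` is the colouring.
-/

namespace GW

namespace WalkI

variable {S T I : Type}

/-- `l` is flipped together with `k` -/
def Rel (g : ST S T I) (k l : I) : Prop :=
  (g.hd l = g.hd k ∧ ∃ z, g.tl l = Sum.inl z) ∨ (g.tl l = g.tl k ∧ ∃ w, g.hd l = Sum.inr w)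

theorem flipc_pos (g : ST S T I) {k l : I} (c : I → Bool) (h : l = k ∨ Rel g k l) :
    g.flipc k c l = !c l := by
  unfold ST.flipc
  exact if_pos h

theorem flipc_neg' (g : ST S T I) {k l : I} (c : I → Bool) (h : ¬ (l = k ∨ Rel g k l)) :
    g.flipc k c l = c l := by
  unfold ST.flipc
  exact if_neg h

theorem rel_dual (g : ST S T I) (k l : I) : Rel g.dual k l ↔ Rel g k l := by
  unfold Rel
  simp only [dual_hd_eq, dual_tl_eq, dual_tl_inl, dual_hd_inr]
  exact or_comm

theorem flp_not_rel {g : ST S T I} {k l : I} (h : g.Flp l) : ¬ Rel g k l := by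
  obtain ⟨u, w, h1, h2, -⟩ := h
  rintro (⟨-, z, hz⟩ | ⟨-, z, hz⟩)
  · rw [h1] at hz
    exact absurd hz (by simp)
  · rw [h2] at hz
    exact absurd hz (by simp)

/-- a flippable item into a vertex entered by an X item: the vertex is a pair -/
theorem flp_X {g : ST S T I} {k l : I} {z : S} (hk : g.Flp k) (h1 : g.hd l = g.hd k)
    (h2 : g.tl l = Sum.inl z) :
    ∃ u, g.hd k = Sum.inl u ∧ g.Pair u ∧ g.inE u = {k, l} := by
  obtain ⟨u, w, h3, h4, h5, h6, h7, h8⟩ := hk
  have hl : l ∈ g.inE u := h1.trans h4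
  have hk : k ∈ g.inE u := h4
  rcases h7 with hP | ⟨hD, -⟩
  · have hP0 := hP
    obtain ⟨-, a, x, hax, hin, ⟨u', w', ha, -⟩, ⟨u'', v, hx, -⟩⟩ := hP
    refine ⟨u, h4, hP0, ?_⟩
    rw [hin] at hl hk
    have e1 : l = x := by
      rcases hl with rfl | hl
      · rw [h2] at ha
        exact absurd ha (by simp)
      · exact hl
    have e2 : k = a := by
      rcases hk with hk | hk
      · exact hk
      · rw [Set.mem_singleton_iff] at hk
        subst hk
        rw [h3] at hx
        exact absurd hx (by simp)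
    rw [hin, e1, e2]
  · obtain ⟨-, a, x, hax, hin, ⟨u', w', ha, -⟩, ⟨u'', v, hx, -⟩⟩ := hD
    rw [hin] at hl
    rcases hl with rfl | hl
    · rw [h2] at ha
      exact absurd ha (by simp)
    · rw [Set.mem_singleton_iff] at hl
      subst hl
      rw [h2] at hx
      exact absurd hx (by simp)

theorem rel_uniq_X {g : ST S T I} {k k' l : I} {z : S} (hk : g.Flp k) (hk' : g.Flp k')
    (h : g.hd l = g.hd k) (h' : g.hd l = g.hd k') (hz : g.tl l = Sum.inl z) : k = k' := by
  obtain ⟨u, h1, -, h2⟩ := flp_X hk h hz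
  have h3 : k' ∈ g.inE u := by
    show g.hd k' = Sum.inl u
    rw [← h', h, h1]
  rw [h2] at h3
  rcases h3 with h3 | h3
  · exact h3.symm
  · rw [Set.mem_singleton_iff] at h3
    subst h3
    obtain ⟨-, w, h4, -⟩ := hk'
    rw [hz] at h4
    exact absurd h4 (by simp)

theorem rel_uniq {g : ST S T I} {k k' l : I} (hk : g.Flp k) (hk' : g.Flp k') (h : Rel g k l)
    (h' : Rel g k' l) : k = k' := by
  rcases h with ⟨h1, z, hz⟩ | ⟨h1, w, hw⟩
  · rcases h' with ⟨h1', z', hz'⟩ | ⟨h1', w', hw'⟩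
    · exact rel_uniq_X hk hk' h1 h1' hz
    · exact absurd (no_ST g hz hw') id
  · rcases h' with ⟨h1', z', hz'⟩ | ⟨h1', w', hw'⟩
    · exact absurd (no_ST g hz' hw) id
    · exact rel_uniq_X (g := g.dual) ((flp_dual g k).2 hk) ((flp_dual g k').2 hk')
        ((dual_hd_eq g _ _).2 h1) ((dual_hd_eq g _ _).2 h1') ((dual_tl_inl g _ _).2 hw)

open Classical in
/-- the colouring with frozen colours `c0` and the values `st` on the flippable items -/
noncomputable def col (g : ST S T I) (c0 st : I → Bool) : I → Bool := fun l =>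
  if g.Flp l then st l else if h : ∃ k, g.Flp k ∧ Rel g k l then !st h.choose else c0 l

theorem col_flp (g : ST S T I) (c0 st : I → Bool) {l : I} (h : g.Flp l) :
    col g c0 st l = st l := by
  unfold col
  rw [if_pos h]

theorem col_rel (g : ST S T I) (c0 st : I → Bool) {k l : I} (hk : g.Flp k) (h : Rel g k l) :
    col g c0 st l = !st k := by
  unfold col
  have h1 : ¬ g.Flp l := fun hl => flp_not_rel hl h
  have h2 : ∃ k, g.Flp k ∧ Rel g k l := ⟨k, hk, h⟩
  rw [if_neg h1, dif_pos h2, rel_uniq h2.choose_spec.1 hk h2.choose_spec.2 h]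

theorem col_frozen (g : ST S T I) (c0 st : I → Bool) {l : I} (h : ¬ g.Flp l)
    (h' : ∀ k, g.Flp k → ¬ Rel g k l) : col g c0 st l = c0 l := by
  unfold col
  have h2 : ¬ ∃ k, g.Flp k ∧ Rel g k l := fun ⟨k, hk, h⟩ => h' k hk h
  rw [if_neg h, dif_neg h2]

theorem col_ext {g : ST S T I} {c0 st c : I → Bool} (h1 : ∀ k, g.Flp k → c k = st k)
    (h2 : ∀ k l, g.Flp k → Rel g k l → c l = !st k)
    (h3 : ∀ l, ¬ g.Flp l → (∀ k, g.Flp k → ¬ Rel g k l) → c l = c0 l) : c = col g c0 st := by
  funext l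
  by_cases hl : g.Flp l
  · rw [h1 l hl, col_flp _ _ _ hl]
  · by_cases hk : ∃ k, g.Flp k ∧ Rel g k l
    · obtain ⟨k, hk, h⟩ := hk
      rw [h2 k l hk h, col_rel _ _ _ hk h]
    · push Not at hk
      rw [h3 l hl hk, col_frozen _ _ _ hl hk]

theorem col_dual (g : ST S T I) (c0 st : I → Bool) : col g.dual c0 st = col g c0 st := by
  apply col_ext
  · intro k hk
    exact col_flp _ _ _ ((flp_dual g k).2 hk)
  · intro k l hk h
    exact col_rel _ _ _ ((flp_dual g k).2 hk) ((rel_dual g k l).2 h)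
  · intro l hl h
    exact col_frozen _ _ _ (fun hh => hl ((flp_dual g l).1 hh))
      (fun k hk hr => h k ((flp_dual g k).1 hk) ((rel_dual g k l).1 hr))

theorem col_neg (g : ST S T I) (c0 st : I → Bool) :
    col g (fun i => !c0 i) (fun i => !st i) = fun i => !(col g c0 st i) := by
  symm
  apply col_ext
  · intro k hk
    simp only [col_flp _ _ _ hk]
  · intro k l hk h
    simp only [col_rel _ _ _ hk h]
  · intro l hl h
    simp only [col_frozen _ _ _ hl h]

theorem col_dual_neg (g : ST S T I) (c0 st : I → Bool) :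
    col g.dual (fun i => !c0 i) (fun i => !st i) = fun i => !(col g c0 st i) := by
  rw [col_dual, col_neg]

theorem flipc_col (g : ST S T I) (c0 st : I → Bool) {k : I} (hk : g.Flp k) :
    g.flipc k (col g c0 st) = col g c0 (flip st k) := by
  apply col_ext
  · intro l hl
    by_cases hlk : l = k
    · subst hlk
      rw [flipc_pos _ _ (Or.inl rfl), col_flp _ _ _ hl, flip_same]
    · rw [flipc_neg' _ _ (by
        rintro (h | h)
        · exact hlk h
        · exact flp_not_rel hl h), col_flp _ _ _ hl, flip_of_ne _ hlk]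
  · intro k' l hk' h
    by_cases hkk : k = k'
    · subst hkk
      rw [flipc_pos _ _ (Or.inr h), col_rel _ _ _ hk' h, flip_same]
    · rw [flipc_neg' _ _ (by
        rintro (h1 | h1)
        · subst h1
          exact flp_not_rel hk h
        · exact hkk (rel_uniq hk hk' h1 h)), col_rel _ _ _ hk' h, flip_of_ne _ (fun hh => hkk hh.symm)]
  · intro l hl h
    rw [flipc_neg' _ _ (by
      rintro (h1 | h1)
      · subst h1
        exact hl hk
      · exact h k hk h1), col_frozen _ _ _ hl h]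

/-! ## Bad sets -/

/-- type II sets not entered by minus -/
def SBad (g : ST S T I) (c : I → Bool) (A : Set S) : Prop :=
  g.s ∉ A ∧ A.Nonempty ∧ ¬ g.Hit c false (SetS T A)

theorem SBad.inter {g : ST S T I} {c : I → Bool} {A B : Set S} (hA : SBad g c A)
    (hB : SBad g c B) (hn : (A ∩ B).Nonempty) : SBad g c (A ∩ B) := by
  refine ⟨fun h => hA.1 h.1, hn, ?_⟩
  rintro ⟨i, h1, h2, h3⟩
  obtain ⟨v, hv, hv'⟩ := h2
  apply h3
  have hA' : g.tl i ∈ SetS T A := by
    by_contra hcon
    exact hA.2.2 ⟨i, h1, ⟨v, hv.1, hv'⟩, hcon⟩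
  have hB' : g.tl i ∈ SetS T B := by
    by_contra hcon
    exact hB.2.2 ⟨i, h1, ⟨v, hv.2, hv'⟩, hcon⟩
  obtain ⟨a, ha, ha'⟩ := hA'
  obtain ⟨b, hb, hb'⟩ := hB'
  have : a = b := Sum.inl_injective (ha'.trans hb'.symm)
  subst this
  exact ⟨a, ⟨ha, hb⟩, ha'⟩

/-- all flippable items into `A` have the value `true` -/
def PortsT (g : ST S T I) (st : I → Bool) (A : Set S) : Prop :=
  ∀ k, g.Flp k → g.hd k ∈ SetS T A → st k = true

theorem bad_iff (g : ST S T I) (c0 st : I → Bool) (A : Set S) :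
    SBad g (col g c0 st) A ↔ SBad g (col g c0 (fun _ => true)) A ∧ PortsT g st A := by
  constructor
  · rintro ⟨h1, h2, h3⟩
    have hP : PortsT g st A := by
      intro k hk hkA
      by_contra hcon
      apply h3
      refine ⟨k, ?_, hkA, ?_⟩
      · rw [col_flp _ _ _ hk]
        simpa using hcon
      · obtain ⟨u, w, h4, -⟩ := hk
        rw [h4]
        exact inr_mem_SetS A w
    refine ⟨⟨h1, h2, ?_⟩, hP⟩
    rintro ⟨i, h4, h5, h6⟩
    apply h3
    refine ⟨i, ?_, h5, h6⟩
    by_cases hi : g.Flp i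
    · rw [col_flp _ _ _ hi] at h4
      exact absurd h4 (by simp)
    · by_cases hk : ∃ k, g.Flp k ∧ Rel g k i
      · obtain ⟨k, hk, hr⟩ := hk
        rw [col_rel _ _ _ hk hr]
        rcases hr with ⟨hr, -⟩ | ⟨-, w, hw⟩
        · rw [hP k hk (hr ▸ h5)]
          rfl
        · rw [hw] at h5
          exact absurd h5 (inr_mem_SetS A w)
      · push Not at hk
        rw [col_frozen _ _ _ hi hk] at h4 ⊢
        exact h4
  · rintro ⟨⟨h1, h2, h3⟩, hP⟩
    refine ⟨h1, h2, ?_⟩
    rintro ⟨i, h4, h5, h6⟩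
    apply h3
    refine ⟨i, ?_, h5, h6⟩
    by_cases hi : g.Flp i
    · rw [col_flp _ _ _ hi, hP i hi h5] at h4
      exact absurd h4 (by simp)
    · by_cases hk : ∃ k, g.Flp k ∧ Rel g k i
      · obtain ⟨k, hk, hr⟩ := hk
        rw [col_rel _ _ _ hk hr]
        rfl
      · push Not at hk
        rw [col_frozen _ _ _ hi hk] at h4 ⊢
        exact h4

/-- nodes: minimal bad sets when all flippable items are plus -/
def SNode (g : ST S T I) (c0 : I → Bool) (A : Set S) : Prop :=
  SBad g (col g c0 (fun _ => true)) A ∧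
    ∀ A', SBad g (col g c0 (fun _ => true)) A' → A' ⊆ A → A' = A

theorem SNode.eq_of_mem {g : ST S T I} {c0 : I → Bool} {A B : Set S} (hA : SNode g c0 A)
    (hB : SNode g c0 B) {v : S} (h1 : v ∈ A) (h2 : v ∈ B) : A = B := by
  have h := hA.1.inter hB.1 ⟨v, h1, h2⟩
  rw [← hA.2 _ h Set.inter_subset_left]
  exact hB.2 _ h Set.inter_subset_right

theorem exists_node [Finite S] {g : ST S T I} {c0 : I → Bool} {A : Set S}
    (h : SBad g (col g c0 (fun _ => true)) A) : ∃ A', A' ⊆ A ∧ SNode g c0 A' := by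
  obtain ⟨A', ⟨h1, h2⟩, h3⟩ := Set.exists_min_image
    {A' | SBad g (col g c0 (fun _ => true)) A' ∧ A' ⊆ A} Set.ncard (Set.toFinite _)
    ⟨A, h, subset_rfl⟩
  refine ⟨A', h2, h1, ?_⟩
  intro B hB hBA
  apply Set.eq_of_subset_of_ncard_le hBA _ (Set.toFinite _)
  exact h3 B ⟨hB, hBA.trans h2⟩

theorem exists_node' [Finite S] {g : ST S T I} {c0 st : I → Bool} {A : Set S}
    (h : SBad g (col g c0 st) A) : ∃ A', A' ⊆ A ∧ SNode g c0 A' ∧ PortsT g st A' := by
  rw [bad_iff] at h
  obtain ⟨A', h1, h2⟩ := exists_node h.1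
  refine ⟨A', h1, h2, fun k hk hkA => h.2 k hk ?_⟩
  obtain ⟨v, hv, hv'⟩ := hkA
  exact ⟨v, h1 hv, hv'⟩

theorem SNode.bad {g : ST S T I} {c0 st : I → Bool} {A : Set S} (h : SNode g c0 A)
    (h' : PortsT g st A) : SBad g (col g c0 st) A := (bad_iff g c0 st A).2 ⟨h.1, h'⟩

/-! ## Legality -/

/-- everything except the two kinds of defects -/
def LegAll (g : ST S T I) (c : I → Bool) : Prop :=
  g.LegC c ∧ (∀ A : Set S, g.s ∉ A → A.Nonempty → g.Hit c true (SetS T A)) ∧
    ∀ C : Set T, g.t ∉ C → C.Nonempty → g.Hit c false (SetT S C)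

theorem hit_dual_SetS (g : ST S T I) (c : I → Bool) (b : Bool) (C : Set T) :
    g.dual.Hit (fun i => !c i) b (SetS S C) ↔ g.Hit c (!b) (SetT S C) := by
  rw [← dZ_SetT, hit_dual_neg]

theorem hit_dual_SetT (g : ST S T I) (c : I → Bool) (b : Bool) (A : Set S) :
    g.dual.Hit (fun i => !c i) b (SetT T A) ↔ g.Hit c (!b) (SetS T A) := by
  rw [← dZ_SetS, hit_dual_neg]

theorem legAll_dual (g : ST S T I) (c : I → Bool) :
    LegAll g.dual (fun i => !c i) ↔ LegAll g c := by
  unfold LegAll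
  rw [legC_dual, legC_neg]
  simp only [hit_dual_SetS, hit_dual_SetT, dual_s, dual_t, Bool.not_true, Bool.not_false]
  tauto

theorem SState.legAll {g : ST S T I} {c : I → Bool} {N : Set S} (h : g.SState c N) :
    LegAll g c := ⟨h.tI, h.tII, fun C hC hn => h.tIII C hC hn false⟩

theorem TState.legAll {g : ST S T I} {c : I → Bool} {N : Set T} (h : g.TState c N) :
    LegAll g c := (legAll_dual g c).1 (SState.legAll (g := g.dual) h)

theorem SState.sbad {g : ST S T I} {c : I → Bool} {N : Set S} (h : g.SState c N) :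
    SBad g c N := ⟨h.hs, h.ne, h.bad⟩

/-- the frozen colours are correct at all stars -/
def Root (g : ST S T I) (c0 : I → Bool) : Prop :=
  (∀ u, u ≠ g.s → g.Hit c0 false (SetS T {u})) ∧
    ∀ w, w ≠ g.t → g.dual.Hit (fun i => !c0 i) false (SetS S {w})

theorem Root.dual {g : ST S T I} {c0 : I → Bool} (h : Root g c0) :
    Root g.dual (fun i => !c0 i) := by
  refine ⟨h.2, ?_⟩
  intro u hu
  rw [dual_dual]
  simp only [Bool.not_not]
  exact h.1 u hu

/-- a bad star is a real double with an exit -/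
theorem star_col {g : ST S T I} (hg : MinInst g) {c0 st : I → Bool} (hr : Root g c0) {u : S}
    (h : SBad g (col g c0 st) {u}) : g.DblKK u ∧ ∃ e, g.Exit u e := by
  obtain ⟨h1, -, h3⟩ := h
  rw [Set.mem_singleton_iff] at h1
  obtain ⟨i, h4, h5, h6⟩ := hr.1 u (fun hh => h1 hh.symm)
  have h5' : g.hd i = Sum.inl u := by
    obtain ⟨v, hv, hv'⟩ := h5
    rw [Set.mem_singleton_iff] at hv
    rw [← hv', hv]
  have hexk : ∃ k, g.Flp k ∧ g.hd k = Sum.inl u := by
    by_contra hcon
    push Not at hcon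
    apply h3
    refine ⟨i, ?_, h5, h6⟩
    rw [col_frozen _ _ _ (fun hh => hcon i hh h5'), h4]
    intro k hk hr
    rcases hr with ⟨hr, -⟩ | ⟨-, w, hw⟩
    · exact hcon k hk (hr ▸ h5')
    · rw [hw] at h5'
      exact absurd h5' (by simp)
  obtain ⟨k, hk, hku⟩ := hexk
  have hk0 := hk
  obtain ⟨u', w, h7, h8, h9, h10, h11, h12⟩ := hk
  have : u' = u := by
    rw [hku, Sum.inl.injEq] at h8
    exact h8.symm
  subst this
  rcases h11 with hP | hD
  · exfalso
    obtain ⟨-, a, x, hax, hin, -, ⟨u'', v, hx, hx2, -⟩⟩ := hP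
    have hxu : g.hd x = Sum.inl u' := by
      have : x ∈ g.inE u' := by
        rw [hin]
        exact Or.inr rfl
      exact this
    have hrel : Rel g k x := Or.inl ⟨by rw [hxu, hku], v, hx⟩
    have e1 := col_flp g c0 st hk0
    have e2 := col_rel g c0 st hk0 hrel
    apply h3
    cases hs : st k with
    | false =>
      refine ⟨k, by rw [e1, hs], ⟨u', rfl, hku.symm⟩, ?_⟩
      rw [h7]
      exact inr_mem_SetS _ w
    | true =>
      refine ⟨x, by rw [e2, hs]; rfl, ⟨u', rfl, hxu.symm⟩, ?_⟩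
      rintro ⟨y, hy, hy'⟩
      rw [Set.mem_singleton_iff] at hy
      subst hy
      exact hg.noloop x (by rw [← hy', hxu])
  · exact hD

/-! ## Near states are states -/

/-- the first kind of near states -/
def NearP (g : ST S T I) (c0 st : I → Bool) (A : Set S) : Prop :=
  LegAll g (col g c0 st) ∧ PortsT g st A ∧
    (∀ A', SNode g c0 A' → A' ≠ A → ¬ PortsT g st A') ∧
    ∀ C, SNode g.dual (fun i => !c0 i) C → ¬ PortsT g.dual (fun i => !st i) C

theorem NearP.state {g : ST S T I} (hg : MinInst g) {c0 st : I → Bool} (hr : Root g c0)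
    {A : Set S} (hA : SNode g c0 A) (h : NearP g c0 st A) : g.SState (col g c0 st) A := by
  have := hg.finS
  have := hg.finT
  obtain ⟨h1, h2, h3, h4⟩ := h
  have hb := hA.bad h2
  refine ⟨hb.1, hb.2.1, h1.1, h1.2.1, ?_, hb.2.2, ?_, ?_⟩
  · intro C hC hn b
    cases b with
    | false => exact h1.2.2 C hC hn
    | true =>
      by_contra hcon
      have h5 : SBad g.dual (col g.dual (fun i => !c0 i) (fun i => !st i)) C := by
        refine ⟨hC, hn, ?_⟩
        rw [col_dual_neg, hit_dual_SetS]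
        exact hcon
      obtain ⟨C', h6, h7, h8⟩ := exists_node' h5
      exact h4 C' h7 h8
  · intro A' hs' hn' hA'
    obtain ⟨A'', h6, h7, h8⟩ := exists_node' (g := g) (c0 := c0) (st := st) ⟨hs', hn', hA'⟩
    by_cases h9 : A'' = A
    · rw [← h9]
      exact h6
    · exact absurd h8 (h3 A'' h7 h9)
  · intro u hu
    rw [hu] at hb
    exact (star_col hg hr hb).1

theorem state_node {g : ST S T I} {c0 st : I → Bool} {A : Set S}
    (h : g.SState (col g c0 st) A) : SNode g c0 A := by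
  have hb := SState.sbad h
  rw [bad_iff] at hb
  refine ⟨hb.1, fun A' hA' hsub => ?_⟩
  have h1 : SBad g (col g c0 st) A' := by
    rw [bad_iff]
    refine ⟨hA', fun k hk hkA => hb.2 k hk ?_⟩
    obtain ⟨v, hv, hv'⟩ := hkA
    exact ⟨v, hsub hv, hv'⟩
  exact Set.Subset.antisymm hsub (h.min A' h1.1 h1.2.1 h1.2.2)

theorem state_nearP {g : ST S T I} {c0 st : I → Bool} {A : Set S}
    (h : g.SState (col g c0 st) A) : NearP g c0 st A := by
  have hb := SState.sbad h
  rw [bad_iff] at hb
  have hN := state_node h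
  refine ⟨SState.legAll h, hb.2, ?_, ?_⟩
  · intro A' hA' hne hP
    have h1 := hA'.bad hP
    exact hne (hA'.2 A hN.1 (h.min A' h1.1 h1.2.1 h1.2.2)).symm
  · intro C hC hP
    have h1 := hC.bad hP
    rw [col_dual_neg] at h1
    apply h1.2.2
    rw [hit_dual_SetS]
    exact h.tIII C h1.1 h1.2.1 true

/-- the walk system -/
noncomputable def sys (g : ST S T I) (c0 : I → Bool) :
    WalkSys I ({A : Set S // SNode g c0 A} ⊕ {C : Set T // SNode g.dual (fun i => !c0 i) C}) where
  mem := Sum.elim (fun A => {k | g.Flp k ∧ g.hd k ∈ SetS T A.1})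
    (fun C => {k | g.dual.Flp k ∧ g.dual.hd k ∈ SetS S C.1})
  sg := Sum.elim (fun _ => true) (fun _ => false)
  Legal := fun st => LegAll g (col g c0 st)
  hdisj := by
    rintro (⟨A, hA⟩ | ⟨A, hA⟩) (⟨B, hB⟩ | ⟨B, hB⟩) hs hne
    · rw [Set.disjoint_left]
      rintro k ⟨hk, a, ha, ha'⟩ ⟨-, b, hb, hb'⟩
      have : a = b := Sum.inl_injective (ha'.trans hb'.symm)
      subst this
      apply hne
      have := hA.eq_of_mem hB ha hb
      subst this
      rfl
    · exact absurd hs (by simp)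
    · exact absurd hs (by simp)
    · rw [Set.disjoint_left]
      rintro k ⟨hk, a, ha, ha'⟩ ⟨-, b, hb, hb'⟩
      have : a = b := Sum.inl_injective (ha'.trans hb'.symm)
      subst this
      apply hne
      have := hA.eq_of_mem hB ha hb
      subst this
      rfl

theorem not_portsT {g : ST S T I} {st : I → Bool} {A : Set S} :
    ¬ PortsT g st A ↔ ∃ k, (g.Flp k ∧ g.hd k ∈ SetS T A) ∧ st k ≠ true := by
  unfold PortsT
  push Not
  simp only [and_assoc]

theorem near_inl {g : ST S T I} {c0 st : I → Bool} {A : Set S} (hA : SNode g c0 A) :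
    (sys g c0).Near st (Sum.inl ⟨A, hA⟩) ↔ NearP g c0 st A := by
  unfold WalkSys.Near NearP
  constructor
  · rintro ⟨h1, h2, h3⟩
    refine ⟨h1, fun k hk hkA => h2 k ⟨hk, hkA⟩, ?_, ?_⟩
    · intro A' hA' hne
      rw [not_portsT]
      exact h3 (Sum.inl ⟨A', hA'⟩) (fun hh => hne (by simpa using hh))
    · intro C hC
      rw [not_portsT]
      obtain ⟨k, hk, hk'⟩ := h3 (Sum.inr ⟨C, hC⟩) (by simp)
      exact ⟨k, hk, fun hh => hk' (by
        show st k = false
        simpa using hh)⟩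
  · rintro ⟨h1, h2, h3, h4⟩
    refine ⟨h1, fun k hk => h2 k hk.1 hk.2, ?_⟩
    rintro (⟨A', hA'⟩ | ⟨C, hC⟩) hne
    · have := h3 A' hA' (fun hh => hne (by subst hh; rfl))
      rw [not_portsT] at this
      exact this
    · have := h4 C hC
      rw [not_portsT] at this
      obtain ⟨k, hk, hk'⟩ := this
      exact ⟨k, hk, fun hh => hk' (by
        have : st k = false := hh
        simp [this])⟩

theorem near_inr {g : ST S T I} {c0 st : I → Bool} {C : Set T}
    (hC : SNode g.dual (fun i => !c0 i) C) :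
    (sys g c0).Near st (Sum.inr ⟨C, hC⟩) ↔
      NearP g.dual (fun i => !c0 i) (fun i => !st i) C := by
  unfold WalkSys.Near NearP
  rw [col_dual_neg, legAll_dual, dual_dual]
  simp only [Bool.not_not]
  constructor
  · rintro ⟨h1, h2, h3⟩
    refine ⟨h1, fun k hk hkA => ?_, ?_, ?_⟩
    · have : st k = false := h2 k ⟨hk, hkA⟩
      simp [this]
    · intro A' hA' hne
      rw [not_portsT]
      obtain ⟨k, hk, hk'⟩ := h3 (Sum.inr ⟨A', hA'⟩) (fun hh => hne (by simpa using hh))
      exact ⟨k, hk, fun hh => hk' (by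
        show st k = false
        simpa using hh)⟩
    · intro A hA
      rw [not_portsT]
      exact h3 (Sum.inl ⟨A, hA⟩) (by simp)
  · rintro ⟨h1, h2, h3, h4⟩
    refine ⟨h1, fun k hk => ?_, ?_⟩
    · have := h2 k hk.1 hk.2
      show st k = false
      simpa using this
    rintro (⟨A', hA'⟩ | ⟨C', hC'⟩) hne
    · have := h4 A' hA'
      rw [not_portsT] at this
      exact this
    · have := h3 C' hC' (fun hh => hne (by subst hh; rfl))
      rw [not_portsT] at this
      obtain ⟨k, hk, hk'⟩ := this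
      exact ⟨k, hk, fun hh => hk' (by
        have : st k = false := hh
        simp [this])⟩

/-! ## Ports -/

theorem portS_iff {g : ST S T I} (hg : MinInst g) (h1 : g.StrS) (h2 : g.dual.StrS)
    (hStep : Stmt_Step) {c0 st : I → Bool} {A : Set S} (h : g.SState (col g c0 st) A) (k : I) :
    g.PortS (col g c0 st) A k ↔
      (g.Flp k ∧ g.hd k ∈ SetS T A) ∧ LegAll g (col g c0 (flip st k)) := by
  constructor
  · intro hk
    obtain ⟨w, N', -, -, h3⟩ := hStep S T I g hg h1 h2 _ _ k h hk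
    refine ⟨⟨hk.1, hk.2.1⟩, ?_⟩
    rw [← flipc_col _ _ _ hk.1]
    exact TState.legAll h3
  · rintro ⟨⟨h3, h4⟩, h5⟩
    refine ⟨h3, h4, ?_⟩
    rw [flipc_col _ _ _ h3]
    exact h5.1

theorem port_inl {g : ST S T I} (hg : MinInst g) (h1 : g.StrS) (h2 : g.dual.StrS)
    (hStep : Stmt_Step) {c0 st : I → Bool} {A : Set S} (hA : SNode g c0 A)
    (h : g.SState (col g c0 st) A) (k : I) :
    (sys g c0).Port st (Sum.inl ⟨A, hA⟩) k ↔ g.PortS (col g c0 st) A k := by
  rw [portS_iff hg h1 h2 hStep h]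
  rfl

theorem flip_neg (st : I → Bool) (k : I) : (fun i => !(flip st k i)) = flip (fun i => !st i) k := by
  funext i
  by_cases h : i = k
  · subst h
    rw [flip_same, flip_same]
  · rw [flip_of_ne _ h, flip_of_ne _ h]

theorem port_inr {g : ST S T I} (hg : MinInst g) (h1 : g.StrS) (h2 : g.dual.StrS)
    (hStep : Stmt_Step) {c0 st : I → Bool} {C : Set T} (hC : SNode g.dual (fun i => !c0 i) C)
    (h : g.TState (col g c0 st) C) (k : I) :
    (sys g c0).Port st (Sum.inr ⟨C, hC⟩) k ↔
      g.dual.PortS (fun i => !(col g c0 st i)) C k := by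
  have h' : g.dual.SState (col g.dual (fun i => !c0 i) (fun i => !st i)) C := by
    rw [col_dual_neg]
    exact h
  have h3 := portS_iff hg.dual h2 (by rw [dual_dual]; exact h1) hStep h' k
  rw [col_dual_neg, ← flip_neg, col_dual_neg, legAll_dual] at h3
  rw [h3]
  rfl

/-! ## Leaves -/

theorem hit_s {g : ST S T I} {c : I → Bool} (h : g.LegC c) (b : Bool) :
    ∃ i, c i = b ∧ i ∈ g.inE g.s := by
  have hT : g.TI (SetS T {g.s}) := by
    refine ⟨closed_SetS g _, by simp, ?_⟩
    exact inr_mem_SetS _ _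
  obtain ⟨i, h1, ⟨v, hv, hv'⟩, -⟩ := h _ hT b
  rw [Set.mem_singleton_iff] at hv
  refine ⟨i, h1, ?_⟩
  show g.hd i = Sum.inl g.s
  rw [← hv', hv]

theorem three_false {α : Type} {s : Set α} (h : s.ncard = 2) {a b c : α} (ha : a ∈ s)
    (hb : b ∈ s) (hc : c ∈ s) (h1 : a ≠ b) (h2 : a ≠ c) (h3 : b ≠ c) : False := by
  obtain ⟨x, y, hxy, rfl⟩ := Set.ncard_eq_two.1 h
  simp only [Set.mem_insert_iff, Set.mem_singleton_iff] at ha hb hc
  rcases ha with rfl | rfl <;> rcases hb with rfl | rfl <;> rcases hc with rfl | rfl <;> simp_all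

/-- the items into `s`: exactly one of every colour -/
theorem in_s_uniq {g : ST S T I} (hg : MinInst g) {c : I → Bool} (h : g.LegC c) {e e' : I}
    (he : e ∈ g.inE g.s) (he' : e' ∈ g.inE g.s) (hc : c e = c e') : e = e' := by
  by_contra hne
  obtain ⟨i, h1, h2⟩ := hit_s h (!c e)
  refine three_false (hg.inE_card g.s) h2 he he' ?_ ?_ hne
  · rintro rfl
    cases hh : c i <;> simp [hh] at h1
  · rintro rfl
    rw [hc] at h1
    cases hh : c i <;> simp [hh] at h1

theorem col_exit (g : ST S T I) (c0 st : I → Bool) {i : I} (h : g.hd i = Sum.inl g.s) :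
    col g c0 st i = c0 i := by
  apply col_frozen
  · rintro ⟨u, w, -, h1, h2, -⟩
    rw [h, Sum.inl.injEq] at h1
    exact h2 h1.symm
  · rintro k ⟨u, w, -, h1, h2, -⟩ (⟨h3, -⟩ | ⟨-, w', h3⟩)
    · rw [h, h1, Sum.inl.injEq] at h3
      exact h2 h3.symm
    · rw [h] at h3
      exact absurd h3 (by simp)

theorem col_ent (g : ST S T I) (c0 st : I → Bool) {i : I} (h : g.tl i = Sum.inr g.t) :
    col g c0 st i = c0 i := by
  rw [← col_dual]
  apply col_exit
  simpa using h

theorem pexit_col (g : ST S T I) (c0 st : I → Bool) (v : S) :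
    g.PExit (col g c0 st) v ↔ g.PExit c0 v := by
  unfold ST.PExit
  constructor
  · rintro ⟨e, h1, h2⟩
    rw [col_exit _ _ _ h1.2] at h2
    exact ⟨e, h1, h2⟩
  · rintro ⟨e, h1, h2⟩
    refine ⟨e, h1, ?_⟩
    rw [col_exit _ _ _ h1.2]
    exact h2

theorem pexit_uniq {g : ST S T I} (hg : MinInst g) {c : I → Bool} (h : g.LegC c) {v v' : S}
    (h1 : g.PExit c v) (h2 : g.PExit c v') : v = v' := by
  obtain ⟨e, he, hc⟩ := h1
  obtain ⟨e', he', hc'⟩ := h2
  have := in_s_uniq hg h he.2 he'.2 (hc.trans hc'.symm)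
  subst this
  have := he.1.symm.trans he'.1
  simpa using this

/-- a double node contains the plus exit -/
theorem ndbl_exit {g : ST S T I} (hg : MinInst g) {c0 st : I → Bool} (hr : Root g c0)
    {A : Set S} (h : g.SState (col g c0 st) A) (hD : g.NDbl (col g c0 st) A) :
    ∃ v ∈ A, g.PExit (col g c0 st) v := by
  obtain ⟨u, rfl, hu, hin⟩ := hD
  obtain ⟨-, e, he⟩ := star_col hg hr (SState.sbad h)
  refine ⟨u, rfl, e, he, ?_⟩
  by_contra hce
  have hce : col g c0 st e = false := by simpa using hce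
  have hT : g.TI (SetS T {g.s, u}) := by
    refine ⟨closed_SetS g _, by simp, ?_⟩
    exact inr_mem_SetS _ _
  obtain ⟨i, h1, ⟨v, hv, hv'⟩, h3⟩ := h.tI _ hT false
  rcases hv with rfl | hv
  · have : i = e := in_s_uniq hg h.tI hv'.symm he.2 (h1.trans hce.symm)
    subst this
    apply h3
    rw [he.1]
    simp
  · rw [Set.mem_singleton_iff] at hv
    subst hv
    rw [hin i hv'.symm] at h1
    exact absurd h1 (by simp)

theorem leafS {g : ST S T I} (hg : MinInst g) (h1 : g.StrS) (h2 : g.dual.StrS)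
    (hTwo : Stmt_Two2) {c0 st : I → Bool} (hr : Root g c0)
    {A : Set S} (h : g.SState (col g c0 st) A)
    (hone : ∀ x y, g.PortS (col g c0 st) A x → g.PortS (col g c0 st) A y → x = y) :
    ∃ v ∈ A, g.PExit (col g c0 st) v := by
  by_contra hcon
  push Not at hcon
  have hD : ¬ g.NDbl (col g c0 st) A := by
    intro hD
    obtain ⟨v, hv, hv'⟩ := ndbl_exit hg hr h hD
    exact hcon v hv hv'
  obtain ⟨k, k', hne, hk, hk'⟩ := hTwo S T I g hg h1 h2 _ _ h hcon hD
  exact hne (hone k k' hk hk')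

/-! ## The root -/

theorem root_root {g : ST S T I} (hg : MinInst g) {c0 : I → Bool} {N0 : Set S}
    (h : g.SState c0 N0) (hD : ¬ g.NDbl c0 N0) : Root g c0 := by
  refine ⟨fun u hu => ?_, fun w hw => ?_⟩
  · by_contra hcon
    have h1 : N0 ⊆ {u} := h.min {u} (fun hh => hu hh.symm) ⟨u, rfl⟩ hcon
    have h2 : N0 = {u} := by
      rcases Set.subset_singleton_iff_eq.1 h1 with h2 | h2
      · exact absurd h2 h.ne.ne_empty
      · exact h2
    refine hD ⟨u, h2, h.star u h2, fun i hi => ?_⟩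
    by_contra hci
    apply hcon
    refine ⟨i, by simpa using hci, ⟨u, rfl, hi.symm⟩, ?_⟩
    rintro ⟨y, hy, hy'⟩
    rw [Set.mem_singleton_iff] at hy
    subst hy
    exact hg.noloop i (by rw [← hy', hi])
  · rw [hit_dual_SetS]
    exact h.tIII {w} (fun hh => hw hh.symm) ⟨w, rfl⟩ _

theorem star_X {g : ST S T I} {c : I → Bool}
    (hc : ∀ u, u ≠ g.s → ∀ b, g.Hit c b (SetS T {u})) {k l : I} {z : S} (hk : g.Flp k)
    (h1 : g.hd l = g.hd k) (h2 : g.tl l = Sum.inl z) : c l = !c k := by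
  obtain ⟨u, h3, hP, h4⟩ := flp_X hk h1 h2
  obtain ⟨i, h5, ⟨y, hy, hy'⟩, -⟩ := hc u hP.1 (!c k)
  rw [Set.mem_singleton_iff] at hy
  subst hy
  have h6 : i ∈ g.inE y := hy'.symm
  rw [h4] at h6
  rcases h6 with h6 | h6
  · subst h6
    cases hh : c i <;> simp [hh] at h5
  · rw [Set.mem_singleton_iff] at h6
    subst h6
    exact h5

theorem col_self {g : ST S T I} {c0 : I → Bool} {N0 : Set S} (h : g.SState c0 N0)
    (hr : Root g c0) : col g c0 c0 = c0 := by
  symm
  apply col_ext (fun _ _ => rfl) _ (fun _ _ _ => rfl)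
  rintro k l hk (⟨h1, z, hz⟩ | ⟨h1, w, hw⟩)
  · apply star_X _ hk h1 hz
    intro u hu b
    cases b with
    | true => exact h.tII {u} (fun hh => hu hh.symm) ⟨u, rfl⟩
    | false => exact hr.1 u hu
  · have := star_X (g := g.dual) (c := fun i => !c0 i) (l := l) (k := k) (z := w) (by
      intro w hw b
      rw [hit_dual_SetS]
      exact h.tIII {w} (fun hh => hw hh.symm) ⟨w, rfl⟩ _) ((flp_dual g k).2 hk)
      ((dual_hd_eq g _ _).2 h1) ((dual_tl_inl g _ _).2 hw)
    simpa using this

theorem no_good {g : ST S T I} (hg : MinInst g) (c0 st : I → Bool) :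
    ¬ (sys g c0).Good st := by
  have := hg.finS
  have := hg.finT
  rintro ⟨h1, h2⟩
  apply hg.bad (col g c0 st)
  rw [goodB_iff]
  refine ⟨h1.1, fun A hA hn b => ?_, fun C hC hn b => ?_⟩
  · cases b with
    | true => exact h1.2.1 A hA hn
    | false =>
      by_contra hcon
      obtain ⟨A', -, h3, h4⟩ := exists_node' (g := g) (c0 := c0) (st := st) ⟨hA, hn, hcon⟩
      obtain ⟨k, hk, hk'⟩ := h2 (Sum.inl ⟨A', h3⟩)
      exact hk' (h4 k hk.1 hk.2)
  · cases b with
    | false => exact h1.2.2 C hC hn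
    | true =>
      by_contra hcon
      have h5 : SBad g.dual (col g.dual (fun i => !c0 i) (fun i => !st i)) C := by
        refine ⟨hC, hn, ?_⟩
        rw [col_dual_neg, hit_dual_SetS]
        exact hcon
      obtain ⟨C', -, h3, h4⟩ := exists_node' h5
      obtain ⟨k, hk, hk'⟩ := h2 (Sum.inr ⟨C', h3⟩)
      have := h4 k hk.1 hk.2
      apply hk'
      show st k = false
      simpa using this

/-! ## Assembly -/

theorem Walk_proof (hStep : Stmt_Step) (hTwo : Stmt_Two2) (hOne : Stmt_One1) : Stmt_Walk := by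
  intro S T I g hg h1 h2 c0 N0 h0 hD0
  have hfS := hg.finS
  have hfT := hg.finT
  have hgd := hg.dual
  have h2' : g.dual.dual.StrS := by
    rw [dual_dual]
    exact h1
  have hr := root_root hg h0 hD0
  have hrd := hr.dual
  have hcol := col_self h0 hr
  have h0' : g.SState (col g c0 c0) N0 := by
    rw [hcol]
    exact h0
  have hN0 := state_node h0'
  have hnear0 : (sys g c0).Near c0 (Sum.inl ⟨N0, hN0⟩) := (near_inl hN0).2 (state_nearP h0')
  obtain ⟨k0, hk0⟩ := hOne S T I g hg h1 h2 c0 N0 h0 hD0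
  have hport0 : (sys g c0).Port c0 (Sum.inl ⟨N0, hN0⟩) k0 := by
    rw [port_inl hg h1 h2 hStep hN0 h0', hcol]
    exact hk0
  -- near states are states
  have stS : ∀ st A hA, (sys g c0).Near st (Sum.inl ⟨A, hA⟩) → g.SState (col g c0 st) A :=
    fun st A hA h => NearP.state hg hr hA ((near_inl hA).1 h)
  have stT : ∀ st C hC, (sys g c0).Near st (Sum.inr ⟨C, hC⟩) → g.TState (col g c0 st) C := by
    intro st C hC h
    have := NearP.state hgd hrd hC ((near_inr hC).1 h)
    rwa [col_dual_neg] at this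
  have portT : ∀ st C hC, (sys g c0).Near st (Sum.inr ⟨C, hC⟩) → ∀ k,
      ((sys g c0).Port st (Sum.inr ⟨C, hC⟩) k ↔
        g.dual.PortS (fun i => !(col g c0 st i)) C k) :=
    fun st C hC h k => port_inr hg h1 h2 hStep hC (stT st C hC h) k
  have portS : ∀ st A hA, (sys g c0).Near st (Sum.inl ⟨A, hA⟩) → ∀ k,
      ((sys g c0).Port st (Sum.inl ⟨A, hA⟩) k ↔ g.PortS (col g c0 st) A k) :=
    fun st C hC h k => port_inl hg h1 h2 hStep hC (stS st C hC h) k
  have pexT : ∀ st w, g.dual.PExit (fun i => !(col g c0 st i)) w ↔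
      g.dual.PExit (fun i => !c0 i) w := by
    intro st w
    rw [← col_dual_neg, pexit_col]
  have hlegd : g.dual.LegC (fun i => !c0 i) := by
    rw [legC_dual, legC_neg]
    exact h0.tI
  -- leaves
  have hleafS : ∀ st A hA, (sys g c0).Near st (Sum.inl ⟨A, hA⟩) →
      (∀ x y, (sys g c0).Port st (Sum.inl ⟨A, hA⟩) x →
        (sys g c0).Port st (Sum.inl ⟨A, hA⟩) y → x = y) → ∃ v ∈ A, g.PExit c0 v := by
    intro st A hA h hone
    obtain ⟨v, hv, hv'⟩ := leafS hg h1 h2 hTwo hr (stS st A hA h) (fun x y hx hy =>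
      hone x y ((portS st A hA h x).2 hx) ((portS st A hA h y).2 hy))
    exact ⟨v, hv, (pexit_col g c0 st v).1 hv'⟩
  have hleafT : ∀ st C hC, (sys g c0).Near st (Sum.inr ⟨C, hC⟩) →
      (∀ x y, (sys g c0).Port st (Sum.inr ⟨C, hC⟩) x →
        (sys g c0).Port st (Sum.inr ⟨C, hC⟩) y → x = y) →
      ∃ v ∈ C, g.dual.PExit (fun i => !c0 i) v := by
    intro st C hC h hone
    have hs := stT st C hC h
    have hs' : g.dual.SState (col g.dual (fun i => !c0 i) (fun i => !st i)) C := by
      rw [col_dual_neg]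
      exact hs
    obtain ⟨v, hv, hv'⟩ := leafS hgd h2 h2' hTwo hrd hs' (fun x y hx hy => by
      rw [col_dual_neg] at hx hy
      exact hone x y ((portT st C hC h x).2 hx) ((portT st C hC h y).2 hy))
    exact ⟨v, hv, (pexit_col _ _ _ v).1 hv'⟩
  have uniqS : ∀ A B, SNode g c0 A → SNode g c0 B → (∃ v ∈ A, g.PExit c0 v) →
      (∃ v ∈ B, g.PExit c0 v) → A = B := by
    rintro A B hA hB ⟨v, hv, hv'⟩ ⟨v2, hv2, hv2'⟩
    have := pexit_uniq hg h0.tI hv' hv2'
    subst this
    exact hA.eq_of_mem hB hv hv2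
  have uniqT : ∀ A B, SNode g.dual (fun i => !c0 i) A → SNode g.dual (fun i => !c0 i) B →
      (∃ v ∈ A, g.dual.PExit (fun i => !c0 i) v) →
      (∃ v ∈ B, g.dual.PExit (fun i => !c0 i) v) → A = B := by
    rintro A B hA hB ⟨v, hv, hv'⟩ ⟨v2, hv2, hv2'⟩
    have := pexit_uniq hgd hlegd hv' hv2'
    subst this
    exact hA.eq_of_mem hB hv hv2
  -- both leaves exist
  have hex : ∃ (A : Set S) (B : Set T), SNode g c0 A ∧ SNode g.dual (fun i => !c0 i) B ∧
      (∃ v ∈ A, g.PExit c0 v) ∧ ∃ w ∈ B, g.dual.PExit (fun i => !c0 i) w := by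
    obtain ⟨r, n, e, st, hr0, hw, hp0, hp1, -⟩ := WalkSys.exists_maximal (no_good hg c0) hnear0
      hport0
    have hne := hw.distinct (a := 0) (b := r) hr0 le_rfl
    have hn0 := hw.near 0 (by omega)
    have hnr := hw.near r le_rfl
    have hl0 : ∀ x y, (sys g c0).Port (st 0) (n 0) x → (sys g c0).Port (st 0) (n 0) y →
        x = y := fun x y hx hy => by rw [hp0 x hx, hp0 y hy]
    have hlr : ∀ x y, (sys g c0).Port (st r) (n r) x → (sys g c0).Port (st r) (n r) y →
        x = y := fun x y hx hy => by rw [hp1 x hx, hp1 y hy]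
    rcases hc0 : n 0 with ⟨A, hA⟩ | ⟨A, hA⟩
    · rw [hc0] at hn0 hl0 hne
      rcases hcr : n r with ⟨B, hB⟩ | ⟨B, hB⟩
      · rw [hcr] at hnr hlr hne
        exfalso
        apply hne
        have := uniqS A B hA hB (hleafS _ _ _ hn0 hl0) (hleafS _ _ _ hnr hlr)
        subst this
        rfl
      · rw [hcr] at hnr hlr hne
        exact ⟨A, B, hA, hB, hleafS _ _ _ hn0 hl0, hleafT _ _ _ hnr hlr⟩
    · rw [hc0] at hn0 hl0 hne
      rcases hcr : n r with ⟨B, hB⟩ | ⟨B, hB⟩
      · rw [hcr] at hnr hlr hne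
        exact ⟨B, A, hB, hA, hleafS _ _ _ hnr hlr, hleafT _ _ _ hn0 hl0⟩
      · rw [hcr] at hnr hlr hne
        exfalso
        apply hne
        have := uniqT A B hA hB (hleafT _ _ _ hn0 hl0) (hleafT _ _ _ hnr hlr)
        subst this
        rfl
  obtain ⟨A, B, hA, hB, hspA, hspB⟩ := hex
  obtain ⟨r, n, e, st, hr0, hw, hn0, hnr, hPA, hPB, hmid, hcom, j, hj, hj1, hj2⟩ :=
    WalkSys.walk_lemma (no_good hg c0) (Sum.inl ⟨A, hA⟩) (Sum.inr ⟨B, hB⟩) (by
      rintro t (⟨A', hA'⟩ | ⟨B', hB'⟩) hn hone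
      · left
        have := uniqS A' A hA' hA (hleafS _ _ _ hn hone) hspA
        subst this
        rfl
      · right
        have := uniqT B' B hB' hB (hleafT _ _ _ hn hone) hspB
        subst this
        rfl) hnear0 hport0
  have hnA : (sys g c0).Near (st 0) (Sum.inl ⟨A, hA⟩) := hn0 ▸ hw.near 0 (by omega)
  have hnB : (sys g c0).Near (st r) (Sum.inr ⟨B, hB⟩) := hnr ▸ hw.near r le_rfl
  have hsA := stS _ _ _ hnA
  have hsB := stT _ _ _ hnB
  have he0 : g.Flp (e 0) ∧ g.hd (e 0) ∈ SetS T A := by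
    have := hw.e1 0 hr0
    rw [hn0] at this
    exact this
  have her : g.dual.Flp (e (r - 1)) ∧ g.dual.hd (e (r - 1)) ∈ SetS S B := by
    have := hw.e2 (r - 1) (by omega)
    rw [show r - 1 + 1 = r by omega, hnr] at this
    exact this
  have herF : g.Flp (e (r - 1)) := (flp_dual g _).1 her.1
  have hf0 : g.flipc (e 0) (col g c0 (st 0)) = col g c0 (st 1) := by
    rw [flipc_col _ _ _ he0.1, ← hw.fl 0 hr0]
  have hfr : g.flipc (e (r - 1)) (col g c0 (st r)) = col g c0 (st (r - 1)) := by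
    rw [flipc_col _ _ _ herF]
    have := hw.fl (r - 1) (by omega)
    rw [show r - 1 + 1 = r by omega] at this
    rw [this, flip_flip]
  have hfr' : g.dual.flipc (e (r - 1)) (fun i => !(col g c0 (st r) i)) =
      fun i => !(col g c0 (st (r - 1)) i) := by
    rw [flipc_dual, flipc_neg, hfr]
  have hcommon : ∀ k, g.Flp k → g.hd k ∈ SetS T A → (∃ w ∈ B, g.tl k = Sum.inr w) →
      k = e 0 ∧ r = 1 := by
    rintro k hk hkA ⟨w, hw1, hw2⟩
    have hkB : k ∈ (sys g c0).mem (Sum.inr ⟨B, hB⟩) :=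
      ⟨(flp_dual g k).2 hk, ⟨w, hw1, ((dual_hd_inl g k w).2 hw2).symm⟩⟩
    have hk0 := hcom k ⟨hk, hkA⟩ hkB
    refine ⟨hk0, ?_⟩
    have := hw.last_only hr0 (by
      rw [hnr, ← hk0]
      exact hkB)
    omega
  have hlen : e (r - 1) = e 0 → r = 1 := by
    intro h
    by_contra hne
    exact hw.index_distinct (a := 0) (b := r - 1) (by omega) (by omega) h.symm
  have hnod : r = 1 → g.NDbl (col g c0 (st 0)) A → False := by
    intro hr1 hD
    have : j = 0 ∨ j = 1 := by omega
    rcases this with hj0 | hj0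
    · subst hj0
      rw [hn0] at hj1
      have : A = N0 := by simpa using hj1
      subst this
      rw [hj2, hcol] at hD
      exact hD0 hD
    · subst hj0
      rw [← hr1, hnr] at hj1
      exact absurd hj1 (by simp)
  refine ⟨col g c0 (st 0), A, e 0, col g c0 (st r), B, e (r - 1), ?_, ?_⟩
  · refine ⟨hsA, ?_, ?_, ?_, ?_, ?_, ?_, ?_⟩
    · obtain ⟨v, hv, hv'⟩ := hspA
      exact ⟨v, hv, (pexit_col _ _ _ _).2 hv'⟩
    · intro k
      rw [← portS _ _ _ hnA]
      exact hPA k
    · intro i hi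
      rw [col_ent _ _ _ hi, col_ent _ _ _ hi]
    · intro i hi
      rw [col_exit _ _ _ hi, col_exit _ _ _ hi]
    · rw [hf0]
      by_cases hr1 : r = 1
      · subst hr1
        refine ⟨B, hsB, ?_, Or.inl ⟨rfl, rfl, rfl⟩⟩
        obtain ⟨-, w, hw1, hw2⟩ := her
        exact ⟨w, hw1, (dual_hd_inl g _ w).1 hw2.symm⟩
      · have hn1 := hw.near 1 (by omega)
        have hsg := hw.sg_ne hr0
        have he1 := hw.e2 0 hr0
        have hne1 := hw.distinct (a := 1) (b := r) (by omega) le_rfl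
        have hm1 := hmid 1 (by omega) (by omega)
        rcases hc1 : n 1 with ⟨C, hC⟩ | ⟨C, hC⟩
        · exfalso
          rw [hc1, hn0] at hsg
          exact hsg rfl
        · rw [hc1] at hn1 hne1 hm1
          rw [hnr] at hne1
          rw [show (0 : ℕ) + 1 = 1 from rfl, hc1] at he1
          have hsC := stT _ _ _ hn1
          have hnoex : ∀ x ∈ C, ¬ g.dual.PExit (fun i => !(col g c0 (st 1) i)) x := by
            intro x hx hx'
            apply hne1
            have := uniqT C B hC hB ⟨x, hx, (pexT _ _).1 hx'⟩ hspB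
            subst this
            rfl
          refine ⟨C, hsC, ?_, Or.inr ⟨hnoex, ?_, e 1, hw.nb 0 (by omega), ?_⟩⟩
          · obtain ⟨-, w, hw1, hw2⟩ := he1
            exact ⟨w, hw1, (dual_hd_inl g _ w).1 hw2.symm⟩
          · intro hD
            have hs' : g.dual.SState (col g.dual (fun i => !c0 i) (fun i => !st 1 i)) C := by
              rw [col_dual_neg]
              exact hsC
            obtain ⟨x, hx, hx'⟩ := ndbl_exit hgd hrd hs' (by
              rw [col_dual_neg]
              exact hD)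
            rw [col_dual_neg] at hx'
            exact hnoex x hx hx'
          · intro k
            rw [← portT _ _ _ hn1]
            exact hm1 k
    · intro k hk hkA hkB
      obtain ⟨h3, h4⟩ := hcommon k hk hkA hkB
      subst h4
      exact ⟨h3, rfl, hf0⟩
    · rintro ⟨h3, -, h4, -⟩
      exact hnod (hlen h3) h4
  · refine ⟨hsB, ?_, ?_, ?_, ?_, ?_, ?_, ?_⟩
    · obtain ⟨v, hv, hv'⟩ := hspB
      exact ⟨v, hv, (pexT _ _).2 hv'⟩
    · intro k
      rw [← portT _ _ _ hnB]
      exact hPB k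
    · intro i hi
      have hi' : g.hd i = Sum.inl g.s := by simpa using hi
      simp only [col_exit _ _ _ hi']
    · intro i hi
      have hi' : g.tl i = Sum.inr g.t := by simpa using hi
      simp only [col_ent _ _ _ hi']
    · rw [hfr']
      by_cases hr1 : r = 1
      · subst hr1
        refine ⟨A, ?_, ?_, Or.inl ⟨rfl, rfl, rfl⟩⟩
        · exact (tstate_dual g _ A).2 hsA
        · obtain ⟨-, w, hw1, hw2⟩ := he0
          exact ⟨w, hw1, (dual_tl_inr g _ w).2 hw2.symm⟩
      · have hn1 := hw.near (r - 1) (by omega)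
        have hsg := hw.sg_ne (j := r - 1) (by omega)
        have he1 := hw.e1 (r - 1) (by omega)
        have hne1 := hw.distinct (a := 0) (b := r - 1) (by omega) (by omega)
        have hm1 := hmid (r - 1) (by omega) (by omega)
        rw [show r - 1 + 1 = r by omega, hnr] at hsg
        rcases hc1 : n (r - 1) with ⟨C, hC⟩ | ⟨C, hC⟩
        · rw [hc1] at hn1 hne1 hm1 he1
          rw [hn0] at hne1
          have hsC := stS _ _ _ hn1
          have hnoex : ∀ x ∈ C, ¬ g.PExit (col g c0 (st (r - 1))) x := by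
            intro x hx hx'
            apply hne1
            have := uniqS C A hC hA ⟨x, hx, (pexit_col _ _ _ _).1 hx'⟩ hspA
            subst this
            rfl
          refine ⟨C, (tstate_dual g _ C).2 hsC, ?_, Or.inr ⟨?_, ?_, e (r - 1 - 1), ?_, ?_⟩⟩
          · obtain ⟨-, w, hw1, hw2⟩ := he1
            exact ⟨w, hw1, (dual_tl_inr g _ w).2 hw2.symm⟩
          · rw [dual_dual]
            simp only [Bool.not_not]
            exact hnoex
          · rw [dual_dual]
            simp only [Bool.not_not]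
            intro hD
            obtain ⟨x, hx, hx'⟩ := ndbl_exit hg hr hsC hD
            exact hnoex x hx hx'
          · have := hw.nb (r - 1 - 1) (by omega)
            rw [show r - 1 - 1 + 1 = r - 1 by omega] at this
            exact this.symm
          · intro k
            rw [dual_dual]
            simp only [Bool.not_not]
            rw [← portS _ _ _ hn1, hm1 k]
            exact or_comm
        · exfalso
          rw [hc1] at hsg
          exact hsg rfl
    · rintro k hk ⟨w, hw1, hw2⟩ ⟨u, hu1, hu2⟩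
      have hkA : g.hd k ∈ SetS T A := ⟨u, hu1, ((dual_tl_inr g k u).1 hu2).symm⟩
      obtain ⟨h3, h4⟩ := hcommon k ((flp_dual g k).1 hk) hkA
        ⟨w, hw1, (dual_hd_inl g k w).1 hw2.symm⟩
      subst h4
      exact ⟨h3, rfl, hfr'⟩
    · rintro ⟨h3, -, -, h4⟩
      rw [dual_dual] at h4
      simp only [Bool.not_not] at h4
      exact hnod (hlen h3.symm) h4

end WalkI

theorem Walk_proof (hStep : Stmt_Step) (hTwo : Stmt_Two2) (hOne : Stmt_One1) : Stmt_Walk :=
  WalkI.Walk_proof hStep hTwo hOne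

end GW
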