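import Pool.Agent.GW.Final
import Pool.Agent.GW.Inner
import Pool.Agent.GW.DRedProof
import Pool.Agent.GW.WalkI
import Pool.Agent.GW.Static
import Pool.Agent.GW.CT
import Pool.Agent.GW.DelK
import Pool.Agent.GW.Elim
import Pool.Agent.GW.MUniq
import Pool.Agent.GW.Bad
import Pool.Agent.GW.Step
import Pool.Agent.GW.Node
import Pool.Agent.GW.Tiny
import Pool.Agent.GW.Str
import Pool.Agent.GW.Root
import Pool.Agent.GW.N4
import Pool.Agent.GW.E1

/-!
# MP_27938c_co: the inner part from all its modules
-/

namespace GW

/-- the inner part, from the modules that are still open -/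
theorem step2_of (hE2 : Stmt_E2) : Stmt_Step2 := by
  have hStatic : Stmt_Static := Static_proof CT_proof Node_proof
  have hTwo : Stmt_Two2 := Two2_proof Node_proof hStatic N4_proof Bad_proof MUniq_proof
  have hOne : Stmt_One1 := One1_proof Node_proof hStatic N4_proof Bad_proof MUniq_proof
  have hStr : Stmt_Str := Str_proof Base_proof Elim_proof Near_proof DelKs_proof DelKt_proof
  exact inner_main hStr Root_proof (Walk_proof Step_proof hTwo hOne)
    (E1_proof Node_proof hStatic N4_proof Bad_proof) hE2 Tiny_proof

end GW
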