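import Pool.Agent.GW.Defs

/-!
# MP_27938c_co: statements of the outer modules and the induction-step form of the inner part
-/

namespace GW

open Relation

/-- interior K items: from `w ≠ t` to `u ≠ s` -/
def ST.Kint {S T I : Type} (g : ST S T I) : Set I :=
  {i | ∃ u w, g.tl i = Sum.inr w ∧ g.hd i = Sum.inl u ∧ u ≠ g.s ∧ w ≠ g.t}

/-- inner items: X items whose tail is not `s`, Y items whose head is not `t` -/
def ST.Inner {S T I : Type} (g : ST S T I) : Set I :=
  {i | (∃ u v, g.tl i = Sum.inl v ∧ g.hd i = Sum.inl u ∧ v ≠ g.s) ∨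
    (∃ w w', g.tl i = Sum.inr w ∧ g.hd i = Sum.inr w' ∧ w' ≠ g.t)}

/-- (P1) the only tight closed sets are single sources and complements of single sinks -/
def ST.P1 {S T I : Type} (g : ST S T I) (k : ℕ) : Prop :=
  ∀ Z : Set (S ⊕ T), Closed g.r Z → Z.Nonempty → Z ≠ Set.univ →
    (Ent g.tl g.hd Z).ncard = k → (∃ u, Z = {Sum.inl u}) ∨ (∃ w, Z = {Sum.inr w}ᶜ)

/-- (Lemma E) every non-universal hop is antiparallel to a K item -/
def ST.Anti {S T I : Type} (g : ST S T I) : Prop :=
  ∀ u w, g.B u w → u = g.s ∨ w = g.t ∨ ∃ i, g.tl i = Sum.inr w ∧ g.hd i = Sum.inl u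

/-- the instances over fixed data of size `< n` are colourable -/
def Col (k n : ℕ) : Prop :=
  ∀ (S T I : Type) [Finite S] [Finite T] [Finite I] (g : ST S T I),
    Nat.card S + Nat.card T < n → Valid g.r g.tl g.hd k → ∃ c : I → Fin k, Good g.r g.tl g.hd c

/-- THE INNER PART as an induction step: the instance is a minimal one.
`Col 2 (|S|+|T|)`: every valid instance with fewer vertices is colourable
(no exactness of stars needed).  The last hypothesis: every valid instance on the same
`S, T, s, t, B` with at most as many interior K items and fewer inner items is colourable.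
Comparison instances need neither exact stars nor loop-freeness. -/
def Stmt_Step2 : Prop :=
  ∀ (S T I : Type) [Finite S] [Finite T] [Finite I] (g : ST S T I),
    Valid g.r g.tl g.hd 2 → g.Exact 2 → (∀ i, g.tl i ≠ g.hd i) → g.P1 2 → g.Anti →
    Col 2 (Nat.card S + Nat.card T) →
    (∀ (I' : Type) [Finite I'] (g' : ST S T I'), g'.s = g.s → g'.t = g.t → g'.B = g.B →
      Valid g'.r g'.tl g'.hd 2 → g'.Kint.ncard ≤ g.Kint.ncard →
      g'.Inner.ncard < g.Inner.ncard → ∃ c : I' → Fin 2, Good g'.r g'.tl g'.hd c) →
    ∃ c : I → Fin 2, Good g.r g.tl g.hd c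

/-- base case of the reduction `k → 2`: only universal hops, no interior K item -/
def Stmt_Base : Prop :=
  ∀ (k : ℕ) (S T I : Type) [Finite S] [Finite T] [Finite I] (g : ST S T I), 1 ≤ k →
    Valid g.r g.tl g.hd k → g.Exact k → g.Kint = ∅ → (∀ u w, g.B u w → u = g.s ∨ w = g.t) →
    ∃ c : I → Fin k, Good g.r g.tl g.hd c

/-- the splitting step of the reduction `k → 2`: if the instance in which the interior K item
`e : w → u` is replaced by the items `s → u` and `w → t` has a good `k`-colouring, and the theorem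
holds for `k = 2`, then the instance has a good `k`-colouring.
(The item type of the split instance is `Option I`, `e` itself becomes `s → u`, `none` is `w → t`.) -/
def Stmt_Split : Prop :=
  ∀ (k : ℕ) (S T I : Type) [Finite S] [Finite T] [Finite I] (g : ST S T I), StmtG 2 →
    ∀ (e : I) (u : S) (w : T), g.tl e = Sum.inr w → g.hd e = Sum.inl u →
    ∀ g' : ST S T (Option I), g'.s = g.s → g'.t = g.t → g'.B = g.B →
      (∀ i, i ≠ e → g'.tl (some i) = g.tl i ∧ g'.hd (some i) = g.hd i) →
      g'.tl (some e) = Sum.inl g.s → g'.hd (some e) = Sum.inl u →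
      g'.tl none = Sum.inr w → g'.hd none = Sum.inr g.t →
      (∃ c : Option I → Fin k, Good g'.r g'.tl g'.hd c) →
      ∃ c : I → Fin k, Good g.r g.tl g.hd c

end GW
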