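import Pool.Agent.GW.Edmonds
import Pool.Agent.GW.Stmts

/-!
# MP_27938c_co: base case (only universal hops, no interior K item)
-/

namespace GW

open Relation

section Base

variable {S T I : Type}

/-- head of an X item, in `S` -/
def hdS (g : ST S T I) (i : I) : S :=
  match g.hd i with
  | Sum.inl u => u
  | Sum.inr _ => g.s

/-- tail of an X item, in `S` (all other items are loops) -/
def tlS (g : ST S T I) (i : I) : S :=
  match g.tl i with
  | Sum.inl v => v
  | Sum.inr _ => hdS g i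

/-- tail of a Y item, in `T` -/
def tlT (g : ST S T I) (i : I) : T :=
  match g.tl i with
  | Sum.inr w => w
  | Sum.inl _ => g.t

/-- head of a Y item, in `T` (all other items are loops) -/
def hdT (g : ST S T I) (i : I) : T :=
  match g.hd i with
  | Sum.inr w => w
  | Sum.inl _ => tlT g i

/-- the K items -/
def KIt (g : ST S T I) : Set I := Ent g.tl g.hd (Set.range Sum.inl)

theorem mem_KIt (g : ST S T I) (i : I) :
    i ∈ KIt g ↔ ∃ u w, g.B u w ∧ g.tl i = Sum.inr w ∧ g.hd i = Sum.inl u := by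
  constructor
  · rintro ⟨h1, h2⟩
    rcases g.kind i with h | ⟨u, v, h, h'⟩ | ⟨w, w', h, h'⟩
    · exact h
    · exact absurd ⟨v, h.symm⟩ h2
    · rw [h'] at h1
      obtain ⟨x, hx⟩ := h1
      cases hx
  · rintro ⟨u, w, -, h1, h2⟩
    refine ⟨⟨u, h2.symm⟩, ?_⟩
    rintro ⟨x, hx⟩
    rw [h1] at hx
    cases hx

theorem closed_inl (g : ST S T I) (A : Set S) : Closed g.r (Sum.inl '' A) := by
  rintro x y ⟨u, w, rfl, rfl, -⟩ ⟨z, -, hz⟩
  cases hz

theorem closed_inr (g : ST S T I) (C : Set T) : Closed g.r (Sum.inr '' C)ᶜ := by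
  rintro x y ⟨u, w, rfl, rfl, -⟩ - ⟨z, -, hz⟩
  cases hz

theorem KIt_le [Finite S] [Finite T] [Finite I] (g : ST S T I) {k : ℕ}
    (hv : Valid g.r g.tl g.hd k) : k ≤ (KIt g).ncard := by
  have h := hv (Sum.inl '' Set.univ) (closed_inl g _) ⟨Sum.inl g.s, g.s, trivial, rfl⟩ ?_
  · rwa [Set.image_univ] at h
  · intro h
    have : (Sum.inr g.t : S ⊕ T) ∈ (Sum.inl '' Set.univ : Set (S ⊕ T)) := by rw [h]; trivial
    obtain ⟨z, -, hz⟩ := this
    cases hz

theorem KIt_ge [Finite S] [Finite T] [Finite I] (g : ST S T I) {k : ℕ}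
    (hv : Valid g.r g.tl g.hd k) (hx : g.Exact k)
    (hB : ∀ u w, g.B u w → u = g.s ∨ w = g.t) : (KIt g).ncard ≤ k := by
  classical
  set Z : Set (S ⊕ T) := {x | x = Sum.inl g.s ∨ ∃ w, w ≠ g.t ∧ x = Sum.inr w} with hZ
  have hcl : Closed g.r Z := by
    rintro x y ⟨u, w, rfl, rfl, hb⟩ hy
    rcases hy with hy | ⟨w', hw', hy⟩
    · cases hy
    · cases hy
      rcases hB u w hb with h | h
      · exact Or.inl (by rw [h])
      · exact absurd h hw'
  have h1 := hv Z hcl ⟨Sum.inl g.s, Or.inl rfl⟩ (by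
    intro h
    have h' : (Sum.inr g.t : S ⊕ T) ∈ Z := by rw [h]; trivial
    rcases h' with h' | ⟨w, hw, h'⟩
    · cases h'
    · cases h'
      exact hw rfl)
  have h2 := hx.1 g.s
  have h3 := hx.2 g.t
  have e1 := Set.ncard_union_add_ncard_inter (Ent g.tl g.hd {Sum.inl g.s})
    (Ent g.tl g.hd {Sum.inr g.t}ᶜ) (Set.toFinite _) (Set.toFinite _)
  have e2 := Set.ncard_union_add_ncard_inter (Ent g.tl g.hd Z) (KIt g)
    (Set.toFinite _) (Set.toFinite _)
  have s1 : Ent g.tl g.hd Z ∪ KIt g ⊆ Ent g.tl g.hd {Sum.inl g.s} ∪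
      Ent g.tl g.hd {Sum.inr g.t}ᶜ := by
    rintro i (hi | hi)
    · obtain ⟨a1, a2⟩ := hi
      rcases g.kind i with ⟨u, w, hb, h, h'⟩ | ⟨u, v, h, h'⟩ | ⟨w, w', h, h'⟩
      · rw [h'] at a1
        rcases a1 with a1 | ⟨w', -, a1⟩
        · cases a1
          refine Or.inl ⟨h', ?_⟩
          rw [h]
          exact fun h => by cases h
        · cases a1
      · rw [h'] at a1
        rcases a1 with a1 | ⟨w', -, a1⟩
        · refine Or.inl ⟨by rw [h', a1]; rfl, fun h4 => a2 (Or.inl h4)⟩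
        · cases a1
      · rw [h'] at a1
        rcases a1 with a1 | ⟨w'', hw, a1⟩
        · cases a1
        · have hw2 : w = g.t := by
            by_contra hne
            exact a2 (Or.inr ⟨w, hne, h⟩)
          refine Or.inr ⟨?_, ?_⟩
          · intro h4
            have h5 : g.hd i = Sum.inr g.t := h4
            rw [h', a1] at h5
            cases h5
            exact hw rfl
          · rw [h, hw2]
            exact fun h => h rfl
    · obtain ⟨u, w, hb, h, h'⟩ := (mem_KIt g i).1 hi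
      rcases hB u w hb with h4 | h4
      · refine Or.inl ⟨by rw [h', h4]; rfl, ?_⟩
        rw [h]
        exact fun h => by cases h
      · refine Or.inr ⟨?_, ?_⟩
        · rw [h']
          exact fun h => by cases h
        · rw [h, h4]
          exact fun h => h rfl
  have s2 : Ent g.tl g.hd Z ∩ KIt g ⊆ Ent g.tl g.hd {Sum.inl g.s} ∩
      Ent g.tl g.hd {Sum.inr g.t}ᶜ := by
    rintro i ⟨⟨a1, a2⟩, hi⟩
    obtain ⟨u, w, hb, h, h'⟩ := (mem_KIt g i).1 hi
    rw [h'] at a1
    have hu : (Sum.inl u : S ⊕ T) = Sum.inl g.s := by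
      rcases a1 with a1 | ⟨w', -, a1⟩
      · exact a1
      · cases a1
    have hw : w = g.t := by
      by_contra hne
      exact a2 (Or.inr ⟨w, hne, h⟩)
    refine ⟨⟨by rw [h', hu]; rfl, ?_⟩, ?_, ?_⟩
    · rw [h]
      exact fun h => by cases h
    · rw [h']
      exact fun h => by cases h
    · rw [h, hw]
      exact fun h => h rfl
  have n1 := Set.ncard_le_ncard s1 (Set.toFinite _)
  have n2 := Set.ncard_le_ncard s2 (Set.toFinite _)
  omega

theorem X_enter (g : ST S T I) (i : I) (A : Set S) (h1 : hdS g i ∈ A) (h2 : tlS g i ∉ A) :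
    ∃ u v, g.tl i = Sum.inl v ∧ g.hd i = Sum.inl u ∧ u ∈ A ∧ v ∉ A := by
  rcases ht : g.tl i with v | w
  · rcases g.kind i with ⟨u, w, -, h, -⟩ | ⟨u, v', h, h'⟩ | ⟨w, w', h, h'⟩
    · rw [ht] at h; cases h
    · refine ⟨u, v, rfl, h', ?_, ?_⟩
      · unfold hdS at h1; rw [h'] at h1; exact h1
      · unfold tlS at h2; rw [ht] at h2; exact h2
    · rw [ht] at h; cases h
  · unfold tlS at h2
    rw [ht] at h2
    exact absurd h1 h2

theorem Y_leave (g : ST S T I) (i : I) (C : Set T) (h1 : tlT g i ∈ C) (h2 : hdT g i ∉ C) :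
    ∃ w w', g.tl i = Sum.inr w ∧ g.hd i = Sum.inr w' ∧ w ∈ C ∧ w' ∉ C := by
  rcases ht : g.hd i with u | w'
  · unfold hdT at h2
    rw [ht] at h2
    exact absurd h1 h2
  · rcases g.kind i with ⟨u, w, -, -, h⟩ | ⟨u, v', h, h'⟩ | ⟨w, w'', h, h'⟩
    · rw [ht] at h; cases h
    · rw [ht] at h'; cases h'
    · refine ⟨w, w', h, rfl, ?_, ?_⟩
      · unfold tlT at h1; rw [h] at h1; exact h1
      · unfold hdT at h2; rw [ht] at h2; exact h2

end Base

theorem Base_proof : Stmt_Base := by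
  intro k S T I _ _ _ g hk hv hx _ hB
  classical
  have _ := Fintype.ofFinite S
  have _ := Fintype.ofFinite T
  have _ := Fintype.ofFinite I
  have hK : (KIt g).ncard = k := le_antisymm (KIt_ge g hv hx hB) (KIt_le g hv)
  let κ : Type := {i : I // i ∈ KIt g}
  have hcard : Fintype.card κ = k := by
    rw [← hK, Set.ncard_eq_toFinset_card' (KIt g), Set.toFinset_card]
  have hne : Nonempty κ := by
    rw [← Fintype.card_pos_iff, hcard]
    omega
  let e : κ ≃ Fin k := Fintype.equivFinOfCardEq hcard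
  -- count of the K items
  have hcount : ∀ P : I → Prop, (Finset.univ.filter (fun c : κ => P c.1)).card =
      (KIt g ∩ {i | P i}).ncard := by
    intro P
    rw [Set.ncard_eq_toFinset_card' (KIt g ∩ {i | P i})]
    refine Finset.card_bij (fun c _ => c.1) ?_ ?_ ?_
    · intro c hc
      simp only [Finset.mem_filter, Finset.mem_univ, true_and] at hc
      simp only [Set.mem_toFinset, Set.mem_inter_iff, Set.mem_ofPred_eq]
      exact ⟨c.2, hc⟩
    · intro c _ c' _ h
      exact Subtype.ext h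
    · intro i hi
      simp only [Set.mem_toFinset, Set.mem_inter_iff, Set.mem_ofPred_eq] at hi
      exact ⟨⟨i, hi.1⟩, by simpa using hi.2, rfl⟩
  have hsplit : ∀ P : I → Prop, (KIt g ∩ {i | P i}).ncard + (KIt g ∩ {i | ¬ P i}).ncard = k := by
    intro P
    rw [← hK]
    exact Set.ncard_inter_add_ncard_sdiff_eq_ncard (KIt g) {i | P i} (Set.toFinite _)
  -- X side
  obtain ⟨cX, hcX⟩ := edmonds (κ := κ) (tlS g) (hdS g) (fun c => {hdS g c.1}) (by
    intro A hA
    have h1 := hv (Sum.inl '' (A : Set S)) (closed_inl g _)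
      (by obtain ⟨a, ha⟩ := hA; exact ⟨Sum.inl a, a, ha, rfl⟩)
      (by
        intro h
        have : (Sum.inr g.t : S ⊕ T) ∈ (Sum.inl '' (A : Set S) : Set (S ⊕ T)) := by
          rw [h]; trivial
        obtain ⟨z, -, hz⟩ := this
        cases hz)
    have h2 := hcount (fun i => hdS g i ∉ A)
    have h3 := hsplit (fun i => hdS g i ∈ A)
    have h4 : Ent g.tl g.hd (Sum.inl '' (A : Set S)) ⊆ (KIt g ∩ {i | hdS g i ∈ A}) ∪
        {i | hdS g i ∈ A ∧ tlS g i ∉ A} := by
      rintro i ⟨⟨a, ha, ha'⟩, hi⟩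
      have hhd : hdS g i = a := by unfold hdS; rw [← ha']
      rcases ht : g.tl i with v | w
      · right
        refine ⟨by rw [hhd]; exact ha, ?_⟩
        unfold tlS
        rw [ht]
        intro hv'
        exact hi ⟨v, hv', ht.symm⟩
      · left
        refine ⟨⟨⟨a, ha'⟩, ?_⟩, by show hdS g i ∈ A; rw [hhd]; exact ha⟩
        rintro ⟨x, hx'⟩
        rw [ht] at hx'
        cases hx'
    have h5 := (Set.ncard_le_ncard h4 (Set.toFinite _)).trans (Set.ncard_union_le _ _)
    have h6 : (KIt g ∩ {i | hdS g i ∉ A}).ncard ≤ {i | hdS g i ∈ A ∧ tlS g i ∉ A}.ncard := by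
      omega
    refine le_of_eq_of_le ?_ (h6.trans_eq ?_)
    · rw [← h2]
      congr 1
      ext c
      simp
    · rw [Set.ncard_eq_toFinset_card']
      congr 1
      ext i
      simp)
  obtain ⟨cY, hcY⟩ := edmonds (κ := κ) (hdT g) (tlT g) (fun c => {tlT g c.1}) (by
    intro C hC
    have h1 := hv (Sum.inr '' (C : Set T))ᶜ (closed_inr g _)
      ⟨Sum.inl g.s, by
        rintro ⟨z, -, hz⟩
        cases hz⟩
      (by
        intro h
        obtain ⟨a, ha⟩ := hC
        have h' : (Sum.inr a : S ⊕ T) ∈ ((Sum.inr '' (C : Set T))ᶜ : Set (S ⊕ T)) := by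
          rw [h]; trivial
        exact h' ⟨a, ha, rfl⟩)
    have h2 := hcount (fun i => tlT g i ∉ C)
    have h3 := hsplit (fun i => tlT g i ∈ C)
    have h4 : Ent g.tl g.hd (Sum.inr '' (C : Set T))ᶜ ⊆ (KIt g ∩ {i | tlT g i ∈ C}) ∪
        {i | tlT g i ∈ C ∧ hdT g i ∉ C} := by
      rintro i ⟨hi1, hi2⟩
      obtain ⟨a, ha, ha'⟩ := not_not.1 hi2
      have htl : tlT g i = a := by unfold tlT; rw [← ha']
      rcases ht : g.hd i with v | w
      · left
        refine ⟨⟨⟨v, ht.symm⟩, ?_⟩, by show tlT g i ∈ C; rw [htl]; exact ha⟩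
        rintro ⟨x, hx'⟩
        rw [← ha'] at hx'
        cases hx'
      · right
        refine ⟨by rw [htl]; exact ha, ?_⟩
        unfold hdT
        rw [ht]
        intro hw'
        exact hi1 ⟨w, hw', ht.symm⟩
    have h5 := (Set.ncard_le_ncard h4 (Set.toFinite _)).trans (Set.ncard_union_le _ _)
    have h6 : (KIt g ∩ {i | tlT g i ∉ C}).ncard ≤ {i | tlT g i ∈ C ∧ hdT g i ∉ C}.ncard := by
      omega
    refine le_of_eq_of_le ?_ (h6.trans_eq ?_)
    · rw [← h2]
      congr 1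
      ext c
      simp
    · rw [Set.ncard_eq_toFinset_card']
      congr 1
      ext i
      simp)
  refine ⟨fun i => if h : i ∈ KIt g then e ⟨i, h⟩ else
    if (∃ v, g.tl i = Sum.inl v) then e (cX i) else e (cY i), ?_⟩
  intro Z hZ hZ1 hZ2 j
  obtain ⟨c, rfl⟩ := e.surjective j
  obtain ⟨u0, w0, hb0, ht0, hh0⟩ := (mem_KIt g c.1).1 c.2
  have hhd0 : hdS g c.1 = u0 := by unfold hdS; rw [hh0]
  have htl0 : tlT g c.1 = w0 := by unfold tlT; rw [ht0]
  by_cases hA : ∃ u, Sum.inl u ∈ Z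
  swap
  · exfalso
    obtain ⟨x, hx'⟩ := hZ1
    rcases x with u | w
    · exact hA ⟨u, hx'⟩
    · exact hA ⟨g.s, hZ _ _ ⟨g.s, w, rfl, rfl, g.Bs w⟩ hx'⟩
  by_cases hC : ∃ w, Sum.inr w ∉ Z
  swap
  · exfalso
    apply hZ2
    rw [Set.eq_univ_iff_forall]
    have ht : Sum.inr g.t ∈ Z := by
      by_contra h
      exact hC ⟨_, h⟩
    rintro (u | w)
    · exact hZ _ _ ⟨u, g.t, rfl, rfl, g.Bt u⟩ ht
    · by_contra h
      exact hC ⟨w, h⟩
  by_cases hu : Sum.inl u0 ∈ Z
  · by_cases hw : Sum.inr w0 ∈ Z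
    · -- a Y item
      obtain ⟨w1, hw1⟩ := hC
      obtain ⟨i, hi1, hi2, hi3⟩ := hcY c (Finset.univ.filter (fun w => Sum.inr w ∉ Z))
        ⟨w1, by simpa using hw1⟩ (by
          rw [Finset.disjoint_singleton_right, htl0]
          simpa using hw)
      obtain ⟨w, w', a1, a2, a3, a4⟩ := Y_leave g i
        ((Finset.univ.filter (fun w => Sum.inr w ∉ Z) : Finset T) : Set T)
        (by exact_mod_cast hi2) (by exact_mod_cast hi3)
      have hiK : i ∉ KIt g := by
        rintro ⟨⟨x, hx'⟩, -⟩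
        rw [a2] at hx'
        cases hx'
      have hiX : ¬ ∃ v, g.tl i = Sum.inl v := by
        rintro ⟨v, hv'⟩
        rw [a1] at hv'
        cases hv'
      refine ⟨i, ?_, ?_, ?_⟩
      · show (if h : i ∈ KIt g then e ⟨i, h⟩ else
          if (∃ v, g.tl i = Sum.inl v) then e (cX i) else e (cY i)) = e c
        rw [dif_neg hiK, if_neg hiX, hi1]
      · rw [a2]
        simpa using a4
      · rw [a1]
        simpa using a3
    · -- the K item itself
      refine ⟨c.1, ?_, ?_, ?_⟩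
      · show (if h : c.1 ∈ KIt g then e ⟨c.1, h⟩ else
          if (∃ v, g.tl c.1 = Sum.inl v) then e (cX c.1) else e (cY c.1)) = e c
        rw [dif_pos c.2]
      · rw [hh0]; exact hu
      · rw [ht0]; exact hw
  · -- an X item
    obtain ⟨u1, hu1⟩ := hA
    obtain ⟨i, hi1, hi2, hi3⟩ := hcX c (Finset.univ.filter (fun u => Sum.inl u ∈ Z))
      ⟨u1, by simpa using hu1⟩ (by
        rw [Finset.disjoint_singleton_right, hhd0]
        simpa using hu)
    obtain ⟨u, v, a1, a2, a3, a4⟩ := X_enter g i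
      ((Finset.univ.filter (fun u => Sum.inl u ∈ Z) : Finset S) : Set S)
      (by exact_mod_cast hi2) (by exact_mod_cast hi3)
    have hiK : i ∉ KIt g := by
      rintro ⟨-, hx'⟩
      exact hx' ⟨v, a1.symm⟩
    refine ⟨i, ?_, ?_, ?_⟩
    · show (if h : i ∈ KIt g then e ⟨i, h⟩ else
        if (∃ v, g.tl i = Sum.inl v) then e (cX i) else e (cY i)) = e c
      rw [dif_neg hiK, if_pos ⟨v, a1⟩, hi1]
    · rw [a2]
      simpa using a3
    · rw [a1]
      simpa using a4

end GW
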