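import Pool.Agent.GW.Trim3

/-!
# A minimal general system is a reduced instance with exact stars
-/

namespace GW

open Relation Set

variable {V : Type}

/-- source classes -/
def SC (r : V → V → Prop) : Type := {Z : Set V // ∃ x, Src r x ∧ Z = Idl r x}
/-- sink classes -/
def TC (r : V → V → Prop) : Type := {Z : Set V // ∃ x, Snk r x ∧ Z = Flt r x}

instance [Finite V] (r : V → V → Prop) : Finite (SC r) := by unfold SC; infer_instance
instance [Finite V] (r : V → V → Prop) : Finite (TC r) := by unfold TC; infer_instance

def mkS {r : V → V → Prop} {x : V} (h : Src r x) : SC r := ⟨Idl r x, x, h, rfl⟩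
def mkT {r : V → V → Prop} {x : V} (h : Snk r x) : TC r := ⟨Flt r x, x, h, rfl⟩

theorem flt_eq_iff {r : V → V → Prop} {x y : V} :
    Flt r x = Flt r y ↔ ReflTransGen r x y ∧ ReflTransGen r y x := by
  constructor
  · intro h
    constructor
    · have : y ∈ Flt r x := h ▸ ReflTransGen.refl
      exact this
    · have : x ∈ Flt r y := h ▸ ReflTransGen.refl
      exact this
  · rintro ⟨h1, h2⟩
    ext z
    exact ⟨fun h => ReflTransGen.trans h2 h, fun h => ReflTransGen.trans h1 h⟩

theorem mkS_eq {r : V → V → Prop} {x y : V} (hx : Src r x) (hy : Src r y) :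
    mkS hx = mkS hy ↔ ReflTransGen r x y := by
  constructor
  · intro h
    exact (idl_eq_iff.1 (congrArg Subtype.val h)).1
  · intro h
    exact Subtype.ext (idl_eq_iff.2 ⟨h, hy _ h⟩)

theorem mkT_eq {r : V → V → Prop} {x y : V} (hx : Snk r x) (hy : Snk r y) :
    mkT hx = mkT hy ↔ ReflTransGen r x y := by
  constructor
  · intro h
    exact (flt_eq_iff.1 (congrArg Subtype.val h)).1
  · intro h
    exact Subtype.ext (flt_eq_iff.2 ⟨h, hx _ h⟩)

/-- number of source classes plus number of sink classes is at most the number of classes -/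
theorem card_SC_TC [Finite V] {r : V → V → Prop} (hnb : ∀ x, ¬ (Src r x ∧ Snk r x)) :
    Nat.card (SC r) + Nat.card (TC r) ≤ ncl r := by
  classical
  have : Nat.card (SC r ⊕ TC r) = Nat.card (SC r) + Nat.card (TC r) := Nat.card_sum
  rw [← this]
  let f : SC r ⊕ TC r → (Set.range (Idl r) : Set (Set V)) := fun y =>
    match y with
    | Sum.inl u => ⟨Idl r u.2.choose, ⟨_, rfl⟩⟩
    | Sum.inr w => ⟨Idl r w.2.choose, ⟨_, rfl⟩⟩
  have hf : Function.Injective f := by
    rintro (u | u) (w | w) h
    · have h1 : Idl r u.2.choose = Idl r w.2.choose := congrArg Subtype.val h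
      rw [← u.2.choose_spec.2, ← w.2.choose_spec.2] at h1
      rw [Subtype.ext h1]
    · exfalso
      have h1 : Idl r u.2.choose = Idl r w.2.choose := congrArg Subtype.val h
      have h2 := idl_eq_iff.1 h1
      apply hnb u.2.choose
      refine ⟨u.2.choose_spec.1, ?_⟩
      intro y hy
      exact (w.2.choose_spec.1 y (h2.2.trans hy)).trans h2.2
    · exfalso
      have h1 : Idl r u.2.choose = Idl r w.2.choose := congrArg Subtype.val h
      have h2 := idl_eq_iff.1 h1
      apply hnb w.2.choose
      refine ⟨w.2.choose_spec.1, ?_⟩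
      intro y hy
      exact (u.2.choose_spec.1 y (h2.1.trans hy)).trans h2.1
    · have h1 : Idl r u.2.choose = Idl r w.2.choose := congrArg Subtype.val h
      have h2 := idl_eq_iff.1 h1
      have h3 : u.1 = w.1 := by
        rw [u.2.choose_spec.2, w.2.choose_spec.2]
        exact flt_eq_iff.2 h2
      rw [Subtype.ext h3]
  have h1 := Nat.card_le_card_of_injective f hf
  unfold ncl
  rwa [Nat.card_coe_set_eq] at h1

section

variable {I : Type} [Finite I] [Finite V] {r : V → V → Prop} {s t : V} {tl hd : I → V} {k : ℕ}

open Classical in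
/-- embedding of the ends -/
noncomputable def emb (r : V → V → Prop) (d : SC r ⊕ TC r) (x : V) : SC r ⊕ TC r :=
  if h : Src r x then Sum.inl (mkS h) else if h' : Snk r x then Sum.inr (mkT h') else d

theorem emb_src {d : SC r ⊕ TC r} {x : V} (h : Src r x) : emb r d x = Sum.inl (mkS h) := by
  unfold emb
  rw [dif_pos h]

theorem emb_snk {d : SC r ⊕ TC r} {x : V} (hn : ¬ Src r x) (h : Snk r x) :
    emb r d x = Sum.inr (mkT h) := by
  unfold emb
  rw [dif_neg hn, dif_pos h]

theorem colr_of_min (hk : 1 ≤ k) (hP : PP r s t k) (hM : MinC r s t tl hd k) (hs : Src r s)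
    (ht : Snk r t)
    (hcol : ∀ (S T : Type) [Finite S] [Finite T] (g : ST S T I),
      Nat.card S + Nat.card T ≤ ncl r → Valid g.r g.tl g.hd k → g.Exact k →
      ∃ c : I → Fin k, Good g.r g.tl g.hd c) : False := by
  classical
  have hG := hM.1.1
  have hV := hM.1.2.1
  have hnb := nc_not_both hk hM.1
  have hns : ∀ x, Snk r x → ¬ Src r x := fun x h h' => hnb x ⟨h', h⟩
  have hends := no_inner hk hP hM
  let d : SC r ⊕ TC r := Sum.inl (mkS hs)
  let e : V → SC r ⊕ TC r := emb r d
  have hkind : ∀ i, (∃ u w, (∀ x ∈ (u : SC r).1, ∀ y ∈ (w : TC r).1, ReflTransGen r x y) ∧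
      e (tl i) = Sum.inr w ∧ e (hd i) = Sum.inl u) ∨
      (∃ u v, e (tl i) = Sum.inl v ∧ e (hd i) = Sum.inl u) ∨
      (∃ w w', e (tl i) = Sum.inr w ∧ e (hd i) = Sum.inr w') := by
    intro i
    obtain ⟨h1, h2⟩ := hends i
    rcases h1 with h1 | h1
    · rcases h2 with h2 | h2
      · right; left
        exact ⟨mkS h2, mkS h1, emb_src h1, emb_src h2⟩
      · -- tail source, head sink: impossible
        exfalso
        obtain ⟨Z, hZ, _, _, _, hi⟩ := minT hk hM i
        rcases hG.kind i with hK | ⟨hX1, hX2⟩ | ⟨hY1, hY2⟩
        · apply hnb (hd i)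
          refine ⟨?_, h2⟩
          intro y hy
          exact hK.trans (h1 y (hy.trans hK))
        · have : t ∈ Z := closed_re hZ (h2 _ hX1) hi.1
          exact hi.2 (closed_re hZ hX2 this)
        · have : s ∈ Z := closed_re hZ hY1 hi.1
          exact hi.2 (closed_re hZ (h1 _ hY2) this)
    · rcases h2 with h2 | h2
      · left
        refine ⟨mkS h2, mkT h1, ?_, emb_snk (hns _ h1) h1, emb_src h2⟩
        have hK : ReflTransGen r (hd i) (tl i) := by
          rcases hG.kind i with hK | ⟨hX1, hX2⟩ | ⟨hY1, hY2⟩
          · exact hK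
          · exact hX1.trans (h1 _ hX2)
          · exact (h2 _ hY1).trans hY2
        intro x hx y hy
        have hx' : ReflTransGen r x (hd i) := hx
        have hy' : ReflTransGen r (tl i) y := hy
        exact (hx'.trans hK).trans hy'
      · right; right
        exact ⟨mkT h1, mkT h2, emb_snk (hns _ h1) h1, emb_snk (hns _ h2) h2⟩
  let g : ST (SC r) (TC r) I :=
    { s := mkS hs
      t := mkT ht
      B := fun u w => ∀ x ∈ u.1, ∀ y ∈ w.1, ReflTransGen r x y
      Bs := by
        intro w x hx y hy
        obtain ⟨z, hz, hw⟩ := w.2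
        have hx' : ReflTransGen r x s := hx
        rw [hw] at hy
        have hy' : ReflTransGen r z y := hy
        exact (hx'.trans (hG.s_snk hz)).trans hy'
      Bt := by
        intro u x hx y hy
        obtain ⟨z, hz, hw⟩ := u.2
        rw [hw] at hx
        have hx' : ReflTransGen r x z := hx
        have hy' : ReflTransGen r t y := hy
        exact (hx'.trans (hG.src_t hz)).trans hy'
      tl := fun i => e (tl i)
      hd := fun i => e (hd i)
      kind := hkind }
  -- from closed sets of g to closed sets of r
  have A1 : ∀ W' : Set (SC r ⊕ TC r), Closed g.r W' →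
      ∃ W : Set V, Closed r W ∧ (∀ x, (Src r x ∨ Snk r x) → (x ∈ W ↔ e x ∈ W')) := by
    intro W' hW'
    refine ⟨{x | (∃ u : SC r, Sum.inl u ∈ W' ∧ x ∈ u.1) ∨
      (∃ w : TC r, Sum.inr w ∈ W' ∧ ∃ y ∈ w.1, ReflTransGen r x y)}, ?_, ?_⟩
    · rintro x y hxy (⟨u, hu, hy⟩ | ⟨w, hw, z, hz, hyz⟩)
      · left
        refine ⟨u, hu, ?_⟩
        obtain ⟨z, hz, hu'⟩ := u.2
        rw [hu'] at hy ⊢
        exact ReflTransGen.head hxy hy
      · right
        exact ⟨w, hw, z, hz, ReflTransGen.head hxy hyz⟩
    · intro x hx
      by_cases hsx : Src r x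
      · have hex : e x = Sum.inl (mkS hsx) := emb_src hsx
        rw [hex]
        constructor
        · rintro (⟨u, hu, hxu⟩ | ⟨w, hw, z, hz, hxz⟩)
          · obtain ⟨y, hy, hu'⟩ := u.2
            rw [hu'] at hxu
            have h1 : mkS hsx = u := by
              apply Subtype.ext
              show Idl r x = u.1
              rw [hu']
              exact idl_eq_iff.2 ⟨hxu, hy _ hxu⟩
            rw [h1]; exact hu
          · apply hW' _ (Sum.inr w) ⟨mkS hsx, w, rfl, rfl, ?_⟩ hw
            intro x' hx' y' hy'
            obtain ⟨y, hy, hw'⟩ := w.2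
            rw [hw'] at hz hy'
            have h1 : ReflTransGen r x' x := hx'
            have h2 : ReflTransGen r y z := hz
            have h3 : ReflTransGen r y y' := hy'
            exact ((h1.trans hxz).trans (hy _ h2)).trans h3
        · intro h
          left
          exact ⟨mkS hsx, h, self_mem_idl r x⟩
      · have hkx : Snk r x := hx.resolve_left hsx
        have hex : e x = Sum.inr (mkT hkx) := emb_snk hsx hkx
        rw [hex]
        constructor
        · rintro (⟨u, hu, hxu⟩ | ⟨w, hw, z, hz, hxz⟩)
          · exfalso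
            obtain ⟨y, hy, hu'⟩ := u.2
            rw [hu'] at hxu
            have hxy : ReflTransGen r x y := hxu
            apply hsx
            intro q hq
            exact hxy.trans (hy q (hq.trans hxy))
          · obtain ⟨y, hy, hw'⟩ := w.2
            have h1 : mkT hkx = w := by
              apply Subtype.ext
              show Flt r x = w.1
              rw [hw'] at hz ⊢
              have h2 : ReflTransGen r y z := hz
              have h3 : ReflTransGen r z x := hkx _ hxz
              exact flt_eq_iff.2 ⟨hxz.trans (hy _ h2), h2.trans h3⟩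
            rw [h1]; exact hw
        · intro h
          right
          exact ⟨mkT hkx, h, x, ReflTransGen.refl, ReflTransGen.refl⟩
  have hEnt : ∀ (W' : Set (SC r ⊕ TC r)) (W : Set V),
      (∀ x, (Src r x ∨ Snk r x) → (x ∈ W ↔ e x ∈ W')) → Ent g.tl g.hd W' = Ent tl hd W := by
    intro W' W h
    ext i
    show (e (hd i) ∈ W' ∧ e (tl i) ∉ W') ↔ (hd i ∈ W ∧ tl i ∉ W)
    rw [h _ (hends i).1, h _ (hends i).2]
  have hrep : ∀ y : SC r ⊕ TC r, ∃ x, (Src r x ∨ Snk r x) ∧ e x = y := by
    rintro (u | w)
    · obtain ⟨x, hx, hu⟩ := u.2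
      refine ⟨x, Or.inl hx, ?_⟩
      have : e x = Sum.inl (mkS hx) := emb_src hx
      rw [this]
      exact congrArg Sum.inl (Subtype.ext hu.symm)
    · obtain ⟨x, hx, hu⟩ := w.2
      refine ⟨x, Or.inr hx, ?_⟩
      have : e x = Sum.inr (mkT hx) := emb_snk (hns x hx) hx
      rw [this]
      exact congrArg Sum.inr (Subtype.ext hu.symm)
  have hgV : Valid g.r g.tl g.hd k := by
    intro W' hW' hne hu
    obtain ⟨W, hW, hWW'⟩ := A1 W' hW'
    rw [hEnt W' W hWW']
    apply hV W hW
    · obtain ⟨y, hy⟩ := hne
      obtain ⟨x, hx, rfl⟩ := hrep y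
      exact ⟨x, (hWW' x hx).2 hy⟩
    · obtain ⟨y, hy⟩ := Set.nonempty_compl.2 hu
      obtain ⟨x, hx, rfl⟩ := hrep y
      intro hWu
      exact hy ((hWW' x hx).1 (hWu ▸ Set.mem_univ x))
  have hgE : g.Exact k := by
    constructor
    · intro u
      obtain ⟨x, hx, hu⟩ := u.2
      have h1 : Ent g.tl g.hd {Sum.inl u} = Ent tl hd (Idl r x) := by
        apply hEnt
        intro y hy
        rw [Set.mem_singleton_iff]
        constructor
        · intro hyx
          have hyx' : ReflTransGen r y x := hyx
          have hys : Src r y := by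
            intro q hq
            exact hyx'.trans (hx q (hq.trans hyx'))
          have : e y = Sum.inl (mkS hys) := emb_src hys
          rw [this]
          congr 1
          apply Subtype.ext
          rw [hu]
          exact idl_eq_iff.2 ⟨hyx', hx _ hyx'⟩
        · intro hey
          have hys : Src r y := by
            by_contra hys
            have hyk := hy.resolve_left hys
            have : e y = Sum.inr (mkT hyk) := emb_snk hys hyk
            rw [this] at hey
            cases hey
          have h2 : e y = Sum.inl (mkS hys) := emb_src hys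
          rw [h2] at hey
          have h3 : mkS hys = u := Sum.inl_injective hey
          have h4 : Idl r y = Idl r x := by
            have := congrArg Subtype.val h3
            rw [hu] at this
            exact this
          rw [← h4]
          exact self_mem_idl r y
      rw [h1]
      exact exact_src hk hP hM ht hx
    · intro w
      obtain ⟨x, hx, hw⟩ := w.2
      have h1 : Ent g.tl g.hd {Sum.inr w}ᶜ = Ent tl hd (Flt r x)ᶜ := by
        apply hEnt
        intro y hy
        rw [Set.mem_compl_iff, Set.mem_compl_iff, Set.mem_singleton_iff, not_iff_not]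
        constructor
        · intro hyx
          have hyx' : ReflTransGen r x y := hyx
          have hyk : Snk r y := by
            intro q hq
            exact (hx q (hyx'.trans hq)).trans hyx'
          have : e y = Sum.inr (mkT hyk) := emb_snk (hns y hyk) hyk
          rw [this]
          congr 1
          apply Subtype.ext
          rw [hw]
          exact flt_eq_iff.2 ⟨hx _ hyx', hyx'⟩
        · intro hey
          have hys : ¬ Src r y := by
            intro hys
            have : e y = Sum.inl (mkS hys) := emb_src hys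
            rw [this] at hey
            cases hey
          have hyk := hy.resolve_left hys
          have h2 : e y = Sum.inr (mkT hyk) := emb_snk hys hyk
          rw [h2] at hey
          have h3 : mkT hyk = w := Sum.inr_injective hey
          have h4 : Flt r y = Flt r x := by
            have := congrArg Subtype.val h3
            rw [hw] at this
            exact this
          rw [← h4]
          exact ReflTransGen.refl
      rw [h1]
      exact exact_snk hk hP hM hs hx
  obtain ⟨c, hc⟩ := hcol (SC r) (TC r) g (card_SC_TC hnb) hgV hgE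
  apply hM.1.2.2
  refine ⟨c, ?_⟩
  intro W hW hne hu j
  -- the corresponding closed set of g
  let W' : Set (SC r ⊕ TC r) := {y | match y with
    | Sum.inl u => u.1 ⊆ W
    | Sum.inr w => w.1 ⊆ W}
  have hW' : Closed g.r W' := by
    rintro x y ⟨u, w, rfl, rfl, hB⟩ hw
    show u.1 ⊆ W
    have hw' : w.1 ⊆ W := hw
    intro x hx
    obtain ⟨z, hz, hwz⟩ := w.2
    have hzw : z ∈ w.1 := by rw [hwz]; exact ReflTransGen.refl
    exact closed_re hW (hB x hx z hzw) (hw' hzw)
  have hmem : ∀ x, (Src r x ∨ Snk r x) → (x ∈ W ↔ e x ∈ W') := by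
    intro x hx
    by_cases hsx : Src r x
    · have hex : e x = Sum.inl (mkS hsx) := emb_src hsx
      rw [hex]
      show x ∈ W ↔ Idl r x ⊆ W
      constructor
      · intro h y hy
        exact closed_re hW hy h
      · intro h
        exact h (self_mem_idl r x)
    · have hkx : Snk r x := hx.resolve_left hsx
      have hex : e x = Sum.inr (mkT hkx) := emb_snk hsx hkx
      rw [hex]
      show x ∈ W ↔ Flt r x ⊆ W
      constructor
      · intro h y hy
        exact closed_re hW (hkx _ hy) h
      · intro h
        exact h ReflTransGen.refl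
  have hne' : W'.Nonempty := by
    obtain ⟨x, hx⟩ := hne
    obtain ⟨u, hu, hux⟩ := exists_src r x
    exact ⟨e u, (hmem u (Or.inl hu)).1 (closed_re hW hux hx)⟩
  have hu' : W' ≠ Set.univ := by
    obtain ⟨x, hx⟩ := Set.nonempty_compl.2 hu
    obtain ⟨w, hw, hxw⟩ := exists_snk r x
    intro h
    apply hx
    refine closed_re hW hxw ((hmem w (Or.inr hw)).2 ?_)
    rw [h]
    exact Set.mem_univ _
  obtain ⟨i, hi, h1, h2⟩ := hc W' hW' hne' hu' j
  exact ⟨i, hi, (hmem _ (hends i).2).2 h1, fun h => h2 ((hmem _ (hends i).1).1 h)⟩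

end

end GW
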