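import Pool.Agent.GW.Build

/-!
# General instances with few classes are colourable if reduced ones are
-/

namespace GW

open Relation Set

/-- all general instances with fewer than `n` classes are colourable -/
def ColG (k n : ℕ) : Prop :=
  ∀ (V I : Type) [Finite V] [Finite I] (r : V → V → Prop) (s t : V) (tl hd : I → V),
    ncl r < n → IsG r s t tl hd → Valid r tl hd k → ∃ c : I → Fin k, Good r tl hd c

theorem colG_of_exact {k : ℕ} (hk : 1 ≤ k) (n : ℕ)
    (h : ∀ (S T I : Type) [Finite S] [Finite T] [Finite I] (g : ST S T I),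
      Nat.card S + Nat.card T < n → Valid g.r g.tl g.hd k → g.Exact k →
      ∃ c : I → Fin k, Good g.r g.tl g.hd c) : ColG k n := by
  have main : ∀ m, m < n → ∀ (V I : Type) [Finite V] [Finite I] (r : V → V → Prop) (s t : V)
      (tl hd : I → V), ncl r = m → IsG r s t tl hd → Valid r tl hd k →
      ∃ c : I → Fin k, Good r tl hd c := by
    intro m
    induction m using Nat.strong_induction_on with
    | _ m ih =>
      intro hmn V I _ _ r s t tl hd hrm hG hV
      have hPP : ∀ s t, PP r s t k := by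
        intro s t
        apply pp_of_ih
        intro r' hr' s t I' _ tl' hd' hG' hV'
        exact ih (ncl r') (hrm ▸ hr') ((hrm ▸ hr').trans hmn) V I' r' s t tl' hd' rfl hG' hV'
      obtain ⟨s', hs', hss'⟩ := exists_src r s
      obtain ⟨t', ht', htt'⟩ := exists_snk r t
      have hG' : IsG r s' t' tl hd := by
        refine ⟨fun y => ?_, fun x => ?_, fun i => ?_⟩
        · obtain ⟨z, h1, h2⟩ := hG.ss y
          exact ⟨z, h1, hss'.trans h2⟩
        · obtain ⟨z, h1, h2⟩ := hG.tt x
          exact ⟨z, h1, h2.trans htt'⟩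
        · rcases hG.kind i with h1 | ⟨h1, h2⟩ | ⟨h1, h2⟩
          · exact Or.inl h1
          · exact Or.inr (Or.inl ⟨h1.trans htt', h2.trans htt'⟩)
          · exact Or.inr (Or.inr ⟨hss'.trans h1, hss'.trans h2⟩)
      have noNC : ∀ a b : ℕ, ∀ (I' : Type) [Finite I'] (tl' hd' : I' → V),
          Nat.card I' = a → m3 r tl' hd' = b → ¬ NC r s' t' tl' hd' k := by
        intro a
        induction a using Nat.strong_induction_on with
        | _ a iha =>
          intro b
          induction b using Nat.strong_induction_on with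
          | _ b ihb =>
            intro I' _ tl' hd' hIa hmb hNC
            have hMin : MinC r s' t' tl' hd' k := by
              refine ⟨hNC, ?_⟩
              intro I'' _ tl'' hd'' hlt
              rcases hlt with hlt | ⟨hlt1, hlt2⟩
              · exact iha _ (hIa ▸ hlt) _ I'' tl'' hd'' rfl rfl
              · exact ihb _ (hmb ▸ hlt2) I'' tl'' hd'' (hlt1.trans hIa) rfl
            refine colr_of_min hk (hPP s' t') hMin hs' ht' ?_
            intro S T _ _ g hc hv he
            exact h S T I' g (lt_of_le_of_lt hc (hrm ▸ hmn)) hv he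
      by_contra hno
      exact noNC _ _ I tl hd rfl rfl ⟨hG', hV, hno⟩
  intro V I _ _ r s t tl hd hn hG hV
  exact main (ncl r) hn V I r s t tl hd rfl hG hV

/-! ### reduced instances as general ones -/

section

variable {S T I : Type}

theorem ST.closed_iff (g : ST S T I) (Z : Set (S ⊕ T)) :
    Closed g.r Z ↔ ∀ u w, g.B u w → Sum.inr w ∈ Z → Sum.inl u ∈ Z := by
  constructor
  · intro h u w hB hw
    exact h _ _ ⟨u, w, rfl, rfl, hB⟩ hw
  · rintro h x y ⟨u, w, rfl, rfl, hB⟩ hw
    exact h u w hB hw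

theorem ST.re_inr (g : ST S T I) {w : T} {y : S ⊕ T}
    (h : ReflTransGen g.r (Sum.inr w) y) : y = Sum.inr w := by
  induction h with
  | refl => rfl
  | tail _ h2 ih =>
    subst ih
    obtain ⟨u, w', h3, _, _⟩ := h2
    cases h3

theorem ST.re_inl (g : ST S T I) {u : S} {x : S ⊕ T}
    (h : ReflTransGen g.r x (Sum.inl u)) : x = Sum.inl u := by
  cases h with
  | refl => rfl
  | tail _ h2 =>
    obtain ⟨u', w', _, h3, _⟩ := h2
    cases h3

theorem ST.re_iff (g : ST S T I) {u : S} {w : T} :
    ReflTransGen g.r (Sum.inl u) (Sum.inr w) ↔ g.B u w := by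
  constructor
  · intro h
    cases h with
    | tail h1 h2 =>
      obtain ⟨u', w', h3, h4, hB⟩ := h2
      subst h3
      have := g.re_inl h1
      cases this
      cases h4
      exact hB
  · intro h
    exact ReflTransGen.single ⟨u, w, rfl, rfl, h⟩

theorem ST.isG (g : ST S T I) : IsG g.r (Sum.inl g.s) (Sum.inr g.t) g.tl g.hd := by
  refine ⟨?_, ?_, ?_⟩
  · rintro (u | w)
    · exact ⟨Sum.inr g.t, g.re_iff.2 (g.Bt u), g.re_iff.2 (g.Bs _)⟩
    · exact ⟨Sum.inr w, ReflTransGen.refl, g.re_iff.2 (g.Bs _)⟩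
  · rintro (u | w)
    · exact ⟨Sum.inl u, ReflTransGen.refl, g.re_iff.2 (g.Bt _)⟩
    · exact ⟨Sum.inl g.s, g.re_iff.2 (g.Bs _), g.re_iff.2 (g.Bt _)⟩
  · intro i
    rcases g.kind i with ⟨u, w, hB, h1, h2⟩ | ⟨u, v, h1, h2⟩ | ⟨w, w', h1, h2⟩
    · left; rw [h1, h2]; exact g.re_iff.2 hB
    · right; left; rw [h1, h2]; exact ⟨g.re_iff.2 (g.Bt _), g.re_iff.2 (g.Bt _)⟩
    · right; right; rw [h1, h2]; exact ⟨g.re_iff.2 (g.Bs _), g.re_iff.2 (g.Bs _)⟩

theorem ST.src_iff (g : ST S T I) (x : S ⊕ T) : Src g.r x ↔ ∃ u, x = Sum.inl u := by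
  constructor
  · intro h
    rcases x with u | w
    · exact ⟨u, rfl⟩
    · have h1 := h (Sum.inl g.s) (g.re_iff.2 (g.Bs w))
      have := g.re_inl h1
      cases this
  · rintro ⟨u, rfl⟩ y hy
    rw [g.re_inl hy]

theorem ST.snk_iff (g : ST S T I) (x : S ⊕ T) : Snk g.r x ↔ ∃ w, x = Sum.inr w := by
  constructor
  · intro h
    rcases x with u | w
    · have h1 := h (Sum.inr g.t) (g.re_iff.2 (g.Bt u))
      have := g.re_inr h1
      cases this
    · exact ⟨w, rfl⟩
  · rintro ⟨u, rfl⟩ y hy
    rw [g.re_inr hy]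

theorem ST.idl_inl (g : ST S T I) (u : S) : Idl g.r (Sum.inl u) = {Sum.inl u} := by
  ext x
  constructor
  · intro h
    exact g.re_inl h
  · rintro rfl
    exact ReflTransGen.refl

theorem ST.flt_inr (g : ST S T I) (w : T) : Flt g.r (Sum.inr w) = {Sum.inr w} := by
  ext x
  constructor
  · intro h
    exact g.re_inr h
  · rintro rfl
    exact ReflTransGen.refl

theorem ST.ncl_le [Finite S] [Finite T] (g : ST S T I) : ncl g.r ≤ Nat.card S + Nat.card T := by
  refine (ncl_le_card g.r).trans ?_
  rw [Nat.card_sum]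

/-- contraction of a set with at least two elements gives fewer than `|S|+|T|` classes -/
theorem ncl_lt_of_pair {V : Type} [Finite V] (r : V → V → Prop) {x y : V} (hxy : x ≠ y)
    (h1 : ReflTransGen r x y) (h2 : ReflTransGen r y x) : ncl r < Nat.card V := by
  classical
  have hle := ncl_le_card r
  refine lt_of_le_of_ne hle ?_
  intro heq
  unfold ncl at heq
  rw [← Set.image_univ, ← Set.ncard_univ] at heq
  have hinj := Set.injOn_of_ncard_image_eq heq (Set.toFinite _)
  exact hxy (hinj (Set.mem_univ x) (Set.mem_univ y) (idl_eq_iff.2 ⟨h1, h2⟩))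

theorem ST.colourable_of_colG [Finite S] [Finite T] [Finite I] {k n : ℕ} (hC : ColG k n)
    (g : ST S T I) (hn : Nat.card S + Nat.card T < n) (hV : Valid g.r g.tl g.hd k) :
    ∃ c : I → Fin k, Good g.r g.tl g.hd c :=
  hC (S ⊕ T) I g.r _ _ g.tl g.hd (lt_of_le_of_lt g.ncl_le hn) g.isG hV

end

end GW
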