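import Mathlib

/-!
# MP_27938c_co (Guenin-Williams): common definitions

Everything is stated for finite types in `Type`.

* An *item* `i : I` has a tail `tl i` and a head `hd i` (it is a reversed arc of `F`).
* A set `Z` is *closed* for the hop relation `r` if `r x y`, `y ∈ Z` imply `x ∈ Z`
  (the hop `x → y` never enters `Z`).
* An item *enters* `Z` if its head is in `Z` and its tail is not.
* `Valid k`: every nonempty proper closed set is entered by at least `k` items.
* `Good c`: every nonempty proper closed set is entered by an item of every colour.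
-/

namespace GW

open Relation

/-- `Z` is closed for the hop relation `r` -/
def Closed {V : Type} (r : V → V → Prop) (Z : Set V) : Prop :=
  ∀ x y, r x y → y ∈ Z → x ∈ Z

/-- the items entering `Z` -/
def Ent {V I : Type} (tl hd : I → V) (Z : Set V) : Set I :=
  {i | hd i ∈ Z ∧ tl i ∉ Z}

/-- every nonempty proper closed set is entered by at least `k` items -/
def Valid {V I : Type} (r : V → V → Prop) (tl hd : I → V) (k : ℕ) : Prop :=
  ∀ Z : Set V, Closed r Z → Z.Nonempty → Z ≠ Set.univ → k ≤ (Ent tl hd Z).ncard

/-- every nonempty proper closed set is entered by every colour -/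
def Good {V I : Type} (r : V → V → Prop) (tl hd : I → V) {k : ℕ} (c : I → Fin k) : Prop :=
  ∀ Z : Set V, Closed r Z → Z.Nonempty → Z ≠ Set.univ →
    ∀ j : Fin k, ∃ i, c i = j ∧ hd i ∈ Z ∧ tl i ∉ Z

/-! ## The general class -/

/-- The general class of instances (hop relation `r`, special vertices `s`, `t`, items).
It contains all acyclic digraphs with super-source and super-sink (all items of the first kind)
and it is closed under contraction (= adding hops). -/
structure GInst (V I : Type) where
  r : V → V → Prop
  s : V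
  t : V
  tl : I → V
  hd : I → V
  /-- every vertex has a common successor with `s` -/
  ss : ∀ y, ∃ z, ReflTransGen r y z ∧ ReflTransGen r s z
  /-- every vertex has a common predecessor with `t` -/
  tt : ∀ x, ∃ z, ReflTransGen r z x ∧ ReflTransGen r z t
  /-- K items, X items, Y items -/
  kind : ∀ i, ReflTransGen r (hd i) (tl i) ∨
    (ReflTransGen r (hd i) t ∧ ReflTransGen r (tl i) t) ∨
    (ReflTransGen r s (hd i) ∧ ReflTransGen r s (tl i))

/-- colourability of all general instances, for a fixed `k` -/
def StmtG (k : ℕ) : Prop :=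
  ∀ (V I : Type) [Finite V] [Finite I] (g : GInst V I),
    Valid g.r g.tl g.hd k → ∃ c : I → Fin k, Good g.r g.tl g.hd c

/-! ## The reduced class: sources `S`, sinks `T` -/

/-- Reduced instances: vertex set `S ⊕ T`, hops only from `S` to `T` (relation `B`),
`s` hops to all of `T`, all of `S` hops to `t`.
Items: `X` (inside `S`), `Y` (inside `T`), `K` (from `w : T` to `u : S` with `B u w`). -/
structure ST (S T I : Type) where
  s : S
  t : T
  B : S → T → Prop
  Bs : ∀ w, B s w
  Bt : ∀ u, B u t
  tl : I → S ⊕ T
  hd : I → S ⊕ T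
  kind : ∀ i, (∃ u w, B u w ∧ tl i = Sum.inr w ∧ hd i = Sum.inl u) ∨
    (∃ u v, tl i = Sum.inl v ∧ hd i = Sum.inl u) ∨
    (∃ w w', tl i = Sum.inr w ∧ hd i = Sum.inr w')

/-- the hop relation of a reduced instance on `S ⊕ T` -/
def ST.r {S T I : Type} (g : ST S T I) : S ⊕ T → S ⊕ T → Prop :=
  fun x y => ∃ u w, x = Sum.inl u ∧ y = Sum.inr w ∧ g.B u w

/-- all stars are exact: every source has exactly `k` in-items (none of them a loop),
every sink exactly `k` out-items (none of them a loop) -/
def ST.Exact {S T I : Type} (g : ST S T I) (k : ℕ) : Prop :=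
  (∀ u : S, (Ent g.tl g.hd {Sum.inl u}).ncard = k) ∧
  (∀ w : T, (Ent g.tl g.hd {Sum.inr w}ᶜ).ncard = k)

/-- colourability of all reduced instances with exact stars, for a fixed `k` -/
def StmtST (k : ℕ) : Prop :=
  ∀ (S T I : Type) [Finite S] [Finite T] [Finite I] (g : ST S T I),
    Valid g.r g.tl g.hd k → g.Exact k → ∃ c : I → Fin k, Good g.r g.tl g.hd c

/-- THE INNER PART: the case `k = 2` for reduced instances with exact stars. -/
def Stmt_Two : Prop := StmtST 2

/-! ## The problem itself (acyclic digraphs, parallel arcs allowed) -/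

/-- the arc relation of a digraph with arc type `A` -/
def Arc {V A : Type} (src tgt : A → V) (x y : V) : Prop := ∃ a, src a = x ∧ tgt a = y

/-- `U` is the shore of a dicut: nonempty, proper, and no arc enters `U`
(no arc with tail outside `U` and head in `U`) -/
def Shore {V A : Type} (src tgt : A → V) (U : Set V) : Prop :=
  U.Nonempty ∧ U ≠ Set.univ ∧ ∀ a, tgt a ∈ U → src a ∈ U

/-- `F` is a `k`-dijoin: it contains at least `k` arcs of every dicut -/
def KDijoin {V A : Type} (src tgt : A → V) (F : Set A) (k : ℕ) : Prop :=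
  ∀ U : Set V, Shore src tgt U → k ≤ (F ∩ {a | src a ∈ U ∧ tgt a ∉ U}).ncard

/-- the conclusion of the Guenin-Williams conjecture for all `k ≥ 1` -/
def Stmt_Problem : Prop :=
  ∀ (V A : Type) [Finite V] [Finite A] (src tgt : A → V),
    (∀ v, ¬ TransGen (Arc src tgt) v v) →
    ∀ s t : V, (∀ a, tgt a ≠ s) → (∀ w, (∀ a, src a ≠ w) → ReflTransGen (Arc src tgt) s w) →
      (∀ a, src a ≠ t) → (∀ v, (∀ a, tgt a ≠ v) → ReflTransGen (Arc src tgt) v t) →
      ∀ k : ℕ, 1 ≤ k → ∀ F : Set A, KDijoin src tgt F k →
        ∃ c : A → Fin k, ∀ j, KDijoin src tgt (F ∩ {a | c a = j}) 1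

/-- THE OUTER PART -/
def Stmt_Outer : Prop := Stmt_Two → Stmt_Problem

end GW
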