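import Pool.Agent.GW.Str

/-!
# MP_27938c_co: inner part, leaf analysis (E2), (E3), (TV) with the deletion (D)
-/

namespace GW

namespace E2

variable {S T I : Type} {g : ST S T I}

/-! ## Stars -/

theorem tout_card (h : MinInst g) (w : T) : {i | g.tl i = Sum.inr w}.ncard = 2 := by
  have := h.dual.inE_card w
  rw [← this]
  congr 1
  ext i
  simp [ST.inE]

/-- exactly one item of each colour leaves `t` -/
theorem t_uniq (h : MinInst g) {c : I → Bool} (hc : g.LegC c)
    {i j : I} (hi : g.tl i = Sum.inr g.t) (hj : g.tl j = Sum.inr g.t) (hij : c i = c j) :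
    i = j := by
  by_contra hne
  have := h.finI
  have htt := tout_card h g.t
  have hTI : g.TI ({Sum.inr g.t}ᶜ : Set (S ⊕ T)) := by
    refine ⟨?_, by simp, by simp⟩
    rintro x y ⟨u, w, rfl, rfl, -⟩ _
    simp
  obtain ⟨k, hk1, hk2, hk3⟩ := hc _ hTI (!c i)
  have hk : g.tl k = Sum.inr g.t := by simpa using hk3
  have hki : i ≠ k := by
    rintro rfl
    simp at hk1
  have hkj : j ≠ k := by
    rintro rfl
    rw [hij] at hk1
    simp at hk1
  have hsub : ({i, j, k} : Set I) ⊆ {i | g.tl i = Sum.inr g.t} := by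
    rintro l (rfl | rfl | rfl)
    · exact hi
    · exact hj
    · exact hk
  have h1 := Set.ncard_le_ncard hsub (Set.toFinite _)
  have h2 : ({i, j, k} : Set I).ncard = 3 :=
    Set.ncard_eq_three.2 ⟨i, j, k, hne, hki, hkj, rfl⟩
  omega

theorem s_uniq (h : MinInst g) {c : I → Bool} (hc : g.LegC c)
    {i j : I} (hi : g.hd i = Sum.inl g.s) (hj : g.hd j = Sum.inl g.s) (hij : c i = c j) :
    i = j :=
  t_uniq h.dual ((legC_dual g c).2 hc) (by simpa using hi) (by simpa using hj) hij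

/-- the two in-items of a source have different colours, in an S-state with a big node -/
theorem star_S (_h : MinInst g) {c : I → Bool} {A : Set S} (hst : g.SState c A)
    (hA : ∀ x, A ≠ {x}) {u : S} (hu : u ≠ g.s) {a b : I} (hE : g.inE u = {a, b}) : c a ≠ c b := by
  intro hab
  have hin := inE_pair hE
  have key : ∀ b', g.Hit c b' (SetS T {u}) → c a = b' := by
    rintro b' ⟨i, hi1, ⟨x, hx1, hx2⟩, -⟩
    have : x = u := hx1
    subst this
    rcases (hin i).1 hx2.symm with rfl | rfl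
    · exact hi1
    · exact hab.trans hi1
  have h1 := key true (hst.tII {u} (by simpa using hu.symm) ⟨u, rfl⟩)
  have h2 : g.Hit c false (SetS T {u}) := by
    by_contra hcon
    have h3 := hst.min {u} (by simpa using hu.symm) ⟨u, rfl⟩ hcon
    rcases Set.subset_singleton_iff_eq.1 h3 with h4 | h4
    · exact hst.ne.ne_empty h4
    · exact hA u h4
  rw [key false h2] at h1
  exact absurd h1 (by simp)

/-- the two out-items of a sink have different colours, in an S-state -/
theorem star_T (_h : MinInst g) {c : I → Bool} {A : Set S} (hst : g.SState c A)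
    {w : T} (hw : w ≠ g.t) {a b : I} (hE : {i | g.tl i = Sum.inr w} = {a, b}) : c a ≠ c b := by
  intro hab
  have hin : ∀ i, g.tl i = Sum.inr w → i = a ∨ i = b := fun i hi => by
    have : i ∈ ({a, b} : Set I) := by
      rw [← hE]
      exact hi
    simpa using this
  have key : ∀ b', g.Hit c b' (SetT S {w}) → c a = b' := by
    rintro b' ⟨i, hi1, -, hi2⟩
    have hi3 : g.tl i = Sum.inr w := by
      rcases hx : g.tl i with z | z
      · rw [hx] at hi2
        simp at hi2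
      · rw [hx] at hi2
        simp at hi2
        rw [hi2]
    rcases hin i hi3 with rfl | rfl
    · exact hi1
    · exact hab.trans hi1
  have h1 := key true (hst.tIII {w} (by simpa using hw.symm) ⟨w, rfl⟩ true)
  have h2 := key false (hst.tIII {w} (by simpa using hw.symm) ⟨w, rfl⟩ false)
  rw [h2] at h1
  exact absurd h1 (by simp)

theorem mem_SetS {A : Set S} {x : S ⊕ T} (hx : x ∈ SetS T A) : ∃ u ∈ A, x = Sum.inl u := by
  obtain ⟨u, hu, rfl⟩ := hx
  exact ⟨u, hu, rfl⟩

theorem isIn_of {i : I} {u v : S} (h1 : g.tl i = Sum.inl v) (h2 : g.hd i = Sum.inl u)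
    (hu : u ≠ g.s) (hv : v ≠ g.s) : g.IsIn i := ⟨u, v, h1, h2, hu, hv⟩

/-- no 2-cycle `p → w → p` through a pair -/
theorem pq_ne (h : MinInst g) {w p q : S} (hw : g.Pair w) (hp : p ≠ g.s)
    {i j : I} (hi1 : g.tl i = Sum.inl p) (hi2 : g.hd i = Sum.inl w)
    (hj1 : g.tl j = Sum.inl w) (hj2 : g.hd j = Sum.inl q) : p ≠ q := by
  rintro rfl
  have := h.finI
  obtain ⟨hws, k, x, hkx, hE2, hk, hx⟩ := hw
  have hpw : p ≠ w := by
    rintro rfl
    exact h.noloop i (hi1.trans hi2.symm)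
  have h3 := h.three_le_SetS (A := {p, w}) (by simpa using ⟨hp.symm, hws.symm⟩)
    (u := p) (v := w) (by simp) (by simp) hpw
  have hix : i = x := by
    rcases (inE_pair hE2 i).1 hi2 with rfl | rfl
    · exact (IsK.not_s hk _ hi1).elim
    · rfl
  subst hix
  have hsub : Ent g.tl g.hd (SetS T {p, w}) ⊆ {k} ∪ (g.inE p \ {j}) := by
    rintro l ⟨hl1, hl2⟩
    obtain ⟨u, hu, hu'⟩ := mem_SetS hl1
    rcases hu with rfl | rfl
    · right
      refine ⟨hu', ?_⟩
      rintro rfl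
      exact hl2 (by rw [hj1]; simp)
    · left
      rcases (inE_pair hE2 l).1 hu' with rfl | rfl
      · rfl
      · exact (hl2 (by rw [hi1]; simp)).elim
  have h4 := Set.ncard_le_ncard hsub (Set.toFinite _)
  have h5 := Set.ncard_union_le {k} (g.inE p \ {j})
  have h6 : (g.inE p \ {j}).ncard = 1 := by
    rw [Set.ncard_sdiff_singleton_of_mem (show j ∈ g.inE p from hj2), h.inE_card]
  rw [h6, Set.ncard_singleton] at h5
  unfold ST.d at h3
  omega

/-- the node of an S-state that is not a double -/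
def BigNode (g : ST S T I) (c : I → Bool) (N : Set S) : Prop :=
  g.NPlain c N ∨ ∃ y, g.NLoop c N y

theorem BigNode.card {c : I → Bool} {N : Set S} (hN : BigNode g c N) : 3 ≤ N.ncard := by
  rcases hN with hN | ⟨y, hN⟩
  · exact hN.1
  · exact hN.1

theorem BigNode.ne {c : I → Bool} {N : Set S} (hN : BigNode g c N) (x : S) : N ≠ {x} := by
  rintro rfl
  have := hN.card
  simp at this

/-- a vertex of a big node with an interior K in-item is a pair -/
theorem BigNode.pair {c : I → Bool} {N : Set S} (hN : BigNode g c N) {k : I} {v : S}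
    (hv : v ∈ N) (hk : g.IsK k) (hkv : g.hd k = Sum.inl v) : g.Pair v := by
  rcases hN with hN | ⟨y, hN⟩
  · exact hN.2.1 v hv
  · obtain ⟨h1, h2, h3, h4, h5, -⟩ := hN
    by_cases hvy : v = y
    · subst hvy
      obtain ⟨-, x, x', -, hE, hx, hx'⟩ := h3
      rcases (inE_pair hE k).1 hkv with rfl | rfl
      · exact (IsK.not_in hk hx).elim
      · exact (IsK.not_in hk hx').elim
    · exact (h5 v hv hvy).1

/-- inner items at a pair of a big node stay in the node; the K item is `+`, and the vertex is not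
the single -/
theorem BigNode.stay {c : I → Bool} {N : Set S} (hN : BigNode g c N) {k : I} {v : S}
    (hv : v ∈ N) (hk : g.IsK k) (hkv : g.hd k = Sum.inl v) :
    c k = true ∧ (∀ i, g.IsIn i → g.tl i = Sum.inl v → g.hd i ∈ SetS T N) ∧
      (∀ i, g.IsIn i → g.hd i = Sum.inl v → g.tl i ∈ SetS T N) := by
  rcases hN with hN | ⟨y, hN⟩
  · obtain ⟨h1, h2, h3, h4, h5⟩ := hN
    refine ⟨(h4 k (by rw [hkv]; simpa using hv)).2 hk, fun i hi hi' => ?_, fun i hi hi' => ?_⟩
    · exact (h3 i hi).1 (by rw [hi']; simpa using hv)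
    · exact (h3 i hi).2 (by rw [hi']; simpa using hv)
  · obtain ⟨h1, h2, h3, h4, h5, h6, h7, h8, h9, h10⟩ := hN
    have hvy : v ≠ y := by
      rintro rfl
      obtain ⟨-, x, x', -, hE, hx, hx'⟩ := h3
      rcases (inE_pair hE k).1 hkv with rfl | rfl
      · exact (IsK.not_in hk hx).elim
      · exact (IsK.not_in hk hx').elim
    refine ⟨(h8 k (by rw [hkv]; simpa using hv) (by rw [hkv]; simpa using hvy)).2 hk,
      fun i hi hi' => ?_, fun i hi hi' => ?_⟩
    · exact h6 i hi (by rw [hi']; simpa using hv) (by rw [hi']; simpa using hvy)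
    · exact h7 i hi (by rw [hi']; simpa using hv) (by rw [hi']; simpa using hvy)

/-- (TV), both strands inside, written on the S side -/
theorem tv_both (h : MinInst g) {c : I → Bool} {N : Set S} (hst : g.SState c N)
    (hN : BigNode g c N) {we wb pe qe pb qb : S} {k i1 i2 i3 i4 : I}
    (hwe : we ∈ N) (hk : g.IsK k) (hkw : g.hd k = Sum.inl we)
    (hwb : wb ∉ N) (hbp : g.Pair wb)
    (h1 : g.tl i1 = Sum.inl pe) (h1' : g.hd i1 = Sum.inl we)
    (h2 : g.tl i2 = Sum.inl we) (h2' : g.hd i2 = Sum.inl qe)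
    (h3 : g.tl i3 = Sum.inl pb) (h3' : g.hd i3 = Sum.inl wb)
    (h4 : g.tl i4 = Sum.inl wb) (h4' : g.hd i4 = Sum.inl qb)
    {C : Set S} (hC : g.s ∉ C) (hpe : pe ∈ C) (hqe : qe ∈ C) (hpb : pb ∈ C) (hqb : qb ∈ C) :
    4 ≤ g.d (SetS T C) := by
  have := h.finI
  have hpes : pe ≠ g.s := fun hh => hC (hh ▸ hpe)
  have hqes : qe ≠ g.s := fun hh => hC (hh ▸ hqe)
  have hpbs : pb ≠ g.s := fun hh => hC (hh ▸ hpb)
  have hqbs : qb ≠ g.s := fun hh => hC (hh ▸ hqb)
  have hwes : we ≠ g.s := fun hh => hst.hs (hh ▸ hwe)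
  have hwbs : wb ≠ g.s := hbp.1
  have hep := hN.pair hwe hk hkw
  have hpqe : pe ≠ qe := pq_ne h hep hpes h1 h1' h2 h2'
  have hpqb : pb ≠ qb := pq_ne h hbp hpbs h3 h3' h4 h4'
  have I1 : g.IsIn i1 := isIn_of h1 h1' hwes hpes
  have I2 : g.IsIn i2 := isIn_of h2 h2' hqes hwes
  have I3 : g.IsIn i3 := isIn_of h3 h3' hwbs hpbs
  have I4 : g.IsIn i4 := isIn_of h4 h4' hqbs hwbs
  obtain ⟨-, hst1, hst2⟩ := hN.stay hwe hk hkw
  have hpeN : pe ∈ N := by
    have := hst2 i1 I1 h1'
    rw [h1] at this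
    simpa using this
  have hqeN : qe ∈ N := by
    have := hst1 i2 I2 h2
    rw [h2'] at this
    simpa using this
  -- splitting of `C`
  have split : ∀ L : Set S, (∀ i, g.IsIn i → g.hd i ∈ SetS T (C ∩ L) → g.tl i ∈ SetS T (C \ L) →
      False) → (∀ i, g.IsIn i → g.hd i ∈ SetS T (C \ L) → g.tl i ∈ SetS T (C ∩ L) → False) →
      g.d (SetS T (C ∩ L)) + g.d (SetS T (C \ L)) ≤ g.d (SetS T C) := by
    intro L hL1 hL2
    have hdisj : Disjoint (Ent g.tl g.hd (SetS T (C ∩ L))) (Ent g.tl g.hd (SetS T (C \ L))) := by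
      rw [Set.disjoint_left]
      rintro i ⟨hi1, -⟩ ⟨hi2, -⟩
      obtain ⟨u, hu, hu'⟩ := mem_SetS hi1
      rw [hu'] at hi2
      have : u ∈ C \ L := by simpa using hi2
      exact this.2 hu.2
    unfold ST.d
    rw [← Set.ncard_union_eq hdisj (Set.toFinite _) (Set.toFinite _)]
    apply Set.ncard_le_ncard _ (Set.toFinite _)
    rintro i (⟨hi1, hi2⟩ | ⟨hi1, hi2⟩)
    · obtain ⟨u, hu, hu'⟩ := mem_SetS hi1
      refine ⟨by rw [hu']; simpa using hu.1, fun hi3 => ?_⟩
      obtain ⟨v, hv, hv'⟩ := mem_SetS hi3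
      have hvL : v ∉ L := fun hh => hi2 (by rw [hv']; simpa using ⟨hv, hh⟩)
      exact hL1 i (isIn_of hv' hu' (fun hh => hC (hh ▸ hu.1)) (fun hh => hC (hh ▸ hv))) hi1
        (by rw [hv']; simpa using ⟨hv, hvL⟩)
    · obtain ⟨u, hu, hu'⟩ := mem_SetS hi1
      refine ⟨by rw [hu']; simpa using hu.1, fun hi3 => ?_⟩
      obtain ⟨v, hv, hv'⟩ := mem_SetS hi3
      have hvL : v ∈ L := by
        by_contra hh
        exact hi2 (by rw [hv']; simpa using ⟨hv, hh⟩)
      exact hL2 i (isIn_of hv' hu' (fun hh => hC (hh ▸ hu.1)) (fun hh => hC (hh ▸ hv))) hi1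
        (by rw [hv']; simpa using ⟨hv, hvL⟩)
  rcases hN with hN | ⟨y, hN⟩
  · -- plain
    obtain ⟨hn1, hn2, hn3, hn4, hn5⟩ := hN
    have hpbN : pb ∉ N := by
      intro hh
      have := (hn3 i3 I3).1 (by rw [h3]; simpa using hh)
      rw [h3'] at this
      exact hwb (by simpa using this)
    have h5 := split N (fun i hi hh1 hh2 => by
        obtain ⟨u, hu, hu'⟩ := mem_SetS hh1
        obtain ⟨v, hv, hv'⟩ := mem_SetS hh2
        have := (hn3 i hi).2 (by rw [hu']; simpa using hu.2)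
        rw [hv'] at this
        exact hv.2 (by simpa using this))
      (fun i hi hh1 hh2 => by
        obtain ⟨u, hu, hu'⟩ := mem_SetS hh1
        obtain ⟨v, hv, hv'⟩ := mem_SetS hh2
        have := (hn3 i hi).1 (by rw [hv']; simpa using hv.2)
        rw [hu'] at this
        exact hu.2 (by simpa using this))
    have h6 := h.three_le_SetS (A := C ∩ N) (fun hh => hC hh.1) (u := pe) (v := qe)
      ⟨hpe, hpeN⟩ ⟨hqe, hqeN⟩ hpqe
    have h7 := h.two_le_SetS (A := C \ N) (fun hh => hC hh.1) ⟨pb, hpb, hpbN⟩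
    omega
  · -- loop
    obtain ⟨hn1, hn2, hn3, hn4, hn5, hn6, hn7, hn8, hn9, hn10⟩ := hN
    have hpbL : pb ∉ N \ {y} := by
      rintro ⟨hh1, hh2⟩
      have := hn6 i3 I3 (by rw [h3]; simpa using hh1) (by rw [h3]; simpa using hh2)
      rw [h3'] at this
      exact hwb (by simpa using this)
    have hqbL : qb ∉ N \ {y} := by
      rintro ⟨hh1, hh2⟩
      have := hn7 i4 I4 (by rw [h4']; simpa using hh1) (by rw [h4']; simpa using hh2)
      rw [h4] at this
      exact hwb (by simpa using this)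
    -- items between `C ∩ L'` and `C \ L'`
    have hin : ∀ i, g.IsIn i → g.hd i ∈ SetS T (C ∩ (N \ {y})) → g.tl i ∈ SetS T (C \ (N \ {y})) →
        g.tl i = Sum.inl y ∧ y ∈ C := by
      intro i hi hh1 hh2
      obtain ⟨u, hu, hu'⟩ := mem_SetS hh1
      obtain ⟨v, hv, hv'⟩ := mem_SetS hh2
      have := hn7 i hi (by rw [hu']; simpa using hu.2.1) (by rw [hu']; simpa using hu.2.2)
      rw [hv'] at this
      have hvN : v ∈ N := by simpa using this
      have hvy : v = y := by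
        by_contra hh
        exact hv.2 ⟨hvN, hh⟩
      exact ⟨by rw [hv', hvy], hvy ▸ hv.1⟩
    have hout : ∀ i, g.IsIn i → g.hd i ∈ SetS T (C \ (N \ {y})) → g.tl i ∈ SetS T (C ∩ (N \ {y})) →
        g.hd i = Sum.inl y ∧ y ∈ C := by
      intro i hi hh1 hh2
      obtain ⟨u, hu, hu'⟩ := mem_SetS hh1
      obtain ⟨v, hv, hv'⟩ := mem_SetS hh2
      have := hn6 i hi (by rw [hv']; simpa using hv.2.1) (by rw [hv']; simpa using hv.2.2)
      rw [hu'] at this
      have huN : u ∈ N := by simpa using this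
      have huy : u = y := by
        by_contra hh
        exact hu.2 ⟨huN, hh⟩
      exact ⟨by rw [hu', huy], huy ▸ hu.1⟩
    by_cases hyC : y ∈ C
    · -- the two special items
      obtain ⟨i0, j0, hij0, hinn, hi0, hj0⟩ := hn10
      obtain ⟨-, x, x', hxx, hE, hx, hx'⟩ := hn3
      have hys : y ≠ g.s := fun hh => hst.hs (hh ▸ hn2)
      have hstar := star_S h hst (fun z hz => by rw [hz] at hn1; simp at hn1) hys hE
      -- the false in-item of y
      obtain ⟨m0, hm0, hm0', hm0u⟩ : ∃ m0, g.hd m0 = Sum.inl y ∧ c m0 = false ∧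
          ∀ m, g.hd m = Sum.inl y → c m = false → m = m0 := by
        rcases hcx : c x with _ | _
        · refine ⟨x, (inE_pair hE x).2 (Or.inl rfl), hcx, fun m hm hm' => ?_⟩
          rcases (inE_pair hE m).1 hm with rfl | rfl
          · rfl
          · exact (hstar (hcx.trans hm'.symm)).elim
        · refine ⟨x', (inE_pair hE x').2 (Or.inr rfl), ?_, fun m hm hm' => ?_⟩
          · rcases hcx' : c x' with _ | _
            · rfl
            · exact (hstar (hcx.trans hcx'.symm)).elim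
          · rcases (inE_pair hE m).1 hm with rfl | rfl
            · rw [hcx] at hm'
              simp at hm'
            · rfl
      have hinn' : ∀ i, g.IsIn i → g.tl i = Sum.inl y → g.hd i ∈ SetS T N → i = i0 := by
        intro i hi hi1 hi2
        have : i ∈ g.inner y := ⟨hi1, fun hh => by
          obtain ⟨a, b, k1, k2, k3, k4⟩ := hi
          rw [k2, Sum.inl.injEq] at hh
          exact k3 hh⟩
        rw [hinn] at this
        rcases this with rfl | rfl
        · rfl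
        · exact (hj0 hi2).elim
      have hC1 : (pe ∈ C ∩ (N \ {y})) ∨ (qe ∈ C ∩ (N \ {y})) := by
        by_cases hpy : pe = y
        · right
          refine ⟨hqe, hqeN, ?_⟩
          rintro rfl
          exact hpqe hpy
        · exact Or.inl ⟨hpe, hpeN, hpy⟩
      have hne1 : (C ∩ (N \ {y})).Nonempty := by
        rcases hC1 with hh | hh
        · exact ⟨_, hh⟩
        · exact ⟨_, hh⟩
      have d2 := h.three_le_SetS (A := C \ (N \ {y})) (fun hh => hC hh.1) (u := pb) (v := qb)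
        ⟨hpb, hpbL⟩ ⟨hqb, hqbL⟩ hpqb
      have d1 := h.two_le_SetS (A := C ∩ (N \ {y})) (fun hh => hC hh.1) hne1
      -- Ent C ⊇ (Ent C1 ∪ Ent C2) minus the special items
      have hdisj : Disjoint (Ent g.tl g.hd (SetS T (C ∩ (N \ {y}))))
          (Ent g.tl g.hd (SetS T (C \ (N \ {y})))) := by
        rw [Set.disjoint_left]
        rintro i ⟨hi1, -⟩ ⟨hi2, -⟩
        obtain ⟨u, hu, hu'⟩ := mem_SetS hi1
        rw [hu'] at hi2
        have : u ∈ C \ (N \ {y}) := by simpa using hi2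
        exact this.2 hu.2
      have hun := Set.ncard_union_eq hdisj (Set.toFinite _) (Set.toFinite _)
      have hsub1 : ∀ i, i ∈ Ent g.tl g.hd (SetS T (C ∩ (N \ {y}))) →
          i ∈ Ent g.tl g.hd (SetS T C) ∨ (i = i0 ∧ g.hd i0 ∈ SetS T (C ∩ (N \ {y}))) := by
        rintro i ⟨hi1, hi2⟩
        by_cases hi3 : g.tl i ∈ SetS T C
        · right
          obtain ⟨v, hv, hv'⟩ := mem_SetS hi3
          obtain ⟨u, hu, hu'⟩ := mem_SetS hi1
          have hvL : v ∉ N \ {y} := fun hh => hi2 (by rw [hv']; simpa using ⟨hv, hh⟩)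
          have hii : g.IsIn i :=
            isIn_of hv' hu' (fun hh => hC (hh ▸ hu.1)) (fun hh => hC (hh ▸ hv))
          have h5 := hin i hii hi1 (by rw [hv']; exact (inl_mem_SetS _ _).2 ⟨hv, hvL⟩)
          have : i = i0 := hinn' i hii h5.1 (by rw [hu']; simpa using hu.2.1)
          exact ⟨this, this ▸ hi1⟩
        · left
          obtain ⟨u, hu, hu'⟩ := mem_SetS hi1
          exact ⟨by rw [hu']; simpa using hu.1, hi3⟩
      have hsub2 : ∀ i, i ∈ Ent g.tl g.hd (SetS T (C \ (N \ {y}))) →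
          i ∈ Ent g.tl g.hd (SetS T C) ∨ (i = m0 ∧ g.tl m0 ∈ SetS T (C ∩ (N \ {y}))) := by
        rintro i ⟨hi1, hi2⟩
        by_cases hi3 : g.tl i ∈ SetS T C
        · right
          obtain ⟨v, hv, hv'⟩ := mem_SetS hi3
          obtain ⟨u, hu, hu'⟩ := mem_SetS hi1
          have hvL : v ∈ N \ {y} := by
            by_contra hh
            exact hi2 (by rw [hv']; exact (inl_mem_SetS _ _).2 ⟨hv, hh⟩)
          have hii : g.IsIn i :=
            isIn_of hv' hu' (fun hh => hC (hh ▸ hu.1)) (fun hh => hC (hh ▸ hv))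
          have h5 := hout i hii hi1 (by rw [hv']; simpa using ⟨hv, hvL⟩)
          have h6 : c i = false := (hn9 i h5.1).2 (by rw [hv']; simpa using hvL.1)
          have : i = m0 := hm0u i h5.1 h6
          refine ⟨this, ?_⟩
          rw [← this, hv']
          simpa using ⟨hv, hvL⟩
        · left
          obtain ⟨u, hu, hu'⟩ := mem_SetS hi1
          exact ⟨by rw [hu']; simpa using hu.1, hi3⟩
      by_cases hboth : g.hd i0 ∈ SetS T (C ∩ (N \ {y})) ∧ g.tl m0 ∈ SetS T (C ∩ (N \ {y}))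
      · -- two different pairs in C1
        obtain ⟨hb1, hb2⟩ := hboth
        obtain ⟨f, hf, hf'⟩ := mem_SetS hb1
        obtain ⟨l, hl, hl'⟩ := mem_SetS hb2
        have hi0tl : g.tl i0 = Sum.inl y := by
          have : i0 ∈ g.inner y := by rw [hinn]; exact Or.inl rfl
          exact this.1
        have hfl : f ≠ l := by
          rintro rfl
          exact pq_ne h (hn5 f hf.2.1 hf.2.2).1 hys hi0tl hf' hl' hm0 rfl
        have d1' := h.three_le_SetS (A := C ∩ (N \ {y})) (fun hh => hC hh.1) hf hl hfl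
        have hsub : (Ent g.tl g.hd (SetS T (C ∩ (N \ {y}))) ∪
            Ent g.tl g.hd (SetS T (C \ (N \ {y})))) ⊆ Ent g.tl g.hd (SetS T C) ∪ {i0, m0} := by
          rintro i (hi | hi)
          · rcases hsub1 i hi with hh | hh
            · exact Or.inl hh
            · exact Or.inr (Or.inl hh.1)
          · rcases hsub2 i hi with hh | hh
            · exact Or.inl hh
            · exact Or.inr (Or.inr hh.1)
        have e1 := Set.ncard_le_ncard hsub (Set.toFinite _)
        have e2 := Set.ncard_union_le (Ent g.tl g.hd (SetS T C)) {i0, m0}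
        have e3 := Set.ncard_insert_le i0 {m0}
        rw [Set.ncard_singleton] at e3
        unfold ST.d at *
        omega
      · obtain ⟨z, hz⟩ : ∃ z : I, (Ent g.tl g.hd (SetS T (C ∩ (N \ {y}))) ∪
            Ent g.tl g.hd (SetS T (C \ (N \ {y})))) ⊆ Ent g.tl g.hd (SetS T C) ∪ {z} := by
          by_cases hb1 : g.hd i0 ∈ SetS T (C ∩ (N \ {y}))
          · refine ⟨i0, ?_⟩
            rintro i (hi | hi)
            · rcases hsub1 i hi with hh | hh
              · exact Or.inl hh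
              · exact Or.inr hh.1
            · rcases hsub2 i hi with hh | hh
              · exact Or.inl hh
              · exact (hboth ⟨hb1, hh.2⟩).elim
          · refine ⟨m0, ?_⟩
            rintro i (hi | hi)
            · rcases hsub1 i hi with hh | hh
              · exact Or.inl hh
              · exact (hb1 hh.2).elim
            · rcases hsub2 i hi with hh | hh
              · exact Or.inl hh
              · exact Or.inr hh.1
        have e1 := Set.ncard_le_ncard hz (Set.toFinite _)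
        have e2 := Set.ncard_union_le (Ent g.tl g.hd (SetS T C)) {z}
        rw [Set.ncard_singleton] at e2
        unfold ST.d at *
        omega
    · have h5 := split (N \ {y}) (fun i hi hh1 hh2 => hyC (hin i hi hh1 hh2).2)
        (fun i hi hh1 hh2 => hyC (hout i hi hh1 hh2).2)
      have hpy : pe ≠ y := fun hh => hyC (hh ▸ hpe)
      have hqy : qe ≠ y := fun hh => hyC (hh ▸ hqe)
      have h6 := h.three_le_SetS (A := C ∩ (N \ {y})) (fun hh => hC hh.1) (u := pe) (v := qe)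
        ⟨hpe, hpeN, hpy⟩ ⟨hqe, hqeN, hqy⟩ hpqe
      have h7 := h.two_le_SetS (A := C \ (N \ {y})) (fun hh => hC hh.1) ⟨pb, hpb, hpbL⟩
      omega

/-! ## The leaves -/

section Leaf

theorem symm {c : I → Bool} {A : Set S} {e : I} {c' : I → Bool} {B : Set T} {f : I}
    (hL : Leaves g c A e c' B f) :
    Leaves g.dual (fun i => !c' i) B f (fun i => !c i) A e := by
  refine ⟨hL.2, ?_⟩
  have h1 := hL.1
  rw [dual_dual]
  simpa using h1

theorem bigNode (h : MinInst g) (hs : g.StrS) (hNode : Stmt_Node) {c : I → Bool} {A : Set S}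
    (hst : g.SState c A) (hA : ¬ g.NDbl c A) : BigNode g c A := by
  rcases hNode S T I g h hs c A hst with h1 | h1 | h1
  · exact (hA h1).elim
  · exact Or.inl h1
  · exact Or.inr h1

theorem BigNode.cases {c : I → Bool} {N : Set S} (hN : BigNode g c N) {v : S} (hv : v ∈ N) :
    g.Pair v ∨ g.Single v := by
  rcases hN with hN | ⟨y, hN⟩
  · exact Or.inl (hN.2.1 v hv)
  · by_cases hvy : v = y
    · subst hvy
      exact Or.inr hN.2.2.1
    · exact Or.inl (hN.2.2.2.2.1 v hv hvy).1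

theorem not_DblKt {v : S} (h : g.Pair v ∨ g.Single v) : ¬ g.DblKt v := by
  rintro ⟨-, k, a, -, hE, hk, ha⟩
  have h1 : ∀ x, g.IsIn x → g.hd x = Sum.inl v → False := by
    intro x hx hxv
    rcases (inE_pair hE x).1 hxv with rfl | rfl
    · exact IsK.not_in hk hx
    · exact IsIn.not_inr hx _ ha
  rcases h with ⟨-, k', x, -, hE', hk', hx⟩ | ⟨-, x, x', -, hE', hx, hx'⟩
  · exact h1 x hx ((inE_pair hE' x).2 (Or.inr rfl))
  · exact h1 x hx ((inE_pair hE' x).2 (Or.inl rfl))

/-- the `-` entrance -/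
theorem entr {c : I → Bool} {A : Set S} {e : I} {c' : I → Bool} {B : Set T} {f : I}
    (h : MinInst g) (hL : Leaves g c A e c' B f) :
    ∀ a w, g.tl a = Sum.inr g.t → g.hd a = Sum.inr w → c a = false →
      w ∈ B ∧ g.dual.PExit (fun i => !c' i) w := by
  obtain ⟨w0, hw0, e0, he0, hce0⟩ := hL.2.spec
  intro a w ha hw hca
  have h1 : g.tl e0 = Sum.inr g.t := by simpa using he0.2
  have h2 : g.hd e0 = Sum.inr w0 := by simpa using he0.1
  have h3 : c e0 = false := by
    rw [hL.1.agt e0 h1]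
    simpa using hce0
  have h4 : a = e0 := t_uniq h hL.1.st.tI ha h1 (hca.trans h3.symm)
  subst h4
  rw [h2, Sum.inr.injEq] at hw
  subst hw
  exact ⟨hw0, a, he0, hce0⟩

/-- all ports of the node are flippable -/
theorem flp {c : I → Bool} {A : Set S} {e : I} {c' : I → Bool} {B : Set T} {f : I}
    (h : MinInst g) (hs : g.StrS) (hs' : g.dual.StrS) (hNode : Stmt_Node) (hStat : Stmt_Static)
    (hN4 : Stmt_N4) (hL : Leaves g c A e c' B f) (hA : ¬ g.NDbl c A)
    (hB : ¬ g.dual.NDbl (fun i => !c' i) B) {k : I} {u : S} (hk : g.IsK k)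
    (hku : g.hd k = Sum.inl u) (hu : u ∈ A) : g.Flp k := by
  have hbA := bigNode h hs hNode hL.1.st hA
  have hbB := bigNode h.dual hs' hNode hL.2.st hB
  obtain ⟨u', w, k1, k2, k3, k4⟩ := hk
  have huu : u' = u := by
    rw [hku, Sum.inl.injEq] at k2
    exact k2.symm
  subst huu
  have hp : g.Pair u' := hbA.pair hu ⟨u', w, k1, k2, k3, k4⟩ k2
  refine ⟨u', w, k1, k2, k3, k4, Or.inl hp, ?_⟩
  rcases hStat S T I g h hs hs' c A hL.1.st k w (by rw [k2]; simpa using hu) k1 k4 with h1 | h1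
  · exact h1
  · exfalso
    obtain ⟨⟨a, ha1, ha2, ha3⟩, -⟩ := hN4 S T I g h hs hs' c A hL.1.st k w
      (by rw [k2]; simpa using hu) k1 h1
    have h2 := (entr h hL a w ha1 ha2 ha3).1
    exact not_DblKt (hbB.cases h2) h1

/-- shape of the S-leaf -/
theorem shape {c : I → Bool} {A : Set S} {e : I} {c' : I → Bool} {B : Set T} {f : I}
    (h : MinInst g) (hs : g.StrS) (hs' : g.dual.StrS) (hNode : Stmt_Node) (hStat : Stmt_Static)
    (hN4 : Stmt_N4) (hBad : Stmt_Bad) (hMU : Stmt_MUniq)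
    (hL : Leaves g c A e c' B f) (hA : ¬ g.NDbl c A)
    (hB : ¬ g.dual.NDbl (fun i => !c' i) B) :
    ∃ (v u u' : S) (b : I), A = {v, u, u'} ∧ v ≠ u ∧ v ≠ u' ∧ u ≠ u' ∧ g.hd e = Sum.inl u ∧
      g.hd b = Sum.inl u' ∧ g.IsK e ∧ g.IsK b ∧ g.PExit c v ∧
      (∀ x ∈ A, x ≠ v → g.Pair x ∧ ¬ ∃ z, g.Exit x z) ∧ (g.NPlain c A ∨ g.NLoop c A v) := by
  have hbA := bigNode h hs hNode hL.1.st hA
  have hport : g.PortS c A e := (hL.1.port e).2 rfl
  obtain ⟨he1, he2, -⟩ := hport
  obtain ⟨u, hu, heu⟩ := mem_SetS he2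
  have hKe : g.IsK e := by
    obtain ⟨a, b, k1, k2, k3, k4, -⟩ := he1
    exact ⟨a, b, k1, k2, k3, k4⟩
  -- the exit vertex
  obtain ⟨v, hv, hvex, hv1, hv2⟩ : ∃ v ∈ A, g.PExit c v ∧
      (∀ x ∈ A, x ≠ v → g.Pair x ∧ ¬ ∃ z, g.Exit x z) ∧ (g.NPlain c A ∨ g.NLoop c A v) := by
    rcases hbA with hN | ⟨y, hN⟩
    · obtain ⟨v, hv, hvex⟩ := hL.1.spec
      refine ⟨v, hv, hvex, fun x hx hxv => ⟨hN.2.1 x hx, ?_⟩, Or.inl hN⟩
      rintro ⟨z, hz⟩
      obtain ⟨z', hz', hcz'⟩ := hvex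
      have h1 := hN.2.2.2.2 x hx z hz
      have h2 : z = z' := s_uniq h hL.1.st.tI hz.2 hz'.2 (h1.trans hcz'.symm)
      subst h2
      have h3 := hz.1.symm.trans hz'.1
      rw [Sum.inl.injEq] at h3
      exact hxv h3
    · exact ⟨y, hN.2.1, hN.2.2.2.1, hN.2.2.2.2.1, Or.inr hN⟩
  -- MBad of the others
  have hM : ∀ x ∈ A, x ≠ v → x ≠ u → ∃ k, g.IsK k ∧ g.hd k = Sum.inl x ∧ g.Flp k ∧
      g.MBad c A k := by
    intro x hx hxv hxu
    obtain ⟨⟨hxs, k, z, hkz, hE, hk, hz⟩, hnox⟩ := hv1 x hx hxv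
    have hkx : g.hd k = Sum.inl x := (inE_pair hE k).2 (Or.inl rfl)
    have hf := flp h hs hs' hNode hStat hN4 hL hA hB hk hkx hx
    have hke : k ≠ e := by
      rintro rfl
      rw [hkx, Sum.inl.injEq] at heu
      exact hxu heu
    have hm : g.hd k ∈ SetS T A := by rw [hkx]; simpa using hx
    have hnp : ¬ g.LegC (g.flipc k c) := fun hh => hke ((hL.1.port k).1 ⟨hf, hm, hh⟩)
    rcases hBad S T I g h hs hs' c A k hL.1.st hf hm hnp with h1 | ⟨-, x', h2, h3⟩
    · exact ⟨k, hk, hkx, hf, h1⟩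
    · rw [hkx, Sum.inl.injEq] at h2
      subst h2
      obtain ⟨z', hz', -⟩ := h3
      exact (hnox ⟨z', hz'⟩).elim
  -- a third vertex
  obtain ⟨u', hu', hu'v, hu'u⟩ : ∃ u' ∈ A, u' ≠ v ∧ u' ≠ u := by
    by_contra hcon
    push Not at hcon
    have hsub : A ⊆ {v, u} := by
      intro x hx
      by_cases hxv : x = v
      · exact Or.inl hxv
      · exact Or.inr (hcon x hx hxv)
    have h1 := Set.ncard_le_ncard hsub (Set.toFinite _)
    have h2 := Set.ncard_insert_le v {u}
    rw [Set.ncard_singleton] at h2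
    have h3 := (bigNode h hs hNode hL.1.st hA).card
    omega
  obtain ⟨b, hb1, hb2, hb3, hb4⟩ := hM u' hu' hu'v hu'u
  have hsub : A ⊆ {v, u, u'} := by
    intro x hx
    by_cases hxv : x = v
    · exact Or.inl hxv
    · by_cases hxu : x = u
      · exact Or.inr (Or.inl hxu)
      · obtain ⟨k, hk1, hk2, hk3, hk4⟩ := hM x hx hxv hxu
        have h1 := hMU S T I g h hs hs' c A k b hL.1.st hk3 hb3 (by rw [hk2]; simpa using hx)
          (by rw [hb2]; simpa using hu') hk4 hb4
        subst h1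
        rw [hk2, Sum.inl.injEq] at hb2
        exact Or.inr (Or.inr hb2)
  have hAeq : A = {v, u, u'} := by
    apply Set.Subset.antisymm hsub
    rintro x (rfl | rfl | rfl)
    · exact hv
    · exact hu
    · exact hu'
  have hvu : v ≠ u := by
    rintro rfl
    have h1 : A ⊆ {v, u'} := by
      rw [hAeq]
      rintro x (rfl | rfl | rfl)
      · exact Or.inl rfl
      · exact Or.inl rfl
      · exact Or.inr rfl
    have h2 := Set.ncard_le_ncard h1 (Set.toFinite _)
    have h3 := Set.ncard_insert_le v {u'}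
    rw [Set.ncard_singleton] at h3
    have h4 := (bigNode h hs hNode hL.1.st hA).card
    omega
  exact ⟨v, u, u', b, hAeq, hvu, hu'v.symm, hu'u.symm, heu, hb2, hKe, hb1, hvex, hv1, hv2⟩

/-- data of a pair without exit in the node -/
theorem pair_data {c : I → Bool} {A : Set S} (hs : g.StrS) (hbA : BigNode g c A)
    {k : I} {u : S} (hu : u ∈ A) (hk : g.IsK k) (hku : g.hd k = Sum.inl u)
    (hnex : ¬ ∃ z, g.Exit u z) :
    ∃ x y, g.IsIn x ∧ g.inE u = {x, k} ∧ g.hd x = Sum.inl u ∧ g.tl x ∈ SetS T A ∧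
      g.IsIn y ∧ g.outE u = {y} ∧ g.tl y = Sum.inl u ∧ g.hd y ∈ SetS T A := by
  have hp := hbA.pair hu hk hku
  obtain ⟨hst0, hst1, hst2⟩ := hbA.stay hu hk hku
  obtain ⟨y, hy⟩ := hs.pair u hp
  obtain ⟨hus, k', x, hkx, hE, hk', hx⟩ := hp
  have hkk : k' = k := by
    rcases (inE_pair hE k).1 hku with rfl | rfl
    · rfl
    · exact (IsK.not_in hk hx).elim
  subst hkk
  have hxu : g.hd x = Sum.inl u := (inE_pair hE x).2 (Or.inr rfl)
  have hyin : y ∈ innOut g u := by
    rw [← inner_eq_innOut hus, hy]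
    rfl
  refine ⟨x, y, hx, by rw [hE, Set.pair_comm], hxu, hst2 x hx hxu, hyin.1, ?_, hyin.2,
    hst1 y hyin.1 hyin.2⟩
  rw [← hy]
  ext i
  constructor
  · intro hi
    exact ⟨hi, fun hh => hnex ⟨i, hi, hh⟩⟩
  · intro hi
    exact hi.1

theorem mem3 {A : Set S} {v u u' x : S} (hA : A = {v, u, u'}) (hx : x ∈ A) :
    x = v ∨ x = u ∨ x = u' := by
  rw [hA] at hx
  exact hx

theorem IsIn.mem_inner {i : I} {v : S} (hi : g.IsIn i) (hv : g.tl i = Sum.inl v) :
    i ∈ g.inner v := by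
  refine ⟨hv, fun hh => ?_⟩
  obtain ⟨a, b, k1, k2, k3, k4⟩ := hi
  rw [k2, Sum.inl.injEq] at hh
  exact k3 hh

theorem v_data1 (h : MinInst g) {c : I → Bool} {A : Set S} (hst : g.SState c A)
    (hbA : BigNode g c A) {v : S} (hv : v ∈ A) (hv2 : g.NPlain c A ∨ g.NLoop c A v) :
    ∃ x r, x ≠ r ∧ g.inE v = {x, r} ∧ g.IsIn x ∧ g.hd x = Sum.inl v ∧ g.tl x ∈ SetS T A ∧
      ((g.NPlain c A ∧ g.IsK r) ∨ (g.NLoop c A v ∧ g.IsIn r ∧ g.tl r ∉ SetS T A)) := by
  rcases hv2 with hN | hN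
  · obtain ⟨hvs, k, x, hkx, hE, hk, hx⟩ := hN.2.1 v hv
    have hxv : g.hd x = Sum.inl v := (inE_pair hE x).2 (Or.inr rfl)
    exact ⟨x, k, hkx.symm, by rw [hE, Set.pair_comm], hx, hxv,
      (hN.2.2.1 x hx).2 (by rw [hxv]; simpa using hv), Or.inl ⟨hN, hk⟩⟩
  · have hN' := hN
    obtain ⟨hn1, hn2, ⟨hvs, x, x', hxx, hE, hx, hx'⟩, hn4, hn5, hn6, hn7, hn8, hn9, hn10⟩ := hN
    have hstar := star_S h hst hbA.ne hvs hE
    have hxv : g.hd x = Sum.inl v := (inE_pair hE x).2 (Or.inl rfl)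
    have hxv' : g.hd x' = Sum.inl v := (inE_pair hE x').2 (Or.inr rfl)
    rcases hcx : c x with _ | _
    · have hcx' : c x' = true := by
        rcases hcc : c x' with _ | _
        · exact (hstar (hcx.trans hcc.symm)).elim
        · rfl
      refine ⟨x, x', hxx, hE, hx, hxv, (hn9 x hxv).1 hcx, Or.inr ⟨hN', hx', fun hh => ?_⟩⟩
      have := (hn9 x' hxv').2 hh
      rw [hcx'] at this
      simp at this
    · have hcx' : c x' = false := by
        rcases hcc : c x' with _ | _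
        · rfl
        · exact (hstar (hcx.trans hcc.symm)).elim
      refine ⟨x', x, hxx.symm, by rw [hE, Set.pair_comm], hx', hxv', (hn9 x' hxv').1 hcx',
        Or.inr ⟨hN', hx, fun hh => ?_⟩⟩
      have := (hn9 x hxv).2 hh
      rw [hcx] at this
      simp at this

theorem v_data2 (hs : g.StrS) {c : I → Bool} {A : Set S} {v : S} (hv : v ∈ A)
    (hv2 : g.NPlain c A ∨ g.NLoop c A v) {i j : I} (hi : g.IsIn i) (hj : g.IsIn j)
    (hiv : g.tl i = Sum.inl v) (hjv : g.tl j = Sum.inl v) (hiA : g.hd i ∈ SetS T A)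
    (hjA : g.hd j ∈ SetS T A) : i = j := by
  have h1 := IsIn.mem_inner hi hiv
  have h2 := IsIn.mem_inner hj hjv
  rcases hv2 with hN | hN
  · obtain ⟨z, hz⟩ := hs.pair v (hN.2.1 v hv)
    rw [hz] at h1 h2
    exact h1.trans h2.symm
  · obtain ⟨-, -, -, -, -, -, -, -, -, i0, j0, -, hinn, hi0, hj0⟩ := hN
    rw [hinn] at h1 h2
    have h3 : i = i0 := by
      rcases h1 with h1 | h1
      · exact h1
      · rw [h1] at hiA
        exact (hj0 hiA).elim
    have h4 : j = i0 := by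
      rcases h2 with h2 | h2
      · exact h2
      · rw [h2] at hjA
        exact (hj0 hjA).elim
    rw [h3, h4]

theorem cyc (h : MinInst g) (hs : g.StrS) {c : I → Bool} {A : Set S} (hst : g.SState c A)
    (hbA : BigNode g c A) {v u u' : S} (hAeq : A = {v, u, u'}) (hvu : v ≠ u) (hvu' : v ≠ u')
    (huu' : u ≠ u') (hv2 : g.NPlain c A ∨ g.NLoop c A v) {k k' : I} (hk : g.IsK k)
    (hku : g.hd k = Sum.inl u) (hk' : g.IsK k') (hku' : g.hd k' = Sum.inl u')
    (hn : ¬ ∃ z, g.Exit u z) (hn' : ¬ ∃ z, g.Exit u' z) :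
    ∃ (ua ub : S) (ka kb x1 x2 x3 : I), ((ua = u ∧ ub = u' ∧ ka = k ∧ kb = k') ∨
      (ua = u' ∧ ub = u ∧ ka = k' ∧ kb = k)) ∧ g.tl x1 = Sum.inl v ∧ g.hd x1 = Sum.inl ua ∧
      g.tl x2 = Sum.inl ua ∧ g.hd x2 = Sum.inl ub ∧ g.tl x3 = Sum.inl ub ∧ g.hd x3 = Sum.inl v ∧
      g.inE ua = {x1, ka} ∧ g.inE ub = {x2, kb} ∧ g.outE ua = {x2} ∧ g.outE ub = {x3} := by
  have hvA : v ∈ A := by rw [hAeq]; exact Or.inl rfl
  have huA : u ∈ A := by rw [hAeq]; exact Or.inr (Or.inl rfl)
  have huA' : u' ∈ A := by rw [hAeq]; exact Or.inr (Or.inr rfl)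
  obtain ⟨x, y, hx, hE, hxu, hxA, hy, hO, hyu, hyA⟩ := pair_data hs hbA huA hk hku hn
  obtain ⟨x', y', hx', hE', hxu', hxA', hy', hO', hyu', hyA'⟩ := pair_data hs hbA huA' hk' hku' hn'
  obtain ⟨z, hzA, hz⟩ := mem_SetS hxA
  obtain ⟨z', hzA', hz'⟩ := mem_SetS hxA'
  obtain ⟨q, hqA, hq⟩ := mem_SetS hyA
  obtain ⟨q', hqA', hq'⟩ := mem_SetS hyA'
  have hzu : z ≠ u := by
    rintro rfl
    exact h.noloop x (hz.trans hxu.symm)
  have hzu' : z' ≠ u' := by
    rintro rfl
    exact h.noloop x' (hz'.trans hxu'.symm)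
  have hqu : q ≠ u := by
    rintro rfl
    exact h.noloop y (hyu.trans hq.symm)
  have hqu' : q' ≠ u' := by
    rintro rfl
    exact h.noloop y' (hyu'.trans hq'.symm)
  have outu : ∀ i, g.tl i = Sum.inl u → i = y := fun i hi => by
    have : i ∈ g.outE u := hi
    rw [hO] at this
    exact this
  have outu' : ∀ i, g.tl i = Sum.inl u' → i = y' := fun i hi => by
    have : i ∈ g.outE u' := hi
    rw [hO'] at this
    exact this
  -- the head of the out-item of `u'` when the in-item of `u` starts at `v`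
  have hd1 : z = v → q' = v := by
    rintro rfl
    rcases mem3 hAeq hqA' with h1 | h1 | h1
    · exact h1
    · exfalso
      rw [h1] at hq'
      rcases (inE_pair hE y').1 hq' with h2 | h2
      · rw [h2, hz, Sum.inl.injEq] at hyu'
        exact hvu' hyu'
      · rw [h2] at hy'
        exact IsK.not_in hk hy'
    · exact (hqu' h1).elim
  have hd2 : z' = v → q = v := by
    rintro rfl
    rcases mem3 hAeq hqA with h1 | h1 | h1
    · exact h1
    · exact (hqu h1).elim
    · exfalso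
      rw [h1] at hq
      rcases (inE_pair hE' y).1 hq with h2 | h2
      · rw [h2, hz', Sum.inl.injEq] at hyu
        exact hvu hyu
      · rw [h2] at hy
        exact IsK.not_in hk' hy
  rcases mem3 hAeq hzA with h1 | h1 | h1
  · -- `x : v → u`
    have hqv := hd1 h1
    rcases mem3 hAeq hzA' with h2 | h2 | h2
    · exfalso
      have h3 : x = x' := v_data2 hs hvA hv2 hx hx' (by rw [hz, h1]) (by rw [hz', h2])
        (by rw [hxu]; simpa using huA) (by rw [hxu']; simpa using huA')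
      rw [h3, hxu', Sum.inl.injEq] at hxu
      exact huu' hxu.symm
    · have h3 : x' = y := outu x' (by rw [hz', h2])
      refine ⟨u, u', k, k', x, y, y', Or.inl ⟨rfl, rfl, rfl, rfl⟩, by rw [hz, h1], hxu, hyu, ?_,
        hyu', by rw [hq', hqv], hE, ?_, hO, hO'⟩
      · rw [← h3, hxu']
      · rw [hE', h3]
    · exact (hzu' h2).elim
  · exact (hzu h1).elim
  · -- `x : u' → u`
    have h4 : x = y' := outu' x (by rw [hz, h1])
    rcases mem3 hAeq hzA' with h2 | h2 | h2
    · have hqv := hd2 h2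
      refine ⟨u', u, k', k, x', y', y, Or.inr ⟨rfl, rfl, rfl, rfl⟩, by rw [hz', h2], hxu', hyu',
        ?_, hyu, by rw [hq, hqv], hE', ?_, hO', hO⟩
      · rw [← h4, hxu]
      · rw [hE, h4]
    · exfalso
      have h3 : x' = y := outu x' (by rw [hz', h2])
      obtain ⟨x3, r, -, -, hx3, hx3v, hx3A, -⟩ := v_data1 h hst hbA hvA hv2
      obtain ⟨p, hpA, hp⟩ := mem_SetS hx3A
      rcases mem3 hAeq hpA with h5 | h5 | h5
      · rw [h5] at hp
        exact h.noloop x3 (hp.trans hx3v.symm)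
      · have h6 := outu x3 (by rw [hp, h5])
        rw [h6, ← h3, hxu', Sum.inl.injEq] at hx3v
        exact hvu' hx3v.symm
      · have h6 := outu' x3 (by rw [hp, h5])
        rw [h6, ← h4, hxu, Sum.inl.injEq] at hx3v
        exact hvu hx3v.symm
    · exact (hzu' h2).elim

/-- data of a pair without exit -/
theorem pair_data0 (hs : g.StrS) {k : I} {u : S} (hp : g.Pair u) (hk : g.IsK k)
    (hku : g.hd k = Sum.inl u) (hnex : ¬ ∃ z, g.Exit u z) :
    ∃ x y, g.IsIn x ∧ g.inE u = {x, k} ∧ g.hd x = Sum.inl u ∧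
      g.IsIn y ∧ g.outE u = {y} ∧ g.tl y = Sum.inl u := by
  obtain ⟨y, hy⟩ := hs.pair u hp
  obtain ⟨hus, k', x, hkx, hE, hk', hx⟩ := hp
  have hkk : k' = k := by
    rcases (inE_pair hE k).1 hku with rfl | rfl
    · rfl
    · exact (IsK.not_in hk hx).elim
  subst hkk
  have hxu : g.hd x = Sum.inl u := (inE_pair hE x).2 (Or.inr rfl)
  have hyin : y ∈ innOut g u := by
    rw [← inner_eq_innOut hus, hy]
    rfl
  refine ⟨x, y, hx, by rw [hE, Set.pair_comm], hxu, hyin.1, ?_, hyin.2⟩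
  rw [← hy]
  ext i
  constructor
  · intro hi
    exact ⟨hi, fun hh => hnex ⟨i, hi, hh⟩⟩
  · intro hi
    exact hi.1

theorem not_in_false {c : I → Bool} {A : Set S} {v : S} (hv2 : g.NPlain c A ∨ g.NLoop c A v)
    {y : I} (hy : g.IsIn y) (h1 : g.hd y ∈ SetS T A) (h2 : g.tl y ∈ SetS T A) : c y = false := by
  have hnK : ¬ g.IsK y := fun hh => IsK.not_in hh hy
  rcases hv2 with hN | hN
  · have := hN.2.2.2.1 y h1
    rcases hcy : c y with _ | _
    · rfl
    · exact (hnK (this.1 hcy)).elim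
  · obtain ⟨-, -, -, -, -, -, -, h8, h9, -⟩ := hN
    by_cases hyv : g.hd y = Sum.inl v
    · exact (h9 y hyv).2 h2
    · have := h8 y h1 hyv
      rcases hcy : c y with _ | _
      · rfl
      · exact (hnK (this.1 hcy)).elim

/-- no entrance at the tails of the K items of the two pairs -/
theorem no_entr {c : I → Bool} {A : Set S} {e : I} {c' : I → Bool} {B : Set T} {f : I}
    (h : MinInst g) (hs : g.StrS) (hs' : g.dual.StrS) (hNode : Stmt_Node) (hStat : Stmt_Static)
    (hN4 : Stmt_N4) (hBad : Stmt_Bad) (hMU : Stmt_MUniq)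
    (hL : Leaves g c A e c' B f) (hA : ¬ g.NDbl c A)
    (hB : ¬ g.dual.NDbl (fun i => !c' i) B) {v : S} (hv2 : g.NPlain c A ∨ g.NLoop c A v)
    {k : I} {u : S} {w : T} (hk : g.IsK k) (hku : g.hd k = Sum.inl u) (hu : u ∈ A)
    (hkw : g.tl k = Sum.inr w) (hnex : ¬ ∃ z, g.Exit u z) {a : I}
    (ha : g.tl a = Sum.inr g.t) (haw : g.hd a = Sum.inr w) : False := by
  have := h.finI
  have hst := hL.1.st
  have hbA := bigNode h hs hNode hst hA
  have hwt : w ≠ g.t := by
    rintro rfl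
    exact h.noloop a (ha.trans haw.symm)
  rcases hca : c a with _ | _
  · -- `-` entrance
    obtain ⟨hwB, hPE⟩ := entr h hL a w ha haw hca
    obtain ⟨h1, h2, h3⟩ := hL.1.common k (flp h hs hs' hNode hStat hN4 hL hA hB hk hku hu)
      (by rw [hku]; simpa using hu) ⟨w, hwB, hkw⟩
    obtain ⟨v', u1, u2, b', -, hvu, -, -, hf, -, -, -, hPE', -⟩ :=
      shape h.dual hs' (by rw [dual_dual]; exact hs) hNode hStat hN4 hBad hMU (symm hL) hB
        (by rw [dual_dual]; simpa using hA)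
    rw [h2, ← h1, dual_hd_inl, hkw, Sum.inr.injEq] at hf
    subst hf
    obtain ⟨e1, he1, he1'⟩ := hPE
    obtain ⟨e2, he2, he2'⟩ := hPE'
    have h4 : e1 = e2 := s_uniq h.dual hL.2.st.tI he1.2 he2.2 (he1'.trans he2'.symm)
    subst h4
    have h5 := he1.1.symm.trans he2.1
    rw [Sum.inl.injEq] at h5
    exact hvu h5.symm
  · -- `+` entrance
    obtain ⟨x, y, hx, hE, hxu, hxA, hy, hO, hyu, hyA⟩ := pair_data hs hbA hu hk hku hnex
    have hus : u ≠ g.s := fun hh => hst.hs (hh ▸ hu)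
    have hck : c k = true := (hbA.stay hu hk hku).1
    have hcy : c y = false := not_in_false hv2 hy hyA (by rw [hyu]; simpa using hu)
    let W : Set (S ⊕ T) := {Sum.inr g.t, Sum.inr w, Sum.inl u}ᶜ
    have hmem : ∀ x, x ∈ W ↔ x ≠ Sum.inr g.t ∧ x ≠ Sum.inr w ∧ x ≠ Sum.inl u := fun x => by
      simp [W]
    have hTI : g.TI W := by
      refine ⟨?_, ?_, ?_⟩
      · rintro a b ⟨u', w', rfl, rfl, huw⟩ hb
        rw [hmem] at hb ⊢
        refine ⟨by simp, by simp, ?_⟩
        intro hh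
        rw [Sum.inl.injEq] at hh
        subst hh
        have hw't : w' ≠ g.t := fun hh => hb.1 (by rw [hh])
        obtain ⟨k', hk1, hk2⟩ := h.hop huw hus hw't
        rcases (inE_pair hE k').1 hk2 with h6 | h6
        · rw [h6] at hk1
          exact IsIn.not_inr hx _ hk1
        · rw [h6, hkw] at hk1
          exact hb.2.1 hk1.symm
      · rw [hmem]
        exact ⟨by simp, by simp, by simpa using hus.symm⟩
      · rw [hmem]
        simp
    obtain ⟨i, hi1, hi2, hi3⟩ := hst.tI W hTI true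
    rw [hmem] at hi2 hi3
    by_cases ht1 : g.tl i = Sum.inr g.t
    · have h6 : i = a := t_uniq h hst.tI ht1 ha (hi1.trans hca.symm)
      rw [h6] at hi2
      exact hi2.2.1 haw
    · by_cases ht2 : g.tl i = Sum.inr w
      · -- the out-items of `w`
        by_cases hik : i = k
        · rw [hik] at hi2
          exact hi2.2.2 hku
        · have h7 := tout_card h w
          obtain ⟨a1, a2, ha12, hE3⟩ := Set.ncard_eq_two.1 h7
          have hst3 := star_T h hst hwt hE3
          have hmem3 : ∀ l, g.tl l = Sum.inr w → l = a1 ∨ l = a2 := fun l hl => by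
            have : l ∈ ({a1, a2} : Set I) := by
              rw [← hE3]
              exact hl
            simpa using this
          rcases hmem3 k hkw with h8 | h8 <;> rcases hmem3 i ht2 with h9 | h9
          · exact hik (h9.trans h8.symm)
          · apply hst3
            rw [← h8, ← h9, hck, hi1]
          · apply hst3
            rw [← h8, ← h9, hck, hi1]
          · exact hik (h9.trans h8.symm)
      · by_cases ht3 : g.tl i = Sum.inl u
        · have h8 : i ∈ g.outE u := ht3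
          rw [hO] at h8
          rw [Set.mem_singleton_iff.1 h8, hcy] at hi1
          simp at hi1
        · exact hi3 ⟨ht1, ht2, ht3⟩

/-- data at the tail of the K item of a pair -/
theorem tdata {c : I → Bool} {A : Set S} {e : I} {c' : I → Bool} {B : Set T} {f : I}
    (h : MinInst g) (hs : g.StrS) (hs' : g.dual.StrS) (hNode : Stmt_Node) (hStat : Stmt_Static)
    (hN4 : Stmt_N4) (hBad : Stmt_Bad) (hMU : Stmt_MUniq)
    (hL : Leaves g c A e c' B f) (hA : ¬ g.NDbl c A)
    (hB : ¬ g.dual.NDbl (fun i => !c' i) B) {v : S} (hv2 : g.NPlain c A ∨ g.NLoop c A v)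
    {k : I} {u : S} (hk : g.IsK k) (hku : g.hd k = Sum.inl u) (hu : u ∈ A)
    (hnex : ¬ ∃ z, g.Exit u z) :
    ∃ (w p q : T) (y i : I), w ≠ g.t ∧ p ≠ g.t ∧ q ≠ g.t ∧ g.tl k = Sum.inr w ∧
      g.dual.Pair w ∧
      g.tl y = Sum.inr w ∧ g.hd y = Sum.inr q ∧ g.tl i = Sum.inr p ∧ g.hd i = Sum.inr w ∧
      {l | g.tl l = Sum.inr w} = {k, y} ∧ {l | g.hd l = Sum.inr w} = {i} := by
  have hf := flp h hs hs' hNode hStat hN4 hL hA hB hk hku hu
  obtain ⟨u', w, k1, k2, k3, k4, -, k6⟩ := hf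
  have hno : ¬ ∃ z, g.dual.Exit w z := by
    rintro ⟨z, hz1, hz2⟩
    exact no_entr h hs hs' hNode hStat hN4 hBad hMU hL hA hB hv2 hk hku hu k1 hnex
      (a := z) (by simpa using hz2) (by simpa using hz1)
  have hp : g.dual.Pair w := by
    rcases k6 with h1 | ⟨-, h1⟩
    · exact h1
    · exact (hno h1).elim
  obtain ⟨x, y, hx, hE, hxu, hy, hO, hyu⟩ := pair_data0 hs' hp ((isK_dual g k).2 hk)
    (by simpa using k1) hno
  obtain ⟨q', q, hq1, hq2, hq3, hq4⟩ := hx
  obtain ⟨p, p', hp1, hp2, hp3, hp4⟩ := hy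
  refine ⟨w, p, q, x, y, k4, hp3, hq4, k1, hp, by simpa using hxu, by simpa using hq1,
    by simpa using hp2, by simpa using hyu, ?_, ?_⟩
  · ext l
    have : l ∈ g.dual.inE w ↔ l ∈ ({x, k} : Set I) := by rw [hE]
    simp only [ST.inE, Set.mem_ofPred_eq, dual_hd_inl] at this
    rw [Set.mem_ofPred_eq, this, Set.pair_comm]
  · ext l
    have : l ∈ g.dual.outE w ↔ l ∈ ({y} : Set I) := by rw [hO]
    simp only [ST.outE, Set.mem_ofPred_eq, dual_tl_inl] at this
    rw [Set.mem_ofPred_eq, this]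

theorem flip_ne {c : I → Bool} {e b : I} {u u' : S} (hbe : b ≠ e) (hu : g.hd e = Sum.inl u)
    (hb : g.hd b = Sum.inl u') (huu : u ≠ u') : g.flipc e c b = c b := by
  unfold ST.flipc
  rw [if_neg]
  rintro (h1 | ⟨h1, -⟩ | ⟨-, w, h1⟩)
  · exact hbe h1
  · rw [hb, hu, Sum.inl.injEq] at h1
    exact huu h1.symm
  · rw [hb] at h1
    simp at h1

end Leaf

end E2

open E2 in
/-- module E2 -/
theorem E2_proof (hNode : Stmt_Node) (hStat : Stmt_Static) (hN4 : Stmt_N4) (hBad : Stmt_Bad)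
    (hMU : Stmt_MUniq) (hD : Stmt_DRed) : Stmt_E2 := by
  intro S T I g h hs hs' c A e c' B f hL hA hB
  have := h.finI
  have hst := hL.1.st
  have hbA := bigNode h hs hNode hst hA
  obtain ⟨v, u, u', b, hAeq, hvu, hvu', huu', heu, hbu, hKe, hKb, hPE, hvx, hv2⟩ :=
    shape h hs hs' hNode hStat hN4 hBad hMU hL hA hB
  have hvA : v ∈ A := by rw [hAeq]; exact Or.inl rfl
  have huA : u ∈ A := by rw [hAeq]; exact Or.inr (Or.inl rfl)
  have huA' : u' ∈ A := by rw [hAeq]; exact Or.inr (Or.inr rfl)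
  have hne : ∀ x ∈ A, x ≠ g.s := fun x hx hh => hst.hs (hh ▸ hx)
  have hn := (hvx u huA hvu.symm).2
  have hn' := (hvx u' huA' hvu'.symm).2
  have hbe : b ≠ e := by
    rintro rfl
    rw [heu, Sum.inl.injEq] at hbu
    exact huu' hbu
  -- the next state
  obtain ⟨N1, hN1, ⟨we, hwe1, hwe2⟩, hor⟩ := hL.1.next
  have hst1 : g.dual.SState (fun i => !(g.flipc e c i)) N1 := hN1
  have hbN : BigNode g.dual (fun i => !(g.flipc e c i)) N1 := by
    apply bigNode h.dual hs' hNode hst1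
    rcases hor with ⟨h1, h2, -⟩ | ⟨-, h2, -⟩
    · rw [h1, h2]
      exact hB
    · exact h2
  -- facts for the ordered pair (e, b)
  have key : ∀ (w1 w2 p1 q1 p2 q2 : T) (y1 i1 y2 i2 : I),
      g.tl e = Sum.inr w1 → g.dual.Pair w1 → g.tl y1 = Sum.inr w1 → g.hd y1 = Sum.inr q1 →
      g.tl i1 = Sum.inr p1 → g.hd i1 = Sum.inr w1 → p1 ≠ g.t → q1 ≠ g.t →
      g.tl b = Sum.inr w2 → g.dual.Pair w2 → g.tl y2 = Sum.inr w2 → g.hd y2 = Sum.inr q2 →
      g.tl i2 = Sum.inr p2 → g.hd i2 = Sum.inr w2 → p2 ≠ g.t → q2 ≠ g.t →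
      w1 ≠ w2 ∧ p1 ≠ w2 ∧ q1 ≠ w2 ∧ p2 ≠ w1 ∧ q2 ≠ w1 ∧
      (∀ C : Set T, g.t ∉ C → p1 ∈ C → q1 ∈ C → p2 ∈ C → q2 ∈ C → 4 ≤ g.d (SetT S C)) := by
    intro w1 w2 p1 q1 p2 q2 y1 i1 y2 i2 hew hP1 hy1 hy1' hi1 hi1' hp1 hq1 hbw hP2 hy2 hy2' hi2
      hi2' hp2 hq2
    have hw1t : w1 ≠ g.t := hP1.1
    have hw2t : w2 ≠ g.t := hP2.1
    have hw1 : w1 ∈ N1 := by
      rw [hwe2, Sum.inr.injEq] at hew
      exact hew ▸ hwe1
    have hdKe : g.dual.IsK e := (isK_dual g e).2 hKe
    have hdKb : g.dual.IsK b := (isK_dual g b).2 hKb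
    have hew' : g.dual.hd e = Sum.inl w1 := by simpa using hew
    have hbw' : g.dual.hd b = Sum.inl w2 := by simpa using hbw
    obtain ⟨-, hstay1, hstay2⟩ := hbN.stay hw1 hdKe hew'
    have hw2 : w2 ∉ N1 := by
      intro hh
      have h1 := (hbN.stay hh hdKb hbw').1
      have h2 : c b = true := (hbA.stay huA' hKb hbu).1
      have h3 : g.flipc e c b = c b := flip_ne hbe heu hbu huu'
      simp only [h3, h2] at h1
      simp at h1
    have D1 : g.dual.IsIn y1 := ⟨w1, q1, by simpa using hy1', by simpa using hy1, hw1t, hq1⟩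
    have D2 : g.dual.IsIn i1 := ⟨p1, w1, by simpa using hi1', by simpa using hi1, hp1, hw1t⟩
    have D3 : g.dual.IsIn y2 := ⟨w2, q2, by simpa using hy2', by simpa using hy2, hw2t, hq2⟩
    have D4 : g.dual.IsIn i2 := ⟨p2, w2, by simpa using hi2', by simpa using hi2, hp2, hw2t⟩
    have hq1N : q1 ∈ N1 := by
      have := hstay2 y1 D1 (by simpa using hy1)
      have h5 : g.dual.tl y1 = Sum.inl q1 := by simpa using hy1'
      rw [h5] at this
      simpa using this
    have hp1N : p1 ∈ N1 := by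
      have := hstay1 i1 D2 (by simpa using hi1')
      have h5 : g.dual.hd i1 = Sum.inl p1 := by simpa using hi1
      rw [h5] at this
      simpa using this
    refine ⟨fun hh => hw2 (hh ▸ hw1), fun hh => hw2 (hh ▸ hp1N), fun hh => hw2 (hh ▸ hq1N),
      ?_, ?_, ?_⟩
    · rintro rfl
      have := hstay2 i2 D4 (by simpa using hi2)
      have h5 : g.dual.tl i2 = Sum.inl w2 := by simpa using hi2'
      rw [h5] at this
      exact hw2 (by simpa using this)
    · rintro rfl
      have := hstay1 y2 D3 (by simpa using hy2')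
      have h5 : g.dual.hd y2 = Sum.inl w2 := by simpa using hy2
      rw [h5] at this
      exact hw2 (by simpa using this)
    · intro C hC h1 h2 h3 h4
      rw [← d_dual, dZ_SetT]
      exact tv_both h.dual hst1 hbN hw1 hdKe hew' hw2 hP2 (i1 := y1) (i2 := i1) (i3 := y2)
        (i4 := i2) (pe := q1) (qe := p1) (pb := q2) (qb := p2)
        (by simpa using hy1') (by simpa using hy1) (by simpa using hi1') (by simpa using hi1)
        (by simpa using hy2') (by simpa using hy2) (by simpa using hi2') (by simpa using hi2)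
        hC h2 h1 h4 h3
  -- one strand
  have one : ∀ (w p q : T) (y i : I), g.dual.Pair w → g.tl y = Sum.inr w → g.hd y = Sum.inr q →
      g.tl i = Sum.inr p → g.hd i = Sum.inr w → p ≠ g.t → q ≠ g.t →
      ∀ C : Set T, g.t ∉ C → p ∈ C → q ∈ C → 3 ≤ g.d (SetT S C) := by
    intro w p q y i hP hy hy' hi hi' hp hq C hC h1 h2
    rw [← d_dual, dZ_SetT]
    have hpq : q ≠ p := pq_ne h.dual hP hq (i := y) (j := i) (by simpa using hy')
      (by simpa using hy) (by simpa using hi') (by simpa using hi)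
    exact h.dual.three_le_SetS (A := C) hC h1 h2 hpq.symm
  obtain ⟨ua, ub, ka, kb, x1, x2, x3, hab, t1, d1, t2, d2, t3, d3, Ea, Eb, Oa, Ob⟩ :=
    cyc h hs hst hbA hAeq hvu hvu' huu' hv2 hKe heu hKb hbu hn hn'
  obtain ⟨we', pe, qe, ye, ie, e1, e2, e3, e4, e5, e6, e7, e8, e9, e10, e11⟩ :=
    tdata h hs hs' hNode hStat hN4 hBad hMU hL hA hB hv2 hKe heu huA hn
  obtain ⟨wb', pb, qb, yb, ib, b1, b2, b3, b4, b5, b6, b7, b8, b9, b10, b11⟩ :=
    tdata h hs hs' hNode hStat hN4 hBad hMU hL hA hB hv2 hKb hbu huA' hn'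
  obtain ⟨n1, n2, n3, n4, n5, n6⟩ := key we' wb' pe qe pb qb ye ie yb ib e4 e5 e6 e7 e8 e9 e2 e3
    b4 b5 b6 b7 b8 b9 b2 b3
  have one1 := one we' pe qe ye ie e5 e6 e7 e8 e9 e2 e3
  have one2 := one wb' pb qb yb ib b5 b6 b7 b8 b9 b2 b3
  obtain ⟨ex, hex, -⟩ := hPE
  -- the vertex `v`
  obtain ⟨x, r, hxr, hEv, hx, hxv, hxA, hr⟩ := v_data1 h hst hbA hvA hv2
  have huaA : ua ∈ A := by
    rcases hab with ⟨h1, -⟩ | ⟨h1, -⟩
    · rw [h1]; exact huA
    · rw [h1]; exact huA'
  have hubA : ub ∈ A := by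
    rcases hab with ⟨-, h1, -⟩ | ⟨-, h1, -⟩
    · rw [h1]; exact huA'
    · rw [h1]; exact huA
  have hvua : v ≠ ua := by
    rintro rfl
    exact h.noloop x1 (t1.trans d1.symm)
  have hvub : v ≠ ub := by
    rintro rfl
    exact h.noloop x3 (t3.trans d3.symm)
  have huab : ua ≠ ub := by
    rintro rfl
    exact h.noloop x2 (t2.trans d2.symm)
  have I1 : g.IsIn x1 := isIn_of t1 d1 (hne _ huaA) (hne _ hvA)
  have I3 : g.IsIn x3 := isIn_of t3 d3 (hne _ hvA) (hne _ hubA)
  have hx3 : x3 = x := by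
    rcases (inE_pair hEv x3).1 d3 with h1 | h1
    · exact h1
    · exfalso
      rcases hr with ⟨-, h2⟩ | ⟨-, -, h2⟩
      · rw [← h1] at h2
        exact IsK.not_in h2 I3
      · rw [← h1, t3] at h2
        exact h2 (by simpa using hubA)
  subst hx3
  have hx1in : x1 ∈ g.inner v := IsIn.mem_inner I1 t1
  have hvcase : ((∃ wp, g.tl r = Sum.inr wp ∧ wp ≠ g.t) ∧ g.outE v = {x1, ex}) ∨
      ((∃ z, g.tl r = Sum.inl z ∧ z ≠ g.s) ∧
        ∃ y x, y ≠ x1 ∧ g.outE v = {x1, ex, y} ∧ g.hd y = Sum.inl x ∧ x ≠ g.s ∧ x ≠ v ∧ x ≠ ua ∧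
          x ≠ ub) := by
    rcases hr with ⟨hN, hrK⟩ | ⟨hN, hrI, -⟩
    · left
      obtain ⟨u0, w0, k1, k2, k3, k4⟩ := hrK
      refine ⟨⟨w0, k1, k4⟩, ?_⟩
      obtain ⟨z, hz⟩ := hs.pair v (hN.2.1 v hvA)
      rw [hz] at hx1in
      ext i
      constructor
      · intro hi
        by_cases hh : g.hd i = Sum.inl g.s
        · exact Or.inr (hs.exitUniq v i ex ⟨hi, hh⟩ hex)
        · left
          have h1 : i ∈ g.inner v := ⟨hi, hh⟩
          rw [hz] at h1
          exact h1.trans hx1in.symm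
      · rintro (rfl | rfl)
        · exact t1
        · exact hex.1
    · right
      obtain ⟨a, z, k1, k2, k3, k4⟩ := hrI
      refine ⟨⟨z, k1, k4⟩, ?_⟩
      obtain ⟨-, -, -, -, -, -, -, -, -, i0, j0, hij, hinn, hi0, hj0⟩ := hN
      have h1 : x1 = i0 := by
        have h2 := hx1in
        rw [hinn] at h2
        rcases h2 with h2 | h2
        · exact h2
        · exfalso
          rw [← (show x1 = j0 from h2), d1] at hj0
          exact hj0 (by simpa using huaA)
      have hj0in : j0 ∈ g.inner v := by rw [hinn]; exact Or.inr rfl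
      obtain ⟨xx, hxx⟩ := out_type g hj0in.1
      have hxxA : xx ∉ A := fun hh => hj0 (by rw [hxx]; simpa using hh)
      refine ⟨j0, xx, ?_, ?_, hxx, ?_, ?_, ?_, ?_⟩
      · rw [h1]
        exact hij.symm
      · ext i
        constructor
        · intro hi
          by_cases hh : g.hd i = Sum.inl g.s
          · exact Or.inr (Or.inl (hs.exitUniq v i ex ⟨hi, hh⟩ hex))
          · have h2 : i ∈ g.inner v := ⟨hi, hh⟩
            rw [hinn] at h2
            rcases h2 with h2 | h2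
            · exact Or.inl (h2.trans h1.symm)
            · exact Or.inr (Or.inr h2)
        · rintro (rfl | rfl | rfl)
          · exact t1
          · exact hex.1
          · exact hj0in.1
      · rintro rfl
        exact hj0in.2 hxx
      · rintro rfl
        exact hxxA hvA
      · rintro rfl
        exact hxxA huaA
      · rintro rfl
        exact hxxA hubA
  rcases hab with ⟨rfl, rfl, rfl, rfl⟩ | ⟨rfl, rfl, rfl, rfl⟩
  · refine hD S T I g h v ua ub we' wb' pe qe pb qb x1 x2 x3 ex r ka kb ye yb ie ib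
      ⟨hne _ hvA, hne _ huaA, hne _ hubA, hvua, hvub, huab, n1, e1, b1, e2, e3, b2, b3, n2, n3, n4,
        n5, ⟨t1, d1⟩, ⟨t2, d2⟩, ⟨t3, d3⟩, hex, ⟨e4, heu⟩, ⟨b4, hbu⟩, ⟨e6, e7⟩, ⟨b6, b7⟩,
        ⟨e8, e9⟩, ⟨b8, b9⟩, Ea, Eb, hEv, hxr.symm, Oa, Ob, e11, b11, e10, b10, hvcase⟩ ?_ ?_ ?_
    · intro C h1 _ _ h2 h3
      exact one1 C h1 h2 h3
    · intro C h1 _ _ h2 h3
      exact one2 C h1 h2 h3
    · intro C h1 _ _ h2 h3 h4 h5
      exact n6 C h1 h2 h3 h4 h5
  · refine hD S T I g h v ua ub wb' we' pb qb pe qe x1 x2 x3 ex r ka kb yb ye ib ie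
      ⟨hne _ hvA, hne _ huaA, hne _ hubA, hvua, hvub, huab, n1.symm, b1, e1, b2, b3, e2, e3, n4,
        n5, n2, n3, ⟨t1, d1⟩, ⟨t2, d2⟩, ⟨t3, d3⟩, hex, ⟨b4, hbu⟩, ⟨e4, heu⟩, ⟨b6, b7⟩, ⟨e6, e7⟩,
        ⟨b8, b9⟩, ⟨e8, e9⟩, Ea, Eb, hEv, hxr.symm, Oa, Ob, b11, e11, b10, e10, hvcase⟩ ?_ ?_ ?_
    · intro C h1 _ _ h2 h3
      exact one2 C h1 h2 h3
    · intro C h1 _ _ h2 h3
      exact one1 C h1 h2 h3
    · intro C h1 _ _ h2 h3 h4 h5
      exact n6 C h1 h4 h5 h2 h3

end GW
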