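import Mathlib

/-!
# Edmonds' theorem on disjoint branchings with prescribed root sets (Lovasz's proof)
-/

namespace GW

open Finset

section Edmonds

variable {V I κ : Type*} [DecidableEq V]

/-- number of items of `J` entering `A` -/
def din (tl hd : I → V) (J : Finset I) (A : Finset V) : ℕ :=
  (J.filter (fun i => hd i ∈ A ∧ tl i ∉ A)).card

/-- number of colours whose root set misses `A` -/
def pmiss [Fintype κ] (R : κ → Finset V) (A : Finset V) : ℕ :=
  (univ.filter (fun c => Disjoint A (R c))).card

theorem din_submod (tl hd : I → V) (J : Finset I) (A B : Finset V) :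
    din tl hd J (A ∩ B) + din tl hd J (A ∪ B) ≤ din tl hd J A + din tl hd J B := by
  unfold din
  simp only [Finset.card_filter]
  rw [← Finset.sum_add_distrib, ← Finset.sum_add_distrib]
  apply Finset.sum_le_sum
  intro i _
  by_cases h1 : hd i ∈ A <;> by_cases h2 : hd i ∈ B <;> by_cases h3 : tl i ∈ A <;>
    by_cases h4 : tl i ∈ B <;> simp [h1, h2, h3, h4]

theorem pmiss_supermod [Fintype κ] (R : κ → Finset V) (A B : Finset V) :
    pmiss R A + pmiss R B ≤ pmiss R (A ∩ B) + pmiss R (A ∪ B) := by
  unfold pmiss
  simp only [Finset.card_filter]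
  rw [← Finset.sum_add_distrib, ← Finset.sum_add_distrib]
  apply Finset.sum_le_sum
  intro c _
  have h1 : Disjoint A (R c) → Disjoint (A ∩ B) (R c) := fun h =>
    h.mono_left Finset.inter_subset_left
  have h2 : Disjoint B (R c) → Disjoint (A ∩ B) (R c) := fun h =>
    h.mono_left Finset.inter_subset_right
  have h3 : Disjoint (A ∪ B) (R c) ↔ Disjoint A (R c) ∧ Disjoint B (R c) :=
    Finset.disjoint_union_left
  by_cases hA : Disjoint A (R c) <;> by_cases hB : Disjoint B (R c) <;>
    by_cases hAB : Disjoint (A ∩ B) (R c) <;> simp_all

theorem pmiss_supermod_strict [Fintype κ] (R : κ → Finset V) (A B : Finset V) (c : κ)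
    (hA : ¬ Disjoint A (R c)) (hB : ¬ Disjoint B (R c)) (hAB : Disjoint (A ∩ B) (R c)) :
    pmiss R A + pmiss R B < pmiss R (A ∩ B) + pmiss R (A ∪ B) := by
  unfold pmiss
  simp only [Finset.card_filter]
  rw [← Finset.sum_add_distrib, ← Finset.sum_add_distrib]
  apply Finset.sum_lt_sum
  · intro c _
    have h1 : Disjoint A (R c) → Disjoint (A ∩ B) (R c) := fun h =>
      h.mono_left Finset.inter_subset_left
    have h2 : Disjoint B (R c) → Disjoint (A ∩ B) (R c) := fun h =>
      h.mono_left Finset.inter_subset_right
    have h3 : Disjoint (A ∪ B) (R c) ↔ Disjoint A (R c) ∧ Disjoint B (R c) :=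
      Finset.disjoint_union_left
    by_cases hA : Disjoint A (R c) <;> by_cases hB : Disjoint B (R c) <;>
      by_cases hAB : Disjoint (A ∩ B) (R c) <;> simp_all
  · refine ⟨c, Finset.mem_univ _, ?_⟩
    simp [hA, hB, hAB]

/-- The key step of Lovasz's proof. -/
theorem edmonds_step [Fintype V] [Fintype κ] (tl hd : I → V) (J : Finset I)
    (R : κ → Finset V)
    (h : ∀ A : Finset V, A.Nonempty → pmiss R A ≤ din tl hd J A)
    (c : κ) (hc : R c ≠ univ) :
    ∃ i ∈ J, tl i ∈ R c ∧ hd i ∉ R c ∧
      ∀ A : Finset V, hd i ∈ A → tl i ∉ A → ¬ Disjoint A (R c) →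
        pmiss R A < din tl hd J A := by
  classical
  -- a set `A₀` that is minimal dangerous, or the whole space
  have key : ∀ A₀ : Finset V, (A₀ \ R c).Nonempty → ¬ Disjoint A₀ (R c) →
      din tl hd J A₀ = pmiss R A₀ →
      (∀ A : Finset V, A ⊂ A₀ → (A \ R c).Nonempty → ¬ Disjoint A (R c) →
        din tl hd J A ≠ pmiss R A) →
      ∃ i ∈ J, tl i ∈ R c ∧ hd i ∉ R c ∧
      ∀ A : Finset V, hd i ∈ A → tl i ∉ A → ¬ Disjoint A (R c) →
        pmiss R A < din tl hd J A := by
    intro A₀ h1 h2 h3 h4
    have h5 : pmiss R A₀ < pmiss R (A₀ \ R c) := by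
      unfold pmiss
      apply Finset.card_lt_card
      rw [Finset.ssubset_iff_of_subset]
      · refine ⟨c, ?_, ?_⟩
        · simp only [Finset.mem_filter, Finset.mem_univ, true_and]
          exact Finset.sdiff_disjoint
        · simp only [Finset.mem_filter, Finset.mem_univ, true_and]
          exact h2
      · intro d hd
        simp only [Finset.mem_filter, Finset.mem_univ, true_and] at hd ⊢
        exact hd.mono_left Finset.sdiff_subset
    have h6 : din tl hd J A₀ < din tl hd J (A₀ \ R c) := by
      have := h _ h1
      omega
    have h7 : ∃ i ∈ J, (hd i ∈ A₀ \ R c ∧ tl i ∉ A₀ \ R c) ∧ ¬ (hd i ∈ A₀ ∧ tl i ∉ A₀) := by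
      by_contra hcon
      push Not at hcon
      have : din tl hd J (A₀ \ R c) ≤ din tl hd J A₀ := by
        unfold din
        apply Finset.card_le_card
        intro i hi
        simp only [Finset.mem_filter] at hi ⊢
        exact ⟨hi.1, hcon i hi.1 hi.2⟩
      omega
    obtain ⟨i, hiJ, ⟨h8, h9⟩, h10⟩ := h7
    rw [Finset.mem_sdiff] at h8
    have h11 : tl i ∈ A₀ := by
      by_contra hcon
      exact h10 ⟨h8.1, hcon⟩
    have h12 : tl i ∈ R c := by
      by_contra hcon
      exact h9 (Finset.mem_sdiff.2 ⟨h11, hcon⟩)
    refine ⟨i, hiJ, h12, h8.2, ?_⟩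
    intro A hA1 hA2 hA3
    have hAne : A.Nonempty := ⟨_, hA1⟩
    have hAle := h A hAne
    by_contra hcon
    have hAeq : din tl hd J A = pmiss R A := by omega
    have hint : (A ∩ A₀).Nonempty := ⟨hd i, Finset.mem_inter.2 ⟨hA1, h8.1⟩⟩
    have huni : (A ∪ A₀).Nonempty := hAne.mono Finset.subset_union_left
    have e1 := h _ hint
    have e2 := h _ huni
    have e3 := din_submod tl hd J A A₀
    have e4 := pmiss_supermod R A A₀
    by_cases hdis : Disjoint (A ∩ A₀) (R c)
    · have e5 := pmiss_supermod_strict R A A₀ c hA3 h2 hdis
      omega
    · apply h4 (A ∩ A₀) _ _ hdis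
      · omega
      · rw [Finset.ssubset_iff_of_subset Finset.inter_subset_right]
        refine ⟨tl i, h11, ?_⟩
        intro hmem
        exact hA2 (Finset.mem_inter.1 hmem).1
      · exact ⟨hd i, Finset.mem_sdiff.2 ⟨Finset.mem_inter.2 ⟨hA1, h8.1⟩, h8.2⟩⟩
  by_cases hex : ∃ A : Finset V, (A \ R c).Nonempty ∧ ¬ Disjoint A (R c) ∧
      din tl hd J A = pmiss R A
  · -- take a minimal one
    let F : Finset (Finset V) := univ.filter (fun A => (A \ R c).Nonempty ∧
      ¬ Disjoint A (R c) ∧ din tl hd J A = pmiss R A)
    have hF : F.Nonempty := by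
      obtain ⟨A, hA⟩ := hex
      exact ⟨A, by simp only [F, Finset.mem_filter, Finset.mem_univ, true_and]; exact hA⟩
    obtain ⟨A₀, hA₀, hmin⟩ := Finset.exists_min_image F Finset.card hF
    have hA₀' := hA₀
    simp only [F, Finset.mem_filter, Finset.mem_univ, true_and] at hA₀'
    refine key A₀ hA₀'.1 hA₀'.2.1 hA₀'.2.2 ?_
    intro A hA h1 h2 h3
    have : A ∈ F := by
      simp only [F, Finset.mem_filter, Finset.mem_univ, true_and]
      exact ⟨h1, h2, h3⟩
    have h4 := hmin A this
    have h5 := Finset.card_lt_card hA
    omega
  · push Not at hex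
    have hne : (univ \ R c).Nonempty := by
      by_contra hcon
      rw [Finset.not_nonempty_iff_eq_empty, Finset.sdiff_eq_empty_iff_subset] at hcon
      exact hc (Finset.eq_univ_of_forall fun x => hcon (Finset.mem_univ x))
    have h1 := h _ hne
    have h2 : 0 < pmiss R (univ \ R c) := by
      unfold pmiss
      rw [Finset.card_pos]
      refine ⟨c, ?_⟩
      simp only [Finset.mem_filter, Finset.mem_univ, true_and]
      exact Finset.sdiff_disjoint
    have h3 : 0 < din tl hd J (univ \ R c) := by omega
    unfold din at h3
    rw [Finset.card_pos] at h3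
    obtain ⟨i, hi⟩ := h3
    simp only [Finset.mem_filter, Finset.mem_sdiff, Finset.mem_univ, true_and, not_not] at hi
    refine ⟨i, hi.1, hi.2.2, hi.2.1, ?_⟩
    intro A hA1 hA2 hA3
    have h4 := hex A ⟨hd i, Finset.mem_sdiff.2 ⟨hA1, hi.2.1⟩⟩ hA3
    have h5 := h A ⟨_, hA1⟩
    omega

theorem edmonds_aux [Fintype V] [DecidableEq I] [Fintype κ] [DecidableEq κ] [Nonempty κ]
    (tl hd : I → V) :
    ∀ (N : ℕ) (J : Finset I) (R : κ → Finset V),
      (∑ c, (univ \ R c).card) = N →
      (∀ A : Finset V, A.Nonempty → pmiss R A ≤ din tl hd J A) →
      ∃ col : I → κ, ∀ (c : κ) (A : Finset V), A.Nonempty → Disjoint A (R c) →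
        ∃ i ∈ J, col i = c ∧ hd i ∈ A ∧ tl i ∉ A := by
  intro N
  induction N using Nat.strong_induction_on with
  | _ N ih =>
    intro J R hN h
    by_cases hall : ∀ c, R c = univ
    · refine ⟨fun _ => Classical.arbitrary κ, ?_⟩
      intro c A hA hdis
      rw [hall c] at hdis
      obtain ⟨x, hx⟩ := hA
      exact absurd (Finset.mem_univ x) (Finset.disjoint_left.1 hdis hx)
    · push Not at hall
      obtain ⟨c, hc⟩ := hall
      obtain ⟨i, hiJ, hi1, hi2, hi3⟩ := edmonds_step tl hd J R h c hc
      -- the new root sets
      let R' : κ → Finset V := fun d => if d = c then insert (hd i) (R c) else R d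
      have hR'c : R' c = insert (hd i) (R c) := by simp [R']
      have hR'd : ∀ d, d ≠ c → R' d = R d := by
        intro d hd
        simp [R', hd]
      have hlt : (∑ d, (univ \ R' d).card) < N := by
        rw [← hN]
        apply Finset.sum_lt_sum
        · intro d _
          by_cases hdc : d = c
          · subst hdc
            rw [hR'c]
            apply Finset.card_le_card
            apply Finset.sdiff_subset_sdiff (le_refl _)
            exact Finset.subset_insert _ _
          · rw [hR'd d hdc]
        · refine ⟨c, Finset.mem_univ _, ?_⟩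
          rw [hR'c]
          apply Finset.card_lt_card
          rw [Finset.ssubset_iff_of_subset]
          · exact ⟨hd i, by simp [hi2], by simp⟩
          · apply Finset.sdiff_subset_sdiff (le_refl _)
            exact Finset.subset_insert _ _
      have hcond : ∀ A : Finset V, A.Nonempty → pmiss R' A ≤ din tl hd (J.erase i) A := by
        intro A hA
        have h0 := h A hA
        by_cases hent : hd i ∈ A ∧ tl i ∉ A
        · have e1 : din tl hd (J.erase i) A + 1 = din tl hd J A := by
            unfold din
            rw [Finset.filter_erase, Finset.card_erase_add_one]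
            simp only [Finset.mem_filter]
            exact ⟨hiJ, hent⟩
          by_cases hdis : Disjoint A (R c)
          · have e2 : pmiss R' A + 1 ≤ pmiss R A := by
              unfold pmiss
              have : (univ.filter (fun d => Disjoint A (R' d)))
                  ⊂ (univ.filter (fun d => Disjoint A (R d))) := by
                rw [Finset.ssubset_iff_of_subset]
                · refine ⟨c, ?_, ?_⟩
                  · simp only [Finset.mem_filter, Finset.mem_univ, true_and]
                    exact hdis
                  · simp only [Finset.mem_filter, Finset.mem_univ, true_and]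
                    rw [hR'c]
                    intro hcon
                    exact Finset.disjoint_left.1 hcon hent.1 (Finset.mem_insert_self _ _)
                · intro d hd
                  simp only [Finset.mem_filter, Finset.mem_univ, true_and] at hd ⊢
                  by_cases hdc : d = c
                  · subst hdc
                    exact hdis
                  · rw [hR'd d hdc] at hd
                    exact hd
              exact Finset.card_lt_card this
            omega
          · have e2 := hi3 A hent.1 hent.2 hdis
            have e3 : pmiss R' A ≤ pmiss R A := by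
              unfold pmiss
              apply Finset.card_le_card
              intro d hd'
              simp only [Finset.mem_filter, Finset.mem_univ, true_and] at hd' ⊢
              by_cases hdc : d = c
              · subst hdc
                rw [hR'c] at hd'
                exact absurd (Finset.disjoint_left.1 hd' hent.1)
                  (fun h => h (Finset.mem_insert_self _ _))
              · rw [hR'd d hdc] at hd'
                exact hd'
            omega
        · have e1 : din tl hd (J.erase i) A = din tl hd J A := by
            unfold din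
            rw [Finset.filter_erase, Finset.erase_eq_of_notMem]
            simp only [Finset.mem_filter]
            exact fun hcon => hent hcon.2
          have e3 : pmiss R' A ≤ pmiss R A := by
            unfold pmiss
            apply Finset.card_le_card
            intro d hd'
            simp only [Finset.mem_filter, Finset.mem_univ, true_and] at hd' ⊢
            by_cases hdc : d = c
            · subst hdc
              rw [hR'c] at hd'
              exact hd'.mono_right (Finset.subset_insert _ _)
            · rw [hR'd d hdc] at hd'
              exact hd'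
          omega
      obtain ⟨col, hcol⟩ := ih _ hlt (J.erase i) R' rfl hcond
      refine ⟨fun j => if j = i then c else col j, ?_⟩
      intro d A hA hdis
      by_cases hdc : d = c
      · subst hdc
        by_cases hy : hd i ∈ A
        · refine ⟨i, hiJ, by simp, hy, ?_⟩
          intro hx
          exact Finset.disjoint_left.1 hdis hx hi1
        · have hdis' : Disjoint A (R' d) := by
            rw [hR'c, Finset.disjoint_insert_right]
            exact ⟨hy, hdis⟩
          obtain ⟨j, hj1, hj2, hj3⟩ := hcol d A hA hdis'
          refine ⟨j, Finset.mem_of_mem_erase hj1, ?_, hj3⟩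
          have : j ≠ i := Finset.ne_of_mem_erase hj1
          simp only [this, if_false]
          exact hj2
      · rw [← hR'd d hdc] at hdis
        obtain ⟨j, hj1, hj2, hj3⟩ := hcol d A hA hdis
        refine ⟨j, Finset.mem_of_mem_erase hj1, ?_, hj3⟩
        have : j ≠ i := Finset.ne_of_mem_erase hj1
        simp only [this, if_false]
        exact hj2

/-- **Edmonds' disjoint branchings theorem** with root sets `R c`: if every nonempty set `A` is
entered by at least as many items as there are root sets that miss `A`, then the items can be
coloured so that every nonempty set disjoint from `R c` is entered by an item of colour `c`. -/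
theorem edmonds {V I κ : Type*} [Fintype V] [DecidableEq V] [Fintype I] [Fintype κ]
    [Nonempty κ] (tl hd : I → V) (R : κ → Finset V)
    (h : ∀ A : Finset V, A.Nonempty →
      (univ.filter (fun c => Disjoint A (R c))).card
        ≤ (univ.filter (fun i => hd i ∈ A ∧ tl i ∉ A)).card) :
    ∃ col : I → κ, ∀ (c : κ) (A : Finset V), A.Nonempty → Disjoint A (R c) →
      ∃ i, col i = c ∧ hd i ∈ A ∧ tl i ∉ A := by
  classical
  obtain ⟨col, hcol⟩ := edmonds_aux tl hd _ univ R rfl h
  refine ⟨col, fun c A hA hdis => ?_⟩
  obtain ⟨i, -, hi⟩ := hcol c A hA hdis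
  exact ⟨i, hi⟩

end Edmonds

end GW
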