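import Pool.Agent.GW.Outer

/-!
# Final form of the theorem, as a consequence of Stmt_Step2
-/

namespace GW

open Relation Set

/-- General digraphs (directed cycles allowed): colouring form. -/
theorem general_of_stmtG (h : ∀ k, 1 ≤ k → StmtG k)
    (V A : Type) [Finite V] [Finite A] (src tgt : A → V) (s t : V)
    (hs : ∀ v, ∃ w, ReflTransGen (Arc src tgt) v w ∧ ReflTransGen (Arc src tgt) s w)
    (ht : ∀ v, ∃ w, ReflTransGen (Arc src tgt) w v ∧ ReflTransGen (Arc src tgt) w t)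
    (k : ℕ) (hk : 1 ≤ k) (F : Set A) (hF : KDijoin src tgt F k) :
    ∃ c : A → Fin k, ∀ j, KDijoin src tgt (F ∩ {a | c a = j}) 1 := by
  classical
  let r := Arc src tgt
  let g : GInst V {a // a ∈ F} :=
    { r := r
      s := s
      t := t
      tl := fun i => tgt i.1
      hd := fun i => src i.1
      ss := hs
      tt := ht
      kind := fun i => Or.inl (ReflTransGen.single ⟨i.1, rfl, rfl⟩) }
  have hcl : ∀ Z : Set V, Closed r Z ↔ ∀ a, tgt a ∈ Z → src a ∈ Z := by
    intro Z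
    constructor
    · intro h a ha
      exact h _ _ ⟨a, rfl, rfl⟩ ha
    · rintro h x y ⟨a, rfl, rfl⟩ hy
      exact h a hy
  obtain ⟨c, hc⟩ := h k hk V {a // a ∈ F} g (by
    intro Z hZ hne hu
    have h1 := hF Z ⟨hne, hu, (hcl Z).1 hZ⟩
    have h2 : Subtype.val '' (Ent g.tl g.hd Z) = F ∩ {a | src a ∈ Z ∧ tgt a ∉ Z} := by
      ext a
      constructor
      · rintro ⟨i, hi, rfl⟩
        exact ⟨i.2, hi⟩
      · rintro ⟨ha, hb⟩
        exact ⟨⟨a, ha⟩, hb, rfl⟩
    rw [← h2, Set.ncard_image_of_injective _ Subtype.val_injective] at h1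
    exact h1)
  refine ⟨fun a => if h : a ∈ F then c ⟨a, h⟩ else ⟨0, hk⟩, ?_⟩
  intro j U hU
  obtain ⟨i, h1, h2, h3⟩ := hc U ((hcl U).2 hU.2.2) hU.1 hU.2.1 j
  rw [Nat.one_le_iff_ne_zero, ← Nat.pos_iff_ne_zero, Set.ncard_pos (Set.toFinite _)]
  refine ⟨i.1, ⟨i.2, ?_⟩, h2, h3⟩
  show (if h : i.1 ∈ F then c ⟨i.1, h⟩ else ⟨0, hk⟩) = j
  rw [dif_pos i.2]
  exact h1

/-- in an acyclic digraph a super-source has common successors with all vertices -/
theorem common_succ {V A : Type} [Finite V] (src tgt : A → V)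
    (hac : ∀ v, ¬ TransGen (Arc src tgt) v v) (s : V)
    (hss : ∀ w, (∀ a, src a ≠ w) → ReflTransGen (Arc src tgt) s w) (v : V) :
    ∃ w, ReflTransGen (Arc src tgt) v w ∧ ReflTransGen (Arc src tgt) s w := by
  obtain ⟨w, hw, hyw⟩ := exists_snk (Arc src tgt) v
  refine ⟨w, hyw, hss w ?_⟩
  intro a ha
  have h1 : Arc src tgt w (tgt a) := ⟨a, ha, rfl⟩
  exact hac w (TransGen.head' h1 (hw _ (ReflTransGen.single h1)))

/-- in an acyclic digraph a super-sink has common predecessors with all vertices -/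
theorem common_pred {V A : Type} [Finite V] (src tgt : A → V)
    (hac : ∀ v, ¬ TransGen (Arc src tgt) v v) (t : V)
    (htt : ∀ v, (∀ a, tgt a ≠ v) → ReflTransGen (Arc src tgt) v t) (v : V) :
    ∃ w, ReflTransGen (Arc src tgt) w v ∧ ReflTransGen (Arc src tgt) w t := by
  obtain ⟨w, hw, hyw⟩ := exists_src (Arc src tgt) v
  refine ⟨w, hyw, htt w ?_⟩
  intro a ha
  have h1 : Arc src tgt (src a) w := ⟨a, rfl, ha⟩
  exact hac w (TransGen.tail' (hw _ (ReflTransGen.single h1)) h1)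

/-- from a colouring to a partition -/
theorem partition_of_colouring {A : Type} {k : ℕ} (F : Set A) (c : A → Fin k) :
    (⋃ j, F ∩ {a | c a = j}) = F ∧
      ∀ i j : Fin k, i ≠ j → Disjoint (F ∩ {a | c a = i}) (F ∩ {a | c a = j}) := by
  constructor
  · ext a
    simp
  · intro i j hij
    rw [Set.disjoint_left]
    rintro a ⟨_, h1⟩ ⟨_, h2⟩
    exact hij ((h1 : c a = i).symm.trans h2)

end GW
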