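import Pool.Agent.GW.All
import Pool.Agent.GW.E2

/-!
# MP_27938c_co: `Stmt_Step2`, complete
-/

namespace GW

/-- the inner part: minimal instances with two colours can be coloured -/
theorem Step2_proof : Stmt_Step2 := by
  have hStatic : Stmt_Static := Static_proof CT_proof Node_proof
  exact step2_of (E2_proof Node_proof hStatic N4_proof Bad_proof MUniq_proof DRed_proof)

end GW
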