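import Pool.Agent.GW.Outer

/-!
# MP_27938c_co: the general form for arbitrary finite digraphs (cycles allowed)

`Stmt_General`: `D` is any finite digraph with vertices `s`, `t` such that every vertex has a common
successor with `s` and a common predecessor with `t` (equivalently: `s` reaches every terminal
strong component and `t` is reached from every initial strong component).
-/

namespace GW

open Relation Set

/-- the conclusion for arbitrary finite digraphs in which every vertex has a common successor with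
`s` and a common predecessor with `t` -/
def Stmt_General : Prop :=
  ∀ (V A : Type) [Finite V] [Finite A] (src tgt : A → V) (s t : V),
    (∀ y, ∃ z, ReflTransGen (Arc src tgt) y z ∧ ReflTransGen (Arc src tgt) s z) →
    (∀ x, ∃ z, ReflTransGen (Arc src tgt) z x ∧ ReflTransGen (Arc src tgt) z t) →
      ∀ k : ℕ, 1 ≤ k → ∀ F : Set A, KDijoin src tgt F k →
        ∃ c : A → Fin k, ∀ j, KDijoin src tgt (F ∩ {a | c a = j}) 1

theorem general_of_stmtG (h : ∀ k, 1 ≤ k → StmtG k) : Stmt_General := by
  classical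
  intro V A _ _ src tgt s t hss htt k hk F hF
  let r := Arc src tgt
  let g : GInst V {a // a ∈ F} :=
    { r := r
      s := s
      t := t
      tl := fun i => tgt i.1
      hd := fun i => src i.1
      ss := hss
      tt := htt
      kind := fun i => Or.inl (ReflTransGen.single ⟨i.1, rfl, rfl⟩) }
  have hcl : ∀ Z : Set V, Closed r Z ↔ ∀ a, tgt a ∈ Z → src a ∈ Z := by
    intro Z
    constructor
    · intro h a ha
      exact h _ _ ⟨a, rfl, rfl⟩ ha
    · rintro h x y ⟨a, rfl, rfl⟩ hy
      exact h a hy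
  obtain ⟨c, hc⟩ := h k hk V {a // a ∈ F} g (by
    intro Z hZ hne hu
    have h1 := hF Z ⟨hne, hu, (hcl Z).1 hZ⟩
    have h2 : Subtype.val '' (Ent g.tl g.hd Z) = F ∩ {a | src a ∈ Z ∧ tgt a ∉ Z} := by
      ext a
      constructor
      · rintro ⟨i, hi, rfl⟩
        exact ⟨i.2, hi⟩
      · rintro ⟨ha, hb⟩
        exact ⟨⟨a, ha⟩, hb, rfl⟩
    rw [← h2, Set.ncard_image_of_injective _ Subtype.val_injective] at h1
    exact h1)
  refine ⟨fun a => if h : a ∈ F then c ⟨a, h⟩ else ⟨0, hk⟩, ?_⟩
  intro j U hU
  obtain ⟨i, h1, h2, h3⟩ := hc U ((hcl U).2 hU.2.2) hU.1 hU.2.1 j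
  rw [Nat.one_le_iff_ne_zero, ← Nat.pos_iff_ne_zero, Set.ncard_pos (Set.toFinite _)]
  refine ⟨i.1, ⟨i.2, ?_⟩, h2, h3⟩
  show (if h : i.1 ∈ F then c ⟨i.1, h⟩ else ⟨0, hk⟩) = j
  rw [dif_pos i.2]
  exact h1

theorem general_step (h : Stmt_Step2) : Stmt_General :=
  general_of_stmtG fun _ hk => stmtG_all (stmtG_two h) hk

/-- the two final forms from the inner part -/
theorem final_step (h : Stmt_Step2) : Stmt_Problem ∧ Stmt_General :=
  ⟨outer_step h, general_step h⟩

end GW
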