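import Pool.Agent.GW.Stmts

/-!
# Gluing two colourings along a set which is tight after adding virtual items
-/

namespace GW

open Relation Set

/-- contraction: the hop relation `r` with all elements of `Z` made equivalent -/
def Contr {V : Type} (r : V → V → Prop) (Z : Set V) (x y : V) : Prop :=
  r x y ∨ (x ∈ Z ∧ y ∈ Z)

theorem closed_contr {V : Type} {r : V → V → Prop} {Z W : Set V} :
    Closed (Contr r Z) W ↔ Closed r W ∧ ((W ∩ Z).Nonempty → Z ⊆ W) := by
  constructor
  · intro h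
    refine ⟨fun x y hxy hy => h x y (Or.inl hxy) hy, ?_⟩
    rintro ⟨y, hyW, hyZ⟩ x hx
    exact h x y (Or.inr ⟨hx, hyZ⟩) hyW
  · rintro ⟨h1, h2⟩ x y hxy hy
    rcases hxy with hxy | ⟨hx, hyZ⟩
    · exact h1 x y hxy hy
    · exact h2 ⟨y, hy, hyZ⟩ hx

theorem closed_interG {V : Type} {r : V → V → Prop} {Z W : Set V} (hZ : Closed r Z)
    (hW : Closed r W) : Closed r (W ∩ Z) :=
  fun x y h hy => ⟨hW x y h hy.1, hZ x y h hy.2⟩

theorem closed_unionG {V : Type} {r : V → V → Prop} {Z W : Set V} (hZ : Closed r Z)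
    (hW : Closed r W) : Closed r (W ∪ Z) := by
  intro x y h hy
  rcases hy with hy | hy
  · exact Or.inl (hW x y h hy)
  · exact Or.inr (hZ x y h hy)

/-- Two surjections from a `k`-element set onto `Fin k` differ by a permutation. -/
theorem exists_perm {α : Type} {k : ℕ} (E : Set α) (hE : E.ncard = k) (hfin : E.Finite)
    (f g : α → Fin k) (hf : ∀ j, ∃ x ∈ E, f x = j) (hg : ∀ j, ∃ x ∈ E, g x = j) :
    InjOn f E ∧ ∃ p : Equiv.Perm (Fin k), ∀ x ∈ E, p (g x) = f x := by
  classical
  haveI : Fintype E := hfin.fintype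
  have hcard : Fintype.card E = Fintype.card (Fin k) := by
    rw [Fintype.card_fin, ← hE, Set.ncard_eq_toFinset_card', Set.toFinset_card]
  let F : E → Fin k := fun x => f x
  let G : E → Fin k := fun x => g x
  have hF : Function.Bijective F := by
    rw [Fintype.bijective_iff_surjective_and_card]
    refine ⟨fun j => ?_, hcard⟩
    obtain ⟨x, hx, h⟩ := hf j
    exact ⟨⟨x, hx⟩, h⟩
  have hG : Function.Bijective G := by
    rw [Fintype.bijective_iff_surjective_and_card]
    refine ⟨fun j => ?_, hcard⟩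
    obtain ⟨x, hx, h⟩ := hg j
    exact ⟨⟨x, hx⟩, h⟩
  refine ⟨?_, (Equiv.ofBijective G hG).symm.trans (Equiv.ofBijective F hF), ?_⟩
  · intro x hx y hy hxy
    have := hF.1 (a₁ := ⟨x, hx⟩) (a₂ := ⟨y, hy⟩) hxy
    exact congrArg Subtype.val this
  · intro x hx
    have h1 : (Equiv.ofBijective G hG).symm (g x) = ⟨x, hx⟩ := by
      rw [Equiv.symm_apply_eq]; rfl
    simp only [Equiv.trans_apply, h1]
    rfl

/-- **Gluing lemma** (with virtual items `J`; `J` empty is the usual contraction of a tight set;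
`J` nonempty is used in Lemma E). -/
theorem glue {V I J : Type} [Finite I] [Finite J] {k : ℕ}
    (r r0 : V → V → Prop) (hr0 : ∀ x y, r0 x y → r x y) (tl hd : I → V)
    (Z : Set V) (hZ : Closed r0 Z) (hZne : Z.Nonempty) (hZu : Z ≠ Set.univ)
    (s t u w : V)
    (hJ : ∀ _ : J, s ∈ Z ∧ u ∉ Z ∧ w ∈ Z ∧ t ∉ Z ∧ ∀ W, Closed r W → w ∈ W → u ∈ W)
    (hcard : (Ent tl hd Z).ncard + Nat.card J = k)
    (hleave : ∀ i, tl i ∈ Z → hd i ∉ Z →
      (∀ W, Closed r W → W ∪ Z = Set.univ → hd i ∈ W → tl i ∈ W) ∨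
      (∀ W, Closed r W → W ∩ Z = ∅ → hd i ∈ W → tl i ∈ W))
    (c1 : I ⊕ J → Fin k)
    (h1 : Good (Contr r0 Z) (Sum.elim tl (fun _ => u)) (Sum.elim hd (fun _ => s)) c1)
    (c2 : I ⊕ J → Fin k)
    (h2 : Good (Contr r0 Zᶜ) (Sum.elim tl (fun _ => t)) (Sum.elim hd (fun _ => w)) c2) :
    ∃ c : I → Fin k, Good r tl hd c := by
  classical
  -- the entering items
  set E : Set (I ⊕ J) := Sum.inl '' (Ent tl hd Z) ∪ Set.range Sum.inr with hEdef
  have hEfin : E.Finite := Set.toFinite _
  have hEcard : E.ncard = k := by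
    rw [hEdef, Set.ncard_union_eq, Set.ncard_image_of_injective _ Sum.inl_injective,
      ← hcard]
    · congr 1
      rw [← Set.image_univ, Set.ncard_image_of_injective _ Sum.inr_injective, Set.ncard_univ]
    · rw [Set.disjoint_left]
      rintro x ⟨i, _, rfl⟩ ⟨j, hj⟩
      cases hj
  have hZ1 : Closed (Contr r0 Z) Z := closed_contr.2 ⟨hZ, fun _ => Subset.rfl⟩
  have hZ2 : Closed (Contr r0 Zᶜ) Z := by
    refine closed_contr.2 ⟨hZ, ?_⟩
    rintro ⟨x, hx1, hx2⟩
    exact absurd hx1 hx2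
  have memE : ∀ i, Sum.inl i ∈ E ↔ (hd i ∈ Z ∧ tl i ∉ Z) := by
    intro i
    constructor
    · rintro (⟨i', hi', h⟩ | ⟨j, hj⟩)
      · cases h; exact hi'
      · cases hj
    · intro h
      exact Or.inl ⟨i, h, rfl⟩
  have memE' : ∀ j, Sum.inr j ∈ E := fun j => Or.inr ⟨j, rfl⟩
  have hsurj1 : ∀ j, ∃ x ∈ E, c1 x = j := by
    intro j
    obtain ⟨x, hx, hx1, hx2⟩ := h1 Z hZ1 hZne hZu j
    refine ⟨x, ?_, hx⟩
    rcases x with i | q
    · exact (memE i).2 ⟨hx1, hx2⟩
    · exact memE' q
  have hsurj2 : ∀ j, ∃ x ∈ E, c2 x = j := by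
    intro j
    obtain ⟨x, hx, hx1, hx2⟩ := h2 Z hZ2 hZne hZu j
    refine ⟨x, ?_, hx⟩
    rcases x with i | q
    · exact (memE i).2 ⟨hx1, hx2⟩
    · exact memE' q
  obtain ⟨hinj, p, hp⟩ := exists_perm E hEcard hEfin c1 c2 hsurj1 hsurj2
  -- permuted second colouring
  have h2' : ∀ W, Closed (Contr r0 Zᶜ) W → W.Nonempty → W ≠ Set.univ → ∀ j : Fin k,
      ∃ x, p (c2 x) = j ∧ Sum.elim hd (fun _ => w) x ∈ W ∧ Sum.elim tl (fun _ => t) x ∉ W := by
    intro W hW hne hu j
    obtain ⟨x, hx, hx1, hx2⟩ := h2 W hW hne hu (p.symm j)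
    exact ⟨x, by rw [hx]; simp, hx1, hx2⟩
  let XL : I → Prop := fun i => ∀ W, Closed r W → W ∪ Z = Set.univ → hd i ∈ W → tl i ∈ W
  let c : I → Fin k := fun i =>
    if hd i ∈ Z then p (c2 (Sum.inl i)) else if tl i ∉ Z then c1 (Sum.inl i)
    else if XL i then c1 (Sum.inl i) else p (c2 (Sum.inl i))
  have cZ : ∀ i, hd i ∈ Z → c i = p (c2 (Sum.inl i)) := fun i h => by simp only [c, if_pos h]
  have cO : ∀ i, hd i ∉ Z → tl i ∉ Z → c i = c1 (Sum.inl i) := fun i h h' => by
    simp only [c, if_neg h, if_pos h']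
  have cX : ∀ i, hd i ∉ Z → tl i ∈ Z → XL i → c i = c1 (Sum.inl i) := fun i h h' hx => by
    simp only [c, if_neg h, if_neg (not_not.2 h'), if_pos hx]
  have cY : ∀ i, hd i ∉ Z → tl i ∈ Z → ¬ XL i → c i = p (c2 (Sum.inl i)) := fun i h h' hx => by
    simp only [c, if_neg h, if_neg (not_not.2 h'), if_neg hx]
  refine ⟨c, ?_⟩
  intro W hW hWne hWu j
  have hW0 : Closed r0 W := fun x y hxy hy => hW x y (hr0 x y hxy) hy
  by_cases hWZ : (W ∩ Z).Nonempty
  · by_cases hU : W ∪ Z = Set.univ
    · -- case 2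
      have hW2 : Closed (Contr r0 Zᶜ) W := by
        refine closed_contr.2 ⟨hW0, fun _ x hx => ?_⟩
        have : x ∈ W ∪ Z := hU ▸ Set.mem_univ x
        rcases this with h | h
        · exact h
        · exact absurd h hx
      obtain ⟨x, hx, hx1, hx2⟩ := h2' W hW2 hWne hWu j
      rcases x with i | q
      · simp only [Sum.elim_inl] at hx1 hx2
        have htlZ : tl i ∈ Z := by
          have : tl i ∈ W ∪ Z := hU ▸ Set.mem_univ _
          rcases this with h | h
          · exact absurd h hx2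
          · exact h
        refine ⟨i, ?_, hx1, hx2⟩
        by_cases hhd : hd i ∈ Z
        · rw [cZ i hhd]; exact hx
        · by_cases hxl : XL i
          · exact absurd (hxl W hW hU hx1) hx2
          · rw [cY i hhd htlZ hxl]; exact hx
      · exfalso
        simp only [Sum.elim_inr] at hx2
        have : t ∈ W ∪ Z := hU ▸ Set.mem_univ _
        rcases this with h | h
        · exact hx2 h
        · exact (hJ q).2.2.2.1 h
    · -- case 3
      have hA : Closed (Contr r0 Zᶜ) (W ∩ Z) := by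
        refine closed_contr.2 ⟨closed_interG hZ hW0, ?_⟩
        rintro ⟨x, hx1, hx2⟩
        exact absurd hx1.2 hx2
      have hAu : W ∩ Z ≠ Set.univ := by
        intro h
        apply hZu
        exact Set.eq_univ_of_univ_subset (h ▸ Set.inter_subset_right)
      have hBc : Closed (Contr r0 Z) (W ∪ Z) :=
        closed_contr.2 ⟨closed_unionG hZ hW0, fun _ => Set.subset_union_right⟩
      have hBne : (W ∪ Z).Nonempty := hWne.mono Set.subset_union_left
      obtain ⟨x2, hx2, hx2a, hx2b⟩ := h2' (W ∩ Z) hA hWZ hAu j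
      obtain ⟨x1, hx1, hx1a, hx1b⟩ := h1 (W ∪ Z) hBc hBne hU j
      by_contra hcon
      push Not at hcon
      -- x2 in E
      have e2 : x2 ∈ E ∧ (∀ i, x2 = Sum.inl i → hd i ∈ W) := by
        rcases x2 with i | q
        · simp only [Sum.elim_inl] at hx2a hx2b
          have hci : c i = j := by rw [cZ i hx2a.2]; exact hx2
          have htlW : tl i ∈ W := hcon i hci hx2a.1
          refine ⟨(memE i).2 ⟨hx2a.2, fun h => hx2b ⟨htlW, h⟩⟩, ?_⟩
          intro i' hi'
          cases hi'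
          exact hx2a.1
        · exact ⟨memE' q, fun i hi => by cases hi⟩
      have e1 : x1 ∈ E ∧ (∀ i, x1 = Sum.inl i → hd i ∉ W) := by
        rcases x1 with i | q
        · simp only [Sum.elim_inl] at hx1a hx1b
          have htlW : tl i ∉ W := fun h => hx1b (Or.inl h)
          have htlZ : tl i ∉ Z := fun h => hx1b (Or.inr h)
          by_cases hhd : hd i ∈ Z
          · have hE : Sum.inl i ∈ E := (memE i).2 ⟨hhd, htlZ⟩
            have hci : c i = j := by rw [cZ i hhd, hp _ hE]; exact hx1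
            refine ⟨hE, ?_⟩
            intro i' hi'
            cases hi'
            exact fun h => htlW (hcon i hci h)
          · have hhW : hd i ∈ W := by
              rcases hx1a with h | h
              · exact h
              · exact absurd h hhd
            have hci : c i = j := by rw [cO i hhd htlZ]; exact hx1
            exact absurd (hcon i hci hhW) htlW
        · exact ⟨memE' q, fun i hi => by cases hi⟩
      have heq : x1 = x2 := by
        apply hinj e1.1 e2.1
        rw [hx1, ← hp x2 e2.1, hx2]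
      subst heq
      rcases x1 with i | q
      · exact e1.2 i rfl (e2.2 i rfl)
      · simp only [Sum.elim_inr] at hx1b hx2a
        have huW : u ∈ W := (hJ q).2.2.2.2 W hW hx2a.1
        exact hx1b (Or.inl huW)
  · -- case 1
    have hWZ' : W ∩ Z = ∅ := Set.not_nonempty_iff_eq_empty.1 hWZ
    have hW1 : Closed (Contr r0 Z) W := closed_contr.2 ⟨hW0, fun h => absurd h hWZ⟩
    obtain ⟨x, hx, hx1, hx2⟩ := h1 W hW1 hWne hWu j
    rcases x with i | q
    · simp only [Sum.elim_inl] at hx1 hx2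
      have hhd : hd i ∉ Z := fun h => hWZ ⟨_, hx1, h⟩
      refine ⟨i, ?_, hx1, hx2⟩
      by_cases htl : tl i ∈ Z
      · by_cases hxl : XL i
        · rw [cX i hhd htl hxl]; exact hx
        · rcases hleave i htl hhd with h | h
          · exact absurd h hxl
          · exact absurd (h W hW hWZ' hx1) hx2
      · rw [cO i hhd htl]; exact hx
    · exfalso
      simp only [Sum.elim_inr] at hx1
      exact hWZ ⟨_, hx1, (hJ q).1⟩

end GW
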