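import Pool.Agent.GW.Stmts

/-!
# MP_27938c_co: the bridging lemma for reductions

A *reduced instance* inside fixed ambient types `S, T, I`: only the vertices in `kS`, `kT` are
kept; the item type is unchanged (deleted items are made loops, for example at `s`).
If there are fewer than `n` kept vertices, `Col k n` colours it.
-/

namespace GW

/-- an instance whose vertices are the kept parts `kS ⊆ S`, `kT ⊆ T` -/
structure RInst (S T I : Type) where
  kS : Set S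
  kT : Set T
  s : S
  t : T
  hs : s ∈ kS
  ht : t ∈ kT
  B : S → T → Prop
  Bs : ∀ w ∈ kT, B s w
  Bt : ∀ u ∈ kS, B u t
  tl : I → S ⊕ T
  hd : I → S ⊕ T
  kind : ∀ i, (∃ u w, u ∈ kS ∧ w ∈ kT ∧ B u w ∧ tl i = Sum.inr w ∧ hd i = Sum.inl u) ∨
    (∃ u v, u ∈ kS ∧ v ∈ kS ∧ tl i = Sum.inl v ∧ hd i = Sum.inl u) ∨
    (∃ w w', w ∈ kT ∧ w' ∈ kT ∧ tl i = Sum.inr w ∧ hd i = Sum.inr w')

variable {S T I : Type}

/-- the kept vertices -/
def RInst.kept (g : RInst S T I) : Set (S ⊕ T) :=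
  {x | (∃ u ∈ g.kS, x = Sum.inl u) ∨ (∃ w ∈ g.kT, x = Sum.inr w)}

@[simp] lemma RInst.inl_mem_kept (g : RInst S T I) (u : S) :
    (Sum.inl u : S ⊕ T) ∈ g.kept ↔ u ∈ g.kS := by
  simp [RInst.kept]

@[simp] lemma RInst.inr_mem_kept (g : RInst S T I) (w : T) :
    (Sum.inr w : S ⊕ T) ∈ g.kept ↔ w ∈ g.kT := by
  simp [RInst.kept]

/-- closed sets of the kept part -/
def RInst.KC (g : RInst S T I) (U : Set (S ⊕ T)) : Prop :=
  U ⊆ g.kept ∧ ∀ u w, u ∈ g.kS → g.B u w → Sum.inr w ∈ U → Sum.inl u ∈ U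

def RInst.Valid (g : RInst S T I) (k : ℕ) : Prop :=
  ∀ U : Set (S ⊕ T), g.KC U → U.Nonempty → U ≠ g.kept → k ≤ (Ent g.tl g.hd U).ncard

def RInst.Good (g : RInst S T I) {k : ℕ} (c : I → Fin k) : Prop :=
  ∀ U : Set (S ⊕ T), g.KC U → U.Nonempty → U ≠ g.kept →
    ∀ j : Fin k, ∃ i, c i = j ∧ g.hd i ∈ U ∧ g.tl i ∉ U

private lemma RInst.tl_mem (g : RInst S T I) (i : I) :
    ∃ x : ↥g.kS ⊕ ↥g.kT, Sum.map Subtype.val Subtype.val x = g.tl i := by
  rcases g.kind i with ⟨u, w, hu, hw, _, h1, h2⟩ | ⟨u, v, hu, hv, h1, h2⟩ |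
    ⟨w, w', hw, hw', h1, h2⟩
  · exact ⟨Sum.inr ⟨w, hw⟩, by simp [h1]⟩
  · exact ⟨Sum.inl ⟨v, hv⟩, by simp [h1]⟩
  · exact ⟨Sum.inr ⟨w, hw⟩, by simp [h1]⟩

private lemma RInst.hd_mem (g : RInst S T I) (i : I) :
    ∃ x : ↥g.kS ⊕ ↥g.kT, Sum.map Subtype.val Subtype.val x = g.hd i := by
  rcases g.kind i with ⟨u, w, hu, hw, _, h1, h2⟩ | ⟨u, v, hu, hv, h1, h2⟩ |
    ⟨w, w', hw, hw', h1, h2⟩
  · exact ⟨Sum.inl ⟨u, hu⟩, by simp [h2]⟩
  · exact ⟨Sum.inl ⟨u, hu⟩, by simp [h2]⟩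
  · exact ⟨Sum.inr ⟨w', hw'⟩, by simp [h2]⟩

/-- **Bridging lemma**: a valid reduced instance with fewer than `n` kept vertices is colourable. -/
theorem RInst.colour [Finite S] [Finite T] [Finite I] (g : RInst S T I) {k n : ℕ}
    (hcol : Col k n) (hn : Nat.card ↥g.kS + Nat.card ↥g.kT < n) (hv : g.Valid k) :
    ∃ c : I → Fin k, g.Good c := by
  classical
  choose tl' htl' using g.tl_mem
  choose hd' hhd' using g.hd_mem
  let emb : ↥g.kS ⊕ ↥g.kT → S ⊕ T := Sum.map Subtype.val Subtype.val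
  have hemb : Function.Injective emb :=
    Sum.map_injective.mpr ⟨Subtype.val_injective, Subtype.val_injective⟩
  have hrange : ∀ x, x ∈ g.kept ↔ ∃ y, emb y = x := by
    rintro (u | w)
    · constructor
      · intro h
        exact ⟨Sum.inl ⟨u, by simpa using h⟩, rfl⟩
      · rintro ⟨(y | y), hy⟩
        · simp only [emb, Sum.map_inl, Sum.inl.injEq] at hy
          subst hy
          simp
        · simp [emb] at hy
    · constructor
      · intro h
        exact ⟨Sum.inr ⟨w, by simpa using h⟩, rfl⟩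
      · rintro ⟨(y | y), hy⟩
        · simp [emb] at hy
        · simp only [emb, Sum.map_inr, Sum.inr.injEq] at hy
          subst hy
          simp
  let h : ST ↥g.kS ↥g.kT I :=
    { s := ⟨g.s, g.hs⟩
      t := ⟨g.t, g.ht⟩
      B := fun u w => g.B u w
      Bs := fun w => g.Bs w w.2
      Bt := fun u => g.Bt u u.2
      tl := tl'
      hd := hd'
      kind := by
        intro i
        rcases g.kind i with ⟨u, w, hu, hw, hB, h1, h2⟩ | ⟨u, v, hu, hv, h1, h2⟩ |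
          ⟨w, w', hw, hw', h1, h2⟩
        · left
          refine ⟨⟨u, hu⟩, ⟨w, hw⟩, hB, ?_, ?_⟩
          · apply hemb; simp only [emb]; rw [htl', h1]; rfl
          · apply hemb; simp only [emb]; rw [hhd', h2]; rfl
        · right; left
          refine ⟨⟨u, hu⟩, ⟨v, hv⟩, ?_, ?_⟩
          · apply hemb; simp only [emb]; rw [htl', h1]; rfl
          · apply hemb; simp only [emb]; rw [hhd', h2]; rfl
        · right; right
          refine ⟨⟨w, hw⟩, ⟨w', hw'⟩, ?_, ?_⟩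
          · apply hemb; simp only [emb]; rw [htl', h1]; rfl
          · apply hemb; simp only [emb]; rw [hhd', h2]; rfl }
  -- closed sets correspond
  have hent : ∀ Z : Set (↥g.kS ⊕ ↥g.kT), Ent tl' hd' Z = Ent g.tl g.hd (emb '' Z) := by
    intro Z
    ext i
    simp only [Ent, Set.mem_ofPred_eq]
    rw [← htl', ← hhd']
    change _ ↔ emb (hd' i) ∈ emb '' Z ∧ emb (tl' i) ∉ emb '' Z
    rw [hemb.mem_set_image, hemb.mem_set_image]
  have hKC : ∀ Z : Set (↥g.kS ⊕ ↥g.kT), Closed h.r Z → g.KC (emb '' Z) := by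
    intro Z hZ
    refine ⟨?_, ?_⟩
    · rintro _ ⟨y, _, rfl⟩
      exact (hrange _).mpr ⟨y, rfl⟩
    · intro u w hu hB hw
      obtain ⟨y, hy, hyw⟩ := hw
      rcases y with (y | y)
      · simp [emb] at hyw
      · simp only [emb, Sum.map_inr, Sum.inr.injEq] at hyw
        subst hyw
        exact ⟨Sum.inl ⟨u, hu⟩, hZ _ _ ⟨⟨u, hu⟩, y, rfl, rfl, hB⟩ hy, rfl⟩
  have hne : ∀ Z : Set (↥g.kS ⊕ ↥g.kT), Z ≠ Set.univ → emb '' Z ≠ g.kept := by
    intro Z hZ he
    apply hZ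
    ext y
    simp only [Set.mem_univ, iff_true]
    have : emb y ∈ emb '' Z := by rw [he]; exact (hrange _).mpr ⟨y, rfl⟩
    exact hemb.mem_set_image.mp this
  obtain ⟨c, hc⟩ := hcol ↥g.kS ↥g.kT I h hn (by
    intro Z hZ hZn hZu
    change k ≤ (Ent tl' hd' Z).ncard
    rw [hent]
    exact hv _ (hKC Z hZ) (hZn.image _) (hne Z hZu))
  refine ⟨c, ?_⟩
  intro U hU hUn hUk j
  -- pull back
  let Z : Set (↥g.kS ⊕ ↥g.kT) := emb ⁻¹' U
  have himg : emb '' Z = U := by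
    apply Set.image_preimage_eq_of_subset
    intro x hx
    obtain ⟨y, hy⟩ := (hrange x).mp (hU.1 hx)
    exact ⟨y, hy⟩
  have hZc : Closed h.r Z := by
    rintro x y ⟨u, w, rfl, rfl, hB⟩ hy
    exact hU.2 u w u.2 hB hy
  have hZn : Z.Nonempty := by
    by_contra hcon
    rw [Set.not_nonempty_iff_eq_empty] at hcon
    rw [hcon, Set.image_empty] at himg
    exact hUn.ne_empty himg.symm
  have hZu : Z ≠ Set.univ := by
    intro hcon
    apply hUk
    rw [← himg, hcon]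
    ext x
    rw [hrange]
    simp
  obtain ⟨i, hi, h1, h2⟩ := hc Z hZc hZn hZu j
  refine ⟨i, hi, ?_, ?_⟩
  · rw [← hhd']; exact h1
  · rw [← htl']; exact h2

end GW
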