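import Mathlib

/-!
# The abstract walk lemma

`N` : nodes, `J` : indices.  A state is a function `J → Bool`.  A node `n` is defective in a
state `st` if `st` is constantly `sg n` on the ports `mem n`.  Nodes with the same sign are
disjoint.  A walk flips one port of the defective node in every step.
-/

namespace GW

open Classical in
/-- flip the value of one index -/
noncomputable def flip {J : Type*} (st : J → Bool) (i : J) : J → Bool :=
  fun j => if j = i then !st i else st j

section Walk

variable {J N : Type*}

theorem flip_same (st : J → Bool) (i : J) : flip st i i = !st i := by simp [flip]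

theorem flip_of_ne (st : J → Bool) {i j : J} (h : j ≠ i) : flip st i j = st j := by
  simp [flip, h]

theorem flip_flip (st : J → Bool) (i : J) : flip (flip st i) i = st := by
  funext j
  by_cases h : j = i
  · subst h
    simp [flip]
  · rw [flip_of_ne _ h, flip_of_ne _ h]

/-- the data of the walk -/
structure WalkSys (J N : Type*) where
  mem : N → Set J
  sg : N → Bool
  Legal : (J → Bool) → Prop
  hdisj : ∀ a b, sg a = sg b → a ≠ b → Disjoint (mem a) (mem b)

namespace WalkSys

variable (W : WalkSys J N)

/-- legal, and `n` is the only defective node -/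
def Near (st : J → Bool) (n : N) : Prop :=
  W.Legal st ∧ (∀ i ∈ W.mem n, st i = W.sg n) ∧ ∀ m, m ≠ n → ∃ i ∈ W.mem m, st i ≠ W.sg m

/-- legal, and no node is defective -/
def Good (st : J → Bool) : Prop :=
  W.Legal st ∧ ∀ m, ∃ i ∈ W.mem m, st i ≠ W.sg m

/-- a legal port -/
def Port (st : J → Bool) (n : N) (i : J) : Prop := i ∈ W.mem n ∧ W.Legal (flip st i)

variable {W}

theorem eq_of_mem {a b : N} {i : J} (ha : i ∈ W.mem a) (hb : i ∈ W.mem b)
    (h : W.sg a = W.sg b) : a = b := by
  by_contra hne
  exact Set.disjoint_left.1 (W.hdisj a b h hne) ha hb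

theorem step {st : J → Bool} {n : N} {i : J} (hn : W.Near st n) (hp : W.Port st n i)
    (hg : ¬ W.Good (flip st i)) :
    ∃ m, m ≠ n ∧ i ∈ W.mem m ∧ W.Near (flip st i) m := by
  have key : ∀ m, (∀ j ∈ W.mem m, flip st i j = W.sg m) → m ≠ n ∧ i ∈ W.mem m := by
    intro m hm
    have h1 : m ≠ n := by
      rintro rfl
      have e1 := hm i hp.1
      rw [flip_same, hn.2.1 i hp.1] at e1
      cases hs : W.sg m <;> rw [hs] at e1 <;> simp at e1
    refine ⟨h1, ?_⟩
    by_contra hi
    obtain ⟨j, hj, hj'⟩ := hn.2.2 m h1
    apply hj'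
    have hji : j ≠ i := by
      rintro rfl
      exact hi hj
    rw [← flip_of_ne st hji]
    exact hm j hj
  have hex : ∃ m, ∀ j ∈ W.mem m, flip st i j = W.sg m := by
    by_contra hcon
    push Not at hcon
    exact hg ⟨hp.2, hcon⟩
  obtain ⟨m, hm⟩ := hex
  obtain ⟨h1, h2⟩ := key m hm
  refine ⟨m, h1, h2, hp.2, hm, ?_⟩
  intro m' hm'
  by_contra hcon
  push Not at hcon
  obtain ⟨-, h3⟩ := key m' hcon
  apply hm'
  apply eq_of_mem h3 h2
  rw [← hcon i h3, ← hm i h2]

/-- non-backtracking walks -/
structure Walk (W : WalkSys J N) (r : ℕ) (n : ℕ → N) (e : ℕ → J) (st : ℕ → J → Bool) :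
    Prop where
  near : ∀ j, j ≤ r → W.Near (st j) (n j)
  e1 : ∀ j, j < r → e j ∈ W.mem (n j)
  e2 : ∀ j, j < r → e j ∈ W.mem (n (j + 1))
  ne : ∀ j, j < r → n j ≠ n (j + 1)
  fl : ∀ j, j < r → st (j + 1) = flip (st j) (e j)
  nb : ∀ j, j + 1 < r → e (j + 1) ≠ e j

variable {r s : ℕ} {n m : ℕ → N} {e f : ℕ → J} {st su : ℕ → J → Bool}

theorem Walk.sg_ne (h : W.Walk r n e st) {j : ℕ} (hj : j < r) :
    W.sg (n (j + 1)) ≠ W.sg (n j) := by
  intro hs
  exact h.ne j hj (eq_of_mem (h.e1 j hj) (h.e2 j hj) hs.symm)

theorem bool_cases {a b c : Bool} (h : b ≠ a) : c = a ∨ c = b := by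
  cases a <;> cases b <;> cases c <;> simp_all

/-- a node containing the flipped index is one of its two nodes -/
theorem Walk.node_of_mem (h : W.Walk r n e st) {j : ℕ} (hj : j < r) {a : N}
    (ha : e j ∈ W.mem a) : a = n j ∨ a = n (j + 1) := by
  rcases bool_cases (c := W.sg a) (h.sg_ne hj) with hs | hs
  · exact Or.inl (eq_of_mem ha (h.e1 j hj) hs)
  · exact Or.inr (eq_of_mem ha (h.e2 j hj) hs)

theorem Walk.const (h : W.Walk r n e st) {a : ℕ} {i : J} :
    ∀ b, a ≤ b → b ≤ r → (∀ l, a ≤ l → l < b → e l ≠ i) → st b i = st a i := by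
  intro b hab
  induction b, hab using Nat.le_induction with
  | base => intro _ _; rfl
  | succ b hb ih =>
    intro hbr hl
    rw [h.fl b (by omega), flip_of_ne _ (fun hh => hl b hb (by omega) hh.symm)]
    exact ih (by omega) (fun l h1 h2 => hl l h1 (by omega))

theorem Walk.distinct_aux (h : W.Walk r n e st) :
    ∀ d a, 0 < d → a + d ≤ r → n a ≠ n (a + d) := by
  intro d
  induction d using Nat.strong_induction_on with
  | _ d ih =>
    intro a hd har heq
    by_cases hd1 : d = 1
    · subst hd1
      exact h.ne a (by omega) heq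
    have hd2 : 2 ≤ d := by omega
    -- the index e a must be flipped again
    have h1 : st (a + 1) (e a) = !W.sg (n a) := by
      rw [h.fl a (by omega), flip_same, (h.near a (by omega)).2.1 _ (h.e1 a (by omega))]
    have h2 : st (a + d) (e a) = W.sg (n a) := by
      rw [heq]
      apply (h.near (a + d) har).2.1
      rw [← heq]
      exact h.e1 a (by omega)
    have h3 : ∃ l, a + 1 ≤ l ∧ l < a + d ∧ e l = e a := by
      by_contra hcon
      push Not at hcon
      have := h.const (a := a + 1) (i := e a) (a + d) (by omega) har hcon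
      rw [h1, h2] at this
      cases hs : W.sg (n a) <;> rw [hs] at this <;> simp at this
    obtain ⟨l, hl1, hl2, hl3⟩ := h3
    have h4 : e a ∈ W.mem (n l) := by
      rw [← hl3]
      exact h.e1 l (by omega)
    rcases h.node_of_mem (by omega : a < r) h4 with h5 | h5
    · have := ih (l - a) (by omega) a (by omega) (by omega)
      rw [show a + (l - a) = l by omega] at this
      exact this h5.symm
    · by_cases hla : l = a + 1
      · subst hla
        exact h.nb a (by omega) hl3
      · have := ih (l - (a + 1)) (by omega) (a + 1) (by omega) (by omega)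
        rw [show a + 1 + (l - (a + 1)) = l by omega] at this
        exact this h5.symm

theorem Walk.distinct (h : W.Walk r n e st) {a b : ℕ} (hab : a < b) (hb : b ≤ r) :
    n a ≠ n b := by
  have := h.distinct_aux (b - a) a (by omega) (by omega)
  rwa [show a + (b - a) = b by omega] at this

theorem Walk.eq_of_node (h : W.Walk r n e st) {a b : ℕ} (ha : a ≤ r) (hb : b ≤ r)
    (hab : n a = n b) : a = b := by
  rcases lt_trichotomy a b with hlt | heq | hgt
  · exact absurd hab (h.distinct hlt hb)
  · exact heq
  · exact absurd hab.symm (h.distinct hgt ha)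

/-- every index is flipped at most once -/
theorem Walk.index_distinct (h : W.Walk r n e st) {a b : ℕ} (hab : a < b) (hb : b < r) :
    e a ≠ e b := by
  intro heq
  have h1 : e a ∈ W.mem (n b) := by
    rw [heq]
    exact h.e1 b hb
  rcases h.node_of_mem (by omega : a < r) h1 with h5 | h5
  · exact h.distinct hab (by omega) h5.symm
  · have := h.eq_of_node (by omega) (by omega) h5
    subst this
    exact h.nb a (by omega) heq.symm

/-- an index of the first node is flipped only in the first step -/
theorem Walk.first_only (h : W.Walk r n e st) {j : ℕ} (hj : j < r)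
    (hm : e j ∈ W.mem (n 0)) : j = 0 := by
  rcases h.node_of_mem hj hm with h1 | h1
  · exact (h.eq_of_node (by omega) (by omega) h1).symm
  · have := h.eq_of_node (by omega) (by omega) h1
    omega

/-- an index of the last node is flipped only in the last step -/
theorem Walk.last_only (h : W.Walk r n e st) {j : ℕ} (hj : j < r)
    (hm : e j ∈ W.mem (n r)) : j + 1 = r := by
  rcases h.node_of_mem hj hm with h1 | h1
  · have := h.eq_of_node (by omega) (by omega) h1
    omega
  · exact (h.eq_of_node (by omega) (by omega) h1).symm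

theorem Walk.reverse (h : W.Walk r n e st) :
    W.Walk r (fun j => n (r - j)) (fun j => e (r - 1 - j)) (fun j => st (r - j)) where
  near := fun j hj => h.near _ (by omega)
  e1 := fun j hj => by
    have := h.e2 (r - 1 - j) (by omega)
    rw [show r - 1 - j + 1 = r - j by omega] at this
    exact this
  e2 := fun j hj => by
    have := h.e1 (r - 1 - j) (by omega)
    rw [show r - 1 - j = r - (j + 1) by omega] at this
    rw [show r - 1 - j = r - (j + 1) by omega]
    exact this
  ne := fun j hj => by
    have := h.ne (r - 1 - j) (by omega)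
    rw [show r - 1 - j + 1 = r - j by omega] at this
    rw [show r - (j + 1) = r - 1 - j by omega]
    exact this.symm
  fl := fun j hj => by
    have := h.fl (r - 1 - j) (by omega)
    rw [show r - 1 - j + 1 = r - j by omega] at this
    show st (r - (j + 1)) = flip (st (r - j)) (e (r - 1 - j))
    rw [this, flip_flip, show r - (j + 1) = r - 1 - j by omega]
  nb := fun j hj => by
    have := h.nb (r - 1 - (j + 1)) (by omega)
    rw [show r - 1 - (j + 1) + 1 = r - 1 - j by omega] at this
    exact this.symm

/-- a tail of a walk -/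
theorem Walk.tail (h : W.Walk r n e st) (k : ℕ) (hk : k ≤ r) :
    W.Walk (r - k) (fun j => n (k + j)) (fun j => e (k + j)) (fun j => st (k + j)) where
  near := fun j hj => h.near (k + j) (by omega)
  e1 := fun j hj => h.e1 (k + j) (by omega)
  e2 := fun j hj => h.e2 (k + j) (by omega)
  ne := fun j hj => h.ne (k + j) (by omega)
  fl := fun j hj => h.fl (k + j) (by omega)
  nb := fun j hj => h.nb (k + j) (by omega)

/-- a head of a walk -/
theorem Walk.head (h : W.Walk r n e st) (k : ℕ) (hk : k ≤ r) : W.Walk k n e st where
  near := fun j hj => h.near _ (by omega)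
  e1 := fun j hj => h.e1 _ (by omega)
  e2 := fun j hj => h.e2 _ (by omega)
  ne := fun j hj => h.ne _ (by omega)
  fl := fun j hj => h.fl _ (by omega)
  nb := fun j hj => h.nb _ (by omega)

/-- concatenation -/
theorem Walk.append (h : W.Walk r n e st) (h' : W.Walk s m f su) (hn : n r = m 0)
    (hs : st r = su 0) (hne : 0 < r → 0 < s → f 0 ≠ e (r - 1)) :
    W.Walk (r + s) (fun j => if j < r then n j else m (j - r))
      (fun j => if j < r then e j else f (j - r))
      (fun j => if j < r then st j else su (j - r)) := by
  have hN : ∀ j, j ≤ r → (if j < r then n j else m (j - r)) = n j := by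
    intro j hj
    by_cases hjr : j < r
    · simp [hjr]
    · have : j = r := by omega
      subst this
      simp [hn]
  have hS : ∀ j, j ≤ r → (if j < r then st j else su (j - r)) = st j := by
    intro j hj
    by_cases hjr : j < r
    · simp [hjr]
    · have : j = r := by omega
      subst this
      simp [hs]
  refine ⟨?_, ?_, ?_, ?_, ?_, ?_⟩
  · intro j hj
    by_cases hjr : j < r
    · simp only [hjr, if_true]
      exact h.near j (by omega)
    · simp only [hjr, if_false]
      exact h'.near _ (by omega)
  · intro j hj
    by_cases hjr : j < r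
    · simp only [hjr, if_true]
      exact h.e1 j (by omega)
    · simp only [hjr, if_false]
      exact h'.e1 _ (by omega)
  · intro j hj
    by_cases hjr : j < r
    · rw [hN (j + 1) (by omega)]
      simp only [hjr, if_true]
      exact h.e2 j (by omega)
    · have hjr' : ¬ j + 1 < r := by omega
      simp only [hjr, hjr', if_false]
      rw [show j + 1 - r = (j - r) + 1 by omega]
      exact h'.e2 _ (by omega)
  · intro j hj
    by_cases hjr : j < r
    · rw [hN (j + 1) (by omega)]
      simp only [hjr, if_true]
      exact h.ne j (by omega)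
    · have hjr' : ¬ j + 1 < r := by omega
      simp only [hjr, hjr', if_false]
      rw [show j + 1 - r = (j - r) + 1 by omega]
      exact h'.ne _ (by omega)
  · intro j hj
    by_cases hjr : j < r
    · rw [hS (j + 1) (by omega)]
      simp only [hjr, if_true]
      exact h.fl j (by omega)
    · have hjr' : ¬ j + 1 < r := by omega
      simp only [hjr, hjr', if_false]
      rw [show j + 1 - r = (j - r) + 1 by omega]
      exact h'.fl _ (by omega)
  · intro j hj
    by_cases hjr : j + 1 < r
    · have hjr' : j < r := by omega
      simp only [hjr, hjr', if_true]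
      exact h.nb j (by omega)
    · by_cases hjr' : j < r
      · have hjr2 : j + 1 = r := by omega
        simp only [hjr, hjr', if_true, if_false]
        have := hne (by omega) (by omega)
        rw [show j + 1 - r = 0 by omega, show j = r - 1 by omega]
        exact this
      · simp only [hjr, hjr', if_false]
        rw [show j + 1 - r = (j - r) + 1 by omega]
        exact h'.nb _ (by omega)

/-- two walks that leave a node through different ports never arrive at the same node -/
theorem Walk.no_merge (h : W.Walk r n e st) (h' : W.Walk s m f su) (hr : 0 < r) (hs : 0 < s)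
    (hn : n 0 = m 0) (hst : st 0 = su 0) (hne : e 0 ≠ f 0) : n r ≠ m s := by
  have h1 := h.reverse.append h' (by simp [hn]) (by simp [hst]) (by
    intro _ _
    rw [show r - 1 - (r - 1) = 0 by omega]
    exact hne.symm)
  have h2 := h1.distinct (a := 0) (b := r + s) (by omega) le_rfl
  simp only [hr, if_true, Nat.sub_zero] at h2
  have h3 : ¬ r + s < r := by omega
  simp only [h3, if_false] at h2
  rwa [show r + s - r = s by omega] at h2

/-- the walk of length one -/
theorem exists_one {s0 : J → Bool} {n0 : N} {x : J} (h : W.Near s0 n0) (hx : W.Port s0 n0 x)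
    (hg : ∀ t, ¬ W.Good t) :
    ∃ (n : ℕ → N) (e : ℕ → J) (st : ℕ → J → Bool), W.Walk 1 n e st ∧ n 0 = n0 ∧ st 0 = s0 ∧
      e 0 = x := by
  obtain ⟨m0, h1, h2, h3⟩ := step h hx (hg _)
  refine ⟨fun j => if j = 0 then n0 else m0, fun _ => x,
    fun j => if j = 0 then s0 else flip s0 x, ?_, by simp, by simp, rfl⟩
  refine ⟨?_, ?_, ?_, ?_, ?_, ?_⟩
  · intro j hj
    by_cases hj0 : j = 0
    · simp only [hj0, if_true]
      exact h
    · simp only [hj0, if_false]
      exact h3
  · intro j hj
    have : j = 0 := by omega
    subst this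
    simp only [if_true]
    exact hx.1
  · intro j hj
    have : j = 0 := by omega
    subst this
    simpa using h2
  · intro j hj
    have : j = 0 := by omega
    subst this
    simpa using h1.symm
  · intro j hj
    have : j = 0 := by omega
    subst this
    simp
  · intro j hj
    omega

/-- a step of the walk can be undone -/
theorem Walk.port_back (h : W.Walk r n e st) {j : ℕ} (hj : j < r) :
    W.Port (st (j + 1)) (n (j + 1)) (e j) := by
  refine ⟨h.e2 j hj, ?_⟩
  rw [h.fl j hj, flip_flip]
  exact (h.near j (by omega)).1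

theorem Walk.port (h : W.Walk r n e st) {j : ℕ} (hj : j < r) :
    W.Port (st j) (n j) (e j) := by
  refine ⟨h.e1 j hj, ?_⟩
  rw [← h.fl j hj]
  exact (h.near (j + 1) (by omega)).1

/-- prolong a walk until its last node is a dead end -/
theorem Walk.extend [Finite N] (hg : ∀ t, ¬ W.Good t) :
    ∀ (d r : ℕ) (n : ℕ → N) (e : ℕ → J) (st : ℕ → J → Bool), Nat.card N = r + d →
      W.Walk r n e st → 0 < r →
      ∃ (R : ℕ) (n' : ℕ → N) (e' : ℕ → J) (st' : ℕ → J → Bool), r ≤ R ∧ W.Walk R n' e' st' ∧
        (∀ j, j ≤ r → n' j = n j ∧ st' j = st j) ∧ (∀ j, j < r → e' j = e j) ∧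
        ∀ x, W.Port (st' R) (n' R) x → x = e' (R - 1) := by
  intro d
  induction d with
  | zero =>
    intro r n e st hc h hr
    exfalso
    have hinj : Function.Injective (fun j : Fin (r + 1) => n j) := by
      intro a b hab
      exact Fin.ext (h.eq_of_node (by omega) (by omega) hab)
    have := Nat.card_le_card_of_injective _ hinj
    rw [Nat.card_fin] at this
    omega
  | succ d ih =>
    intro r n e st hc h hr
    by_cases hend : ∀ x, W.Port (st r) (n r) x → x = e (r - 1)
    · exact ⟨r, n, e, st, le_rfl, h, fun j _ => ⟨rfl, rfl⟩, fun j _ => rfl, hend⟩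
    · push Not at hend
      obtain ⟨x, hx, hxe⟩ := hend
      obtain ⟨m, f, su, h1, h2, h3, h4⟩ := exists_one (h.near r le_rfl) hx hg
      have h5 := h.append h1 h2.symm h3.symm (by
        intro _ _
        rw [h4]
        exact hxe)
      obtain ⟨R, n', e', st', hR, hW, hag, hag', hfin⟩ := ih (r + 1) _ _ _ (by omega) h5
        (by omega)
      refine ⟨R, n', e', st', by omega, hW, ?_, ?_, hfin⟩
      · intro j hj
        obtain ⟨e1, e2⟩ := hag j (by omega)
        rw [e1, e2]
        by_cases hjr : j < r
        · simp [hjr]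
        · have : j = r := by omega
          subst this
          simp [h2, h3]
      · intro j hj
        rw [hag' j (by omega)]
        simp [hj]

theorem Walk.extend' [Finite N] (hg : ∀ t, ¬ W.Good t) (h : W.Walk r n e st) (hr : 0 < r) :
      ∃ (R : ℕ) (n' : ℕ → N) (e' : ℕ → J) (st' : ℕ → J → Bool), r ≤ R ∧ W.Walk R n' e' st' ∧
        (∀ j, j ≤ r → n' j = n j ∧ st' j = st j) ∧ (∀ j, j < r → e' j = e j) ∧
        ∀ x, W.Port (st' R) (n' R) x → x = e' (R - 1) := by
  have hc : r ≤ Nat.card N := by
    have hinj : Function.Injective (fun j : Fin (r + 1) => n j) := by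
      intro a b hab
      exact Fin.ext (h.eq_of_node (by omega) (by omega) hab)
    have := Nat.card_le_card_of_injective _ hinj
    rw [Nat.card_fin] at this
    omega
  exact Walk.extend hg (Nat.card N - r) r n e st (by omega) h hr

/-- **Maximal walks**: if there is no good state and some near-good state with a legal port,
there is a walk both ends of which have exactly one legal port. -/
theorem exists_maximal [Finite N] (hg : ∀ t, ¬ W.Good t) {s0 : J → Bool} {n0 : N} {x : J}
    (h : W.Near s0 n0) (hx : W.Port s0 n0 x) :
    ∃ (r : ℕ) (n : ℕ → N) (e : ℕ → J) (st : ℕ → J → Bool), 0 < r ∧ W.Walk r n e st ∧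
      (∀ x, W.Port (st 0) (n 0) x → x = e 0) ∧
      (∀ x, W.Port (st r) (n r) x → x = e (r - 1)) ∧
      ∃ j, j ≤ r ∧ n j = n0 ∧ st j = s0 := by
  obtain ⟨n1, e1, st1, hw1, hn1, hs1, he1⟩ := exists_one h hx hg
  obtain ⟨R, n2, e2, st2, hR, hw2, hag, hag', hfin⟩ := hw1.extend' hg (by omega)
  have hw3 := hw2.reverse
  obtain ⟨Q, n4, e4, st4, hQ, hw4, hag4, hag4', hfin4⟩ := hw3.extend' hg (by omega)
  refine ⟨Q, n4, e4, st4, by omega, hw4, ?_, hfin4, R, by omega, ?_, ?_⟩
  · intro y hy
    obtain ⟨g1, g2⟩ := hag4 0 (by omega)
    rw [g1, g2] at hy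
    rw [hag4' 0 (by omega)]
    simp only [Nat.sub_zero] at hy ⊢
    exact hfin y hy
  · rw [(hag4 R le_rfl).1]
    simp only [Nat.sub_self]
    rw [(hag 0 (by omega)).1, hn1]
  · rw [(hag4 R le_rfl).2]
    simp only [Nat.sub_self]
    rw [(hag 0 (by omega)).2, hs1]

/-- **The walk lemma.**  If every near-good state with at most one legal port has its defect at
`A` or at `B`, then (in the absence of good states) there is a walk from `A` to `B`, all inner
nodes of which have exactly two legal ports. -/
theorem walk_lemma [Finite N] (hg : ∀ t, ¬ W.Good t) (A B : N)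
    (hleaf : ∀ t a, W.Near t a → (∀ x y, W.Port t a x → W.Port t a y → x = y) →
      a = A ∨ a = B) {s0 : J → Bool} {n0 : N} {x : J}
    (h : W.Near s0 n0) (hx : W.Port s0 n0 x) :
    ∃ (r : ℕ) (n : ℕ → N) (e : ℕ → J) (st : ℕ → J → Bool), 0 < r ∧ W.Walk r n e st ∧
      n 0 = A ∧ n r = B ∧
      (∀ x, W.Port (st 0) A x ↔ x = e 0) ∧
      (∀ x, W.Port (st r) B x ↔ x = e (r - 1)) ∧
      (∀ j, 0 < j → j < r → ∀ x, W.Port (st j) (n j) x ↔ (x = e (j - 1) ∨ x = e j)) ∧
      (∀ x ∈ W.mem A, x ∈ W.mem B → x = e 0) ∧
      (∃ j, j ≤ r ∧ n j = n0 ∧ st j = s0) := by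
  -- first a maximal walk from A to B
  have hmax : ∃ (r : ℕ) (n : ℕ → N) (e : ℕ → J) (st : ℕ → J → Bool), 0 < r ∧
      W.Walk r n e st ∧
      n 0 = A ∧ n r = B ∧ (∀ x, W.Port (st 0) (n 0) x → x = e 0) ∧
      (∀ x, W.Port (st r) (n r) x → x = e (r - 1)) ∧ 
      ∃ j, j ≤ r ∧ n j = n0 ∧ st j = s0 := by
    obtain ⟨r, n, e, st, hr, hw, h0, h1, k, hk1, hk2, hk3⟩ := exists_maximal hg h hx
    have hA : n 0 = A ∨ n 0 = B := by
      apply hleaf _ _ (hw.near 0 (by omega))
      intro x y hx hy
      rw [h0 x hx, h0 y hy]
    have hB : n r = A ∨ n r = B := by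
      apply hleaf _ _ (hw.near r le_rfl)
      intro x y hx hy
      rw [h1 x hx, h1 y hy]
    have hne := hw.distinct (a := 0) (b := r) hr le_rfl
    rcases hA with hA | hA
    · rcases hB with hB | hB
      · exact absurd (hA.trans hB.symm) hne
      · exact ⟨r, n, e, st, hr, hw, hA, hB, h0, h1, k, hk1, hk2, hk3⟩
    · rcases hB with hB | hB
      · refine ⟨r, _, _, _, hr, hw.reverse, ?_, ?_, ?_, ?_, r - k, by omega, ?_, ?_⟩
        · simpa using hB
        · simpa using hA
        · intro y hy
          simp only [Nat.sub_zero] at hy ⊢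
          exact h1 y hy
        · intro y hy
          simp only [Nat.sub_self] at hy ⊢
          exact h0 y hy
        · show n (r - (r - k)) = n0
          rw [show r - (r - k) = k by omega]
          exact hk2
        · show st (r - (r - k)) = s0
          rw [show r - (r - k) = k by omega]
          exact hk3
      · exact absurd (hA.trans hB.symm) hne
  obtain ⟨r, n, e, st, hr, hw, hA, hB, h0, h1, hroot⟩ := hmax
  refine ⟨r, n, e, st, hr, hw, hA, hB, ?_, ?_, ?_, ?_, hroot⟩
  · intro y
    constructor
    · intro hy
      rw [← hA] at hy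
      exact h0 y hy
    · rintro rfl
      rw [← hA]
      exact hw.port (by omega)
  · intro y
    constructor
    · intro hy
      rw [← hB] at hy
      exact h1 y hy
    · rintro rfl
      rw [← hB]
      have := hw.port_back (j := r - 1) (by omega)
      rwa [show r - 1 + 1 = r by omega] at this
  · intro j hj hjr y
    constructor
    · intro hy
      by_contra hcon
      push Not at hcon
      -- walk through y
      obtain ⟨n1, e1, st1, hw1, hn1, hs1, he1⟩ := exists_one (hw.near j (by omega)) hy hg
      obtain ⟨R, n2, e2, st2, hR, hw2, hag, hag', hfin⟩ := hw1.extend' hg (by omega)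
      have hend : n2 R = A ∨ n2 R = B := by
        apply hleaf _ _ (hw2.near R le_rfl)
        intro x y hx hy
        rw [hfin x hx, hfin y hy]
      have hn20 : n2 0 = n j := by rw [(hag 0 (by omega)).1, hn1]
      have hs20 : st2 0 = st j := by rw [(hag 0 (by omega)).2, hs1]
      have he20 : e2 0 = y := by rw [hag' 0 (by omega), he1]
      rcases hend with hend | hend
      · -- merge with the walk back to A
        have hwb := (hw.head j (by omega)).reverse
        apply hwb.no_merge hw2 hj (by omega) (by simp [hn20]) (by simp [hs20]) _ _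
        · simp only [Nat.sub_zero]
          rw [he20]
          exact fun hh => hcon.1 hh.symm
        · simp only [Nat.sub_self]
          rw [hA, hend]
      · have hwf := hw.tail j (by omega)
        apply hwf.no_merge hw2 (by omega) (by omega) (by simp [hn20]) (by simp [hs20]) _ _
        · simp only [Nat.add_zero]
          rw [he20]
          exact fun hh => hcon.2 hh.symm
        · show n (j + (r - j)) = n2 R
          rw [show j + (r - j) = r by omega, hB, hend]
    · rintro (rfl | rfl)
      · have := hw.port_back (j := j - 1) (by omega)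
        rwa [show j - 1 + 1 = j by omega] at this
      · exact hw.port hjr
  · intro y hyA hyB
    by_contra hcon
    have hAB : A ≠ B := by
      rw [← hA, ← hB]
      exact hw.distinct hr le_rfl
    have hsg : W.sg A ≠ W.sg B := fun hs => hAB (eq_of_mem hyA hyB hs)
    have hstay : st r y = st 0 y := by
      apply hw.const (a := 0) r (by omega) le_rfl
      intro l _ hl heq
      have hl0 : l = 0 := by
        apply hw.first_only hl
        rw [heq, hA]
        exact hyA
      subst hl0
      exact hcon heq.symm
    have g1 : st 0 y = W.sg A := by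
      have := (hw.near 0 (by omega)).2.1 y (by rw [hA]; exact hyA)
      rwa [hA] at this
    have g2 : st r y = W.sg B := by
      have := (hw.near r le_rfl).2.1 y (by rw [hB]; exact hyB)
      rwa [hB] at this
    apply hsg
    rw [← g1, ← g2, hstay]

end WalkSys

end Walk

end GW
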