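import Pool.Agent.GW.Stmts
import Pool.Agent.GW.Walk
import Pool.Agent.GW.Red

/-!
# MP_27938c_co: inner part (`k = 2`), definitions

Colours are `Bool` here: `true` = `+`, `false` = `-`.  Text: `/team-store/MP_27938c_INNER.md`
(adapted to the class of `Stmt_Step2`: real doubles instead of twins, full (P1)).
-/

namespace GW

open Relation

variable {S T I : Type}

/-! ## Sets -/

/-- type II sets are `SetS A`, `s ∉ A`, `A ≠ ∅` -/
def SetS (T : Type) (A : Set S) : Set (S ⊕ T) := Sum.inl '' A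

/-- type III sets are `SetT C`, `t ∉ C`, `C ≠ ∅` -/
def SetT (S : Type) (C : Set T) : Set (S ⊕ T) := (Sum.inr '' C)ᶜ

namespace ST

/-- number of items entering `Z` -/
noncomputable def d (g : ST S T I) (Z : Set (S ⊕ T)) : ℕ := (Ent g.tl g.hd Z).ncard

/-- an item of colour `b` enters `Z` -/
def Hit (g : ST S T I) (c : I → Bool) (b : Bool) (Z : Set (S ⊕ T)) : Prop :=
  ∃ i, c i = b ∧ g.hd i ∈ Z ∧ g.tl i ∉ Z

/-- good colouring with two colours -/
def GoodB (g : ST S T I) (c : I → Bool) : Prop :=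
  ∀ Z : Set (S ⊕ T), Closed g.r Z → Z.Nonempty → Z ≠ Set.univ → ∀ b, g.Hit c b Z

/-- type I sets -/
def TI (g : ST S T I) (Z : Set (S ⊕ T)) : Prop :=
  Closed g.r Z ∧ Sum.inl g.s ∈ Z ∧ Sum.inr g.t ∉ Z

/-- the dual instance: reverse all items and hops, exchange `S` and `T` -/
def dual (g : ST S T I) : ST T S I where
  s := g.t
  t := g.s
  B := fun w u => g.B u w
  Bs := g.Bt
  Bt := g.Bs
  tl := fun i => (g.hd i).swap
  hd := fun i => (g.tl i).swap
  kind := fun i => by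
    rcases g.kind i with ⟨u, w, h, h1, h2⟩ | ⟨u, v, h1, h2⟩ | ⟨w, w', h1, h2⟩
    · exact Or.inl ⟨w, u, h, by rw [h2]; rfl, by rw [h1]; rfl⟩
    · exact Or.inr (Or.inr ⟨u, v, by rw [h2]; rfl, by rw [h1]; rfl⟩)
    · exact Or.inr (Or.inl ⟨w, w', by rw [h2]; rfl, by rw [h1]; rfl⟩)

end ST

/-- A minimal counterexample (hypotheses of `Stmt_Step2`, loop-free, no good colouring). -/
structure MinInst (g : ST S T I) : Prop where
  finS : Finite S
  finT : Finite T
  finI : Finite I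
  valid : Valid g.r g.tl g.hd 2
  exact : g.Exact 2
  p1 : g.P1 2
  anti : g.Anti
  noloop : ∀ i, g.tl i ≠ g.hd i
  /-- every valid instance with fewer vertices is colourable; use it through
  `MinInst.colourR` below (`RInst` of `Red.lean`) -/
  col : Col 2 (Nat.card S + Nat.card T)
  /-- retargeting -/
  colI : ∀ (I' : Type) [Finite I'] (g' : ST S T I'), g'.s = g.s → g'.t = g.t → g'.B = g.B →
    Valid g'.r g'.tl g'.hd 2 → g'.Kint.ncard ≤ g.Kint.ncard →
    g'.Inner.ncard < g.Inner.ncard → ∃ c : I' → Bool, g'.GoodB c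
  bad : ∀ c : I → Bool, ¬ g.GoodB c

/-- good 2-colouring (Bool version) of a reduced instance of `Red.lean` -/
def RInst.GoodB (g : RInst S T I) (c : I → Bool) : Prop :=
  ∀ U : Set (S ⊕ T), g.KC U → U.Nonempty → U ≠ g.kept →
    ∀ b : Bool, ∃ i, c i = b ∧ g.hd i ∈ U ∧ g.tl i ∉ U

/-- a valid reduced instance with fewer vertices has a good colouring -/
theorem MinInst.colourR {g : ST S T I} (hg : MinInst g) (r : RInst S T I)
    (hn : Nat.card ↥r.kS + Nat.card ↥r.kT < Nat.card S + Nat.card T) (hv : r.Valid 2) :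
    ∃ c : I → Bool, r.GoodB c := by
  have := hg.finS
  have := hg.finT
  have := hg.finI
  obtain ⟨c, hc⟩ := r.colour hg.col hn hv
  refine ⟨fun i => decide (c i = 1), fun U h1 h2 h3 b => ?_⟩
  cases b with
  | true =>
    obtain ⟨i, hi, h⟩ := hc U h1 h2 h3 1
    exact ⟨i, by simp [hi], h⟩
  | false =>
    obtain ⟨i, hi, h⟩ := hc U h1 h2 h3 0
    exact ⟨i, by simp [hi], h⟩

namespace ST

/-! ## Vertices (S side; the T side is the S side of `g.dual`) -/

/-- in-items of the source `u` -/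
def inE (g : ST S T I) (u : S) : Set I := {i | g.hd i = Sum.inl u}

/-- out-items of the source `u` -/
def outE (g : ST S T I) (u : S) : Set I := {i | g.tl i = Sum.inl u}

/-- `i` is an X item (both ends in `S`) -/
def IsX (g : ST S T I) (i : I) : Prop := ∃ u v, g.tl i = Sum.inl v ∧ g.hd i = Sum.inl u

/-- `i` is an interior K item -/
def IsK (g : ST S T I) (i : I) : Prop :=
  ∃ u w, g.tl i = Sum.inr w ∧ g.hd i = Sum.inl u ∧ u ≠ g.s ∧ w ≠ g.t

/-- `i` is an inner X item: both ends in `S - s` -/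
def IsIn (g : ST S T I) (i : I) : Prop :=
  ∃ u v, g.tl i = Sum.inl v ∧ g.hd i = Sum.inl u ∧ u ≠ g.s ∧ v ≠ g.s

/-- pair: in-items `k` (interior K) and `x` (inner X) -/
def Pair (g : ST S T I) (u : S) : Prop :=
  u ≠ g.s ∧ ∃ k x, k ≠ x ∧ g.inE u = {k, x} ∧ g.IsK k ∧ g.IsIn x

/-- single: both in-items are inner X items -/
def Single (g : ST S T I) (u : S) : Prop :=
  u ≠ g.s ∧ ∃ x x', x ≠ x' ∧ g.inE u = {x, x'} ∧ g.IsIn x ∧ g.IsIn x'

/-- real double: both in-items are interior K items -/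
def DblKK (g : ST S T I) (u : S) : Prop :=
  u ≠ g.s ∧ ∃ k k', k ≠ k' ∧ g.inE u = {k, k'} ∧ g.IsK k ∧ g.IsK k'

/-- t-double: in-items `k` (interior K) and `a` from `t` -/
def DblKt (g : ST S T I) (u : S) : Prop :=
  u ≠ g.s ∧ ∃ k a, k ≠ a ∧ g.inE u = {k, a} ∧ g.IsK k ∧ g.tl a = Sum.inr g.t

/-- `e` is an exit item of `u` (X item from `u` to `s`) -/
def Exit (g : ST S T I) (u : S) (e : I) : Prop := g.tl e = Sum.inl u ∧ g.hd e = Sum.inl g.s

/-- inner out-items of `u` -/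
def inner (g : ST S T I) (u : S) : Set I := {i | g.tl i = Sum.inl u ∧ g.hd i ≠ Sum.inl g.s}

/-- The structure of a minimal instance, S side (section 3 of the text). -/
structure StrS (g : ST S T I) : Prop where
  cases : ∀ u, u ≠ g.s → g.Pair u ∨ g.Single u ∨ g.DblKK u ∨ g.DblKt u
  /-- no X item leaves `s` -/
  noS : ∀ i, g.tl i ≠ Sum.inl g.s
  pair : ∀ u, g.Pair u → ∃ i, g.inner u = {i}
  single : ∀ u, g.Single u → ∃ i j, i ≠ j ∧ g.inner u = {i, j}
  dbl : ∀ u, g.DblKK u ∨ g.DblKt u → g.inner u = ∅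
  exitSingle : ∀ u, g.Single u → ∃ e, g.Exit u e
  exitKt : ∀ u, g.DblKt u → ∃ e, g.Exit u e
  /-- at most one exit at every vertex -/
  exitUniq : ∀ u e e', g.Exit u e → g.Exit u e' → e = e'

/-! ## States -/

/-- `(c, N)` is an S-state: `N` is the smallest type II set not entered by `-`, and this is
the only kind of defect. -/
structure SState (g : ST S T I) (c : I → Bool) (N : Set S) : Prop where
  hs : g.s ∉ N
  ne : N.Nonempty
  tI : ∀ Z, g.TI Z → ∀ b, g.Hit c b Z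
  tII : ∀ A : Set S, g.s ∉ A → A.Nonempty → g.Hit c true (SetS T A)
  tIII : ∀ C : Set T, g.t ∉ C → C.Nonempty → ∀ b, g.Hit c b (SetT S C)
  bad : ¬ g.Hit c false (SetS T N)
  min : ∀ A : Set S, g.s ∉ A → A.Nonempty → ¬ g.Hit c false (SetS T A) → N ⊆ A
  /-- correct stars, except at a defective real double -/
  star : ∀ u, N = {u} → g.DblKK u

/-- T-state: `N` is the smallest set of sinks not left by `+` (dual, colours exchanged). -/
def TState (g : ST S T I) (c : I → Bool) (N : Set T) : Prop :=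
  g.dual.SState (fun i => !c i) N

open Classical in
/-- flip the interior K item `k` together with the X item into its head (if the head is a pair)
and the Y item out of its tail (if the tail is a pair) -/
noncomputable def flipc (g : ST S T I) (k : I) (c : I → Bool) : I → Bool :=
  fun l => if l = k ∨ (g.hd l = g.hd k ∧ ∃ z, g.tl l = Sum.inl z) ∨
    (g.tl l = g.tl k ∧ ∃ w, g.hd l = Sum.inr w) then !c l else c l

/-- S-end of a flippable item: a pair or a real double with an exit -/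
def FlpS (g : ST S T I) (u : S) : Prop := g.Pair u ∨ (g.DblKK u ∧ ∃ e, g.Exit u e)

/-- flippable items -/
def Flp (g : ST S T I) (k : I) : Prop :=
  ∃ u w, g.tl k = Sum.inr w ∧ g.hd k = Sum.inl u ∧ u ≠ g.s ∧ w ≠ g.t ∧ g.FlpS u ∧ g.dual.FlpS w

/-- all type I sets are entered by both colours -/
def LegC (g : ST S T I) (c : I → Bool) : Prop := ∀ Z, g.TI Z → ∀ b, g.Hit c b Z

/-- legal port of an S-state -/
def PortS (g : ST S T I) (c : I → Bool) (N : Set S) (k : I) : Prop :=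
  g.Flp k ∧ g.hd k ∈ SetS T N ∧ g.LegC (g.flipc k c)

/-- `- bad` (L3a) : `F₋(W) = {Y_k}`, `W ∩ N = ∅` -/
def MBad (g : ST S T I) (c : I → Bool) (N : Set S) (k : I) : Prop :=
  ∃ W, g.TI W ∧ (∀ v ∈ N, Sum.inl v ∉ W) ∧
    ∀ i, c i = false → g.hd i ∈ W → g.tl i ∉ W → g.tl i = g.tl k ∧ ∃ w, g.hd i = Sum.inr w

/-- `+ bad` (L3b) : `F₊(W) = {k}`, the other in-item of the head of `k` does not enter `W` -/
def PBad (g : ST S T I) (c : I → Bool) (k : I) : Prop :=
  ∃ W, g.TI W ∧ (∀ i, c i = true → g.hd i ∈ W → g.tl i ∉ W → i = k) ∧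
    g.hd k ∈ W ∧ g.tl k ∉ W ∧ (∀ i, g.hd i = g.hd k → i ≠ k → g.tl i ∈ W)

/-- the source `v` has a `+` exit -/
def PExit (g : ST S T I) (c : I → Bool) (v : S) : Prop := ∃ e, g.Exit v e ∧ c e = true

/-! ## Shape of the node of an S-state -/

/-- `N = {u}`, `u` a real double with both K items `+` -/
def NDbl (g : ST S T I) (c : I → Bool) (N : Set S) : Prop :=
  ∃ u, N = {u} ∧ g.DblKK u ∧ ∀ i, g.hd i = Sum.inl u → c i = true

/-- plain node: at least three pairs, no inner X item enters or leaves `N` -/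
def NPlain (g : ST S T I) (c : I → Bool) (N : Set S) : Prop :=
  3 ≤ N.ncard ∧ (∀ v ∈ N, g.Pair v) ∧
  (∀ i, g.IsIn i → (g.tl i ∈ SetS T N ↔ g.hd i ∈ SetS T N)) ∧
  (∀ i, g.hd i ∈ SetS T N → (c i = true ↔ g.IsK i)) ∧
  (∀ v ∈ N, ∀ e, g.Exit v e → c e = true)

/-- loop at the single `y` -/
def NLoop (g : ST S T I) (c : I → Bool) (N : Set S) (y : S) : Prop :=
  3 ≤ N.ncard ∧ y ∈ N ∧ g.Single y ∧ g.PExit c y ∧
  (∀ v ∈ N, v ≠ y → g.Pair v ∧ ¬ ∃ e, g.Exit v e) ∧
  (∀ i, g.IsIn i → g.tl i ∈ SetS T N → g.tl i ≠ Sum.inl y → g.hd i ∈ SetS T N) ∧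
  (∀ i, g.IsIn i → g.hd i ∈ SetS T N → g.hd i ≠ Sum.inl y → g.tl i ∈ SetS T N) ∧
  (∀ i, g.hd i ∈ SetS T N → g.hd i ≠ Sum.inl y → (c i = true ↔ g.IsK i)) ∧
  (∀ i, g.hd i = Sum.inl y → (c i = false ↔ g.tl i ∈ SetS T N)) ∧
  (∃ i j, i ≠ j ∧ g.inner y = {i, j} ∧ g.hd i ∈ SetS T N ∧ g.hd j ∉ SetS T N)

end ST

end GW
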