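import Pool.Agent.GW.InnerDefs

/-!
# MP_27938c_co: inner part, statements of the modules

Every module is one file `Pool/Agent/GW/<Name>.lean` with `theorem <Name>_proof : Stmt_<Name>`.
Other `Stmt_*` may be taken as hypotheses.  `Text` = `/team-store/MP_27938c_INNER.md`
(twins are real doubles here).  The T side is always the S side of `g.dual`
(`Dual.lean`: `MinInst.dual`, `Hit`, `TI`, `flipc` under duality).
-/

namespace GW

variable {S T I : Type}

/-! ## Reductions (sections 1, 2) -/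

/-- duality -/
def Stmt_Dual : Prop :=
  ∀ (S T I : Type) (g : ST S T I), MinInst g → MinInst g.dual

/-- (ELIM) a source `y` without interior K in-item can be eliminated. -/
def Stmt_Elim : Prop :=
  ∀ (S T I : Type) (g : ST S T I), MinInst g → ∀ (y : S) (a b : I), y ≠ g.s → a ≠ b →
    g.inE y = {a, b} →
    (((∃ z, g.tl a = Sum.inl z) ∧ (∃ z, g.tl b = Sum.inl z) ∧ (g.outE y).ncard ≤ 2) ∨
     (g.tl a = Sum.inr g.t ∧ (∃ z, g.tl b = Sum.inl z) ∧ (g.outE y).Nonempty) ∨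
     (g.tl a = Sum.inr g.t ∧ g.tl b = Sum.inr g.t ∧ (g.outE y).ncard = 2)) → False

/-- (NEAR) retargeting an inner X item to `s` gives a near-good colouring. -/
def Stmt_Near : Prop :=
  ∀ (S T I : Type) (g : ST S T I), MinInst g → ∀ (e : I) (z v : S),
    g.tl e = Sum.inl z → g.hd e = Sum.inl v → z ≠ g.s → v ≠ g.s →
    ∃ c : I → Bool, (∀ Z, g.TI Z → ∀ b, g.Hit c b Z) ∧
      (∀ C : Set T, g.t ∉ C → C.Nonempty → ∀ b, g.Hit c b (SetT S C)) ∧
      (∀ A : Set S, g.s ∉ A → A.Nonempty → ∀ b, ¬ g.Hit c b (SetS T A) →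
        b = c e ∧ v ∈ A ∧ z ∈ A)

/-- (DEL-Ks) -/
def Stmt_DelKs : Prop :=
  ∀ (S T I : Type) (g : ST S T I), MinInst g → ∀ (u : S) (w : T) (k a : I), u ≠ g.s → w ≠ g.t →
    k ≠ a → g.inE u = {k, a} → g.tl k = Sum.inr w → g.tl a = Sum.inl g.s → g.outE u = ∅ → False

/-- (DEL-Kt) -/
def Stmt_DelKt : Prop :=
  ∀ (S T I : Type) (g : ST S T I), MinInst g → ∀ (u : S) (w : T) (k a : I), u ≠ g.s → w ≠ g.t →
    k ≠ a → g.inE u = {k, a} → g.tl k = Sum.inr w → g.tl a = Sum.inr g.t → g.outE u = ∅ → False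

/-- (CT) contraction of a sink `w` with two K out-items `k : w → u`, `k' : w → u'`, `u ≠ u'`, and
no in-item; it is not possible only if some `A ∋ u, u'` has `d(A) ≤ 3`. -/
def Stmt_CT : Prop :=
  ∀ (S T I : Type) (g : ST S T I), MinInst g → ∀ (w : T) (u u' : S) (k k' : I), w ≠ g.t →
    u ≠ g.s → u' ≠ g.s → u ≠ u' → k ≠ k' → {i | g.tl i = Sum.inr w} = {k, k'} →
    g.hd k = Sum.inl u → g.hd k' = Sum.inl u' → (∀ i, g.hd i ≠ Sum.inr w) →
    ∃ A : Set S, g.s ∉ A ∧ u ∈ A ∧ u' ∈ A ∧ g.d (SetS T A) ≤ 3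

/-- data of the deletion (D): X-cycle `v → ua → ub → v`, `v` has an exit `ex` and the further
in-item `r`; `wa, wb` have one in-item each; strands `pa → wa → qa`, `pb → wb → qb`. -/
structure DData (g : ST S T I) (v ua ub : S) (wa wb pa qa pb qb : T)
    (x1 x2 x3 ex r ka kb ya yb ina inb : I) : Prop where
  hv : v ≠ g.s
  hua : ua ≠ g.s
  hub : ub ≠ g.s
  hvua : v ≠ ua
  hvub : v ≠ ub
  huab : ua ≠ ub
  hwab : wa ≠ wb
  hwa : wa ≠ g.t
  hwb : wb ≠ g.t
  hpat : pa ≠ g.t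
  hqat : qa ≠ g.t
  hpbt : pb ≠ g.t
  hqbt : qb ≠ g.t
  hpab : pa ≠ wb
  hqab : qa ≠ wb
  hpba : pb ≠ wa
  hqba : qb ≠ wa
  hx1 : g.tl x1 = Sum.inl v ∧ g.hd x1 = Sum.inl ua
  hx2 : g.tl x2 = Sum.inl ua ∧ g.hd x2 = Sum.inl ub
  hx3 : g.tl x3 = Sum.inl ub ∧ g.hd x3 = Sum.inl v
  hex : g.tl ex = Sum.inl v ∧ g.hd ex = Sum.inl g.s
  hka : g.tl ka = Sum.inr wa ∧ g.hd ka = Sum.inl ua
  hkb : g.tl kb = Sum.inr wb ∧ g.hd kb = Sum.inl ub
  hya : g.tl ya = Sum.inr wa ∧ g.hd ya = Sum.inr qa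
  hyb : g.tl yb = Sum.inr wb ∧ g.hd yb = Sum.inr qb
  hina : g.tl ina = Sum.inr pa ∧ g.hd ina = Sum.inr wa
  hinb : g.tl inb = Sum.inr pb ∧ g.hd inb = Sum.inr wb
  inEua : g.inE ua = {x1, ka}
  inEub : g.inE ub = {x2, kb}
  inEv : g.inE v = {x3, r}
  hrx3 : r ≠ x3
  outEua : g.outE ua = {x2}
  outEub : g.outE ub = {x3}
  inwa : {i | g.hd i = Sum.inr wa} = {ina}
  inwb : {i | g.hd i = Sum.inr wb} = {inb}
  outwa : {i | g.tl i = Sum.inr wa} = {ka, ya}
  outwb : {i | g.tl i = Sum.inr wb} = {kb, yb}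
  /-- `v` is a pair (`r` a K item) or a single (`r` an X item, one further out-item `y`) -/
  vcase : ((∃ wp, g.tl r = Sum.inr wp ∧ wp ≠ g.t) ∧ g.outE v = {x1, ex}) ∨
    ((∃ z, g.tl r = Sum.inl z ∧ z ≠ g.s) ∧
      ∃ y x, y ≠ x1 ∧ g.outE v = {x1, ex, y} ∧ g.hd y = Sum.inl x ∧ x ≠ g.s ∧ x ≠ v ∧ x ≠ ua ∧
        x ≠ ub)

/-- (D) -/
def Stmt_DRed : Prop :=
  ∀ (S T I : Type) (g : ST S T I), MinInst g → ∀ (v ua ub : S) (wa wb pa qa pb qb : T)
    (x1 x2 x3 ex r ka kb ya yb ina inb : I),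
    DData g v ua ub wa wb pa qa pb qb x1 x2 x3 ex r ka kb ya yb ina inb →
    (∀ C : Set T, g.t ∉ C → wa ∉ C → wb ∉ C → pa ∈ C → qa ∈ C → 3 ≤ g.d (SetT S C)) →
    (∀ C : Set T, g.t ∉ C → wa ∉ C → wb ∉ C → pb ∈ C → qb ∈ C → 3 ≤ g.d (SetT S C)) →
    (∀ C : Set T, g.t ∉ C → wa ∉ C → wb ∉ C → pa ∈ C → qa ∈ C → pb ∈ C → qb ∈ C →
      4 ≤ g.d (SetT S C)) → False

/-! ## Structure (section 3) -/

def Stmt_Str : Prop := ∀ (S T I : Type) (g : ST S T I), MinInst g → g.StrS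

/-! ## Nodes and states (section 4) -/

/-- (N1)-(N3) -/
def Stmt_Node : Prop :=
  ∀ (S T I : Type) (g : ST S T I), MinInst g → g.StrS → ∀ (c : I → Bool) (N : Set S),
    g.SState c N → g.NDbl c N ∨ g.NPlain c N ∨ ∃ y, g.NLoop c N y

/-- (L6) a K item whose head is in the node of an S-state does not start at a plain T-double -/
def Stmt_Static : Prop :=
  ∀ (S T I : Type) (g : ST S T I), MinInst g → g.StrS → g.dual.StrS →
    ∀ (c : I → Bool) (N : Set S), g.SState c N →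
    ∀ (k : I) (w : T), g.hd k ∈ SetS T N → g.tl k = Sum.inr w → w ≠ g.t →
      g.dual.FlpS w ∨ g.dual.DblKt w

/-- (N4) a port of the node of an S-state whose tail has an out-item to `s` -/
def Stmt_N4 : Prop :=
  ∀ (S T I : Type) (g : ST S T I), MinInst g → g.StrS → g.dual.StrS →
    ∀ (c : I → Bool) (N : Set S), g.SState c N →
    ∀ (k : I) (w : T), g.hd k ∈ SetS T N → g.tl k = Sum.inr w → g.dual.DblKt w →
      (∃ a, g.tl a = Sum.inr g.t ∧ g.hd a = Sum.inr w ∧ c a = false) ∧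
      (∃ b, g.tl b = Sum.inr w ∧ g.hd b = Sum.inl g.s ∧ c b = false) ∧
      ∀ k', g.IsK k' → ¬ g.MBad c N k'

/-- (L1), (L2) -/
def Stmt_Step : Prop :=
  ∀ (S T I : Type) (g : ST S T I), MinInst g → g.StrS → g.dual.StrS →
    ∀ (c : I → Bool) (N : Set S) (k : I), g.SState c N → g.PortS c N k →
      ∃ (w : T) (N' : Set T), g.tl k = Sum.inr w ∧ w ∈ N' ∧ g.TState (g.flipc k c) N'

/-- (L3) -/
def Stmt_Bad : Prop :=
  ∀ (S T I : Type) (g : ST S T I), MinInst g → g.StrS → g.dual.StrS →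
    ∀ (c : I → Bool) (N : Set S) (k : I), g.SState c N → g.Flp k → g.hd k ∈ SetS T N →
      ¬ g.LegC (g.flipc k c) →
      g.MBad c N k ∨ (g.PBad c k ∧ ∃ v, g.hd k = Sum.inl v ∧ g.PExit c v)

/-- (L4) -/
def Stmt_MUniq : Prop :=
  ∀ (S T I : Type) (g : ST S T I), MinInst g → g.StrS → g.dual.StrS →
    ∀ (c : I → Bool) (N : Set S) (k k' : I), g.SState c N → g.Flp k → g.Flp k' →
      g.hd k ∈ SetS T N → g.hd k' ∈ SetS T N → g.MBad c N k → g.MBad c N k' → k = k'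

/-- (L5) consequence: a node without `+` exit has two legal ports -/
def Stmt_Two2 : Prop :=
  ∀ (S T I : Type) (g : ST S T I), MinInst g → g.StrS → g.dual.StrS →
    ∀ (c : I → Bool) (N : Set S), g.SState c N → (∀ v ∈ N, ¬ g.PExit c v) → ¬ g.NDbl c N →
      ∃ k k', k ≠ k' ∧ g.PortS c N k ∧ g.PortS c N k'

/-- (L5) consequence: a node that is not a double has a legal port -/
def Stmt_One1 : Prop :=
  ∀ (S T I : Type) (g : ST S T I), MinInst g → g.StrS → g.dual.StrS →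
    ∀ (c : I → Bool) (N : Set S), g.SState c N → ¬ g.NDbl c N → ∃ k, g.PortS c N k

/-! ## Leaves (section 6) -/

/-- the S-end of the walk given by the walk lemma: state `(c, A)`, only legal port `e`; the other
end is the T-state `(c', B)` with only legal port `f`. -/
structure HalfLeaf (g : ST S T I) (c : I → Bool) (A : Set S) (e : I) (c' : I → Bool) (B : Set T)
    (f : I) : Prop where
  st : g.SState c A
  /-- `A` contains the `+` exit -/
  spec : ∃ v ∈ A, g.PExit c v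
  port : ∀ k, g.PortS c A k ↔ k = e
  /-- the two colourings agree on the items leaving `t` and on the items entering `s` -/
  agt : ∀ i, g.tl i = Sum.inr g.t → c i = c' i
  ags : ∀ i, g.hd i = Sum.inl g.s → c i = c' i
  /-- the next state -/
  next : ∃ N1 : Set T, g.TState (g.flipc e c) N1 ∧ (∃ w ∈ N1, g.tl e = Sum.inr w) ∧
    ((N1 = B ∧ g.flipc e c = c' ∧ f = e) ∨
      ((∀ x ∈ N1, ¬ g.dual.PExit (fun i => !(g.flipc e c i)) x) ∧
        ¬ g.dual.NDbl (fun i => !(g.flipc e c i)) N1 ∧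
        ∃ e', e' ≠ e ∧ ∀ k, g.dual.PortS (fun i => !(g.flipc e c i)) N1 k ↔ (k = e ∨ k = e')))
  /-- a common port of `A` and `B` is `e = f`, and then the walk has length one -/
  common : ∀ k, g.Flp k → g.hd k ∈ SetS T A → (∃ w ∈ B, g.tl k = Sum.inr w) →
    k = e ∧ f = e ∧ g.flipc e c = c'
  /-- no walk of length one between two doubles -/
  nodd : ¬ (f = e ∧ g.flipc e c = c' ∧ g.NDbl c A ∧ g.dual.NDbl (fun i => !c' i) B)

/-- both ends -/
def Leaves (g : ST S T I) (c : I → Bool) (A : Set S) (e : I) (c' : I → Bool) (B : Set T)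
    (f : I) : Prop :=
  HalfLeaf g c A e c' B f ∧ HalfLeaf g.dual (fun i => !c' i) B f (fun i => !c i) A e

/-- assembly with the walk lemma -/
def Stmt_Walk : Prop :=
  ∀ (S T I : Type) (g : ST S T I), MinInst g → g.StrS → g.dual.StrS →
    ∀ (c : I → Bool) (N : Set S), g.SState c N → ¬ g.NDbl c N →
      ∃ c1 A e c2 B f, Leaves g c1 A e c2 B f

/-- (E1) -/
def Stmt_E1 : Prop :=
  ∀ (S T I : Type) (g : ST S T I), MinInst g → g.StrS → g.dual.StrS →
    ∀ c A e c' B f, Leaves g c A e c' B f → ¬ g.NDbl c A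

/-- (E2), (E3), (TV), with (D) -/
def Stmt_E2 : Prop :=
  ∀ (S T I : Type) (g : ST S T I), MinInst g → g.StrS → g.dual.StrS →
    ∀ c A e c' B f, Leaves g c A e c' B f → ¬ g.NDbl c A →
      ¬ g.dual.NDbl (fun i => !c' i) B → False

/-! ## Root and tiny cases (section 7) -/

/-- root: an inner X item gives an S-state that is not a double -/
def Stmt_Root : Prop :=
  ∀ (S T I : Type) (g : ST S T I), MinInst g → g.StrS → g.dual.StrS → ∀ i, g.IsIn i →
    ∃ (c : I → Bool) (N : Set S), g.SState c N ∧ ¬ g.NDbl c N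

/-- tiny cases: no inner items at all -/
def Stmt_Tiny : Prop :=
  ∀ (S T I : Type) (g : ST S T I), MinInst g → g.StrS → g.dual.StrS → (∀ i, ¬ g.IsIn i) →
    (∀ i, ¬ g.dual.IsIn i) → False

end GW
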