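import Pool.Agent.GW.Dual

/-!
# MP_27938c_co: common lemmas about states, flips and leaves
-/

namespace GW

variable {S T I : Type}

theorem eq_of_ncard_two {α : Type} {E : Set α} (hE : E.ncard = 2) {c : α → Bool}
    (h : ∀ b, ∃ i ∈ E, c i = b) {i j : α} (hi : i ∈ E) (hj : j ∈ E) (hc : c i = c j) :
    i = j := by
  obtain ⟨x, y, hxy, rfl⟩ := Set.ncard_eq_two.1 hE
  have hxy' : c x ≠ c y := by
    intro he
    obtain ⟨z, hz, hz'⟩ := h (!c x)
    rcases hz with rfl | rfl
    · simp at hz'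
    · rw [he] at hz'; simp at hz'
  rcases hi with rfl | rfl <;> rcases hj with rfl | rfl
  · rfl
  · exact absurd hc hxy'
  · exact absurd hc.symm hxy'
  · rfl

theorem TI_s (g : ST S T I) : g.TI {Sum.inl g.s} := by
  refine ⟨?_, rfl, by simp⟩
  rw [closed_iff]
  intro u w _ hw
  simp at hw

/-- at a source whose star is correct, the in-items are determined by their colour -/
theorem in_unique {g : ST S T I} (hg : MinInst g) {c : I → Bool} {u : S}
    (h : ∀ b, g.Hit c b {Sum.inl u}) {i j : I} (hi : g.hd i = Sum.inl u)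
    (hj : g.hd j = Sum.inl u) (hc : c i = c j) : i = j := by
  refine eq_of_ncard_two (hg.inE_card u) (fun b => ?_) hi hj hc
  obtain ⟨k, hk, hk1, _⟩ := h b
  exact ⟨k, hk1, hk⟩

theorem in_s_unique {g : ST S T I} (hg : MinInst g) {c : I → Bool} (h : g.LegC c) {i j : I}
    (hi : g.hd i = Sum.inl g.s) (hj : g.hd j = Sum.inl g.s) (hc : c i = c j) : i = j :=
  in_unique hg (fun b => h _ (TI_s g) b) hi hj hc

theorem out_t_unique {g : ST S T I} (hg : MinInst g) {c : I → Bool} (h : g.LegC c) {i j : I}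
    (hi : g.tl i = Sum.inr g.t) (hj : g.tl j = Sum.inr g.t) (hc : c i = c j) : i = j :=
  in_s_unique hg.dual ((legC_dual g c).2 h) (by simpa using hi) (by simpa using hj) hc

/-! ## flips -/

theorem flipc_self (g : ST S T I) (k : I) (c : I → Bool) : g.flipc k c k = !c k := by
  unfold ST.flipc
  simp

theorem flipc_of (g : ST S T I) {k i : I} (c : I → Bool) (h0 : i ≠ k)
    (h1 : g.hd i = g.hd k → ∀ z, g.tl i ≠ Sum.inl z)
    (h2 : g.tl i = g.tl k → ∀ w, g.hd i ≠ Sum.inr w) : g.flipc k c i = c i := by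
  unfold ST.flipc
  rw [if_neg]
  rintro (h | ⟨h, z, hz⟩ | ⟨h, w, hw⟩)
  · exact h0 h
  · exact h1 h z hz
  · exact h2 h w hw

/-- K items (other than `k`) are not changed -/
theorem flipc_K (g : ST S T I) {k i : I} (c : I → Bool) (h0 : i ≠ k) {u : S} {w : T}
    (h1 : g.tl i = Sum.inr w) (h2 : g.hd i = Sum.inl u) : g.flipc k c i = c i :=
  flipc_of g c h0 (fun _ z hz => by rw [h1] at hz; simp at hz)
    (fun _ w' hw' => by rw [h2] at hw'; simp at hw')

/-- Y items out of another sink are not changed -/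
theorem flipc_Y (g : ST S T I) {k i : I} (c : I → Bool) {w : T} (hk : ∃ u, g.hd k = Sum.inl u)
    (h1 : g.hd i = Sum.inr w) (h2 : g.tl i ≠ g.tl k) : g.flipc k c i = c i := by
  obtain ⟨u, hu⟩ := hk
  refine flipc_of g c ?_ (fun h => ?_) (fun h => absurd h h2)
  · rintro rfl
    rw [hu] at h1
    simp at h1
  · rw [h1, hu] at h
    simp at h

/-- X items into another source are not changed -/
theorem flipc_X (g : ST S T I) {k i : I} (c : I → Bool) {v : S} (hk : ∃ w, g.tl k = Sum.inr w)
    (h1 : g.tl i = Sum.inl v) (h2 : g.hd i ≠ g.hd k) : g.flipc k c i = c i := by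
  obtain ⟨w, hw⟩ := hk
  refine flipc_of g c ?_ (fun h => absurd h h2) (fun h => ?_)
  · rintro rfl
    rw [hw] at h1
    simp at h1
  · rw [h1, hw] at h
    simp at h

theorem flipc_X' (g : ST S T I) {k i : I} (c : I → Bool) {v : S}
    (h1 : g.tl i = Sum.inl v) (h2 : g.hd i = g.hd k) : g.flipc k c i = !c i := by
  unfold ST.flipc
  rw [if_pos (Or.inr (Or.inl ⟨h2, v, h1⟩))]

theorem flipc_Y' (g : ST S T I) {k i : I} (c : I → Bool) {w : T}
    (h1 : g.hd i = Sum.inr w) (h2 : g.tl i = g.tl k) : g.flipc k c i = !c i := by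
  unfold ST.flipc
  rw [if_pos (Or.inr (Or.inr ⟨h2, w, h1⟩))]

/-- items out of `t` are not changed by flipping an interior K item -/
theorem flipc_out_t (g : ST S T I) {k i : I} (c : I → Bool) (hk : g.IsK k)
    (h1 : g.tl i = Sum.inr g.t) : g.flipc k c i = c i := by
  obtain ⟨u, w, h2, h3, h4, h5⟩ := hk
  refine flipc_of g c ?_ (fun _ z hz => ?_) (fun h => ?_)
  · rintro rfl
    rw [h1, Sum.inr.injEq] at h2
    exact h5 h2.symm
  · rw [h1] at hz
    simp at hz
  · rw [h1, h2, Sum.inr.injEq] at h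
    exact absurd h.symm h5

/-- items into `s` are not changed by flipping an interior K item -/
theorem flipc_in_s (g : ST S T I) {k i : I} (c : I → Bool) (hk : g.IsK k)
    (h1 : g.hd i = Sum.inl g.s) : g.flipc k c i = c i := by
  rw [← flipc_dual]
  exact flipc_out_t g.dual c ((isK_dual g k).2 hk) (by simpa using h1)

theorem Flp_isK {g : ST S T I} {k : I} (h : g.Flp k) : g.IsK k := by
  obtain ⟨u, w, h1, h2, h3, h4, _, _⟩ := h
  exact ⟨u, w, h1, h2, h3, h4⟩

/-! ## states -/

/-- items (of colour `-`) with head in the node come from the node; so K items are `+` -/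
theorem ST.SState.true_of_tl {g : ST S T I} {c : I → Bool} {N : Set S} (h : g.SState c N) {i : I}
    (h1 : g.hd i ∈ SetS T N) (h2 : g.tl i ∉ SetS T N) : c i = true := by
  by_contra hc
  exact h.bad ⟨i, by simpa using hc, h1, h2⟩

theorem ST.SState.K_true {g : ST S T I} {c : I → Bool} {N : Set S} (h : g.SState c N) {i : I}
    {w : T} (h1 : g.hd i ∈ SetS T N) (h2 : g.tl i = Sum.inr w) : c i = true :=
  h.true_of_tl h1 (by rw [h2]; exact inr_mem_SetS N w)

/-- the head of an item into the node, as a vertex -/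
theorem mem_SetS_iff {x : S ⊕ T} {N : Set S} : x ∈ SetS T N ↔ ∃ u ∈ N, x = Sum.inl u := by
  constructor
  · rintro ⟨u, hu, rfl⟩
    exact ⟨u, hu, rfl⟩
  · rintro ⟨u, hu, rfl⟩
    exact ⟨u, hu, rfl⟩

theorem ST.SState.ne_s {g : ST S T I} {c : I → Bool} {N : Set S} (h : g.SState c N) {u : S}
    (hu : u ∈ N) : u ≠ g.s := fun he => h.hs (he ▸ hu)

/-- stars of sinks are correct in an S-state -/
theorem ST.SState.sink_star {g : ST S T I} {c : I → Bool} {N : Set S} (h : g.SState c N) {w : T}
    (hw : w ≠ g.t) (b : Bool) : g.Hit c b {Sum.inr w}ᶜ := by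
  have := h.tIII {w} (by simpa using hw.symm) ⟨w, rfl⟩ b
  have he : SetT S {w} = ({Sum.inr w}ᶜ : Set (S ⊕ T)) := by
    simp [SetT]
  rwa [he] at this

/-- out-items of a sink `w ≠ t` are determined by their colour -/
theorem ST.SState.out_unique {g : ST S T I} (hg : MinInst g) {c : I → Bool} {N : Set S}
    (h : g.SState c N) {w : T} (hw : w ≠ g.t) {i j : I} (hi : g.tl i = Sum.inr w)
    (hj : g.tl j = Sum.inr w) (hc : c i = c j) : i = j := by
  refine in_unique hg.dual (u := w) (c := c) (fun b => ?_) (by simpa using hi)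
    (by simpa using hj) hc
  rw [← dZ_compl_singleton_inr (S := S), hit_dual]
  exact h.sink_star hw b

/-- the types of vertices exclude each other -/
theorem not_DblKt_of_DblKK {g : ST S T I} {u : S} (h : g.DblKK u) : ¬ g.DblKt u := by
  rintro ⟨_, k, a, hka, hE, hk, ha⟩
  obtain ⟨_, k1, k2, h12, hE', hk1, hk2⟩ := h
  have : a ∈ g.inE u := by rw [hE]; simp
  rw [hE'] at this
  rcases this with rfl | rfl
  · obtain ⟨u', w, e1, e2, e3, e4⟩ := hk1
    rw [ha, Sum.inr.injEq] at e1
    exact e4 e1.symm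
  · obtain ⟨u', w, e1, e2, e3, e4⟩ := hk2
    rw [ha, Sum.inr.injEq] at e1
    exact e4 e1.symm

/-- the node of an S-state contains no t-double -/
theorem ST.SState.not_DblKt {g : ST S T I} {c : I → Bool} {N : Set S} (h : g.SState c N) {u : S}
    (hu : u ∈ N) : ¬ g.DblKt u := by
  intro hk
  have hk' := hk
  obtain ⟨hus, k, a, hka, hE, ⟨u', w, e1, e2, e3, e4⟩, ha⟩ := hk'
  have hkE : k ∈ g.inE u := by rw [hE]; simp
  have haE : a ∈ g.inE u := by rw [hE]; simp
  have hku : g.hd k = Sum.inl u := hkE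
  have hau : g.hd a = Sum.inl u := haE
  have h1 : c k = true := h.K_true (by rw [hku]; simpa using hu) e1
  have h2 : c a = true := h.K_true (by rw [hau]; simpa using hu) ha
  have h3 : N ⊆ {u} := by
    apply h.min {u} (by simpa using hus.symm) ⟨u, rfl⟩
    rintro ⟨i, hi, hi1, hi2⟩
    have : i ∈ g.inE u := by
      obtain ⟨v, hv, hv'⟩ := mem_SetS_iff.1 hi1
      rw [Set.mem_singleton_iff] at hv
      subst hv
      exact hv'
    rw [hE] at this
    rcases this with rfl | rfl
    · rw [h1] at hi; simp at hi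
    · rw [h2] at hi; simp at hi
  have h4 : N = {u} := Set.Subset.antisymm h3 (by simpa using hu)
  exact not_DblKt_of_DblKK (h.star u h4) hk

end GW
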