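import Pool.Agent.GW.LeafBase

/-!
# MP_27938c_co: not legal ports of a leaf
-/

namespace GW

variable {S T I : Type}

/-- a port that is not legal is `- bad` or it is at the `+` exit -/
theorem bad_cases (hStatic : Stmt_Static) (hBad : Stmt_Bad) {g : ST S T I} (hg : MinInst g)
    (hS : g.StrS) (hT : g.dual.StrS) {c : I → Bool} {N : Set S} (h : g.SState c N) {k : I}
    {u : S} {w : T} (hu : u ∈ N) (hku : g.hd k = Sum.inl u) (hkw : g.tl k = Sum.inr w)
    (hwt : w ≠ g.t) (hfu : g.FlpS u) (hw : ¬ g.dual.DblKt w) (hp : ¬ g.PortS c N k) :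
    g.MBad c N k ∨ g.PExit c u := by
  have hk : g.hd k ∈ SetS T N := by rw [hku]; simpa using hu
  have hfw : g.dual.FlpS w := by
    rcases hStatic S T I g hg hS hT c N h k w hk hkw hwt with h1 | h1
    · exact h1
    · exact absurd h1 hw
  have hF : g.Flp k := ⟨u, w, hkw, hku, h.ne_s hu, hwt, hfu, hfw⟩
  have hl : ¬ g.LegC (g.flipc k c) := fun hl => hp ⟨hF, hk, hl⟩
  rcases hBad S T I g hg hS hT c N k h hF hk hl with h1 | ⟨_, v, hv, h2⟩
  · exact Or.inl h1
  · rw [hku, Sum.inl.injEq] at hv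
    exact Or.inr (hv ▸ h2)

/-- if the `-` entrance is known and not at a double of type (K, s), no port is frozen -/
theorem no_frozen (hN4 : Stmt_N4) {g : ST S T I} (hg : MinInst g)
    (hS : g.StrS) (hT : g.dual.StrS) {c : I → Bool} {N : Set S} (h : g.SState c N) {a : I} {x : T}
    (ha : g.tl a = Sum.inr g.t) (hax : g.hd a = Sum.inr x) (hac : c a = false)
    (hx : ¬ g.dual.DblKt x) {k : I} {w : T} (hk : g.hd k ∈ SetS T N) (hkw : g.tl k = Sum.inr w) :
    ¬ g.dual.DblKt w := by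
  intro hw
  obtain ⟨⟨a', h1, h2, h3⟩, _, _⟩ := hN4 S T I g hg hS hT c N h k w hk hkw hw
  have : a' = a := out_t_unique hg h.tI h1 ha (by rw [h3, hac])
  subst this
  rw [hax, Sum.inr.injEq] at h2
  exact hx (h2 ▸ hw)

/-- the K in-item of a pair -/
theorem pair_K {g : ST S T I} {u : S} (h : g.Pair u) :
    ∃ k w, g.hd k = Sum.inl u ∧ g.tl k = Sum.inr w ∧ w ≠ g.t := by
  obtain ⟨_, k, x, hkx, hE, ⟨u', w, h1, h2, h3, h4⟩, _⟩ := h
  have : k ∈ g.inE u := by rw [hE]; simp
  exact ⟨k, w, this, h1, h4⟩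

theorem single_not_K {g : ST S T I} {u : S} (h : g.Single u) {k : I} (hk : g.hd k = Sum.inl u)
    {w : T} (hw : g.tl k = Sum.inr w) : False := by
  obtain ⟨_, x, x', hxx, hE, ⟨a1, b1, h1, h2, _⟩, ⟨a2, b2, h3, h4, _⟩⟩ := h
  have : k ∈ g.inE u := hk
  rw [hE] at this
  rcases this with rfl | rfl
  · rw [hw] at h1; simp at h1
  · rw [hw] at h3; simp at h3

theorem exists_third {α : Type} {N : Set α} (h : 3 ≤ N.ncard) (a b : α) :
    ∃ x ∈ N, x ≠ a ∧ x ≠ b := by
  by_contra hcon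
  push Not at hcon
  have hsub : N ⊆ {a, b} := by
    intro x hx
    by_cases hxa : x = a
    · exact Or.inl hxa
    · exact Or.inr (hcon x hx hxa)
  have := Set.ncard_le_ncard hsub (Set.toFinite _)
  have h2 : ({a, b} : Set α).ncard ≤ 2 := by
    refine (Set.ncard_insert_le _ _).trans ?_
    simp
  omega

/-- a leaf (only legal port `e`), or a node without `+` exit with at most two legal ports, that is
not a double has a `- bad` port different from `e` -/
theorem exists_MBad (hNode : Stmt_Node) (hStatic : Stmt_Static) (hBad : Stmt_Bad)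
    {g : ST S T I} (hg : MinInst g) (hS : g.StrS) (hT : g.dual.StrS) {c : I → Bool} {N : Set S}
    (h : g.SState c N) (hnd : ¬ g.NDbl c N)
    (hfr : ∀ k w, g.hd k ∈ SetS T N → g.tl k = Sum.inr w → ¬ g.dual.DblKt w)
    {e : I} (he : g.IsK e) (heN : g.hd e ∈ SetS T N)
    (hp : (∀ k, g.PortS c N k ↔ k = e) ∨
      ((∀ v ∈ N, ¬ g.PExit c v) ∧ ∃ e2, ∀ k, g.PortS c N k ↔ (k = e ∨ k = e2))) :
    ∃ b, b ≠ e ∧ g.IsK b ∧ g.hd b ∈ SetS T N ∧ g.MBad c N b := by
  obtain ⟨u0, hu0, hu0e⟩ := mem_SetS_iff.1 heN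
  have key : ∀ x ∈ N, g.Pair x → ∀ k w, g.hd k = Sum.inl x → g.tl k = Sum.inr w → w ≠ g.t →
      ¬ g.PortS c N k → g.MBad c N k ∨ g.PExit c x := by
    intro x hx hpx k w hk hw hwt hnp
    exact bad_cases hStatic hBad hg hS hT h hx hk hw hwt (Or.inl hpx)
      (hfr k w (by rw [hk]; simpa using hx) hw) hnp
  have mk : ∀ x ∈ N, x ≠ u0 → ∀ k w, g.hd k = Sum.inl x → g.tl k = Sum.inr w → w ≠ g.t →
      g.MBad c N k → ∃ b, b ≠ e ∧ g.IsK b ∧ g.hd b ∈ SetS T N ∧ g.MBad c N b := by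
    intro x hx hxu k w hk hw hwt hm
    refine ⟨k, ?_, ⟨x, w, hw, hk, h.ne_s hx, hwt⟩, by rw [hk]; simpa using hx, hm⟩
    rintro rfl
    rw [hu0e, Sum.inl.injEq] at hk
    exact hxu hk.symm
  rcases hNode S T I g hg hS c N h with h1 | h1 | ⟨y, h1⟩
  · exact absurd h1 hnd
  · obtain ⟨hc, hpair, _⟩ := h1
    rcases hp with hp | ⟨hsp, e2, hp⟩
    · obtain ⟨x, hx, hxu, _⟩ := exists_third hc u0 u0
      obtain ⟨x', hx', hxu', hxx'⟩ := exists_third hc u0 x
      obtain ⟨k, w, hk, hw, hwt⟩ := pair_K (hpair x hx)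
      obtain ⟨k', w', hk', hw', hwt'⟩ := pair_K (hpair x' hx')
      have hne : ∀ x k, x ≠ u0 → g.hd k = Sum.inl x → ¬ g.PortS c N k := by
        intro x k hxu hk hpo
        rw [hp] at hpo
        subst hpo
        rw [hu0e, Sum.inl.injEq] at hk
        exact hxu hk.symm
      rcases key x hx (hpair x hx) k w hk hw hwt (hne x k hxu hk) with hm | hm
      · exact mk x hx hxu k w hk hw hwt hm
      · rcases key x' hx' (hpair x' hx') k' w' hk' hw' hwt' (hne x' k' hxu' hk') with hm' | hm'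
        · exact mk x' hx' hxu' k' w' hk' hw' hwt' hm'
        · exfalso
          obtain ⟨a, ⟨ha1, ha2⟩, ha3⟩ := hm
          obtain ⟨a', ⟨ha1', ha2'⟩, ha3'⟩ := hm'
          have := in_s_unique hg h.tI ha2 ha2' (by rw [ha3, ha3'])
          subst this
          rw [ha1, Sum.inl.injEq] at ha1'
          exact hxx' ha1'.symm
    · by_cases hxe : ∃ x2 ∈ N, g.hd e2 = Sum.inl x2
      · obtain ⟨x2, hx2, hx2e⟩ := hxe
        obtain ⟨x, hx, hxu, hxu2⟩ := exists_third hc u0 x2
        obtain ⟨k, w, hk, hw, hwt⟩ := pair_K (hpair x hx)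
        have hnp : ¬ g.PortS c N k := by
          intro hpo
          rw [hp] at hpo
          rcases hpo with rfl | rfl
          · rw [hu0e, Sum.inl.injEq] at hk
            exact hxu hk.symm
          · rw [hx2e, Sum.inl.injEq] at hk
            exact hxu2 hk.symm
        rcases key x hx (hpair x hx) k w hk hw hwt hnp with hm | hm
        · exact mk x hx hxu k w hk hw hwt hm
        · exact absurd hm (hsp x hx)
      · exfalso
        have : g.PortS c N e2 := (hp e2).2 (Or.inr rfl)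
        obtain ⟨x2, hx2, hx2e⟩ := mem_SetS_iff.1 this.2.1
        exact hxe ⟨x2, hx2, hx2e⟩
  · obtain ⟨hc, hyN, hy, hye, hpr, _⟩ := h1
    rcases hp with hp | ⟨hsp, _⟩
    · obtain ⟨x, hx, hxu, hxy⟩ := exists_third hc u0 y
      obtain ⟨hpx, hnex⟩ := hpr x hx hxy
      obtain ⟨k, w, hk, hw, hwt⟩ := pair_K hpx
      have hnp : ¬ g.PortS c N k := by
        intro hpo
        rw [hp] at hpo
        subst hpo
        rw [hu0e, Sum.inl.injEq] at hk
        exact hxu hk.symm
      rcases key x hx hpx k w hk hw hwt hnp with hm | hm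
      · exact mk x hx hxu k w hk hw hwt hm
      · exfalso
        obtain ⟨a, ha, _⟩ := hm
        exact hnex ⟨a, ha⟩
    · exact absurd hye (hsp y hyN)

end GW
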