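import Pool.Agent.GW.ColG

/-!
# Lemma E: a non-universal hop without antiparallel K item can be removed or is decomposable
-/

namespace GW

open Relation Set

theorem ent_sum_ge {V I J : Type} [Finite I] [Finite J] (tl hd : I → V) (f h : J → V)
    (W : Set V) : (Ent tl hd W).ncard ≤ (Ent (Sum.elim tl f) (Sum.elim hd h) W).ncard := by
  rw [← Set.ncard_image_of_injective (Ent tl hd W) (Sum.inl_injective (α := I) (β := J))]
  apply Set.ncard_le_ncard _ (Set.toFinite _)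
  rintro _ ⟨i, hi, rfl⟩
  exact hi

theorem ent_sum_full {V I J : Type} [Finite I] [Finite J] (tl hd : I → V) (f h : J → V)
    (W : Set V) (hJ : ∀ j, h j ∈ W ∧ f j ∉ W) :
    (Ent tl hd W).ncard + Nat.card J ≤ (Ent (Sum.elim tl f) (Sum.elim hd h) W).ncard := by
  have h1 : (Sum.inl '' (Ent tl hd W) ∪ Set.range (Sum.inr : J → I ⊕ J)).ncard =
      (Ent tl hd W).ncard + Nat.card J := by
    rw [Set.ncard_union_eq, Set.ncard_image_of_injective _ Sum.inl_injective,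
      ← Set.image_univ, Set.ncard_image_of_injective _ Sum.inr_injective, Set.ncard_univ]
    rw [Set.disjoint_left]
    rintro x ⟨i, _, rfl⟩ ⟨j, hj⟩
    cases hj
  rw [← h1]
  apply Set.ncard_le_ncard _ (Set.toFinite _)
  rintro _ (⟨i, hi, rfl⟩ | ⟨j, rfl⟩)
  · exact hi
  · exact hJ j

variable {S T I : Type}

/-- the instance with the hop `u → w` removed -/
def ST.rmHop (g : ST S T I) (u : S) (w : T) (hu : u ≠ g.s) (hw : w ≠ g.t)
    (hK : ∀ i, ¬ (g.tl i = Sum.inr w ∧ g.hd i = Sum.inl u)) : ST S T I where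
  s := g.s
  t := g.t
  B := fun a b => g.B a b ∧ ¬ (a = u ∧ b = w)
  Bs := fun b => ⟨g.Bs b, fun h => hu h.1.symm⟩
  Bt := fun a => ⟨g.Bt a, fun h => hw h.2.symm⟩
  tl := g.tl
  hd := g.hd
  kind := by
    intro i
    rcases g.kind i with ⟨a, b, hB, h1, h2⟩ | h | h
    · left
      refine ⟨a, b, ⟨hB, ?_⟩, h1, h2⟩
      rintro ⟨rfl, rfl⟩
      exact hK i ⟨h1, h2⟩
    · exact Or.inr (Or.inl h)
    · exact Or.inr (Or.inr h)

theorem lemmaE [Finite S] [Finite T] [Finite I] {k : ℕ} (g : ST S T I)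
    (hC : ColG k (Nat.card S + Nat.card T)) (hV : Valid g.r g.tl g.hd k)
    (u : S) (w : T) (hB : g.B u w) (hu : u ≠ g.s) (hw : w ≠ g.t)
    (hK : ∀ i, ¬ (g.tl i = Sum.inr w ∧ g.hd i = Sum.inl u))
    (h0 : Valid (g.rmHop u w hu hw hK).r g.tl g.hd k →
      ∃ c : I → Fin k, Good (g.rmHop u w hu hw hK).r g.tl g.hd c) :
    ∃ c : I → Fin k, Good g.r g.tl g.hd c := by
  classical
  set g0 := g.rmHop u w hu hw hK with hg0
  have hr0 : ∀ x y, g0.r x y → g.r x y := by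
    rintro x y ⟨a, b, h1, h2, h3⟩
    exact ⟨a, b, h1, h2, h3.1⟩
  have hcl : ∀ W, Closed g.r W → Closed g0.r W := fun W hW x y h hy => hW x y (hr0 x y h) hy
  have hcl' : ∀ W, Closed g0.r W → (Sum.inr w ∈ W → Sum.inl u ∈ W) → Closed g.r W := by
    rintro W hW h x y ⟨a, b, rfl, rfl, h3⟩ hy
    by_cases hab : a = u ∧ b = w
    · obtain ⟨rfl, rfl⟩ := hab
      exact h hy
    · exact hW _ _ ⟨a, b, rfl, rfl, h3, hab⟩ hy
  by_cases hV0 : Valid g0.r g.tl g.hd k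
  · obtain ⟨c, hc⟩ := h0 hV0
    exact ⟨c, fun Z hZ => hc Z (hcl Z hZ)⟩
  -- the violating set of minimal degree
  unfold Valid at hV0
  push Not at hV0
  obtain ⟨Z0, hZ0, hZ0ne, hZ0u, hZ0k⟩ := hV0
  have key : ∀ W, Closed g0.r W → W.Nonempty → W ≠ Set.univ → (Ent g.tl g.hd W).ncard < k →
      Sum.inr w ∈ W ∧ Sum.inl u ∉ W := by
    intro W hW hne hWu hlt
    by_contra hcon
    have : Closed g.r W := hcl' W hW (fun h => by
      by_contra h'
      exact hcon ⟨h, h'⟩)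
    exact absurd (hV W this hne hWu) (not_le.2 hlt)
  obtain ⟨Z, ⟨hZ, hwZ, huZ⟩, hZmin⟩ := Set.exists_min_image
    ({W | Closed g0.r W ∧ Sum.inr w ∈ W ∧ Sum.inl u ∉ W} : Set (Set (S ⊕ T)))
    (fun W => (Ent g.tl g.hd W).ncard) (Set.toFinite _)
    ⟨Z0, hZ0, (key Z0 hZ0 hZ0ne hZ0u hZ0k).1, (key Z0 hZ0 hZ0ne hZ0u hZ0k).2⟩
  have hZk : (Ent g.tl g.hd Z).ncard < k :=
    lt_of_le_of_lt (hZmin Z0 ⟨hZ0, key Z0 hZ0 hZ0ne hZ0u hZ0k⟩) hZ0k
  have hsZ : Sum.inl g.s ∈ Z := hZ _ _ ⟨g.s, w, rfl, rfl, g0.Bs w⟩ hwZ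
  have htZ : Sum.inr g.t ∉ Z := fun h => huZ (hZ _ _ ⟨u, g.t, rfl, rfl, g0.Bt u⟩ h)
  have hZne : Z.Nonempty := ⟨_, hwZ⟩
  have hZu : Z ≠ Set.univ := fun h => huZ (h ▸ Set.mem_univ _)
  let J := Fin (k - (Ent g.tl g.hd Z).ncard)
  have hJc : Nat.card J = k - (Ent g.tl g.hd Z).ncard := by simp [J]
  have hN : Nat.card (S ⊕ T) = Nat.card S + Nat.card T := Nat.card_sum
  have hst : ∀ x y, ReflTransGen g0.r x y → ∀ Z', ReflTransGen (Contr g0.r Z') x y :=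
    fun x y h Z' => ReflTransGen.mono (fun _ _ h' => Or.inl h') _ _ h
  -- first colouring
  obtain ⟨c1, hc1⟩ : ∃ c1 : I ⊕ J → Fin k, Good (Contr g0.r Z)
      (Sum.elim g.tl (fun _ => Sum.inl u)) (Sum.elim g.hd (fun _ => Sum.inl g.s)) c1 := by
    apply hC (S ⊕ T) (I ⊕ J) (Contr g0.r Z) (Sum.inl g.s) (Sum.inr g.t)
    · rw [← hN]
      exact ncl_lt_of_pair _ (x := Sum.inl g.s) (y := Sum.inr w) (by simp)
        (ReflTransGen.single (Or.inr ⟨hsZ, hwZ⟩)) (ReflTransGen.single (Or.inr ⟨hwZ, hsZ⟩))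
    · have h1 := g0.isG.mono (r' := Contr g0.r Z) (fun _ _ h => Or.inl h)
      refine ⟨h1.ss, h1.tt, ?_⟩
      rintro (i | j)
      · exact h1.kind i
      · right; left
        exact ⟨hst _ _ (g0.re_iff.2 (g0.Bt _)) _, hst _ _ (g0.re_iff.2 (g0.Bt _)) _⟩
    · intro W hW hne hWu
      obtain ⟨hW1, hW2⟩ := closed_contr.1 hW
      by_cases hg : Closed g.r W
      · exact (hV W hg hne hWu).trans (ent_sum_ge _ _ _ _ _)
      · have hwu : Sum.inr w ∈ W ∧ Sum.inl u ∉ W := by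
          by_contra hcon
          exact hg (hcl' W hW1 (fun h => by
            by_contra h'
            exact hcon ⟨h, h'⟩))
        have hZW : Z ⊆ W := hW2 ⟨_, hwu.1, hwZ⟩
        have h2 := hZmin W ⟨hW1, hwu⟩
        have h3 := ent_sum_full (J := J) g.tl g.hd (fun _ => Sum.inl u)
          (fun _ => Sum.inl g.s) W (fun _ => ⟨hZW hsZ, hwu.2⟩)
        have h2' : (Ent g.tl g.hd Z).ncard ≤ (Ent g.tl g.hd W).ncard := h2
        omega
  obtain ⟨c2, hc2⟩ : ∃ c2 : I ⊕ J → Fin k, Good (Contr g0.r Zᶜ)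
      (Sum.elim g.tl (fun _ => Sum.inr g.t)) (Sum.elim g.hd (fun _ => Sum.inr w)) c2 := by
    apply hC (S ⊕ T) (I ⊕ J) (Contr g0.r Zᶜ) (Sum.inl g.s) (Sum.inr g.t)
    · rw [← hN]
      exact ncl_lt_of_pair _ (x := Sum.inl u) (y := Sum.inr g.t) (by simp)
        (ReflTransGen.single (Or.inr ⟨huZ, htZ⟩)) (ReflTransGen.single (Or.inr ⟨htZ, huZ⟩))
    · have h1 := g0.isG.mono (r' := Contr g0.r Zᶜ) (fun _ _ h => Or.inl h)
      refine ⟨h1.ss, h1.tt, ?_⟩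
      rintro (i | j)
      · exact h1.kind i
      · right; right
        exact ⟨hst _ _ (g0.re_iff.2 (g0.Bs _)) _, hst _ _ (g0.re_iff.2 (g0.Bs _)) _⟩
    · intro W hW hne hWu
      obtain ⟨hW1, hW2⟩ := closed_contr.1 hW
      by_cases hg : Closed g.r W
      · exact (hV W hg hne hWu).trans (ent_sum_ge _ _ _ _ _)
      · have hwu : Sum.inr w ∈ W ∧ Sum.inl u ∉ W := by
          by_contra hcon
          exact hg (hcl' W hW1 (fun h => by
            by_contra h'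
            exact hcon ⟨h, h'⟩))
        have htW : Sum.inr g.t ∉ W := by
          intro h
          exact hwu.2 (hW2 ⟨_, h, htZ⟩ huZ)
        have h2 := hZmin W ⟨hW1, hwu⟩
        have h3 := ent_sum_full (J := J) g.tl g.hd (fun _ => Sum.inr g.t)
          (fun _ => Sum.inr w) W (fun _ => ⟨hwu.1, htW⟩)
        have h2' : (Ent g.tl g.hd Z).ncard ≤ (Ent g.tl g.hd W).ncard := h2
        omega
  refine glue (J := J) g.r g0.r hr0 g.tl g.hd Z hZ hZne hZu (Sum.inl g.s) (Sum.inr g.t)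
    (Sum.inl u) (Sum.inr w) ?_ ?_ ?_ c1 hc1 c2 hc2
  · intro _
    exact ⟨hsZ, huZ, hwZ, htZ, fun W hW h => hW _ _ ⟨u, w, rfl, rfl, hB⟩ h⟩
  · omega
  · intro i h1 h2
    rcases g0.isG.leave hZ i h1 h2 with h | h
    · exact Or.inl fun W hW => h W (hcl W hW)
    · exact Or.inr fun W hW => h W (hcl W hW)

end GW
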