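import Pool.Agent.GW.Dual

/-!
# MP_27938c_co: module NEAR (retargeting an inner X item to `s`)
-/

namespace GW

variable {S T I : Type}

open Classical in
/-- the instance in which the tail of the X item `e` is moved to `s` -/
noncomputable def retg (g : ST S T I) (e : I) (v : S) (hv : g.hd e = Sum.inl v) : ST S T I where
  s := g.s
  t := g.t
  B := g.B
  Bs := g.Bs
  Bt := g.Bt
  tl := fun i => if i = e then Sum.inl g.s else g.tl i
  hd := g.hd
  kind := fun i => by
    by_cases h : i = e
    · subst h
      exact Or.inr (Or.inl ⟨v, g.s, by simp, hv⟩)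
    · simp only [if_neg h]
      exact g.kind i

theorem Near_proof : Stmt_Near := by
  classical
  intro S T I g hg e z v htl hhd hz hv
  have := hg.finS
  have := hg.finT
  have := hg.finI
  set g' := retg g e v hhd with hg'
  have htl' : ∀ i, i ≠ e → g'.tl i = g.tl i := fun i hi => by simp [hg', retg, hi]
  have htle : g'.tl e = Sum.inl g.s := by simp [hg', retg]
  have hhd' : ∀ i, g'.hd i = g.hd i := fun i => rfl
  have hr : g'.r = g.r := rfl
  -- items entering
  have hval : Valid g'.r g'.tl g'.hd 2 := by
    intro Z hZ hn hu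
    rw [hr] at hZ
    rcases closed_cases hZ hn hu with h | ⟨A, hA, hAn, rfl⟩ | ⟨C, hC, hCn, rfl⟩
    · -- type I
      have hsub : Ent g.tl g.hd Z \ {e} ⊆ Ent g'.tl g'.hd Z := by
        rintro i ⟨⟨h1, h2⟩, h3⟩
        exact ⟨h1, by rw [htl' i h3]; exact h2⟩
      by_cases he : e ∈ Ent g.tl g.hd Z
      · have h3 : 3 ≤ g.d Z := by
          apply hg.three_le_TI h
          · rintro rfl
            have := he.1
            rw [hhd] at this
            simp only [Set.mem_singleton_iff, Sum.inl.injEq] at this
            exact hv this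
          · rintro rfl
            have := he.2
            rw [htl] at this
            simp at this
        have h4 : (Ent g.tl g.hd Z \ {e}).ncard + 1 = (Ent g.tl g.hd Z).ncard :=
          Set.ncard_sdiff_singleton_add_one he (Set.toFinite _)
        have h5 := Set.ncard_le_ncard hsub (Set.toFinite _)
        unfold ST.d at h3
        omega
      · rw [Set.sdiff_singleton_eq_self he] at hsub
        exact (hg.valid Z hZ hn hu).trans (Set.ncard_le_ncard hsub (Set.toFinite _))
    · -- type II
      refine (hg.valid _ hZ hn hu).trans (Set.ncard_le_ncard ?_ (Set.toFinite _))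
      rintro i ⟨h1, h2⟩
      refine ⟨h1, ?_⟩
      by_cases hi : i = e
      · subst hi
        rw [htle]
        simpa using hA
      · rw [htl' i hi]
        exact h2
    · -- type III
      refine (hg.valid _ hZ hn hu).trans (Set.ncard_le_ncard ?_ (Set.toFinite _))
      rintro i ⟨h1, h2⟩
      refine ⟨h1, ?_⟩
      by_cases hi : i = e
      · subst hi
        rw [htl] at h2
        exact absurd (inl_mem_SetT C z) h2
      · rw [htl' i hi]
        exact h2
  obtain ⟨c, hc⟩ := hg.colI I g' rfl rfl rfl hval
    (by
      apply Set.ncard_le_ncard _ (Set.toFinite _)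
      rintro i ⟨u, w, h1, h2, h3, h4⟩
      have hi : i ≠ e := by
        rintro rfl
        rw [htle] at h1
        exact absurd h1 (by simp)
      exact ⟨u, w, by rwa [htl' i hi] at h1, h2, h3, h4⟩)
    (by
      apply Set.ncard_lt_ncard _ (Set.toFinite _)
      have hei : e ∉ g'.Inner := by
        rintro (⟨u, w, h1, h2, h3⟩ | ⟨u, w, h1, h2, h3⟩)
        · rw [htle, Sum.inl.injEq] at h1
          exact h3 h1.symm
        · rw [htle] at h1
          exact absurd h1 (by simp)
      refine ⟨?_, fun hh => hei (hh (Or.inl ⟨v, z, htl, hhd, hz⟩))⟩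
      intro i hi
      have hne : i ≠ e := by
        rintro rfl
        exact hei hi
      rcases hi with (⟨u, w, h1, h2, h3⟩ | ⟨u, w, h1, h2, h3⟩)
      · exact Or.inl ⟨u, w, by rwa [htl' i hne] at h1, h2, h3⟩
      · exact Or.inr ⟨u, w, by rwa [htl' i hne] at h1, h2, h3⟩)
  rw [goodB_iff] at hc
  obtain ⟨h1, h2, h3⟩ := hc
  refine ⟨c, ?_, ?_, ?_⟩
  · intro Z hZ b
    obtain ⟨i, hi, hh, ht⟩ := h1 Z hZ b
    have hie : i ≠ e := by
      rintro rfl
      rw [htle] at ht
      exact ht hZ.2.1
    exact ⟨i, hi, hh, by rwa [htl' i hie] at ht⟩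
  · intro C hC hCn b
    obtain ⟨i, hi, hh, ht⟩ := h3 C hC hCn b
    have hie : i ≠ e := by
      rintro rfl
      rw [htle] at ht
      exact ht (by simp)
    exact ⟨i, hi, hh, by rwa [htl' i hie] at ht⟩
  · intro A hA hAn b hb
    obtain ⟨i, hi, hh, ht⟩ := h2 A hA hAn b
    by_cases hie : i = e
    · subst hie
      have hvA : v ∈ A := by
        rw [hhd', hhd] at hh
        simpa using hh
      refine ⟨hi.symm, hvA, ?_⟩
      by_contra hzA
      exact hb ⟨i, hi, hh, by rw [htl]; simpa using hzA⟩
    · exact absurd ⟨i, hi, hh, by rwa [htl' i hie] at ht⟩ hb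

end GW
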