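import Pool.Agent.GW.Glue

/-!
# Sources, sinks, ideals, number of classes
-/

namespace GW

open Relation Set

variable {V : Type}

/-- `x` lies in a source class -/
def Src (r : V → V → Prop) (x : V) : Prop := ∀ y, ReflTransGen r y x → ReflTransGen r x y

/-- `x` lies in a sink class -/
def Snk (r : V → V → Prop) (x : V) : Prop := ∀ y, ReflTransGen r x y → ReflTransGen r y x

/-- principal ideal -/
def Idl (r : V → V → Prop) (x : V) : Set V := {y | ReflTransGen r y x}

/-- principal filter -/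
def Flt (r : V → V → Prop) (x : V) : Set V := {y | ReflTransGen r x y}

/-- number of classes -/
noncomputable def ncl (r : V → V → Prop) : ℕ := (Set.range (Idl r)).ncard

/-- every closed set meeting `Z` contains `Z` -/
def Atom (r : V → V → Prop) (Z : Set V) : Prop :=
  ∀ W, Closed r W → (W ∩ Z).Nonempty → Z ⊆ W

theorem closed_re {r : V → V → Prop} {Z : Set V} (hZ : Closed r Z) {x y : V}
    (h : ReflTransGen r x y) (hy : y ∈ Z) : x ∈ Z := by
  induction h using ReflTransGen.head_induction_on with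
  | refl => exact hy
  | head h' _ ih => exact hZ _ _ h' ih

theorem self_mem_idl (r : V → V → Prop) (x : V) : x ∈ Idl r x := ReflTransGen.refl

theorem closed_idl (r : V → V → Prop) (x : V) : Closed r (Idl r x) :=
  fun _ _ h hy => ReflTransGen.head h hy

theorem closed_flt_compl (r : V → V → Prop) (x : V) : Closed r (Flt r x)ᶜ :=
  fun _ _ h hy hx => hy (ReflTransGen.tail hx h)

theorem idl_eq_iff {r : V → V → Prop} {x y : V} :
    Idl r x = Idl r y ↔ ReflTransGen r x y ∧ ReflTransGen r y x := by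
  constructor
  · intro h
    constructor
    · have : x ∈ Idl r y := h ▸ self_mem_idl r x
      exact this
    · have : y ∈ Idl r x := h ▸ self_mem_idl r y
      exact this
  · rintro ⟨h1, h2⟩
    ext z
    exact ⟨fun h => ReflTransGen.trans h h1, fun h => ReflTransGen.trans h h2⟩

theorem atom_idl {r : V → V → Prop} {Z : Set V} (hZ : Closed r Z) (hA : Atom r Z) {x : V}
    (hx : x ∈ Z) : Z = Idl r x := by
  apply Set.Subset.antisymm
  · exact hA _ (closed_idl r x) ⟨x, self_mem_idl r x, hx⟩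
  · intro y hy
    exact closed_re hZ hy hx

theorem atom_src {r : V → V → Prop} {Z : Set V} (hZ : Closed r Z) (hA : Atom r Z) {x : V}
    (hx : x ∈ Z) : Src r x := by
  intro y hy
  have hy' : y ∈ Z := closed_re hZ hy hx
  have : x ∈ Idl r y := atom_idl hZ hA hy' ▸ hx
  exact this

theorem coatom_re {r : V → V → Prop} {Z : Set V} (hA : Atom r Zᶜ) {x y : V}
    (hx : x ∉ Z) (hy : y ∉ Z) : ReflTransGen r x y :=
  hA _ (closed_idl r y) ⟨y, self_mem_idl r y, hy⟩ hx

theorem coatom_snk {r : V → V → Prop} {Z : Set V} (hZ : Closed r Z) (hA : Atom r Zᶜ) {x : V}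
    (hx : x ∉ Z) : Snk r x := by
  intro y hy
  have hy' : y ∉ Z := fun h => hx (closed_re hZ hy h)
  exact coatom_re hA hy' hx

theorem coatom_flt {r : V → V → Prop} {Z : Set V} (hZ : Closed r Z) (hA : Atom r Zᶜ) {x : V}
    (hx : x ∉ Z) : Z = (Flt r x)ᶜ := by
  ext y
  constructor
  · intro hy h
    exact hx (closed_re hZ h hy)
  · intro hy
    by_contra hyZ
    exact hy (coatom_re hA hx hyZ)

theorem exists_src [Finite V] (r : V → V → Prop) (x : V) :
    ∃ u, Src r u ∧ ReflTransGen r u x := by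
  classical
  obtain ⟨u, hu, hmin⟩ := Set.exists_min_image (Idl r x) (fun y => (Idl r y).ncard)
    (Set.toFinite _) ⟨x, self_mem_idl r x⟩
  refine ⟨u, ?_, hu⟩
  intro y hy
  have hyx : y ∈ Idl r x := ReflTransGen.trans hy hu
  have hsub : Idl r y ⊆ Idl r u := fun z hz => ReflTransGen.trans hz hy
  have hcard : (Idl r u).ncard ≤ (Idl r y).ncard := hmin y hyx
  have heq : Idl r y = Idl r u := Set.eq_of_subset_of_ncard_le hsub hcard (Set.toFinite _)
  exact (idl_eq_iff.1 heq).2

theorem re_swap {r : V → V → Prop} {x y : V} :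
    ReflTransGen (fun a b => r b a) x y ↔ ReflTransGen r y x := by
  have := @Relation.reflTransGen_swap V r x y
  exact this

theorem exists_snk [Finite V] (r : V → V → Prop) (x : V) :
    ∃ w, Snk r w ∧ ReflTransGen r x w := by
  obtain ⟨u, hu, hx⟩ := exists_src (fun a b => r b a) x
  refine ⟨u, ?_, re_swap.1 hx⟩
  intro y hy
  exact re_swap.1 (hu y (re_swap.2 hy))

/-- contraction of a non-atomic set decreases the number of classes -/
theorem ncl_contr_lt [Finite V] {r : V → V → Prop} {Z : Set V} {x y : V} (hx : x ∈ Z) (hy : y ∈ Z)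
    (hxy : ¬ ReflTransGen r x y) : ncl (Contr r Z) < ncl r := by
  classical
  have mono : ∀ a b, ReflTransGen r a b → ReflTransGen (Contr r Z) a b := by
    intro a b h
    exact ReflTransGen.mono (fun a b hab => Or.inl hab) _ _ h
  -- the map on ideals
  let f : Set V → Set V := fun U => if h : ∃ a, Idl r a = U then Idl (Contr r Z) h.choose else ∅
  have hf : ∀ a, f (Idl r a) = Idl (Contr r Z) a := by
    intro a
    have h : ∃ b, Idl r b = Idl r a := ⟨a, rfl⟩
    have h1 : f (Idl r a) = Idl (Contr r Z) h.choose := by simp only [f, dif_pos h]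
    rw [h1]
    have h2 := idl_eq_iff.1 h.choose_spec
    exact idl_eq_iff.2 ⟨mono _ _ h2.1, mono _ _ h2.2⟩
  have himg : Set.range (Idl (Contr r Z)) = f '' Set.range (Idl r) := by
    ext U
    constructor
    · rintro ⟨a, rfl⟩
      exact ⟨_, ⟨a, rfl⟩, hf a⟩
    · rintro ⟨_, ⟨a, rfl⟩, rfl⟩
      exact ⟨a, (hf a).symm⟩
  have hle : ncl (Contr r Z) ≤ ncl r := by
    unfold ncl
    rw [himg]
    exact Set.ncard_image_le (Set.toFinite _)
  refine lt_of_le_of_ne hle ?_
  intro heq
  unfold ncl at heq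
  rw [himg] at heq
  have hinj := Set.injOn_of_ncard_image_eq heq (Set.toFinite _)
  have h1 : f (Idl r x) = f (Idl r y) := by
    rw [hf, hf]
    exact idl_eq_iff.2 ⟨ReflTransGen.single (Or.inr ⟨hx, hy⟩),
      ReflTransGen.single (Or.inr ⟨hy, hx⟩)⟩
  have h2 := hinj ⟨x, rfl⟩ ⟨y, rfl⟩ h1
  exact hxy (idl_eq_iff.1 h2).1

theorem ncl_le_card [Finite V] (r : V → V → Prop) : ncl r ≤ Nat.card V := by
  unfold ncl
  rw [← Set.image_univ]
  refine (Set.ncard_image_le (Set.toFinite _)).trans ?_
  rw [Set.ncard_univ]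

/-! ### duality -/

/-- reversed hop relation -/
def opr (r : V → V → Prop) (a b : V) : Prop := r b a

theorem opr_re {r : V → V → Prop} {x y : V} :
    ReflTransGen (opr r) x y ↔ ReflTransGen r y x := re_swap

theorem closed_opr {r : V → V → Prop} {Z : Set V} : Closed (opr r) Zᶜ ↔ Closed r Z := by
  constructor
  · intro h x y hxy hy
    by_contra hx
    exact h y x hxy hx hy
  · intro h x y hxy hy hx
    exact hy (h y x hxy hx)

theorem closed_opr' {r : V → V → Prop} {Z : Set V} : Closed (opr r) Z ↔ Closed r Zᶜ := by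
  have := @closed_opr V r Zᶜ
  rwa [compl_compl] at this

theorem ent_opr {I : Type} {tl hd : I → V} {Z : Set V} : Ent hd tl Zᶜ = Ent tl hd Z := by
  ext i
  simp only [Ent, Set.mem_ofPred_eq, Set.mem_compl_iff, not_not]
  tauto

theorem compl_ne_univ' {Z : Set V} (h : Z.Nonempty) : Zᶜ ≠ Set.univ := by
  rintro h'
  obtain ⟨x, hx⟩ := h
  have : x ∈ Zᶜ := h' ▸ Set.mem_univ x
  exact this hx

theorem compl_nonempty' {Z : Set V} (h : Z ≠ Set.univ) : Zᶜ.Nonempty :=
  Set.nonempty_compl.2 h

theorem valid_opr {I : Type} {r : V → V → Prop} {tl hd : I → V} {k : ℕ} :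
    Valid (opr r) hd tl k ↔ Valid r tl hd k := by
  constructor
  · intro h Z hZ hne hu
    have := h Zᶜ (closed_opr.2 hZ) (compl_nonempty' hu) (compl_ne_univ' hne)
    rwa [ent_opr] at this
  · intro h Z hZ hne hu
    have := h Zᶜ (closed_opr'.1 hZ) (compl_nonempty' hu) (compl_ne_univ' hne)
    rw [← ent_opr, compl_compl] at this
    exact this

theorem good_opr {I : Type} {r : V → V → Prop} {tl hd : I → V} {k : ℕ} {c : I → Fin k} :
    Good (opr r) hd tl c ↔ Good r tl hd c := by
  constructor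
  · intro h Z hZ hne hu j
    obtain ⟨i, hi, h1, h2⟩ := h Zᶜ (closed_opr.2 hZ) (compl_nonempty' hu) (compl_ne_univ' hne) j
    exact ⟨i, hi, not_not.1 h2, h1⟩
  · intro h Z hZ hne hu j
    obtain ⟨i, hi, h1, h2⟩ := h Zᶜ (closed_opr'.1 hZ) (compl_nonempty' hu) (compl_ne_univ' hne) j
    exact ⟨i, hi, not_not.1 h2, h1⟩

theorem src_opr {r : V → V → Prop} {x : V} : Src (opr r) x ↔ Snk r x := by
  constructor
  · intro h y hy
    exact opr_re.1 (h y (opr_re.2 hy))
  · intro h y hy
    exact opr_re.2 (h y (opr_re.1 hy))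

theorem snk_opr {r : V → V → Prop} {x : V} : Snk (opr r) x ↔ Src r x := by
  constructor
  · intro h y hy
    exact opr_re.1 (h y (opr_re.2 hy))
  · intro h y hy
    exact opr_re.2 (h y (opr_re.1 hy))

theorem atom_opr {r : V → V → Prop} {Z : Set V} : Atom (opr r) Z ↔ Atom r Z := by
  constructor
  · intro h W hW hne
    by_contra hsub
    obtain ⟨x, hxZ, hxW⟩ := Set.not_subset.1 hsub
    obtain ⟨y, hyW, hyZ⟩ := hne
    exact h Wᶜ (closed_opr.2 hW) ⟨x, hxW, hxZ⟩ hyZ hyW
  · intro h W hW hne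
    by_contra hsub
    obtain ⟨x, hxZ, hxW⟩ := Set.not_subset.1 hsub
    obtain ⟨y, hyW, hyZ⟩ := hne
    exact h Wᶜ (closed_opr'.1 hW) ⟨x, hxW, hxZ⟩ hyZ hyW

end GW
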