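import Pool.Agent.GW.Stmts

/-!
# The splitting step `k → 2` (module Split)
-/

namespace GW

open Relation

/-- a reduced instance with a sub-family of its items, as a general instance -/
def ST.restrG {S T I J : Type} (g : ST S T I) (f : J → I) : GInst (S ⊕ T) J where
  r := g.r
  s := Sum.inl g.s
  t := Sum.inr g.t
  tl := fun j => g.tl (f j)
  hd := fun j => g.hd (f j)
  ss := by
    intro y
    cases y with
    | inl u =>
      exact ⟨Sum.inr g.t, ReflTransGen.single ⟨u, g.t, rfl, rfl, g.Bt u⟩,
        ReflTransGen.single ⟨g.s, g.t, rfl, rfl, g.Bt g.s⟩⟩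
    | inr w =>
      exact ⟨Sum.inr w, ReflTransGen.refl, ReflTransGen.single ⟨g.s, w, rfl, rfl, g.Bs w⟩⟩
  tt := by
    intro x
    cases x with
    | inl u =>
      exact ⟨Sum.inl u, ReflTransGen.refl, ReflTransGen.single ⟨u, g.t, rfl, rfl, g.Bt u⟩⟩
    | inr w =>
      exact ⟨Sum.inl g.s, ReflTransGen.single ⟨g.s, w, rfl, rfl, g.Bs w⟩,
        ReflTransGen.single ⟨g.s, g.t, rfl, rfl, g.Bt g.s⟩⟩
  kind := by
    intro j
    rcases g.kind (f j) with ⟨u, w, hB, h1, h2⟩ | ⟨u, v, h1, h2⟩ | ⟨w, w', h1, h2⟩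
    · left
      rw [h1, h2]
      exact ReflTransGen.single ⟨u, w, rfl, rfl, hB⟩
    · right; left
      rw [h1, h2]
      exact ⟨ReflTransGen.single ⟨u, g.t, rfl, rfl, g.Bt u⟩,
        ReflTransGen.single ⟨v, g.t, rfl, rfl, g.Bt v⟩⟩
    · right; right
      rw [h1, h2]
      exact ⟨ReflTransGen.single ⟨g.s, w', rfl, rfl, g.Bs w'⟩,
        ReflTransGen.single ⟨g.s, w, rfl, rfl, g.Bs w⟩⟩

theorem split_proof : Stmt_Split := by
  intro k S T I _ _ _ g h2 e u w he1 he2 g' hs ht hB hsame e1 e2 e3 e4 hc
  obtain ⟨c, hc⟩ := hc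
  have hr : g'.r = g.r := by
    unfold ST.r
    rw [hB]
  rw [hr] at hc
  -- facts on closed sets
  have hsZ : ∀ Z : Set (S ⊕ T), Closed g.r Z → Sum.inl g.s ∉ Z → ∀ w', Sum.inr w' ∉ Z := by
    intro Z hZ hs' w' hw'
    exact hs' (hZ _ _ ⟨g.s, w', rfl, rfl, g.Bs w'⟩ hw')
  have htZ : ∀ Z : Set (S ⊕ T), Closed g.r Z → Sum.inr g.t ∈ Z → ∀ u', Sum.inl u' ∈ Z := by
    intro Z hZ ht' u'
    exact hZ _ _ ⟨u', g.t, rfl, rfl, g.Bt u'⟩ ht'
  -- the item `some e` entering Z gives `e`
  have hsome : ∀ Z : Set (S ⊕ T), Closed g.r Z → g'.hd (some e) ∈ Z → g'.tl (some e) ∉ Z →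
      g.hd e ∈ Z ∧ g.tl e ∉ Z := by
    intro Z hZ h1 h3
    rw [e2] at h1
    rw [e1] at h3
    rw [he1, he2]
    exact ⟨h1, hsZ Z hZ h3 w⟩
  have hnone : ∀ Z : Set (S ⊕ T), Closed g.r Z → g'.hd none ∈ Z → g'.tl none ∉ Z →
      g.hd e ∈ Z ∧ g.tl e ∉ Z := by
    intro Z hZ h1 h3
    rw [e4] at h1
    rw [e3] at h3
    rw [he1, he2]
    exact ⟨htZ Z hZ h1 u, h3⟩
  have hnotboth : ∀ Z : Set (S ⊕ T), Closed g.r Z → g'.tl (some e) ∉ Z → g'.hd none ∉ Z := by
    intro Z hZ h1 h3
    rw [e1] at h1
    rw [e4] at h3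
    exact h1 (htZ Z hZ h3 g.s)
  by_cases hab : c (some e) = c none
  · refine ⟨fun i => c (some i), ?_⟩
    intro Z hZ hne hun j
    obtain ⟨i', hi1, hi2, hi3⟩ := hc Z hZ hne hun j
    cases i' with
    | none =>
      exact ⟨e, by rw [← hi1]; exact hab, hnone Z hZ hi2 hi3⟩
    | some i =>
      by_cases hie : i = e
      · subst hie
        exact ⟨i, hi1, hsome Z hZ hi2 hi3⟩
      · rw [(hsame i hie).2] at hi2
        rw [(hsame i hie).1] at hi3
        exact ⟨i, hi1, hi2, hi3⟩
  · -- the two classes form a 2-dijoin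
    let P : I → Prop := fun i => c (some i) = c (some e) ∨ c (some i) = c none
    let G : GInst (S ⊕ T) {i // P i} := g.restrG (fun j : {i // P i} => j.1)
    have hval : Valid G.r G.tl G.hd 2 := by
      intro Z hZ hne hun
      have hZ' : Closed g.r Z := hZ
      -- two different items
      have key : ∃ x y : {i // P i}, x ≠ y ∧ (G.hd x ∈ Z ∧ G.tl x ∉ Z) ∧
          (G.hd y ∈ Z ∧ G.tl y ∉ Z) := by
        obtain ⟨ia, ha1, ha2, ha3⟩ := hc Z hZ' hne hun (c (some e))
        obtain ⟨ib, hb1, hb2, hb3⟩ := hc Z hZ' hne hun (c none)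
        -- ia is not none
        cases ia with
        | none => exact absurd ha1.symm hab
        | some i =>
          by_cases hie : i = e
          · subst hie
            have hx := hsome Z hZ' ha2 ha3
            cases ib with
            | none => exact absurd hb2 (hnotboth Z hZ' ha3)
            | some i' =>
              have hi' : i' ≠ i := by
                rintro rfl
                exact hab hb1
              rw [(hsame i' hi').2] at hb2
              rw [(hsame i' hi').1] at hb3
              exact ⟨⟨i, Or.inl rfl⟩, ⟨i', Or.inr hb1⟩,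
                fun hh => hi' (congrArg Subtype.val hh).symm, hx, hb2, hb3⟩
          · rw [(hsame i hie).2] at ha2
            rw [(hsame i hie).1] at ha3
            cases ib with
            | none =>
              have hy := hnone Z hZ' hb2 hb3
              exact ⟨⟨i, Or.inl ha1⟩, ⟨e, Or.inl rfl⟩,
                fun hh => hie (congrArg Subtype.val hh), ⟨ha2, ha3⟩, hy⟩
            | some i' =>
              have hi' : i' ≠ e := by
                rintro rfl
                exact hab hb1
              have hii : i ≠ i' := by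
                rintro rfl
                exact hab (ha1.symm.trans hb1)
              rw [(hsame i' hi').2] at hb2
              rw [(hsame i' hi').1] at hb3
              exact ⟨⟨i, Or.inl ha1⟩, ⟨i', Or.inr hb1⟩,
                fun hh => hii (congrArg Subtype.val hh), ⟨ha2, ha3⟩, hb2, hb3⟩
      obtain ⟨x, y, hxy, hx, hy⟩ := key
      have hsub : ({x, y} : Set {i // P i}) ⊆ Ent G.tl G.hd Z := by
        intro z hz
        rcases hz with rfl | hz
        · exact hx
        · have : z = y := hz
          subst this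
          exact hy
      rw [← Set.ncard_pair hxy]
      exact Set.ncard_le_ncard hsub (Set.toFinite _)
    obtain ⟨c2, hc2⟩ := h2 _ _ G hval
    classical
    refine ⟨fun i => if h : P i then (if c2 ⟨i, h⟩ = 0 then c (some e) else c none)
      else c (some i), ?_⟩
    intro Z hZ hne hun j
    by_cases hja : j = c (some e)
    · obtain ⟨x, hx1, hx2, hx3⟩ := hc2 Z hZ hne hun 0
      refine ⟨x.1, ?_, hx2, hx3⟩
      beta_reduce
      rw [dif_pos x.2, if_pos hx1, hja]
    · by_cases hjb : j = c none
      · obtain ⟨x, hx1, hx2, hx3⟩ := hc2 Z hZ hne hun 1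
        refine ⟨x.1, ?_, hx2, hx3⟩
        have hx1' : c2 ⟨x.1, x.2⟩ = 1 := hx1
        have h01 : ¬ c2 ⟨x.1, x.2⟩ = 0 := by
          rw [hx1']
          decide
        beta_reduce
        rw [dif_pos x.2, if_neg h01, hjb]
      · obtain ⟨i', hi1, hi2, hi3⟩ := hc Z hZ hne hun j
        cases i' with
        | none => exact absurd hi1.symm hjb
        | some i =>
          have hie : i ≠ e := by
            rintro rfl
            exact hja hi1.symm
          rw [(hsame i hie).2] at hi2
          rw [(hsame i hie).1] at hi3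
          refine ⟨i, ?_, hi2, hi3⟩
          have hP : ¬ P i := by
            rintro (h | h)
            · exact hja (hi1.symm.trans h)
            · exact hjb (hi1.symm.trans h)
          beta_reduce
          rw [dif_neg hP, hi1]

end GW
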