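import Pool.Agent.GW.StStep
import Pool.Agent.GW.Split
import Pool.Agent.GW.Base

/-!
# The outer part: reduction of the problem to Stmt_Step2 (or Stmt_Two)
-/

namespace GW

open Relation Set

section

variable {S T I : Type}

open Classical in
/-- the split instance -/
noncomputable def ST.split (g : ST S T I) (e : I) (u : S) (w : T) (_hne : True) :
    ST S T (Option I) where
  s := g.s
  t := g.t
  B := g.B
  Bs := g.Bs
  Bt := g.Bt
  tl := fun j => match j with
    | none => Sum.inr w
    | some i => if i = e then Sum.inl g.s else g.tl i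
  hd := fun j => match j with
    | none => Sum.inr g.t
    | some i => if i = e then Sum.inl u else g.hd i
  kind := by
    intro j
    rcases j with _ | i
    · right; right
      exact ⟨w, g.t, rfl, rfl⟩
    · by_cases hi : i = e
      · right; left
        exact ⟨u, g.s, by simp [hi], by simp [hi]⟩
      · rcases g.kind i with ⟨a, b, hB, h1, h2⟩ | ⟨a, b, h1, h2⟩ | ⟨a, b, h1, h2⟩
        · left; exact ⟨a, b, hB, by simp [hi, h1], by simp [hi, h2]⟩
        · right; left; exact ⟨a, b, by simp [hi, h1], by simp [hi, h2]⟩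
        · right; right; exact ⟨a, b, by simp [hi, h1], by simp [hi, h2]⟩

theorem hyp_of_two {k : ℕ} (hk : 1 ≤ k) (h2 : StmtG 2) : Hyp k := by
  classical
  intro S T I _ _ _ g hV hE _ hP hA _ _ hK
  by_cases hKint : g.Kint = ∅
  · refine Base_proof k S T I g hk hV hE hKint ?_
    intro u w hB
    rcases hA u w hB with h | h | ⟨i, h3, h4⟩
    · exact Or.inl h
    · exact Or.inr h
    · by_contra hcon
      push Not at hcon
      have : i ∈ g.Kint := ⟨u, w, h3, h4, hcon.1, hcon.2⟩
      rw [hKint] at this
      exact this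
  · obtain ⟨e, u, w, h3, h4, h5, h6⟩ := Set.nonempty_iff_ne_empty.2 hKint
    let g' := g.split e u w trivial
    have hse1 : g'.tl (some e) = Sum.inl g.s := by simp [g', ST.split]
    have hse2 : g'.hd (some e) = Sum.inl u := by simp [g', ST.split]
    have hsi : ∀ i, i ≠ e → g'.tl (some i) = g.tl i ∧ g'.hd (some i) = g.hd i := by
      intro i hi
      simp [g', ST.split, hi]
    refine split_proof k S T I g h2 e u w h3 h4 g' rfl rfl rfl hsi hse1 hse2 rfl rfl ?_
    apply hK (Option I) g' rfl rfl rfl
    · intro Z hZ hne hu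
      have hZ' : Closed g.r Z := hZ
      have hk' := hV Z hZ' hne hu
      have hinj : Function.Injective (some : I → Option I) := Option.some_injective I
      by_cases he : e ∈ Ent g.tl g.hd Z
      · have hue : Sum.inl u ∈ Z := h4 ▸ he.1
        have hwe : Sum.inr w ∉ Z := h3 ▸ he.2
        have hsub0 : some '' (Ent g.tl g.hd Z \ {e}) ⊆ Ent g'.tl g'.hd Z := by
          rintro _ ⟨i, ⟨hi1, hi2⟩, rfl⟩
          have hie : i ≠ e := hi2
          exact ⟨by rw [(hsi i hie).2]; exact hi1.1, by rw [(hsi i hie).1]; exact hi1.2⟩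
        have hc0 : (some '' (Ent g.tl g.hd Z \ {e})).ncard = (Ent g.tl g.hd Z).ncard - 1 := by
          rw [Set.ncard_image_of_injective _ hinj, Set.ncard_sdiff_singleton_of_mem he]
        by_cases hs : Sum.inl g.s ∈ Z
        · by_cases ht : Sum.inr g.t ∈ Z
          · -- none enters
            have hsub : insert none (some '' (Ent g.tl g.hd Z \ {e})) ⊆ Ent g'.tl g'.hd Z := by
              rintro j (rfl | hj)
              · exact ⟨ht, hwe⟩
              · exact hsub0 hj
            have h7 := Set.ncard_le_ncard hsub (Set.toFinite _)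
            rw [Set.ncard_insert_of_notMem (by rintro ⟨i, _, h⟩; cases h) (Set.toFinite _),
              hc0] at h7
            omega
          · have h7 := Set.ncard_le_ncard hsub0 (Set.toFinite _)
            rw [hc0] at h7
            have h8 : (Ent g.tl g.hd Z).ncard ≠ k := by
              intro h8
              rcases hP Z hZ' hne hu h8 with ⟨a, ha⟩ | ⟨b, hb⟩
              · rw [ha] at hs hue
                have h9 : g.s = a := Sum.inl_injective hs
                have h10 : u = a := Sum.inl_injective hue
                exact h5 (h10.trans h9.symm)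
              · have h9 : g.t = b := by
                  by_contra h9
                  apply ht
                  rw [hb]
                  exact fun h => h9 (Sum.inr_injective h)
                have h10 : w = b := by
                  by_contra h9
                  apply hwe
                  rw [hb]
                  exact fun h => h9 (Sum.inr_injective h)
                exact h6 (h10.trans h9.symm)
            omega
        · have hsub : some '' (Ent g.tl g.hd Z) ⊆ Ent g'.tl g'.hd Z := by
            rintro _ ⟨i, hi, rfl⟩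
            by_cases hie : i = e
            · subst hie
              exact ⟨by rw [hse2]; exact hue, by rw [hse1]; exact hs⟩
            · exact ⟨by rw [(hsi i hie).2]; exact hi.1, by rw [(hsi i hie).1]; exact hi.2⟩
          have h7 := Set.ncard_le_ncard hsub (Set.toFinite _)
          rw [Set.ncard_image_of_injective _ hinj] at h7
          omega
      · have hsub : some '' (Ent g.tl g.hd Z) ⊆ Ent g'.tl g'.hd Z := by
          rintro _ ⟨i, hi, rfl⟩
          have hie : i ≠ e := fun h => he (h ▸ hi)
          exact ⟨by rw [(hsi i hie).2]; exact hi.1, by rw [(hsi i hie).1]; exact hi.2⟩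
        have h7 := Set.ncard_le_ncard hsub (Set.toFinite _)
        rw [Set.ncard_image_of_injective _ hinj] at h7
        omega
    · have hsub : g'.Kint ⊆ some '' (g.Kint \ {e}) := by
        rintro j ⟨a, b, ha, hb, hc, hd⟩
        rcases j with _ | i
        · cases hb
        · by_cases hie : i = e
          · subst hie
            rw [hse1] at ha
            cases ha
          · rw [(hsi i hie).1] at ha
            rw [(hsi i hie).2] at hb
            exact ⟨i, ⟨⟨a, b, ha, hb, hc, hd⟩, hie⟩, rfl⟩
      have h7 := Set.ncard_le_ncard hsub (Set.toFinite _)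
      have he : e ∈ g.Kint := ⟨u, w, h3, h4, h5, h6⟩
      rw [Set.ncard_image_of_injective _ (Option.some_injective I),
        Set.ncard_sdiff_singleton_of_mem he] at h7
      have h8 : 0 < g.Kint.ncard := (Set.ncard_pos (Set.toFinite _)).2 ⟨e, he⟩
      omega

theorem stmtG_all (h2 : StmtG 2) {k : ℕ} (hk : 1 ≤ k) : StmtG k :=
  stmtG_of_hyp hk (hyp_of_two hk h2)

theorem problem_of_stmtG (h : ∀ k, 1 ≤ k → StmtG k) : Stmt_Problem := by
  classical
  intro V A _ _ src tgt hac s t hs hss ht htt k hk F hF
  let r := Arc src tgt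
  have hSnk : ∀ w, Snk r w → ∀ a, src a ≠ w := by
    intro w hw a ha
    have h1 : r w (tgt a) := ⟨a, ha, rfl⟩
    have h2 := hw _ (ReflTransGen.single h1)
    exact hac w (TransGen.head' h1 h2)
  have hSrc : ∀ w, Src r w → ∀ a, tgt a ≠ w := by
    intro w hw a ha
    have h1 : r (src a) w := ⟨a, rfl, ha⟩
    have h2 := hw _ (ReflTransGen.single h1)
    exact hac w (TransGen.tail' h2 h1)
  let g : GInst V {a // a ∈ F} :=
    { r := r
      s := s
      t := t
      tl := fun i => tgt i.1
      hd := fun i => src i.1
      ss := by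
        intro y
        obtain ⟨w, hw, hyw⟩ := exists_snk r y
        exact ⟨w, hyw, hss w (hSnk w hw)⟩
      tt := by
        intro x
        obtain ⟨w, hw, hyw⟩ := exists_src r x
        exact ⟨w, hyw, htt w (hSrc w hw)⟩
      kind := fun i => Or.inl (ReflTransGen.single ⟨i.1, rfl, rfl⟩) }
  have hcl : ∀ Z : Set V, Closed r Z ↔ ∀ a, tgt a ∈ Z → src a ∈ Z := by
    intro Z
    constructor
    · intro h a ha
      exact h _ _ ⟨a, rfl, rfl⟩ ha
    · rintro h x y ⟨a, rfl, rfl⟩ hy
      exact h a hy
  obtain ⟨c, hc⟩ := h k hk V {a // a ∈ F} g (by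
    intro Z hZ hne hu
    have h1 := hF Z ⟨hne, hu, (hcl Z).1 hZ⟩
    have h2 : Subtype.val '' (Ent g.tl g.hd Z) = F ∩ {a | src a ∈ Z ∧ tgt a ∉ Z} := by
      ext a
      constructor
      · rintro ⟨i, hi, rfl⟩
        exact ⟨i.2, hi⟩
      · rintro ⟨ha, hb⟩
        exact ⟨⟨a, ha⟩, hb, rfl⟩
    rw [← h2, Set.ncard_image_of_injective _ Subtype.val_injective] at h1
    exact h1)
  refine ⟨fun a => if h : a ∈ F then c ⟨a, h⟩ else ⟨0, hk⟩, ?_⟩
  intro j U hU
  obtain ⟨i, h1, h2, h3⟩ := hc U ((hcl U).2 hU.2.2) hU.1 hU.2.1 j
  rw [Nat.one_le_iff_ne_zero, ← Nat.pos_iff_ne_zero, Set.ncard_pos (Set.toFinite _)]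
  refine ⟨i.1, ⟨i.2, ?_⟩, h2, h3⟩
  show (if h : i.1 ∈ F then c ⟨i.1, h⟩ else ⟨0, hk⟩) = j
  rw [dif_pos i.2]
  exact h1

theorem outer_proof : Stmt_Outer := fun h =>
  problem_of_stmtG fun _ hk => stmtG_all (stmtG_two' h) hk

theorem outer_step (h : Stmt_Step2) : Stmt_Problem :=
  problem_of_stmtG fun _ hk => stmtG_all (stmtG_two h) hk

end

end GW
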