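import Pool.Agent.Helper7.Dijoin

/-!
# MP_27938c_co, a partial answer for every k

Digraph `D` with vertex set `V` and arc set `A`, super-source `s`, super-sink `t`, `F` a k-dijoin.
If the sources can be ranked so that every source `u` other than `s` has at least `k` arcs of `F`
leaving it whose heads can be reached from sources of smaller rank, and dually for the sinks, then
`F` can be partitioned into `k` dijoins.
-/

namespace Pool.Agent.Results.MP_27938c_co.RankedEnds

open Pool.Agent.Helper7.Dijoin

variable {V A : Type*} [Fintype V] [DecidableEq V] [Fintype A] [DecidableEq A]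

theorem result (src dst : A → V) (s t : V) (k : ℕ) (hk : 1 ≤ k) (F : Finset A)
    (hs : IsSuperSource src dst s) (ht : IsSuperSink src dst t)
    (h1 : ∀ v, ∃ u, IsSource dst u ∧ Reach src dst u v)
    (h2 : ∀ v, ∃ w, IsSink src w ∧ Reach src dst v w)
    (hF : IsKDijoin src dst k F)
    (r : V → ℕ)
    (hr : ∀ u, IsSource dst u → u ≠ s → ∃ G : Finset A, G ⊆ F ∧ G.card = k ∧
      ∀ a ∈ G, src a = u ∧ ∃ v, IsSource dst v ∧ r v < r u ∧ Reach src dst v (dst a))
    (r' : V → ℕ)
    (hr' : ∀ w, IsSink src w → w ≠ t → ∃ G : Finset A, G ⊆ F ∧ G.card = k ∧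
      ∀ a ∈ G, dst a = w ∧ ∃ v, IsSink src v ∧ r' v < r' w ∧ Reach src dst (src a) v) :
    CanPartition src dst k F := by
  obtain ⟨k, rfl⟩ : ∃ m, k = m + 1 := ⟨k - 1, by omega⟩
  exact main src dst s t k F hs ht h1 h2 hF r hr r' hr'

end Pool.Agent.Results.MP_27938c_co.RankedEnds
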