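import Pool.Agent.GW.LemmaE

/-!
# The induction over reduced instances
-/

namespace GW

open Relation Set

/-- the induction step, for a general `k` -/
def Hyp (k : ℕ) : Prop :=
  ∀ (S T I : Type) [Finite S] [Finite T] [Finite I] (g : ST S T I),
    Valid g.r g.tl g.hd k → g.Exact k → (∀ i, g.tl i ≠ g.hd i) → g.P1 k → g.Anti →
    Col k (Nat.card S + Nat.card T) →
    (∀ (I' : Type) [Finite I'] (g' : ST S T I'), g'.s = g.s → g'.t = g.t → g'.B = g.B →
      Valid g'.r g'.tl g'.hd k → g'.Kint.ncard ≤ g.Kint.ncard →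
      g'.Inner.ncard < g.Inner.ncard → ∃ c : I' → Fin k, Good g'.r g'.tl g'.hd c) →
    (∀ (I' : Type) [Finite I'] (g' : ST S T I'), g'.s = g.s → g'.t = g.t → g'.B = g.B →
      Valid g'.r g'.tl g'.hd k → g'.Kint.ncard < g.Kint.ncard →
      ∃ c : I' → Fin k, Good g'.r g'.tl g'.hd c) →
    ∃ c : I → Fin k, Good g.r g.tl g.hd c

variable {S T I : Type}

/-- all K items -/
def ST.Kall (g : ST S T I) : Set I := {i | ∃ u w, g.tl i = Sum.inr w ∧ g.hd i = Sum.inl u}

/-- the hops as a set -/
def ST.BB (g : ST S T I) : Set (S × T) := {p | g.B p.1 p.2}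

/-- removal of an item -/
def ST.rem (g : ST S T I) (i : I) : ST S T {j : I // j ≠ i} where
  s := g.s
  t := g.t
  B := g.B
  Bs := g.Bs
  Bt := g.Bt
  tl := fun j => g.tl j.1
  hd := fun j => g.hd j.1
  kind := fun j => g.kind j.1

open Classical in
/-- changing a K item `w → u` into the Y item `w → t` -/
noncomputable def ST.toY (g : ST S T I) (i : I) (w : T) (hw : g.tl i = Sum.inr w) : ST S T I where
  s := g.s
  t := g.t
  B := g.B
  Bs := g.Bs
  Bt := g.Bt
  tl := g.tl
  hd := Function.update g.hd i (Sum.inr g.t)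
  kind := by
    intro j
    by_cases hj : j = i
    · subst hj
      right; right
      exact ⟨w, g.t, hw, Function.update_self _ _ _⟩
    · rw [Function.update_of_ne hj]
      exact g.kind j

open Classical in
/-- changing a K item `w → u` into the X item `s → u` -/
noncomputable def ST.toX (g : ST S T I) (i : I) (u : S) (hu : g.hd i = Sum.inl u) : ST S T I where
  s := g.s
  t := g.t
  B := g.B
  Bs := g.Bs
  Bt := g.Bt
  tl := Function.update g.tl i (Sum.inl g.s)
  hd := g.hd
  kind := by
    intro j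
    by_cases hj : j = i
    · subst hj
      right; left
      exact ⟨u, g.s, Function.update_self _ _ _, hu⟩
    · rw [Function.update_of_ne hj]
      exact g.kind j

theorem ncard_subtype_le [Finite I] {i : I} {A : Set {j : I // j ≠ i}} {B : Set I}
    (h : ∀ j ∈ A, j.1 ∈ B) : A.ncard ≤ B.ncard := by
  rw [← Set.ncard_image_of_injective A Subtype.val_injective]
  apply Set.ncard_le_ncard _ (Set.toFinite _)
  rintro _ ⟨j, hj, rfl⟩
  exact h j hj

/-- everything we know about a non-colourable reduced instance in which the basic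
comparison instances are colourable -/
theorem st_structure [Finite S] [Finite T] [Finite I] {k : ℕ} (hk : 1 ≤ k) (g : ST S T I)
    (hC : ColG k (Nat.card S + Nat.card T)) (hV : Valid g.r g.tl g.hd k)
    (hno : ¬ ∃ c : I → Fin k, Good g.r g.tl g.hd c)
    (small : ∀ (I' : Type) [Finite I'] (g' : ST S T I'), g'.s = g.s → g'.t = g.t → g'.B = g.B →
      g'.Kint.ncard ≤ g.Kint.ncard → g'.Inner.ncard ≤ g.Inner.ncard →
      Nat.card I' + g'.Kall.ncard < Nat.card I + g.Kall.ncard → Valid g'.r g'.tl g'.hd k →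
      ∃ c : I' → Fin k, Good g'.r g'.tl g'.hd c) :
    g.Exact k ∧ (∀ i, g.tl i ≠ g.hd i) ∧ g.P1 k := by
  classical
  have hNC : NC g.r (Sum.inl g.s) (Sum.inr g.t) g.tl g.hd k := ⟨g.isG, hV, hno⟩
  have hP : PP g.r (Sum.inl g.s) (Sum.inr g.t) k := by
    apply pp_of_ih
    intro r' hr' s t I' _ tl' hd' hG' hV'
    exact hC (S ⊕ T) I' r' s t tl' hd' (lt_of_lt_of_le hr' g.ncl_le) hG' hV'
  have hrem : ∀ i : I, ¬ NC g.r (Sum.inl g.s) (Sum.inr g.t)
      (fun j : {j : I // j ≠ i} => g.tl j.1) (fun j : {j : I // j ≠ i} => g.hd j.1) k := by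
    intro i h
    refine h.2.2 (small _ (g.rem i) rfl rfl rfl ?_ ?_ ?_ h.2.1)
    · exact ncard_subtype_le fun j hj => hj
    · exact ncard_subtype_le fun j hj => hj
    · have h1 : (g.rem i).Kall.ncard ≤ g.Kall.ncard := ncard_subtype_le fun j hj => hj
      have h2 := card_rem_lt i
      omega
  have hs : Src g.r (Sum.inl g.s) := (g.src_iff _).2 ⟨_, rfl⟩
  have ht : Snk g.r (Sum.inr g.t) := (g.snk_iff _).2 ⟨_, rfl⟩
  have hKlt : ∀ {I : Type} [Finite I] (g g' : ST S T I) (i : I), i ∈ g.Kall → i ∉ g'.Kall →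
      (∀ j, j ≠ i → j ∈ g'.Kall → j ∈ g.Kall) → g'.Kall.ncard < g.Kall.ncard := by
    intro I _ g g' i h1 h2 h3
    apply Set.ncard_lt_ncard _ (Set.toFinite _)
    refine ⟨fun j hj => ?_, fun h => h2 (h h1)⟩
    by_cases hji : j = i
    · exact absurd (hji ▸ hj) h2
    · exact h3 j hji hj
  have hupd1 : ∀ i : I, Src g.r (g.hd i) → Snk g.r (g.tl i) → ¬ Src g.r (Sum.inr g.t) →
      ¬ NC g.r (Sum.inl g.s) (Sum.inr g.t) g.tl (Function.update g.hd i (Sum.inr g.t)) k := by
    intro i h1 h2 _ h
    obtain ⟨u, hu⟩ := (g.src_iff _).1 h1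
    obtain ⟨w, hw⟩ := (g.snk_iff _).1 h2
    have hni : (g.toY i w hw).hd i = Sum.inr g.t := by
      show Function.update g.hd i (Sum.inr g.t) i = _
      exact Function.update_self _ _ _
    have hnj : ∀ j, j ≠ i → (g.toY i w hw).hd j = g.hd j := by
      intro j hj
      show Function.update g.hd i (Sum.inr g.t) j = _
      exact Function.update_of_ne hj _ _
    refine h.2.2 (small _ (g.toY i w hw) rfl rfl rfl ?_ ?_ ?_ h.2.1)
    · apply Set.ncard_le_ncard _ (Set.toFinite _)
      rintro j ⟨a, b, h3, h4, h5, h6⟩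
      by_cases hj : j = i
      · subst hj
        rw [hni] at h4
        cases h4
      · rw [hnj j hj] at h4
        exact ⟨a, b, h3, h4, h5, h6⟩
    · apply Set.ncard_le_ncard _ (Set.toFinite _)
      rintro j hj'
      by_cases hj : j = i
      · subst hj
        rcases hj' with ⟨a, b, h3, h4, h5⟩ | ⟨a, b, h3, h4, h5⟩
        · rw [hni] at h4
          cases h4
        · rw [hni] at h4
          exact absurd (Sum.inr_injective h4).symm h5
      · rcases hj' with ⟨a, b, h3, h4, h5⟩ | ⟨a, b, h3, h4, h5⟩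
        · rw [hnj j hj] at h4
          exact Or.inl ⟨a, b, h3, h4, h5⟩
        · rw [hnj j hj] at h4
          exact Or.inr ⟨a, b, h3, h4, h5⟩
    · have : (g.toY i w hw).Kall.ncard < g.Kall.ncard := by
        apply hKlt g (g.toY i w hw) i ⟨u, w, hw, hu⟩
        · rintro ⟨a, b, h3, h4⟩
          rw [hni] at h4
          cases h4
        · rintro j hj ⟨a, b, h3, h4⟩
          rw [hnj j hj] at h4
          exact ⟨a, b, h3, h4⟩
      omega
  have hupd2 : ∀ i : I, Src g.r (g.hd i) → Snk g.r (g.tl i) → ¬ Snk g.r (Sum.inl g.s) →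
      ¬ NC g.r (Sum.inl g.s) (Sum.inr g.t) (Function.update g.tl i (Sum.inl g.s)) g.hd k := by
    intro i h1 h2 _ h
    obtain ⟨u, hu⟩ := (g.src_iff _).1 h1
    obtain ⟨w, hw⟩ := (g.snk_iff _).1 h2
    have hni : (g.toX i u hu).tl i = Sum.inl g.s := by
      show Function.update g.tl i (Sum.inl g.s) i = _
      exact Function.update_self _ _ _
    have hnj : ∀ j, j ≠ i → (g.toX i u hu).tl j = g.tl j := by
      intro j hj
      show Function.update g.tl i (Sum.inl g.s) j = _
      exact Function.update_of_ne hj _ _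
    refine h.2.2 (small _ (g.toX i u hu) rfl rfl rfl ?_ ?_ ?_ h.2.1)
    · apply Set.ncard_le_ncard _ (Set.toFinite _)
      rintro j ⟨a, b, h3, h4, h5, h6⟩
      by_cases hj : j = i
      · subst hj
        rw [hni] at h3
        cases h3
      · rw [hnj j hj] at h3
        exact ⟨a, b, h3, h4, h5, h6⟩
    · apply Set.ncard_le_ncard _ (Set.toFinite _)
      rintro j hj'
      by_cases hj : j = i
      · subst hj
        rcases hj' with ⟨a, b, h3, h4, h5⟩ | ⟨a, b, h3, h4, h5⟩
        · rw [hni] at h3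
          exact absurd (Sum.inl_injective h3).symm h5
        · rw [hni] at h3
          cases h3
      · rcases hj' with ⟨a, b, h3, h4, h5⟩ | ⟨a, b, h3, h4, h5⟩
        · rw [hnj j hj] at h3
          exact Or.inl ⟨a, b, h3, h4, h5⟩
        · rw [hnj j hj] at h3
          exact Or.inr ⟨a, b, h3, h4, h5⟩
    · have : (g.toX i u hu).Kall.ncard < g.Kall.ncard := by
        apply hKlt g (g.toX i u hu) i ⟨u, w, hw, hu⟩
        · rintro ⟨a, b, h3, h4⟩
          rw [hni] at h3
          cases h3
        · rintro j hj ⟨a, b, h3, h4⟩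
          rw [hnj j hj] at h3
          exact ⟨a, b, h3, h4⟩
      omega
  refine ⟨⟨fun u => ?_, fun w => ?_⟩, ?_, ?_⟩
  · rw [← g.idl_inl u]
    exact exact_src' hk hP hNC hrem hupd1 ht ((g.src_iff _).2 ⟨u, rfl⟩)
  · rw [← g.flt_inr w]
    exact exact_snk' hk hP hNC hrem hupd2 hs ((g.snk_iff _).2 ⟨w, rfl⟩)
  · intro i hi
    obtain ⟨Z, _, _, _, _, h1, h2⟩ := minT' hk hNC hrem i
    exact h2 (hi ▸ h1)
  · intro Z hZ hne hu hc
    rcases hP I g.tl g.hd hNC Z hZ hne hu hc with h | h
    · left
      obtain ⟨x, hx⟩ := hne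
      obtain ⟨u, hu'⟩ : ∃ u, Sum.inl u ∈ Z := by
        rcases x with u | w
        · exact ⟨u, hx⟩
        · exact ⟨g.s, hZ _ _ ⟨g.s, w, rfl, rfl, g.Bs w⟩ hx⟩
      exact ⟨u, by rw [atom_idl hZ h hu', g.idl_inl]⟩
    · right
      obtain ⟨x, hx⟩ := Set.nonempty_compl.2 hu
      obtain ⟨w, hw'⟩ : ∃ w, Sum.inr w ∉ Z := by
        rcases x with u | w
        · exact ⟨g.t, fun h => hx (hZ _ _ ⟨u, g.t, rfl, rfl, g.Bt u⟩ h)⟩
        · exact ⟨w, hx⟩
      exact ⟨w, by rw [coatom_flt hZ h hw', g.flt_inr]⟩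

theorem rmHop_BB_lt [Finite S] [Finite T] (g : ST S T I) (u : S) (w : T) (hB : g.B u w)
    (hu : u ≠ g.s) (hw : w ≠ g.t) (hK : ∀ i, ¬ (g.tl i = Sum.inr w ∧ g.hd i = Sum.inl u)) :
    (g.rmHop u w hu hw hK).BB.ncard < g.BB.ncard := by
  apply Set.ncard_lt_ncard _ (Set.toFinite _)
  refine ⟨fun p hp => hp.1, fun h => ?_⟩
  have : (u, w) ∈ (g.rmHop u w hu hw hK).BB := h hB
  exact this.2 ⟨rfl, rfl⟩

theorem col_of_hyp {k : ℕ} (hk : 1 ≤ k) (H : Hyp k) : ∀ n, Col k n := by
  intro n
  induction n using Nat.strong_induction_on with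
  | _ n ihn =>
    intro S T I _ _ _ g hn hV
    have hCol : Col k (Nat.card S + Nat.card T) := ihn _ hn
    have hC : ColG k (Nat.card S + Nat.card T) :=
      colG_of_exact hk _ fun S' T' I' _ _ _ g' h1 h2 _ => hCol S' T' I' g' h1 h2
    have main : ∀ b q p l : ℕ, ∀ (I : Type) [Finite I] (g : ST S T I),
        g.BB.ncard = b → g.Kint.ncard = q → g.Inner.ncard = p →
        Nat.card I + g.Kall.ncard = l → Valid g.r g.tl g.hd k →
        ∃ c : I → Fin k, Good g.r g.tl g.hd c := by
      intro b
      induction b using Nat.strong_induction_on with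
      | _ b ihb =>
        intro q
        induction q using Nat.strong_induction_on with
        | _ q ihq =>
          intro p
          induction p using Nat.strong_induction_on with
          | _ p ihp =>
            intro l
            induction l using Nat.strong_induction_on with
            | _ l ihl =>
              intro I _ g hb hq hp hl hV
              by_contra hno
              have hBB : ∀ {I' : Type} (g' : ST S T I'), g'.B = g.B → g'.BB.ncard = b := by
                intro I' g' hB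
                rw [← hb]
                unfold ST.BB
                rw [hB]
              have small : ∀ (I' : Type) [Finite I'] (g' : ST S T I'), g'.s = g.s →
                  g'.t = g.t → g'.B = g.B →
                  g'.Kint.ncard ≤ g.Kint.ncard → g'.Inner.ncard ≤ g.Inner.ncard →
                  Nat.card I' + g'.Kall.ncard < Nat.card I + g.Kall.ncard →
                  Valid g'.r g'.tl g'.hd k →
                  ∃ c : I' → Fin k, Good g'.r g'.tl g'.hd c := by
                intro I' _ g' _ _ hB h1 h2 h3 hV'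
                rcases lt_or_eq_of_le h1 with h1 | h1
                · exact ihq _ (hq ▸ h1) _ _ I' g' (hBB g' hB) rfl rfl rfl hV'
                · rcases lt_or_eq_of_le h2 with h2 | h2
                  · exact ihp _ (hp ▸ h2) _ I' g' (hBB g' hB) (h1.trans hq) rfl rfl hV'
                  · exact ihl _ (hl ▸ h3) I' g' (hBB g' hB) (h1.trans hq) (h2.trans hp) rfl hV'
              obtain ⟨hE, hloop, hP1⟩ := st_structure hk g hC hV hno small
              apply hno
              apply H S T I g hV hE hloop hP1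
              · -- Anti
                intro u w hB
                by_contra hcon
                push Not at hcon
                obtain ⟨hu, hw, hK⟩ := hcon
                have hK' : ∀ i, ¬ (g.tl i = Sum.inr w ∧ g.hd i = Sum.inl u) :=
                  fun i h => hK i h.1 h.2
                apply hno
                refine lemmaE g hC hV u w hB hu hw hK' ?_
                intro hV0
                exact ihb _ (hb ▸ rmHop_BB_lt g u w hB hu hw hK') _ _ _ I
                  (g.rmHop u w hu hw hK') rfl rfl rfl rfl hV0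
              · exact hCol
              · intro I' _ g' _ _ hB hV' h1 h2
                rcases lt_or_eq_of_le h1 with h1 | h1
                · exact ihq _ (hq ▸ h1) _ _ I' g' (hBB g' hB) rfl rfl rfl hV'
                · exact ihp _ (hp ▸ h2) _ I' g' (hBB g' hB) (h1.trans hq) rfl rfl hV'
              · intro I' _ g' _ _ hB hV' h1
                exact ihq _ (hq ▸ h1) _ _ I' g' (hBB g' hB) rfl rfl rfl hV'
    exact main _ _ _ _ I g rfl rfl rfl rfl hV

theorem stmtG_of_hyp {k : ℕ} (hk : 1 ≤ k) (H : Hyp k) : StmtG k := by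
  intro V I _ _ g hV
  have hcol := col_of_hyp hk H
  have hC : ColG k (ncl g.r + 1) :=
    colG_of_exact hk _ fun S' T' I' _ _ _ g' h1 h2 _ => hcol _ S' T' I' g' h1 h2
  exact hC V I g.r g.s g.t g.tl g.hd (Nat.lt_succ_self _) ⟨g.ss, g.tt, g.kind⟩ hV

theorem stmtG_two (h : Stmt_Step2) : StmtG 2 := by
  apply stmtG_of_hyp (by norm_num)
  intro S T I _ _ _ g hV hE hl hP hA hC h1 _
  exact h S T I g hV hE hl hP hA hC h1

theorem stmt_two_of_step (h : Stmt_Step2) : Stmt_Two := by
  intro S T I _ _ _ g hV _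
  have hG := g.isG
  exact stmtG_two h (S ⊕ T) I ⟨g.r, Sum.inl g.s, Sum.inr g.t, g.tl, g.hd, hG.ss, hG.tt, hG.kind⟩ hV

theorem stmtG_two' (h : Stmt_Two) : StmtG 2 := by
  intro V I _ _ g hV
  have hC : ColG 2 (ncl g.r + 1) :=
    colG_of_exact (by norm_num) _ fun S' T' I' _ _ _ g' _ h2 h3 => h S' T' I' g' h2 h3
  exact hC V I g.r g.s g.t g.tl g.hd (Nat.lt_succ_self _) ⟨g.ss, g.tt, g.kind⟩ hV

end GW
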