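import Pool.Agent.GW.Order

/-!
# Trimming: a minimal non-colourable general instance has all item ends in source or sink classes,
and all stars are exact
-/

namespace GW

open Relation Set

variable {V : Type}

/-- class conditions for an item system on `r` -/
structure IsG {V I : Type} (r : V → V → Prop) (s t : V) (tl hd : I → V) : Prop where
  ss : ∀ y, ∃ z, ReflTransGen r y z ∧ ReflTransGen r s z
  tt : ∀ x, ∃ z, ReflTransGen r z x ∧ ReflTransGen r z t
  kind : ∀ i, ReflTransGen r (hd i) (tl i) ∨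
    (ReflTransGen r (hd i) t ∧ ReflTransGen r (tl i) t) ∨
    (ReflTransGen r s (hd i) ∧ ReflTransGen r s (tl i))

/-- a valid item system without good colouring -/
def NC {V I : Type} (r : V → V → Prop) (s t : V) (tl hd : I → V) (k : ℕ) : Prop :=
  IsG r s t tl hd ∧ Valid r tl hd k ∧ ¬ ∃ c : I → Fin k, Good r tl hd c

/-- all tight sets of non-colourable systems on `r` are atoms or coatoms -/
def PP {V : Type} (r : V → V → Prop) (s t : V) (k : ℕ) : Prop :=
  ∀ (I : Type) [Finite I] (tl hd : I → V), NC r s t tl hd k →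
    ∀ Z, Closed r Z → Z.Nonempty → Z ≠ Set.univ → (Ent tl hd Z).ncard = k →
      Atom r Z ∨ Atom r Zᶜ

/-- neither source nor sink class -/
def Inn (r : V → V → Prop) (x : V) : Prop := ¬ Src r x ∧ ¬ Snk r x

open Classical in
/-- weight of an item -/
noncomputable def wt (r : V → V → Prop) (a h : V) : ℕ :=
  (if Inn r a then 1 else 0) + (if Inn r h then 1 else 0) + (if Src r h ∧ Snk r a then 1 else 0)

open Classical in
/-- total weight -/
noncomputable def m3 {I : Type} [Finite I] (r : V → V → Prop) (tl hd : I → V) : ℕ :=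
  letI := Fintype.ofFinite I
  ∑ i, wt r (tl i) (hd i)

/-- a minimal non-colourable system on `r` -/
def MinC {V I : Type} [Finite I] (r : V → V → Prop) (s t : V) (tl hd : I → V) (k : ℕ) : Prop :=
  NC r s t tl hd k ∧
    ∀ (I' : Type) [Finite I'] (tl' hd' : I' → V),
      (Nat.card I' < Nat.card I ∨ (Nat.card I' = Nat.card I ∧ m3 r tl' hd' < m3 r tl hd)) →
      ¬ NC r s t tl' hd' k

theorem m3_lt {I : Type} [Finite I] {r : V → V → Prop} {tl hd tl' hd' : I → V} {i : I}
    (h : ∀ j, j ≠ i → tl' j = tl j ∧ hd' j = hd j)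
    (hi : wt r (tl' i) (hd' i) < wt r (tl i) (hd i)) : m3 r tl' hd' < m3 r tl hd := by
  classical
  unfold m3
  let _ := Fintype.ofFinite I
  apply Finset.sum_lt_sum
  · intro j _
    by_cases hj : j = i
    · subst hj; exact hi.le
    · rw [(h j hj).1, (h j hj).2]
  · exact ⟨i, Finset.mem_univ _, hi⟩

theorem m3_eq {I : Type} [Finite I] {r : V → V → Prop} {tl hd tl' hd' : I → V} {i : I}
    (h : ∀ j, j ≠ i → tl' j = tl j ∧ hd' j = hd j)
    (hi : wt r (tl' i) (hd' i) = wt r (tl i) (hd i)) : m3 r tl' hd' = m3 r tl hd := by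
  classical
  unfold m3
  let _ := Fintype.ofFinite I
  apply Finset.sum_congr rfl
  intro j _
  by_cases hj : j = i
  · subst hj; exact hi
  · rw [(h j hj).1, (h j hj).2]

theorem IsG.mono {I : Type} {r r' : V → V → Prop} {s t : V} {tl hd : I → V}
    (hr : ∀ x y, r x y → r' x y) (h : IsG r s t tl hd) : IsG r' s t tl hd := by
  have m : ∀ {a b}, ReflTransGen r a b → ReflTransGen r' a b :=
    fun {a b} hab => ReflTransGen.mono hr _ _ hab
  refine ⟨fun y => ?_, fun x => ?_, fun i => ?_⟩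
  · obtain ⟨z, h1, h2⟩ := h.ss y
    exact ⟨z, m h1, m h2⟩
  · obtain ⟨z, h1, h2⟩ := h.tt x
    exact ⟨z, m h1, m h2⟩
  · rcases h.kind i with h1 | ⟨h1, h2⟩ | ⟨h1, h2⟩
    · exact Or.inl (m h1)
    · exact Or.inr (Or.inl ⟨m h1, m h2⟩)
    · exact Or.inr (Or.inr ⟨m h1, m h2⟩)

/-- items leaving a closed set satisfy the hypothesis of the gluing lemma -/
theorem IsG.leave {I : Type} {r : V → V → Prop} {s t : V} {tl hd : I → V}
    (h : IsG r s t tl hd) {Z : Set V} (hZ : Closed r Z) (i : I) (h1 : tl i ∈ Z) (h2 : hd i ∉ Z) :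
    (∀ W, Closed r W → W ∪ Z = Set.univ → hd i ∈ W → tl i ∈ W) ∨
      (∀ W, Closed r W → W ∩ Z = ∅ → hd i ∈ W → tl i ∈ W) := by
  rcases h.kind i with hk | ⟨hk1, hk2⟩ | ⟨hk1, hk2⟩
  · exact absurd (closed_re hZ hk h1) h2
  · left
    intro W hW hU _
    have ht : t ∉ Z := fun ht => h2 (closed_re hZ hk1 ht)
    have : t ∈ W ∪ Z := hU ▸ Set.mem_univ t
    rcases this with h' | h'
    · exact closed_re hW hk2 h'
    · exact absurd h' ht
  · right
    intro W hW hE hh
    have hs : s ∈ Z := closed_re hZ hk2 h1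
    have hsW : s ∈ W := closed_re hW hk1 hh
    have : s ∈ W ∩ Z := ⟨hsW, hs⟩
    rw [hE] at this
    exact absurd this (Set.notMem_empty s)

theorem valid_contr {I : Type} {r : V → V → Prop} {tl hd : I → V} {k : ℕ} (Z : Set V)
    (h : Valid r tl hd k) : Valid (Contr r Z) tl hd k :=
  fun W hW => h W (closed_contr.1 hW).1

/-- all instances with fewer classes are colourable, hence tight sets are atoms or coatoms -/
theorem pp_of_ih [Finite V] {r : V → V → Prop} {k : ℕ}
    (ih : ∀ (r' : V → V → Prop), ncl r' < ncl r → ∀ (s t : V) (I : Type) [Finite I]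
      (tl hd : I → V), IsG r' s t tl hd → Valid r' tl hd k →
      ∃ c : I → Fin k, Good r' tl hd c) (s t : V) : PP r s t k := by
  intro I _ tl hd hNC Z hZ hne hu hcard
  by_contra hcon
  push Not at hcon
  obtain ⟨hA, hB⟩ := hcon
  unfold Atom at hA hB
  push Not at hA hB
  obtain ⟨W, hW, ⟨y, hyW, hyZ⟩, hsub⟩ := hA
  obtain ⟨x, hxZ, hxW⟩ := Set.not_subset.1 hsub
  have hlt1 : ncl (Contr r Z) < ncl r :=
    ncl_contr_lt hxZ hyZ (fun h => hxW (closed_re hW h hyW))
  obtain ⟨W', hW', ⟨y', hyW', hyZ'⟩, hsub'⟩ := hB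
  obtain ⟨x', hxZ', hxW'⟩ := Set.not_subset.1 hsub'
  have hlt2 : ncl (Contr r Zᶜ) < ncl r :=
    ncl_contr_lt hxZ' hyZ' (fun h => hxW' (closed_re hW' h hyW'))
  obtain ⟨hG, hV, hC⟩ := hNC
  obtain ⟨c1, h1⟩ := ih _ hlt1 s t I tl hd (hG.mono (fun _ _ h => Or.inl h)) (valid_contr Z hV)
  obtain ⟨c2, h2⟩ := ih _ hlt2 s t I tl hd (hG.mono (fun _ _ h => Or.inl h)) (valid_contr Zᶜ hV)
  apply hC
  refine glue (J := Empty) r r (fun _ _ h => h) tl hd Z hZ hne hu s s s s (fun q => q.elim) ?_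
    (fun i a b => hG.leave hZ i a b) (Sum.elim c1 (fun q => q.elim)) ?_
    (Sum.elim c2 (fun q => q.elim)) ?_
  · simp [hcard]
  · intro U hU hne' hu' j
    obtain ⟨i, hi, ha, hb⟩ := h1 U hU hne' hu' j
    exact ⟨Sum.inl i, hi, ha, hb⟩
  · intro U hU hne' hu' j
    obtain ⟨i, hi, ha, hb⟩ := h2 U hU hne' hu' j
    exact ⟨Sum.inl i, hi, ha, hb⟩

/-- if some class is both source and sink then there is only one class -/
theorem both_trivial {I : Type} {r : V → V → Prop} {s t : V} {tl hd : I → V}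
    (h : IsG r s t tl hd) {x : V} (h1 : Src r x) (h2 : Snk r x) {Z : Set V} (hZ : Closed r Z)
    (hne : Z.Nonempty) : Z = Set.univ := by
  obtain ⟨z, hz1, hz2⟩ := h.ss x
  have hzx := h2 z hz1
  have hxs : ReflTransGen r x s := h1 s (hz2.trans hzx)
  obtain ⟨z', hz1', hz2'⟩ := h.tt x
  have hxz' := h1 z' hz1'
  have htx : ReflTransGen r t x := h2 t (hxz'.trans hz2')
  have hall : ∀ y, ReflTransGen r y x := by
    intro y
    obtain ⟨q, hq1, hq2⟩ := h.ss y
    exact hq1.trans (h2 q (hxs.trans hq2))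
  obtain ⟨y, hy⟩ := hne
  obtain ⟨q, hq1, hq2⟩ := h.tt y
  have hqZ : q ∈ Z := closed_re hZ hq1 hy
  have hxZ : x ∈ Z := closed_re hZ (h1 q (hq2.trans htx)) hqZ
  exact Set.eq_univ_of_forall fun y => closed_re hZ (hall y) hxZ

/-! ### duality -/

theorem IsG.op {I : Type} {r : V → V → Prop} {s t : V} {tl hd : I → V}
    (h : IsG r s t tl hd) : IsG (opr r) t s hd tl := by
  refine ⟨fun y => ?_, fun x => ?_, fun i => ?_⟩
  · obtain ⟨z, h1, h2⟩ := h.tt y
    exact ⟨z, opr_re.2 h1, opr_re.2 h2⟩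
  · obtain ⟨z, h1, h2⟩ := h.ss x
    exact ⟨z, opr_re.2 h1, opr_re.2 h2⟩
  · rcases h.kind i with h1 | ⟨h1, h2⟩ | ⟨h1, h2⟩
    · exact Or.inl (opr_re.2 h1)
    · exact Or.inr (Or.inr ⟨opr_re.2 h2, opr_re.2 h1⟩)
    · exact Or.inr (Or.inl ⟨opr_re.2 h2, opr_re.2 h1⟩)

theorem NC.op {I : Type} {r : V → V → Prop} {s t : V} {tl hd : I → V} {k : ℕ}
    (h : NC r s t tl hd k) : NC (opr r) t s hd tl k := by
  refine ⟨h.1.op, valid_opr.2 h.2.1, ?_⟩
  rintro ⟨c, hc⟩
  exact h.2.2 ⟨c, good_opr.1 hc⟩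

theorem opr_opr (r : V → V → Prop) : opr (opr r) = r := rfl

theorem PP.op {r : V → V → Prop} {s t : V} {k : ℕ} (h : PP r s t k) :
    PP (opr r) t s k := by
  intro I _ tl hd hNC Z hZ hne hu hcard
  have hNC' : NC r s t hd tl k := hNC.op
  have := h I hd tl hNC' Zᶜ (closed_opr'.1 hZ) (compl_nonempty' hu) (compl_ne_univ' hne)
    (by rw [ent_opr]; exact hcard)
  rw [compl_compl] at this
  rcases this with h' | h'
  · exact Or.inr (atom_opr.2 h')
  · exact Or.inl (atom_opr.2 h')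

theorem inn_opr {r : V → V → Prop} {x : V} : Inn (opr r) x ↔ Inn r x := by
  unfold Inn
  rw [src_opr, snk_opr]
  tauto

open Classical in
theorem wt_opr {r : V → V → Prop} {a h : V} : wt (opr r) h a = wt r a h := by
  unfold wt
  have h1 : Inn (opr r) h ↔ Inn r h := inn_opr
  have h2 : Inn (opr r) a ↔ Inn r a := inn_opr
  have h3 : (Src (opr r) a ∧ Snk (opr r) h) ↔ (Src r h ∧ Snk r a) := by
    rw [src_opr, snk_opr, and_comm]
  have e1 : (if Inn (opr r) h then 1 else 0) = (if Inn r h then 1 else 0 : ℕ) :=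
    if_congr h1 rfl rfl
  have e2 : (if Inn (opr r) a then 1 else 0) = (if Inn r a then 1 else 0 : ℕ) :=
    if_congr h2 rfl rfl
  have e3 : (if Src (opr r) a ∧ Snk (opr r) h then 1 else 0) =
      (if Src r h ∧ Snk r a then 1 else 0 : ℕ) := if_congr h3 rfl rfl
  rw [e1, e2, e3]
  omega

theorem m3_opr {I : Type} [Finite I] {r : V → V → Prop} {tl hd : I → V} :
    m3 (opr r) hd tl = m3 r tl hd := by
  unfold m3
  exact Finset.sum_congr rfl fun i _ => wt_opr

theorem MinC.op {I : Type} [Finite I] {r : V → V → Prop} {s t : V} {tl hd : I → V} {k : ℕ}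
    (h : MinC r s t tl hd k) : MinC (opr r) t s hd tl k := by
  refine ⟨h.1.op, ?_⟩
  intro I' _ tl' hd' hlt hNC
  refine h.2 I' hd' tl' ?_ hNC.op
  rcases hlt with h' | ⟨h', h''⟩
  · exact Or.inl h'
  · refine Or.inr ⟨h', ?_⟩
    rw [m3_opr (tl := hd') (hd := tl'), m3_opr (tl := tl) (hd := hd)] at h''
    exact h''

/-! ### changing one tail -/

open Classical in
theorem upd_tail_valid {I : Type} [Finite I] {r : V → V → Prop} {tl hd : I → V} {k : ℕ}
    (hV : Valid r tl hd k) (i : I) (v : V)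
    (h : ∀ W, Closed r W → W.Nonempty → W ≠ Set.univ → hd i ∈ W → tl i ∉ W → v ∈ W →
      (Ent tl hd W).ncard ≠ k) : Valid r (Function.update tl i v) hd k := by
  intro W hW hne hu
  by_cases hc : hd i ∈ W ∧ tl i ∉ W ∧ v ∈ W
  · obtain ⟨h1, h2, h3⟩ := hc
    have hk := hV W hW hne hu
    have hk' := h W hW hne hu h1 h2 h3
    have hsub : Ent tl hd W \ {i} ⊆ Ent (Function.update tl i v) hd W := by
      rintro j ⟨⟨hj1, hj2⟩, hj3⟩
      refine ⟨hj1, ?_⟩
      rw [Function.update_of_ne (by simpa using hj3)]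
      exact hj2
    have h4 : (Ent tl hd W \ {i}).ncard = (Ent tl hd W).ncard - 1 :=
      Set.ncard_sdiff_singleton_of_mem ⟨h1, h2⟩
    have h5 := Set.ncard_le_ncard hsub (Set.toFinite _)
    omega
  · have hsub : Ent tl hd W ⊆ Ent (Function.update tl i v) hd W := by
      rintro j ⟨hj1, hj2⟩
      refine ⟨hj1, ?_⟩
      by_cases hj : j = i
      · subst hj
        rw [Function.update_self]
        intro hv
        exact hc ⟨hj1, hj2, hv⟩
      · rw [Function.update_of_ne hj]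
        exact hj2
    exact (hV W hW hne hu).trans (Set.ncard_le_ncard hsub (Set.toFinite _))

open Classical in
theorem upd_tail_good {I : Type} {r : V → V → Prop} {tl hd : I → V} {k : ℕ}
    (i : I) (v : V) (h : ReflTransGen r v (tl i)) {c : I → Fin k}
    (hc : Good r (Function.update tl i v) hd c) : Good r tl hd c := by
  intro W hW hne hu j
  obtain ⟨i', h1, h2, h3⟩ := hc W hW hne hu j
  refine ⟨i', h1, h2, ?_⟩
  by_cases hi : i' = i
  · subst hi
    rw [Function.update_self] at h3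
    exact fun h' => h3 (closed_re hW h h')
  · rwa [Function.update_of_ne hi] at h3

section Main

variable {I : Type} [Finite I] [Finite V] {r : V → V → Prop} {s t : V} {tl hd : I → V} {k : ℕ}

theorem IsG.src_t (h : IsG r s t tl hd) {u : V} (hu : Src r u) : ReflTransGen r u t := by
  obtain ⟨z, h1, h2⟩ := h.tt u
  exact (hu z h1).trans h2

theorem IsG.s_snk (h : IsG r s t tl hd) {w : V} (hw : Snk r w) : ReflTransGen r s w := by
  obtain ⟨z, h1, h2⟩ := h.ss w
  exact h2.trans (hw z h1)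

/-- every item of a system enters a tight set, if no item can be removed -/
theorem minT' (hk : 1 ≤ k) (hNC : NC r s t tl hd k)
    (hrem : ∀ i : I, ¬ NC r s t (fun j : {j : I // j ≠ i} => tl j.1)
      (fun j : {j : I // j ≠ i} => hd j.1) k) (i : I) :
    ∃ Z, Closed r Z ∧ Z.Nonempty ∧ Z ≠ Set.univ ∧ (Ent tl hd Z).ncard = k ∧ i ∈ Ent tl hd Z := by
  classical
  by_contra hcon
  push Not at hcon
  obtain ⟨hG, hV, hC⟩ := hNC
  let I' := {j : I // j ≠ i}
  refine hrem i ⟨⟨hG.ss, hG.tt, ?_⟩, ?_, ?_⟩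
  · intro j; exact hG.kind j.1
  · intro W hW hne hu
    have h1 := hV W hW hne hu
    have himg : (Subtype.val '' (Ent (fun j : I' => tl j.1) (fun j : I' => hd j.1) W)) =
        Ent tl hd W \ {i} := by
      ext j
      constructor
      · rintro ⟨j', hj', rfl⟩
        exact ⟨hj', fun h => j'.2 h⟩
      · rintro ⟨hj, hji⟩
        exact ⟨⟨j, hji⟩, hj, rfl⟩
    have h2 : (Ent (fun j : I' => tl j.1) (fun j : I' => hd j.1) W).ncard =
        (Ent tl hd W \ {i}).ncard := by
      rw [← himg, Set.ncard_image_of_injective _ Subtype.val_injective]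
    rw [h2]
    by_cases hi : i ∈ Ent tl hd W
    · have h3 : (Ent tl hd W).ncard ≠ k := fun h => hcon W hW hne hu h hi
      rw [Set.ncard_sdiff_singleton_of_mem hi]
      omega
    · rw [Set.sdiff_singleton_eq_self hi]
      exact h1
  · rintro ⟨c, hc⟩
    apply hC
    have : Nonempty (Fin k) := ⟨⟨0, hk⟩⟩
    refine ⟨fun j => if h : j ≠ i then c ⟨j, h⟩ else Classical.arbitrary _, ?_⟩
    intro W hW hne hu q
    obtain ⟨j, h1, h2, h3⟩ := hc W hW hne hu q
    refine ⟨j.1, ?_, h2, h3⟩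
    show (if h : j.1 ≠ i then c ⟨j.1, h⟩ else Classical.arbitrary _) = q
    rw [dif_pos j.2]
    exact h1

/-- every item of a minimal system enters a tight set -/
theorem minT (hk : 1 ≤ k) (hM : MinC r s t tl hd k) (i : I) :
    ∃ Z, Closed r Z ∧ Z.Nonempty ∧ Z ≠ Set.univ ∧ (Ent tl hd Z).ncard = k ∧ i ∈ Ent tl hd Z := by
  classical
  refine minT' hk hM.1 (fun i => hM.2 _ _ _ (Or.inl ?_)) i
  have := Fintype.ofFinite I
  rw [Nat.card_eq_fintype_card, Nat.card_eq_fintype_card]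
  exact Fintype.card_subtype_lt (x := i) (by simp)

/-- Lemma A: a source above the inner tail of an item entering a tight atom lies in the atom -/
theorem minA (hP : PP r s t k) (hM : MinC r s t tl hd k) {i : I} {Z : Set V}
    (hZ : Closed r Z) (hne : Z.Nonempty) (hu : Z ≠ Set.univ)
    (hi : i ∈ Ent tl hd Z) (hA : Atom r Z) (hin : Inn r (tl i)) {v : V} (hv : Src r v)
    (hvt : ReflTransGen r v (tl i)) : v ∈ Z := by
  classical
  by_contra hvZ
  obtain ⟨⟨hG, hV, hC⟩, hmin⟩ := hM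
  have hsrc : Src r (hd i) := atom_src hZ hA hi.1
  have hnb : ∀ x, ¬ (Src r x ∧ Snk r x) := fun x hx => hu (both_trivial hG hx.1 hx.2 hZ hne)
  refine hmin I (Function.update tl i v) hd (Or.inr ⟨rfl, ?_⟩) ⟨⟨hG.ss, hG.tt, ?_⟩, ?_, ?_⟩
  · apply m3_lt (i := i)
    · intro j hj
      exact ⟨Function.update_of_ne hj _ _, rfl⟩
    · rw [Function.update_self]
      unfold wt
      have h1 : ¬ Inn r v := fun h => h.1 hv
      have h2 : ¬ (Src r (hd i) ∧ Snk r v) := fun h => hnb v ⟨hv, h.2⟩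
      have h3 : ¬ (Src r (hd i) ∧ Snk r (tl i)) := fun h => hin.2 h.2
      rw [if_neg h1, if_neg h2, if_pos hin, if_neg h3]
      omega
  · intro j
    by_cases hj : j = i
    · subst hj
      rw [Function.update_self]
      exact Or.inr (Or.inl ⟨hG.src_t hsrc, hG.src_t hv⟩)
    · rw [Function.update_of_ne hj]
      exact hG.kind j
  · apply upd_tail_valid hV
    intro W hW hWne hWu h1 h2 h3 hcard
    rcases hP I tl hd ⟨hG, hV, hC⟩ W hW hWne hWu hcard with h | h
    · exact hvZ (h Z hZ ⟨hd i, hi.1, h1⟩ h3)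
    · exact hin.2 (coatom_snk hW h h2)
  · rintro ⟨c, hc⟩
    exact hC ⟨c, upd_tail_good i v hvt hc⟩

/-- dual of Lemma A -/
theorem minA' (hP : PP r s t k) (hM : MinC r s t tl hd k) {i : I} {Z : Set V}
    (hZ : Closed r Z) (hne : Z.Nonempty) (hu : Z ≠ Set.univ)
    (hi : i ∈ Ent tl hd Z) (hA : Atom r Zᶜ) (hin : Inn r (hd i)) {w : V} (hw : Snk r w)
    (hwt : ReflTransGen r (hd i) w) : w ∉ Z := by
  have := minA hP.op hM.op (Z := Zᶜ) (i := i) (closed_opr.2 hZ) (compl_nonempty' hu)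
    (compl_ne_univ' hne) (by rw [ent_opr]; exact hi) (atom_opr.2 hA) (inn_opr.2 hin)
    (v := w) (src_opr.2 hw) (opr_re.2 hwt)
  exact this

end Main

end GW
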