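import Pool.Agent.GW.Trim

/-!
# No inner ends, exact stars
-/

namespace GW

open Relation Set

variable {V : Type}

variable {I : Type} [Finite I] [Finite V] {r : V → V → Prop} {s t : V} {tl hd : I → V} {k : ℕ}

open Classical in
/-- moving the tail of a minimal system within the inner vertices keeps minimality -/
theorem minC_update (hM : MinC r s t tl hd k) (i : I) (v : V)
    (hin : Inn r (tl i)) (hinv : Inn r v)
    (hkind : ReflTransGen r (hd i) v)
    (hval : Valid r (Function.update tl i v) hd k)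
    (hv : ReflTransGen r v (tl i)) : MinC r s t (Function.update tl i v) hd k := by
  obtain ⟨⟨hG, hV, hC⟩, hmin⟩ := hM
  have hm : m3 r (Function.update tl i v) hd = m3 r tl hd := by
    apply m3_eq (i := i)
    · intro j hj
      exact ⟨Function.update_of_ne hj _ _, rfl⟩
    · rw [Function.update_self]
      unfold wt
      have h2 : ¬ (Src r (hd i) ∧ Snk r v) := fun h => hinv.2 h.2
      have h3 : ¬ (Src r (hd i) ∧ Snk r (tl i)) := fun h => hin.2 h.2
      rw [if_pos hinv, if_pos hin, if_neg h2, if_neg h3]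
  refine ⟨⟨⟨hG.ss, hG.tt, ?_⟩, hval, ?_⟩, ?_⟩
  · intro j
    by_cases hj : j = i
    · subst hj
      rw [Function.update_self]
      exact Or.inl hkind
    · rw [Function.update_of_ne hj]
      exact hG.kind j
  · rintro ⟨c, hc⟩
    exact hC ⟨c, upd_tail_good i v hv hc⟩
  · intro I' _ tl' hd' hlt
    apply hmin I' tl' hd'
    rw [hm] at hlt
    exact hlt

open Classical in
/-- splicing `w → x₂` (item `j`) and `x' → u` (item `i`) into `w → u` -/
theorem splice (hM : MinC r s t tl hd k) {i j : I} (hij : j ≠ i)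
    (h1 : ReflTransGen r (hd i) (tl i)) (h2 : ReflTransGen r (tl i) (hd j))
    (h2' : ReflTransGen r (hd j) (tl i))
    (h3 : ReflTransGen r (hd j) (tl j)) : False := by
  obtain ⟨⟨hG, hV, hC⟩, hmin⟩ := hM
  let I' := {q : I // q ≠ j}
  have hcard : Nat.card I' < Nat.card I := by
    have := Fintype.ofFinite I
    rw [Nat.card_eq_fintype_card, Nat.card_eq_fintype_card]
    exact Fintype.card_subtype_lt (x := j) (by simp)
  let tl' : I' → V := fun q => if q.1 = i then tl j else tl q.1
  let hd' : I' → V := fun q => hd q.1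
  have htl'i : ∀ h : i ≠ j, tl' ⟨i, h⟩ = tl j := fun h => by simp [tl']
  have htl' : ∀ q : I', q.1 ≠ i → tl' q = tl q.1 := fun q h => by simp [tl', h]
  refine hmin I' tl' hd' (Or.inl hcard) ⟨⟨hG.ss, hG.tt, ?_⟩, ?_, ?_⟩
  · intro q
    by_cases hq : q.1 = i
    · left
      have : tl' q = tl j := by simp [tl', hq]
      rw [this]
      show ReflTransGen r (hd q.1) (tl j)
      rw [hq]
      exact (h1.trans h2).trans h3
    · rw [htl' q hq]
      exact hG.kind q.1
  · intro W hW hne hu
    refine (hV W hW hne hu).trans ?_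
    -- injection Ent W → Ent' W
    let f : I → I := fun q => if q = j then i else q
    have hmaps : ∀ q ∈ Ent tl hd W, f q ∈ Subtype.val '' (Ent tl' hd' W) := by
      rintro q ⟨hq1, hq2⟩
      by_cases hqj : q = j
      · have hfq : f q = i := by simp [f, hqj]
        rw [hfq]
        subst hqj
        have hiW : hd i ∈ W := closed_re hW (h1.trans h2) hq1
        refine ⟨⟨i, fun h => hij h.symm⟩, ⟨hiW, ?_⟩, rfl⟩
        rw [htl'i]
        exact hq2
      · have hfq : f q = q := by simp [f, hqj]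
        rw [hfq]
        refine ⟨⟨q, hqj⟩, ⟨hq1, ?_⟩, rfl⟩
        by_cases hqi : q = i
        · subst hqi
          rw [htl'i]
          intro hw
          exact hq2 (closed_re hW (h2.trans h3) hw)
        · rw [htl' _ hqi]
          exact hq2
    have hinj : Set.InjOn f (Ent tl hd W) := by
      intro p hp q hq hpq
      by_cases hpj : p = j
      · by_cases hqj : q = j
        · rw [hpj, hqj]
        · exfalso
          have h5 : i = q := by simpa [f, hpj, hqj] using hpq
          -- i enters W and j enters W: impossible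
          subst h5
          subst hpj
          exact hq.2 (closed_re hW h2 hp.1)
      · by_cases hqj : q = j
        · exfalso
          have h5 : p = i := by simpa [f, hpj, hqj] using hpq
          subst h5
          subst hqj
          exact hp.2 (closed_re hW h2 hq.1)
        · simpa [f, hpj, hqj] using hpq
    calc (Ent tl hd W).ncard ≤ (Subtype.val '' (Ent tl' hd' W)).ncard :=
          Set.ncard_le_ncard_of_injOn f hmaps hinj (Set.toFinite _)
      _ = (Ent tl' hd' W).ncard := Set.ncard_image_of_injective _ Subtype.val_injective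
  · rintro ⟨c, hc⟩
    apply hC
    have hi' : i ≠ j := fun h => hij h.symm
    refine ⟨fun q => if h : q ≠ j then c ⟨q, h⟩ else c ⟨i, hi'⟩, ?_⟩
    intro W hW hne hu p
    obtain ⟨q, hq1, hq2, hq3⟩ := hc W hW hne hu p
    by_cases hqi : q.1 = i
    · have hqe : q = ⟨i, hi'⟩ := Subtype.ext hqi
      subst hqe
      rw [htl'i] at hq3
      have hq2' : hd i ∈ W := hq2
      by_cases hx : tl i ∈ W
      · refine ⟨j, ?_, closed_re hW h2' hx, hq3⟩
        show (if h : j ≠ j then c ⟨j, h⟩ else c ⟨i, hi'⟩) = p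
        rw [dif_neg (fun h => h rfl)]
        exact hq1
      · refine ⟨i, ?_, hq2', hx⟩
        show (if h : i ≠ j then c ⟨i, h⟩ else c ⟨i, hi'⟩) = p
        rw [dif_pos hi']
        exact hq1
    · rw [htl' q hqi] at hq3
      refine ⟨q.1, ?_, hq2, hq3⟩
      show (if h : q.1 ≠ j then c ⟨q.1, h⟩ else c ⟨i, hi'⟩) = p
      rw [dif_pos q.2]
      exact hq1

/-- the tail of an item entering a tight atom is not inner -/
theorem no_inner_tail (hk : 1 ≤ k) (hP : PP r s t k) (hM : MinC r s t tl hd k) {i : I} {Z : Set V}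
    (hZ : Closed r Z) (hne : Z.Nonempty) (hu : Z ≠ Set.univ) (hcard : (Ent tl hd Z).ncard = k)
    (hi : i ∈ Ent tl hd Z) (hA : Atom r Z) : ¬ Inn r (tl i) := by
  classical
  intro hin
  have hG := hM.1.1
  have hV := hM.1.2.1
  -- choose x'
  obtain ⟨x', ⟨hx'1, hx'2⟩, hx'min⟩ := Set.exists_min_image
    ({y | ReflTransGen r y (tl i) ∧ y ∉ Z} : Set V) (fun y => (Idl r y).ncard)
    (Set.toFinite _) ⟨tl i, ReflTransGen.refl, hi.2⟩
  have hmin' : ∀ y, ReflTransGen r y x' → y ∉ Z → ReflTransGen r x' y := by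
    intro y hy hyZ
    have h1 : (Idl r x').ncard ≤ (Idl r y).ncard := hx'min y ⟨hy.trans hx'1, hyZ⟩
    have h2 : Idl r y ⊆ Idl r x' := fun z hz => ReflTransGen.trans hz hy
    have h3 : Idl r y = Idl r x' := Set.eq_of_subset_of_ncard_le h2 h1 (Set.toFinite _)
    exact (idl_eq_iff.1 h3).2
  have hns : ¬ Src r x' := fun h => hx'2 (minA hP hM hZ hne hu hi hA hin h hx'1)
  have hnk : ¬ Snk r x' := by
    intro h
    apply hin.2
    intro y hy
    exact (h y (hx'1.trans hy)).trans hx'1
  obtain ⟨v0, hv0, hv0x⟩ := exists_src r x'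
  have hv0Z : v0 ∈ Z := minA hP hM hZ hne hu hi hA hin hv0 (hv0x.trans hx'1)
  have hux' : ReflTransGen r (hd i) x' := by
    have : hd i ∈ Idl r v0 := atom_idl hZ hA hv0Z ▸ hi.1
    exact ReflTransGen.trans this hv0x
  have hval : Valid r (Function.update tl i x') hd k := by
    apply upd_tail_valid hV
    intro W hW hWne hWu h1 h2 h3 hc
    rcases hP I tl hd hM.1 W hW hWne hWu hc with h | h
    · exact hx'2 (h Z hZ ⟨hd i, hi.1, h1⟩ h3)
    · exact hin.2 (coatom_snk hW h h2)
  have hM1 := minC_update hM i x' hin ⟨hns, hnk⟩ hux' hval hx'1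
  set tl1 := Function.update tl i x' with htl1
  have htl1i : tl1 i = x' := Function.update_self _ _ _
  have htl1j : ∀ j, j ≠ i → tl1 j = tl j := fun j hj => Function.update_of_ne hj _ _
  have hG1 := hM1.1.1
  -- Ent of Z unchanged
  have hEZ : Ent tl1 hd Z = Ent tl hd Z := by
    ext j
    by_cases hj : j = i
    · subst hj
      constructor
      · intro _; exact hi
      · intro _; exact ⟨hi.1, by rw [htl1i]; exact hx'2⟩
    · simp only [Ent, Set.mem_ofPred_eq, htl1j j hj]
  have hZ1u : Idl r x' ≠ Set.univ := by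
    intro h
    apply hnk
    intro y _
    have : y ∈ Idl r x' := h ▸ Set.mem_univ y
    exact this
  have hZZ1 : Z ⊆ Idl r x' := by
    intro y hy
    have : y ∈ Idl r v0 := atom_idl hZ hA hv0Z ▸ hy
    exact ReflTransGen.trans this hv0x
  -- an item with head in the class of x'
  obtain ⟨j, hj, hjZ⟩ : ∃ j ∈ Ent tl1 hd (Idl r x'), hd j ∉ Z := by
    by_contra hcon
    push Not at hcon
    have hsub : Ent tl1 hd (Idl r x') ⊆ Ent tl1 hd Z \ {i} := by
      intro j hj
      refine ⟨⟨hcon j hj, fun h => hj.2 (hZZ1 h)⟩, ?_⟩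
      rintro rfl
      apply hj.2
      rw [htl1i]
      exact self_mem_idl r x'
    have h1 := Set.ncard_le_ncard hsub (Set.toFinite _)
    have hiZ : i ∈ Ent tl1 hd Z := by rw [hEZ]; exact hi
    rw [Set.ncard_sdiff_singleton_of_mem hiZ, hEZ, hcard] at h1
    have h2 := hM1.1.2.1 (Idl r x') (closed_idl r x') ⟨x', self_mem_idl r x'⟩ hZ1u
    omega
  have hjx : ReflTransGen r (hd j) x' := hj.1
  have hxj : ReflTransGen r x' (hd j) := hmin' _ hjx hjZ
  have hji : j ≠ i := by
    rintro rfl
    exact hjZ hi.1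
  have hinj : Inn r (hd j) := by
    constructor
    · intro h
      apply hns
      intro y hy
      exact hxj.trans (h y (hy.trans hxj))
    · intro h
      apply hnk
      intro y hy
      exact (h y (hjx.trans hy)).trans hjx
  -- j enters a tight coatom
  obtain ⟨Z2, hZ2, hne2, hu2, hc2, hj2⟩ := minT hk hM1 j
  have hco : Atom r Z2ᶜ := by
    rcases hP I tl1 hd hM1.1 Z2 hZ2 hne2 hu2 hc2 with h | h
    · exfalso
      have hu2' : hd i ∈ Z2 := closed_re hZ2 (hux'.trans hxj) hj2.1
      exact hjZ (h Z hZ ⟨hd i, hi.1, hu2'⟩ hj2.1)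
    · exact h
  have hjw : ReflTransGen r (hd j) (tl1 j) := by
    obtain ⟨w', hw', hxw'⟩ := exists_snk r (hd j)
    have hw'Z : w' ∉ Z2 := minA' hP hM1 hZ2 hne2 hu2 hj2 hco hinj hw' hxw'
    exact hxw'.trans (coatom_re hco hw'Z hj2.2)
  refine splice hM1 hji ?_ ?_ ?_ hjw
  · rw [htl1i]; exact hux'
  · rw [htl1i]; exact hxj
  · rw [htl1i]; exact hjx

/-- dual statement -/
theorem no_inner_head (hk : 1 ≤ k) (hP : PP r s t k) (hM : MinC r s t tl hd k) {i : I} {Z : Set V}
    (hZ : Closed r Z) (hne : Z.Nonempty) (hu : Z ≠ Set.univ) (hcard : (Ent tl hd Z).ncard = k)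
    (hi : i ∈ Ent tl hd Z) (hA : Atom r Zᶜ) : ¬ Inn r (hd i) := by
  have := no_inner_tail (i := i) (Z := Zᶜ) hk hP.op hM.op (closed_opr.2 hZ) (compl_nonempty' hu)
    (compl_ne_univ' hne) (by rw [ent_opr]; exact hcard) (by rw [ent_opr]; exact hi)
    (atom_opr.2 hA)
  rwa [inn_opr] at this

/-- all ends of a minimal system are in source or sink classes -/
theorem no_inner (hk : 1 ≤ k) (hP : PP r s t k) (hM : MinC r s t tl hd k) (i : I) :
    (Src r (tl i) ∨ Snk r (tl i)) ∧ (Src r (hd i) ∨ Snk r (hd i)) := by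
  obtain ⟨Z, hZ, hne, hu, hc, hi⟩ := minT hk hM i
  have key : ∀ x, ¬ Inn r x → Src r x ∨ Snk r x := by
    intro x hx
    by_contra h
    push Not at h
    exact hx h
  rcases hP I tl hd hM.1 Z hZ hne hu hc with h | h
  · exact ⟨key _ (no_inner_tail hk hP hM hZ hne hu hc hi h), Or.inl (atom_src hZ h hi.1)⟩
  · exact ⟨Or.inr (coatom_snk hZ h hi.2), key _ (no_inner_head hk hP hM hZ hne hu hc hi h)⟩

end GW
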