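import Pool.Agent.GW.Trim2

/-!
# Exact stars of a minimal system
-/

namespace GW

open Relation Set

variable {V : Type}

variable {I : Type} [Finite I] [Finite V] {r : V → V → Prop} {s t : V} {tl hd : I → V} {k : ℕ}

theorem nc_nontrivial (hk : 1 ≤ k) (h : NC r s t tl hd k) :
    ∃ Z, Closed r Z ∧ Z.Nonempty ∧ Z ≠ Set.univ := by
  by_contra hcon
  push Not at hcon
  apply h.2.2
  refine ⟨fun _ => ⟨0, hk⟩, ?_⟩
  intro Z hZ hne hu
  exact absurd (hcon Z hZ hne) hu

theorem nc_not_both (hk : 1 ≤ k) (h : NC r s t tl hd k) (x : V) : ¬ (Src r x ∧ Snk r x) := by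
  obtain ⟨Z, hZ, hne, hu⟩ := nc_nontrivial hk h
  exact fun hx => hu (both_trivial h.1 hx.1 hx.2 hZ hne)

theorem idl_ne_univ (hk : 1 ≤ k) (h : NC r s t tl hd k) {u : V} (hu : Src r u) :
    Idl r u ≠ Set.univ := by
  intro h'
  refine nc_not_both hk h u ⟨hu, fun y _ => ?_⟩
  have : y ∈ Idl r u := h' ▸ Set.mem_univ y
  exact this

theorem idl_opr (x : V) : Idl (opr r) x = Flt r x := by
  ext y
  exact opr_re

open Classical in
/-- exactness of the star of a source, from the two moves used in the proof -/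
theorem exact_src' (hk : 1 ≤ k) (hP : PP r s t k) (hNC : NC r s t tl hd k)
    (hrem : ∀ i : I, ¬ NC r s t (fun j : {j : I // j ≠ i} => tl j.1)
      (fun j : {j : I // j ≠ i} => hd j.1) k)
    (hupd : ∀ i : I, Src r (hd i) → Snk r (tl i) → ¬ Src r t →
      ¬ NC r s t tl (Function.update hd i t) k)
    (ht : Snk r t)
    {u : V} (hu : Src r u) : (Ent tl hd (Idl r u)).ncard = k := by
  by_contra hne'
  have hG := hNC.1
  have hV := hNC.2.1
  have hge := hV (Idl r u) (closed_idl r u) ⟨u, self_mem_idl r u⟩ (idl_ne_univ hk hNC hu)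
  have hnb := nc_not_both hk hNC
  have hhd : ∀ i ∈ Ent tl hd (Idl r u), Idl r (hd i) = Idl r u ∧ Src r (hd i) := by
    intro i hi
    have h1 : ReflTransGen r (hd i) u := hi.1
    have h2 := hu _ h1
    refine ⟨idl_eq_iff.2 ⟨h1, h2⟩, ?_⟩
    intro y hy
    exact h1.trans (hu y (hy.trans h1))
  have hcoat : ∀ i ∈ Ent tl hd (Idl r u), ∃ Z, Closed r Z ∧ Z.Nonempty ∧ Z ≠ Set.univ ∧
      (Ent tl hd Z).ncard = k ∧ i ∈ Ent tl hd Z ∧ Atom r Zᶜ := by
    intro i hi
    obtain ⟨Z, hZ, hne, hZu, hc, hiZ⟩ := minT' hk hNC hrem i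
    refine ⟨Z, hZ, hne, hZu, hc, hiZ, ?_⟩
    rcases hP I tl hd hNC Z hZ hne hZu hc with h | h
    · exfalso
      apply hne'
      rw [← (hhd i hi).1, ← atom_idl hZ h hiZ.1]
      exact hc
    · exact h
  have hA : ∀ i ∈ Ent tl hd (Idl r u), ReflTransGen r t (tl i) := by
    intro i hi
    by_contra htw
    obtain ⟨Z, hZ, hne, hZu, hc, hiZ, hco⟩ := hcoat i hi
    have hsnk : Snk r (tl i) := coatom_snk hZ hco hiZ.2
    obtain ⟨hIdl, hsrc⟩ := hhd i hi
    have hnt : ¬ Src r t := fun h => hnb t ⟨h, ht⟩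
    refine hupd i hsrc hsnk hnt ⟨⟨hG.ss, hG.tt, ?_⟩, ?_, ?_⟩
    · intro j
      by_cases hj : j = i
      · subst hj
        rw [Function.update_self]
        exact Or.inr (Or.inr ⟨hG.s_snk ht, hG.s_snk hsnk⟩)
      · rw [Function.update_of_ne hj]
        exact hG.kind j
    · rw [← valid_opr]
      apply upd_tail_valid (valid_opr.2 hV)
      intro W hW hWne hWu h1 h2 h3 hcard
      have hW' : Closed r Wᶜ := closed_opr'.1 hW
      have hent : (Ent tl hd Wᶜ).ncard = k := by
        rw [← ent_opr, compl_compl]; exact hcard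
      rcases hP I tl hd hNC Wᶜ hW' (compl_nonempty' hWu) (compl_ne_univ' hWne) hent with h | h
      · apply hne'
        rw [← hIdl, ← atom_idl hW' h h2]
        exact hent
      · exact htw (coatom_re h (fun h' => h' h3) (fun h' => h' h1))
    · rintro ⟨c, hc'⟩
      apply hNC.2.2
      refine ⟨c, ?_⟩
      rw [← good_opr] at hc' ⊢
      exact upd_tail_good i t (opr_re.2 (hG.src_t hsrc)) hc'
  -- compare with the star of t
  obtain ⟨i, hi⟩ : (Ent tl hd (Idl r u)).Nonempty := by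
    rw [← Set.ncard_pos (Set.toFinite _)]
    omega
  obtain ⟨Z, hZ, hne, hZu, hc, hiZ, hco⟩ := hcoat i hi
  have htZ : t ∉ Z := fun h => hiZ.2 (closed_re hZ (ht _ (hA i hi)) h)
  have hZt : Z = (Flt r t)ᶜ := coatom_flt hZ hco htZ
  have hsub : Ent tl hd (Idl r u) ⊆ Ent tl hd Z := by
    intro j hj
    rw [hZt]
    refine ⟨?_, fun h => h (hA j hj)⟩
    intro h
    have h1 : ReflTransGen r t (hd j) := h
    have h2 : ReflTransGen r (hd j) t := ht _ h1
    apply hnb t
    refine ⟨?_, ht⟩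
    intro y hy
    exact h1.trans ((hhd j hj).2 y (hy.trans h1))
  have := Set.ncard_le_ncard hsub (Set.toFinite _)
  omega

theorem nc_opr_iff {I' : Type} {tl' hd' : I' → V} :
    NC (opr r) t s hd' tl' k ↔ NC r s t tl' hd' k :=
  ⟨fun h => h.op, fun h => h.op⟩

open Classical in
/-- exactness of the star of a sink -/
theorem exact_snk' (hk : 1 ≤ k) (hP : PP r s t k) (hNC : NC r s t tl hd k)
    (hrem : ∀ i : I, ¬ NC r s t (fun j : {j : I // j ≠ i} => tl j.1)
      (fun j : {j : I // j ≠ i} => hd j.1) k)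
    (hupd : ∀ i : I, Src r (hd i) → Snk r (tl i) → ¬ Snk r s →
      ¬ NC r s t (Function.update tl i s) hd k)
    (hs : Src r s)
    {w : V} (hw : Snk r w) : (Ent tl hd (Flt r w)ᶜ).ncard = k := by
  have := exact_src' hk hP.op hNC.op (fun i h => hrem i (nc_opr_iff.1 h))
    (fun i h1 h2 h3 h4 => hupd i (snk_opr.1 h2) (src_opr.1 h1) (fun h => h3 (src_opr.2 h))
      (nc_opr_iff.1 h4))
    (snk_opr.2 hs) (u := w) (src_opr.2 hw)
  rw [idl_opr] at this
  rw [← ent_opr, compl_compl]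
  exact this

theorem card_rem_lt (i : I) : Nat.card {j : I // j ≠ i} < Nat.card I := by
  classical
  have := Fintype.ofFinite I
  rw [Nat.card_eq_fintype_card, Nat.card_eq_fintype_card]
  exact Fintype.card_subtype_lt (x := i) (by simp)

open Classical in
theorem exact_src (hk : 1 ≤ k) (hP : PP r s t k) (hM : MinC r s t tl hd k) (ht : Snk r t)
    {u : V} (hu : Src r u) : (Ent tl hd (Idl r u)).ncard = k := by
  refine exact_src' hk hP hM.1 (fun i => hM.2 _ _ _ (Or.inl (card_rem_lt i))) ?_ ht hu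
  intro i hsrc hsnk hnt
  apply hM.2 I tl (Function.update hd i t) (Or.inr ⟨rfl, ?_⟩)
  apply m3_lt (i := i)
  · intro j hj
    exact ⟨rfl, Function.update_of_ne hj _ _⟩
  · rw [Function.update_self]
    unfold wt
    have h1 : ¬ Inn r (tl i) := fun h => h.2 hsnk
    have h2 : ¬ Inn r t := fun h => h.2 ht
    have h3 : ¬ Inn r (hd i) := fun h => h.1 hsrc
    have h4 : ¬ (Src r t ∧ Snk r (tl i)) := fun h => hnt h.1
    rw [if_neg h1, if_neg h2, if_neg h3, if_neg h4, if_pos ⟨hsrc, hsnk⟩]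
    omega

theorem exact_snk (hk : 1 ≤ k) (hP : PP r s t k) (hM : MinC r s t tl hd k) (hs : Src r s)
    {w : V} (hw : Snk r w) : (Ent tl hd (Flt r w)ᶜ).ncard = k := by
  have := exact_src hk hP.op hM.op (snk_opr.2 hs) (u := w) (src_opr.2 hw)
  rw [idl_opr] at this
  rw [← ent_opr, compl_compl]
  exact this

end GW
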